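import Pool.Agent.H203.HX.Defs

set_option autoImplicit false

/-! (EP): the expectations of the products of the weights. -/

open Complex Filter Topology Set MeasureTheory

namespace Pool.Agent.H203.HX

open Pool.Agent.H203.ME (ee)

namespace EPL

theorem ee_cont (p : ℕ) : Continuous (ee p) := by
  unfold ee
  fun_prop

theorem norm_ee (p : ℕ) (t : ℝ) : ‖ee p t‖ = 1 := by
  unfold ee
  rw [← neg_mul, ← Complex.ofReal_neg, Complex.norm_exp_ofReal_mul_I]

theorem ee_add (p : ℕ) (x y : ℝ) : ee p (x + y) = ee p x * ee p y := by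
  unfold ee
  rw [← Complex.exp_add]
  congr 1
  push_cast
  ring

theorem ee_re (p : ℕ) (t : ℝ) : (ee p t).re = Real.cos (t * Real.log p) := by
  unfold ee
  rw [← neg_mul, ← Complex.ofReal_neg, Complex.exp_ofReal_mul_I_re, Real.cos_neg]

theorem ee_im (p : ℕ) (t : ℝ) : (ee p t).im = -Real.sin (t * Real.log p) := by
  unfold ee
  rw [← neg_mul, ← Complex.ofReal_neg, Complex.exp_ofReal_mul_I_im, Real.sin_neg]

theorem Yb_cont (u : ℕ → ℂ) (lo hi : ℝ) : Continuous (Yb u lo hi) := by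
  unfold Yb
  refine continuous_const.mul (Complex.continuous_im.comp ?_)
  refine continuous_finsetSum _ fun p _ => ?_
  exact (continuous_const.mul (ee_cont p)).div_const _

theorem mem_PB {lo hi : ℝ} {p : ℕ} (h : p ∈ PB lo hi) : 1 ≤ p ∧ p.Prime ∧ lo < Real.log p ∧ Real.log p ≤ hi := by
  unfold PB at h
  rw [Finset.mem_filter, Finset.mem_Icc] at h
  obtain ⟨⟨h1, h2⟩, h3, h4⟩ := h
  refine ⟨h1, h3, h4, ?_⟩
  have h5 : (p : ℝ) ≤ Real.exp hi := by
    refine le_trans (Nat.cast_le.mpr h2) (Nat.floor_le (Real.exp_pos _).le)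
  have h6 : (0 : ℝ) < p := by exact_mod_cast h1
  rw [Real.log_le_iff_le_exp h6]
  exact h5

noncomputable def bb (u : ℕ → ℂ) (v1 v2 x z : ℝ) (p : ℕ) : ℂ :=
  ((1 / Real.pi : ℝ) : ℂ) * (-I) * u p * ((v1 : ℂ) * ee p x + (v2 : ℂ) * ee p z) / (Real.sqrt p : ℂ)

theorem re_aux (w a b c : ℂ) (v1 v2 r s : ℝ) :
    v1 * (r * (w * (c * a) / (s : ℂ)).im) + v2 * (r * (w * (c * b) / (s : ℂ)).im) =
      ((r : ℂ) * (-I) * w * ((v1 : ℂ) * a + (v2 : ℂ) * b) / (s : ℂ) * c).re := by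
  have e : (r : ℂ) * (-I) * w * ((v1 : ℂ) * a + (v2 : ℂ) * b) / (s : ℂ) * c =
      ((v1 : ℂ) * ((r : ℂ) * (w * (c * a) / (s : ℂ))) + (v2 : ℂ) * ((r : ℂ) * (w * (c * b) / (s : ℂ)))) * (-I) := by ring
  rw [e, mul_neg, Complex.neg_re, Complex.mul_I_re, neg_neg, Complex.add_im, Complex.im_ofReal_mul,
    Complex.im_ofReal_mul, Complex.im_ofReal_mul, Complex.im_ofReal_mul]

theorem re_eq (u : ℕ → ℂ) (lo hi v1 v2 x z t : ℝ) :
    v1 * Yb u lo hi (t + x) + v2 * Yb u lo hi (t + z) = (∑ p ∈ PB lo hi, bb u v1 v2 x z p * ee p t).re := by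
  unfold Yb
  rw [Complex.im_sum, Complex.im_sum, Complex.re_sum, Finset.mul_sum, Finset.mul_sum, Finset.mul_sum, Finset.mul_sum,
    ← Finset.sum_add_distrib]
  refine Finset.sum_congr rfl fun p _ => ?_
  unfold bb
  rw [ee_add, ee_add]
  exact re_aux _ _ _ _ _ _ _ _

theorem norm_comb (p : ℕ) (v1 v2 x z : ℝ) : ‖(v1 : ℂ) * ee p x + (v2 : ℂ) * ee p z‖ ^ 2 =
    v1 ^ 2 + v2 ^ 2 + 2 * v1 * v2 * Real.cos ((x - z) * Real.log p) := by
  rw [← Complex.normSq_eq_norm_sq, Complex.normSq_apply, Complex.add_re, Complex.add_im, Complex.re_ofReal_mul,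
    Complex.re_ofReal_mul, Complex.im_ofReal_mul, Complex.im_ofReal_mul, ee_re, ee_re, ee_im, ee_im, sub_mul,
    Real.cos_sub]
  have h1 := Real.cos_sq_add_sin_sq (x * Real.log p)
  have h2 := Real.cos_sq_add_sin_sq (z * Real.log p)
  linear_combination v1 ^ 2 * h1 + v2 ^ 2 * h2

theorem norm_bb (u : ℕ → ℂ) (v1 v2 x z : ℝ) (p : ℕ) : ‖bb u v1 v2 x z p‖ =
    1 / Real.pi * ‖u p‖ * ‖(v1 : ℂ) * ee p x + (v2 : ℂ) * ee p z‖ / Real.sqrt p := by
  unfold bb
  rw [norm_div, norm_mul, norm_mul, norm_mul, norm_neg, Complex.norm_I, Complex.norm_real, Complex.norm_real,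
    Real.norm_of_nonneg (Real.sqrt_nonneg _), Real.norm_of_nonneg (by positivity), mul_one]

theorem norm_sq (u : ℕ → ℂ) (v1 v2 x z : ℝ) (p : ℕ) (hu : ‖u p‖ = 1) : ‖bb u v1 v2 x z p‖ ^ 2 =
    1 / Real.pi ^ 2 * ((v1 ^ 2 + v2 ^ 2 + 2 * v1 * v2 * Real.cos ((x - z) * Real.log p)) / p) := by
  rw [norm_bb, hu, mul_one, div_pow, mul_pow, norm_comb, Real.sq_sqrt (Nat.cast_nonneg p)]
  ring

theorem norm_comb_le (p : ℕ) (v1 v2 x z U : ℝ) (h1 : |v1| ≤ U) (h2 : |v2| ≤ U) :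
    ‖(v1 : ℂ) * ee p x + (v2 : ℂ) * ee p z‖ ≤ 2 * U := by
  refine le_trans (norm_add_le _ _) ?_
  rw [norm_mul, norm_mul, norm_ee, norm_ee, Complex.norm_real, Complex.norm_real, Real.norm_eq_abs, Real.norm_eq_abs]
  linarith

theorem norm_le (u : ℕ → ℂ) (v1 v2 x z U : ℝ) (p : ℕ) (hp : 1 ≤ p) (hu : ‖u p‖ ≤ 1) (h1 : |v1| ≤ U) (h2 : |v2| ≤ U) :
    ‖bb u v1 v2 x z p‖ ≤ U * Real.exp (-(Real.log p / 2)) := by
  have hU : 0 ≤ U := le_trans (abs_nonneg _) h1
  have hp0 : (0 : ℝ) < p := by exact_mod_cast hp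
  rw [norm_bb]
  have e : Real.sqrt p = Real.exp (Real.log p / 2) := by
    rw [Real.exp_half, Real.exp_log hp0]
  rw [e, div_eq_mul_inv, ← Real.exp_neg]
  refine mul_le_mul_of_nonneg_right ?_ (Real.exp_pos _).le
  have h3 := norm_comb_le p v1 v2 x z U h1 h2
  have h4 : 1 / Real.pi ≤ 1 / 2 := by
    apply one_div_le_one_div_of_le (by norm_num)
    linarith [Real.pi_gt_three]
  calc 1 / Real.pi * ‖u p‖ * ‖(v1 : ℂ) * ee p x + (v2 : ℂ) * ee p z‖
      ≤ 1 / 2 * 1 * (2 * U) := by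
        refine mul_le_mul (mul_le_mul h4 hu (norm_nonneg _) (by norm_num)) h3 (norm_nonneg _) (by norm_num)
    _ = U := by ring

theorem sq_le (u : ℕ → ℂ) (v1 v2 x z U : ℝ) (p : ℕ) (hu : ‖u p‖ ≤ 1) (h1 : |v1| ≤ U) (h2 : |v2| ≤ U) :
    ‖bb u v1 v2 x z p‖ ^ 2 ≤ U ^ 2 * (1 / (p : ℝ)) := by
  have hU : 0 ≤ U := le_trans (abs_nonneg _) h1
  rw [norm_bb, div_pow, Real.sq_sqrt (Nat.cast_nonneg p), div_eq_mul_one_div]
  refine mul_le_mul_of_nonneg_right ?_ (by positivity)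
  have h3 := norm_comb_le p v1 v2 x z U h1 h2
  have h4 : 1 / Real.pi ≤ 1 / 2 := by
    apply one_div_le_one_div_of_le (by norm_num)
    linarith [Real.pi_gt_three]
  refine pow_le_pow_left₀ (by positivity) ?_ 2
  calc 1 / Real.pi * ‖u p‖ * ‖(v1 : ℂ) * ee p x + (v2 : ℂ) * ee p z‖
      ≤ 1 / 2 * 1 * (2 * U) := by
        refine mul_le_mul (mul_le_mul h4 hu (norm_nonneg _) (by norm_num)) h3 (norm_nonneg _) (by norm_num)
    _ = U := by ring

open Classical in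
noncomputable def bt (u : ℕ → ℂ) (K : ℕ) (lo hi : Fin K → ℝ) (v : Fin K → ℝ × ℝ) (x : ℝ) (z : Fin K → ℝ) (p : ℕ) : ℂ :=
  ∑ j : Fin K, if p ∈ PB (lo j) (hi j) then bb u (v j).1 (v j).2 x (z j) p else 0

theorem bt_sum (u : ℕ → ℂ) (K : ℕ) (lo hi : Fin K → ℝ) (v : Fin K → ℝ × ℝ) (x : ℝ) (z : Fin K → ℝ) (S : Finset ℕ)
    (hS : ∀ j, PB (lo j) (hi j) ⊆ S) (t : ℝ) :
    ∑ p ∈ S, bt u K lo hi v x z p * ee p t = ∑ j : Fin K, ∑ p ∈ PB (lo j) (hi j), bb u (v j).1 (v j).2 x (z j) p * ee p t := by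
  classical
  unfold bt
  simp only [Finset.sum_mul, ite_mul, zero_mul]
  rw [Finset.sum_comm]
  refine Finset.sum_congr rfl fun j _ => ?_
  rw [Finset.sum_ite_mem, Finset.inter_eq_right.mpr (hS j)]

theorem bt_mem (u : ℕ → ℂ) (K : ℕ) (lo hi : Fin K → ℝ) (v : Fin K → ℝ × ℝ) (x : ℝ) (z : Fin K → ℝ) (p : ℕ)
    (hd : ∀ i j : Fin K, i ≠ j → p ∈ PB (lo i) (hi i) → p ∉ PB (lo j) (hi j)) (j : Fin K) (hj : p ∈ PB (lo j) (hi j)) :
    bt u K lo hi v x z p = bb u (v j).1 (v j).2 x (z j) p := by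
  classical
  unfold bt
  rw [Finset.sum_eq_single j]
  · rw [if_pos hj]
  · intro i _ hi'
    rw [if_neg (hd j i (Ne.symm hi') hj)]
  · intro h
    exact absurd (Finset.mem_univ j) h

theorem bt_not (u : ℕ → ℂ) (K : ℕ) (lo hi : Fin K → ℝ) (v : Fin K → ℝ × ℝ) (x : ℝ) (z : Fin K → ℝ) (p : ℕ)
    (hn : ∀ j : Fin K, p ∉ PB (lo j) (hi j)) : bt u K lo hi v x z p = 0 := by
  classical
  unfold bt
  refine Finset.sum_eq_zero fun j _ => ?_
  rw [if_neg (hn j)]

open Classical in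
theorem bt_sq (u : ℕ → ℂ) (K : ℕ) (lo hi : Fin K → ℝ) (v : Fin K → ℝ × ℝ) (x : ℝ) (z : Fin K → ℝ) (p : ℕ)
    (hd : ∀ i j : Fin K, i ≠ j → p ∈ PB (lo i) (hi i) → p ∉ PB (lo j) (hi j)) :
    ‖bt u K lo hi v x z p‖ ^ 2 = ∑ j : Fin K, if p ∈ PB (lo j) (hi j) then ‖bb u (v j).1 (v j).2 x (z j) p‖ ^ 2 else 0 := by
  by_cases h : ∃ j, p ∈ PB (lo j) (hi j)
  · obtain ⟨j, hj⟩ := h
    rw [bt_mem u K lo hi v x z p hd j hj, Finset.sum_eq_single j]
    · rw [if_pos hj]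
    · intro i _ hi'
      rw [if_neg (hd j i (Ne.symm hi') hj)]
    · intro h
      exact absurd (Finset.mem_univ j) h
  · push Not at h
    rw [bt_not u K lo hi v x z p h, norm_zero]
    symm
    rw [zero_pow (by norm_num)]
    refine Finset.sum_eq_zero fun j _ => ?_
    rw [if_neg (h j)]

theorem bt_sq_sum (u : ℕ → ℂ) (K : ℕ) (lo hi : Fin K → ℝ) (v : Fin K → ℝ × ℝ) (x : ℝ) (z : Fin K → ℝ) (S : Finset ℕ)
    (hS : ∀ j, PB (lo j) (hi j) ⊆ S)
    (hd : ∀ p, ∀ i j : Fin K, i ≠ j → p ∈ PB (lo i) (hi i) → p ∉ PB (lo j) (hi j)) :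
    ∑ p ∈ S, ‖bt u K lo hi v x z p‖ ^ 2 = ∑ j : Fin K, ∑ p ∈ PB (lo j) (hi j), ‖bb u (v j).1 (v j).2 x (z j) p‖ ^ 2 := by
  classical
  rw [Finset.sum_congr rfl fun p _ => bt_sq u K lo hi v x z p (hd p), Finset.sum_comm]
  refine Finset.sum_congr rfl fun j _ => ?_
  rw [Finset.sum_ite_mem, Finset.inter_eq_right.mpr (hS j)]

theorem V_eq (u : ℕ → ℂ) (lo hi v1 v2 x z : ℝ) (hu : ∀ p ∈ PB lo hi, ‖u p‖ = 1) :
    ∑ p ∈ PB lo hi, ‖bb u v1 v2 x z p‖ ^ 2 =
      2 * (Vb lo hi 0 * v1 ^ 2 + Vb lo hi 0 * v2 ^ 2 + 2 * Vb lo hi (x - z) * v1 * v2) := by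
  rw [Finset.sum_congr rfl fun p hp => norm_sq u v1 v2 x z p (hu p hp)]
  unfold Vb
  simp only [zero_mul, Real.cos_zero]
  have e : ∀ p : ℕ, 1 / Real.pi ^ 2 * ((v1 ^ 2 + v2 ^ 2 + 2 * v1 * v2 * Real.cos ((x - z) * Real.log p)) / p) =
      1 / Real.pi ^ 2 * (v1 ^ 2 + v2 ^ 2) * (1 / (p : ℝ)) +
        1 / Real.pi ^ 2 * (2 * v1 * v2) * (Real.cos ((x - z) * Real.log p) / p) := by
    intro p
    ring
  rw [Finset.sum_congr rfl fun p _ => e p, Finset.sum_add_distrib, ← Finset.mul_sum, ← Finset.mul_sum]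
  ring

theorem Vb_le (lo hi τ : ℝ) : |Vb lo hi τ| ≤ Vb lo hi 0 := by
  unfold Vb
  rw [abs_mul, abs_of_nonneg (by positivity : (0 : ℝ) ≤ 1 / (2 * Real.pi ^ 2))]
  refine mul_le_mul_of_nonneg_left ?_ (by positivity)
  refine le_trans (Finset.abs_sum_le_sum_abs _ _) ?_
  refine Finset.sum_le_sum fun p _ => ?_
  rw [abs_div, zero_mul, Real.cos_zero, abs_of_nonneg (Nat.cast_nonneg p : (0 : ℝ) ≤ (p : ℝ))]
  exact div_le_div_of_nonneg_right (Real.abs_cos_le_one _) (Nat.cast_nonneg p)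

theorem PB_sub (lo hi H : ℝ) (h : hi ≤ H) : PB lo hi ⊆ (Finset.Icc 1 ⌊Real.exp H⌋₊).filter Nat.Prime := by
  intro p hp
  obtain ⟨h1, h2, h3, h4⟩ := mem_PB hp
  have hp0 : (0 : ℝ) < p := by exact_mod_cast h1
  rw [Finset.mem_filter, Finset.mem_Icc]
  refine ⟨⟨h1, ?_⟩, h2⟩
  refine Nat.le_floor ?_
  rw [← Real.log_le_iff_le_exp hp0]
  linarith

/-- the uniform measure on `[T, 2T]` -/
noncomputable def PP (T : ℝ) : Measure ℝ := ENNReal.ofReal (1 / T) • volume.restrict (Set.Ioc T (2 * T))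

theorem PP_prob (T : ℝ) (hT : 0 < T) : IsProbabilityMeasure (PP T) := by
  refine ⟨?_⟩
  unfold PP
  rw [Measure.smul_apply, Measure.restrict_apply_univ, Real.volume_Ioc, smul_eq_mul,
    ← ENNReal.ofReal_mul (by positivity)]
  have e : 1 / T * (2 * T - T) = 1 := by
    field_simp
    ring
  rw [e, ENNReal.ofReal_one]

theorem PP_int {E : Type} [NormedAddCommGroup E] [NormedSpace ℝ E] (T : ℝ) (hT : 0 < T) (f : ℝ → E) :
    ∫ t, f t ∂(PP T) = (1 / T : ℝ) • ∫ t in T..(2 * T), f t := by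
  unfold PP
  rw [integral_smul_measure, ENNReal.toReal_ofReal (by positivity), intervalIntegral.integral_of_le (by linarith)]

/-- the largeness conditions -/
theorem large (A δ C : ℝ) (K p0 : ℕ) (hA : 0 < A) (hδ : 0 < δ) (L1 : ℝ) : ∃ L0 : ℝ, 3 ≤ L0 ∧ ∀ L : ℝ, L0 ≤ L →
    L1 ≤ L ∧ 1 ≤ Real.log L ∧ (p0 : ℝ) ≤ Real.exp (L ^ δ) ∧ Real.log L * Real.exp (-(L ^ δ)) ≤ Real.exp (-(L ^ δ / 4)) ∧
    K * C ≤ Real.log L ∧ 2 ≤ Real.log L ∧ L ^ (-(A + 4)) + 8 * K * Real.exp (-((Real.log L) ^ 2 / 4)) ≤ L ^ (-A) := by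
  have t1 : Tendsto (fun L : ℝ => L ^ δ) atTop atTop := tendsto_rpow_atTop hδ
  have t2 : Tendsto Real.log atTop atTop := Real.tendsto_log_atTop
  have t3 : Tendsto (fun L : ℝ => Real.exp (L ^ δ)) atTop atTop := Real.tendsto_exp_atTop.comp t1
  have t4 := (isLittleO_log_rpow_atTop hδ).bound (show (0 : ℝ) < 3 / 4 by norm_num)
  have h1 := (((((((eventually_ge_atTop (3 : ℝ)).and (eventually_ge_atTop L1)).and
    (t2.eventually_ge_atTop (max 2 (4 * (A + 16 * K))))).and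
    (t3.eventually_ge_atTop (p0 : ℝ))).and t4).and (t2.eventually_ge_atTop (K * C))))
  obtain ⟨L0, hL0⟩ := Filter.eventually_atTop.mp h1
  refine ⟨max 3 L0, le_max_left _ _, ?_⟩
  intro L hL
  obtain ⟨⟨⟨⟨⟨g1, g2⟩, g3⟩, g4⟩, g5⟩, g6⟩ := hL0 L (le_trans (le_max_right _ _) hL)
  have hL0' : (0 : ℝ) < L := by linarith
  have g3a : 2 ≤ Real.log L := le_trans (le_max_left _ _) g3
  have g3b : 4 * (A + 16 * K) ≤ Real.log L := le_trans (le_max_right _ _) g3
  refine ⟨g2, by linarith, g4, ?_, g6, g3a, ?_⟩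
  · have hp : 0 < L ^ δ := Real.rpow_pos_of_pos hL0' _
    rw [Real.norm_of_nonneg (by linarith), Real.norm_of_nonneg hp.le] at g5
    have e : Real.exp (-(L ^ δ / 4)) = Real.exp (3 / 4 * L ^ δ) * Real.exp (-(L ^ δ)) := by
      rw [← Real.exp_add]
      congr 1
      ring
    rw [e]
    refine mul_le_mul_of_nonneg_right ?_ (Real.exp_pos _).le
    have := Real.add_one_le_exp (3 / 4 * L ^ δ)
    linarith
  · have hA1 : L ^ (-(A + 4)) ≤ 1 / 2 * L ^ (-A) := by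
      have e : L ^ (-(A + 4)) = L ^ (-(4 : ℝ)) * L ^ (-A) := by
        rw [← Real.rpow_add hL0']
        congr 1
        ring
      rw [e]
      refine mul_le_mul_of_nonneg_right ?_ (Real.rpow_nonneg hL0'.le _)
      rw [Real.rpow_neg hL0'.le]
      have e4 : L ^ (4 : ℝ) = L ^ 4 := by
        exact_mod_cast Real.rpow_natCast L 4
      rw [e4, one_div]
      refine inv_anti₀ (by norm_num) ?_
      have : (3 : ℝ) ^ 4 ≤ L ^ 4 := pow_le_pow_left₀ (by norm_num) g1 4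
      linarith [this, show (2 : ℝ) ≤ 3 ^ 4 by norm_num]
    have hA2 : 8 * K * Real.exp (-((Real.log L) ^ 2 / 4)) ≤ 1 / 2 * L ^ (-A) := by
      have e : L ^ (-A) = Real.exp ((Real.log L) ^ 2 / 4 - A * Real.log L) * Real.exp (-((Real.log L) ^ 2 / 4)) := by
        rw [← Real.exp_add, Real.rpow_def_of_pos hL0']
        congr 1
        ring
      rw [e, ← mul_assoc]
      refine mul_le_mul_of_nonneg_right ?_ (Real.exp_pos _).le
      have h5 := Real.add_one_le_exp ((Real.log L) ^ 2 / 4 - A * Real.log L)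
      have h6 : 16 * (K : ℝ) ≤ (Real.log L) ^ 2 / 4 - A * Real.log L := by
        have hK : (0 : ℝ) ≤ K := Nat.cast_nonneg K
        have h7 : 16 * (K : ℝ) ≤ Real.log L / 4 - A := by linarith
        calc 16 * (K : ℝ) = 16 * K * 1 := by ring
          _ ≤ (Real.log L / 4 - A) * Real.log L := by
            refine mul_le_mul h7 (by linarith) (by norm_num) (by linarith)
          _ = _ := by ring
      linarith
    linarith

end EPL

open EPL in
theorem t_EP (hF : S_FI) (hQ : S_QC) (hC : S_CB) : S_EP := by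
  intro u hu hUm K A δ hK hA hδ hδ8
  obtain ⟨p0, hp0⟩ := hUm
  obtain ⟨C, hCpos, hCB⟩ := hC
  obtain ⟨L1, hL1, hQC⟩ := hQ (A + 4) δ (by linarith) hδ (by linarith)
  obtain ⟨L0, hL0, hlarge⟩ := large A δ C K p0 hA hδ L1
  refine ⟨L0, hL0, ?_⟩
  intro T h L κ a hT hh hh2 hLdef hL hκ ha x z c hc
  obtain ⟨g1, g2, g3, g4, g5, g6, g7⟩ := hlarge L hL
  have hL3 : 3 ≤ L := le_trans hL0 hL
  have hLpos : 0 < L := by linarith
  have hT0 : 0 < T := by linarith
  have hlT : 0 < Real.log T := Real.log_pos hT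
  have hKr : (0 : ℝ) < K := by exact_mod_cast hK
  have hκ0 : 0 < κ := by
    rw [hκ]
    apply div_pos (by linarith) hKr
  have hinv : 2 ≤ h⁻¹ := by
    rw [le_inv_comm₀ (by norm_num) hh]
    linarith
  have hLδ : 1 ≤ L ^ δ := Real.one_le_rpow (by linarith) hδ.le
  -- the boundaries
  have hmono : ∀ i j : ℕ, i ≤ j → eb h L δ κ i ≤ eb h L δ κ j := by
    intro i j hij
    unfold eb
    refine mul_le_mul_of_nonneg_left ?_ (by positivity)
    refine Real.rpow_le_rpow_of_exponent_le (by linarith) ?_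
    have : (i : ℝ) ≤ j := by exact_mod_cast hij
    nlinarith
  have hlow : ∀ j : ℕ, 2 * L ^ δ ≤ eb h L δ κ j := by
    intro j
    refine le_trans ?_ (hmono 0 j (Nat.zero_le j))
    unfold eb
    rw [Nat.cast_zero, zero_mul, add_zero]
    exact mul_le_mul_of_nonneg_right hinv (by linarith)
  have hsub : ∀ j : Fin K, PB (eb h L δ κ j) (eb h L δ κ (j + 1)) ⊆
      (Finset.Icc 1 ⌊Real.exp (eb h L δ κ K)⌋₊).filter Nat.Prime := by
    intro j
    exact PB_sub _ _ _ (hmono _ _ j.isLt)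
  have hdisj : ∀ p, ∀ i j : Fin K, i ≠ j → p ∈ PB (eb h L δ κ i) (eb h L δ κ (i + 1)) →
      p ∉ PB (eb h L δ κ j) (eb h L δ κ (j + 1)) := by
    intro p i j hij hi hj
    obtain ⟨-, -, a1, a2⟩ := mem_PB hi
    obtain ⟨-, -, b1, b2⟩ := mem_PB hj
    rcases lt_or_gt_of_ne hij with hlt | hlt
    · have h1 : (i : ℕ) + 1 ≤ (j : ℕ) := hlt
      have h2 := hmono _ _ h1
      linarith
    · have h1 : (j : ℕ) + 1 ≤ (i : ℕ) := hlt
      have h2 := hmono _ _ h1
      linarith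
  have hunit : ∀ j : Fin K, ∀ p ∈ PB (eb h L δ κ j) (eb h L δ κ (j + 1)), ‖u p‖ = 1 := by
    intro j p hp
    obtain ⟨a0, a1, a2, a3⟩ := mem_PB hp
    refine hp0 p a1 ?_
    have hp1 : (0 : ℝ) < p := by exact_mod_cast a0
    have h1 : L ^ δ ≤ Real.log p := by
      have := hlow j
      linarith
    have h2 : Real.exp (L ^ δ) ≤ p := by
      rw [← Real.le_log_iff_exp_le hp1]
      exact h1
    exact_mod_cast le_trans g3 h2
  have := PP_prob T hT0
  have hFI := hF ℝ (PP T) K (fun j t => Yb u (eb h L δ κ j) (eb h L δ κ (j + 1)) (t + x))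
    (fun j t => Yb u (eb h L δ κ j) (eb h L δ κ (j + 1)) (t + z j)) c
    (fun j => Vb (eb h L δ κ j) (eb h L δ κ (j + 1)) 0) (fun j => Vb (eb h L δ κ j) (eb h L δ κ (j + 1)) (x - z j)) a
    (L ^ (-(A + 4))) (Real.log L)
    (fun j => ((Yb_cont u _ _).comp (continuous_id.add continuous_const)).measurable)
    (fun j => ((Yb_cont u _ _).comp (continuous_id.add continuous_const)).measurable)
    (fun j => by rcases hc j with h1 | h1 <;> rw [h1] <;> norm_num)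
    (fun j => by rcases hc j with h1 | h1 <;> rw [h1] <;> norm_num)
    (fun j => Vb_le _ _ _)
    (Real.rpow_nonneg hLpos.le _) g2 ?_
  · rw [PP_int T hT0, smul_eq_mul] at hFI
    exact le_trans hFI g7
  · intro v hv
    have hbsum := bt_sq_sum u K (fun j => eb h L δ κ j) (fun j => eb h L δ κ (j + 1)) v x z _ hsub hdisj
    have key := hQC T L hT g1 (by
        rw [hLdef]
        nlinarith) ⌊Real.exp (eb h L δ κ K)⌋₊
      (bt u K (fun j => eb h L δ κ j) (fun j => eb h L δ κ (j + 1)) v x z) ?_ ?_ ?_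
    · rw [PP_int T hT0]
      have e1 : ∀ t : ℝ, (∑ j, ((v j).1 * Yb u (eb h L δ κ j) (eb h L δ κ (j + 1)) (t + x) +
          (v j).2 * Yb u (eb h L δ κ j) (eb h L δ κ (j + 1)) (t + z j))) =
          (∑ p ∈ (Finset.Icc 1 ⌊Real.exp (eb h L δ κ K)⌋₊).filter Nat.Prime,
            bt u K (fun j => eb h L δ κ j) (fun j => eb h L δ κ (j + 1)) v x z p * ee p t).re := by
        intro t
        rw [bt_sum u K (fun j => eb h L δ κ j) (fun j => eb h L δ κ (j + 1)) v x z _ hsub t, Complex.re_sum]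
        exact Finset.sum_congr rfl fun j _ => re_eq _ _ _ _ _ _ _ _
      have e2 : ∑ p ∈ (Finset.Icc 1 ⌊Real.exp (eb h L δ κ K)⌋₊).filter Nat.Prime,
          ‖bt u K (fun j => eb h L δ κ j) (fun j => eb h L δ κ (j + 1)) v x z p‖ ^ 2 =
          2 * ∑ j : Fin K, (Vb (eb h L δ κ j) (eb h L δ κ (j + 1)) 0 * (v j).1 ^ 2 +
            Vb (eb h L δ κ j) (eb h L δ κ (j + 1)) 0 * (v j).2 ^ 2 +
            2 * Vb (eb h L δ κ j) (eb h L δ κ (j + 1)) (x - z j) * (v j).1 * (v j).2) := by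
        rw [hbsum, Finset.mul_sum]
        exact Finset.sum_congr rfl fun j _ => V_eq _ _ _ _ _ _ _ (hunit j)
      rw [e2] at key
      simp only [e1]
      have e3 : cexp (-((2 * ∑ j : Fin K, (Vb (eb h L δ κ j) (eb h L δ κ (j + 1)) 0 * (v j).1 ^ 2 +
            Vb (eb h L δ κ j) (eb h L δ κ (j + 1)) 0 * (v j).2 ^ 2 +
            2 * Vb (eb h L δ κ j) (eb h L δ κ (j + 1)) (x - z j) * (v j).1 * (v j).2) : ℝ) : ℂ) / 4) =
          cexp (-(((∑ j : Fin K, (Vb (eb h L δ κ j) (eb h L δ κ (j + 1)) 0 * (v j).1 ^ 2 +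
            Vb (eb h L δ κ j) (eb h L δ κ (j + 1)) 0 * (v j).2 ^ 2 +
            2 * Vb (eb h L δ κ j) (eb h L δ κ (j + 1)) (x - z j) * (v j).1 * (v j).2)) / 2 : ℝ) : ℂ)) := by
        rw [Complex.ofReal_mul, Complex.ofReal_div]
        congr 1
        push_cast
        ring
      rw [e3] at key
      rw [Complex.real_smul, Complex.ofReal_div, Complex.ofReal_one]
      exact key
    · -- the length
      refine le_trans (Nat.floor_le (Real.exp_pos _).le) ?_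
      rw [Real.exp_le_exp]
      unfold eb
      have e1 : δ + (K : ℝ) * κ = 1 + (-(2 * δ)) := by
        rw [hκ]
        field_simp
        ring
      rw [e1, Real.rpow_add hLpos, Real.rpow_one]
      have e2 : h⁻¹ * (L * L ^ (-(2 * δ))) = L ^ (-(2 * δ)) * Real.log T := by
        rw [hLdef]
        field_simp
      rw [e2]
      refine mul_le_mul_of_nonneg_right ?_ hlT.le
      exact Real.rpow_le_rpow_of_exponent_le (by linarith) (by linarith)
    · intro p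
      by_cases hp : ∃ j : Fin K, p ∈ PB (eb h L δ κ j) (eb h L δ κ (j + 1))
      · obtain ⟨j, hj⟩ := hp
        rw [bt_mem u K _ _ v x z p (hdisj p) j hj]
        obtain ⟨a0, a1, a2, a3⟩ := mem_PB hj
        refine le_trans (norm_le u _ _ _ _ (Real.log L) p a0 (hu p) (hv j).1 (hv j).2) (le_trans ?_ g4)
        refine mul_le_mul_of_nonneg_left ?_ (by linarith)
        rw [Real.exp_le_exp]
        have := hlow j
        linarith
      · push Not at hp
        rw [bt_not u K _ _ v x z p hp, norm_zero]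
        exact (Real.exp_pos _).le
    · rw [hbsum]
      have hb : ∀ j : Fin K, ∑ p ∈ PB (eb h L δ κ j) (eb h L δ κ (j + 1)), ‖bb u (v j).1 (v j).2 x (z j) p‖ ^ 2 ≤
          (Real.log L) ^ 2 * (κ * Real.log L + C) := by
        intro j
        refine le_trans (Finset.sum_le_sum fun p _ => sq_le u _ _ _ _ (Real.log L) p (hu p) (hv j).1 (hv j).2) ?_
        rw [← Finset.mul_sum]
        refine mul_le_mul_of_nonneg_left ?_ (by positivity)
        have h1 : 1 ≤ eb h L δ κ j := by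
          have := hlow j
          linarith
        have h2 := (hCB (eb h L δ κ j) (eb h L δ κ (j + 1)) h1 (hmono _ _ (Nat.le_succ _))).1
        have h3 := (abs_le.mp h2).2
        have h4 : C / eb h L δ κ j ≤ C := div_le_self hCpos.le h1
        have h5 : Real.log (eb h L δ κ (j + 1) / eb h L δ κ j) = κ * Real.log L := by
          have e : eb h L δ κ (j + 1) / eb h L δ κ j = L ^ κ := by
            unfold eb
            rw [mul_div_mul_left _ _ (by positivity), ← Real.rpow_sub hLpos]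
            congr 1
            push_cast
            ring
          rw [e, Real.log_rpow hLpos]
        linarith
      refine le_trans (Finset.sum_le_sum fun j _ => hb j) ?_
      rw [Finset.sum_const, Finset.card_univ, Fintype.card_fin, nsmul_eq_mul]
      have h6 : (K : ℝ) * ((Real.log L) ^ 2 * (κ * Real.log L + C)) =
          (Real.log L) ^ 2 * ((K * κ) * Real.log L + K * C) := by ring
      rw [h6]
      have h7 : (K : ℝ) * κ ≤ 1 := by
        rw [hκ]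
        field_simp
        linarith
      have h8 : (K * κ) * Real.log L + K * C ≤ 2 * Real.log L := by
        have := mul_le_mul_of_nonneg_right h7 (show (0 : ℝ) ≤ Real.log L by linarith)
        linarith
      have h9 : (Real.log L) ^ (4 : ℝ) ≤ (Real.log L) ^ (A + 4) :=
        Real.rpow_le_rpow_of_exponent_le g2 (by linarith)
      have h10 : (Real.log L) ^ (4 : ℝ) = (Real.log L) ^ 4 := by
        exact_mod_cast Real.rpow_natCast (Real.log L) 4
      rw [h10] at h9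
      refine le_trans ?_ h9
      have h11 : (Real.log L) ^ 2 * ((K * κ) * Real.log L + K * C) ≤ (Real.log L) ^ 2 * (2 * Real.log L) :=
        mul_le_mul_of_nonneg_left h8 (by positivity)
      refine le_trans h11 ?_
      have h12 : 0 ≤ (Real.log L) ^ 3 := by positivity
      have h13 : 2 * (Real.log L) ^ 3 ≤ Real.log L * (Real.log L) ^ 3 := mul_le_mul_of_nonneg_right g6 h12
      calc (Real.log L) ^ 2 * (2 * Real.log L) = 2 * (Real.log L) ^ 3 := by ring
        _ ≤ Real.log L * (Real.log L) ^ 3 := h13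
        _ = (Real.log L) ^ 4 := by ring

end Pool.Agent.H203.HX
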