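import Pool.Agent.H203.HX.Defs

set_option autoImplicit false

/-! Large discrepancies of the zeros in almost all short intervals, without RH (project HX): the error of the approximate
formula for the smoothed counts. -/

open Complex Filter Topology Set MeasureTheory

namespace Pool.Agent.H203.HX

open Pool.Agent.H203.ME (ee gR WR cR om FF KF C2c w1)
open Pool.Agent.H203.GE (Lf ZG XG BG NWG)

namespace ERL

lemma w1_nonneg (u : ℝ) : 0 ≤ w1 u := by
  unfold w1
  positivity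

/-- one zero -/
lemma term {C h R y w a b : ℝ} (hC : 0 < C) (hh : 0 < h) (hR : 0 < R) (hw : 0 ≤ w)
    (ha : a ≤ C / (h * R) ^ 2 * w) (hb : b ≤ C * (y / h) ^ 2 * Real.exp (R * |y|) * w) :
    a + b ≤ C * (1 + Real.exp 1) * (1 / (h * R) ^ 2) * w +
      C * (if 1 < R * |y| then w * ((y / h) ^ 2 * Real.exp (R * |y|)) else 0) := by
  split_ifs with h1
  · have e1 : 0 ≤ C * Real.exp 1 * (1 / (h * R) ^ 2) * w := by positivity
    have e2 : C / (h * R) ^ 2 * w = C * (1 / (h * R) ^ 2) * w := by ring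
    linarith
  · push Not at h1
    have e1 : (y / h) ^ 2 ≤ 1 / (h * R) ^ 2 := by
      have e2 : |y| ≤ 1 / R := by
        rw [le_div_iff₀ hR]; linarith
      have e3 : |y / h| ≤ 1 / (h * R) := by
        rw [abs_div, abs_of_pos hh, div_le_iff₀ hh]
        calc |y| ≤ 1 / R := e2
          _ = 1 / (h * R) * h := by field_simp
      calc (y / h) ^ 2 = |y / h| ^ 2 := (sq_abs _).symm
        _ ≤ (1 / (h * R)) ^ 2 := by gcongr
        _ = 1 / (h * R) ^ 2 := by rw [div_pow, one_pow]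
    have e4 : Real.exp (R * |y|) ≤ Real.exp 1 := Real.exp_le_exp.2 h1
    have e5 : C * (y / h) ^ 2 * Real.exp (R * |y|) * w ≤ C * (1 / (h * R) ^ 2) * Real.exp 1 * w := by
      gcongr
    have e2 : C / (h * R) ^ 2 * w = C * (1 / (h * R) ^ 2) * w := by ring
    linarith

lemma Ps_bd (y : ℝ) : |Ps y| ≤ 16 := by
  unfold Ps
  have h0 : 0 ≤ max 0 (min y 1) := le_max_left _ _
  have h1 : max 0 (min y 1) ≤ 1 := max_le zero_le_one (min_le_right _ _)
  generalize max 0 (min y 1) = c at h0 h1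
  have e3 : c ^ 3 ≤ 1 := pow_le_one₀ h0 h1
  have e4 : c ^ 4 ≤ 1 := pow_le_one₀ h0 h1
  have e5 : c ^ 5 ≤ 1 := pow_le_one₀ h0 h1
  have f3 : 0 ≤ c ^ 3 := pow_nonneg h0 _
  have f4 : 0 ≤ c ^ 4 := pow_nonneg h0 _
  have f5 : 0 ≤ c ^ 5 := pow_nonneg h0 _
  rw [abs_le]
  constructor <;> linarith

lemma Gs_bd (w a y : ℝ) : |Gs w a y| ≤ 32 := by
  unfold Gs
  have h1 := Ps_bd (y / w)
  have h2 := Ps_bd ((y - a) / w)
  have h3 := abs_sub (Ps (y / w)) (Ps ((y - a) / w))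
  linarith

lemma Gs_int {w a : ℝ} (h : C2c (Gs w a)) : ∫ x : ℝ, |Gs w a x| ≤ 64 := by
  have h1 : ∫ x in Icc (-1 : ℝ) 1, |Gs w a x| = ∫ x : ℝ, |Gs w a x| := by
    apply setIntegral_eq_integral_of_forall_compl_eq_zero
    intro x hx
    rw [h.supp x, abs_zero]
    by_contra h2
    push Not at h2
    rw [abs_lt] at h2
    exact hx ⟨h2.1.le, h2.2.le⟩
  rw [← h1]
  have h2 : ‖∫ x in Icc (-1 : ℝ) 1, |Gs w a x|‖ ≤ 32 * volume.real (Icc (-1 : ℝ) 1) := by
    apply norm_setIntegral_le_of_norm_le_const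
    · rw [Real.volume_Icc]; exact ENNReal.ofReal_lt_top
    · intro x _
      rw [Real.norm_eq_abs, abs_abs]
      exact Gs_bd w a x
  have h3 : volume.real (Icc (-1 : ℝ) 1) = 2 := by
    rw [Real.volume_real_Icc]
    norm_num
  rw [h3] at h2
  have h4 := (le_abs_self (∫ x in Icc (-1 : ℝ) 1, |Gs w a x|)).trans h2
  linarith

end ERL

open ERL in
theorem t_ER (hK : S_KS) (hP : Pool.Agent.H203.GE.S_PTH) (hC : Pool.Agent.H203.GE.S_NCG) : S_ER := by
  intro G u hG
  obtain ⟨Ck, hCk, hks⟩ := hK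
  obtain ⟨Cp, Tp, hCp, hTp, hpt⟩ := hP G u hG
  obtain ⟨Cn, Tn, hCn, hTn, hnc⟩ := hC G u hG
  have he : 0 < Real.exp 1 := Real.exp_pos 1
  refine ⟨Ck * (1 + Real.exp 1) + Ck * Cn + 64 * Cp, max Tp Tn, by positivity,
    le_max_of_le_left hTp, ?_⟩
  intro T hT w R a hw hwR hRL ha haw t ht
  obtain ⟨hL20, -, hpt⟩ := hpt T ((le_max_left _ _).trans hT)
  have hnc1 := hnc T ((le_max_right _ _).trans hT) 1 one_pos le_rfl t
  have hT10 : 10 ≤ T := hTp.trans ((le_max_left _ _).trans hT)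
  obtain ⟨hF, hkp⟩ := hks w R a hw hwR ha haw
  have hw1 : w ≤ 1 := by linarith
  have hR1 : 1 ≤ R := by
    by_contra hR
    push Not at hR
    have : w * R < 1 := by
      rcases le_or_gt R 0 with h | h
      · nlinarith
      · nlinarith
    linarith
  have hR0 : 0 < R := by linarith
  have h1 := hpt _ hF R hR1 hRL t ht
  have hsum : (∑ s ∈ H370.Zf G T (2 * T), (H370.mult G s : ℝ) *
        (‖KF (Gs w a) R ((s.im - t : ℝ) : ℂ) - (Gs w a (s.im - t) : ℂ)‖ +
          ‖KF (Gs w a) R (((s.im - t : ℝ) : ℂ) + ((s.re - 1 / 2 : ℝ) : ℂ) * I) +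
            KF (Gs w a) R (((s.im - t : ℝ) : ℂ) - ((s.re - 1 / 2 : ℝ) : ℂ) * I) -
              2 * KF (Gs w a) R ((s.im - t : ℝ) : ℂ)‖)) ≤
      Ck * (1 + Real.exp 1) * (1 / (w * R) ^ 2) * (NWG G T w t + NWG G T w (t + a)) +
        Ck * (PR G T w R t + PR G T w R (t + a)) + Ck / R ^ 2 * NWG G T 1 t := by
    unfold NWG PR
    rw [Finset.sum_filter, Finset.sum_filter, ← Finset.sum_add_distrib, ← Finset.sum_add_distrib,
      Finset.mul_sum, Finset.mul_sum, Finset.mul_sum, ← Finset.sum_add_distrib,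
      ← Finset.sum_add_distrib]
    refine Finset.sum_le_sum fun s hs => ?_
    rw [H370.mem_Zf hG.good (by linarith)] at hs
    obtain ⟨hs1, hs2, -⟩ := hs
    have hy : |s.re - 1 / 2| ≤ 1 / 2 := by rw [abs_le]; constructor <;> linarith
    obtain ⟨q1, q2⟩ := hkp (s.im - t)
    have q3 := q2 (s.re - 1 / 2) hy
    have hW : 0 ≤ w1 ((s.im - t) / w) + w1 ((s.im - t - a) / w) :=
      add_nonneg (w1_nonneg _) (w1_nonneg _)
    have q1' : ‖KF (Gs w a) R ((s.im - t : ℝ) : ℂ) - (Gs w a (s.im - t) : ℂ)‖ -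
        Ck / R ^ 2 * w1 (s.im - t) ≤
        Ck / (w * R) ^ 2 * (w1 ((s.im - t) / w) + w1 ((s.im - t - a) / w)) := by linarith
    have q4 := term (y := s.re - 1 / 2) hCk hw hR0 hW q1' q3
    have q5 := mul_le_mul_of_nonneg_left q4 (Nat.cast_nonneg (H370.mult G s) : (0 : ℝ) ≤ H370.mult G s)
    have q6 : s.im - t - a = s.im - (t + a) := by ring
    have q7 : (s.im - t) / 1 = s.im - t := div_one _
    rw [q6] at q5
    rw [q7]
    split_ifs at q5 ⊢ with hc
    · linarith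
    · linarith
  have hint := Gs_int hF
  have h3 : Cp * (1 + Real.log T / R ^ 2) * (∫ x : ℝ, |Gs w a x|) ≤
      64 * Cp * (1 + Real.log T / R ^ 2) := by
    have e1 : 0 ≤ Cp * (1 + Real.log T / R ^ 2) := by positivity
    calc Cp * (1 + Real.log T / R ^ 2) * (∫ x : ℝ, |Gs w a x|) ≤
        Cp * (1 + Real.log T / R ^ 2) * 64 := mul_le_mul_of_nonneg_left hint e1
      _ = 64 * Cp * (1 + Real.log T / R ^ 2) := by ring
  have h4 : Ck / R ^ 2 * NWG G T 1 t ≤ Ck * Cn * (1 + Real.log T / R ^ 2) := by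
    have e1 : Ck / R ^ 2 * NWG G T 1 t ≤ Ck / R ^ 2 * (Cn * Real.log T) :=
      mul_le_mul_of_nonneg_left hnc1 (by positivity)
    have e2 : Ck / R ^ 2 * (Cn * Real.log T) = Ck * Cn * (Real.log T / R ^ 2) := by ring
    have e3 : 0 ≤ Ck * Cn := by positivity
    rw [e2] at e1
    linarith
  have hN1 : 0 ≤ NWG G T w t + NWG G T w (t + a) :=
    add_nonneg (Finset.sum_nonneg fun _ _ => mul_nonneg (Nat.cast_nonneg _) (w1_nonneg _))
      (Finset.sum_nonneg fun _ _ => mul_nonneg (Nat.cast_nonneg _) (w1_nonneg _))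
  have hPR : ∀ t' : ℝ, 0 ≤ PR G T w R t' := fun t' =>
    Finset.sum_nonneg fun _ _ => mul_nonneg (Nat.cast_nonneg _)
      (mul_nonneg (w1_nonneg _) (mul_nonneg (sq_nonneg _) (Real.exp_pos _).le))
  have hP1 : 0 ≤ PR G T w R t + PR G T w R (t + a) := add_nonneg (hPR _) (hPR _)
  set NN := NWG G T w t + NWG G T w (t + a) with hNN
  set PP := PR G T w R t + PR G T w R (t + a) with hPP
  have hLpos : 0 ≤ Real.log T := by linarith
  have hX : 0 ≤ 1 + Real.log T / R ^ 2 := by positivity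
  have k1 : Ck * (1 + Real.exp 1) * (1 / (w * R) ^ 2) * NN ≤
      (Ck * (1 + Real.exp 1) + Ck * Cn + 64 * Cp) / (w * R) ^ 2 * NN := by
    have e1 : Ck * (1 + Real.exp 1) * (1 / (w * R) ^ 2) * NN =
      Ck * (1 + Real.exp 1) / (w * R) ^ 2 * NN := by ring
    rw [e1]
    apply mul_le_mul_of_nonneg_right _ hN1
    apply div_le_div_of_nonneg_right _ (by positivity)
    have : 0 ≤ Ck * Cn + 64 * Cp := by positivity
    linarith
  have k2 : Ck * PP ≤ (Ck * (1 + Real.exp 1) + Ck * Cn + 64 * Cp) * PP := by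
    apply mul_le_mul_of_nonneg_right _ hP1
    have : 0 ≤ Ck * Real.exp 1 + Ck * Cn + 64 * Cp := by positivity
    linarith
  have k3 : Ck * Cn * (1 + Real.log T / R ^ 2) + 64 * Cp * (1 + Real.log T / R ^ 2) ≤
      (Ck * (1 + Real.exp 1) + Ck * Cn + 64 * Cp) * (1 + Real.log T / R ^ 2) := by
    have : 0 ≤ Ck * (1 + Real.exp 1) * (1 + Real.log T / R ^ 2) := by positivity
    linarith
  linarith

end Pool.Agent.H203.HX
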