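import Pool.Agent.H203.HX.Defs

set_option autoImplicit false

/-! (FI) Fourier inversion for products of Gaussian weights. -/

open Complex Filter Topology Set MeasureTheory

namespace Pool.Agent.H203.HX

namespace FIL

open ProbabilityTheory

/-- centred Gaussian measure with variance `c` -/
noncomputable def gm (c : ℝ) : Measure ℝ := gaussianReal 0 c.toNNReal

instance (c : ℝ) : IsProbabilityMeasure (gm c) := by unfold gm; infer_instance

/-- two independent copies -/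
noncomputable def g2 (c : ℝ) : Measure (ℝ × ℝ) := (gm c).prod (gm c)

instance (c : ℝ) : IsProbabilityMeasure (g2 c) := by unfold g2; infer_instance

theorem gm_char {c : ℝ} (hc : 0 < c) (t : ℝ) :
    ∫ x, cexp (((x * t : ℝ) : ℂ) * I) ∂(gm c) = (Real.exp (-(c / 2 * t ^ 2)) : ℂ) := by
  have h1 := charFun_gaussianReal (μ := 0) (v := c.toNNReal) t
  rw [charFun_apply_real] at h1
  have h2 : ∫ x, cexp (((x * t : ℝ) : ℂ) * I) ∂(gm c) =
      ∫ x, cexp ((t : ℂ) * x * I) ∂(gaussianReal 0 c.toNNReal) := by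
    unfold gm
    congr 1
    ext x
    congr 1
    push_cast
    ring
  rw [h2, h1]
  rw [show ((c.toNNReal : ℝ) : ℂ) = (c : ℂ) by rw [Real.coe_toNNReal c hc.le]]
  push_cast
  congr 1
  ring

theorem gm_tail {c : ℝ} (hc : 0 < c) (hc1 : c ≤ 1) {U : ℝ} (hU : 0 ≤ U) :
    (gm c).real {x | U < |x|} ≤ 2 * Real.exp (-(U ^ 2 / 4)) := by
  have hs : HasSubgaussianMGF (fun x : ℝ => x) c.toNNReal (gm c) := by
    refine ⟨fun t => integrable_exp_mul_gaussianReal t, fun t => ?_⟩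
    have := mgf_gaussianReal (X := fun x : ℝ => x) (p := gm c) (μ := 0) (v := c.toNNReal)
      (by unfold gm; exact Measure.map_id) t
    rw [this]
    simp
  have hs' : HasSubgaussianMGF (fun x : ℝ => -x) c.toNNReal (gm c) := hs.neg
  have h1 := hs.measure_ge_le hU
  have h2 := hs'.measure_ge_le hU
  rw [Real.coe_toNNReal c hc.le] at h1 h2
  have h3 : Real.exp (-U ^ 2 / (2 * c)) ≤ Real.exp (-(U ^ 2 / 4)) := by
    apply Real.exp_le_exp.mpr
    rw [neg_div, neg_le_neg_iff, div_le_div_iff₀ (by norm_num) (by positivity)]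
    nlinarith [sq_nonneg U]
  have h4 : (gm c).real {x | U < |x|} ≤ (gm c).real ({x | U ≤ x} ∪ {x | U ≤ -x}) := by
    apply measureReal_mono
    · intro x hx
      have hx' : U < |x| := hx
      rcases lt_abs.mp hx' with h | h
      · exact Or.inl h.le
      · exact Or.inr h.le
    · exact measure_ne_top _ _
  have h5 := measureReal_union_le (μ := gm c) {x : ℝ | U ≤ x} {x : ℝ | U ≤ -x}
  linarith

/-- the density of the two-dimensional Gaussian measure -/
theorem g2_dens {c : ℝ} (hc : 0 < c) (f : ℝ × ℝ → ℂ) :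
    ∫ z, f z ∂(g2 c) = ∫ z : ℝ × ℝ, (1 / (2 * Real.pi * c) : ℝ) *
      (cexp (-((((z.1 ^ 2 + z.2 ^ 2) / (2 * c) : ℝ) : ℂ))) * f z) := by
  have hv : c.toNNReal ≠ 0 := by
    rw [Ne, Real.toNNReal_eq_zero, not_le]; exact hc
  have hpi := Real.pi_pos
  unfold g2 gm
  rw [gaussianReal_of_var_ne_zero _ hv,
    prod_withDensity (measurable_gaussianPDF _ _) (measurable_gaussianPDF _ _),
    integral_withDensity_eq_integral_toReal_smul]
  · rw [← Measure.volume_eq_prod]
    congr 1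
    ext z
    have e1 : (gaussianPDF 0 c.toNNReal z.1 * gaussianPDF 0 c.toNNReal z.2).toReal =
        (1 / (2 * Real.pi * c)) * Real.exp (-((z.1 ^ 2 + z.2 ^ 2) / (2 * c))) := by
      rw [ENNReal.toReal_mul, toReal_gaussianPDF, toReal_gaussianPDF]
      unfold gaussianPDFReal
      rw [Real.coe_toNNReal c hc.le, sub_zero, sub_zero]
      have e2 : Real.exp (-((z.1 ^ 2 + z.2 ^ 2) / (2 * c))) =
          Real.exp (-z.1 ^ 2 / (2 * c)) * Real.exp (-z.2 ^ 2 / (2 * c)) := by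
        rw [← Real.exp_add]
        congr 1
        ring
      have e3 : (√(2 * Real.pi * c))⁻¹ * (√(2 * Real.pi * c))⁻¹ = 1 / (2 * Real.pi * c) := by
        rw [← mul_inv, Real.mul_self_sqrt (by positivity), one_div]
      rw [e2, ← e3]
      ring
    rw [e1, Complex.real_smul]
    push_cast
    ring
  · exact ((measurable_gaussianPDF _ _).comp measurable_fst).mul
      ((measurable_gaussianPDF _ _).comp measurable_snd)
  · exact Filter.Eventually.of_forall fun z => ENNReal.mul_lt_top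
      (by simp [gaussianPDF]) (by simp [gaussianPDF])

/-- the Fourier transform of the weight -/
theorem weight_eq {c : ℝ} (hc : 0 < c) (x y : ℝ) :
    ∫ z, cexp (((z.1 * x + z.2 * y : ℝ) : ℂ) * I) ∂(g2 c) =
      (Real.exp (-(c / 2 * (x ^ 2 + y ^ 2))) : ℂ) := by
  have h1 : ∫ z, cexp (((z.1 * x + z.2 * y : ℝ) : ℂ) * I) ∂(g2 c) =
      ∫ z : ℝ × ℝ, (cexp (((z.1 * x : ℝ) : ℂ) * I)) * (cexp (((z.2 * y : ℝ) : ℂ) * I))
        ∂((gm c).prod (gm c)) := by
    unfold g2
    congr 1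
    ext z
    rw [← Complex.exp_add]
    congr 1
    push_cast
    ring
  rw [h1, integral_prod_mul (μ := gm c) (ν := gm c) (fun u : ℝ => cexp (((u * x : ℝ) : ℂ) * I))
    (fun u : ℝ => cexp (((u * y : ℝ) : ℂ) * I)), gm_char hc, gm_char hc, ← Complex.ofReal_mul,
    ← Real.exp_add]
  congr 2
  ring

/-- the measure on the frequencies -/
noncomputable def mu {K : ℕ} (c : Fin K → ℝ) : Measure (Fin K → ℝ × ℝ) :=
  Measure.pi (fun j => g2 (c j))

instance {K : ℕ} (c : Fin K → ℝ) : IsProbabilityMeasure (mu c) := by unfold mu; infer_instance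

theorem mu_tail1 {K : ℕ} (c : Fin K → ℝ) (hc : ∀ j, 0 < c j) (hc1 : ∀ j, c j ≤ 1) {U : ℝ}
    (hU : 0 ≤ U) (j : Fin K) :
    (mu c).real {v | U < |(v j).1|} ≤ 2 * Real.exp (-(U ^ 2 / 4)) := by
  have hm : MeasurableSet {x : ℝ | U < |x|} := measurableSet_lt measurable_const measurable_norm
  have h1 : (mu c) {v | U < |(v j).1|} = (g2 (c j)) {z | U < |z.1|} :=
    (measurePreserving_eval (fun j => g2 (c j)) j).measure_preimage
      (measurable_fst hm).nullMeasurableSet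
  have h2 : (g2 (c j)) {z | U < |z.1|} = (gm (c j)) {x | U < |x|} :=
    (measurePreserving_fst (μ := gm (c j)) (ν := gm (c j))).measure_preimage hm.nullMeasurableSet
  have h3 := gm_tail (hc j) (hc1 j) hU
  unfold Measure.real at h3 ⊢
  rw [h1, h2]
  exact h3

theorem mu_tail2 {K : ℕ} (c : Fin K → ℝ) (hc : ∀ j, 0 < c j) (hc1 : ∀ j, c j ≤ 1) {U : ℝ}
    (hU : 0 ≤ U) (j : Fin K) :
    (mu c).real {v | U < |(v j).2|} ≤ 2 * Real.exp (-(U ^ 2 / 4)) := by
  have hm : MeasurableSet {x : ℝ | U < |x|} := measurableSet_lt measurable_const measurable_norm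
  have h1 : (mu c) {v | U < |(v j).2|} = (g2 (c j)) {z | U < |z.2|} :=
    (measurePreserving_eval (fun j => g2 (c j)) j).measure_preimage
      (measurable_snd hm).nullMeasurableSet
  have h2 : (g2 (c j)) {z | U < |z.2|} = (gm (c j)) {x | U < |x|} :=
    (measurePreserving_snd (μ := gm (c j)) (ν := gm (c j))).measure_preimage hm.nullMeasurableSet
  have h3 := gm_tail (hc j) (hc1 j) hU
  unfold Measure.real at h3 ⊢
  rw [h1, h2]
  exact h3

/-- the complement of the box -/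
def bx (K : ℕ) (U : ℝ) : Set (Fin K → ℝ × ℝ) := {v | ∃ j, U < |(v j).1| ∨ U < |(v j).2|}

theorem mu_box {K : ℕ} (c : Fin K → ℝ) (hc : ∀ j, 0 < c j) (hc1 : ∀ j, c j ≤ 1) {U : ℝ}
    (hU : 0 ≤ U) : (mu c).real (bx K U) ≤ 4 * K * Real.exp (-(U ^ 2 / 4)) := by
  have h1 : bx K U ⊆ ⋃ j : Fin K, ({v | U < |(v j).1|} ∪ {v | U < |(v j).2|}) := by
    intro v hv
    obtain ⟨j, hj⟩ := hv
    exact mem_iUnion.mpr ⟨j, hj⟩
  calc (mu c).real (bx K U) ≤
        (mu c).real (⋃ j : Fin K, ({v | U < |(v j).1|} ∪ {v | U < |(v j).2|})) :=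
        measureReal_mono h1 (measure_ne_top _ _)
    _ ≤ ∑ j : Fin K, (mu c).real ({v | U < |(v j).1|} ∪ {v | U < |(v j).2|}) :=
        measureReal_iUnion_fintype_le _
    _ ≤ ∑ j : Fin K, 4 * Real.exp (-(U ^ 2 / 4)) := by
        apply Finset.sum_le_sum
        intro j _
        have h2 := measureReal_union_le (μ := mu c) {v | U < |(v j).1|} {v | U < |(v j).2|}
        have h3 := mu_tail1 c hc hc1 hU j
        have h4 := mu_tail2 c hc hc1 hU j
        linarith
    _ = 4 * K * Real.exp (-(U ^ 2 / 4)) := by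
        rw [Finset.sum_const, Finset.card_univ, Fintype.card_fin, nsmul_eq_mul]
        ring

theorem bx_meas (K : ℕ) (U : ℝ) : MeasurableSet (bx K U) := by
  have h1 : bx K U = ⋃ j : Fin K, ({v | U < |(v j).1|} ∪ {v | U < |(v j).2|}) := by
    ext v
    simp [bx]
  rw [h1]
  apply MeasurableSet.iUnion
  intro j
  apply MeasurableSet.union
  · exact measurableSet_lt measurable_const (continuous_abs.measurable.comp (measurable_fst.comp
      (measurable_pi_apply j)))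
  · exact measurableSet_lt measurable_const (continuous_abs.measurable.comp (measurable_snd.comp
      (measurable_pi_apply j)))

/-- the phase of the shift -/
noncomputable def Ph (K : ℕ) (a : ℝ) (v : Fin K → ℝ × ℝ) : ℂ :=
  cexp (-(((a * ∑ j, ((v j).1 + (v j).2) : ℝ) : ℂ) * I))

theorem Ph_norm (K : ℕ) (a : ℝ) (v : Fin K → ℝ × ℝ) : ‖Ph K a v‖ = 1 := by
  unfold Ph
  rw [← neg_mul, ← Complex.ofReal_neg, Complex.norm_exp_ofReal_mul_I]

theorem Ph_meas (K : ℕ) (a : ℝ) : Measurable (Ph K a) := by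
  unfold Ph
  fun_prop

/-- the Gaussian characteristic function -/
noncomputable def Gh {K : ℕ} (V ρ : Fin K → ℝ) (v : Fin K → ℝ × ℝ) : ℂ :=
  cexp (-(((∑ j, (V j * (v j).1 ^ 2 + V j * (v j).2 ^ 2 + 2 * ρ j * (v j).1 * (v j).2)) / 2 : ℝ) : ℂ))

theorem Gh_meas {K : ℕ} (V ρ : Fin K → ℝ) : Measurable (Gh V ρ) := by
  unfold Gh
  fun_prop

theorem Gh_norm {K : ℕ} (V ρ : Fin K → ℝ) (h : ∀ j, |ρ j| ≤ V j) (v : Fin K → ℝ × ℝ) :
    ‖Gh V ρ v‖ ≤ 1 := by
  unfold Gh
  rw [← Complex.ofReal_neg, ← Complex.ofReal_exp, Complex.norm_real, Real.norm_eq_abs,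
    abs_of_pos (Real.exp_pos _), Real.exp_le_one_iff, neg_nonpos]
  apply div_nonneg _ (by norm_num)
  apply Finset.sum_nonneg
  intro j _
  have h1 := abs_le.mp (h j)
  nlinarith [mul_nonneg (by linarith : 0 ≤ V j - ρ j) (add_nonneg (sq_nonneg (v j).1)
    (sq_nonneg (v j).2)), mul_nonneg (by linarith : 0 ≤ V j + ρ j) (add_nonneg (sq_nonneg (v j).1)
    (sq_nonneg (v j).2)), mul_nonneg (by linarith : 0 ≤ V j - ρ j) (sq_nonneg ((v j).1 - (v j).2)),
    mul_nonneg (by linarith : 0 ≤ V j + ρ j) (sq_nonneg ((v j).1 + (v j).2))]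

/-- the product of the Gaussian integrals -/
theorem prodP2 (h : S_G2) {K : ℕ} (c V ρ : Fin K → ℝ) (a : ℝ) (hc : ∀ j, 0 < c j)
    (hρ : ∀ j, |ρ j| ≤ V j) :
    ((∏ j, P2 (c j) a (V j) (ρ j) : ℝ) : ℂ) = ∫ v, Ph K a v * Gh V ρ v ∂(mu c) := by
  have h1 : ∀ v : Fin K → ℝ × ℝ, Ph K a v * Gh V ρ v =
      ∏ j, (fun (j : Fin K) (z : ℝ × ℝ) => cexp (-(((a * (z.1 + z.2) : ℝ) : ℂ) * I)) *
        cexp (-(((V j * z.1 ^ 2 + V j * z.2 ^ 2 + 2 * ρ j * z.1 * z.2) / 2 : ℝ) : ℂ))) j (v j) := by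
    intro v
    simp only
    rw [Finset.prod_mul_distrib, ← Complex.exp_sum, ← Complex.exp_sum]
    unfold Ph Gh
    congr 2
    · push_cast
      rw [Finset.sum_neg_distrib, ← Finset.sum_mul, Finset.mul_sum]
    · push_cast
      rw [Finset.sum_neg_distrib, Finset.sum_div]
  have h0 := integral_fintype_prod_eq_prod (μ := fun j => g2 (c j))
    (fun (j : Fin K) (z : ℝ × ℝ) => cexp (-(((a * (z.1 + z.2) : ℝ) : ℂ) * I)) *
        cexp (-(((V j * z.1 ^ 2 + V j * z.2 ^ 2 + 2 * ρ j * z.1 * z.2) / 2 : ℝ) : ℂ)))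
  have h0' : ∫ v, Ph K a v * Gh V ρ v ∂(mu c) = ∫ v : Fin K → ℝ × ℝ,
      ∏ j, (fun (j : Fin K) (z : ℝ × ℝ) => cexp (-(((a * (z.1 + z.2) : ℝ) : ℂ) * I)) *
        cexp (-(((V j * z.1 ^ 2 + V j * z.2 ^ 2 + 2 * ρ j * z.1 * z.2) / 2 : ℝ) : ℂ))) j (v j)
        ∂(Measure.pi fun j => g2 (c j)) := integral_congr_ae (Filter.Eventually.of_forall h1)
  rw [h0', h0, Complex.ofReal_prod]
  apply Finset.prod_congr rfl
  intro j _
  have h2 := h (c j) a (V j) (ρ j) (hc j) (le_trans (abs_nonneg _) (hρ j)) (hρ j)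
  rw [g2_dens (hc j), ← h2]
  congr 1
  ext z
  ring

end FIL

open FIL in
theorem t_FI (h : S_G2) : S_FI := by
  intro Ω _ P _ K X Y c V ρ a η U hX hY hc hc1 hρ hη hU hyp
  have hU0 : 0 ≤ U := by linarith
  have hF : ∀ (v : Fin K → ℝ × ℝ) (ω : Ω), ‖cexp (I * ((∑ j, ((v j).1 * X j ω + (v j).2 * Y j ω) : ℝ) : ℂ))‖
      = 1 := by
    intro v ω
    rw [mul_comm, Complex.norm_exp_ofReal_mul_I]
  have hFm : Measurable (fun p : (Fin K → ℝ × ℝ) × Ω =>
      cexp (I * ((∑ j, ((p.1 j).1 * X j p.2 + (p.1 j).2 * Y j p.2) : ℝ) : ℂ))) := by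
    fun_prop
  -- the left side
  have h1 : ((∫ ω, ∏ j, Real.exp (-(c j / 2 * ((X j ω - a) ^ 2 + (Y j ω - a) ^ 2))) ∂P : ℝ) : ℂ) =
      ∫ ω, (∫ v, Ph K a v * cexp (I * ((∑ j, ((v j).1 * X j ω + (v j).2 * Y j ω) : ℝ) : ℂ))
        ∂(mu c)) ∂P := by
    rw [← integral_complex_ofReal]
    congr 1
    ext ω
    have h2 : ∀ v : Fin K → ℝ × ℝ,
        Ph K a v * cexp (I * ((∑ j, ((v j).1 * X j ω + (v j).2 * Y j ω) : ℝ) : ℂ)) =
        ∏ j, (fun (j : Fin K) (z : ℝ × ℝ) =>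
          cexp (((z.1 * (X j ω - a) + z.2 * (Y j ω - a) : ℝ) : ℂ) * I)) j (v j) := by
      intro v
      simp only
      rw [← Complex.exp_sum]
      unfold Ph
      rw [← Complex.exp_add]
      congr 1
      push_cast
      rw [← Finset.sum_mul, Finset.mul_sum, mul_comm I, ← neg_mul, ← add_mul,
        ← Finset.sum_neg_distrib, ← Finset.sum_add_distrib]
      congr 1
      apply Finset.sum_congr rfl
      intro j _
      ring
    have h0 := integral_fintype_prod_eq_prod (μ := fun j => g2 (c j))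
      (fun (j : Fin K) (z : ℝ × ℝ) =>
          cexp (((z.1 * (X j ω - a) + z.2 * (Y j ω - a) : ℝ) : ℂ) * I))
    have h0' : ∫ v, Ph K a v * cexp (I * ((∑ j, ((v j).1 * X j ω + (v j).2 * Y j ω) : ℝ) : ℂ))
        ∂(mu c) = ∫ v : Fin K → ℝ × ℝ, ∏ j, (fun (j : Fin K) (z : ℝ × ℝ) =>
          cexp (((z.1 * (X j ω - a) + z.2 * (Y j ω - a) : ℝ) : ℂ) * I)) j (v j)
        ∂(Measure.pi fun j => g2 (c j)) := integral_congr_ae (Filter.Eventually.of_forall h2)
    rw [h0', h0, Complex.ofReal_prod]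
    apply Finset.prod_congr rfl
    intro j _
    exact (weight_eq (hc j) (X j ω - a) (Y j ω - a)).symm
  have hint : Integrable (Function.uncurry fun (ω : Ω) (v : Fin K → ℝ × ℝ) =>
      Ph K a v * cexp (I * ((∑ j, ((v j).1 * X j ω + (v j).2 * Y j ω) : ℝ) : ℂ)))
      (P.prod (mu c)) := by
    apply Integrable.of_bound (C := 1)
    · apply Measurable.aestronglyMeasurable
      exact ((Ph_meas K a).comp measurable_snd).mul (hFm.comp measurable_swap)
    · apply Filter.Eventually.of_forall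
      rintro ⟨ω, v⟩
      simp only [Function.uncurry]
      rw [norm_mul, Ph_norm, hF, one_mul]
  rw [integral_integral_swap hint] at h1
  have h4 : ∀ v : Fin K → ℝ × ℝ,
      ∫ ω, Ph K a v * cexp (I * ((∑ j, ((v j).1 * X j ω + (v j).2 * Y j ω) : ℝ) : ℂ)) ∂P =
      Ph K a v * ∫ ω, cexp (I * ((∑ j, ((v j).1 * X j ω + (v j).2 * Y j ω) : ℝ) : ℂ)) ∂P :=
    fun v => integral_const_mul _ _
  simp_rw [h4] at h1
  have h5 := prodP2 h c V ρ a hc hρ
  have hi1 : Integrable (fun v : Fin K → ℝ × ℝ => Ph K a v *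
      ∫ ω, cexp (I * ((∑ j, ((v j).1 * X j ω + (v j).2 * Y j ω) : ℝ) : ℂ)) ∂P) (mu c) := by
    have := hint.integral_prod_right
    simp only [Function.uncurry] at this
    simp_rw [h4] at this
    exact this
  have hi2 : Integrable (fun v : Fin K → ℝ × ℝ => Ph K a v * Gh V ρ v) (mu c) := by
    apply Integrable.of_bound (C := 1)
    · exact ((Ph_meas K a).mul (Gh_meas V ρ)).aestronglyMeasurable
    · apply Filter.Eventually.of_forall
      intro v
      rw [norm_mul, Ph_norm, one_mul]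
      exact Gh_norm V ρ hρ v
  have h6 : |(∫ ω, ∏ j, Real.exp (-(c j / 2 * ((X j ω - a) ^ 2 + (Y j ω - a) ^ 2))) ∂P) -
      ∏ j, P2 (c j) a (V j) (ρ j)| = ‖∫ v, (Ph K a v *
      (∫ ω, cexp (I * ((∑ j, ((v j).1 * X j ω + (v j).2 * Y j ω) : ℝ) : ℂ)) ∂P) -
      Ph K a v * Gh V ρ v) ∂(mu c)‖ := by
    rw [integral_sub hi1 hi2, ← h1, ← h5, ← Complex.ofReal_sub, Complex.norm_real,
      Real.norm_eq_abs]
  rw [h6]
  have hb : ∀ v : Fin K → ℝ × ℝ, ‖Ph K a v *
      (∫ ω, cexp (I * ((∑ j, ((v j).1 * X j ω + (v j).2 * Y j ω) : ℝ) : ℂ)) ∂P) -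
      Ph K a v * Gh V ρ v‖ ≤ η + (bx K U).indicator (fun _ => (2 : ℝ)) v := by
    intro v
    rw [← mul_sub, norm_mul, Ph_norm, one_mul]
    by_cases hv : v ∈ bx K U
    · rw [Set.indicator_of_mem hv]
      have h7 : ‖∫ ω, cexp (I * ((∑ j, ((v j).1 * X j ω + (v j).2 * Y j ω) : ℝ) : ℂ)) ∂P‖ ≤ 1 := by
        have := norm_integral_le_of_norm_le_const (μ := P) (C := 1)
          (f := fun ω => cexp (I * ((∑ j, ((v j).1 * X j ω + (v j).2 * Y j ω) : ℝ) : ℂ)))
          (Filter.Eventually.of_forall fun ω => (hF v ω).le)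
        simpa using this
      have h8 := Gh_norm V ρ hρ v
      have h9 := norm_sub_le (∫ ω, cexp (I * ((∑ j, ((v j).1 * X j ω + (v j).2 * Y j ω) : ℝ) : ℂ)) ∂P)
        (Gh V ρ v)
      linarith
    · rw [Set.indicator_of_notMem hv, add_zero]
      apply hyp v
      intro j
      constructor
      · by_contra hcon
        exact hv ⟨j, Or.inl (not_le.mp hcon)⟩
      · by_contra hcon
        exact hv ⟨j, Or.inr (not_le.mp hcon)⟩
  have hbx := bx_meas K U
  have hi3 : Integrable (fun v => η + (bx K U).indicator (fun _ => (2 : ℝ)) v) (mu c) :=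
    (integrable_const η).add ((integrable_const (2 : ℝ)).indicator hbx)
  calc _ ≤ ∫ v, (η + (bx K U).indicator (fun _ => (2 : ℝ)) v) ∂(mu c) :=
        norm_integral_le_of_norm_le hi3 (Filter.Eventually.of_forall hb)
    _ = η + 2 * (mu c).real (bx K U) := by
        rw [integral_add (integrable_const η) ((integrable_const (2 : ℝ)).indicator hbx),
          integral_const, integral_indicator_const _ hbx]
        simp [mul_comm]
    _ ≤ η + 2 * (4 * K * Real.exp (-(U ^ 2 / 4))) := by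
        have := mu_box c hc hc1 hU0
        linarith
    _ = η + 8 * K * Real.exp (-(U ^ 2 / 4)) := by ring

end Pool.Agent.H203.HX
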