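import Pool.Agent.H203.HX.FIN

set_option autoImplicit false

/-! Assembly of project HX, second part. -/

open Complex Filter Topology Set MeasureTheory

namespace Pool.Agent.H203.HX

open Pool.Agent.H203.GE (Lf)

theorem fin (hZE : S_ZE) (hLC : S_LC) (hQI : S_QI) (hHP : S_HP) (hRS : S_RS) (G : ℂ → ℂ) (u : ℕ → ℂ) (hG : Lf G u)
    (hu : Um u) (h : ℝ → ℝ) (hh : ∀ᶠ T in atTop, 0 < h T ∧ h T ≤ 1) (hL : Tendsto (fun T => h T * Real.log T) atTop atTop)
    (ε : ℝ) (hε : 0 < ε) (σ : ℝ) (hσ : σ = 1 ∨ σ = -1) :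
    Tendsto (fun T : ℝ => volume (Bd G σ T (h T) ((2 / Real.pi - ε) * Real.log (h T * Real.log T))) / ENNReal.ofReal T)
      atTop (𝓝 0) := by
  rw [ENNReal.tendsto_nhds_zero]
  intro e he
  obtain ⟨η, hη, hηe⟩ : ∃ η : ℝ, 0 < η ∧ ENNReal.ofReal η ≤ e := by
    rcases eq_or_ne e ⊤ with rfl | h1
    · exact ⟨1, one_pos, le_top⟩
    · exact ⟨e.toReal, ENNReal.toReal_pos he.ne' h1, by rw [ENNReal.ofReal_toReal h1]⟩
  obtain ⟨L0, hL0, H⟩ := core hZE hLC hQI hHP hRS G u hG hu (ε / 2) η (by positivity) hη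
  have hLh : Tendsto (fun T => h T / 2 * Real.log T) atTop atTop := by
    have : (fun T => h T / 2 * Real.log T) = fun T => 1 / 2 * (h T * Real.log T) := by ext T; ring
    rw [this]; exact hL.const_mul_atTop (by norm_num)
  have hlog : Tendsto (fun T => ε / 2 * Real.log (h T * Real.log T)) atTop atTop :=
    (Real.tendsto_log_atTop.comp hL).const_mul_atTop (by positivity)
  filter_upwards [hh, hLh.eventually_ge_atTop L0, hlog.eventually_ge_atTop 1, hL.eventually_ge_atTop 1,
    eventually_gt_atTop (1 : ℝ)] with T hhT hLT hlT hL1 hT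
  have h1 := H T (h T / 2) σ hT (by linarith [hhT.1]) (by linarith [hhT.2]) hLT hσ
  have hsub : Bd G σ T (h T) ((2 / Real.pi - ε) * Real.log (h T * Real.log T)) ⊆
      Bd G σ T (h T / 2) ((2 / Real.pi - ε / 2) * Real.log (h T / 2 * Real.log T)) := by
    intro t ht
    refine ⟨ht.1, ht.2.1, fun x y hx hxy hy => (ht.2.2 x y hx hxy (by linarith [hhT.1])).trans ?_⟩
    have e1 : Real.log (h T / 2 * Real.log T) = Real.log (h T * Real.log T) - Real.log 2 := by
      rw [show h T / 2 * Real.log T = h T * Real.log T / 2 by ring, Real.log_div (by linarith) (by norm_num)]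
    rw [e1]
    have h2 : Real.log 2 ≤ 1 := by linarith [Real.log_two_lt_d9]
    have h20 : 0 < Real.log 2 := Real.log_pos (by norm_num)
    have hp : 2 / Real.pi ≤ 1 := by
      rw [div_le_one Real.pi_pos]; linarith [Real.pi_gt_three]
    nlinarith
  have hT0 : 0 < T := by linarith
  rw [ENNReal.div_le_iff (by simpa using hT0) ENNReal.ofReal_ne_top]
  calc volume (Bd G σ T (h T) ((2 / Real.pi - ε) * Real.log (h T * Real.log T)))
      ≤ volume (Bd G σ T (h T / 2) ((2 / Real.pi - ε / 2) * Real.log (h T / 2 * Real.log T))) := measure_mono hsub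
    _ ≤ ENNReal.ofReal (η * T) := h1
    _ = ENNReal.ofReal η * ENNReal.ofReal T := ENNReal.ofReal_mul hη.le
    _ ≤ e * ENNReal.ofReal T := by gcongr

end Pool.Agent.H203.HX
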