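import Pool.Agent.H203.HX.Defs

set_option autoImplicit false

/-! Project HX, leaf G2: the two-dimensional Gaussian integral. -/

open Complex Filter Topology Set MeasureTheory

namespace Pool.Agent.H203.HX

namespace G2L

/-- The integrand. -/
noncomputable def f (c a V ρ : ℝ) (v : ℝ × ℝ) : ℂ :=
  (1 / (2 * Real.pi * c) : ℝ) * (cexp (-((((v.1 ^ 2 + v.2 ^ 2) / (2 * c) : ℝ) : ℂ))) *
    cexp (-(((a * (v.1 + v.2) : ℝ) : ℂ) * I)) *
    cexp (-(((V * v.1 ^ 2 + V * v.2 ^ 2 + 2 * ρ * v.1 * v.2) / 2 : ℝ) : ℂ)))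

theorem f_cont (c a V ρ : ℝ) : Continuous (f c a V ρ) := by
  unfold f
  fun_prop

theorem Q_nonneg {V ρ : ℝ} (hρ : |ρ| ≤ V) (x y : ℝ) :
    0 ≤ V * x ^ 2 + V * y ^ 2 + 2 * ρ * x * y := by
  have h1 := abs_le.1 hρ
  nlinarith [sq_nonneg (x + y), sq_nonneg (x - y), mul_nonneg (by linarith : (0 : ℝ) ≤ V + ρ)
    (sq_nonneg (x + y)), mul_nonneg (by linarith : (0 : ℝ) ≤ V - ρ) (sq_nonneg (x - y))]

theorem f_norm {c V ρ : ℝ} (a : ℝ) (hc : 0 < c) (hρ : |ρ| ≤ V) (v : ℝ × ℝ) :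
    ‖f c a V ρ v‖ ≤ (1 / (2 * Real.pi * c)) *
      (Real.exp (-(1 / (2 * c)) * v.1 ^ 2) * Real.exp (-(1 / (2 * c)) * v.2 ^ 2)) := by
  unfold f
  have hK : 0 ≤ 1 / (2 * Real.pi * c) := by positivity
  rw [norm_mul, norm_mul, norm_mul, Complex.norm_real, Real.norm_eq_abs, abs_of_nonneg hK,
    ← Complex.ofReal_neg, Complex.norm_exp_ofReal, ← neg_mul, ← Complex.ofReal_neg,
    Complex.norm_exp_ofReal_mul_I, mul_one, ← Complex.ofReal_neg, Complex.norm_exp_ofReal,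
    ← Real.exp_add]
  refine mul_le_mul_of_nonneg_left ?_ hK
  rw [← Real.exp_add]
  refine Real.exp_le_exp.2 ?_
  have h1 := Q_nonneg hρ v.1 v.2
  have h2 : -((v.1 ^ 2 + v.2 ^ 2) / (2 * c)) =
      -(1 / (2 * c)) * v.1 ^ 2 + -(1 / (2 * c)) * v.2 ^ 2 := by ring
  rw [h2]
  linarith

theorem f_int {c V ρ : ℝ} (a : ℝ) (hc : 0 < c) (hρ : |ρ| ≤ V) : Integrable (f c a V ρ) := by
  have h1 : Integrable (fun x : ℝ => Real.exp (-(1 / (2 * c)) * x ^ 2)) :=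
    integrable_exp_neg_mul_sq (by positivity)
  have h2 := (h1.mul_prod h1).const_mul (1 / (2 * Real.pi * c))
  exact h2.mono' (f_cont c a V ρ).aestronglyMeasurable
    (Filter.Eventually.of_forall fun v => f_norm a hc hρ v)

theorem sqrt_cast {x : ℝ} (hx : 0 ≤ x) : ((x : ℂ)) ^ (1 / 2 : ℂ) = ((Real.sqrt x : ℝ) : ℂ) := by
  rw [Real.sqrt_eq_rpow, Complex.ofReal_cpow hx]
  norm_num

theorem quad {β : ℝ} (hβ : 0 < β) (p q : ℂ) :
    ∫ x : ℝ, cexp ((-(β / 2 : ℝ) : ℂ) * x ^ 2 + p * x + q) =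
      ((Real.sqrt (2 * Real.pi / β) : ℝ) : ℂ) * cexp (q + p ^ 2 / (2 * β)) := by
  rw [integral_cexp_quadratic]
  · have h1 : (Real.pi / -(-(β / 2 : ℝ) : ℂ)) = ((2 * Real.pi / β : ℝ) : ℂ) := by
      push_cast
      field_simp
    rw [h1, sqrt_cast (by positivity)]
    congr 2
    have hβ' : (β : ℂ) ≠ 0 := by exact_mod_cast hβ.ne'
    push_cast
    field_simp
    ring
  · rw [← Complex.ofReal_neg, Complex.ofReal_re]
    linarith

end G2L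

theorem t_G2 : S_G2 := by
  intro c a V ρ hc hV hρ
  change ∫ v : ℝ × ℝ, G2L.f c a V ρ v = _
  have hab := abs_le.1 hρ
  obtain ⟨β, hβdef⟩ : ∃ β : ℝ, β = 1 / c + V := ⟨_, rfl⟩
  have hc1 : 0 < 1 / c := by positivity
  have hβ : 0 < β := by linarith
  have hp : 0 < β + ρ := by linarith
  have hm : 0 < β - ρ := by linarith
  have hβC : (β : ℂ) ≠ 0 := by exact_mod_cast hβ.ne'
  have hcC : (c : ℂ) ≠ 0 := by exact_mod_cast hc.ne'
  have hpC : ((β : ℂ) + ρ) ≠ 0 := by exact_mod_cast hp.ne'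
  have hmC : ((β : ℂ) - ρ) ≠ 0 := by exact_mod_cast hm.ne'
  have hbc : (β : ℂ) = 1 / c + V := by rw [hβdef]; push_cast; ring
  rw [Measure.volume_eq_prod, integral_prod _ (by
    rw [← Measure.volume_eq_prod]; exact G2L.f_int a hc hρ)]
  have inner : ∀ x : ℝ, ∫ y : ℝ, G2L.f c a V ρ (x, y) =
      ((1 / (2 * Real.pi * c) * Real.sqrt (2 * Real.pi / β) : ℝ) : ℂ) *
        cexp ((-(((β ^ 2 - ρ ^ 2) / β) / 2 : ℝ) : ℂ) * x ^ 2 +
          (-(a * (β - ρ) / β * I : ℂ)) * x + (-(a ^ 2 / (2 * β) : ℂ))) := by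
    intro x
    have h1 : ∀ y : ℝ, G2L.f c a V ρ (x, y) = ((1 / (2 * Real.pi * c) : ℝ) : ℂ) *
        cexp ((-(β / 2 : ℝ) : ℂ) * y ^ 2 + (-(a * I) - ρ * x) * y +
          (-(β / 2 : ℝ) * x ^ 2 - a * x * I)) := by
      intro y
      unfold G2L.f
      rw [← Complex.exp_add, ← Complex.exp_add]
      congr 2
      push_cast
      rw [hbc]
      field_simp
      ring
    simp_rw [h1]
    rw [integral_const_mul, G2L.quad hβ, ← mul_assoc, Complex.ofReal_mul (1 / (2 * Real.pi * c))]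
    congr 2
    push_cast
    have hI : I ^ 2 = -1 := Complex.I_sq
    field_simp
    ring_nf
    rw [hI]
    ring
  simp_rw [inner]
  have hβ2 : 0 < (β ^ 2 - ρ ^ 2) / β := by
    refine div_pos ?_ hβ
    nlinarith
  rw [integral_const_mul, G2L.quad hβ2, ← mul_assoc]
  have e1 : (-(a ^ 2 / (2 * β) : ℂ)) + (-(a * (β - ρ) / β * I : ℂ)) ^ 2 /
      (2 * (((β ^ 2 - ρ ^ 2) / β : ℝ) : ℂ)) = ((-(a ^ 2 / (β + ρ)) : ℝ) : ℂ) := by
    have hI : I ^ 2 = -1 := Complex.I_sq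
    have h2 : ((β : ℂ) ^ 2 - (ρ : ℂ) ^ 2) = (β + ρ) * (β - ρ) := by ring
    have h3 : (-(a * (β - ρ) / β * I : ℂ)) ^ 2 = -(a ^ 2 * (β - ρ) ^ 2 / β ^ 2) := by
      rw [neg_sq, mul_pow, hI]; ring
    push_cast
    rw [h3, h2]
    field_simp
    ring
  rw [e1, ← Complex.ofReal_exp, ← Complex.ofReal_mul, ← Complex.ofReal_mul]
  congr 1
  unfold P2
  have h1 : -(c * a ^ 2 / (1 + c * (V + ρ))) = -(a ^ 2 / (β + ρ)) := by
    have : 1 + c * (V + ρ) = c * (β + ρ) := by rw [hβdef]; field_simp; ring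
    rw [this]
    field_simp
  have h2 : (1 + c * V) ^ 2 - (c * ρ) ^ 2 = c ^ 2 * (β ^ 2 - ρ ^ 2) := by
    rw [hβdef]; field_simp
  rw [h1, h2, Real.sqrt_mul (by positivity), Real.sqrt_sq hc.le]
  have hD : 0 < β ^ 2 - ρ ^ 2 := by nlinarith
  have h3 : Real.sqrt (2 * Real.pi / β) * Real.sqrt (2 * Real.pi / ((β ^ 2 - ρ ^ 2) / β)) =
      2 * Real.pi / Real.sqrt (β ^ 2 - ρ ^ 2) := by
    rw [← Real.sqrt_mul (by positivity)]
    have h4 : 2 * Real.pi / β * (2 * Real.pi / ((β ^ 2 - ρ ^ 2) / β)) =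
        (2 * Real.pi) ^ 2 / (β ^ 2 - ρ ^ 2) := by
      field_simp
    rw [h4, Real.sqrt_div (by positivity), Real.sqrt_sq (by positivity)]
  rw [mul_assoc (1 / (2 * Real.pi * c)), h3]
  have hs : 0 < Real.sqrt (β ^ 2 - ρ ^ 2) := Real.sqrt_pos.2 hD
  have hpi := Real.pi_pos
  field_simp

end Pool.Agent.H203.HX
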