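import Pool.Agent.H203.HX.Defs
import Pool.Agent.H203.ME.KPT

set_option autoImplicit false

/-! Leaf KM of project HX (helper203): kernel bounds for the majorant `Mw`. -/

open Complex Filter Topology Set MeasureTheory

namespace Pool.Agent.H203.HX

open Pool.Agent.H203.ME (ee gR WR cR om FF KF C2c w1)

namespace KML

open Pool.Agent.H203.ME Pool.Agent.H203.ME.L1AL Pool.Agent.H203.ME.L1BL Pool.Agent.H203.ME.LLNL

/-- first derivative of `w1` -/
noncomputable def g1 (u : ℝ) : ℝ := -(2 * u) / (1 + u ^ 2) ^ 2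

/-- second derivative of `w1` -/
noncomputable def g2 (u : ℝ) : ℝ := (6 * u ^ 2 - 2) / (1 + u ^ 2) ^ 3

lemma w1_pos (u : ℝ) : 0 < w1 u := by unfold w1; positivity

lemma w1_le (u : ℝ) : w1 u ≤ 1 := by
  unfold w1
  rw [div_le_one (by positivity)]
  nlinarith [sq_nonneg u]

lemma hd_w1 (u : ℝ) : HasDerivAt w1 (g1 u) u := by
  have h1 : HasDerivAt (fun u : ℝ => 1 + u ^ 2) (2 * u) u := by
    have := (hasDerivAt_pow 2 u).const_add (1 : ℝ)
    simpa using this
  have h2 := h1.inv (by positivity : (1 + u ^ 2 : ℝ) ≠ 0)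
  have h3 : w1 = fun u : ℝ => (1 + u ^ 2)⁻¹ := by funext u; unfold w1; rw [one_div]
  rw [h3]
  exact h2

lemma hd_g1 (u : ℝ) : HasDerivAt g1 (g2 u) u := by
  have h1 : HasDerivAt (fun u : ℝ => 1 + u ^ 2) (2 * u) u := by
    have := (hasDerivAt_pow 2 u).const_add (1 : ℝ)
    simpa using this
  have h2 := h1.pow 2
  have h3 : HasDerivAt (fun u : ℝ => -(2 * u)) (-(2 * 1)) u := ((hasDerivAt_id u).const_mul 2).neg
  have h4 := h3.div h2 (by positivity : ((1 + u ^ 2) ^ 2 : ℝ) ≠ 0)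
  have h5 : (0 : ℝ) < 1 + u ^ 2 := by positivity
  refine h4.congr_deriv ?_
  unfold g2
  simp only [Pi.pow_apply]
  field_simp
  ring

lemma g1_le (u : ℝ) : |g1 u| ≤ w1 u := by
  unfold g1 w1
  have h5 : (0 : ℝ) < 1 + u ^ 2 := by positivity
  rw [abs_div, abs_of_pos (by positivity : (0 : ℝ) < (1 + u ^ 2) ^ 2), div_le_div_iff₀ (by positivity) h5]
  have h6 : |-(2 * u)| ≤ 1 + u ^ 2 := by
    rw [abs_le]
    constructor <;> nlinarith [sq_nonneg (u - 1), sq_nonneg (u + 1)]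
  calc |-(2 * u)| * (1 + u ^ 2) ≤ (1 + u ^ 2) * (1 + u ^ 2) := mul_le_mul_of_nonneg_right h6 h5.le
    _ = 1 * (1 + u ^ 2) ^ 2 := by ring

lemma g2_le (u : ℝ) : |g2 u| ≤ 6 * w1 u := by
  unfold g2 w1
  have h5 : (0 : ℝ) < 1 + u ^ 2 := by positivity
  rw [abs_div, abs_of_pos (by positivity : (0 : ℝ) < (1 + u ^ 2) ^ 3), mul_one_div,
    div_le_div_iff₀ (by positivity) h5]
  have h6 : |6 * u ^ 2 - 2| ≤ 6 * (1 + u ^ 2) ^ 2 := by
    rw [abs_le]
    constructor <;> nlinarith [sq_nonneg u, sq_nonneg (u ^ 2)]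
  calc |6 * u ^ 2 - 2| * (1 + u ^ 2) ≤ 6 * (1 + u ^ 2) ^ 2 * (1 + u ^ 2) :=
        mul_le_mul_of_nonneg_right h6 h5.le
    _ = 6 * (1 + u ^ 2) ^ 3 := by ring

/-- the cut-off -/
noncomputable def b (y : ℝ) : ℝ := bu (-1) 1 (1 / 2) y

lemma b_cd : ContDiff ℝ 2 b := bu_cd (-1) 1 (1 / 2)

lemma b_cs : HasCompactSupport b := bu_cs (by norm_num)

lemma b_nonneg (y : ℝ) : 0 ≤ b y := bu_nonneg _ _ _ _

lemma b_le (y : ℝ) : b y ≤ 1 := bu_le _ _ _ _

lemma b1_cd : ContDiff ℝ 1 (deriv b) := by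
  have := (contDiff_succ_iff_deriv (n := 1) (𝕜 := ℝ) (f := b)).1 (b_cd.of_le one_add_one_eq_two.le)
  exact this.2.2

lemma hd_b (y : ℝ) : HasDerivAt b (deriv b y) y := (b_cd.differentiable (by norm_num) y).hasDerivAt

lemma hd_b1 (y : ℝ) : HasDerivAt (deriv b) (deriv (deriv b) y) y :=
  (b1_cd.differentiable (by norm_num) y).hasDerivAt

lemma exB : ∃ B : ℝ, 0 ≤ B ∧ (∀ y, |deriv b y| ≤ B) ∧ ∀ y, |deriv (deriv b) y| ≤ B := by
  obtain ⟨B1, hB1⟩ := b_cs.deriv.exists_bound_of_continuous (b_cd.continuous_deriv (by norm_num))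
  obtain ⟨B2, hB2⟩ := b_cs.deriv.deriv.exists_bound_of_continuous (b1_cd.continuous_deriv (by norm_num))
  refine ⟨max B1 B2, ?_, fun y => ?_, fun y => ?_⟩
  · exact ((norm_nonneg _).trans (hB1 0)).trans (le_max_left _ _)
  · exact (by simpa [Real.norm_eq_abs] using hB1 y : |deriv b y| ≤ B1).trans (le_max_left _ _)
  · exact (by simpa [Real.norm_eq_abs] using hB2 y : |deriv (deriv b) y| ≤ B2).trans (le_max_right _ _)

lemma Mw_eq (w : ℝ) : Mw w = fun y => w1 (y / w) * b y := rfl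

lemma Mw_d1 {w : ℝ} (y : ℝ) :
    HasDerivAt (Mw w) (g1 (y / w) / w * b y + w1 (y / w) * deriv b y) y := by
  have h1 : HasDerivAt (fun y : ℝ => w1 (y / w)) (g1 (y / w) / w) y := by
    have h0 : HasDerivAt (fun y : ℝ => y / w) (1 / w) y := (hasDerivAt_id y).div_const w
    have := (hd_w1 (y / w)).comp y h0
    exact this.congr_deriv (by ring)
  rw [Mw_eq]
  exact h1.mul (hd_b y)

lemma Mw_deriv {w : ℝ} :
    deriv (Mw w) = fun y => g1 (y / w) / w * b y + w1 (y / w) * deriv b y :=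
  funext fun y => (Mw_d1 y).deriv

lemma Mw_d2 {w : ℝ} (y : ℝ) :
    HasDerivAt (deriv (Mw w)) (g2 (y / w) / w / w * b y + 2 * (g1 (y / w) / w) * deriv b y +
      w1 (y / w) * deriv (deriv b) y) y := by
  have h0 : HasDerivAt (fun y : ℝ => y / w) (1 / w) y := (hasDerivAt_id y).div_const w
  have h1 : HasDerivAt (fun y : ℝ => w1 (y / w)) (g1 (y / w) / w) y := by
    have := (hd_w1 (y / w)).comp y h0
    exact this.congr_deriv (by ring)
  have h2 : HasDerivAt (fun y : ℝ => g1 (y / w) / w) (g2 (y / w) / w / w) y := by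
    have := ((hd_g1 (y / w)).comp y h0).div_const w
    exact this.congr_deriv (by ring)
  rw [Mw_deriv]
  exact ((h2.mul (hd_b y)).add (h1.mul (hd_b1 y))).congr_deriv (by ring)

lemma Mw_deriv2 {w : ℝ} (y : ℝ) :
    deriv (deriv (Mw w)) y = g2 (y / w) / w / w * b y + 2 * (g1 (y / w) / w) * deriv b y +
      w1 (y / w) * deriv (deriv b) y := (Mw_d2 y).deriv

lemma Mw_c2c (w : ℝ) : C2c (Mw w) := by
  refine ⟨?_, fun x hx => ?_⟩
  · have h1 : ContDiff ℝ 2 (fun y : ℝ => w1 (y / w)) := by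
      have h2 : (fun y : ℝ => w1 (y / w)) = fun y : ℝ => 1 / (1 + (y / w) ^ 2) := rfl
      rw [h2]
      refine ContDiff.div contDiff_const ?_ fun y => by positivity
      exact contDiff_const.add ((contDiff_id.div_const w).pow 2)
    exact h1.mul b_cd
  · have h1 : b x = 0 := by
      rcases le_abs.1 hx with h | h
      · exact bu_right (by norm_num) h
      · exact bu_left (by norm_num) (by linarith)
    rw [Mw_eq]
    simp only [h1, mul_zero]

lemma F_le {w : ℝ} (y : ℝ) : |Mw w y| ≤ w1 (y / w) := by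
  rw [Mw_eq]
  simp only [abs_mul, abs_of_pos (w1_pos _), abs_of_nonneg (b_nonneg _)]
  exact mul_le_of_le_one_right (w1_pos _).le (b_le y)

lemma F1_le {w B : ℝ} (hw : 0 < w) (hw1 : w ≤ 1) (hB0 : 0 ≤ B) (hB : ∀ y, |deriv b y| ≤ B) (y : ℝ) :
    |deriv (Mw w) y| ≤ (1 + B) / w * w1 (y / w) := by
  rw [Mw_deriv]
  simp only
  have e1 : |g1 (y / w) / w * b y| ≤ w1 (y / w) / w := by
    rw [abs_mul, abs_div, abs_of_pos hw, abs_of_nonneg (b_nonneg _)]
    have : |g1 (y / w)| / w ≤ w1 (y / w) / w := div_le_div_of_nonneg_right (g1_le _) hw.le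
    exact (mul_le_of_le_one_right (by positivity) (b_le y)).trans this
  have e2 : |w1 (y / w) * deriv b y| ≤ B / w * w1 (y / w) := by
    rw [abs_mul, abs_of_pos (w1_pos _), mul_comm]
    apply mul_le_mul_of_nonneg_right _ (w1_pos _).le
    refine (hB y).trans ?_
    rw [le_div_iff₀ hw]
    nlinarith
  calc _ ≤ _ := abs_add_le _ _
    _ ≤ w1 (y / w) / w + B / w * w1 (y / w) := add_le_add e1 e2
    _ = _ := by ring

lemma F2_le {w B : ℝ} (hw : 0 < w) (hw1 : w ≤ 1) (hB0 : 0 ≤ B) (hB : ∀ y, |deriv b y| ≤ B)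
    (hB2 : ∀ y, |deriv (deriv b) y| ≤ B) (y : ℝ) :
    |deriv (deriv (Mw w)) y| ≤ (6 + 3 * B) / w ^ 2 * w1 (y / w) := by
  rw [Mw_deriv2]
  have hp := w1_pos (y / w)
  have hww : 0 < w ^ 2 := by positivity
  have e1 : |g2 (y / w) / w / w * b y| ≤ 6 / w ^ 2 * w1 (y / w) := by
    rw [abs_mul, abs_div, abs_div, abs_of_pos hw, abs_of_nonneg (b_nonneg _), div_div, ← sq]
    have : |g2 (y / w)| / w ^ 2 ≤ 6 * w1 (y / w) / w ^ 2 := div_le_div_of_nonneg_right (g2_le _) hww.le
    refine ((mul_le_of_le_one_right (by positivity) (b_le y)).trans this).trans (le_of_eq ?_)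
    ring
  have e2 : |2 * (g1 (y / w) / w) * deriv b y| ≤ 2 * B / w ^ 2 * w1 (y / w) := by
    rw [abs_mul, abs_mul, abs_div, abs_of_pos hw, abs_of_pos (by norm_num : (0 : ℝ) < 2)]
    have k1 : |g1 (y / w)| / w ≤ w1 (y / w) / w ^ 2 := by
      refine div_le_div₀ hp.le (g1_le _) hww ?_
      nlinarith
    calc 2 * (|g1 (y / w)| / w) * |deriv b y| ≤ 2 * (w1 (y / w) / w ^ 2) * B := by
          apply mul_le_mul _ (hB y) (abs_nonneg _) (by positivity)
          linarith
      _ = _ := by ring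
  have e3 : |w1 (y / w) * deriv (deriv b) y| ≤ B / w ^ 2 * w1 (y / w) := by
    rw [abs_mul, abs_of_pos hp, mul_comm]
    apply mul_le_mul_of_nonneg_right _ hp.le
    refine (hB2 y).trans ?_
    rw [le_div_iff₀ hww]
    have : w ^ 2 ≤ 1 := by nlinarith
    nlinarith
  have e4 : |g2 (y / w) / w / w * b y + 2 * (g1 (y / w) / w) * deriv b y +
      w1 (y / w) * deriv (deriv b) y| ≤ |g2 (y / w) / w / w * b y| +
      |2 * (g1 (y / w) / w) * deriv b y| + |w1 (y / w) * deriv (deriv b) y| :=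
    (abs_add_le _ _).trans (add_le_add (abs_add_le _ _) le_rfl)
  calc _ ≤ _ := e4
    _ ≤ 6 / w ^ 2 * w1 (y / w) + 2 * B / w ^ 2 * w1 (y / w) + B / w ^ 2 * w1 (y / w) :=
        add_le_add (add_le_add e1 e2) e3
    _ = _ := by ring

/-- local Taylor formula -/
lemma taylorl {F : ℝ → ℝ} (hF : ContDiff ℝ 2 F) {M x v : ℝ} (hM0 : 0 ≤ M)
    (hM : ∀ s, |s - x| ≤ |v| → |deriv (deriv F) s| ≤ M) :
    |F (x - v) - F x + v * deriv F x| ≤ M * v ^ 2 := by
  have hF1 : ContDiff ℝ 1 (deriv F) := by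
    have := (contDiff_succ_iff_deriv (n := 1) (𝕜 := ℝ) (f := F)).1 (hF.of_le one_add_one_eq_two.le)
    exact this.2.2
  have hd : ∀ x, HasDerivAt F (deriv F x) x := fun x =>
    (hF.differentiable (by norm_num) x).hasDerivAt
  have hd1 : ∀ x, HasDerivAt (deriv F) (deriv (deriv F) x) x := fun x =>
    (hF1.differentiable (by norm_num) x).hasDerivAt
  have k1 : ∀ t : ℝ, |t| ≤ |v| → |deriv F x - deriv F (x - t)| ≤ M * |t| := by
    intro t ht
    have := (convex_closedBall x |v|).norm_image_sub_le_of_norm_hasDerivWithin_le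
      (f := deriv F) (f' := deriv (deriv F)) (C := M)
      (fun s _ => (hd1 s).hasDerivWithinAt) (fun s hs => hM s (by
        rw [Metric.mem_closedBall, Real.dist_eq] at hs; exact hs)) (x := x - t) (y := x)
      (by rw [Metric.mem_closedBall, Real.dist_eq]; simpa using ht)
      (by simp)
    simpa [Real.norm_eq_abs] using this
  have k2 : ∀ t : ℝ, HasDerivAt (fun v => F (x - v) - F x + v * deriv F x)
      (deriv F x - deriv F (x - t)) t := by
    intro t
    have h1 := HasDerivAt.comp_const_sub x t (hd (x - t))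
    have h2 : HasDerivAt (fun v : ℝ => v * deriv F x) (1 * deriv F x) t :=
      (hasDerivAt_id t).mul_const (deriv F x)
    exact ((h1.sub_const (F x)).add h2).congr_deriv (by ring)
  have := (convex_uIcc (0 : ℝ) v).norm_image_sub_le_of_norm_hasDerivWithin_le
      (f := fun v => F (x - v) - F x + v * deriv F x)
      (f' := fun v => deriv F x - deriv F (x - v)) (C := M * |v|)
      (fun t _ => (k2 t).hasDerivWithinAt) (fun t ht => by
        rw [Real.norm_eq_abs]
        have h3 := abs_sub_left_of_mem_uIcc ht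
        have h4 : |t| ≤ |v| := by simpa using h3
        exact (k1 t h4).trans (mul_le_mul_of_nonneg_left h4 hM0)) left_mem_uIcc right_mem_uIcc
  simp only [sub_zero, sub_self, zero_mul, add_zero, Real.norm_eq_abs] at this
  calc _ ≤ M * |v| * |v| := this
    _ = M * v ^ 2 := by rw [mul_assoc, abs_mul_abs_self, sq]

lemma int_w1 {w : ℝ} (hw : 0 < w) (hw1 : w ≤ 1) :
    Integrable (fun x : ℝ => w1 (x / w)) ∧ ∫ x : ℝ, w1 (x / w) = Real.pi * w := by
  have h1 : 1 ≤ 1 / w := by rw [le_div_iff₀ hw]; linarith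
  have e : (fun x : ℝ => w1 (x / w)) = fun x : ℝ => (1 + (1 / w * x) ^ 2)⁻¹ := by
    funext x
    unfold w1
    rw [one_div]
    congr 3
    ring
  constructor
  · rw [e]; exact int_base _ h1
  · rw [e, int_base_eq _ h1]
    field_simp

/-- the pointwise estimate of the integrand in `KPTL.key` -/
lemma ptw {C1 w R B : ℝ} (hC1 : 0 < C1) (hR : 1 ≤ R)
    (hk : ∀ R x : ℝ, 1 ≤ R → ‖WR R (x : ℂ)‖ ≤ C1 * R / (1 + (R * x) ^ 4))
    (hw : 0 < w) (hw1 : w ≤ 1) (hwR : 1 ≤ w * R) (hB0 : 0 ≤ B)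
    (hB : ∀ y, |deriv b y| ≤ B) (hB2 : ∀ y, |deriv (deriv b) y| ≤ B) (x v : ℝ) :
    |Mw w (x - v) - Mw w x + v * deriv (Mw w) x| * ‖WR R (v : ℂ)‖ ≤
      (30 + 14 * B) / w ^ 2 * w1 (x / w) * (2 * C1 / R * (1 + (R * v) ^ 2)⁻¹) +
      32 * C1 / (w * (w * R) ^ 2) * w1 (x / w) * w1 ((x - v) / w) := by
  have hp := w1_pos (x / w)
  have hq := w1_pos ((x - v) / w)
  have hR0 : 0 < R := by linarith
  have hww : 0 < w ^ 2 := by positivity
  have hcd := (Mw_c2c w).cd
  have n0 : 0 ≤ ‖WR R (v : ℂ)‖ := norm_nonneg _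
  have hWR2 := WR_le2 hC1 hk R v hR
  have last : 0 ≤ 32 * C1 / (w * (w * R) ^ 2) * w1 (x / w) * w1 ((x - v) / w) := by positivity
  have fin : ∀ K : ℝ, 0 ≤ K → K ≤ 30 + 14 * B →
      K / w ^ 2 * w1 (x / w) * v ^ 2 * ‖WR R (v : ℂ)‖ ≤
        (30 + 14 * B) / w ^ 2 * w1 (x / w) * (2 * C1 / R * (1 + (R * v) ^ 2)⁻¹) := by
    intro K hK0 hK
    calc K / w ^ 2 * w1 (x / w) * v ^ 2 * ‖WR R (v : ℂ)‖
        = K / w ^ 2 * w1 (x / w) * (v ^ 2 * ‖WR R (v : ℂ)‖) := by ring
      _ ≤ K / w ^ 2 * w1 (x / w) * (2 * C1 / R * (1 + (R * v) ^ 2)⁻¹) :=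
          mul_le_mul_of_nonneg_left hWR2 (by positivity)
      _ ≤ _ := by
          apply mul_le_mul_of_nonneg_right _ (by positivity)
          apply mul_le_mul_of_nonneg_right _ hp.le
          exact div_le_div_of_nonneg_right hK hww.le
  rcases le_or_gt |x| w with hx | hx
  · -- `|x| ≤ w`
    have h2 : 1 ≤ 2 * w1 (x / w) := by
      unfold w1
      rw [mul_one_div, le_div_iff₀ (by positivity)]
      have k1 : |x / w| ≤ 1 := by
        rw [abs_div, abs_of_pos hw, div_le_one hw]; exact hx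
      have k2 : (x / w) ^ 2 ≤ 1 := by
        rw [← sq_abs]; nlinarith [abs_nonneg (x / w)]
      linarith
    have h3 : |Mw w (x - v) - Mw w x + v * deriv (Mw w) x| ≤ (6 + 3 * B) / w ^ 2 * v ^ 2 := by
      apply taylorl hcd (by positivity)
      intro s _
      refine (F2_le hw hw1 hB0 hB hB2 s).trans ?_
      exact mul_le_of_le_one_right (by positivity) (w1_le _)
    have h4 : (6 + 3 * B) / w ^ 2 * v ^ 2 ≤ (12 + 6 * B) / w ^ 2 * w1 (x / w) * v ^ 2 := by
      have k1 : (6 + 3 * B) / w ^ 2 * v ^ 2 * 1 ≤ (6 + 3 * B) / w ^ 2 * v ^ 2 * (2 * w1 (x / w)) :=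
        mul_le_mul_of_nonneg_left h2 (by positivity)
      calc _ = (6 + 3 * B) / w ^ 2 * v ^ 2 * 1 := by ring
        _ ≤ _ := k1
        _ = _ := by ring
    have h5 := mul_le_mul_of_nonneg_right (h3.trans h4) n0
    have h6 := fin (12 + 6 * B) (by positivity) (by linarith)
    linarith
  · rcases le_or_gt |v| (|x| / 2) with hv | hv
    · -- `|v| ≤ |x|/2`
      have h3 : |Mw w (x - v) - Mw w x + v * deriv (Mw w) x| ≤
          (24 + 12 * B) / w ^ 2 * w1 (x / w) * v ^ 2 := by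
        apply taylorl hcd (by positivity)
        intro s hs
        refine (F2_le hw hw1 hB0 hB hB2 s).trans ?_
        have k1 : |x| / 2 ≤ |s| := by
          have := abs_sub_abs_le_abs_sub x s
          rw [abs_sub_comm x s] at this
          linarith
        have k2 : w1 (s / w) ≤ 4 * w1 (x / w) := by
          unfold w1
          rw [mul_one_div, div_le_div_iff₀ (by positivity) (by positivity)]
          have k3 : x ^ 2 ≤ 4 * s ^ 2 := by
            rw [← sq_abs x, ← sq_abs s]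
            nlinarith [abs_nonneg x]
          have k4 : (x / w) ^ 2 ≤ 4 * (s / w) ^ 2 := by
            rw [div_pow, div_pow, ← mul_div_assoc]
            exact div_le_div_of_nonneg_right k3 hww.le
          linarith
        calc (6 + 3 * B) / w ^ 2 * w1 (s / w) ≤ (6 + 3 * B) / w ^ 2 * (4 * w1 (x / w)) :=
              mul_le_mul_of_nonneg_left k2 (by positivity)
          _ = _ := by ring
      have h5 := mul_le_mul_of_nonneg_right h3 n0
      have h6 := fin (24 + 12 * B) (by positivity) (by linarith)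
      linarith
    · -- `|v| > |x|/2`
      have hvw : w / 2 < |v| := by linarith
      have hv2 : w ^ 2 ≤ 4 * v ^ 2 := by
        rw [← sq_abs v]; nlinarith
      have e1 : |Mw w (x - v) - Mw w x + v * deriv (Mw w) x| ≤
          w1 ((x - v) / w) + (6 + 2 * B) / w ^ 2 * w1 (x / w) * v ^ 2 := by
        have k1 := F_le (w := w) (x - v)
        have k2 := F_le (w := w) x
        have k3 := F1_le hw hw1 hB0 hB x
        have k4 : |v * deriv (Mw w) x| ≤ (2 + 2 * B) / w ^ 2 * w1 (x / w) * v ^ 2 := by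
          rw [abs_mul]
          have m1 : |v| * w ≤ 2 * v ^ 2 := by
            rw [← sq_abs v]; nlinarith [abs_nonneg v]
          calc |v| * |deriv (Mw w) x| ≤ |v| * ((1 + B) / w * w1 (x / w)) :=
                mul_le_mul_of_nonneg_left k3 (abs_nonneg _)
            _ = (1 + B) / w ^ 2 * w1 (x / w) * (|v| * w) := by
                field_simp
            _ ≤ (1 + B) / w ^ 2 * w1 (x / w) * (2 * v ^ 2) :=
                mul_le_mul_of_nonneg_left m1 (by positivity)
            _ = _ := by ring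
        have k5 : w1 (x / w) ≤ 4 / w ^ 2 * w1 (x / w) * v ^ 2 := by
          have m1 : 1 ≤ 4 * v ^ 2 / w ^ 2 := by rw [le_div_iff₀ hww]; linarith
          calc w1 (x / w) = w1 (x / w) * 1 := by ring
            _ ≤ w1 (x / w) * (4 * v ^ 2 / w ^ 2) := mul_le_mul_of_nonneg_left m1 hp.le
            _ = _ := by ring
        calc |Mw w (x - v) - Mw w x + v * deriv (Mw w) x|
            ≤ |Mw w (x - v) - Mw w x| + |v * deriv (Mw w) x| := abs_add_le _ _
          _ ≤ (|Mw w (x - v)| + |Mw w x|) + |v * deriv (Mw w) x| :=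
              add_le_add (abs_sub _ _) le_rfl
          _ ≤ (w1 ((x - v) / w) + 4 / w ^ 2 * w1 (x / w) * v ^ 2) +
              (2 + 2 * B) / w ^ 2 * w1 (x / w) * v ^ 2 :=
              add_le_add (add_le_add k1 (k2.trans k5)) k4
          _ = _ := by ring
      have e2 : ‖WR R (v : ℂ)‖ ≤ 32 * C1 / (w * (w * R) ^ 2) * w1 (x / w) := by
        refine (hk R v hR).trans ?_
        obtain ⟨t, ht⟩ : ∃ t : ℝ, t = x / w := ⟨_, rfl⟩
        have hxt : x = t * w := by rw [ht]; field_simp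
        have ht1 : 1 ≤ t ^ 2 := by
          have : 1 < |t| := by
            rw [ht, abs_div, abs_of_pos hw, lt_div_iff₀ hw, one_mul]; exact hx
          rw [← sq_abs]; nlinarith
        have k1 : (w * R * t) ^ 4 / 16 ≤ (R * v) ^ 4 := by
          have m1 : (R * v) ^ 4 = (R * |v|) ^ 4 := by
            rw [mul_pow, mul_pow]
            congr 1
            exact (Even.pow_abs (by decide) _).symm
          have m2 : (w * R * t) ^ 4 / 16 = (R * (|x| / 2)) ^ 4 := by
            have : w * R * t = R * x := by rw [hxt]; ring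
            rw [this, mul_pow, mul_pow, div_pow]
            have : x ^ 4 = |x| ^ 4 := (Even.pow_abs (by decide) _).symm
            rw [this]
            ring
          rw [m1, m2]
          have m3 : R * (|x| / 2) ≤ R * |v| := mul_le_mul_of_nonneg_left hv.le hR0.le
          have h0 : 0 ≤ R * (|x| / 2) := by positivity
          gcongr
        have ha : 0 < w * R := by positivity
        have ht0 : 0 < t ^ 2 := by linarith
        have k2 : 0 < (w * R * t) ^ 4 := by
          have : t ≠ 0 := by rintro rfl; norm_num at ht1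
          positivity
        rw [← ht]
        unfold w1
        calc C1 * R / (1 + (R * v) ^ 4) ≤ C1 * R / ((w * R * t) ^ 4 / 16) := by
              apply div_le_div_of_nonneg_left (by positivity) (by positivity)
              linarith
          _ = 16 * C1 * R / ((w * R) ^ 4 * t ^ 4) := by
              rw [mul_pow (w * R) t 4]
              field_simp
          _ ≤ 32 * C1 * R / ((w * R) ^ 3 * (1 + t ^ 2)) := by
              rw [div_le_div_iff₀ (by rw [← mul_pow]; exact k2) (by positivity)]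
              have m1 : (w * R) ^ 3 ≤ (w * R) ^ 4 := pow_le_pow_right₀ hwR (by norm_num)
              have m2 : 1 + t ^ 2 ≤ 2 * t ^ 4 := by nlinarith
              have m3 : (w * R) ^ 3 * (1 + t ^ 2) ≤ (w * R) ^ 4 * (2 * t ^ 4) :=
                mul_le_mul m1 m2 (by positivity) (by positivity)
              calc 16 * C1 * R * ((w * R) ^ 3 * (1 + t ^ 2)) ≤ 16 * C1 * R * ((w * R) ^ 4 * (2 * t ^ 4)) :=
                    mul_le_mul_of_nonneg_left m3 (by positivity)
                _ = _ := by ring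
          _ = 32 * C1 / (w * (w * R) ^ 2) * (1 / (1 + t ^ 2)) := by
              field_simp
      have h6 := fin (6 + 2 * B) (by positivity) (by linarith)
      calc _ ≤ (w1 ((x - v) / w) + (6 + 2 * B) / w ^ 2 * w1 (x / w) * v ^ 2) * ‖WR R (v : ℂ)‖ :=
            mul_le_mul_of_nonneg_right e1 n0
        _ = w1 ((x - v) / w) * ‖WR R (v : ℂ)‖ +
            (6 + 2 * B) / w ^ 2 * w1 (x / w) * v ^ 2 * ‖WR R (v : ℂ)‖ := by ring
        _ ≤ w1 ((x - v) / w) * (32 * C1 / (w * (w * R) ^ 2) * w1 (x / w)) +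
            (30 + 14 * B) / w ^ 2 * w1 (x / w) * (2 * C1 / R * (1 + (R * v) ^ 2)⁻¹) :=
            add_le_add (mul_le_mul_of_nonneg_left e2 hq.le) h6
        _ = _ := by ring

/-- the smoothing error on the real line -/
lemma real_part {C1 C2 w R B : ℝ} (hC1 : 0 < C1) (hC2 : 0 < C2) (hR : 1 ≤ R)
    (hk : ∀ R x : ℝ, 1 ≤ R → ‖WR R (x : ℂ)‖ ≤ C1 * R / (1 + (R * x) ^ 4))
    (hom : ∀ R : ℝ, 1 ≤ R → |om R - 1| ≤ C2 / R ^ 2)
    (hw : 0 < w) (hw1 : w ≤ 1) (hwR : 1 ≤ w * R) (hB0 : 0 ≤ B)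
    (hB : ∀ y, |deriv b y| ≤ B) (hB2 : ∀ y, |deriv (deriv b) y| ≤ B) (x : ℝ) :
    ‖KF (Mw w) R (x : ℂ) - Mw w x‖ ≤
      (2 * Real.pi * C1 * (30 + 14 * B) + 32 * Real.pi * C1 + C2) / (w * R) ^ 2 * w1 (x / w) := by
  have hp := w1_pos (x / w)
  have hR0 : 0 < R := by linarith
  have hww : 0 < w ^ 2 := by positivity
  rw [KPTL.key hC1 hk (Mw_c2c w) hR x]
  obtain ⟨i1, i2⟩ := int_w1 hw hw1
  have i3 : Integrable (fun v : ℝ => w1 ((x - v) / w)) := i1.comp_sub_left x
  have i4 : ∫ v : ℝ, w1 ((x - v) / w) = Real.pi * w := by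
    rw [integral_sub_left_eq_self (fun v : ℝ => w1 (v / w)) volume x, i2]
  have k1 : ‖∫ v : ℝ, ((Mw w (x - v) - Mw w x + v * deriv (Mw w) x : ℝ) : ℂ) * WR R (v : ℂ)‖ ≤
      (30 + 14 * B) / w ^ 2 * w1 (x / w) * (2 * C1 / R * (Real.pi / R)) +
      32 * C1 / (w * (w * R) ^ 2) * w1 (x / w) * (Real.pi * w) := by
    have e : (30 + 14 * B) / w ^ 2 * w1 (x / w) * (2 * C1 / R * (Real.pi / R)) +
        32 * C1 / (w * (w * R) ^ 2) * w1 (x / w) * (Real.pi * w) =
        ∫ v : ℝ, ((30 + 14 * B) / w ^ 2 * w1 (x / w) * (2 * C1 / R * (1 + (R * v) ^ 2)⁻¹) +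
          32 * C1 / (w * (w * R) ^ 2) * w1 (x / w) * w1 ((x - v) / w)) := by
      rw [integral_add (((int_base R hR).const_mul _).const_mul _) (i3.const_mul _),
        integral_const_mul, integral_const_mul, integral_const_mul, int_base_eq R hR, i4]
    rw [e]
    refine norm_integral_le_of_norm_le
      ((((int_base R hR).const_mul _).const_mul _).add (i3.const_mul _))
      (Eventually.of_forall fun v => ?_)
    rw [norm_mul, norm_real, Real.norm_eq_abs]
    exact ptw hC1 hR hk hw hw1 hwR hB0 hB hB2 x v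
  have k3 : ‖((om R - 1 : ℝ) : ℂ) * (Mw w x : ℂ)‖ ≤ C2 / R ^ 2 * w1 (x / w) := by
    rw [norm_mul, norm_real, norm_real, Real.norm_eq_abs, Real.norm_eq_abs]
    exact mul_le_mul (hom R hR) (F_le x) (abs_nonneg _) (by positivity)
  have k4 : C2 / R ^ 2 * w1 (x / w) ≤ C2 / (w * R) ^ 2 * w1 (x / w) := by
    apply mul_le_mul_of_nonneg_right _ hp.le
    apply div_le_div_of_nonneg_left hC2.le (by positivity)
    rw [mul_pow]
    have : w ^ 2 ≤ 1 := by nlinarith
    nlinarith [sq_nonneg R]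
  refine (norm_add_le _ _).trans ((add_le_add k1 (k3.trans k4)).trans (le_of_eq ?_))
  field_simp

/-- Peetre's inequality -/
lemma peetre {w R : ℝ} (hw : 0 < w) (hwR : 1 ≤ w * R) (x s : ℝ) :
    w1 (s / w) * q4 R (x - s) ≤ 4 * w1 (x / w) * (1 + (R * (x - s)) ^ 2)⁻¹ := by
  have h1 : w1 (s / w) ≤ 2 * w1 (x / w) * (1 + (R * (x - s)) ^ 2) := by
    have k1 : w1 (s / w) ≤ 2 * w1 (x / w) * (1 + (x / w - s / w) ^ 2) := by
      unfold w1
      rw [mul_one_div, div_mul_eq_mul_div, div_le_div_iff₀ (by positivity) (by positivity)]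
      nlinarith [sq_nonneg (s / w), sq_nonneg (x / w - s / w), sq_nonneg (x / w - 2 * (s / w)),
        mul_nonneg (sq_nonneg (s / w)) (sq_nonneg (x / w - s / w))]
    have k2 : (x / w - s / w) ^ 2 ≤ (R * (x - s)) ^ 2 := by
      rw [← sub_div, mul_pow, div_pow, div_le_iff₀ (pow_pos hw 2)]
      have : 1 ≤ (w * R) ^ 2 := one_le_pow₀ hwR
      nlinarith [sq_nonneg (x - s), mul_nonneg (sub_nonneg.2 this) (sq_nonneg (x - s))]
    refine k1.trans ?_
    apply mul_le_mul_of_nonneg_left _ (by have := w1_pos (x / w); positivity)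
    linarith
  have h2 : (1 + (R * (x - s)) ^ 2) * q4 R (x - s) ≤ 2 * (1 + (R * (x - s)) ^ 2)⁻¹ := by
    unfold q4
    rw [mul_one_div, ← div_eq_mul_inv, div_le_div_iff₀ (by positivity) (by positivity)]
    nlinarith [sq_nonneg ((R * (x - s)) ^ 2 - 1)]
  have hp := w1_pos (x / w)
  calc w1 (s / w) * q4 R (x - s) ≤ 2 * w1 (x / w) * (1 + (R * (x - s)) ^ 2) * q4 R (x - s) :=
        mul_le_mul_of_nonneg_right h1 (q4_nonneg _ _)
    _ = 2 * w1 (x / w) * ((1 + (R * (x - s)) ^ 2) * q4 R (x - s)) := by ring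
    _ ≤ 2 * w1 (x / w) * (2 * (1 + (R * (x - s)) ^ 2)⁻¹) :=
        mul_le_mul_of_nonneg_left h2 (by positivity)
    _ = _ := by ring

lemma conv_le {w R B : ℝ} (hR : 1 ≤ R)
    (hw : 0 < w) (hw1 : w ≤ 1) (hwR : 1 ≤ w * R) (hB0 : 0 ≤ B)
    (hB : ∀ y, |deriv b y| ≤ B) (hB2 : ∀ y, |deriv (deriv b) y| ≤ B) (x : ℝ) :
    ∫ s, |deriv (deriv (Mw w)) s| * q4 R (x - s) ≤
      (6 + 3 * B) / w ^ 2 * (4 * w1 (x / w)) * (Real.pi / R) := by
  have i1 : Integrable (fun s : ℝ => (1 + (R * (x - s)) ^ 2)⁻¹) :=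
    (int_base R hR).comp_sub_left x
  have i2 : ∫ s : ℝ, (1 + (R * (x - s)) ^ 2)⁻¹ = Real.pi / R := by
    rw [integral_sub_left_eq_self (fun v : ℝ => (1 + (R * v) ^ 2)⁻¹) volume x, int_base_eq R hR]
  rw [← i2, ← integral_const_mul]
  refine integral_mono_of_nonneg (Eventually.of_forall fun s => ?_) (i1.const_mul _)
    (Eventually.of_forall fun s => ?_)
  · exact mul_nonneg (abs_nonneg _) (q4_nonneg _ _)
  · simp only
    have h1 := peetre hw hwR x s
    calc |deriv (deriv (Mw w)) s| * q4 R (x - s) ≤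
          (6 + 3 * B) / w ^ 2 * w1 (s / w) * q4 R (x - s) :=
          mul_le_mul_of_nonneg_right (F2_le hw hw1 hB0 hB hB2 s) (q4_nonneg _ _)
      _ = (6 + 3 * B) / w ^ 2 * (w1 (s / w) * q4 R (x - s)) := by ring
      _ ≤ (6 + 3 * B) / w ^ 2 * (4 * w1 (x / w) * (1 + (R * (x - s)) ^ 2)⁻¹) :=
          mul_le_mul_of_nonneg_left h1 (by positivity)
      _ = _ := by ring

end KML

open KML Pool.Agent.H203.ME Pool.Agent.H203.ME.L1AL Pool.Agent.H203.ME.L1BL in
theorem t_KM : S_KM := by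
  obtain ⟨C1, hC1, hker⟩ := t_KER
  obtain ⟨C2, hC2, hom⟩ := t_OM
  have hk : ∀ R x : ℝ, 1 ≤ R → ‖WR R (x : ℂ)‖ ≤ C1 * R / (1 + (R * x) ^ 4) :=
    fun R x hR => ker_bound hker R x hR
  obtain ⟨B, hB0, hB, hB2⟩ := exB
  have hpi := Real.pi_pos
  have he := Real.exp_pos 1
  obtain ⟨K1, hK1⟩ : ∃ K1 : ℝ, K1 = 2 * Real.pi * C1 * (30 + 14 * B) + 32 * Real.pi * C1 + C2 :=
    ⟨_, rfl⟩
  obtain ⟨K2, hK2⟩ : ∃ K2 : ℝ, K2 = 8 * Real.pi * C1 * Real.exp 1 * (6 + 3 * B) := ⟨_, rfl⟩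
  have hK1p : 0 < K1 := by rw [hK1]; positivity
  have hK2p : 0 < K2 := by rw [hK2]; positivity
  refine ⟨K1 + K2 + Real.pi, by positivity, ?_⟩
  intro w R hw hw1 hwR
  have hR : 1 ≤ R := by nlinarith
  have hR0 : 0 < R := by linarith
  obtain ⟨i1, i2⟩ := int_w1 hw hw1
  refine ⟨Mw_c2c w, ?_, fun x => ⟨?_, fun y hy => ?_⟩⟩
  · calc ∫ x : ℝ, |Mw w x| ≤ ∫ x : ℝ, w1 (x / w) :=
        integral_mono_of_nonneg (Eventually.of_forall fun s => abs_nonneg _) i1
          (Eventually.of_forall fun s => F_le s)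
      _ = Real.pi * w := i2
      _ ≤ _ := by nlinarith
  · have hp := w1_pos (x / w)
    have e1 := real_part hC1 hC2 hR hk hom hw hw1 hwR hB0 hB hB2 x
    rw [← hK1] at e1
    refine e1.trans ?_
    apply mul_le_mul_of_nonneg_right _ hp.le
    apply div_le_div_of_nonneg_right _ (by positivity)
    linarith
  · have hp := w1_pos (x / w)
    have e2 := KPTL.sec hC1 hker (Mw_c2c w) hR hy x
    have e3 := conv_le hR hw hw1 hwR hB0 hB hB2 x
    calc _ ≤ _ := e2
      _ ≤ 2 * y ^ 2 * (C1 * R * Real.exp (R * |y|) * Real.exp 1) *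
          ((6 + 3 * B) / w ^ 2 * (4 * w1 (x / w)) * (Real.pi / R)) :=
          mul_le_mul_of_nonneg_left e3 (by positivity)
      _ = K2 * ((y / w) ^ 2 * Real.exp (R * |y|) * w1 (x / w)) := by
          rw [hK2]
          field_simp
          ring
      _ ≤ (K1 + K2 + Real.pi) * ((y / w) ^ 2 * Real.exp (R * |y|) * w1 (x / w)) := by
          apply mul_le_mul_of_nonneg_right _ (by positivity)
          linarith
      _ = _ := by ring

end Pool.Agent.H203.HX
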