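import Pool.Agent.H203.HX.Defs
import Pool.Agent.H203.ME.KPT

set_option autoImplicit false

/-! Leaf KS of project HX (helper203): kernel bounds for `Gs w a`. -/

open Complex Filter Topology Set MeasureTheory

namespace Pool.Agent.H203.HX

open Pool.Agent.H203.ME (ee gR WR cR om FF KF C2c w1)

namespace KSL

/-- truncation to `[0,1]` -/
noncomputable def cl (y : ℝ) : ℝ := max 0 (min y 1)

lemma cl_nonneg (y : ℝ) : 0 ≤ cl y := le_max_left _ _

lemma cl_le (y : ℝ) : cl y ≤ 1 := max_le zero_le_one (min_le_right _ _)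

lemma cl_of_le {y : ℝ} (h : y ≤ 0) : cl y = 0 := by
  unfold cl
  exact max_eq_left ((min_le_left _ _).trans h)

lemma cl_of_ge {y : ℝ} (h : 1 ≤ y) : cl y = 1 := by
  unfold cl
  rw [min_eq_right h, max_eq_right zero_le_one]

lemma cl_mid {y : ℝ} (h0 : 0 ≤ y) (h1 : y ≤ 1) : cl y = y := by
  unfold cl
  rw [min_eq_left h1, max_eq_right h0]

lemma cl_cont : Continuous cl := by
  unfold cl
  fun_prop

lemma cl_lip (y z : ℝ) : |cl y - cl z| ≤ |y - z| := by
  unfold cl
  have h1 := abs_max_sub_max_le_max 0 (min y 1) 0 (min z 1)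
  have h2 := abs_min_sub_min_le_max y 1 z 1
  rw [sub_self, abs_zero] at h1 h2
  refine (h1.trans (max_le (abs_nonneg _) le_rfl)).trans (h2.trans (max_le le_rfl (abs_nonneg _)))

/-- the composition with the truncation is differentiable if the derivative vanishes at the ends -/
lemma comp_cl {f f' : ℝ → ℝ} (hf : ∀ c, HasDerivAt f (f' c) c) (h0 : f' 0 = 0) (h1 : f' 1 = 0)
    (y : ℝ) : HasDerivAt (fun y => f (cl y)) (f' (cl y)) y := by
  by_cases hy : 0 < y ∧ y < 1
  · rw [cl_mid hy.1.le hy.2.le]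
    refine (hf y).congr_of_eventuallyEq ?_
    filter_upwards [Ioo_mem_nhds hy.1 hy.2] with z hz
    rw [cl_mid hz.1.le hz.2.le]
  · have hz : f' (cl y) = 0 := by
      rcases le_or_gt y 0 with h | h
      · rw [cl_of_le h, h0]
      · have : 1 ≤ y := by
          by_contra hc
          push Not at hc
          exact hy ⟨h, hc⟩
        rw [cl_of_ge this, h1]
    have e1 := hf (cl y)
    rw [hz] at e1 ⊢
    rw [hasDerivAt_iff_isLittleO] at e1 ⊢
    simp only [smul_zero, sub_zero] at e1 ⊢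
    have e2 : Tendsto cl (𝓝 y) (𝓝 (cl y)) := cl_cont.tendsto y
    have e3 := e1.comp_tendsto e2
    refine e3.trans_isBigO ?_
    refine Asymptotics.IsBigO.of_bound 1 (Eventually.of_forall fun z => ?_)
    rw [one_mul]
    exact cl_lip z y

/-- first and second derivative of the step -/
noncomputable def p1 (c : ℝ) : ℝ := 30 * c ^ 2 - 60 * c ^ 3 + 30 * c ^ 4

noncomputable def p2 (c : ℝ) : ℝ := 60 * c - 180 * c ^ 2 + 120 * c ^ 3

lemma hasD (n : ℕ) (k c : ℝ) : HasDerivAt (fun c : ℝ => k * c ^ n) (k * (n * c ^ (n - 1))) c :=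
  (hasDerivAt_pow n c).const_mul k

lemma d0 (c : ℝ) : HasDerivAt (fun c : ℝ => 10 * c ^ 3 - 15 * c ^ 4 + 6 * c ^ 5) (p1 c) c := by
  have := ((hasD 3 10 c).sub (hasD 4 15 c)).add (hasD 5 6 c)
  refine this.congr_deriv ?_
  unfold p1
  norm_num
  ring

lemma d1 (c : ℝ) : HasDerivAt p1 (p2 c) c := by
  have := ((hasD 2 30 c).sub (hasD 3 60 c)).add (hasD 4 30 c)
  refine this.congr_deriv ?_
  unfold p2
  norm_num
  ring

lemma Ps_eq : Ps = fun y => 10 * (cl y) ^ 3 - 15 * (cl y) ^ 4 + 6 * (cl y) ^ 5 := by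
  funext y
  unfold Ps cl
  rfl

lemma Ps_d (y : ℝ) : HasDerivAt Ps (p1 (cl y)) y := by
  rw [Ps_eq]
  exact comp_cl d0 (by norm_num [p1]) (by norm_num [p1]) y

lemma P1_d (y : ℝ) : HasDerivAt (fun y => p1 (cl y)) (p2 (cl y)) y :=
  comp_cl d1 (by norm_num [p2]) (by norm_num [p2]) y

lemma P2_c : Continuous fun y => p2 (cl y) := by
  have := cl_cont
  unfold p2
  fun_prop

lemma Ps_nonneg (y : ℝ) : 0 ≤ Ps y := by
  rw [Ps_eq]
  have h0 := cl_nonneg y
  have h1 := cl_le y
  have e : 10 * (cl y) ^ 3 - 15 * (cl y) ^ 4 + 6 * (cl y) ^ 5 =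
      (cl y) ^ 3 * (6 * (cl y - 5 / 4) ^ 2 + 5 / 8) := by ring
  simp only
  rw [e]
  positivity

lemma Ps_le (y : ℝ) : Ps y ≤ 1 := by
  rw [Ps_eq]
  have h0 := cl_nonneg y
  have h1 := cl_le y
  have e : 1 - (10 * (cl y) ^ 3 - 15 * (cl y) ^ 4 + 6 * (cl y) ^ 5) =
      (1 - cl y) ^ 3 * (1 + 3 * cl y + 6 * (cl y) ^ 2) := by ring
  have h2 : 0 ≤ 1 - cl y := by linarith
  have h3 : 0 ≤ (1 - cl y) ^ 3 * (1 + 3 * cl y + 6 * (cl y) ^ 2) := by positivity
  simp only
  linarith

lemma Ps_of_le {y : ℝ} (h : y ≤ 0) : Ps y = 0 := by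
  rw [Ps_eq]
  simp [cl_of_le h]

lemma Ps_of_ge {y : ℝ} (h : 1 ≤ y) : Ps y = 1 := by
  rw [Ps_eq]
  simp only [cl_of_ge h]
  norm_num

lemma p1_out {y : ℝ} (h : y ≤ 0 ∨ 1 ≤ y) : p1 (cl y) = 0 := by
  rcases h with h | h
  · rw [cl_of_le h]; norm_num [p1]
  · rw [cl_of_ge h]; norm_num [p1]

lemma p2_out {y : ℝ} (h : y ≤ 0 ∨ 1 ≤ y) : p2 (cl y) = 0 := by
  rcases h with h | h
  · rw [cl_of_le h]; norm_num [p2]
  · rw [cl_of_ge h]; norm_num [p2]

lemma p2_le (y : ℝ) : |p2 (cl y)| ≤ 60 := by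
  have h0 := cl_nonneg y
  have h1 := cl_le y
  have e : p2 (cl y) = 60 * (cl y * (1 - cl y)) * (1 - 2 * cl y) := by unfold p2; ring
  rw [e, abs_mul]
  have e1 : |60 * (cl y * (1 - cl y))| ≤ 60 := by
    rw [abs_of_nonneg (by nlinarith)]
    nlinarith
  have e2 : |1 - 2 * cl y| ≤ 1 := by
    rw [abs_le]
    constructor <;> linarith
  calc _ ≤ 60 * 1 := mul_le_mul e1 e2 (abs_nonneg _) (by norm_num)
    _ = 60 := by norm_num

/-- one edge -/
noncomputable def E (w y : ℝ) : ℝ := Ps (y / w)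

lemma E_d (w y : ℝ) : HasDerivAt (E w) (p1 (cl (y / w)) / w) y := by
  have h1 : HasDerivAt (fun y : ℝ => y / w) (1 / w) y := (hasDerivAt_id y).div_const w
  have := (Ps_d (y / w)).comp y h1
  refine this.congr_deriv ?_
  ring

lemma E_d2 (w y : ℝ) :
    HasDerivAt (fun y => p1 (cl (y / w)) / w) (p2 (cl (y / w)) / w ^ 2) y := by
  have h1 : HasDerivAt (fun y : ℝ => y / w) (1 / w) y := (hasDerivAt_id y).div_const w
  have := ((P1_d (y / w)).comp y h1).div_const w
  refine this.congr_deriv ?_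
  ring

lemma E_deriv (w : ℝ) : deriv (E w) = fun y => p1 (cl (y / w)) / w :=
  funext fun y => (E_d w y).deriv

lemma E_deriv2 (w : ℝ) : deriv (deriv (E w)) = fun y => p2 (cl (y / w)) / w ^ 2 := by
  rw [E_deriv]
  exact funext fun y => (E_d2 w y).deriv

lemma E_cd (w : ℝ) : ContDiff ℝ 2 (E w) := by
  have h2 : Continuous (deriv (deriv (E w))) := by
    rw [E_deriv2]
    have := P2_c
    exact (this.comp (continuous_id.div_const w)).div_const _
  have h1 : ContDiff ℝ 1 (deriv (E w)) := by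
    rw [contDiff_one_iff_deriv]
    refine ⟨?_, h2⟩
    rw [E_deriv]
    exact fun y => (E_d2 w y).differentiableAt
  have h3 : ContDiff ℝ (1 + 1) (E w) := by
    rw [contDiff_succ_iff_deriv]
    refine ⟨fun y => (E_d w y).differentiableAt, ?_, h1⟩
    intro h
    exact absurd h (by decide)
  exact h3.of_le one_add_one_eq_two.symm.le

lemma E_M {w : ℝ} (hw : 0 < w) (y : ℝ) : |deriv (deriv (E w)) y| ≤ 60 / w ^ 2 := by
  rw [E_deriv2]
  simp only
  rw [abs_div, abs_of_pos (by positivity : 0 < w ^ 2)]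
  exact div_le_div_of_nonneg_right (p2_le _) (by positivity)

lemma w1_nonneg (u : ℝ) : 0 ≤ w1 u := by unfold w1; positivity

open Pool.Agent.H203.ME.KPTL in
/-- the Taylor error of one edge -/
lemma E_taylor {w : ℝ} (hw : 0 < w) (x v : ℝ) :
    |E w (x - v) - E w x + v * deriv (E w) x| ≤ 300 / w ^ 2 * w1 (x / w) * v ^ 2 := by
  rcases le_total (|x|) (2 * w) with hx | hx
  · have h1 := taylor (E_cd w) (E_M hw) x v
    refine h1.trans ?_
    apply mul_le_mul_of_nonneg_right _ (sq_nonneg v)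
    have h2 := five hw hx
    unfold w1
    rw [mul_one_div, le_div_iff₀ (by positivity)]
    have h3 : 0 < 60 / w ^ 2 := by positivity
    calc 60 / w ^ 2 * (1 + (x / w) ^ 2) ≤ 60 / w ^ 2 * 5 := mul_le_mul_of_nonneg_left h2 h3.le
      _ = 300 / w ^ 2 := by ring
  · have hxo : ∀ z : ℝ, w ≤ |z| → (z / w ≤ 0 ∨ 1 ≤ z / w) := by
      intro z hz
      rcases le_total 0 z with h | h
      · right
        rw [abs_of_nonneg h] at hz
        rwa [le_div_iff₀ hw, one_mul]
      · left
        exact div_nonpos_of_nonpos_of_nonneg h hw.le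
    have hd : deriv (E w) x = 0 := by
      rw [E_deriv]
      simp only
      rw [p1_out (hxo x (by linarith)), zero_div]
    rw [hd, mul_zero, add_zero]
    by_cases hv : |v| ≤ |x| / 2
    · have h1 : E w (x - v) = E w x := by
        unfold E
        rcases le_total 0 x with h | h
        · rw [abs_of_nonneg h] at hx hv
          have h2 := (abs_le.1 hv).2
          rw [Ps_of_ge, Ps_of_ge]
          · rw [le_div_iff₀ hw]; linarith
          · rw [le_div_iff₀ hw]; linarith
        · rw [abs_of_nonpos h] at hx hv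
          have h2 := (abs_le.1 hv).1
          rw [Ps_of_le, Ps_of_le]
          · exact div_nonpos_of_nonpos_of_nonneg h hw.le
          · exact div_nonpos_of_nonpos_of_nonneg (by linarith) hw.le
      rw [h1, sub_self, abs_zero]
      have := w1_nonneg (x / w)
      positivity
    · push Not at hv
      have h1 : |E w (x - v) - E w x| ≤ 1 := by
        unfold E
        rw [abs_le]
        constructor <;> linarith [Ps_nonneg ((x - v) / w), Ps_nonneg (x / w), Ps_le ((x - v) / w),
          Ps_le (x / w)]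
      refine h1.trans ?_
      have e1 : 300 / w ^ 2 * w1 (x / w) * v ^ 2 = 300 * v ^ 2 / (w ^ 2 + x ^ 2) := by
        unfold w1
        have : w ≠ 0 := hw.ne'
        field_simp
      rw [e1, le_div_iff₀ (by positivity), one_mul]
      have h2 : x ^ 2 ≤ 4 * v ^ 2 := by
        have h3 : |x| ^ 2 ≤ (2 * |v|) ^ 2 := by
          have : |x| ≤ 2 * |v| := by linarith
          gcongr
        rw [sq_abs, mul_pow, sq_abs] at h3
        linarith
      have h4 : 4 * w ^ 2 ≤ x ^ 2 := by
        have h3 : (2 * w) ^ 2 ≤ |x| ^ 2 := by gcongr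
        rw [sq_abs] at h3
        linarith
      nlinarith [sq_nonneg v]

lemma Gs_eq (w a : ℝ) : Gs w a = fun y => E w y - E w (y - a) := by
  funext y
  unfold Gs E
  rfl

lemma E_shift (w a y : ℝ) : HasDerivAt (fun y => E w (y - a)) (p1 (cl ((y - a) / w)) / w) y := by
  have h1 : HasDerivAt (fun y : ℝ => y - a) 1 y := (hasDerivAt_id y).sub_const a
  have := (E_d w (y - a)).comp y h1
  refine this.congr_deriv ?_
  ring

lemma E_shift2 (w a y : ℝ) :
    HasDerivAt (fun y => p1 (cl ((y - a) / w)) / w) (p2 (cl ((y - a) / w)) / w ^ 2) y := by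
  have h1 : HasDerivAt (fun y : ℝ => y - a) 1 y := (hasDerivAt_id y).sub_const a
  have := (E_d2 w (y - a)).comp y h1
  refine this.congr_deriv ?_
  ring

lemma Gs_deriv (w a : ℝ) : deriv (Gs w a) = fun y => p1 (cl (y / w)) / w - p1 (cl ((y - a) / w)) / w := by
  rw [Gs_eq]
  exact funext fun y => ((E_d w y).sub (E_shift w a y)).deriv

lemma Gs_deriv2 (w a : ℝ) : deriv (deriv (Gs w a)) =
    fun y => p2 (cl (y / w)) / w ^ 2 - p2 (cl ((y - a) / w)) / w ^ 2 := by
  rw [Gs_deriv]
  exact funext fun y => ((E_d2 w y).sub (E_shift2 w a y)).deriv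

lemma Gs_cd (w a : ℝ) : ContDiff ℝ 2 (Gs w a) := by
  rw [Gs_eq]
  exact (E_cd w).sub ((E_cd w).comp (contDiff_id.sub contDiff_const))

lemma Gs_C2c {w a : ℝ} (hw : 0 < w) (ha : 0 ≤ a) (haw : a + w ≤ 1) : C2c (Gs w a) := by
  refine ⟨Gs_cd w a, fun x hx => ?_⟩
  unfold Gs
  rcases le_total 0 x with h | h
  · rw [abs_of_nonneg h] at hx
    rw [Ps_of_ge, Ps_of_ge, sub_self]
    · rw [le_div_iff₀ hw]; linarith
    · rw [le_div_iff₀ hw]; linarith
  · rw [Ps_of_le, Ps_of_le, sub_self]
    · exact div_nonpos_of_nonpos_of_nonneg (by linarith) hw.le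
    · exact div_nonpos_of_nonpos_of_nonneg h hw.le

lemma Gs_abs (w a x : ℝ) : |Gs w a x| ≤ 1 := by
  unfold Gs
  rw [abs_le]
  constructor <;> linarith [Ps_nonneg ((x - a) / w), Ps_nonneg (x / w), Ps_le ((x - a) / w),
    Ps_le (x / w)]

lemma Gs_w1 {w a : ℝ} (hw : 0 < w) (ha : 0 ≤ a) (haw : a + w ≤ 1) (x : ℝ) :
    |Gs w a x| ≤ 2 * w1 x := by
  by_cases hx : 1 ≤ |x|
  · rw [(Gs_C2c hw ha haw).supp x hx, abs_zero]
    have := w1_nonneg x
    positivity
  · push Not at hx
    refine (Gs_abs w a x).trans ?_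
    unfold w1
    rw [mul_one_div, le_div_iff₀ (by positivity)]
    have : x ^ 2 ≤ 1 := by
      rw [← sq_abs]
      have := abs_nonneg x
      nlinarith
    linarith

/-- the weight of the two edges -/
noncomputable def ww (w a x : ℝ) : ℝ := w1 (x / w) + w1 ((x - a) / w)

lemma ww_nonneg (w a x : ℝ) : 0 ≤ ww w a x := add_nonneg (w1_nonneg _) (w1_nonneg _)

lemma Gs_taylor {w : ℝ} (hw : 0 < w) (a x v : ℝ) :
    |Gs w a (x - v) - Gs w a x + v * deriv (Gs w a) x| ≤ 300 / w ^ 2 * ww w a x * v ^ 2 := by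
  have h1 := E_taylor hw x v
  have h2 := E_taylor hw (x - a) v
  have e1 : Gs w a (x - v) - Gs w a x + v * deriv (Gs w a) x =
      (E w (x - v) - E w x + v * deriv (E w) x) -
        (E w (x - a - v) - E w (x - a) + v * deriv (E w) (x - a)) := by
    rw [Gs_deriv, Gs_eq, E_deriv]
    simp only
    rw [show x - v - a = x - a - v by ring]
    ring
  rw [e1]
  refine (abs_sub _ _).trans ((add_le_add h1 h2).trans (le_of_eq ?_))
  unfold ww
  ring

end KSL

open KSL Pool.Agent.H203.ME.KPTL Pool.Agent.H203.ME.L1BL Pool.Agent.H203.ME.L1AL Pool.Agent.H203.ME in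
theorem t_KS : S_KS := by
  obtain ⟨C1, hC1, hker⟩ := t_KER
  obtain ⟨C2, hC2, hom⟩ := t_OM
  have hk : ∀ R x : ℝ, 1 ≤ R → ‖WR R (x : ℂ)‖ ≤ C1 * R / (1 + (R * x) ^ 4) :=
    fun R x hR => ker_bound hker R x hR
  have hc4 : 0 ≤ ∫ u, q4 1 u := integral_nonneg fun u => q4_nonneg _ _
  have hpi := Real.pi_pos
  have he := Real.exp_pos 1
  obtain ⟨K1, hK1⟩ : ∃ K1 : ℝ, K1 = 600 * Real.pi * C1 := ⟨_, rfl⟩
  obtain ⟨K2, hK2⟩ : ∃ K2 : ℝ, K2 = 120 * C1 * Real.exp 1 * (5 * (∫ u, q4 1 u) + 32) := ⟨_, rfl⟩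
  have hK1p : 0 < K1 := by rw [hK1]; positivity
  have hK2p : 0 < K2 := by rw [hK2]; positivity
  refine ⟨K1 + K2 + 2 * C2, by positivity, ?_⟩
  intro w R a hw hwR ha haw
  have hF := Gs_C2c hw ha haw
  refine ⟨hF, ?_⟩
  have hw1 : w ≤ 1 := by linarith
  have hR0 : 0 < R := by
    by_contra hc
    push Not at hc
    nlinarith
  have hR : 1 ≤ R := by nlinarith
  intro x
  have hww := ww_nonneg w a x
  have hM0 : 0 ≤ 300 / w ^ 2 * ww w a x := by positivity
  have hw1x := w1_nonneg x
  refine ⟨?_, fun y hy => ?_⟩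
  · rw [key hC1 hk hF hR x]
    have k1 : ‖∫ v : ℝ, ((Gs w a (x - v) - Gs w a x + v * deriv (Gs w a) x : ℝ) : ℂ) *
        WR R (v : ℂ)‖ ≤ 300 / w ^ 2 * ww w a x * (2 * Real.pi * C1 / R ^ 2) := by
      have k2 : 300 / w ^ 2 * ww w a x * (2 * Real.pi * C1 / R ^ 2) =
          ∫ v : ℝ, 300 / w ^ 2 * ww w a x * (2 * C1 / R * (1 + (R * v) ^ 2)⁻¹) := by
        rw [integral_const_mul, integral_const_mul, int_base_eq R hR]
        field_simp
      rw [k2]
      refine norm_integral_le_of_norm_le (((int_base R hR).const_mul _).const_mul _)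
        (Eventually.of_forall fun v => ?_)
      rw [norm_mul, norm_real, Real.norm_eq_abs]
      calc |Gs w a (x - v) - Gs w a x + v * deriv (Gs w a) x| * ‖WR R (v : ℂ)‖
          ≤ 300 / w ^ 2 * ww w a x * v ^ 2 * ‖WR R (v : ℂ)‖ :=
            mul_le_mul_of_nonneg_right (Gs_taylor hw a x v) (norm_nonneg _)
        _ = 300 / w ^ 2 * ww w a x * (v ^ 2 * ‖WR R (v : ℂ)‖) := by ring
        _ ≤ _ := mul_le_mul_of_nonneg_left (WR_le2 hC1 hk R v hR) hM0
    have k3 : ‖((om R - 1 : ℝ) : ℂ) * (Gs w a x : ℂ)‖ ≤ C2 / R ^ 2 * (2 * w1 x) := by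
      rw [norm_mul, norm_real, norm_real, Real.norm_eq_abs, Real.norm_eq_abs]
      exact mul_le_mul (hom R hR) (Gs_w1 hw ha haw x) (abs_nonneg _) (by positivity)
    refine (norm_add_le _ _).trans ((add_le_add k1 k3).trans ?_)
    have e1 : 300 / w ^ 2 * ww w a x * (2 * Real.pi * C1 / R ^ 2) = K1 / (w * R) ^ 2 * ww w a x := by
      rw [hK1]
      have : w ≠ 0 := hw.ne'
      field_simp
      ring
    have e2 : C2 / R ^ 2 * (2 * w1 x) = 2 * C2 / R ^ 2 * w1 x := by ring
    rw [e1, e2]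
    apply add_le_add
    · apply mul_le_mul_of_nonneg_right _ hww
      apply div_le_div_of_nonneg_right _ (by positivity)
      linarith
    · apply mul_le_mul_of_nonneg_right _ hw1x
      apply div_le_div_of_nonneg_right _ (by positivity)
      linarith
  · have e2 := sec hC1 hker hF hR hy x
    have e5 : 0 ≤ 2 * y ^ 2 * (C1 * R * Real.exp (R * |y|) * Real.exp 1) := by positivity
    have hq := q4_cont R
    have e3 : ∫ s, |deriv (deriv (Gs w a)) s| * q4 R (x - s) ≤
        60 / w ^ 2 * (II R w x + II R w (x - a)) := by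
      have hin : ∀ b : ℝ, Integrable (fun s => (Icc (-w) w).indicator (fun s => q4 R (b - s)) s) := by
        intro b
        rw [integrable_indicator_iff measurableSet_Icc]
        have hc : Continuous fun s => q4 R (b - s) := by fun_prop
        exact hc.continuousOn.integrableOn_Icc
      have hib : ∀ b : ℝ, ∫ s, (Icc (-w) w).indicator (fun s => q4 R (b - s)) s = II R w b := by
        intro b
        rw [integral_indicator measurableSet_Icc]
        rfl
      have hr : 60 / w ^ 2 * (II R w x + II R w (x - a)) =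
          ∫ s, 60 / w ^ 2 * ((Icc (-w) w).indicator (fun s => q4 R (x - s)) s +
            (Icc (-w) w).indicator (fun s => q4 R (x - a - s)) (s - a)) := by
        rw [integral_const_mul, integral_add (hin x) ((hin (x - a)).comp_sub_right a), hib x,
          integral_sub_right_eq_self
            (fun s => (Icc (-w) w).indicator (fun s => q4 R (x - a - s)) s) a, hib (x - a)]
      rw [hr]
      refine integral_mono_of_nonneg (Eventually.of_forall fun s =>
        mul_nonneg (abs_nonneg _) (q4_nonneg _ _))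
        (((hin x).add ((hin (x - a)).comp_sub_right a)).const_mul _)
        (Eventually.of_forall fun s => ?_)
      have one : ∀ b s : ℝ, |p2 (cl (s / w)) / w ^ 2| * q4 R (b - s) ≤
          60 / w ^ 2 * (Icc (-w) w).indicator (fun s => q4 R (b - s)) s := by
        intro b s
        by_cases hs : s ∈ Icc (-w) w
        · rw [indicator_of_mem hs]
          apply mul_le_mul_of_nonneg_right _ (q4_nonneg _ _)
          rw [abs_div, abs_of_pos (by positivity : 0 < w ^ 2)]
          exact div_le_div_of_nonneg_right (p2_le _) (by positivity)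
        · rw [indicator_of_notMem hs]
          have : p2 (cl (s / w)) = 0 := by
            apply p2_out
            rcases le_total s 0 with h | h
            · left
              exact div_nonpos_of_nonpos_of_nonneg h hw.le
            · right
              rw [le_div_iff₀ hw, one_mul]
              by_contra hc
              push Not at hc
              exact hs ⟨by linarith, hc.le⟩
          rw [this, zero_div, abs_zero, zero_mul, mul_zero]
      rw [Gs_deriv2]
      simp only
      have o1 := one x s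
      have o2 := one (x - a) (s - a)
      rw [show x - a - (s - a) = x - s by ring] at o2
      have o3 : |p2 (cl (s / w)) / w ^ 2 - p2 (cl ((s - a) / w)) / w ^ 2| * q4 R (x - s) ≤
          (|p2 (cl (s / w)) / w ^ 2| + |p2 (cl ((s - a) / w)) / w ^ 2|) * q4 R (x - s) :=
        mul_le_mul_of_nonneg_right (abs_sub _ _) (q4_nonneg _ _)
      rw [add_mul] at o3
      rw [mul_add]
      exact o3.trans (add_le_add o1 o2)
    have e4 := II_le hR hw (by rw [mul_comm]; exact hwR) x
    have e4' := II_le hR hw (by rw [mul_comm]; exact hwR) (x - a)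
    have e6 : R * (II R w x + II R w (x - a)) ≤ (5 * (∫ u, q4 1 u) + 32) * ww w a x := by
      unfold ww w1
      rw [mul_add, mul_add, mul_one_div, mul_one_div]
      exact add_le_add e4 e4'
    calc _ ≤ _ := e2
      _ ≤ 2 * y ^ 2 * (C1 * R * Real.exp (R * |y|) * Real.exp 1) *
          (60 / w ^ 2 * (II R w x + II R w (x - a))) := mul_le_mul_of_nonneg_left e3 e5
      _ = 2 * y ^ 2 * (C1 * Real.exp (R * |y|) * Real.exp 1) * (60 / w ^ 2) *
          (R * (II R w x + II R w (x - a))) := by ring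
      _ ≤ 2 * y ^ 2 * (C1 * Real.exp (R * |y|) * Real.exp 1) * (60 / w ^ 2) *
          ((5 * (∫ u, q4 1 u) + 32) * ww w a x) :=
          mul_le_mul_of_nonneg_left e6 (by positivity)
      _ = K2 * ((y / w) ^ 2 * Real.exp (R * |y|) * ww w a x) := by
          rw [hK2, div_pow]
          ring
      _ ≤ (K1 + K2 + 2 * C2) * ((y / w) ^ 2 * Real.exp (R * |y|) * ww w a x) := by
          apply mul_le_mul_of_nonneg_right _ (by positivity)
          linarith
      _ = _ := by
          unfold ww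
          ring

end Pool.Agent.H203.HX
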