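import Pool.Agent.H203.HX.Defs

/-! (LC) from smoothed to sharp counts. -/

set_option autoImplicit false

open Complex Filter Topology Set MeasureTheory

namespace Pool.Agent.H203.HX

open Pool.Agent.H203.GE (Lf ZG XG)

namespace LCL

/-- the density of the edge -/
noncomputable def fi (v : ℝ) : ℝ := 30 * v ^ 2 * (1 - v) ^ 2

/-- its primitive -/
noncomputable def Pr (v : ℝ) : ℝ := 10 * v ^ 3 - 15 * v ^ 4 + 6 * v ^ 5

/-- the clamp -/
noncomputable def cl (y : ℝ) : ℝ := max 0 (min y 1)

theorem Ps_eq (y : ℝ) : Ps y = Pr (cl y) := rfl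

theorem cont_fi : Continuous fi := by unfold fi; fun_prop

theorem fi_nonneg (v : ℝ) : 0 ≤ fi v := by unfold fi; positivity

theorem hasDerivAt_Pr (v : ℝ) : HasDerivAt Pr (fi v) v := by
  unfold Pr fi
  have h := (((hasDerivAt_pow 3 v).const_mul 10).sub ((hasDerivAt_pow 4 v).const_mul 15)).add
    ((hasDerivAt_pow 5 v).const_mul 6)
  refine HasDerivAt.congr_deriv h ?_
  push_cast
  ring

theorem int_fi (x y : ℝ) : ∫ v in x..y, fi v = Pr y - Pr x :=
  intervalIntegral.integral_eq_sub_of_hasDerivAt (fun v _ => hasDerivAt_Pr v)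
    (cont_fi.intervalIntegrable _ _)

theorem cl_nonneg (y : ℝ) : 0 ≤ cl y := le_max_left _ _

theorem cl_le_one (y : ℝ) : cl y ≤ 1 := by
  unfold cl
  exact max_le (by norm_num) (min_le_right _ _)

theorem cl_mono {x y : ℝ} (h : x ≤ y) : cl x ≤ cl y := by
  unfold cl
  exact max_le_max le_rfl (min_le_min h le_rfl)

theorem cl_lt_iff {x v : ℝ} (h0 : 0 < v) (h1 : v < 1) : cl x < v ↔ x < v := by
  unfold cl
  rw [max_lt_iff, min_lt_iff]
  constructor
  · rintro ⟨_, h | h⟩
    · exact h
    · linarith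
  · intro h
    exact ⟨h0, Or.inl h⟩

theorem lt_cl_iff {x v : ℝ} (h0 : 0 < v) (h1 : v < 1) : v < cl x ↔ v < x := by
  unfold cl
  rw [lt_max_iff, lt_min_iff]
  constructor
  · rintro (h | h)
    · linarith
    · exact h.1
  · intro h
    exact Or.inr ⟨h, h1⟩

theorem cont_Ps : Continuous Ps := by
  unfold Ps
  fun_prop

theorem Ps_zero {y : ℝ} (h : y ≤ 0) : Ps y = 0 := by
  unfold Ps
  rw [max_eq_left ((min_le_left _ _).trans h)]
  norm_num

theorem Ps_one {y : ℝ} (h : 1 ≤ y) : Ps y = 1 := by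
  unfold Ps
  rw [min_eq_right h, max_eq_right (by norm_num)]
  norm_num

theorem Gs_zero_left {w a y : ℝ} (hw : 0 < w) (ha : 0 ≤ a) (h : y ≤ 0) : Gs w a y = 0 := by
  unfold Gs
  rw [Ps_zero (div_nonpos_of_nonpos_of_nonneg h hw.le),
    Ps_zero (div_nonpos_of_nonpos_of_nonneg (by linarith) hw.le), sub_zero]

theorem Gs_zero_right {w a y : ℝ} (hw : 0 < w) (ha : 0 ≤ a) (h : a + w ≤ y) : Gs w a y = 0 := by
  unfold Gs
  rw [Ps_one ((one_le_div hw).2 (by linarith)), Ps_one ((one_le_div hw).2 (by linarith)), sub_self]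

theorem int_Gs {w a : ℝ} (hw : 0 < w) (ha : 0 ≤ a) : ∫ x : ℝ, Gs w a x = a := by
  have hsupp : Function.support (Gs w a) ⊆ Ioc 0 (a + w) := by
    intro x hx
    rw [Function.mem_support] at hx
    constructor
    · by_contra h
      exact hx (Gs_zero_left hw ha (not_lt.1 h))
    · by_contra h
      exact hx (Gs_zero_right hw ha (not_le.1 h).le)
  rw [← intervalIntegral.integral_eq_integral_of_support_subset hsupp]
  have hc : Continuous fun x : ℝ => Ps (x / w) := cont_Ps.comp (continuous_id.div_const w)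
  have hc2 : Continuous fun x : ℝ => Ps ((x - a) / w) :=
    cont_Ps.comp ((continuous_id.sub continuous_const).div_const w)
  have h1 : ∫ x in (0:ℝ)..(a + w), Gs w a x =
      (∫ x in (0:ℝ)..(a + w), Ps (x / w)) - ∫ x in (0:ℝ)..(a + w), Ps ((x - a) / w) :=
    intervalIntegral.integral_sub (hc.intervalIntegrable _ _) (hc2.intervalIntegrable _ _)
  have h2 : ∫ x in (0:ℝ)..(a + w), Ps ((x - a) / w) = ∫ x in (-a)..w, Ps (x / w) := by
    have := intervalIntegral.integral_comp_sub_right (a := 0) (b := a + w) (fun x => Ps (x / w)) a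
    rw [this]
    congr 1 <;> ring
  have h3 : ∫ x in (-a)..w, Ps (x / w) =
      (∫ x in (-a)..0, Ps (x / w)) + ∫ x in (0:ℝ)..w, Ps (x / w) :=
    (intervalIntegral.integral_add_adjacent_intervals (hc.intervalIntegrable _ _)
      (hc.intervalIntegrable _ _)).symm
  have h4 : ∫ x in (0:ℝ)..(a + w), Ps (x / w) =
      (∫ x in (0:ℝ)..w, Ps (x / w)) + ∫ x in w..(a + w), Ps (x / w) :=
    (intervalIntegral.integral_add_adjacent_intervals (hc.intervalIntegrable _ _)
      (hc.intervalIntegrable _ _)).symm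
  have h5 : ∫ x in (-a)..0, Ps (x / w) = 0 := by
    have : ∫ x in (-a)..0, Ps (x / w) = ∫ x in (-a)..0, (0:ℝ) := by
      apply intervalIntegral.integral_congr
      intro x hx
      rw [uIcc_of_le (by linarith)] at hx
      exact Ps_zero (div_nonpos_of_nonpos_of_nonneg hx.2 hw.le)
    rw [this]
    simp
  have h6 : ∫ x in w..(a + w), Ps (x / w) = a := by
    have : ∫ x in w..(a + w), Ps (x / w) = ∫ x in w..(a + w), (1:ℝ) := by
      apply intervalIntegral.integral_congr
      intro x hx
      rw [uIcc_of_le (by linarith)] at hx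
      exact Ps_one ((one_le_div hw).2 hx.1)
    rw [this]
    simp
  rw [h1, h2, h3, h4, h5, h6]
  ring

/-- the indicator weight of one zero with ordinate `y + t` -/
noncomputable def gg (w a y v : ℝ) : ℝ := if w * v < y ∧ y ≤ w * v + a then fi v else 0

theorem gg_eq_indicator (w a y : ℝ) :
    gg w a y = indicator {v : ℝ | w * v < y ∧ y ≤ w * v + a} fi := by
  classical
  funext v
  unfold gg
  rw [indicator_apply]
  rfl

theorem meas_set (w a y : ℝ) : MeasurableSet {v : ℝ | w * v < y ∧ y ≤ w * v + a} := by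
  have h1 : MeasurableSet {v : ℝ | w * v < y} :=
    measurableSet_lt (measurable_const.mul measurable_id) measurable_const
  have h2 : MeasurableSet {v : ℝ | y ≤ w * v + a} :=
    measurableSet_le measurable_const ((measurable_const.mul measurable_id).add measurable_const)
  exact h1.inter h2

theorem ii_gg (w a y : ℝ) : IntervalIntegrable (gg w a y) volume 0 1 := by
  rw [gg_eq_indicator, intervalIntegrable_iff_integrableOn_Ioc_of_le (by norm_num)]
  exact IntegrableOn.indicator ((intervalIntegrable_iff_integrableOn_Ioc_of_le (by norm_num)).1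
    (cont_fi.intervalIntegrable 0 1)) (meas_set w a y)

theorem int_gg {w a : ℝ} (hw : 0 < w) (ha : 0 ≤ a) (y : ℝ) :
    ∫ v in (0:ℝ)..1, gg w a y v = Gs w a y := by
  have hab : cl ((y - a) / w) ≤ cl (y / w) := cl_mono (div_le_div_of_nonneg_right (by linarith) hw.le)
  have h1 : ∫ v in (0:ℝ)..1, gg w a y v =
      ∫ v in (0:ℝ)..1, (Ioc (cl ((y - a) / w)) (cl (y / w))).indicator fi v := by
    apply intervalIntegral.integral_congr_ae
    have hfin : ({0, 1, cl ((y - a) / w), cl (y / w)} : Set ℝ).Finite := by simp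
    have hae : ∀ᵐ v : ℝ ∂volume, v ∉ ({0, 1, cl ((y - a) / w), cl (y / w)} : Set ℝ) :=
      measure_eq_zero_iff_ae_notMem.1 (hfin.measure_zero _)
    filter_upwards [hae] with v hv hvI
    rw [uIoc_of_le (by norm_num)] at hvI
    simp only [mem_insert_iff, mem_singleton_iff, not_or] at hv
    obtain ⟨hv0, hv1, hva, hvb⟩ := hv
    have h0 : 0 < v := hvI.1
    have h1 : v < 1 := lt_of_le_of_ne hvI.2 hv1
    unfold gg
    rw [indicator_apply]
    have hiff : (w * v < y ∧ y ≤ w * v + a) ↔ v ∈ Ioc (cl ((y - a) / w)) (cl (y / w)) := by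
      rw [mem_Ioc]
      constructor
      · rintro ⟨h2, h3⟩
        constructor
        · refine lt_of_le_of_ne ?_ (Ne.symm hva)
          by_contra h4
          push Not at h4
          rw [lt_cl_iff h0 h1, lt_div_iff₀ hw] at h4
          linarith
        · refine le_of_lt ?_
          rw [lt_cl_iff h0 h1, lt_div_iff₀ hw]
          linarith
      · rintro ⟨h2, h3⟩
        constructor
        · have h4 : v < cl (y / w) := lt_of_le_of_ne h3 hvb
          rw [lt_cl_iff h0 h1, lt_div_iff₀ hw] at h4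
          linarith
        · rw [cl_lt_iff h0 h1, div_lt_iff₀ hw] at h2
          linarith
    by_cases h : w * v < y ∧ y ≤ w * v + a
    · rw [if_pos h, if_pos (hiff.1 h)]
    · rw [if_neg h, if_neg (fun h' => h (hiff.2 h'))]
  rw [h1, intervalIntegral.integral_of_le (by norm_num), setIntegral_indicator measurableSet_Ioc]
  have h2 : Ioc (0:ℝ) 1 ∩ Ioc (cl ((y - a) / w)) (cl (y / w)) = Ioc (cl ((y - a) / w)) (cl (y / w)) := by
    apply inter_eq_right.2
    exact Ioc_subset_Ioc (cl_nonneg _) (cl_le_one _)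
  rw [h2, ← intervalIntegral.integral_of_le hab, int_fi]
  unfold Gs
  rw [Ps_eq, Ps_eq]

theorem main_sum {ι : Type*} (Z : Finset ι) (m γ : ι → ℝ) {w a : ℝ} (hw : 0 < w) (ha : 0 ≤ a) (t : ℝ) :
    ∑ s ∈ Z, m s * Gs w a (γ s - t) = ∫ v in (0:ℝ)..1, fi v *
      ∑ s ∈ Z, (if t + w * v < γ s ∧ γ s ≤ t + w * v + a then m s else 0) := by
  have h1 : ∀ v : ℝ, fi v * ∑ s ∈ Z, (if t + w * v < γ s ∧ γ s ≤ t + w * v + a then m s else 0) =
      ∑ s ∈ Z, m s * gg w a (γ s - t) v := by
    intro v
    rw [Finset.mul_sum]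
    refine Finset.sum_congr rfl fun s _ => ?_
    unfold gg
    by_cases h : t + w * v < γ s ∧ γ s ≤ t + w * v + a
    · have h' : w * v < γ s - t ∧ γ s - t ≤ w * v + a := ⟨by linarith [h.1], by linarith [h.2]⟩
      rw [if_pos h, if_pos h']; ring
    · have h' : ¬ (w * v < γ s - t ∧ γ s - t ≤ w * v + a) := fun h' =>
        h ⟨by linarith [h'.1], by linarith [h'.2]⟩
      rw [if_neg h, if_neg h']; ring
  simp_rw [h1]
  rw [intervalIntegral.integral_finsetSum (fun s _ => (ii_gg w a _).const_mul _)]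
  refine Finset.sum_congr rfl fun s _ => ?_
  rw [intervalIntegral.integral_const_mul, int_gg hw ha]

theorem ii_sum {ι : Type*} (Z : Finset ι) (m γ : ι → ℝ) (w a : ℝ) (t : ℝ) :
    IntervalIntegrable (fun v : ℝ => fi v *
      ∑ s ∈ Z, (if t + w * v < γ s ∧ γ s ≤ t + w * v + a then m s else 0)) volume 0 1 := by
  have h1 : (fun v : ℝ => fi v *
      ∑ s ∈ Z, (if t + w * v < γ s ∧ γ s ≤ t + w * v + a then m s else 0)) =
      fun v => ∑ s ∈ Z, m s * gg w a (γ s - t) v := by
    funext v
    rw [Finset.mul_sum]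
    refine Finset.sum_congr rfl fun s _ => ?_
    unfold gg
    by_cases h : t + w * v < γ s ∧ γ s ≤ t + w * v + a
    · have h' : w * v < γ s - t ∧ γ s - t ≤ w * v + a := ⟨by linarith [h.1], by linarith [h.2]⟩
      rw [if_pos h, if_pos h']; ring
    · have h' : ¬ (w * v < γ s - t ∧ γ s - t ≤ w * v + a) := fun h' =>
        h ⟨by linarith [h'.1], by linarith [h'.2]⟩
      rw [if_neg h, if_neg h']; ring
  rw [h1]
  have h2 := IntervalIntegrable.sum (μ := volume) (a := 0) (b := 1) Z
    (f := fun s (v : ℝ) => m s * gg w a (γ s - t) v) (fun s _ => (ii_gg w a (γ s - t)).const_mul (m s))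
  refine h2.congr ?_
  intro v _
  simp only [Finset.sum_apply]

theorem int_fi_const (C : ℝ) : ∫ v in (0:ℝ)..1, fi v * C = C := by
  rw [intervalIntegral.integral_mul_const, int_fi]
  unfold Pr
  norm_num

end LCL

open LCL in
theorem t_LC : S_LC := by
  classical
  intro G u hG T t w a c ht hw ha haw
  have hfin : (H370.zset G t (t + (a + w))).Finite := H370.zset_finite hG.good _ _ (by linarith)
  obtain ⟨Z, hZ⟩ : ∃ Z : Finset ℂ, Z = hfin.toFinset := ⟨_, rfl⟩
  have hmem : ∀ s : ℂ, s ∈ Z ↔ s ∈ H370.zset G t (t + (a + w)) := fun s => by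
    rw [hZ, Set.Finite.mem_toFinset]
  -- the smoothed count
  have hsum : ∑ᶠ s ∈ ZG G, (H370.mult G s : ℝ) * Gs w a (s.im - t) =
      ∑ s ∈ Z, (H370.mult G s : ℝ) * Gs w a (s.im - t) := by
    apply finsum_mem_eq_sum_of_inter_support_eq
    ext s
    simp only [mem_inter_iff, Function.mem_support, Finset.mem_coe, hmem]
    constructor
    · rintro ⟨h1, h2⟩
      refine ⟨⟨h1.2.1, h1.2.2, ?_, ?_, h1.1⟩, h2⟩
      · by_contra h3
        apply h2
        rw [Gs_zero_left hw ha (by linarith), mul_zero]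
      · by_contra h3
        apply h2
        rw [Gs_zero_right hw ha (by linarith), mul_zero]
    · rintro ⟨h1, h2⟩
      exact ⟨⟨h1.2.2.2.2, h1.1, h1.2.1⟩, h2⟩
  have hX : XG G (Gs w a) T t = (∫ v in (0:ℝ)..1, fi v * ∑ s ∈ Z,
      (if t + w * v < s.im ∧ s.im ≤ t + w * v + a then (H370.mult G s : ℝ) else 0)) -
        a * Real.log T / (2 * Real.pi) := by
    unfold XG
    rw [hsum, main_sum Z (fun s => (H370.mult G s : ℝ)) (fun s => s.im) hw ha t, int_Gs hw ha]
    ring
  -- the sharp counts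
  have hN : ∀ v : ℝ, 0 ≤ v → v ≤ 1 → ∑ s ∈ Z,
      (if t + w * v < s.im ∧ s.im ≤ t + w * v + a then (H370.mult G s : ℝ) else 0) =
        (H370.NN G (t + w * v) (t + w * v + a) : ℝ) := by
    intro v hv0 hv1
    have hwv : w * v ≤ w := by nlinarith
    have hwv0 : 0 ≤ w * v := by positivity
    have hset : H370.zset G (t + w * v) (t + w * v + a) =
        ((Z.filter fun s => t + w * v < s.im ∧ s.im ≤ t + w * v + a : Finset ℂ) : Set ℂ) := by
      ext s
      simp only [Finset.coe_filter, mem_ofPred_eq, hmem]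
      constructor
      · rintro ⟨h1, h2, h3, h4, h5⟩
        exact ⟨⟨h1, h2, by linarith, by linarith, h5⟩, h3, h4⟩
      · rintro ⟨⟨h1, h2, _, _, h5⟩, h3, h4⟩
        exact ⟨h1, h2, h3, h4, h5⟩
    unfold H370.NN
    rw [hset, finsum_mem_coe_finset, Nat.cast_sum, Finset.sum_filter]
  constructor
  · intro h
    by_contra hcon
    push Not at hcon
    have hle : ∫ v in (0:ℝ)..1, fi v * ∑ s ∈ Z,
        (if t + w * v < s.im ∧ s.im ≤ t + w * v + a then (H370.mult G s : ℝ) else 0) ≤
        ∫ v in (0:ℝ)..1, fi v * (c + a * Real.log T / (2 * Real.pi)) := by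
      apply intervalIntegral.integral_mono_on (by norm_num)
        (ii_sum Z (fun s => (H370.mult G s : ℝ)) (fun s => s.im) w a t)
        ((cont_fi.mul continuous_const).intervalIntegrable _ _)
      intro v hv
      apply mul_le_mul_of_nonneg_left _ (fi_nonneg v)
      rw [hN v hv.1 hv.2]
      have h1 := hcon (w * v) (mul_nonneg hw.le hv.1) (by nlinarith [hv.2])
      linarith
    rw [int_fi_const] at hle
    rw [hX] at h
    linarith
  · intro h
    by_contra hcon
    push Not at hcon
    have hle : ∫ v in (0:ℝ)..1, fi v * (c + a * Real.log T / (2 * Real.pi)) ≤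
        ∫ v in (0:ℝ)..1, fi v * ∑ s ∈ Z,
        (if t + w * v < s.im ∧ s.im ≤ t + w * v + a then (H370.mult G s : ℝ) else 0) := by
      apply intervalIntegral.integral_mono_on (by norm_num)
        ((cont_fi.mul continuous_const).intervalIntegrable _ _)
        (ii_sum Z (fun s => (H370.mult G s : ℝ)) (fun s => s.im) w a t)
      intro v hv
      apply mul_le_mul_of_nonneg_left _ (fi_nonneg v)
      rw [hN v hv.1 hv.2]
      have h1 := hcon (w * v) (mul_nonneg hw.le hv.1) (by nlinarith [hv.2])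
      linarith
    rw [int_fi_const] at hle
    rw [hX] at h
    linarith

end Pool.Agent.H203.HX
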