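import Pool.Agent.H203.HX.Defs
import Pool.Agent.H203.ME.MOM

set_option autoImplicit false

open Complex Filter Topology Set MeasureTheory

namespace Pool.Agent.H203.HX

open Pool.Agent.H203.ME (ee)

/-- (MP) high moments of prime polynomials. -/
theorem t_MP : S_MP := by
  intro m N a T hm hN hT ha hNT
  have hT0 : 0 < T := by linarith
  have h1 := Pool.Agent.H203.ME.t_MOM m m N a 1 T hN zero_le_one le_rfl hT ha
  set S := ∑ p ∈ (Finset.Icc 1 N).filter Nat.Prime, ‖a p‖ ^ 2 with hS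
  have hSn : 0 ≤ S := Finset.sum_nonneg fun p _ => sq_nonneg _
  obtain ⟨A, hA⟩ : ∃ A : ℝ → ℂ, A = fun t => ∑ p ∈ (Finset.Icc 1 N).filter Nat.Prime, a p * ee p t :=
    ⟨_, rfl⟩
  have hA' : ∀ t, ∑ p ∈ (Finset.Icc 1 N).filter Nat.Prime, a p * ee p t = A t := fun t => by rw [hA]
  simp only [hA', if_true] at h1 ⊢
  obtain ⟨J, hJ⟩ : ∃ J, J = ∫ t in T..(2 * T), ‖A t‖ ^ (2 * m) := ⟨_, rfl⟩
  have e : (∫ t in T..(2 * T), A t ^ m * ((starRingEnd ℂ) (A t)) ^ m) = (J : ℂ) := by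
    rw [hJ, ← intervalIntegral.integral_ofReal]
    congr 1
    funext t
    rw [← mul_pow, Complex.mul_conj, Complex.normSq_eq_norm_sq, pow_mul]
    push_cast
    ring
  rw [e] at h1
  rw [← hJ]
  have e2 : (1 / T : ℂ) * (J : ℂ) - (m.factorial : ℂ) * (S : ℂ) ^ m =
      ((1 / T * J - (m.factorial : ℝ) * S ^ m : ℝ) : ℂ) := by
    push_cast; ring
  rw [e2, Complex.norm_real, Real.norm_eq_abs] at h1
  have h2 := le_of_abs_le h1
  have h9 : 2 * (m + m) = 4 * m := by ring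
  rw [h9] at h2
  have h10 : 2 * (N : ℝ) ^ (4 * m) / T ≤ 2 := by
    rw [div_le_iff₀ hT0]
    linarith
  have hf : (1 : ℝ) ≤ (m.factorial : ℝ) := by exact_mod_cast Nat.succ_le_of_lt (Nat.factorial_pos m)
  have hp : (1 : ℝ) ≤ (1 + S) ^ m := one_le_pow₀ (by linarith)
  have h5 : S ^ m ≤ (1 + S) ^ m := pow_le_pow_left₀ hSn (by linarith) m
  have h7 : (m.factorial : ℝ) * S ^ m ≤ (m.factorial : ℝ) * (1 + S) ^ m :=
    mul_le_mul_of_nonneg_left h5 (Nat.cast_nonneg _)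
  have hM : (1 : ℝ) ≤ (m.factorial : ℝ) * (1 + S) ^ m := by nlinarith
  have hm' : (1 : ℝ) ≤ (m : ℝ) ^ 2 := by
    have : (1 : ℝ) ≤ (m : ℝ) := by exact_mod_cast hm
    nlinarith
  have h8 : (m.factorial : ℝ) * (1 + S) ^ m ≤ (m.factorial : ℝ) * (1 + S) ^ m * (m : ℝ) ^ 2 :=
    le_mul_of_one_le_right (by linarith) hm'
  have h11 : 1 / T * J ≤ 4 * (m.factorial : ℝ) * m ^ 2 * (1 + S) ^ m := by
    nlinarith [h2, h10, h7, hM, h8]
  have h4 : J = T * (1 / T * J) := by field_simp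
  calc J = T * (1 / T * J) := h4
    _ ≤ T * (4 * (m.factorial : ℝ) * m ^ 2 * (1 + S) ^ m) := mul_le_mul_of_nonneg_left h11 hT0.le
    _ = _ := by ring

end Pool.Agent.H203.HX
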