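import Pool.Agent.H203.HX.Defs
import Pool.Agent.H203.GE.APX
import Pool.Agent.H203.GE.DEG

set_option autoImplicit false

/-! Leaf NB of project HX (helper203): pointwise bound for the weighted count of the zeros. -/

open Complex Filter Topology Set MeasureTheory

namespace Pool.Agent.H203.HX

open Pool.Agent.H203.ME (ee gR WR cR om FF KF C2c w1)
open Pool.Agent.H203.GE (Lf ZG XG BG NWG)

namespace NBL

lemma w1_nonneg (u : ℝ) : 0 ≤ w1 u := by
  unfold w1
  positivity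

lemma Mw_nonneg (w y : ℝ) : 0 ≤ Mw w y :=
  mul_nonneg (w1_nonneg _) (Pool.Agent.H203.ME.LLNL.bu_nonneg _ _ _ _)

lemma NW_nonneg (G : ℂ → ℂ) (T h t : ℝ) : 0 ≤ NWG G T h t :=
  Finset.sum_nonneg fun _ _ => mul_nonneg (Nat.cast_nonneg _) (w1_nonneg _)

lemma PR_nonneg (G : ℂ → ℂ) (T w R t : ℝ) : 0 ≤ PR G T w R t :=
  Finset.sum_nonneg fun _ _ => mul_nonneg (Nat.cast_nonneg _)
    (mul_nonneg (w1_nonneg _) (mul_nonneg (sq_nonneg _) (Real.exp_pos _).le))

/-- the weight is at most the majorant plus a smooth tail -/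
lemma w1_le {w : ℝ} (hw : 0 < w) (y : ℝ) : w1 (y / w) ≤ Mw w y + 5 * w ^ 2 * w1 (y / 1) := by
  by_cases hy : |y| ≤ 1 / 2
  · have h1 := abs_le.1 hy
    have h2 : Mw w y = w1 (y / w) := by
      unfold Mw
      rw [Pool.Agent.H203.ME.LLNL.bu_one (by norm_num) (by linarith) (by linarith), mul_one]
    rw [h2]
    have := w1_nonneg (y / 1)
    have : 0 ≤ 5 * w ^ 2 * w1 (y / 1) := by positivity
    linarith
  · push Not at hy
    have h0 := Mw_nonneg w y
    have h1 : 1 / 4 ≤ y ^ 2 := by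
      rw [← sq_abs]
      nlinarith
    have h2 : w1 (y / w) ≤ 5 * w ^ 2 * w1 (y / 1) := by
      unfold w1
      rw [div_one, mul_one_div, div_le_div_iff₀ (by positivity) (by positivity), one_mul]
      have e1 : 5 * w ^ 2 * (1 + (y / w) ^ 2) = 5 * w ^ 2 + 5 * y ^ 2 := by
        have : w ≠ 0 := hw.ne'
        field_simp
      rw [e1]
      nlinarith [sq_nonneg w]
    linarith

end NBL

open NBL in
theorem t_NB (hK : S_KM) (hP : Pool.Agent.H203.GE.S_PTH) (hC : Pool.Agent.H203.GE.S_NCG) : S_NB := by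
  intro G u hG
  obtain ⟨Ck, hCk, hkm⟩ := hK
  obtain ⟨Cp, Tp, hCp, hTp, hpt⟩ := hP G u hG
  obtain ⟨Cn, Tn, hCn, hTn, hnc⟩ := hC G u hG
  have he : 0 < Real.exp 1 := Real.exp_pos 1
  obtain ⟨C0, hC0⟩ : ∃ C0 : ℝ, C0 = 1 + 2 * Ck * (1 + Real.exp 1) + 4 * Cp * Ck + 2 + 2 * Ck + 10 * Cn :=
    ⟨_, rfl⟩
  have q1 : 0 < Ck * (1 + Real.exp 1) := by positivity
  have q2 : 0 < Cp * Ck := by positivity
  have hC1 : 1 ≤ C0 := by rw [hC0]; linarith
  refine ⟨C0, max Tp Tn, hC1, le_max_of_le_left hTp, ?_⟩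
  intro T hT w R hw hwT hwR hRL t ht
  obtain ⟨hL20, -, hpt⟩ := hpt T ((le_max_left _ _).trans hT)
  have hnc := hnc T ((le_max_right _ _).trans hT) 1 one_pos le_rfl t
  have hT10 : 10 ≤ T := hTp.trans ((le_max_left _ _).trans hT)
  set L := Real.log T with hLd
  have hL0 : 0 < L := by linarith
  have hw1 : w ≤ 1 := by
    by_contra hc
    push Not at hc
    nlinarith [mul_pos hw hw]
  have hwR1 : 1 ≤ w * R := hC1.trans hwR
  have hR0 : 0 < R := by
    by_contra hc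
    push Not at hc
    nlinarith
  have hR1 : 1 ≤ R := by nlinarith
  obtain ⟨hF, hint, hkp⟩ := hkm w R hw hw1 hwR1
  have hI0 : 0 ≤ ∫ x : ℝ, |Mw w x| := integral_nonneg fun _ => abs_nonneg _
  have h1 := hpt _ hF R hR1 hRL t ht
  have hsum : (∑ s ∈ H370.Zf G T (2 * T), (H370.mult G s : ℝ) *
        (‖KF (Mw w) R ((s.im - t : ℝ) : ℂ) - (Mw w (s.im - t) : ℂ)‖ +
          ‖KF (Mw w) R (((s.im - t : ℝ) : ℂ) + ((s.re - 1 / 2 : ℝ) : ℂ) * I) +
            KF (Mw w) R (((s.im - t : ℝ) : ℂ) - ((s.re - 1 / 2 : ℝ) : ℂ) * I) -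
              2 * KF (Mw w) R ((s.im - t : ℝ) : ℂ)‖)) ≤
      Ck * (1 + Real.exp 1) * (1 / (w * R) ^ 2) * NWG G T w t + Ck * PR G T w R t := by
    unfold NWG PR
    rw [Finset.sum_filter, Finset.mul_sum, Finset.mul_sum, ← Finset.sum_add_distrib]
    refine Finset.sum_le_sum fun s hs => ?_
    rw [H370.mem_Zf hG.good (by linarith)] at hs
    obtain ⟨hs1, hs2, -⟩ := hs
    have hy : |s.re - 1 / 2| ≤ 1 / 2 := by rw [abs_le]; constructor <;> linarith
    obtain ⟨q1, q2⟩ := hkp (s.im - t)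
    have q3 := q2 (s.re - 1 / 2) hy
    have q4 := Pool.Agent.H203.GE.DEGL.term (y := s.re - 1 / 2) hCk hw hR0
      (w1_nonneg ((s.im - t) / w)) q1 q3
    have q5 := mul_le_mul_of_nonneg_left q4 (Nat.cast_nonneg (H370.mult G s) : (0 : ℝ) ≤ H370.mult G s)
    refine q5.trans (le_of_eq ?_)
    split_ifs <;> ring
  -- the weighted count is bounded by the statistic of the majorant
  have hN : NWG G T w t ≤ (∑ s ∈ H370.Zf G T (2 * T), (H370.mult G s : ℝ) * Mw w (s.im - t)) +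
      5 * w ^ 2 * NWG G T 1 t := by
    unfold NWG
    rw [Finset.mul_sum, ← Finset.sum_add_distrib]
    refine Finset.sum_le_sum fun s _ => ?_
    have e1 := mul_le_mul_of_nonneg_left (w1_le hw (s.im - t))
      (Nat.cast_nonneg (H370.mult G s) : (0 : ℝ) ≤ H370.mult G s)
    refine e1.trans (le_of_eq ?_)
    ring
  have hX := Pool.Agent.H203.GE.XG_eq hG hF (U1 := T) (U2 := 2 * T) (T := T) (t := t) (by linarith)
    (by linarith [ht.1]) (by linarith [ht.2])
  have hIM : ∫ x : ℝ, Mw w x ≤ Ck * w := by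
    refine le_trans (le_of_eq ?_) hint
    exact integral_congr_ae (Eventually.of_forall fun x => (abs_of_nonneg (Mw_nonneg w x)).symm)
  have hIM0 : 0 ≤ ∫ x : ℝ, Mw w x := integral_nonneg fun x => Mw_nonneg w x
  have hXle : XG G (Mw w) T t ≤ |XG G (Mw w) T t + BG u (Mw w) R t| + |BG u (Mw w) R t| := by
    have a1 := le_abs_self (XG G (Mw w) T t + BG u (Mw w) R t)
    have a2 := neg_abs_le (BG u (Mw w) R t)
    linarith
  have hmean : L / (2 * Real.pi) * ∫ x : ℝ, Mw w x ≤ Ck * (w * L) := by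
    have hpi := Real.pi_gt_three
    have e1 : L / (2 * Real.pi) ≤ L := div_le_self hL0.le (by linarith)
    calc L / (2 * Real.pi) * ∫ x : ℝ, Mw w x ≤ L * (Ck * w) :=
          mul_le_mul e1 hIM hIM0 hL0.le
      _ = Ck * (w * L) := by ring
  have herr : Cp * (1 + L / R ^ 2) * ∫ x : ℝ, |Mw w x| ≤ 2 * Cp * Ck := by
    have e1 : L / R ^ 2 * w ≤ 1 := by
      rw [div_mul_eq_mul_div, div_le_one (by positivity)]
      have e2 : 1 ≤ (w * R) ^ 2 := by nlinarith
      have e3 : L * w * 1 ≤ L * w * (w * R) ^ 2 := mul_le_mul_of_nonneg_left e2 (by positivity)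
      have e4 : L * w * (w * R) ^ 2 = (w ^ 2 * L) * (w * R ^ 2) := by ring
      have e5 : (w ^ 2 * L) * (w * R ^ 2) ≤ 1 * (w * R ^ 2) :=
        mul_le_mul_of_nonneg_right hwT (by positivity)
      have e6 : w * R ^ 2 ≤ 1 * R ^ 2 := mul_le_mul_of_nonneg_right hw1 (sq_nonneg R)
      linarith
    have e2 : 0 ≤ Cp * (1 + L / R ^ 2) := by positivity
    calc Cp * (1 + L / R ^ 2) * ∫ x : ℝ, |Mw w x| ≤ Cp * (1 + L / R ^ 2) * (Ck * w) :=
          mul_le_mul_of_nonneg_left hint e2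
      _ = Cp * Ck * (w + L / R ^ 2 * w) := by ring
      _ ≤ Cp * Ck * (1 + 1) := mul_le_mul_of_nonneg_left (add_le_add hw1 e1) q2.le
      _ = 2 * Cp * Ck := by ring
  have htail : 5 * w ^ 2 * NWG G T 1 t ≤ 5 * Cn := by
    calc 5 * w ^ 2 * NWG G T 1 t ≤ 5 * w ^ 2 * (Cn * L) :=
          mul_le_mul_of_nonneg_left hnc (by positivity)
      _ = 5 * Cn * (w ^ 2 * L) := by ring
      _ ≤ 5 * Cn * 1 := mul_le_mul_of_nonneg_left hwT (by positivity)
      _ = 5 * Cn := by ring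
  have hNW := NW_nonneg G T w t
  have hPR := PR_nonneg G T w R t
  have hB := abs_nonneg (BG u (Mw w) R t)
  have habs : Ck * (1 + Real.exp 1) * (1 / (w * R) ^ 2) * NWG G T w t ≤ NWG G T w t / 2 := by
    have e1 : 2 * (Ck * (1 + Real.exp 1)) ≤ (w * R) ^ 2 := by
      have e2 : 2 * (Ck * (1 + Real.exp 1)) ≤ w * R := by
        refine le_trans ?_ hwR
        rw [hC0]
        linarith
      nlinarith
    have e3 : Ck * (1 + Real.exp 1) * (1 / (w * R) ^ 2) ≤ 1 / 2 := by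
      rw [mul_one_div, div_le_div_iff₀ (by positivity) (by norm_num)]
      linarith
    calc Ck * (1 + Real.exp 1) * (1 / (w * R) ^ 2) * NWG G T w t ≤ 1 / 2 * NWG G T w t :=
          mul_le_mul_of_nonneg_right e3 hNW
      _ = NWG G T w t / 2 := by ring
  have hmain : NWG G T w t ≤ 2 * Ck * (w * L) + 2 * |BG u (Mw w) R t| + 2 * Ck * PR G T w R t +
      (4 * Cp * Ck + 10 * Cn) := by
    linarith
  have hwL : 0 ≤ w * L := by positivity
  have f1 : 2 * Ck * (w * L) ≤ C0 * (w * L) := mul_le_mul_of_nonneg_right (by rw [hC0]; linarith) hwL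
  have f2 : 2 * |BG u (Mw w) R t| ≤ C0 * |BG u (Mw w) R t| :=
    mul_le_mul_of_nonneg_right (by rw [hC0]; linarith) hB
  have f3 : 2 * Ck * PR G T w R t ≤ C0 * PR G T w R t :=
    mul_le_mul_of_nonneg_right (by rw [hC0]; linarith) hPR
  have f4 : 4 * Cp * Ck + 10 * Cn ≤ C0 := by rw [hC0]; linarith
  calc NWG G T w t ≤ _ := hmain
    _ ≤ C0 * (w * L) + C0 * |BG u (Mw w) R t| + C0 * PR G T w R t + C0 := by linarith
    _ = _ := by ring

end Pool.Agent.H203.HX
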