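import Pool.Agent.H203.HX.Defs
import Pool.Agent.H203.GE.MRT

set_option autoImplicit false

/-! The oscillating Mertens sums, uniformly for small shifts. -/

open Complex Filter Topology Set MeasureTheory

namespace Pool.Agent.H203.HX

namespace OSL

open Pool.Agent.H203.ME Pool.Agent.H203.GE.MRTL

/-- the main lemma, with an explicit constant (compare GE/MRT.lean) -/
theorem main2 (f : ℕ → ℂ) (hf : ∀ a b : ℕ, a ≠ 0 → b ≠ 0 → f (a * b) = f a * f b)
    (hf1 : ∀ n, ‖f n‖ ≤ 1) (L ρ : ℂ) (hL : L ≠ 0) (τ K : ℝ) (hK : 0 ≤ K)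
    (hτ : τ ≠ 0) (hρ' : ρ = 1 / ((τ : ℂ) * I)) (hfe : ∀ n, f n = ee n τ)
    (hS : ∀ M : ℕ, 1 ≤ M → ‖∑ m ∈ Finset.Icc 1 M, f m / m - (L - ρ * w τ (Real.log M))‖ ≤ K / M) :
    ∀ N : ℕ,
      ‖∑ n ∈ Finset.Icc 1 N, ((ArithmeticFunction.vonMangoldt n / n : ℝ) : ℂ) * f n‖ ≤
        max 0 ((‖ρ‖ * (2 * ‖ρ‖ + |τ| * 2) + (12 * (‖ρ‖ * |τ|) + ‖ρ‖ * 6) + K + 2 * K + 12 * K) / ‖L‖) := by
  obtain ⟨S, hSdef⟩ : ∃ S : ℕ → ℂ, S = fun n => ∑ m ∈ Finset.Icc 1 n, f m / m := ⟨_, rfl⟩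
  have hSn : ∀ n, S n = ∑ m ∈ Finset.Icc 1 n, f m / m := fun n => by rw [hSdef]
  obtain ⟨E, hEdef⟩ : ∃ E : ℕ → ℂ, E = fun n => S n - (L - ρ * w τ (Real.log n)) := ⟨_, rfl⟩
  have hE : ∀ M : ℕ, 1 ≤ M → ‖E M‖ ≤ K / M := by
    intro M hM
    rw [hEdef]
    simp only [hSn]
    exact hS M hM
  have hSE : ∀ n, S n = L - ρ * w τ (Real.log n) + E n := by
    intro n; rw [hEdef]; ring
  -- the bound for the sum of the steps of `R`
  have hb1 : ∀ N : ℕ, 1 ≤ N → ‖∑ k ∈ Finset.Ico 1 N, ρ * w τ (Real.log k) *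
      ((Real.log ((k + 1 : ℕ) : ℝ) : ℂ) - (Real.log (k : ℝ) : ℂ))‖ ≤ ‖ρ‖ * (2 * ‖ρ‖ + |τ| * 2) := by
    · intro N hN
      have e1 : ∑ k ∈ Finset.Ico 1 N, ρ * w τ (Real.log k) *
          ((Real.log ((k + 1 : ℕ) : ℝ) : ℂ) - (Real.log (k : ℝ) : ℂ)) =
          ρ * (∑ k ∈ Finset.Ico 1 N, (w τ (Real.log k) *
            (((Real.log ((k + 1 : ℕ) : ℝ) - Real.log k : ℝ) : ℂ)) -
            (w τ (Real.log k) - w τ (Real.log ((k + 1 : ℕ) : ℝ))) / ((τ : ℂ) * I)) +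
            (w τ (Real.log 1) - w τ (Real.log N)) / ((τ : ℂ) * I)) := by
        have e2 : (w τ (Real.log 1) - w τ (Real.log N)) / ((τ : ℂ) * I) =
            ∑ k ∈ Finset.Ico 1 N, (w τ (Real.log k) - w τ (Real.log ((k + 1 : ℕ) : ℝ))) /
              ((τ : ℂ) * I) := by
          induction N, hN using Nat.le_induction with
          | base => simp
          | succ n hn ih =>
            rw [Finset.sum_Ico_succ_top hn, ← ih]
            ring
        rw [e2, ← Finset.sum_add_distrib, Finset.mul_sum]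
        refine Finset.sum_congr rfl fun k _ => ?_
        push_cast
        ring
      rw [e1, norm_mul]
      refine mul_le_mul_of_nonneg_left ?_ (norm_nonneg _)
      refine (norm_add_le _ _).trans ?_
      have e3 : ‖(w τ (Real.log 1) - w τ (Real.log N)) / ((τ : ℂ) * I)‖ ≤ 2 * ‖ρ‖ := by
        rw [div_eq_mul_one_div, ← hρ', norm_mul]
        refine mul_le_mul_of_nonneg_right ?_ (norm_nonneg _)
        refine (norm_sub_le _ _).trans ?_
        rw [w_norm, w_norm]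
        norm_num
      have e4 : ‖∑ k ∈ Finset.Ico 1 N, (w τ (Real.log k) *
            (((Real.log ((k + 1 : ℕ) : ℝ) - Real.log k : ℝ) : ℂ)) -
            (w τ (Real.log k) - w τ (Real.log ((k + 1 : ℕ) : ℝ))) / ((τ : ℂ) * I))‖ ≤ |τ| * 2 := by
        refine (norm_sum_le _ _).trans ?_
        have e5 : ∀ k ∈ Finset.Ico 1 N, ‖w τ (Real.log k) *
            (((Real.log ((k + 1 : ℕ) : ℝ) - Real.log k : ℝ) : ℂ)) -
            (w τ (Real.log k) - w τ (Real.log ((k + 1 : ℕ) : ℝ))) / ((τ : ℂ) * I)‖ ≤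
              |τ| * (1 / (k : ℝ) ^ 2) := by
          intro k hk
          have hk1 := (Finset.mem_Ico.1 hk).1
          obtain ⟨l1, l2⟩ := log_step k hk1
          refine (w_int τ hτ _ _ (by linarith)).trans ?_
          refine mul_le_mul_of_nonneg_left ?_ (abs_nonneg _)
          calc (Real.log ((k + 1 : ℕ) : ℝ) - Real.log k) ^ 2 ≤ (1 / (k : ℝ)) ^ 2 :=
                pow_le_pow_left₀ l1 l2 2
            _ = _ := by ring
        refine (Finset.sum_le_sum e5).trans ?_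
        rw [← Finset.mul_sum]
        exact mul_le_mul_of_nonneg_left (sq_sum N) (abs_nonneg _)
      linarith
  -- the bound for the main part of the convolution
  have hb2 : ∀ N : ℕ, 1 ≤ N → ‖∑ d ∈ Finset.Icc 1 N,
      ((ArithmeticFunction.vonMangoldt d / d : ℝ) : ℂ) * f d * (ρ * w τ (Real.log ((N / d : ℕ) : ℝ))) -
        ρ * w τ (Real.log N) * (Real.log N : ℂ)‖ ≤ 12 * (‖ρ‖ * |τ|) + ‖ρ‖ * 6 := by
    · intro N hN
      have e1 : ∑ d ∈ Finset.Icc 1 N,
          ((ArithmeticFunction.vonMangoldt d / d : ℝ) : ℂ) * f d *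
            (ρ * w τ (Real.log ((N / d : ℕ) : ℝ))) - ρ * w τ (Real.log N) * (Real.log N : ℂ) =
          ∑ d ∈ Finset.Icc 1 N, ((ArithmeticFunction.vonMangoldt d / d : ℝ) : ℂ) * f d *
            (ρ * (w τ (Real.log ((N / d : ℕ) : ℝ)) - w τ (Real.log N - Real.log d))) +
          ρ * w τ (Real.log N) * ((∑ d ∈ Finset.Icc 1 N, ArithmeticFunction.vonMangoldt d / d -
            Real.log N : ℝ) : ℂ) := by
        have e2 : ∑ d ∈ Finset.Icc 1 N, ((ArithmeticFunction.vonMangoldt d / d : ℝ) : ℂ) * f d *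
            (ρ * w τ (Real.log ((N / d : ℕ) : ℝ))) =
            ∑ d ∈ Finset.Icc 1 N, ((ArithmeticFunction.vonMangoldt d / d : ℝ) : ℂ) * f d *
            (ρ * (w τ (Real.log ((N / d : ℕ) : ℝ)) - w τ (Real.log N - Real.log d))) +
            ρ * w τ (Real.log N) *
              ∑ d ∈ Finset.Icc 1 N, ((ArithmeticFunction.vonMangoldt d / d : ℝ) : ℂ) := by
          rw [Finset.mul_sum, ← Finset.sum_add_distrib]
          refine Finset.sum_congr rfl fun d _ => ?_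
          have e3 : w τ (Real.log N) = f d * w τ (Real.log N - Real.log d) := by
            rw [hfe, ee_w, ← w_add]
            congr 1
            ring
          rw [e3]
          ring
        rw [e2]
        push_cast
        ring
      rw [e1]
      refine (norm_add_le _ _).trans (add_le_add ?_ ?_)
      · refine cheb_div N hN _ (‖ρ‖ * |τ|) (by positivity) f hf1 ?_
        intro d hd
        obtain ⟨d1, d2⟩ := Finset.mem_Icc.1 hd
        rw [norm_mul, mul_assoc]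
        refine mul_le_mul_of_nonneg_left ?_ (norm_nonneg _)
        refine (w_sub τ _ _).trans ?_
        refine mul_le_mul_of_nonneg_left ?_ (abs_nonneg _)
        rw [abs_sub_comm]
        exact log_floor N d d1 d2
      · rw [norm_mul, norm_mul, w_norm, mul_one, Complex.norm_real, Real.norm_eq_abs]
        refine mul_le_mul_of_nonneg_left ?_ (norm_nonneg _)
        have m1 := H370.nt_mertens_lower N hN
        have m2 := H370.nt_mertens_upper N hN
        rw [abs_le]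
        constructor <;> linarith
  intro N
  rcases Nat.eq_zero_or_pos N with rfl | hN
  · simp
  refine le_trans ?_ (le_max_right _ _)
  have hLn : 0 < ‖L‖ := norm_pos_iff.2 hL
  rw [le_div_iff₀ hLn, mul_comm, ← norm_mul]
  have hN0 : (0 : ℝ) < N := by exact_mod_cast hN
  -- partial summation
  have hU := parts S (fun m => f m / m) (fun n => (Real.log n : ℂ)) hSn N hN
  have hV := conv f hf N
  rw [hU] at hV
  have key : L * ∑ n ∈ Finset.Icc 1 N, ((ArithmeticFunction.vonMangoldt n / n : ℝ) : ℂ) * f n =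
      (∑ k ∈ Finset.Ico 1 N, ρ * w τ (Real.log k) *
        ((Real.log ((k + 1 : ℕ) : ℝ) : ℂ) - (Real.log (k : ℝ) : ℂ))) +
      (∑ d ∈ Finset.Icc 1 N,
        ((ArithmeticFunction.vonMangoldt d / d : ℝ) : ℂ) * f d *
          (ρ * w τ (Real.log ((N / d : ℕ) : ℝ))) - ρ * w τ (Real.log N) * (Real.log N : ℂ)) +
      E N * (Real.log N : ℂ) -
      (∑ k ∈ Finset.Ico 1 N, E k * ((Real.log ((k + 1 : ℕ) : ℝ) : ℂ) - (Real.log (k : ℝ) : ℂ))) -
      ∑ d ∈ Finset.Icc 1 N, ((ArithmeticFunction.vonMangoldt d / d : ℝ) : ℂ) * f d * E (N / d) := by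
    have t1 : ∑ k ∈ Finset.Ico 1 N, S k * ((Real.log ((k + 1 : ℕ) : ℝ) : ℂ) -
        (Real.log (k : ℝ) : ℂ)) = L * (Real.log N : ℂ) -
        (∑ k ∈ Finset.Ico 1 N, ρ * w τ (Real.log k) *
        ((Real.log ((k + 1 : ℕ) : ℝ) : ℂ) - (Real.log (k : ℝ) : ℂ))) +
        (∑ k ∈ Finset.Ico 1 N, E k * ((Real.log ((k + 1 : ℕ) : ℝ) : ℂ) - (Real.log (k : ℝ) : ℂ))) := by
      have t2 : L * (Real.log N : ℂ) = ∑ k ∈ Finset.Ico 1 N, L *
          ((Real.log ((k + 1 : ℕ) : ℝ) : ℂ) - (Real.log (k : ℝ) : ℂ)) := by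
        rw [← Finset.mul_sum]
        congr 1
        clear hU hV
        induction N, hN using Nat.le_induction with
        | base => simp
        | succ n hn ih =>
          have hn0 : (0 : ℝ) < n := by exact_mod_cast hn
          rw [Finset.sum_Ico_succ_top hn, ← ih hn0]
          ring
      rw [t2, ← Finset.sum_sub_distrib, ← Finset.sum_add_distrib]
      refine Finset.sum_congr rfl fun k _ => ?_
      rw [hSE k]
      ring
    have t3 : ∑ d ∈ Finset.Icc 1 N, ((ArithmeticFunction.vonMangoldt d / d : ℝ) : ℂ) * f d *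
        ∑ m ∈ Finset.Icc 1 (N / d), f m / m =
        L * (∑ n ∈ Finset.Icc 1 N, ((ArithmeticFunction.vonMangoldt n / n : ℝ) : ℂ) * f n) -
        (∑ d ∈ Finset.Icc 1 N, ((ArithmeticFunction.vonMangoldt d / d : ℝ) : ℂ) * f d *
          (ρ * w τ (Real.log ((N / d : ℕ) : ℝ)))) +
        ∑ d ∈ Finset.Icc 1 N, ((ArithmeticFunction.vonMangoldt d / d : ℝ) : ℂ) * f d *
          E (N / d) := by
      rw [Finset.mul_sum, ← Finset.sum_sub_distrib, ← Finset.sum_add_distrib]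
      refine Finset.sum_congr rfl fun d _ => ?_
      rw [← hSn, hSE (N / d)]
      ring
    rw [t1, t3] at hV
    have t4 := hSE N
    rw [t4] at hV
    linear_combination -hV
  rw [key]
  have r1 : ‖E N * (Real.log N : ℂ)‖ ≤ K := by
    rw [norm_mul, Complex.norm_real, Real.norm_eq_abs,
      abs_of_nonneg (Real.log_natCast_nonneg N)]
    have h1 : Real.log N ≤ N := (Real.log_le_sub_one_of_pos hN0).trans (by linarith)
    calc ‖E N‖ * Real.log N ≤ K / N * N :=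
          mul_le_mul (hE N hN) h1 (Real.log_natCast_nonneg N) (by positivity)
      _ = K := by field_simp
  have r2 : ‖∑ k ∈ Finset.Ico 1 N, E k * ((Real.log ((k + 1 : ℕ) : ℝ) : ℂ) -
      (Real.log (k : ℝ) : ℂ))‖ ≤ 2 * K := by
    refine (norm_sum_le _ _).trans ?_
    have h1 : ∀ k ∈ Finset.Ico 1 N, ‖E k * ((Real.log ((k + 1 : ℕ) : ℝ) : ℂ) -
        (Real.log (k : ℝ) : ℂ))‖ ≤ K * (1 / (k : ℝ) ^ 2) := by
      intro k hk
      have hk1 := (Finset.mem_Ico.1 hk).1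
      have hk0 : (0 : ℝ) < k := by exact_mod_cast hk1
      obtain ⟨l1, l2⟩ := log_step k hk1
      rw [norm_mul, ← Complex.ofReal_sub, Complex.norm_real, Real.norm_eq_abs, abs_of_nonneg l1]
      calc ‖E k‖ * (Real.log ((k + 1 : ℕ) : ℝ) - Real.log k) ≤ K / k * (1 / k) :=
            mul_le_mul (hE k hk1) l2 l1 (by positivity)
        _ = _ := by ring
    refine (Finset.sum_le_sum h1).trans ?_
    rw [← Finset.mul_sum]
    have := mul_le_mul_of_nonneg_left (sq_sum N) hK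
    linarith
  have r3 : ‖∑ d ∈ Finset.Icc 1 N, ((ArithmeticFunction.vonMangoldt d / d : ℝ) : ℂ) * f d *
      E (N / d)‖ ≤ 12 * K := by
    refine cheb_div N hN _ K hK f hf1 ?_
    intro d hd
    obtain ⟨d1, d2⟩ := Finset.mem_Icc.1 hd
    have hM1 : 1 ≤ N / d := (Nat.one_le_div_iff (by omega)).2 d2
    refine (hE _ hM1).trans ?_
    rw [div_eq_mul_one_div]
    exact mul_le_mul_of_nonneg_left (inv_floor N d d1 d2) hK
  refine (norm_sub_le _ _).trans ?_
  refine (add_le_add ((norm_sub_le _ _).trans (add_le_add ((norm_add_le _ _).trans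
    (add_le_add ((norm_add_le _ _).trans (add_le_add (hb1 N hN) (hb2 N hN))) r1)) r2)) r3)

open Pool.Agent.H307R2 in
/-- zeta with a shift -/
theorem caseB2 (τ : ℝ) (hτ : τ ≠ 0) :
    ∀ N : ℕ, ‖∑ n ∈ Finset.Icc 1 N, ((ArithmeticFunction.vonMangoldt n / n : ℝ) : ℂ) *
      ee n τ‖ ≤ max 0 ((‖1 / ((τ : ℂ) * I)‖ * (2 * ‖1 / ((τ : ℂ) * I)‖ + |τ| * 2) +
        (12 * (‖1 / ((τ : ℂ) * I)‖ * |τ|) + ‖1 / ((τ : ℂ) * I)‖ * 6) + ‖1 + (τ : ℂ) * I‖ +
        2 * ‖1 + (τ : ℂ) * I‖ + 12 * ‖1 + (τ : ℂ) * I‖) / ‖riemannZeta (1 + (τ : ℂ) * I)‖) := by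
  have hτI : (τ : ℂ) * I ≠ 0 := mul_ne_zero (by exact_mod_cast hτ) I_ne_zero
  obtain ⟨s, hs⟩ : ∃ s : ℂ, s = 1 + (τ : ℂ) * I := ⟨_, rfl⟩
  have hsre : s.re = 1 := by rw [hs]; simp
  have hs1 : s ≠ 1 := by
    intro h
    apply hτI
    rw [hs] at h
    linear_combination h
  rw [← hs]
  refine main2 (fun n => ee n τ) (fun a b ha hb => ee_mul a b ha hb τ) (fun n => (ee_norm n τ).le)
    (riemannZeta s) (1 / ((τ : ℂ) * I)) ?_ τ ‖s‖ (norm_nonneg _)
    hτ rfl (fun _ => rfl) ?_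
  · exact riemannZeta_ne_zero_of_one_le_re hsre.ge
  · intro M hM
    have hM0 : M ≠ 0 := by omega
    have hMc : (M : ℂ) ≠ 0 := by exact_mod_cast hM0
    have h := zeta_eq hM (s := s) (by rw [hsre]; norm_num) hs1
    have h1 : ∑ m ∈ Finset.Icc 1 M, ee m τ / m = ∑ n ∈ Finset.Icc 1 M, (n : ℂ) ^ (-s) := by
      refine Finset.sum_congr rfl fun n hn => ?_
      have hn0 : n ≠ 0 := by have := (Finset.mem_Icc.1 hn).1; omega
      rw [ee_cpow n hn0, hs]
    have h4 : (M : ℂ) ^ (1 - s) / (s - 1) = 1 / ((τ : ℂ) * I) * w τ (Real.log M) := by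
      have e1 : s - 1 = (τ : ℂ) * I := by rw [hs]; ring
      have e2 : (M : ℂ) ^ (1 - s) = w τ (Real.log M) := by
        rw [Complex.cpow_def_of_ne_zero hMc, ← Complex.natCast_log]
        unfold w
        congr 1
        rw [hs]
        push_cast
        ring
      rw [e1, e2]
      ring
    rw [h1, h, h4]
    have h2 : ∑ n ∈ Finset.Icc 1 M, (n : ℂ) ^ (-s) -
        (∑ n ∈ Finset.Icc 1 M, (n : ℂ) ^ (-s) + 1 / ((τ : ℂ) * I) * w τ (Real.log M) +
          s * TM M Ez s - 1 / ((τ : ℂ) * I) * w τ (Real.log M)) = -(s * TM M Ez s) := by ring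
    rw [h2, norm_neg, norm_mul]
    have h3 := TM_norm_le hM Ez_norm_le (s := s) (by rw [hsre]; norm_num)
    rw [hsre, Real.rpow_neg_one, div_one, one_mul] at h3
    calc ‖s‖ * ‖TM M Ez s‖ ≤ ‖s‖ * (M : ℝ)⁻¹ :=
          mul_le_mul_of_nonneg_left h3 (norm_nonneg _)
      _ = _ := by ring


/-- lower bound for zeta on the line near the pole -/
theorem zlow : ∃ c : ℝ, 0 < c ∧ ∀ τ : ℝ, 0 < τ → τ ≤ 1 → c ≤ τ * ‖riemannZeta (1 + (τ : ℂ) * I)‖ := by
  have h1 : Tendsto (fun τ : ℝ => ((1 + (τ : ℂ) * I) - 1) * riemannZeta (1 + (τ : ℂ) * I))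
      (𝓝[>] 0) (𝓝 1) := by
    have h2 : Tendsto (fun τ : ℝ => 1 + (τ : ℂ) * I) (𝓝[>] 0) (𝓝[≠] 1) := by
      refine tendsto_nhdsWithin_iff.2 ⟨?_, ?_⟩
      · have h3 : Continuous (fun τ : ℝ => 1 + (τ : ℂ) * I) := by fun_prop
        have h4 := h3.tendsto 0
        simp only [Complex.ofReal_zero, zero_mul, add_zero] at h4
        exact h4.mono_left nhdsWithin_le_nhds
      · filter_upwards [self_mem_nhdsWithin] with τ hτ
        have hτ0 : (τ : ℂ) ≠ 0 := by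
          have : (0 : ℝ) < τ := hτ
          exact_mod_cast this.ne'
        intro h
        have h5 : (τ : ℂ) * I = 0 := by
          have h6 : 1 + (τ : ℂ) * I = 1 := h
          linear_combination h6
        exact mul_ne_zero hτ0 I_ne_zero h5
    exact riemannZeta_residue_one.comp h2
  have h3 : Tendsto (fun τ : ℝ => ‖((1 + (τ : ℂ) * I) - 1) * riemannZeta (1 + (τ : ℂ) * I)‖)
      (𝓝[>] 0) (𝓝 1) := by
    have := h1.norm
    rwa [norm_one] at this
  have h4 : ∀ᶠ τ : ℝ in 𝓝[>] 0, (1 / 2 : ℝ) < ‖((1 + (τ : ℂ) * I) - 1) * riemannZeta (1 + (τ : ℂ) * I)‖ :=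
    h3.eventually (lt_mem_nhds (by norm_num))
  obtain ⟨δ, hδ, hδ2⟩ := mem_nhdsGT_iff_exists_Ioo_subset.1 h4
  have hδ0 : (0 : ℝ) < δ := hδ
  have hnorm : ∀ τ : ℝ, 0 < τ → ‖((1 + (τ : ℂ) * I) - 1) * riemannZeta (1 + (τ : ℂ) * I)‖ =
      τ * ‖riemannZeta (1 + (τ : ℂ) * I)‖ := by
    intro τ hτ
    rw [norm_mul, add_sub_cancel_left, norm_mul, Complex.norm_I, mul_one, Complex.norm_real,
      Real.norm_eq_abs, abs_of_pos hτ]
  rcases le_or_gt δ 1 with hd1 | hd1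
  · have hcont : ContinuousOn (fun τ : ℝ => τ * ‖riemannZeta (1 + (τ : ℂ) * I)‖) (Icc δ 1) := by
      intro τ hτ
      have hτ0 : (0 : ℝ) < τ := hδ0.trans_le hτ.1
      have hs1 : (1 + (τ : ℂ) * I) ≠ 1 := by
        intro h
        have h5 : (τ : ℂ) * I = 0 := by linear_combination h
        exact mul_ne_zero (by exact_mod_cast hτ0.ne') I_ne_zero h5
      have hz : ContinuousAt riemannZeta (1 + (τ : ℂ) * I) := (differentiableAt_riemannZeta hs1).continuousAt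
      have hg : ContinuousAt (fun τ : ℝ => 1 + (τ : ℂ) * I) τ := by fun_prop
      exact (continuousAt_id.mul (ContinuousAt.norm (ContinuousAt.comp (f := fun τ : ℝ => 1 + (τ : ℂ) * I) hz hg))).continuousWithinAt
    obtain ⟨x, hx, hmin⟩ := isCompact_Icc.exists_isMinOn (⟨δ, ⟨le_refl _, hd1⟩⟩ : (Icc δ 1).Nonempty) hcont
    have hx0 : (0 : ℝ) < x := hδ0.trans_le hx.1
    have hpos : 0 < x * ‖riemannZeta (1 + (x : ℂ) * I)‖ := by
      refine mul_pos hx0 (norm_pos_iff.2 (riemannZeta_ne_zero_of_one_le_re ?_))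
      simp
    refine ⟨min (1 / 2) (x * ‖riemannZeta (1 + (x : ℂ) * I)‖), lt_min (by norm_num) hpos, fun τ hτ hτ1 => ?_⟩
    rcases lt_or_ge τ δ with h | h
    · have := hδ2 ⟨hτ, h⟩
      have h6 : (1 / 2 : ℝ) < ‖((1 + (τ : ℂ) * I) - 1) * riemannZeta (1 + (τ : ℂ) * I)‖ := this
      rw [hnorm τ hτ] at h6
      exact (min_le_left _ _).trans h6.le
    · exact (min_le_right _ _).trans (hmin ⟨h, hτ1⟩)
  · refine ⟨1 / 2, by norm_num, fun τ hτ hτ1 => ?_⟩
    have h6 : (1 / 2 : ℝ) < ‖((1 + (τ : ℂ) * I) - 1) * riemannZeta (1 + (τ : ℂ) * I)‖ :=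
      hδ2 ⟨hτ, hτ1.trans_lt hd1⟩
    rw [hnorm τ hτ] at h6
    exact h6.le

end OSL

open OSL Pool.Agent.H203.ME in
theorem t_OS : S_OS := by
  obtain ⟨c, hc, hz⟩ := zlow
  refine ⟨60 / c, by positivity, fun τ hτ hτ1 N => ?_⟩
  refine (caseB2 τ hτ.ne' N).trans ?_
  have hρ : ‖1 / ((τ : ℂ) * I)‖ = 1 / τ := by
    rw [norm_div, norm_one, norm_mul, Complex.norm_I, mul_one, Complex.norm_real, Real.norm_eq_abs,
      abs_of_pos hτ]
  have hs : ‖1 + (τ : ℂ) * I‖ ≤ 2 := by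
    refine (norm_add_le _ _).trans ?_
    rw [norm_one, norm_mul, Complex.norm_I, mul_one, Complex.norm_real, Real.norm_eq_abs, abs_of_pos hτ]
    linarith
  have hζ : c / τ ≤ ‖riemannZeta (1 + (τ : ℂ) * I)‖ := by
    rw [div_le_iff₀ hτ]
    have := hz τ hτ hτ1
    linarith
  have hct : 0 < c / τ := by positivity
  rw [hρ, abs_of_pos hτ]
  refine max_le (by positivity) ?_
  have hnum : 1 / τ * (2 * (1 / τ) + τ * 2) + (12 * (1 / τ * τ) + 1 / τ * 6) + ‖1 + (τ : ℂ) * I‖ +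
      2 * ‖1 + (τ : ℂ) * I‖ + 12 * ‖1 + (τ : ℂ) * I‖ ≤ 60 / τ ^ 2 := by
    have e1 : 1 / τ * τ = 1 := by field_simp
    have e2 : (1 : ℝ) ≤ 1 / τ := by rw [le_div_iff₀ hτ]; linarith
    have e3 : 60 / τ ^ 2 = 60 * (1 / τ) ^ 2 := by field_simp
    have e4 : 1 / τ * (2 * (1 / τ) + τ * 2) = 2 * (1 / τ) ^ 2 + 2 * (1 / τ * τ) := by ring
    rw [e3, e4, e1]
    nlinarith
  calc _ ≤ (60 / τ ^ 2) / (c / τ) :=
        div_le_div₀ (by positivity) hnum hct hζ
    _ = 60 / c / τ := by field_simp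

end Pool.Agent.H203.HX
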