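import Pool.Agent.H203.HX.Defs
import Pool.Agent.H203.ME.FAR

set_option autoImplicit false

/-! (PB) the mean of the contribution of the zeros far from the critical line (compare `GE/FAG.lean`). -/

open Complex Filter Topology Set MeasureTheory

namespace Pool.Agent.H203.HX

open Pool.Agent.H203.ME (ee gR WR cR om FF KF C2c w1)
open Pool.Agent.H203.GE (Lf ZG XG BG NWG)
open Pool.Agent.H203.ME.FARL (w1_cont w1_nonneg int_w1)

theorem t_PB : S_PB := by
  classical
  intro G u hG
  obtain ⟨C', T2, hC', hT2, hD⟩ := hG.dens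
  refine ⟨Real.pi * C', T2, by have := Real.pi_pos; positivity, hT2, ?_⟩
  intro T hT w R hw hR hRL V1 V2 hV
  have hT10 : 10 ≤ T := hT2.trans hT
  set L := Real.log T with hLd
  have hL0 : 0 < L := by linarith
  set Z := H370.Zf G T (2 * T) with hZ
  set F := Z.filter (fun s => 1 < R * |s.re - 1 / 2|) with hF
  have hcs : ∀ s : ℂ, Continuous fun t : ℝ => w1 ((s.im - t) / w) := fun s =>
    w1_cont.comp (by fun_prop)
  have e1 : ∀ t : ℝ, PR G T w R t = ∑ s ∈ F, ((H370.mult G s : ℝ) *
      (((s.re - 1 / 2) / w) ^ 2 * Real.exp (R * |s.re - 1 / 2|))) * w1 ((s.im - t) / w) := by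
    intro t
    unfold PR
    rw [hF, hZ]
    refine Finset.sum_congr ?_ fun s _ => by ring
    ext s
    simp only [Finset.mem_filter]
  have e2 : ∫ t in V1..V2, PR G T w R t = ∑ s ∈ F, ((H370.mult G s : ℝ) *
      (((s.re - 1 / 2) / w) ^ 2 * Real.exp (R * |s.re - 1 / 2|))) *
        ∫ t in V1..V2, w1 ((s.im - t) / w) := by
    simp only [e1]
    rw [intervalIntegral.integral_finsetSum]
    · exact Finset.sum_congr rfl fun s _ => by rw [intervalIntegral.integral_const_mul]
    · intro s _
      exact (continuous_const.mul (hcs s)).intervalIntegrable _ _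
  have h1 : ∀ s ∈ F, ((H370.mult G s : ℝ) *
      (((s.re - 1 / 2) / w) ^ 2 * Real.exp (R * |s.re - 1 / 2|))) *
        ∫ t in V1..V2, w1 ((s.im - t) / w) ≤
      (Real.pi / w * Real.exp (-(L / (8 * R)))) * ((H370.mult G s : ℝ) *
        ((s.re - 1 / 2) ^ 2 * Real.exp (L * |s.re - 1 / 2| / 4))) := by
    intro s hs
    rw [hF, Finset.mem_filter] at hs
    set y := s.re - 1 / 2 with hy
    have hm : (0 : ℝ) ≤ H370.mult G s := Nat.cast_nonneg _
    have h3 := int_w1 hw s.im V1 V2
    have h4 : Real.exp (R * |y|) ≤ Real.exp (-(L / (8 * R))) * Real.exp (L * |y| / 4) := by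
      rw [← Real.exp_add]
      apply Real.exp_le_exp.2
      have hyn : 0 ≤ |y| := abs_nonneg y
      have h5 : R * |y| ≤ L / 8 * |y| := mul_le_mul_of_nonneg_right hRL hyn
      have h6 : L / (8 * R) ≤ L / 8 * |y| := by
        have h7 : L / (8 * R) = L / 8 * (1 / R) := by field_simp
        rw [h7]
        refine mul_le_mul_of_nonneg_left ?_ (by positivity)
        rw [div_le_iff₀ hR]
        linarith [hs.2, mul_comm R |y|]
      linarith
    have h8 : (0 : ℝ) ≤ (H370.mult G s : ℝ) * ((y / w) ^ 2 * Real.exp (R * |y|)) := by positivity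
    calc ((H370.mult G s : ℝ) * ((y / w) ^ 2 * Real.exp (R * |y|))) *
          ∫ t in V1..V2, w1 ((s.im - t) / w)
        ≤ ((H370.mult G s : ℝ) * ((y / w) ^ 2 * Real.exp (R * |y|))) * (Real.pi * w) :=
          mul_le_mul_of_nonneg_left h3 h8
      _ = (H370.mult G s : ℝ) * (Real.pi / w * (y ^ 2 * Real.exp (R * |y|))) := by
          field_simp
      _ ≤ (H370.mult G s : ℝ) * (Real.pi / w * (y ^ 2 *
          (Real.exp (-(L / (8 * R))) * Real.exp (L * |y| / 4)))) := by
          refine mul_le_mul_of_nonneg_left ?_ hm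
          refine mul_le_mul_of_nonneg_left ?_ (by have := Real.pi_pos; positivity)
          exact mul_le_mul_of_nonneg_left h4 (sq_nonneg y)
      _ = _ := by ring
  rw [e2]
  refine (Finset.sum_le_sum h1).trans ?_
  rw [← Finset.mul_sum]
  have h9 : ∑ s ∈ F, (H370.mult G s : ℝ) *
      ((s.re - 1 / 2) ^ 2 * Real.exp (L * |s.re - 1 / 2| / 4)) ≤ C' * T / L := by
    refine le_trans ?_ (hD T hT T (2 * T) le_rfl (by linarith) (by linarith) le_rfl)
    refine Finset.sum_le_sum_of_subset_of_nonneg (Finset.filter_subset _ _) fun s _ _ => ?_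
    exact mul_nonneg (Nat.cast_nonneg _) (by positivity)
  calc (Real.pi / w * Real.exp (-(L / (8 * R)))) * ∑ s ∈ F, (H370.mult G s : ℝ) *
      ((s.re - 1 / 2) ^ 2 * Real.exp (L * |s.re - 1 / 2| / 4))
      ≤ (Real.pi / w * Real.exp (-(L / (8 * R)))) * (C' * T / L) :=
        mul_le_mul_of_nonneg_left h9 (by have := Real.pi_pos; positivity)
    _ = Real.pi * C' * T / (w * L) * Real.exp (-(L / (8 * R))) := by
        field_simp

end Pool.Agent.H203.HX
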