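import Pool.Agent.H203.HX.Defs

set_option autoImplicit false

/-! The transform of the edge. -/

open Complex Filter Topology Set MeasureTheory

namespace Pool.Agent.H203.HX

namespace PHL

theorem int_one : ∫ s in (0 : ℝ)..1, 30 * s ^ 2 * (1 - s) ^ 2 = 1 := by
  have h : ∀ s ∈ uIcc (0 : ℝ) 1, HasDerivAt (fun s : ℝ => 10 * s ^ 3 - 15 * s ^ 4 + 6 * s ^ 5)
      (30 * s ^ 2 * (1 - s) ^ 2) s := by
    intro s _
    have h1 := (((hasDerivAt_pow 3 s).const_mul (10 : ℝ)).fun_sub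
      ((hasDerivAt_pow 4 s).const_mul (15 : ℝ))).fun_add ((hasDerivAt_pow 5 s).const_mul (6 : ℝ))
    refine h1.congr_deriv ?_
    norm_num
    ring
  rw [intervalIntegral.integral_eq_sub_of_hasDerivAt h
    ((by fun_prop : Continuous fun s : ℝ => 30 * s ^ 2 * (1 - s) ^ 2).intervalIntegrable _ _)]
  norm_num

theorem norm_exp (x : ℝ) : ‖cexp (-((x : ℂ) * I))‖ = 1 := by
  have h : -((x : ℂ) * I) = ((-x : ℝ) : ℂ) * I := by push_cast; ring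
  rw [h, Complex.norm_exp_ofReal_mul_I]

theorem cont_int (ξ : ℝ) : Continuous fun s : ℝ => ((30 * s ^ 2 * (1 - s) ^ 2 : ℝ) : ℂ) *
    cexp (-(((ξ * s : ℝ) : ℂ) * I)) := by fun_prop

theorem cont_ph : Continuous ph := by
  unfold ph
  refine intervalIntegral.continuous_parametric_intervalIntegral_of_continuous' ?_ 0 1
  fun_prop

theorem ph_le_one (ξ : ℝ) : ‖ph ξ‖ ≤ 1 := by
  unfold ph
  refine (intervalIntegral.norm_integral_le_integral_norm zero_le_one).trans ?_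
  refine le_of_eq (Eq.trans (intervalIntegral.integral_congr fun s _ => ?_) int_one)
  change ‖((30 * s ^ 2 * (1 - s) ^ 2 : ℝ) : ℂ) * cexp (-(((ξ * s : ℝ) : ℂ) * I))‖ = _
  rw [norm_mul, norm_exp, mul_one, Complex.norm_real, Real.norm_eq_abs, abs_of_nonneg (by positivity)]

theorem norm_exp_sub_one (x : ℝ) : ‖cexp (-((x : ℂ) * I)) - 1‖ ≤ |x| := by
  have h := Real.norm_exp_I_mul_ofReal_sub_one_le (x := -x)
  have h2 : I * ((-x : ℝ) : ℂ) = -((x : ℂ) * I) := by push_cast; ring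
  rw [h2] at h
  simpa using h

theorem ph_sub_one (ξ : ℝ) : ‖ph ξ - 1‖ ≤ |ξ| := by
  have h1 : ph ξ - 1 = ∫ s in (0 : ℝ)..1, ((30 * s ^ 2 * (1 - s) ^ 2 : ℝ) : ℂ) *
      (cexp (-(((ξ * s : ℝ) : ℂ) * I)) - 1) := by
    have h2 : (1 : ℂ) = ∫ s in (0 : ℝ)..1, ((30 * s ^ 2 * (1 - s) ^ 2 : ℝ) : ℂ) := by
      rw [intervalIntegral.integral_ofReal, int_one, Complex.ofReal_one]
    conv_lhs => rw [h2]
    unfold ph
    rw [← intervalIntegral.integral_sub ((cont_int ξ).intervalIntegrable _ _)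
      ((by fun_prop : Continuous fun s : ℝ => ((30 * s ^ 2 * (1 - s) ^ 2 : ℝ) : ℂ)).intervalIntegrable _ _)]
    refine intervalIntegral.integral_congr fun s _ => ?_
    change ((30 * s ^ 2 * (1 - s) ^ 2 : ℝ) : ℂ) * cexp (-(((ξ * s : ℝ) : ℂ) * I)) -
      ((30 * s ^ 2 * (1 - s) ^ 2 : ℝ) : ℂ) = ((30 * s ^ 2 * (1 - s) ^ 2 : ℝ) : ℂ) *
      (cexp (-(((ξ * s : ℝ) : ℂ) * I)) - 1)
    ring
  rw [h1]
  refine (intervalIntegral.norm_integral_le_integral_norm zero_le_one).trans ?_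
  have h3 : ∫ s in (0 : ℝ)..1, 30 * s ^ 2 * (1 - s) ^ 2 * |ξ| = |ξ| := by
    rw [intervalIntegral.integral_mul_const, int_one, one_mul]
  rw [← h3]
  refine intervalIntegral.integral_mono_on zero_le_one ?_ ?_ fun s hs => ?_
  · exact (by fun_prop : Continuous fun s : ℝ => ‖((30 * s ^ 2 * (1 - s) ^ 2 : ℝ) : ℂ) *
      (cexp (-(((ξ * s : ℝ) : ℂ) * I)) - 1)‖).intervalIntegrable _ _
  · exact (by fun_prop : Continuous fun s : ℝ => 30 * s ^ 2 * (1 - s) ^ 2 * |ξ|).intervalIntegrable _ _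
  · rw [norm_mul, Complex.norm_real, Real.norm_eq_abs, abs_of_nonneg (by positivity)]
    refine mul_le_mul_of_nonneg_left ((norm_exp_sub_one _).trans ?_) (by positivity)
    rw [abs_mul, abs_of_nonneg hs.1]
    exact mul_le_of_le_one_right (abs_nonneg _) hs.2

/-- the primitive -/
theorem der_F {c : ℂ} (hc : c ≠ 0) (z : ℂ) :
    HasDerivAt (fun z : ℂ => ((30 * z ^ 2 - 60 * z ^ 3 + 30 * z ^ 4) / c -
      (60 * z - 180 * z ^ 2 + 120 * z ^ 3) / c ^ 2) * cexp (c * z))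
      ((30 * z ^ 2 * (1 - z) ^ 2 - (60 - 360 * z + 360 * z ^ 2) / c ^ 2) * cexp (c * z)) z := by
  have h1 := ((((hasDerivAt_pow 2 z).const_mul (30 : ℂ)).fun_sub
    ((hasDerivAt_pow 3 z).const_mul (60 : ℂ))).fun_add ((hasDerivAt_pow 4 z).const_mul (30 : ℂ))).div_const c
  have h2 := ((((hasDerivAt_id' z).const_mul (60 : ℂ)).fun_sub
    ((hasDerivAt_pow 2 z).const_mul (180 : ℂ))).fun_add
    ((hasDerivAt_pow 3 z).const_mul (120 : ℂ))).div_const (c ^ 2)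
  have h3 := ((hasDerivAt_id' z).const_mul c).cexp
  have h4 := (h1.fun_sub h2).fun_mul h3
  refine h4.congr_deriv ?_
  norm_num
  field_simp
  ring

theorem ph_decay {ξ : ℝ} (hξ : ξ ≠ 0) : ‖ph ξ‖ ≤ 60 / ξ ^ 2 := by
  have hc : (-((ξ : ℂ) * I)) ≠ 0 := by
    rw [neg_ne_zero]
    exact mul_ne_zero (by exact_mod_cast hξ) I_ne_zero
  have hc2 : (-((ξ : ℂ) * I)) ^ 2 = -((ξ : ℂ) ^ 2) := by
    rw [neg_sq, mul_pow, I_sq]
    ring
  have hξ2 : (ξ : ℂ) ^ 2 ≠ 0 := pow_ne_zero 2 (by exact_mod_cast hξ)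
  have hF : ∀ s ∈ uIcc (0 : ℝ) 1, HasDerivAt
      (fun s : ℝ => ((30 * (s : ℂ) ^ 2 - 60 * (s : ℂ) ^ 3 + 30 * (s : ℂ) ^ 4) / (-((ξ : ℂ) * I)) -
      (60 * (s : ℂ) - 180 * (s : ℂ) ^ 2 + 120 * (s : ℂ) ^ 3) / (-((ξ : ℂ) * I)) ^ 2) *
        cexp ((-((ξ : ℂ) * I)) * s))
      ((30 * (s : ℂ) ^ 2 * (1 - (s : ℂ)) ^ 2 - (60 - 360 * (s : ℂ) + 360 * (s : ℂ) ^ 2) /
        (-((ξ : ℂ) * I)) ^ 2) * cexp ((-((ξ : ℂ) * I)) * s)) s := fun s _ =>
    (der_F hc (s : ℂ)).comp_ofReal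
  have hint := intervalIntegral.integral_eq_sub_of_hasDerivAt hF
    ((by fun_prop : Continuous fun s : ℝ => ((30 * (s : ℂ) ^ 2 * (1 - (s : ℂ)) ^ 2 -
      (60 - 360 * (s : ℂ) + 360 * (s : ℂ) ^ 2) / (-((ξ : ℂ) * I)) ^ 2) *
        cexp ((-((ξ : ℂ) * I)) * s))).intervalIntegrable _ _)
  have h0 : ∫ s in (0 : ℝ)..1, ((30 * (s : ℂ) ^ 2 * (1 - (s : ℂ)) ^ 2 -
      (60 - 360 * (s : ℂ) + 360 * (s : ℂ) ^ 2) / (-((ξ : ℂ) * I)) ^ 2) *
        cexp ((-((ξ : ℂ) * I)) * s)) = 0 := by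
    rw [hint]
    norm_num
  have h1 : ph ξ = ∫ s in (0 : ℝ)..1, (-(60 - 360 * (s : ℂ) + 360 * (s : ℂ) ^ 2) / (ξ : ℂ) ^ 2) *
        cexp ((-((ξ : ℂ) * I)) * s) := by
    rw [← sub_eq_zero, ← h0]
    unfold ph
    rw [← intervalIntegral.integral_sub ((cont_int ξ).intervalIntegrable _ _)
      ((by fun_prop : Continuous fun s : ℝ => (-(60 - 360 * (s : ℂ) + 360 * (s : ℂ) ^ 2) /
        (ξ : ℂ) ^ 2) * cexp ((-((ξ : ℂ) * I)) * s)).intervalIntegrable _ _)]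
    refine intervalIntegral.integral_congr fun s _ => ?_
    have he : -(((ξ * s : ℝ) : ℂ) * I) = (-((ξ : ℂ) * I)) * s := by push_cast; ring
    change ((30 * s ^ 2 * (1 - s) ^ 2 : ℝ) : ℂ) * cexp (-(((ξ * s : ℝ) : ℂ) * I)) -
      (-(60 - 360 * (s : ℂ) + 360 * (s : ℂ) ^ 2) / (ξ : ℂ) ^ 2) * cexp ((-((ξ : ℂ) * I)) * s) = _
    rw [he, hc2]
    push_cast
    rw [div_neg, neg_div]
    ring
  rw [h1]
  have h2 : ∀ s ∈ uIoc (0 : ℝ) 1, ‖(-(60 - 360 * (s : ℂ) + 360 * (s : ℂ) ^ 2) / (ξ : ℂ) ^ 2) *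
      cexp ((-((ξ : ℂ) * I)) * s)‖ ≤ 60 / ξ ^ 2 := by
    intro s hs
    rw [uIoc_of_le zero_le_one] at hs
    have he : (-((ξ : ℂ) * I)) * s = -(((ξ * s : ℝ) : ℂ) * I) := by push_cast; ring
    rw [he, norm_mul, norm_exp, mul_one, norm_div, norm_neg, norm_pow, Complex.norm_real,
      Real.norm_eq_abs, sq_abs]
    have h3 : (60 - 360 * (s : ℂ) + 360 * (s : ℂ) ^ 2) = ((60 - 360 * s + 360 * s ^ 2 : ℝ) : ℂ) := by
      push_cast; ring
    rw [h3, Complex.norm_real, Real.norm_eq_abs]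
    refine div_le_div_of_nonneg_right ?_ (sq_nonneg _)
    rw [abs_le]
    constructor
    · nlinarith [sq_nonneg (s - 1 / 2)]
    · nlinarith [hs.1, hs.2]
  have h4 := intervalIntegral.norm_integral_le_of_norm_le_const h2
  rw [sub_zero, abs_one, mul_one] at h4
  exact h4

end PHL

theorem t_PH : S_PH := by
  refine ⟨PHL.cont_ph, PHL.ph_le_one, PHL.ph_sub_one, 120, fun ξ => ?_⟩
  have hp : (0 : ℝ) < 1 + ξ ^ 2 := by positivity
  rcases le_total (ξ ^ 2) 1 with h | h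
  · refine (PHL.ph_le_one ξ).trans ?_
    rw [le_div_iff₀ hp]
    linarith
  · have hξ : ξ ≠ 0 := by
      rintro rfl
      norm_num at h
    refine (PHL.ph_decay hξ).trans ?_
    rw [div_le_div_iff₀ (by positivity) hp]
    linarith

end Pool.Agent.H203.HX
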