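import Pool.Agent.H203.HX.Defs
import Pool.Agent.H203.ME.CLT
import Pool.Agent.H203.ME.MOM

set_option autoImplicit false

/-! The quantitative central limit theorem for prime polynomials (helper122). -/

open Complex Filter Topology Set MeasureTheory

namespace Pool.Agent.H203.HX

open Pool.Agent.H203.ME (ee t_MOM)

namespace QCL

open Pool.Agent.H203.ME.CLTL

/-- the tail terms with `K ≥ 3 S0 + a + 2` -/
lemma tail_small {S0 y : ℝ} (hS : 0 ≤ S0) {K : ℕ} (hK : 3 * S0 + y + 2 ≤ K) (hy : 0 ≤ y) :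
    (S0 / 4) ^ K / K.factorial * (1 + Real.exp (S0 / 4)) ≤ Real.exp (-y) / 3 := by
  have h8 : Real.exp 2 ≤ 8 := by
    have h1 := Real.exp_one_lt_d9
    have h2 : Real.exp 2 = Real.exp 1 ^ 2 := by rw [← Real.exp_nat_mul]; norm_num
    rw [h2]
    calc Real.exp 1 ^ 2 ≤ 2.7182818286 ^ 2 := pow_le_pow_left₀ (Real.exp_pos 1).le h1.le 2
      _ ≤ 8 := by norm_num
  have h1 := Real.pow_div_factorial_le_exp (8 * (S0 / 4)) (by positivity) K
  rw [mul_pow, mul_div_assoc] at h1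
  have hf : (0 : ℝ) < K.factorial := by exact_mod_cast Nat.factorial_pos K
  have h2 : (Real.exp 2) ^ K ≤ 8 ^ K := pow_le_pow_left₀ (Real.exp_pos 2).le h8 K
  have h3 : 0 ≤ (S0 / 4) ^ K / K.factorial := by positivity
  have h4 : (Real.exp 2) ^ K * ((S0 / 4) ^ K / K.factorial) ≤ Real.exp (8 * (S0 / 4)) :=
    (mul_le_mul_of_nonneg_right h2 h3).trans h1
  have h5 : (S0 / 4) ^ K / K.factorial ≤ Real.exp (2 * S0 - 2 * K) := by
    rw [Real.exp_sub, le_div_iff₀ (Real.exp_pos _)]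
    have e1 : Real.exp (2 * (K : ℝ)) = (Real.exp 2) ^ K := by rw [← Real.exp_nat_mul]; congr 1; ring
    have e2 : 8 * (S0 / 4) = 2 * S0 := by ring
    rw [e1]
    rw [e2] at h4
    linarith
  have h6 : 1 + Real.exp (S0 / 4) ≤ 2 * Real.exp S0 := by
    have k1 : 1 ≤ Real.exp S0 := Real.one_le_exp hS
    have k2 : Real.exp (S0 / 4) ≤ Real.exp S0 := Real.exp_le_exp.2 (by linarith)
    linarith
  have h7 : 6 ≤ Real.exp 2 := by
    have h1 := Real.exp_one_gt_d9
    have h2 : Real.exp 2 = Real.exp 1 ^ 2 := by rw [← Real.exp_nat_mul]; norm_num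
    rw [h2]
    calc (6 : ℝ) ≤ 2.7182818283 ^ 2 := by norm_num
      _ ≤ Real.exp 1 ^ 2 := pow_le_pow_left₀ (by norm_num) h1.le 2
  calc (S0 / 4) ^ K / K.factorial * (1 + Real.exp (S0 / 4))
      ≤ Real.exp (2 * S0 - 2 * K) * (2 * Real.exp S0) := mul_le_mul h5 h6 (by positivity) (Real.exp_pos _).le
    _ = 2 * Real.exp (3 * S0 - 2 * K) := by
        have : Real.exp (2 * S0 - 2 * K) * (2 * Real.exp S0) = 2 * (Real.exp (2 * S0 - 2 * K) * Real.exp S0) := by ring
        rw [this, ← Real.exp_add]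
        congr 2
        ring
    _ ≤ 2 * Real.exp (-y - 2) := by
        have : Real.exp (3 * S0 - 2 * K) ≤ Real.exp (-y - 2) := Real.exp_le_exp.2 (by linarith)
        linarith
    _ ≤ Real.exp (-y) / 3 := by
        rw [Real.exp_sub, ← mul_div_assoc, div_le_div_iff₀ (Real.exp_pos _) (by norm_num)]
        have := Real.exp_pos (-y)
        nlinarith

/-- the parameters -/
lemma params {A δ : ℝ} (hA : 0 < A) (hδ : 0 < δ) : ∀ᶠ L : ℝ in atTop,
    3 ≤ L ∧ (1 ≤ Real.log L) ∧ (9 * A + 60) * (Real.log L) ^ (2 * A + 2) ≤ L ^ δ / 8 := by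
  have h1 := (isLittleO_log_rpow_rpow_atTop (2 * A + 2) hδ).bound
    (show (0 : ℝ) < 1 / (8 * (9 * A + 60)) by positivity)
  filter_upwards [h1, eventually_ge_atTop 3, eventually_ge_atTop (Real.exp 1)] with L h h3 he
  have hL : 0 < L := by linarith
  have hl : 1 ≤ Real.log L := by
    rw [← Real.log_exp 1]
    exact Real.log_le_log (Real.exp_pos _) he
  refine ⟨h3, hl, ?_⟩
  rw [Real.norm_of_nonneg (by positivity), Real.norm_of_nonneg (by positivity)] at h
  have h4 := mul_le_mul_of_nonneg_left h (show (0 : ℝ) ≤ 9 * A + 60 by positivity)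
  refine h4.trans (le_of_eq ?_)
  field_simp

end QCL

open QCL Pool.Agent.H203.ME.CLTL in
theorem t_QC : S_QC := by
  intro A δ hA hδ hδ1
  obtain ⟨L0, hL0⟩ := (eventually_atTop.1 (params hA hδ))
  refine ⟨max L0 3, le_max_right _ _, ?_⟩
  intro T L hT hL hLT N b hN hb hS
  obtain ⟨hL3, hl1, hpar⟩ := hL0 L ((le_max_left _ _).trans hL)
  have hLp : 0 < L := by linarith
  have hTpos : 0 < T := by linarith
  obtain ⟨l, hl⟩ : ∃ l, l = Real.log L := ⟨_, rfl⟩
  rw [← hl] at hl1 hpar hS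
  obtain ⟨S0, hS0⟩ : ∃ S0, S0 = l ^ A := ⟨_, rfl⟩
  rw [← hS0] at hS
  have hS0n : 0 ≤ S0 := by rw [hS0]; positivity
  obtain ⟨Q, hQ⟩ : ∃ Q, Q = l ^ (2 * A + 2) := ⟨_, rfl⟩
  rw [← hQ] at hpar
  have hQ1 : 1 ≤ Q := by rw [hQ]; exact Real.one_le_rpow hl1 (by positivity)
  have hlQ : l ≤ Q := by
    rw [hQ]
    calc l = l ^ (1 : ℝ) := (Real.rpow_one l).symm
      _ ≤ l ^ (2 * A + 2) := Real.rpow_le_rpow_of_exponent_le hl1 (by linarith)
  have hSQ : S0 ≤ Q := by
    rw [hQ, hS0]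
    exact Real.rpow_le_rpow_of_exponent_le hl1 (by linarith)
  have hSSQ : S0 * S0 ≤ Q := by
    rw [hQ, hS0, ← Real.rpow_add (by linarith)]
    exact Real.rpow_le_rpow_of_exponent_le hl1 (by linarith)
  have hlSQ : l * S0 ≤ Q := by
    have e : l * l ^ A = l ^ (1 + A) := by
      rw [Real.rpow_add (by linarith), Real.rpow_one]
    rw [hQ, hS0, e]
    exact Real.rpow_le_rpow_of_exponent_le hl1 (by linarith)
  obtain ⟨K, hK⟩ : ∃ K : ℕ, K = ⌈3 * S0 + A * l + 2⌉₊ := ⟨_, rfl⟩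
  have hK1 : 3 * S0 + A * l + 2 ≤ K := by rw [hK]; exact Nat.le_ceil _
  have hK2 : (K : ℝ) ≤ 3 * S0 + A * l + 3 := by
    rw [hK]
    have := (Nat.ceil_lt_add_one (show 0 ≤ 3 * S0 + A * l + 2 by positivity)).le
    linarith
  have hAl : A * l ≤ A * Q := mul_le_mul_of_nonneg_left hlQ hA.le
  have hKQ : (K : ℝ) ≤ (A + 6) * Q := by nlinarith
  have hKS : (K : ℝ) * S0 ≤ (A + 6) * Q := by
    have k1 : (K : ℝ) * S0 ≤ (3 * S0 + A * l + 3) * S0 := mul_le_mul_of_nonneg_right hK2 hS0n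
    have k2 : A * (l * S0) ≤ A * Q := mul_le_mul_of_nonneg_left hlSQ hA.le
    nlinarith
  have hLA : L ^ (-A) = Real.exp (-(A * l)) := by
    rw [Real.rpow_def_of_pos hLp, hl]
    congr 1
    ring
  obtain ⟨D, hD⟩ : ∃ D, D = L ^ δ := ⟨_, rfl⟩
  rw [← hD] at hpar hb
  have hDp : 0 < D := by rw [hD]; positivity
  have hDL : D ≤ L := by
    rw [hD]
    calc L ^ δ ≤ L ^ (1 : ℝ) := Real.rpow_le_rpow_of_exponent_le (by linarith) hδ1.le
      _ = L := Real.rpow_one L
  have hbig : 6 * (K : ℝ) + 2 * (K * S0) + A * l + 4 ≤ D / 8 := by nlinarith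
  -- `θ`
  obtain ⟨θ, hθ⟩ : ∃ θ, θ = Real.exp (-(D / 4)) := ⟨_, rfl⟩
  rw [← hθ] at hb
  have hθ0 : 0 ≤ θ := by rw [hθ]; exact (Real.exp_pos _).le
  have hθ1 : θ ≤ 1 := by rw [hθ]; exact Real.exp_le_one_iff.2 (by linarith)
  -- replace `N` by `max N 1`
  have hfil : (Finset.Icc 1 (max N 1)).filter Nat.Prime = (Finset.Icc 1 N).filter Nat.Prime := by
    ext p
    simp only [Finset.mem_filter, Finset.mem_Icc]
    constructor
    · rintro ⟨⟨h1, h2⟩, h3⟩
      refine ⟨⟨h1, ?_⟩, h3⟩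
      rcases le_max_iff.1 h2 with h4 | h4
      · exact h4
      · have := h3.two_le
        omega
    · rintro ⟨⟨h1, h2⟩, h3⟩
      exact ⟨⟨h1, h2.trans (le_max_left _ _)⟩, h3⟩
  have hAA : ∀ t, ∑ p ∈ (Finset.Icc 1 N).filter Nat.Prime, b p * ee p t = AA (max N 1) b t := by
    intro t
    unfold AA
    rw [hfil]
  have hSS : ∑ p ∈ (Finset.Icc 1 N).filter Nat.Prime, ‖b p‖ ^ 2 = SS (max N 1) b := by
    unfold SS
    rw [hfil]
  simp_rw [hAA]
  rw [hSS] at hS ⊢
  have hSn := SS_nonneg (max N 1) b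
  have hM := char_le t_MOM (max N 1) b θ T S0 (le_max_right _ _) hθ0 hθ1 hT.le hb hS K
  have hexp : ‖cexp (-((SS (max N 1) b : ℝ) : ℂ) / 4) -
      ∑ q ∈ Finset.range K, (-(SS (max N 1) b : ℂ) / 4) ^ q / (q.factorial : ℂ)‖ ≤
      (S0 / 4) ^ K / K.factorial * Real.exp (S0 / 4) := by
    have h1 := Complex.norm_exp_sub_sum_le_exp_norm_sub_sum (-((SS (max N 1) b : ℝ) : ℂ) / 4) K
    have h2 : ‖(-((SS (max N 1) b : ℝ) : ℂ) / 4)‖ = SS (max N 1) b / 4 := by
      rw [norm_div, norm_neg, Complex.norm_real, Real.norm_of_nonneg hSn]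
      norm_num
    rw [h2] at h1
    refine h1.trans ((tail_exp _ (by positivity) K).trans ?_)
    have h3 : (SS (max N 1) b / 4) ^ K ≤ (S0 / 4) ^ K := pow_le_pow_left₀ (by positivity) (by linarith) K
    have h4 : Real.exp (SS (max N 1) b / 4) ≤ Real.exp (S0 / 4) := Real.exp_le_exp.2 (by linarith)
    gcongr
  have htri := norm_sub_le_norm_sub_add_norm_sub
    ((1 / T : ℂ) * (∫ t in T..(2 * T), cexp (I * ((AA (max N 1) b t).re : ℂ))))
    (∑ q ∈ Finset.range K, (-(SS (max N 1) b : ℂ) / 4) ^ q / (q.factorial : ℂ))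
    (cexp (-((SS (max N 1) b : ℝ) : ℂ) / 4))
  rw [norm_sub_rev (∑ q ∈ Finset.range K, _)] at htri
  refine htri.trans ?_
  -- the three error terms
  have t1 := tail_small (y := A * l) hS0n hK1 (by positivity)
  have hKe : 2 * (K : ℝ) + 1 ≤ Real.exp (2 * K) := Real.add_one_le_exp _
  have t2 : (2 * (K : ℝ) + 1) * ((2 * K) ^ 2 * θ ^ 2 * (1 + S0) ^ (2 * K)) ≤ Real.exp (-(A * l)) / 3 := by
    have k1 : (2 * (K : ℝ)) ^ 2 ≤ Real.exp (2 * K) ^ 2 := pow_le_pow_left₀ (by positivity) (by linarith) 2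
    have k2 : (1 + S0) ^ (2 * K) ≤ Real.exp S0 ^ (2 * K) :=
      pow_le_pow_left₀ (by positivity) (by have := Real.add_one_le_exp S0; linarith) _
    have k3 : θ ^ 2 = Real.exp (-(D / 2)) := by
      rw [hθ, ← Real.exp_nat_mul]
      congr 1
      push_cast
      ring
    calc (2 * (K : ℝ) + 1) * ((2 * K) ^ 2 * θ ^ 2 * (1 + S0) ^ (2 * K))
        ≤ Real.exp (2 * K) * (Real.exp (2 * K) ^ 2 * Real.exp (-(D / 2)) * Real.exp S0 ^ (2 * K)) := by
          rw [k3]
          gcongr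
      _ = Real.exp (6 * K + 2 * (K * S0) - D / 2) := by
          rw [← Real.exp_nat_mul, ← Real.exp_nat_mul, ← Real.exp_add, ← Real.exp_add, ← Real.exp_add]
          congr 1
          push_cast
          ring
      _ ≤ Real.exp (-(A * l) - 2) := Real.exp_le_exp.2 (by linarith)
      _ ≤ Real.exp (-(A * l)) / 3 := by
          have h2 : 3 ≤ Real.exp 2 := by
            have := Real.add_one_le_exp 2
            linarith
          rw [Real.exp_sub, div_le_div_iff₀ (Real.exp_pos _) (by norm_num)]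
          have := Real.exp_pos (-(A * l))
          nlinarith
  have t3 : (2 * (K : ℝ) + 1) * (2 * ((max N 1 : ℕ) : ℝ) ^ (4 * K) / T) ≤ Real.exp (-(A * l)) / 3 := by
    have hD1 : L ^ (-δ) = 1 / D := by rw [hD, Real.rpow_neg hLp.le, one_div]
    have hlT : 0 < Real.log T := by linarith
    have k1 : ((max N 1 : ℕ) : ℝ) ≤ Real.exp (1 / D * Real.log T) := by
      rw [Nat.cast_max, Nat.cast_one, ← hD1]
      exact max_le hN (Real.one_le_exp (by positivity))
    have k2 : ((max N 1 : ℕ) : ℝ) ^ (4 * K) ≤ Real.exp (Real.log T / 2) := by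
      calc ((max N 1 : ℕ) : ℝ) ^ (4 * K) ≤ Real.exp (1 / D * Real.log T) ^ (4 * K) :=
            pow_le_pow_left₀ (Nat.cast_nonneg _) k1 _
        _ = Real.exp (4 * K / D * Real.log T) := by
            rw [← Real.exp_nat_mul]
            congr 1
            push_cast
            ring
        _ ≤ Real.exp (Real.log T / 2) := by
            refine Real.exp_le_exp.2 ?_
            have k3 : 4 * (K : ℝ) / D ≤ 1 / 2 := by
              rw [div_le_iff₀ hDp]
              have : 0 ≤ 2 * ((K : ℝ) * S0) + A * l := by positivity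
              linarith
            calc 4 * (K : ℝ) / D * Real.log T ≤ 1 / 2 * Real.log T := mul_le_mul_of_nonneg_right k3 hlT.le
              _ = Real.log T / 2 := by ring
    have k4 : 2 * ((max N 1 : ℕ) : ℝ) ^ (4 * K) / T ≤ 2 * Real.exp (-(Real.log T / 2)) := by
      have e3 : Real.exp (-(Real.log T / 2)) * T = Real.exp (Real.log T / 2) := by
        calc Real.exp (-(Real.log T / 2)) * T = Real.exp (-(Real.log T / 2)) * Real.exp (Real.log T) := by
              rw [Real.exp_log hTpos]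
          _ = Real.exp (Real.log T / 2) := by
              rw [← Real.exp_add]
              congr 1
              ring
      rw [div_le_iff₀ hTpos, mul_assoc, e3]
      linarith
    have k5 : Real.exp (-(Real.log T / 2)) ≤ Real.exp (-(L / 2)) := Real.exp_le_exp.2 (by linarith)
    calc (2 * (K : ℝ) + 1) * (2 * ((max N 1 : ℕ) : ℝ) ^ (4 * K) / T)
        ≤ Real.exp (2 * K) * (2 * Real.exp (-(L / 2))) := by
          refine mul_le_mul hKe (k4.trans (by linarith)) (by positivity) (Real.exp_pos _).le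
      _ = 2 * Real.exp (2 * K - L / 2) := by
          have : Real.exp (2 * (K : ℝ)) * (2 * Real.exp (-(L / 2))) = 2 * (Real.exp (2 * K) * Real.exp (-(L / 2))) := by
            ring
          rw [this, ← Real.exp_add]
          congr 2
      _ ≤ 2 * Real.exp (-(A * l) - 2) := by
          have : 2 * (K : ℝ) - L / 2 ≤ -(A * l) - 2 := by
            have : 0 ≤ 4 * (K : ℝ) + 2 * ((K : ℝ) * S0) := by positivity
            linarith
          have := Real.exp_le_exp.2 this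
          linarith
      _ ≤ Real.exp (-(A * l)) / 3 := by
          have h7 : 6 ≤ Real.exp 2 := by
            have h1 := Real.exp_one_gt_d9
            have h2 : Real.exp 2 = Real.exp 1 ^ 2 := by rw [← Real.exp_nat_mul]; norm_num
            rw [h2]
            calc (6 : ℝ) ≤ 2.7182818283 ^ 2 := by norm_num
              _ ≤ Real.exp 1 ^ 2 := pow_le_pow_left₀ (by norm_num) h1.le 2
          rw [Real.exp_sub, ← mul_div_assoc, div_le_div_iff₀ (Real.exp_pos _) (by norm_num)]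
          have := Real.exp_pos (-(A * l))
          nlinarith
  rw [hLA]
  have e1 : (2 * (K : ℝ) + 1) * ((2 * K) ^ 2 * θ ^ 2 * (1 + S0) ^ (2 * K) +
      2 * ((max N 1 : ℕ) : ℝ) ^ (4 * K) / T) =
      (2 * (K : ℝ) + 1) * ((2 * K) ^ 2 * θ ^ 2 * (1 + S0) ^ (2 * K)) +
        (2 * K + 1) * (2 * ((max N 1 : ℕ) : ℝ) ^ (4 * K) / T) := by
    ring
  rw [e1] at hM
  have e2 : (S0 / 4) ^ K / K.factorial * (1 + Real.exp (S0 / 4)) =
    (S0 / 4) ^ K / K.factorial + (S0 / 4) ^ K / K.factorial * Real.exp (S0 / 4) := by ring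
  rw [e2] at t1
  linarith

end Pool.Agent.H203.HX
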