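import Pool.Agent.H203.HX.Defs
import Pool.Agent.H203.ME.BBI

set_option autoImplicit false

/-! The prime side of the smoothed counts as a difference. -/

open Complex Filter Topology Set MeasureTheory

namespace Pool.Agent.H203.HX

open Pool.Agent.H203.ME (ee gR WR cR om FF KF C2c w1)
open Pool.Agent.H203.GE (Lf ZG XG BG NWG)

namespace QIL

/-- the clamp -/
noncomputable def cl (y : ℝ) : ℝ := max 0 (min y 1)

lemma cl_cont : Continuous cl := by unfold cl; fun_prop

lemma cl_neg {y : ℝ} (h : y ≤ 0) : cl y = 0 := by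
  unfold cl
  exact max_eq_left (min_le_of_left_le h)

lemma cl_mid {y : ℝ} (h0 : 0 ≤ y) (h1 : y ≤ 1) : cl y = y := by
  unfold cl
  rw [min_eq_left h1, max_eq_right h0]

lemma cl_one {y : ℝ} (h : 1 ≤ y) : cl y = 1 := by
  unfold cl
  rw [min_eq_right h, max_eq_right zero_le_one]

/-- the derivative of `Ps` -/
noncomputable def ps (y : ℝ) : ℝ := 30 * (cl y) ^ 2 * (1 - cl y) ^ 2

lemma ps_cont : Continuous ps := by
  have := cl_cont
  unfold ps
  fun_prop

lemma ps_neg {y : ℝ} (h : y ≤ 0) : ps y = 0 := by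
  unfold ps
  rw [cl_neg h]
  ring

lemma ps_one {y : ℝ} (h : 1 ≤ y) : ps y = 0 := by
  unfold ps
  rw [cl_one h]
  ring

lemma ps_mid {y : ℝ} (h0 : 0 ≤ y) (h1 : y ≤ 1) : ps y = 30 * y ^ 2 * (1 - y) ^ 2 := by
  unfold ps
  rw [cl_mid h0 h1]

lemma pol_int (y : ℝ) : ∫ s in (0 : ℝ)..y, 30 * s ^ 2 * (1 - s) ^ 2 =
    10 * y ^ 3 - 15 * y ^ 4 + 6 * y ^ 5 := by
  have hd : ∀ s : ℝ, HasDerivAt (fun s : ℝ => 10 * s ^ 3 - 15 * s ^ 4 + 6 * s ^ 5)
      (30 * s ^ 2 * (1 - s) ^ 2) s := by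
    intro s
    have h := (((hasDerivAt_pow 3 s).const_mul 10).sub ((hasDerivAt_pow 4 s).const_mul 15)).add
      ((hasDerivAt_pow 5 s).const_mul 6)
    refine h.congr_deriv ?_
    push_cast
    ring
  rw [intervalIntegral.integral_eq_sub_of_hasDerivAt (fun s _ => hd s)
    ((by fun_prop : Continuous fun s : ℝ => 30 * s ^ 2 * (1 - s) ^ 2).intervalIntegrable _ _)]
  ring

lemma Ps_cl (y : ℝ) : Ps y = 10 * (cl y) ^ 3 - 15 * (cl y) ^ 4 + 6 * (cl y) ^ 5 := rfl

lemma Ps_neg {y : ℝ} (h : y ≤ 0) : Ps y = 0 := by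
  rw [Ps_cl, cl_neg h]; ring

lemma Ps_one {y : ℝ} (h : 1 ≤ y) : Ps y = 1 := by
  rw [Ps_cl, cl_one h]; ring

lemma int_mid {y : ℝ} (h0 : 0 ≤ y) (h1 : y ≤ 1) : ∫ s in (0 : ℝ)..y, ps s =
    10 * y ^ 3 - 15 * y ^ 4 + 6 * y ^ 5 := by
  rw [← pol_int y]
  apply intervalIntegral.integral_congr
  intro s hs
  rw [uIcc_of_le h0] at hs
  exact ps_mid hs.1 (hs.2.trans h1)

lemma Ps_eq (y : ℝ) : Ps y = ∫ s in (0 : ℝ)..y, ps s := by
  rcases le_total y 0 with h | h
  · rw [Ps_neg h]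
    have h1 : ∫ s in (0 : ℝ)..y, ps s = ∫ s in (0 : ℝ)..y, (0 : ℝ) := by
      apply intervalIntegral.integral_congr
      intro s hs
      rw [uIcc_of_ge h] at hs
      exact ps_neg hs.2
    rw [h1]
    simp
  · rcases le_total y 1 with h1 | h1
    · rw [int_mid h h1, Ps_cl, cl_mid h h1]
    · rw [← intervalIntegral.integral_add_adjacent_intervals
        (ps_cont.intervalIntegrable 0 1) (ps_cont.intervalIntegrable 1 y),
        int_mid zero_le_one le_rfl, Ps_one h1]
      have h2 : ∫ s in (1 : ℝ)..y, ps s = ∫ s in (1 : ℝ)..y, (0 : ℝ) := by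
        apply intervalIntegral.integral_congr
        intro s hs
        rw [uIcc_of_le h1] at hs
        exact ps_one hs.1
      rw [h2]
      norm_num

lemma Ps_deriv (y : ℝ) : HasDerivAt Ps (ps y) y := by
  have h : Ps = fun y => ∫ s in (0 : ℝ)..y, ps s := funext Ps_eq
  rw [h]
  exact intervalIntegral.integral_hasDerivAt_right (ps_cont.intervalIntegrable _ _)
    (ps_cont.stronglyMeasurableAtFilter _ _) ps_cont.continuousAt

/-- the derivative of `Gs w a` -/
noncomputable def gs (w a y : ℝ) : ℝ := ps (y / w) / w - ps ((y - a) / w) / w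

lemma gs_cont (w a : ℝ) : Continuous (gs w a) := by
  have := ps_cont
  unfold gs
  fun_prop

lemma Gs_deriv (w a y : ℝ) : HasDerivAt (Gs w a) (gs w a y) y := by
  have h1 : HasDerivAt (fun y : ℝ => Ps (y / w)) (ps (y / w) * (1 / w)) y := by
    have := HasDerivAt.comp y (Ps_deriv (y / w)) ((hasDerivAt_id' y).div_const w)
    exact this
  have h2 : HasDerivAt (fun y : ℝ => Ps ((y - a) / w)) (ps ((y - a) / w) * (1 / w)) y := by
    have := HasDerivAt.comp y (Ps_deriv ((y - a) / w))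
      (((hasDerivAt_id' y).sub_const a).div_const w)
    exact this
  refine (h1.sub h2).congr_deriv ?_
  unfold gs
  ring

lemma Gs_cont (w a : ℝ) : Continuous (Gs w a) :=
  continuous_iff_continuousAt.2 fun y => (Gs_deriv w a y).continuousAt

lemma Gs_left {w a y : ℝ} (hw : 0 < w) (ha : 0 ≤ a) (h : y ≤ 0) : Gs w a y = 0 := by
  unfold Gs
  rw [Ps_neg (div_nonpos_of_nonpos_of_nonneg h hw.le),
    Ps_neg (div_nonpos_of_nonpos_of_nonneg (by linarith) hw.le), sub_zero]

lemma Gs_right {w a y : ℝ} (hw : 0 < w) (ha : 0 ≤ a) (h : a + w ≤ y) : Gs w a y = 0 := by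
  unfold Gs
  rw [Ps_one ((one_le_div hw).2 (by linarith)), Ps_one ((one_le_div hw).2 (by linarith)), sub_self]

lemma gs_left {w a y : ℝ} (hw : 0 < w) (ha : 0 ≤ a) (h : y ≤ 0) : gs w a y = 0 := by
  unfold gs
  rw [ps_neg (div_nonpos_of_nonpos_of_nonneg h hw.le),
    ps_neg (div_nonpos_of_nonpos_of_nonneg (by linarith) hw.le), sub_self]

lemma gs_right {w a y : ℝ} (hw : 0 < w) (ha : 0 ≤ a) (h : a + w ≤ y) : gs w a y = 0 := by
  unfold gs
  rw [ps_one ((one_le_div hw).2 (by linarith)), ps_one ((one_le_div hw).2 (by linarith)), sub_self]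

lemma int_of {f : ℝ → ℝ} {A : ℝ} (hf : Continuous f) (h0 : ∀ y ≤ 0, f y = 0)
    (h1 : ∀ y, A ≤ y → f y = 0) {g : ℝ → ℂ} (hg : Continuous g) :
    Integrable (fun y => (f y : ℂ) * g y) := by
  apply Continuous.integrable_of_hasCompactSupport
  · exact (continuous_ofReal.comp hf).mul hg
  · apply HasCompactSupport.of_support_subset_isCompact (isCompact_Icc (a := (0 : ℝ)) (b := A))
    intro y hy
    rw [Function.mem_support] at hy
    constructor
    · by_contra hc
      push Not at hc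
      exact hy (by rw [h0 y hc.le]; simp)
    · by_contra hc
      push Not at hc
      exact hy (by rw [h1 y hc.le]; simp)

/-- the exponential -/
noncomputable def ex (ξ s : ℝ) : ℂ := cexp (-(((ξ * s : ℝ) : ℂ) * I))

lemma ex_cont (ξ : ℝ) : Continuous (ex ξ) := by
  unfold ex
  fun_prop

lemma ex_add (ξ s t : ℝ) : ex ξ (s + t) = ex ξ s * ex ξ t := by
  unfold ex
  rw [← Complex.exp_add]
  congr 1
  push_cast
  ring

lemma ex_deriv (ξ s : ℝ) : HasDerivAt (ex ξ) (-(ξ * I) * ex ξ s) s := by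
  have h1 : HasDerivAt (fun s : ℝ => -(((ξ * s : ℝ) : ℂ) * I)) (-(((ξ : ℝ) : ℂ) * I)) s := by
    have h2 : HasDerivAt (fun s : ℝ => ((ξ * s : ℝ) : ℂ)) ((ξ : ℝ) : ℂ) s := by
      have := (((hasDerivAt_id s).const_mul ξ).ofReal_comp)
      simpa using this
    exact (h2.mul_const I).neg
  have h3 := h1.cexp
  unfold ex
  refine h3.congr_deriv ?_
  ring

lemma ph_eq (w ξ : ℝ) : ph (w * ξ) = ∫ v : ℝ, (ps v : ℂ) * ex (w * ξ) v := by
  have h : ∫ v in Ioc (0 : ℝ) 1, (ps v : ℂ) * ex (w * ξ) v = ∫ v : ℝ, (ps v : ℂ) * ex (w * ξ) v := by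
    apply setIntegral_eq_integral_of_forall_compl_eq_zero
    intro v hv
    rw [mem_Ioc, not_and_or, not_lt, not_le] at hv
    rcases hv with hv | hv
    · rw [ps_neg hv]; simp
    · rw [ps_one hv.le]; simp
  unfold ph
  rw [intervalIntegral.integral_of_le zero_le_one, ← h]
  apply setIntegral_congr_fun measurableSet_Ioc
  intro v hv
  simp only
  rw [ps_mid hv.1.le hv.2, ex]

lemma sub0 {w : ℝ} (hw : 0 < w) (ξ : ℝ) :
    ∫ s : ℝ, ((ps (s / w) / w : ℝ) : ℂ) * ex ξ s = ph (w * ξ) := by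
  rw [ph_eq]
  have h1 := MeasureTheory.Measure.integral_comp_div
    (fun v : ℝ => ((ps v / w : ℝ) : ℂ) * ex (w * ξ) v) w
  have h2 : (fun s : ℝ => ((ps (s / w) / w : ℝ) : ℂ) * ex ξ s) =
      fun s : ℝ => ((ps (s / w) / w : ℝ) : ℂ) * ex (w * ξ) (s / w) := by
    funext s
    have : ex (w * ξ) (s / w) = ex ξ s := by
      unfold ex
      congr 4
      field_simp
    rw [this]
  rw [h2, h1, abs_of_pos hw, ← integral_smul]
  refine integral_congr_ae (Eventually.of_forall fun v => ?_)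
  have hwc : (w : ℂ) ≠ 0 := by exact_mod_cast hw.ne'
  simp only [real_smul]
  push_cast
  field_simp

lemma sub1 {w : ℝ} (hw : 0 < w) (a ξ : ℝ) :
    ∫ s : ℝ, ((ps ((s - a) / w) / w : ℝ) : ℂ) * ex ξ s = ex ξ a * ph (w * ξ) := by
  rw [← sub0 hw]
  have h1 := integral_sub_right_eq_self (μ := (volume : Measure ℝ))
    (fun s : ℝ => ((ps (s / w) / w : ℝ) : ℂ) * (ex ξ a * ex ξ s)) a
  have h2 : (fun s : ℝ => ((ps ((s - a) / w) / w : ℝ) : ℂ) * ex ξ s) =
      fun s : ℝ => ((ps ((s - a) / w) / w : ℝ) : ℂ) * (ex ξ a * ex ξ (s - a)) := by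
    funext s
    rw [← ex_add, add_sub_cancel]
  rw [h2, h1, ← integral_const_mul]
  refine integral_congr_ae (Eventually.of_forall fun v => ?_)
  simp only
  ring

lemma ff_eq {w a ξ : ℝ} (hw : 0 < w) (ha : 0 ≤ a) (hξ : ξ ≠ 0) :
    FF (Gs w a) ξ = (1 - ex ξ a) * (-I / ξ) * ph (w * ξ) := by
  have hξc : (ξ : ℂ) ≠ 0 := by exact_mod_cast hξ
  have hu : ∀ s, HasDerivAt (fun s => (Gs w a s : ℂ)) (gs w a s : ℂ) s :=
    fun s => (Gs_deriv w a s).ofReal_comp
  have hv : ∀ s, HasDerivAt (fun s => (I / ξ) * ex ξ s) (ex ξ s) s := by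
    intro s
    refine ((ex_deriv ξ s).const_mul (I / ξ)).congr_deriv ?_
    have : I / (ξ : ℂ) * (-(ξ * I) * ex ξ s) = -(I * I) * ex ξ s := by
      field_simp
    rw [this, I_mul_I]
    ring
  have hvc : Continuous (fun s => (I / ξ) * ex ξ s) := continuous_const.mul (ex_cont ξ)
  have hib := MeasureTheory.integral_mul_deriv_eq_deriv_mul_of_integrable
    (fun s _ => hu s) (fun s _ => hv s)
    (int_of (A := a + w) (Gs_cont w a) (fun y hy => Gs_left hw ha hy)
      (fun y hy => Gs_right hw ha hy) (ex_cont ξ))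
    (int_of (A := a + w) (gs_cont w a) (fun y hy => gs_left hw ha hy)
      (fun y hy => gs_right hw ha hy) hvc)
    (int_of (A := a + w) (Gs_cont w a) (fun y hy => Gs_left hw ha hy)
      (fun y hy => Gs_right hw ha hy) hvc)
  have h1 : FF (Gs w a) ξ = ∫ s : ℝ, (Gs w a s : ℂ) * ex ξ s := rfl
  rw [h1, hib]
  have h2 : (∫ s : ℝ, (gs w a s : ℂ) * ((I / ξ) * ex ξ s)) =
      (I / ξ) * ((∫ s : ℝ, ((ps (s / w) / w : ℝ) : ℂ) * ex ξ s) -
        ∫ s : ℝ, ((ps ((s - a) / w) / w : ℝ) : ℂ) * ex ξ s) := by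
    rw [← integral_sub, ← integral_const_mul]
    · refine integral_congr_ae (Eventually.of_forall fun s => ?_)
      simp only [gs]
      push_cast
      ring
    · refine int_of (A := w) (f := fun s => ps (s / w) / w) ?_ ?_ ?_ (ex_cont ξ)
      · have := ps_cont
        fun_prop
      · intro y hy
        rw [ps_neg (div_nonpos_of_nonpos_of_nonneg hy hw.le), zero_div]
      · intro y hy
        rw [ps_one ((one_le_div hw).2 hy), zero_div]
    · refine int_of (A := a + w) (f := fun s => ps ((s - a) / w) / w) ?_ ?_ ?_ (ex_cont ξ)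
      · have := ps_cont
        fun_prop
      · intro y hy
        rw [ps_neg (div_nonpos_of_nonpos_of_nonneg (by linarith) hw.le), zero_div]
      · intro y hy
        rw [ps_one ((one_le_div hw).2 (by linarith)), zero_div]
  rw [h2, sub0 hw, sub1 hw]
  field_simp

lemma norm_ee (n : ℕ) (t : ℝ) : ‖ee n t‖ = 1 := by
  unfold ee
  rw [← neg_mul, ← ofReal_neg, norm_exp_ofReal_mul_I]

lemma ee_add (n : ℕ) (t a : ℝ) : ee n (t + a) = ee n t * ex (Real.log n) a := by
  unfold ee ex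
  rw [← Complex.exp_add]
  congr 1
  push_cast
  ring

/-- the terms of `Qs` -/
noncomputable def qq (u : ℕ → ℂ) (w R t : ℝ) (n : ℕ) : ℂ :=
  ((ArithmeticFunction.vonMangoldt n / (Real.sqrt n * Real.log n) * cR R (Real.log n) : ℝ) : ℂ) *
    (-I * ph (w * Real.log n)) * (u n * ee n t)

lemma qq_sum (hP : S_PH) {u : ℕ → ℂ} (hu : ∀ n, ‖u n‖ ≤ 1) (w t : ℝ) {R : ℝ} (hR : 1 ≤ R) :
    Summable (qq u w R t) := by
  have hs := (Pool.Agent.H203.ME.BBIL.coef_summable hR).mul_right (1 / Real.log 2)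
  refine Summable.of_norm_bounded hs fun n => ?_
  have hl2 : 0 < Real.log 2 := Real.log_pos (by norm_num)
  have h1 : ‖qq u w R t n‖ ≤ |ArithmeticFunction.vonMangoldt n / (Real.sqrt n * Real.log n) *
      cR R (Real.log n)| := by
    unfold qq
    rw [norm_mul, norm_mul, norm_mul, norm_mul, norm_neg, norm_I, norm_ee, norm_real,
      Real.norm_eq_abs, one_mul, mul_one]
    have h2 := hP.2.1 (w * Real.log n)
    have h3 := hu n
    have h4 : ‖ph (w * Real.log n)‖ * ‖u n‖ ≤ 1 :=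
      mul_le_one₀ h2 (norm_nonneg _) h3
    rw [mul_assoc]
    exact mul_le_of_le_one_right (abs_nonneg _) h4
  refine h1.trans ?_
  rcases lt_or_ge n 2 with hn | hn
  · have h0 : ArithmeticFunction.vonMangoldt n = 0 := by
      interval_cases n <;> simp
    rw [h0]
    simp
  · have hn' : (2 : ℝ) ≤ n := by exact_mod_cast hn
    have hln : Real.log 2 ≤ Real.log n := Real.log_le_log (by norm_num) hn'
    have hln0 : 0 < Real.log n := lt_of_lt_of_le hl2 hln
    have e : ArithmeticFunction.vonMangoldt n / (Real.sqrt n * Real.log n) * cR R (Real.log n) =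
        (ArithmeticFunction.vonMangoldt n / Real.sqrt n * cR R (Real.log n)) *
          (1 / Real.log n) := by
      field_simp
    rw [e, abs_mul, abs_of_pos (by positivity : 0 < 1 / Real.log n)]
    exact mul_le_mul_of_nonneg_left (one_div_le_one_div_of_le hl2 hln) (abs_nonneg _)

end QIL

open QIL in
theorem t_QI (hP : S_PH) : S_QI := by
  refine ⟨fun w a ξ hw ha hξ => ff_eq hw ha hξ, ?_⟩
  intro u hu w a R t hw ha hR
  have h1 : ∀ n : ℕ, ((ArithmeticFunction.vonMangoldt n / Real.sqrt n * cR R (Real.log n) : ℝ) : ℂ) *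
      FF (Gs w a) (Real.log n) * (u n * ee n t) = qq u w R t n - qq u w R (t + a) n := by
    intro n
    unfold qq
    rcases lt_or_ge n 2 with hn | hn
    · have h0 : ArithmeticFunction.vonMangoldt n = 0 := by
        interval_cases n <;> simp
      rw [h0]
      simp
    · have hn' : (2 : ℝ) ≤ n := by exact_mod_cast hn
      have hln0 : 0 < Real.log n := Real.log_pos (by linarith)
      have hlc : ((Real.log n : ℝ) : ℂ) ≠ 0 := by exact_mod_cast hln0.ne'
      have hsq : 0 < Real.sqrt n := Real.sqrt_pos.2 (by linarith)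
      have hsc : ((Real.sqrt n : ℝ) : ℂ) ≠ 0 := by exact_mod_cast hsq.ne'
      rw [ff_eq hw ha hln0.ne', ee_add]
      push_cast
      field_simp
      ring
  unfold BG Qs
  rw [tsum_congr h1, (qq_sum hP hu w t hR).tsum_sub (qq_sum hP hu w (t + a) hR), sub_re, mul_sub]
  rfl

end Pool.Agent.H203.HX
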