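import Pool.Agent.H203.HX.Defs

set_option autoImplicit false

/-! (RS) the rest is small at each pair of points with overwhelming probability (by helper168). -/

open Complex Filter Topology Set MeasureTheory

namespace Pool.Agent.H203.HX

open Pool.Agent.H203.ME (ee gR WR cR om FF KF C2c w1)

namespace RSL

open ArithmeticFunction
open Pool.Agent.H203.ME (PRML.kap PRML.Z1)

lemma ee_add (n : ℕ) (x y : ℝ) : ee n (x + y) = ee n x * ee n y := by
  unfold ee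
  rw [← Complex.exp_add]
  congr 1
  push_cast
  ring

lemma norm_ee (n : ℕ) (x : ℝ) : ‖ee n x‖ = 1 := by
  unfold ee
  rw [← neg_mul, ← Complex.ofReal_neg, Complex.norm_exp_ofReal_mul_I]

lemma cont_ee (n : ℕ) : Continuous (ee n) := by
  unfold ee
  fun_prop

lemma ee_sq (p : ℕ) (t : ℝ) : ee (p ^ 2) t = ee p (2 * t) := by
  unfold ee
  congr 3
  push_cast
  rw [Real.log_pow]
  push_cast
  ring

lemma dd_le_two (n : ℕ) (x x' : ℝ) : ‖ee n x - ee n x'‖ ≤ 2 := by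
  refine (norm_sub_le _ _).trans ?_
  rw [norm_ee, norm_ee]
  norm_num

lemma dd_le (n : ℕ) (x x' : ℝ) : ‖ee n x - ee n x'‖ ≤ |x - x'| * Real.log n := by
  have h1 : ee n x - ee n x' = ee n x' * (cexp (I * ((-((x - x') * Real.log n) : ℝ) : ℂ)) - 1) := by
    unfold ee
    rw [mul_sub, mul_one, ← Complex.exp_add]
    congr 2
    push_cast
    ring
  rw [h1, norm_mul, norm_ee, one_mul]
  refine (Real.norm_exp_I_mul_ofReal_sub_one_le).trans ?_
  rw [Real.norm_eq_abs, abs_neg, abs_mul, abs_of_nonneg (Real.log_natCast_nonneg n)]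

lemma kap_le_pi (R x : ℝ) (hR : 0 < R) : PRML.kap R x ≤ 1 / Real.pi := by
  have h1 := ME.PRML.kap_diff R x hR.le
  have h2 : 0 ≤ ∫ u : ℝ, ME.PRML.hh R x u := integral_nonneg fun u => ME.PRML.hh_nonneg R x u hR
  have h4 : 0 ≤ 2 / Real.sqrt (2 * Real.pi) * ∫ u : ℝ, ME.PRML.hh R x u := mul_nonneg (by positivity) h2
  linarith

lemma kap_nonneg (R x : ℝ) (hR : 0 < R) : 0 ≤ PRML.kap R x := ME.PRML.kap_nonneg R x hR

lemma inv_pi_le : 1 / Real.pi ≤ 1 / 3 :=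
  one_div_le_one_div_of_le (by norm_num) Real.pi_gt_three.le

lemma tail_real {R : ℝ} (hR16 : 16 ≤ R) (n : ℕ) (hn1 : 1 ≤ n) (hn : 2 * R ≤ Real.log n) :
    vonMangoldt n / Real.sqrt n * cR R (Real.log n) ≤ 2 * (1 / (n : ℝ) ^ 2) := by
  have hn0 : (0 : ℝ) < n := by exact_mod_cast hn1
  have hn1' : (1 : ℝ) ≤ n := by exact_mod_cast hn1
  have hR : 0 < R := by linarith
  have hc0 := ME.PRML.cR_nonneg R (Real.log n) hR
  have hc1 := ME.PRML.cR_tail R (Real.log n) hR hn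
  have hL0 : 0 ≤ vonMangoldt n := vonMangoldt_nonneg
  have hL1 : vonMangoldt n ≤ Real.log n := vonMangoldt_le_log
  have hs1 : 1 ≤ Real.sqrt n := by rw [Real.one_le_sqrt]; exact hn1'
  set l := Real.log n with hl
  have hl0 : 32 ≤ l := by linarith
  have h1 : vonMangoldt n / Real.sqrt n ≤ l := (div_le_self hL0 hs1).trans hL1
  have h2 : Real.exp (-l ^ 2 / 8) ≤ 1 / (n : ℝ) ^ 4 := by
    have h3 : -l ^ 2 / 8 ≤ -(4 * l) := by nlinarith
    have h4 : Real.exp (-(4 * l)) = 1 / (n : ℝ) ^ 4 := by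
      rw [Real.exp_neg, show 4 * l = Real.log ((n : ℝ) ^ 4) by rw [Real.log_pow, ← hl]; norm_num,
        Real.exp_log (by positivity)]
      simp
    rw [← h4]
    exact Real.exp_le_exp.2 h3
  have h5 : l * (R * Real.exp (-l ^ 2 / 8)) ≤ 2 * (1 / (n : ℝ) ^ 2) := by
    have h6 : l * R ≤ 2 * n := by
      have := ME.PRML.log_sq_le hn1'
      rw [← hl] at this
      nlinarith
    have h7 : (n : ℝ) * (1 / (n : ℝ) ^ 4) ≤ 1 / (n : ℝ) ^ 2 := by
      rw [mul_one_div, div_le_div_iff₀ (by positivity) (by positivity)]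
      nlinarith [pow_pos hn0 3]
    calc l * (R * Real.exp (-l ^ 2 / 8)) = (l * R) * Real.exp (-l ^ 2 / 8) := by ring
      _ ≤ (2 * n) * (1 / (n : ℝ) ^ 4) :=
          mul_le_mul h6 h2 (Real.exp_pos _).le (by positivity)
      _ = 2 * (n * (1 / (n : ℝ) ^ 4)) := by ring
      _ ≤ 2 * (1 / (n : ℝ) ^ 2) := by linarith
  refine le_trans ?_ h5
  exact mul_le_mul h1 hc1 hc0 (by linarith)

/-- the coefficients of the prime side -/
noncomputable def qc (w R : ℝ) (n : ℕ) : ℂ :=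
  ((PRML.kap R (Real.log n) * (vonMangoldt n / (Real.sqrt n * Real.log n)) : ℝ) : ℂ) *
    (-I * ph (w * Real.log n))

lemma split1 (hP : S_PH) {u : ℕ → ℂ} (hu : ∀ n, ‖u n‖ ≤ 1) {w R : ℝ} (hR16 : 16 ≤ R) (X : ℕ)
    (hX : ∀ n : ℕ, X < n → 2 * R ≤ Real.log n) (t : ℝ) :
    ∃ z : ℂ, ‖z‖ ≤ 2 * PRML.Z1 ∧
      Qs u w R t = ((∑ n ∈ Finset.Icc 1 X, qc w R n * (u n * ee n t)) + z).re := by
  set f : ℕ → ℂ := fun n => ((vonMangoldt n / (Real.sqrt n * Real.log n) * cR R (Real.log n) : ℝ) : ℂ) *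
      (-I * ph (w * Real.log n)) * (u n * ee n t) with hf
  have hb : ∀ n : ℕ, ‖f (n + (X + 1))‖ ≤ 2 * (1 / ((n + 1 : ℕ) : ℝ) ^ 2) := by
    intro n
    set k := n + (X + 1) with hk
    have hk1 : 1 ≤ k := by omega
    have hkl := hX k (by omega)
    have h1 := tail_real hR16 k hk1 hkl
    have hk0 : (0 : ℝ) < k := by exact_mod_cast hk1
    have hl : 1 ≤ Real.log k := by linarith
    have hc0 := ME.PRML.cR_nonneg R (Real.log k) (by linarith)
    have hq : ‖f k‖ ≤ vonMangoldt k / (Real.sqrt k * Real.log k) * cR R (Real.log k) := by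
      rw [hf]
      simp only
      rw [norm_mul, norm_mul, norm_mul, norm_mul, norm_ee, mul_one, norm_neg, Complex.norm_I, one_mul,
        Complex.norm_real, Real.norm_eq_abs, abs_of_nonneg (mul_nonneg (div_nonneg vonMangoldt_nonneg
          (by positivity)) hc0)]
      have h0 : 0 ≤ vonMangoldt k / (Real.sqrt k * Real.log k) * cR R (Real.log k) :=
        mul_nonneg (div_nonneg vonMangoldt_nonneg (by positivity)) hc0
      calc _ ≤ vonMangoldt k / (Real.sqrt k * Real.log k) * cR R (Real.log k) * 1 * 1 :=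
            mul_le_mul (mul_le_mul_of_nonneg_left (hP.2.1 _) h0) (hu k) (norm_nonneg _)
              (by rw [mul_one]; exact h0)
        _ = _ := by ring
    have h2 : vonMangoldt k / (Real.sqrt k * Real.log k) * cR R (Real.log k) ≤
        vonMangoldt k / Real.sqrt k * cR R (Real.log k) := by
      apply mul_le_mul_of_nonneg_right _ hc0
      apply div_le_div_of_nonneg_left vonMangoldt_nonneg (by positivity)
      exact le_mul_of_one_le_right (Real.sqrt_nonneg _) hl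
    refine (hq.trans h2).trans (h1.trans ?_)
    apply mul_le_mul_of_nonneg_left _ (by norm_num)
    apply one_div_le_one_div_of_le (by positivity)
    apply pow_le_pow_left₀ (by positivity)
    rw [hk]
    push_cast
    have : (0 : ℝ) ≤ X := Nat.cast_nonneg X
    linarith
  have hsg : HasSum (fun n : ℕ => 2 * (1 / ((n + 1 : ℕ) : ℝ) ^ 2)) (2 * PRML.Z1) :=
    ME.PRML.Z1_summable.hasSum.mul_left _
  have hsum' : Summable (fun n => f (n + (X + 1))) := Summable.of_norm_bounded hsg.summable hb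
  have hsum : Summable f := (summable_nat_add_iff (X + 1)).1 hsum'
  have htail : ‖∑' n, f (n + (X + 1))‖ ≤ 2 * PRML.Z1 := tsum_of_norm_bounded hsg hb
  have hsplit := hsum.sum_add_tsum_nat_add (X + 1)
  have hfin : ∑ n ∈ Finset.range (X + 1), f n = ∑ n ∈ Finset.Icc 1 X, f n := by
    symm
    apply Finset.sum_subset
    · intro n hn
      rw [Finset.mem_Icc] at hn
      rw [Finset.mem_range]; omega
    · intro n hn hn'
      rw [Finset.mem_range] at hn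
      rw [Finset.mem_Icc] at hn'
      have : n = 0 := by omega
      subst this
      simp [hf]
  set c : ℝ := 2 / Real.sqrt (2 * Real.pi) with hc
  refine ⟨(c : ℂ) * ∑' n, f (n + (X + 1)), ?_, ?_⟩
  · rw [norm_mul, Complex.norm_real, Real.norm_eq_abs, abs_of_nonneg (by positivity)]
    have h1 := ME.PRML.two_div_le_one
    rw [← hc] at h1
    have h2 := norm_nonneg (∑' n, f (n + (X + 1)))
    nlinarith
  · have hBB : Qs u w R t = ((c : ℂ) * ∑' n, f n).re := by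
      unfold Qs
      rw [Complex.re_ofReal_mul]
    rw [hBB, ← hsplit, hfin, mul_add]
    congr 2
    rw [Finset.mul_sum]
    refine Finset.sum_congr rfl fun n _ => ?_
    rw [hf]
    unfold qc PRML.kap
    rw [← hc]
    push_cast
    ring

lemma mem_PB {lo hi : ℝ} {p : ℕ} : p ∈ PB lo hi ↔ p.Prime ∧ lo < Real.log p ∧ Real.log p ≤ hi := by
  classical
  unfold PB
  rw [Finset.mem_filter, Finset.mem_Icc]
  constructor
  · rintro ⟨⟨h1, h2⟩, h3, h4⟩
    refine ⟨h3, h4, ?_⟩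
    have h5 : (p : ℝ) ≤ Real.exp hi := (Nat.le_floor_iff (Real.exp_pos _).le).1 h2
    exact (Real.log_le_iff_le_exp (by exact_mod_cast h3.pos)).2 h5
  · rintro ⟨h3, h4, h5⟩
    exact ⟨⟨h3.one_le, (Nat.le_floor_iff (Real.exp_pos _).le).2
      ((Real.log_le_iff_le_exp (by exact_mod_cast h3.pos)).1 h5)⟩, h3, h4⟩

open Classical in
/-- the coefficients of the difference at the primes -/
noncomputable def ap (u : ℕ → ℂ) (w R lo hi x x' : ℝ) (p : ℕ) : ℂ :=
  ((1 / Real.sqrt p : ℝ) : ℂ) * (-I * (u p * (ee p x - ee p x'))) *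
    (((PRML.kap R (Real.log p) : ℝ) : ℂ) * ph (w * Real.log p) -
      ((if lo < Real.log p ∧ Real.log p ≤ hi then 1 / Real.pi else 0 : ℝ) : ℂ))

open Classical in
/-- the coefficients of the difference at the squares of the primes -/
noncomputable def sp (u : ℕ → ℂ) (w R : ℝ) (X : ℕ) (x x' : ℝ) (p : ℕ) : ℂ :=
  if p.Prime ∧ p ^ 2 ≤ X then qc w R (p ^ 2) * (u (p ^ 2) * (ee (p ^ 2) x - ee (p ^ 2) x')) else 0

lemma qc_le (hP : S_PH) {w R : ℝ} (hR : 0 < R) (n : ℕ) :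
    ‖qc w R n‖ ≤ 1 / Real.pi * (vonMangoldt n / (Real.sqrt n * Real.log n)) := by
  unfold qc
  have h0 : 0 ≤ vonMangoldt n / (Real.sqrt n * Real.log n) :=
    div_nonneg vonMangoldt_nonneg (mul_nonneg (Real.sqrt_nonneg _) (Real.log_natCast_nonneg n))
  rw [norm_mul, norm_mul, norm_neg, Complex.norm_I, one_mul, Complex.norm_real, Real.norm_eq_abs,
    abs_of_nonneg (mul_nonneg (kap_nonneg R _ hR) h0)]
  have h1 := kap_le_pi R (Real.log n) hR
  have h2 := kap_nonneg R (Real.log n) hR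
  calc _ ≤ PRML.kap R (Real.log n) * (vonMangoldt n / (Real.sqrt n * Real.log n)) * 1 :=
        mul_le_mul_of_nonneg_left (hP.2.1 _) (mul_nonneg h2 h0)
    _ = PRML.kap R (Real.log n) * (vonMangoldt n / (Real.sqrt n * Real.log n)) := mul_one _
    _ ≤ _ := mul_le_mul_of_nonneg_right h1 h0

/-- the full coefficient -/
noncomputable def fc (u : ℕ → ℂ) (w R x x' : ℝ) (n : ℕ) : ℂ :=
  qc w R n * (u n * (ee n x - ee n x'))

lemma fc_le (hP : S_PH) {u : ℕ → ℂ} (hu : ∀ n, ‖u n‖ ≤ 1) {w R : ℝ} (hR : 0 < R) (x x' : ℝ) (n : ℕ) :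
    ‖fc u w R x x' n‖ ≤ vonMangoldt n / (Real.sqrt n * Real.log n) := by
  unfold fc
  have h0 : 0 ≤ vonMangoldt n / (Real.sqrt n * Real.log n) :=
    div_nonneg vonMangoldt_nonneg (mul_nonneg (Real.sqrt_nonneg _) (Real.log_natCast_nonneg n))
  rw [norm_mul, norm_mul]
  have h1 : ‖u n‖ * ‖ee n x - ee n x'‖ ≤ 1 * 2 :=
    mul_le_mul (hu n) (dd_le_two n x x') (norm_nonneg _) zero_le_one
  have h2 := inv_pi_le
  calc _ ≤ (1 / Real.pi * (vonMangoldt n / (Real.sqrt n * Real.log n))) * (1 * 2) :=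
        mul_le_mul (qc_le hP hR n) h1 (by positivity) (by
          have := Real.pi_pos
          positivity)
    _ ≤ (1 / 3 * (vonMangoldt n / (Real.sqrt n * Real.log n))) * (1 * 2) := by
        apply mul_le_mul_of_nonneg_right _ (by norm_num)
        exact mul_le_mul_of_nonneg_right h2 h0
    _ ≤ _ := by linarith

open Classical in
lemma rest_le (hP : S_PH) : ∃ C : ℝ, 0 < C ∧ ∀ (u : ℕ → ℂ), (∀ n, ‖u n‖ ≤ 1) → ∀ (w R : ℝ), 0 < R →
    ∀ (x x' : ℝ) (X : ℕ), ∑ n ∈ (Finset.Icc 1 X).filter (fun n => ¬ n.Prime ∧ ¬ ∃ p, p.Prime ∧ p ^ 2 = n),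
      ‖fc u w R x x' n‖ ≤ C := by
  classical
  obtain ⟨C, hC, h3⟩ := ME.BMBL.cubes
  refine ⟨C, hC, ?_⟩
  intro u hu w R hR x x' X
  have h4 := h3 X
  rw [Finset.sum_filter] at h4 ⊢
  refine le_trans ?_ h4
  refine Finset.sum_le_sum fun n hn => ?_
  have hL0 : 0 ≤ vonMangoldt n / Real.sqrt n := div_nonneg vonMangoldt_nonneg (Real.sqrt_nonneg _)
  have hn0 : 0 ≤ (if IsPrimePow n ∧ 3 ≤ n.factorization n.minFac then vonMangoldt n / Real.sqrt n else 0) := by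
    split_ifs
    · exact hL0
    · exact le_rfl
  have hfc := fc_le hP hu (w := w) hR x x' n
  by_cases hp : ¬ n.Prime ∧ ¬ ∃ p, p.Prime ∧ p ^ 2 = n
  · rw [if_pos hp]
    by_cases hpp : IsPrimePow n
    · have h5 : n ≠ 1 := fun h => by subst h; exact not_isPrimePow_one hpp
      have h6 := hpp.minFac_pow_factorization_eq
      have h7 : 3 ≤ n.factorization n.minFac := by
        by_contra h7
        have h8 : n.factorization n.minFac = 0 ∨ n.factorization n.minFac = 1 ∨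
          n.factorization n.minFac = 2 := by omega
        rcases h8 with h8 | h8 | h8
        · rw [h8, pow_zero] at h6
          exact h5 h6.symm
        · rw [h8, pow_one] at h6
          apply hp.1
          rw [← h6]
          exact Nat.minFac_prime h5
        · rw [h8] at h6
          exact hp.2 ⟨n.minFac, Nat.minFac_prime h5, h6⟩
      rw [if_pos ⟨hpp, h7⟩]
      have h8 : 3 ≤ n := by
        have h9 := (Nat.minFac_prime h5).two_le
        have h10 : 2 ^ 3 ≤ n.minFac ^ (n.factorization n.minFac) :=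
          (Nat.pow_le_pow_left h9 3).trans (Nat.pow_le_pow_right (by omega) h7)
        rw [h6] at h10
        omega
      have h9 := ME.BMBL.one_le_log h8
      have h10 : (0 : ℝ) < n := by exact_mod_cast (by omega : 0 < n)
      refine hfc.trans ?_
      apply div_le_div_of_nonneg_left vonMangoldt_nonneg (by positivity)
      exact le_mul_of_one_le_right (Real.sqrt_nonneg _) h9
    · have h5 : vonMangoldt n = 0 := by rw [vonMangoldt_apply, if_neg hpp]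
      rw [h5, zero_div] at hfc
      linarith
  · rw [if_neg hp]
    exact hn0

open Classical in
lemma squares_eq (u : ℕ → ℂ) (w R x x' t : ℝ) (X : ℕ) :
    ∑ n ∈ (Finset.Icc 1 X).filter (fun n => ¬ n.Prime ∧ ∃ p, p.Prime ∧ p ^ 2 = n),
      fc u w R x x' n * ee n t =
    ∑ p ∈ (Finset.Icc 1 X).filter Nat.Prime, sp u w R X x x' p * ee p (2 * t) := by
  classical
  have h1 : ∑ p ∈ (Finset.Icc 1 X).filter Nat.Prime, sp u w R X x x' p * ee p (2 * t) =
      ∑ p ∈ ((Finset.Icc 1 X).filter Nat.Prime).filter (fun p => p ^ 2 ≤ X),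
        fc u w R x x' (p ^ 2) * ee (p ^ 2) t := by
    rw [Finset.sum_filter (fun p => p ^ 2 ≤ X)]
    refine Finset.sum_congr rfl fun p hp => ?_
    have hpp := (Finset.mem_filter.1 hp).2
    unfold sp fc
    by_cases h : p ^ 2 ≤ X
    · rw [if_pos ⟨hpp, h⟩, if_pos h, ee_sq p t]
    · rw [if_neg (fun h' => h h'.2), if_neg h, zero_mul]
  rw [h1]
  symm
  refine Finset.sum_bij (fun p _ => p ^ 2) ?_ ?_ ?_ ?_
  · intro p hp
    rw [Finset.mem_filter, Finset.mem_filter, Finset.mem_Icc] at hp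
    rw [Finset.mem_filter, Finset.mem_Icc]
    refine ⟨⟨Nat.one_le_pow _ _ hp.1.2.pos, hp.2⟩, ?_, p, hp.1.2, rfl⟩
    exact Nat.Prime.not_prime_pow le_rfl
  · intro a _ b _ h
    exact Nat.pow_left_injective (by norm_num : (2 : ℕ) ≠ 0) h
  · intro n hn
    rw [Finset.mem_filter, Finset.mem_Icc] at hn
    obtain ⟨⟨h2, h3⟩, h4, p, hp, rfl⟩ := hn
    refine ⟨p, ?_, rfl⟩
    rw [Finset.mem_filter, Finset.mem_filter, Finset.mem_Icc]
    refine ⟨⟨⟨hp.one_le, ?_⟩, hp⟩, h3⟩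
    have : p ≤ p ^ 2 := Nat.le_self_pow (by norm_num) _
    omega
  · intro p _
    rfl

open Classical in
lemma primes_eq (u : ℕ → ℂ) (w R lo hi x x' t : ℝ) (hhi : hi ≤ 2 * R) :
    ∑ p ∈ (Finset.Icc 1 ⌊Real.exp (2 * R)⌋₊).filter Nat.Prime, ap u w R lo hi x x' p * ee p t =
    ∑ p ∈ (Finset.Icc 1 ⌊Real.exp (2 * R)⌋₊).filter Nat.Prime, fc u w R x x' p * ee p t -
      ∑ p ∈ PB lo hi, ((1 / Real.pi : ℝ) : ℂ) * (-I * (u p * (ee p (t + x) - ee p (t + x')) /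
        (Real.sqrt p : ℂ))) := by
  have h1 : ∑ p ∈ PB lo hi, ((1 / Real.pi : ℝ) : ℂ) * (-I * (u p * (ee p (t + x) - ee p (t + x')) /
        (Real.sqrt p : ℂ))) =
      ∑ p ∈ (Finset.Icc 1 ⌊Real.exp (2 * R)⌋₊).filter Nat.Prime,
        (if lo < Real.log p ∧ Real.log p ≤ hi then ((1 / Real.pi : ℝ) : ℂ) *
          (-I * (u p * (ee p (t + x) - ee p (t + x')) / (Real.sqrt p : ℂ))) else 0) := by
    rw [← Finset.sum_filter]
    refine Finset.sum_congr ?_ fun _ _ => rfl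
    ext p
    rw [mem_PB, Finset.mem_filter, Finset.mem_filter, Finset.mem_Icc]
    constructor
    · rintro ⟨h1, h2, h3⟩
      refine ⟨⟨⟨h1.one_le, ?_⟩, h1⟩, h2, h3⟩
      rw [Nat.le_floor_iff (Real.exp_pos _).le]
      exact (Real.log_le_iff_le_exp (by exact_mod_cast h1.pos)).1 (h3.trans hhi)
    · rintro ⟨⟨_, h1⟩, h2, h3⟩
      exact ⟨h1, h2, h3⟩
  rw [h1, ← Finset.sum_sub_distrib]
  refine Finset.sum_congr rfl fun p hp => ?_
  have hpp := (Finset.mem_filter.1 hp).2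
  have hp0 : (0 : ℝ) < p := by exact_mod_cast hpp.pos
  have hlog : Real.log p ≠ 0 := by
    have : (1 : ℝ) < p := by exact_mod_cast hpp.one_lt
    exact (Real.log_pos this).ne'
  have h2 : vonMangoldt p / (Real.sqrt p * Real.log p) = 1 / Real.sqrt p := by
    rw [vonMangoldt_apply_prime hpp]
    field_simp
  have hs : ((Real.sqrt p : ℝ) : ℂ) ≠ 0 := by
    rw [Ne, Complex.ofReal_eq_zero]
    exact (Real.sqrt_pos.2 hp0).ne'
  unfold ap fc qc
  rw [h2, ee_add, ee_add]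
  split_ifs with h
  · push_cast
    field_simp
    ring
  · push_cast
    field_simp
    ring

lemma Qs_diff (hP : S_PH) {u : ℕ → ℂ} (hu : ∀ n, ‖u n‖ ≤ 1) {w R : ℝ} (hR16 : 16 ≤ R) (x x' t : ℝ) :
    ∃ z : ℂ, ‖z‖ ≤ 4 * PRML.Z1 ∧
      Qs u w R (t + x) - Qs u w R (t + x') =
        ((∑ n ∈ Finset.Icc 1 ⌊Real.exp (2 * R)⌋₊, fc u w R x x' n * ee n t) + z).re := by
  have hX : ∀ n : ℕ, ⌊Real.exp (2 * R)⌋₊ < n → 2 * R ≤ Real.log n := by
    intro n hn
    have h1 : Real.exp (2 * R) < n := (Nat.floor_lt (Real.exp_pos _).le).1 hn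
    rw [Real.le_log_iff_exp_le ((Real.exp_pos _).trans h1)]
    exact h1.le
  obtain ⟨z1, hz1, h1⟩ := split1 hP hu (w := w) hR16 _ hX (t + x)
  obtain ⟨z2, hz2, h2⟩ := split1 hP hu (w := w) hR16 _ hX (t + x')
  refine ⟨z1 - z2, ?_, ?_⟩
  · have := norm_sub_le z1 z2
    linarith
  · rw [h1, h2, ← Complex.sub_re]
    congr 1
    have h3 : ∑ n ∈ Finset.Icc 1 ⌊Real.exp (2 * R)⌋₊, fc u w R x x' n * ee n t =
        ∑ n ∈ Finset.Icc 1 ⌊Real.exp (2 * R)⌋₊, qc w R n * (u n * ee n (t + x)) -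
        ∑ n ∈ Finset.Icc 1 ⌊Real.exp (2 * R)⌋₊, qc w R n * (u n * ee n (t + x')) := by
      rw [← Finset.sum_sub_distrib]
      refine Finset.sum_congr rfl fun n _ => ?_
      unfold fc
      rw [ee_add, ee_add]
      ring
    rw [h3]
    ring

lemma Yb_diff (u : ℕ → ℂ) (lo hi x x' t : ℝ) :
    Yb u lo hi (t + x) - Yb u lo hi (t + x') =
      (∑ p ∈ PB lo hi, ((1 / Real.pi : ℝ) : ℂ) * (-I * (u p * (ee p (t + x) - ee p (t + x')) /
        (Real.sqrt p : ℂ)))).re := by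
  unfold Yb
  rw [← mul_sub, ← Complex.sub_im, ← Finset.sum_sub_distrib, ← Finset.mul_sum, ← Finset.mul_sum,
    Complex.re_ofReal_mul]
  congr 1
  have h1 : ∀ z : ℂ, z.im = (-I * z).re := by
    intro z
    simp
  rw [h1]
  congr 2
  refine Finset.sum_congr rfl fun p _ => ?_
  ring

open Classical in
lemma decomp (hP : S_PH) : ∃ C : ℝ, 0 < C ∧ ∀ (u : ℕ → ℂ), (∀ n, ‖u n‖ ≤ 1) →
    ∀ (w R lo hi : ℝ), 16 ≤ R → hi ≤ 2 * R → ∀ x x' t : ℝ,
    |(Qs u w R (t + x) - Qs u w R (t + x')) - (Yb u lo hi (t + x) - Yb u lo hi (t + x'))| ≤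
      ‖∑ p ∈ (Finset.Icc 1 ⌊Real.exp (2 * R)⌋₊).filter Nat.Prime, ap u w R lo hi x x' p * ee p t‖ +
      ‖∑ p ∈ (Finset.Icc 1 ⌊Real.exp (2 * R)⌋₊).filter Nat.Prime,
        sp u w R ⌊Real.exp (2 * R)⌋₊ x x' p * ee p (2 * t)‖ + C := by
  obtain ⟨C, hC, hrest⟩ := rest_le hP
  refine ⟨C + 4 * PRML.Z1, by have := ME.PRML.Z1_nonneg; positivity, ?_⟩
  intro u hu w R lo hi hR hhi x x' t
  obtain ⟨z, hz, hQ⟩ := Qs_diff hP hu (w := w) hR x x' t
  rw [hQ, Yb_diff, ← Complex.sub_re]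
  set X := ⌊Real.exp (2 * R)⌋₊ with hX
  have h1 : ∑ n ∈ Finset.Icc 1 X, fc u w R x x' n * ee n t =
      ∑ n ∈ (Finset.Icc 1 X).filter Nat.Prime, fc u w R x x' n * ee n t +
      (∑ n ∈ (Finset.Icc 1 X).filter (fun n => ¬ n.Prime ∧ ∃ p, p.Prime ∧ p ^ 2 = n),
        fc u w R x x' n * ee n t +
       ∑ n ∈ (Finset.Icc 1 X).filter (fun n => ¬ n.Prime ∧ ¬ ∃ p, p.Prime ∧ p ^ 2 = n),
        fc u w R x x' n * ee n t) := by
    rw [← Finset.sum_filter_add_sum_filter_not (Finset.Icc 1 X) Nat.Prime]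
    congr 1
    rw [← Finset.sum_filter_add_sum_filter_not ((Finset.Icc 1 X).filter (fun n => ¬ n.Prime))
      (fun n => ∃ p, p.Prime ∧ p ^ 2 = n)]
    rw [Finset.filter_filter, Finset.filter_filter]
  rw [squares_eq] at h1
  have h2 := primes_eq u w R lo hi x x' t hhi
  rw [← hX] at h2
  have h3 : ‖∑ n ∈ (Finset.Icc 1 X).filter (fun n => ¬ n.Prime ∧ ¬ ∃ p, p.Prime ∧ p ^ 2 = n),
        fc u w R x x' n * ee n t‖ ≤ C := by
    refine (norm_sum_le _ _).trans (le_trans (le_of_eq ?_) (hrest u hu w R (by linarith) x x' X))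
    refine Finset.sum_congr rfl fun n _ => ?_
    rw [norm_mul, norm_ee, mul_one]
  set A := ∑ p ∈ (Finset.Icc 1 X).filter Nat.Prime, ap u w R lo hi x x' p * ee p t with hA
  set B := ∑ p ∈ (Finset.Icc 1 X).filter Nat.Prime, sp u w R X x x' p * ee p (2 * t) with hB
  set D := ∑ n ∈ (Finset.Icc 1 X).filter (fun n => ¬ n.Prime ∧ ¬ ∃ p, p.Prime ∧ p ^ 2 = n),
        fc u w R x x' n * ee n t with hD
  set E := ∑ p ∈ PB lo hi, ((1 / Real.pi : ℝ) : ℂ) * (-I * (u p * (ee p (t + x) - ee p (t + x')) /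
        (Real.sqrt p : ℂ))) with hE
  set G := ∑ n ∈ (Finset.Icc 1 X).filter Nat.Prime, fc u w R x x' n * ee n t with hG
  have h4 : (∑ n ∈ Finset.Icc 1 X, fc u w R x x' n * ee n t + z) - E = A + B + (D + z) := by
    rw [h1, h2]
    ring
  rw [h4]
  refine (Complex.abs_re_le_norm _).trans ((norm_add_le _ _).trans ?_)
  have h5 := norm_add_le A B
  have h6 := norm_add_le D z
  linarith

lemma exp_two_ge {y : ℝ} (hy : 0 < y) : Real.exp (-y ^ 2 / 2) ≤ 2 / y ^ 2 := by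
  have h1 : y ^ 2 / 2 + 1 ≤ Real.exp (y ^ 2 / 2) := Real.add_one_le_exp _
  have h2 : Real.exp (-y ^ 2 / 2) = 1 / Real.exp (y ^ 2 / 2) := by
    rw [one_div, ← Real.exp_neg]
    congr 1
    ring
  rw [h2, div_le_div_iff₀ (Real.exp_pos _) (by positivity)]
  linarith

lemma ap_le (hP : S_PH) {u : ℕ → ℂ} (hu : ∀ n, ‖u n‖ ≤ 1) {w R : ℝ} (hR : 0 < R) (lo hi x x' : ℝ)
    (p : ℕ) : ‖ap u w R lo hi x x' p‖ ≤ 1 / Real.sqrt p * ‖ee p x - ee p x'‖ * (2 / 3) := by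
  classical
  unfold ap
  have hk0 := kap_nonneg R (Real.log p) hR
  have hk1 := (kap_le_pi R (Real.log p) hR).trans inv_pi_le
  have h1 : ‖((PRML.kap R (Real.log p) : ℝ) : ℂ) * ph (w * Real.log p) -
      ((if lo < Real.log p ∧ Real.log p ≤ hi then 1 / Real.pi else 0 : ℝ) : ℂ)‖ ≤ 2 / 3 := by
    refine (norm_sub_le _ _).trans ?_
    have h2 : ‖((PRML.kap R (Real.log p) : ℝ) : ℂ) * ph (w * Real.log p)‖ ≤ 1 / 3 := by
      rw [norm_mul, Complex.norm_real, Real.norm_eq_abs, abs_of_nonneg hk0]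
      calc _ ≤ (1 / 3) * 1 := mul_le_mul hk1 (hP.2.1 _) (norm_nonneg _) (by norm_num)
        _ = _ := mul_one _
    have h3 : ‖((if lo < Real.log p ∧ Real.log p ≤ hi then 1 / Real.pi else 0 : ℝ) : ℂ)‖ ≤ 1 / 3 := by
      rw [Complex.norm_real, Real.norm_eq_abs]
      split_ifs
      · rw [abs_of_nonneg (by have := Real.pi_pos; positivity)]
        exact inv_pi_le
      · rw [abs_zero]; norm_num
    linarith
  rw [norm_mul, norm_mul, norm_mul, norm_mul, norm_neg, Complex.norm_I, one_mul, Complex.norm_real,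
    Real.norm_eq_abs, abs_of_nonneg (by positivity)]
  refine mul_le_mul ?_ h1 (norm_nonneg _) (by positivity)
  apply mul_le_mul_of_nonneg_left _ (by positivity)
  exact mul_le_of_le_one_left (norm_nonneg _) (hu p)

lemma ap_le' (hP : S_PH) {u : ℕ → ℂ} (hu : ∀ n, ‖u n‖ ≤ 1) {w R : ℝ} (hR : 0 < R) (lo hi x x' : ℝ)
    (p : ℕ) (hp : ¬ (lo < Real.log p ∧ Real.log p ≤ hi)) :
    ‖ap u w R lo hi x x' p‖ ≤ 1 / Real.sqrt p * ‖ee p x - ee p x'‖ * (1 / 3) := by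
  classical
  unfold ap
  have hk0 := kap_nonneg R (Real.log p) hR
  have hk1 := (kap_le_pi R (Real.log p) hR).trans inv_pi_le
  rw [if_neg hp, Complex.ofReal_zero, sub_zero]
  have h2 : ‖((PRML.kap R (Real.log p) : ℝ) : ℂ) * ph (w * Real.log p)‖ ≤ 1 / 3 := by
    rw [norm_mul, Complex.norm_real, Real.norm_eq_abs, abs_of_nonneg hk0]
    calc _ ≤ (1 / 3) * 1 := mul_le_mul hk1 (hP.2.1 _) (norm_nonneg _) (by norm_num)
      _ = _ := mul_one _
  rw [norm_mul, norm_mul, norm_mul (-I), norm_mul (u p), norm_neg, Complex.norm_I, one_mul,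
    Complex.norm_real, Real.norm_eq_abs, abs_of_nonneg (show (0 : ℝ) ≤ 1 / Real.sqrt p by positivity)]
  refine mul_le_mul ?_ h2 (norm_nonneg _) (by positivity)
  apply mul_le_mul_of_nonneg_left _ (by positivity)
  exact mul_le_of_le_one_left (norm_nonneg _) (hu p)

lemma ap_le_block (hP : S_PH) {u : ℕ → ℂ} (hu : ∀ n, ‖u n‖ ≤ 1) {w R : ℝ} (hR : 0 < R) (hw : 0 < w)
    (lo hi x x' : ℝ) (p : ℕ) (hp : lo < Real.log p ∧ Real.log p ≤ hi) (κ : ℝ)
    (hκ : 4 * Real.exp (-(Real.log p) ^ 2 / 2) + 160 * (1 + (Real.log p) ^ 2) / R ^ 2 +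
      w * Real.log p ≤ κ) :
    ‖ap u w R lo hi x x' p‖ ≤ 1 / Real.sqrt p * ‖ee p x - ee p x'‖ * κ := by
  classical
  unfold ap
  have hl0 : 0 ≤ Real.log p := Real.log_natCast_nonneg p
  have hk0 := kap_nonneg R (Real.log p) hR
  have hk1 := (kap_le_pi R (Real.log p) hR).trans inv_pi_le
  have hk2 := ME.PRML.kap_close R (Real.log p) hR hl0
  rw [if_pos hp]
  have h2 : ‖((PRML.kap R (Real.log p) : ℝ) : ℂ) * ph (w * Real.log p) - ((1 / Real.pi : ℝ) : ℂ)‖ ≤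
      κ := by
    have e : ((PRML.kap R (Real.log p) : ℝ) : ℂ) * ph (w * Real.log p) - ((1 / Real.pi : ℝ) : ℂ) =
        ((PRML.kap R (Real.log p) : ℝ) : ℂ) * (ph (w * Real.log p) - 1) +
          ((PRML.kap R (Real.log p) - 1 / Real.pi : ℝ) : ℂ) := by
      push_cast
      ring
    rw [e]
    refine (norm_add_le _ _).trans (le_trans ?_ hκ)
    have h3 : ‖((PRML.kap R (Real.log p) : ℝ) : ℂ) * (ph (w * Real.log p) - 1)‖ ≤ w * Real.log p := by
      rw [norm_mul, Complex.norm_real, Real.norm_eq_abs, abs_of_nonneg hk0]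
      have h4 := hP.2.2.1 (w * Real.log p)
      rw [abs_of_nonneg (by positivity)] at h4
      calc _ ≤ 1 * (w * Real.log p) := mul_le_mul (by linarith) h4 (norm_nonneg _) (by norm_num)
        _ = _ := one_mul _
    have h5 : ‖((PRML.kap R (Real.log p) - 1 / Real.pi : ℝ) : ℂ)‖ ≤
        4 * Real.exp (-(Real.log p) ^ 2 / 2) + 160 * (1 + (Real.log p) ^ 2) / R ^ 2 := by
      rw [Complex.norm_real, Real.norm_eq_abs]
      refine hk2.trans (le_of_eq ?_)
      ring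
    linarith
  rw [norm_mul, norm_mul, norm_mul (-I), norm_mul (u p), norm_neg, Complex.norm_I, one_mul,
    Complex.norm_real, Real.norm_eq_abs, abs_of_nonneg (show (0 : ℝ) ≤ 1 / Real.sqrt p by positivity)]
  refine mul_le_mul ?_ h2 (norm_nonneg _) (by positivity)
  apply mul_le_mul_of_nonneg_left _ (by positivity)
  exact mul_le_of_le_one_left (norm_nonneg _) (hu p)

lemma ap_le_one (hP : S_PH) {u : ℕ → ℂ} (hu : ∀ n, ‖u n‖ ≤ 1) {w R : ℝ} (hR : 0 < R) (lo hi x x' : ℝ)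
    (p : ℕ) : ‖ap u w R lo hi x x' p‖ ≤ 1 := by
  have h1 := ap_le hP hu (w := w) hR lo hi x x' p
  rcases Nat.lt_or_ge p 2 with h | h
  · have h2 : Real.log p = 0 := by
      interval_cases p
      · simp
      · simp
    have h3 := dd_le p x x'
    rw [h2, mul_zero] at h3
    have h4 : ‖ee p x - ee p x'‖ = 0 := le_antisymm h3 (norm_nonneg _)
    rw [h4, mul_zero, zero_mul] at h1
    linarith
  · have hp : (2 : ℝ) ≤ p := by exact_mod_cast h
    have h2 : (4 / 3 : ℝ) ≤ Real.sqrt p := by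
      apply Real.le_sqrt_of_sq_le
      norm_num
      linarith
    have h3 : 1 / Real.sqrt p ≤ 3 / 4 := by
      rw [div_le_div_iff₀ (by linarith) (by norm_num)]
      linarith
    have h4 := dd_le_two p x x'
    calc ‖ap u w R lo hi x x' p‖ ≤ 1 / Real.sqrt p * ‖ee p x - ee p x'‖ * (2 / 3) := h1
      _ ≤ (3 / 4) * 2 * (2 / 3) := by
          apply mul_le_mul_of_nonneg_right _ (by norm_num)
          exact mul_le_mul h3 h4 (norm_nonneg _) (by norm_num)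
      _ = 1 := by norm_num

lemma sp_le (hP : S_PH) {u : ℕ → ℂ} (hu : ∀ n, ‖u n‖ ≤ 1) {w R : ℝ} (hR : 0 < R) (X : ℕ) (x x' : ℝ)
    (p : ℕ) : ‖sp u w R X x x' p‖ ≤ 1 / (p : ℝ) := by
  classical
  unfold sp
  split_ifs with h
  · have h1 := fc_le hP hu (w := w) hR x x' (p ^ 2)
    unfold fc at h1
    refine h1.trans ?_
    have hp0 : (0 : ℝ) < p := by exact_mod_cast h.1.pos
    have hlog : 0 < Real.log p := Real.log_pos (by exact_mod_cast h.1.one_lt)
    rw [vonMangoldt_apply_pow (by norm_num), vonMangoldt_apply_prime h.1]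
    push_cast
    rw [Real.sqrt_sq hp0.le, Real.log_pow]
    push_cast
    rw [div_le_div_iff₀ (by positivity) hp0]
    nlinarith [mul_pos hp0 hlog]
  · rw [norm_zero]
    positivity

lemma sp_le_one (hP : S_PH) {u : ℕ → ℂ} (hu : ∀ n, ‖u n‖ ≤ 1) {w R : ℝ} (hR : 0 < R) (X : ℕ) (x x' : ℝ)
    (p : ℕ) : ‖sp u w R X x x' p‖ ≤ 1 := by
  refine (sp_le hP hu hR X x x' p).trans ?_
  rcases Nat.eq_zero_or_pos p with rfl | hp
  · simp
  · rw [div_le_one (by exact_mod_cast hp)]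
    exact_mod_cast hp

lemma sum_sp (hP : S_PH) {u : ℕ → ℂ} (hu : ∀ n, ‖u n‖ ≤ 1) {w R : ℝ} (hR : 0 < R) (X N : ℕ) (x x' : ℝ) :
    ∑ p ∈ (Finset.Icc 1 N).filter Nat.Prime, ‖sp u w R X x x' p‖ ^ 2 ≤ PRML.Z1 := by
  have h1 : ∑ p ∈ (Finset.Icc 1 N).filter Nat.Prime, ‖sp u w R X x x' p‖ ^ 2 ≤
      ∑ p ∈ Finset.Icc 1 N, 1 / (p : ℝ) ^ 2 := by
    refine (Finset.sum_le_sum fun p _ => pow_le_pow_left₀ (norm_nonneg _)
      (sp_le hP hu hR X x x' p) 2).trans ?_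
    refine (Finset.sum_le_sum_of_subset_of_nonneg (Finset.filter_subset _ _)
      (fun p _ _ => by positivity)).trans (le_of_eq ?_)
    refine Finset.sum_congr rfl fun p _ => ?_
    rw [div_pow, one_pow]
  refine h1.trans ?_
  have h2 : ∑ p ∈ Finset.Icc 1 N, 1 / (p : ℝ) ^ 2 = ∑ n ∈ Finset.range N, 1 / ((n + 1 : ℕ) : ℝ) ^ 2 := by
    rw [Finset.range_eq_Ico, Finset.sum_Ico_add' (fun n : ℕ => 1 / (n : ℝ) ^ 2) 0 N 1]
    rfl
  rw [h2]
  exact ME.PRML.Z1_summable.sum_le_tsum _ (fun n _ => by positivity)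

lemma sum_union_le {s t : Finset ℕ} {f : ℕ → ℝ} (hf : ∀ n, 0 ≤ f n) :
    ∑ n ∈ s ∪ t, f n ≤ ∑ n ∈ s, f n + ∑ n ∈ t, f n := by
  rw [← Finset.sum_union_inter]
  have : 0 ≤ ∑ n ∈ s ∩ t, f n := Finset.sum_nonneg fun n _ => hf n
  linarith

/-- primes with small logarithm -/
lemma sum_small {h : ℝ} (hh : 0 < h) (h2 : h ≤ 1 / 2) :
    ∑ p ∈ (Finset.Icc 1 ⌊Real.exp h⁻¹⌋₊).filter Nat.Prime, h * (vonMangoldt p / p) ≤ 4 := by
  have h1 : ∑ p ∈ (Finset.Icc 1 ⌊Real.exp h⁻¹⌋₊).filter Nat.Prime, h * (vonMangoldt p / p) ≤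
      ∑ p ∈ Finset.Icc 1 ⌊Real.exp h⁻¹⌋₊, h * (vonMangoldt p / p) :=
    Finset.sum_le_sum_of_subset_of_nonneg (Finset.filter_subset _ _) (fun p _ _ =>
      mul_nonneg hh.le (div_nonneg vonMangoldt_nonneg (Nat.cast_nonneg p)))
  have h1' := h1.trans (le_of_eq (Finset.mul_sum _ _ _).symm)
  have hi : (0 : ℝ) < h⁻¹ := by positivity
  have hN : 1 ≤ ⌊Real.exp h⁻¹⌋₊ := by
    rw [Nat.one_le_floor_iff]
    exact Real.one_le_exp hi.le
  have h3 := H370.nt_mertens_upper ⌊Real.exp h⁻¹⌋₊ hN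
  have h4 : Real.log (⌊Real.exp h⁻¹⌋₊ : ℝ) ≤ h⁻¹ := by
    rw [Real.log_le_iff_le_exp (by exact_mod_cast hN)]
    exact Nat.floor_le (Real.exp_pos _).le
  have h5 : h * ∑ p ∈ Finset.Icc 1 ⌊Real.exp h⁻¹⌋₊, vonMangoldt p / (p : ℝ) ≤ h * (h⁻¹ + 6) :=
    mul_le_mul_of_nonneg_left (by linarith) hh.le
  have h6 : h * (h⁻¹ + 6) = 1 + 6 * h := by
    field_simp
  linarith

lemma sum_ap (hP : S_PH) (hC : S_CB) : ∃ C : ℝ, 0 < C ∧ ∀ (u : ℕ → ℂ), (∀ n, ‖u n‖ ≤ 1) →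
    ∀ (h L w R δ x x' : ℝ), 0 < h → h ≤ 1 / 2 → 1 ≤ L → 0 < δ → δ < 1 / 8 →
    w = L ^ δ / (L / h) → R = L ^ (-(δ / 2)) * (L / h) → 0 ≤ x → x ≤ h → 0 ≤ x' → x' ≤ h →
    ∑ p ∈ (Finset.Icc 1 ⌊Real.exp (2 * R)⌋₊).filter Nat.Prime,
      ‖ap u w R (h⁻¹ * L ^ δ) (h⁻¹ * L ^ (1 - 2 * δ)) x x' p‖ ^ 2 ≤
      C + 5 / 2 * (δ * Real.log L) + C * (L ^ (-(2 * δ)) * (Real.log L + C)) := by
  classical
  obtain ⟨C, hC0, hCB⟩ := hC
  refine ⟨2 * C + 6 + 4 * 329 ^ 2, by positivity, ?_⟩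
  intro u hu h L w R δ x x' hh h12 hL hδ hδ8 hw hR hx hxh hx' hxh'
  have hL0 : 0 < L := by linarith
  have hlogL : 0 ≤ Real.log L := Real.log_nonneg hL
  have hi2 : 2 ≤ h⁻¹ := by
    rw [le_inv_comm₀ (by norm_num) hh]
    linarith
  have hi0 : 0 < h⁻¹ := by linarith
  set lo := h⁻¹ * L ^ δ with hlo
  set hi := h⁻¹ * L ^ (1 - 2 * δ) with hhi
  have hLδ : 1 ≤ L ^ δ := Real.one_le_rpow hL hδ.le
  have hhl : h⁻¹ ≤ lo := le_mul_of_one_le_right hi0.le hLδ
  have hlohi : lo ≤ hi := by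
    apply mul_le_mul_of_nonneg_left _ hi0.le
    exact Real.rpow_le_rpow_of_exponent_le hL (by linarith)
  have hR' : R = h⁻¹ * L ^ (1 - δ / 2) := by
    have e : L ^ (1 - δ / 2) = L ^ (-(δ / 2)) * L := by
      rw [show 1 - δ / 2 = -(δ / 2) + 1 by ring, Real.rpow_add hL0, Real.rpow_one]
    rw [hR, e, div_eq_mul_inv]
    ring
  have hR0 : 0 < R := by rw [hR']; positivity
  have hhiR : hi ≤ 2 * R := by
    have : L ^ (1 - 2 * δ) ≤ L ^ (1 - δ / 2) := Real.rpow_le_rpow_of_exponent_le hL (by linarith)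
    have h3 : hi ≤ R := by
      rw [hR']
      exact mul_le_mul_of_nonneg_left this hi0.le
    linarith
  have hw' : w = h * L ^ (δ - 1) := by
    rw [hw, Real.rpow_sub_one hL0.ne']
    field_simp
  have hw0 : 0 < w := by rw [hw']; positivity
  have hlo1 : 1 ≤ lo := by linarith
  -- the quality in the block
  set κ : ℝ := 329 * L ^ (-δ) with hκ
  have hLm : ∀ a : ℝ, δ ≤ a → L ^ (-a) ≤ L ^ (-δ) := fun a ha =>
    Real.rpow_le_rpow_of_exponent_le hL (by linarith)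
  have hblock : ∀ y : ℝ, lo < y → y ≤ hi →
      4 * Real.exp (-y ^ 2 / 2) + 160 * (1 + y ^ 2) / R ^ 2 + w * y ≤ κ := by
    intro y hy1 hy2
    have hy0 : 0 < y := by linarith
    have e1 : Real.exp (-y ^ 2 / 2) ≤ 2 * L ^ (-δ) := by
      refine (exp_two_ge hy0).trans ?_
      have h3 : L ^ δ ≤ y := by
        have : L ^ δ ≤ lo := by
          rw [hlo]
          exact le_mul_of_one_le_left (by positivity) (by linarith)
        linarith
      have h4 : L ^ δ ≤ y ^ 2 := by nlinarith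
      rw [Real.rpow_neg hL0.le, ← div_eq_mul_inv]
      exact div_le_div_of_nonneg_left (by norm_num) (by positivity) h4
    have e2 : 160 * (1 + y ^ 2) / R ^ 2 ≤ 320 * L ^ (-δ) := by
      have h3 : 1 + y ^ 2 ≤ 2 * hi ^ 2 := by
        have h5 : y ^ 2 ≤ hi ^ 2 := pow_le_pow_left₀ hy0.le hy2 2
        have h6 : 1 ≤ hi ^ 2 := one_le_pow₀ (by linarith)
        linarith
      have h4 : hi ^ 2 / R ^ 2 = L ^ (-(3 * δ)) := by
        rw [hhi, hR', mul_pow, mul_pow, mul_div_mul_left _ _ (by positivity), ← Real.rpow_natCast,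
          ← Real.rpow_natCast, ← Real.rpow_mul hL0.le, ← Real.rpow_mul hL0.le, ← Real.rpow_sub hL0]
        congr 1
        push_cast
        ring
      have h5 := hLm (3 * δ) (by linarith)
      calc 160 * (1 + y ^ 2) / R ^ 2 ≤ 160 * (2 * hi ^ 2) / R ^ 2 := by
            apply div_le_div_of_nonneg_right _ (by positivity)
            linarith
        _ = 320 * (hi ^ 2 / R ^ 2) := by ring
        _ = 320 * L ^ (-(3 * δ)) := by rw [h4]
        _ ≤ _ := by linarith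
    have e3 : w * y ≤ L ^ (-δ) := by
      calc w * y ≤ w * hi := mul_le_mul_of_nonneg_left hy2 hw0.le
        _ = L ^ (δ - 1) * L ^ (1 - 2 * δ) := by
            rw [hw', hhi]
            field_simp
        _ = L ^ (-δ) := by
            rw [← Real.rpow_add hL0]
            congr 1
            ring
    rw [hκ]
    linarith
  -- the union
  set f : ℕ → ℝ := fun p => ‖ap u w R lo hi x x' p‖ ^ 2 with hf
  have hf0 : ∀ p, 0 ≤ f p := fun p => sq_nonneg _
  have hsub : (Finset.Icc 1 ⌊Real.exp (2 * R)⌋₊).filter Nat.Prime ⊆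
      (Finset.Icc 1 ⌊Real.exp h⁻¹⌋₊).filter Nat.Prime ∪ (PB h⁻¹ lo ∪ (PB lo hi ∪ PB hi (2 * R))) := by
    intro p hp
    rw [Finset.mem_filter, Finset.mem_Icc, Nat.le_floor_iff (Real.exp_pos _).le] at hp
    obtain ⟨⟨hp1, hp2⟩, hpp⟩ := hp
    have hp0 : (0 : ℝ) < p := by exact_mod_cast hpp.pos
    have hpl : Real.log p ≤ 2 * R := (Real.log_le_iff_le_exp hp0).2 hp2
    rw [Finset.mem_union, Finset.mem_union, Finset.mem_union, mem_PB, mem_PB, mem_PB,
      Finset.mem_filter, Finset.mem_Icc, Nat.le_floor_iff (Real.exp_pos _).le,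
      ← Real.log_le_iff_le_exp hp0]
    by_cases a1 : Real.log p ≤ h⁻¹
    · exact Or.inl ⟨⟨hp1, a1⟩, hpp⟩
    · push Not at a1
      by_cases a2 : Real.log p ≤ lo
      · exact Or.inr (Or.inl ⟨hpp, a1, a2⟩)
      · push Not at a2
        by_cases a3 : Real.log p ≤ hi
        · exact Or.inr (Or.inr (Or.inl ⟨hpp, a2, a3⟩))
        · push Not at a3
          exact Or.inr (Or.inr (Or.inr ⟨hpp, a3, hpl⟩))
  have hsum : ∑ p ∈ (Finset.Icc 1 ⌊Real.exp (2 * R)⌋₊).filter Nat.Prime, f p ≤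
      ∑ p ∈ (Finset.Icc 1 ⌊Real.exp h⁻¹⌋₊).filter Nat.Prime, f p + (∑ p ∈ PB h⁻¹ lo, f p +
        (∑ p ∈ PB lo hi, f p + ∑ p ∈ PB hi (2 * R), f p)) := by
    refine (Finset.sum_le_sum_of_subset_of_nonneg hsub (fun p _ _ => hf0 p)).trans ?_
    refine (sum_union_le hf0).trans ?_
    refine add_le_add_right ((sum_union_le hf0).trans ?_) _
    exact add_le_add_right (sum_union_le hf0) _
  -- the four parts
  have hsq : ∀ p : ℕ, (1 / Real.sqrt p) ^ 2 = 1 / (p : ℝ) := by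
    intro p
    rw [div_pow, one_pow, Real.sq_sqrt (Nat.cast_nonneg p)]
  have s1 : ∑ p ∈ (Finset.Icc 1 ⌊Real.exp h⁻¹⌋₊).filter Nat.Prime, f p ≤ 4 := by
    refine le_trans (Finset.sum_le_sum fun p hp => ?_) (sum_small hh h12)
    rw [Finset.mem_filter, Finset.mem_Icc, Nat.le_floor_iff (Real.exp_pos _).le] at hp
    obtain ⟨⟨hp1, hp2⟩, hpp⟩ := hp
    have hp0 : (0 : ℝ) < p := by exact_mod_cast hpp.pos
    have hpl : Real.log p ≤ h⁻¹ := (Real.log_le_iff_le_exp hp0).2 hp2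
    have hl0 : 0 ≤ Real.log p := Real.log_natCast_nonneg p
    have h3 := ap_le' hP hu (w := w) hR0 lo hi x x' p (by
      rintro ⟨h4, _⟩
      linarith)
    have h4 : ‖ee p x - ee p x'‖ ≤ h * Real.log p := by
      refine (dd_le p x x').trans (mul_le_mul_of_nonneg_right ?_ hl0)
      rw [abs_le]
      constructor <;> linarith
    have h5 : h * Real.log p ≤ 1 := by
      calc h * Real.log p ≤ h * h⁻¹ := mul_le_mul_of_nonneg_left hpl hh.le
        _ = 1 := mul_inv_cancel₀ hh.ne'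
    have h6 : f p ≤ (1 / Real.sqrt p * (h * Real.log p)) ^ 2 := by
      rw [hf]
      apply pow_le_pow_left₀ (norm_nonneg _)
      calc _ ≤ 1 / Real.sqrt p * ‖ee p x - ee p x'‖ * (1 / 3) := h3
        _ ≤ 1 / Real.sqrt p * ‖ee p x - ee p x'‖ * 1 := by
            apply mul_le_mul_of_nonneg_left (by norm_num) (by positivity)
        _ = 1 / Real.sqrt p * ‖ee p x - ee p x'‖ := mul_one _
        _ ≤ _ := mul_le_mul_of_nonneg_left h4 (by positivity)
    refine h6.trans ?_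
    rw [mul_pow, hsq, vonMangoldt_apply_prime hpp]
    have h7 : (h * Real.log p) ^ 2 ≤ h * Real.log p := by nlinarith [mul_nonneg hh.le hl0]
    calc 1 / (p : ℝ) * (h * Real.log p) ^ 2 ≤ 1 / (p : ℝ) * (h * Real.log p) :=
          mul_le_mul_of_nonneg_left h7 (by positivity)
      _ = _ := by ring
  have hgen : ∀ p : ℕ, ¬ (lo < Real.log p ∧ Real.log p ≤ hi) → f p ≤ 1 / (p : ℝ) := by
    intro p hp
    have h3 := ap_le' hP hu (w := w) hR0 lo hi x x' p hp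
    have h4 := dd_le_two p x x'
    have h6 : f p ≤ (1 / Real.sqrt p) ^ 2 := by
      rw [hf]
      apply pow_le_pow_left₀ (norm_nonneg _)
      have h5 : (0 : ℝ) ≤ 1 / Real.sqrt p := by positivity
      calc _ ≤ 1 / Real.sqrt p * ‖ee p x - ee p x'‖ * (1 / 3) := h3
        _ = 1 / Real.sqrt p * (‖ee p x - ee p x'‖ * (1 / 3)) := by ring
        _ ≤ 1 / Real.sqrt p * 1 := mul_le_mul_of_nonneg_left (by linarith) h5
        _ = _ := mul_one _
    rwa [hsq] at h6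
  have s2 : ∑ p ∈ PB h⁻¹ lo, f p ≤ δ * Real.log L + C := by
    have h3 : ∑ p ∈ PB h⁻¹ lo, f p ≤ ∑ p ∈ PB h⁻¹ lo, 1 / (p : ℝ) := by
      refine Finset.sum_le_sum fun p hp => hgen p ?_
      rintro ⟨h4, _⟩
      exact absurd (mem_PB.1 hp).2.2 (not_le.2 h4)
    have h4 := (hCB h⁻¹ lo (by linarith) hhl).1
    have h5 : Real.log (lo / h⁻¹) = δ * Real.log L := by
      rw [hlo, mul_div_cancel_left₀ _ hi0.ne', Real.log_rpow hL0]
    have h6 : C / h⁻¹ ≤ C := div_le_self hC0.le (by linarith)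
    rw [h5] at h4
    have h7 := (abs_le.1 h4).2
    linarith
  have s3 : ∑ p ∈ PB lo hi, f p ≤ 4 * 329 ^ 2 * (L ^ (-(2 * δ)) * (Real.log L + C)) := by
    have h3 : ∑ p ∈ PB lo hi, f p ≤ ∑ p ∈ PB lo hi, (4 * 329 ^ 2 * L ^ (-(2 * δ))) * (1 / (p : ℝ)) := by
      refine Finset.sum_le_sum fun p hp => ?_
      obtain ⟨hpp, hp1, hp2⟩ := mem_PB.1 hp
      have h4 := ap_le_block hP hu (w := w) hR0 hw0 lo hi x x' p ⟨hp1, hp2⟩ κ (hblock _ hp1 hp2)
      have h5 := dd_le_two p x x'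
      have h6 : f p ≤ (1 / Real.sqrt p * (2 * κ)) ^ 2 := by
        rw [hf]
        apply pow_le_pow_left₀ (norm_nonneg _)
        have h7 : (0 : ℝ) ≤ 1 / Real.sqrt p := by positivity
        have h8 : 0 ≤ κ := by rw [hκ]; positivity
        calc _ ≤ 1 / Real.sqrt p * ‖ee p x - ee p x'‖ * κ := h4
          _ = 1 / Real.sqrt p * (‖ee p x - ee p x'‖ * κ) := by ring
          _ ≤ _ := mul_le_mul_of_nonneg_left (mul_le_mul_of_nonneg_right h5 h8) h7
      refine h6.trans (le_of_eq ?_)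
      rw [mul_pow, hsq, hκ]
      have h7 : (L ^ (-δ)) ^ 2 = L ^ (-(2 * δ)) := by
        rw [← Real.rpow_natCast, ← Real.rpow_mul hL0.le]
        congr 1
        push_cast
        ring
      rw [← h7]
      ring
    rw [← Finset.mul_sum] at h3
    have h4 := (hCB lo hi hlo1 hlohi).1
    have h5 : Real.log (hi / lo) ≤ Real.log L := by
      have e : hi / lo = L ^ (1 - 3 * δ) := by
        rw [hhi, hlo, mul_div_mul_left _ _ hi0.ne', ← Real.rpow_sub hL0]
        congr 1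
        ring
      rw [e, Real.log_rpow hL0]
      nlinarith
    have h6 : C / lo ≤ C := div_le_self hC0.le hlo1
    have h7 := (abs_le.1 h4).2
    have h8 : ∑ p ∈ PB lo hi, 1 / (p : ℝ) ≤ Real.log L + C := by linarith
    refine h3.trans ?_
    rw [← mul_assoc]
    exact mul_le_mul_of_nonneg_left h8 (by positivity)
  have s4 : ∑ p ∈ PB hi (2 * R), f p ≤ 1 + 3 / 2 * (δ * Real.log L) + C := by
    have h3 : ∑ p ∈ PB hi (2 * R), f p ≤ ∑ p ∈ PB hi (2 * R), 1 / (p : ℝ) := by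
      refine Finset.sum_le_sum fun p hp => hgen p ?_
      rintro ⟨_, h4⟩
      exact absurd (mem_PB.1 hp).2.1 (not_lt.2 h4)
    have h4 := (hCB hi (2 * R) (hlo1.trans hlohi) hhiR).1
    have h5 : Real.log (2 * R / hi) = Real.log 2 + 3 / 2 * (δ * Real.log L) := by
      have e : 2 * R / hi = 2 * L ^ (3 / 2 * δ) := by
        rw [hhi, hR', ← mul_assoc, mul_comm 2 h⁻¹, mul_assoc, mul_div_mul_left _ _ hi0.ne',
          mul_div_assoc, ← Real.rpow_sub hL0]
        congr 2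
        ring
      rw [e, Real.log_mul (by norm_num) (by positivity), Real.log_rpow hL0]
      ring
    have h6 : C / hi ≤ C := div_le_self hC0.le (hlo1.trans hlohi)
    rw [h5] at h4
    have h7 := (abs_le.1 h4).2
    have h8 : Real.log 2 ≤ 1 := by linarith [Real.log_two_lt_d9]
    linarith
  have hE0 : 0 ≤ L ^ (-(2 * δ)) * (Real.log L + C) := by positivity
  have hE1 : L ^ (-(2 * δ)) * (Real.log L + C) ≤
      L ^ (-(2 * δ)) * (Real.log L + (2 * C + 6 + 4 * 329 ^ 2)) := by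
    apply mul_le_mul_of_nonneg_left _ (by positivity)
    linarith
  have hE2 : 4 * 329 ^ 2 * (L ^ (-(2 * δ)) * (Real.log L + C)) ≤
      (2 * C + 6 + 4 * 329 ^ 2) * (L ^ (-(2 * δ)) * (Real.log L + (2 * C + 6 + 4 * 329 ^ 2))) := by
    apply mul_le_mul _ hE1 hE0 (by positivity)
    linarith
  linarith

lemma markov {P : ℝ → ℝ} (hP : Continuous P) (h0 : ∀ t, 0 ≤ P t) {T B lam : ℝ} (hT : 0 < T)
    (hl : 0 < lam) (k : ℕ) (hB : ∫ t in T..(2 * T), P t ^ k ≤ B) :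
    volume {t : ℝ | T ≤ t ∧ t ≤ 2 * T ∧ lam < P t} ≤ ENNReal.ofReal (B / lam ^ k) := by
  have hlk : 0 < lam ^ k := by positivity
  set μ : Measure ℝ := volume.restrict (Icc T (2 * T)) with hμ
  have hPk : Continuous fun t => P t ^ k := hP.pow k
  have hint : Integrable (fun t => P t ^ k) μ := hPk.integrableOn_Icc
  have h1 : lam ^ k * μ.real {t | lam ^ k ≤ P t ^ k} ≤ ∫ t, P t ^ k ∂μ :=
    mul_meas_ge_le_integral_of_nonneg (Filter.Eventually.of_forall fun t => pow_nonneg (h0 t) k) hint _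
  have h2 : ∫ t, P t ^ k ∂μ ≤ B := by
    rw [hμ, MeasureTheory.integral_Icc_eq_integral_Ioc, ← intervalIntegral.integral_of_le (by linarith)]
    exact hB
  have hfin : μ {t | lam ^ k ≤ P t ^ k} ≠ ⊤ := by
    have : μ {t | lam ^ k ≤ P t ^ k} ≤ μ univ := measure_mono (subset_univ _)
    refine ne_top_of_le_ne_top ?_ this
    rw [hμ, Measure.restrict_apply_univ, Real.volume_Icc]
    exact ENNReal.ofReal_ne_top
  have h3 : {t : ℝ | T ≤ t ∧ t ≤ 2 * T ∧ lam < P t} ⊆ {t | lam ^ k ≤ P t ^ k} ∩ Icc T (2 * T) := by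
    rintro t ⟨h4, h5, h6⟩
    exact ⟨pow_le_pow_left₀ hl.le h6.le k, h4, h5⟩
  have h4 : volume ({t | lam ^ k ≤ P t ^ k} ∩ Icc T (2 * T)) = μ {t | lam ^ k ≤ P t ^ k} := by
    rw [hμ, Measure.restrict_apply (measurableSet_le measurable_const hPk.measurable)]
  refine (measure_mono h3).trans ?_
  rw [h4, ← ENNReal.ofReal_toReal hfin]
  apply ENNReal.ofReal_le_ofReal
  rw [le_div_iff₀ hlk]
  have h5 : (μ {t | lam ^ k ≤ P t ^ k}).toReal = μ.real {t | lam ^ k ≤ P t ^ k} := rfl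
  rw [h5]
  linarith

/-- moments of a prime polynomial, frequencies `t` -/
lemma moment1 (hM : S_MP) {m N : ℕ} {a : ℕ → ℂ} {T S lam : ℝ} (hm : 1 ≤ m) (hN : 1 ≤ N) (hT : 1 ≤ T)
    (ha : ∀ p, ‖a p‖ ≤ 1) (hNT : (N : ℝ) ^ (4 * m) ≤ T)
    (hS : ∑ p ∈ (Finset.Icc 1 N).filter Nat.Prime, ‖a p‖ ^ 2 ≤ S) (hl : 0 < lam) :
    volume {t : ℝ | T ≤ t ∧ t ≤ 2 * T ∧ lam < ‖∑ p ∈ (Finset.Icc 1 N).filter Nat.Prime, a p * ee p t‖} ≤
      ENNReal.ofReal (4 * (m.factorial : ℝ) * m ^ 2 * (1 + S) ^ m * T / lam ^ (2 * m)) := by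
  have hc : Continuous fun t : ℝ => ‖∑ p ∈ (Finset.Icc 1 N).filter Nat.Prime, a p * ee p t‖ :=
    (continuous_finsetSum _ fun p _ => continuous_const.mul (cont_ee p)).norm
  refine markov hc (fun t => norm_nonneg _) (by linarith) hl (2 * m) ?_
  refine (hM m N a T hm hN hT ha hNT).trans ?_
  have h0 : 0 ≤ ∑ p ∈ (Finset.Icc 1 N).filter Nat.Prime, ‖a p‖ ^ 2 :=
    Finset.sum_nonneg fun p _ => sq_nonneg _
  apply mul_le_mul_of_nonneg_right _ (by linarith)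
  apply mul_le_mul_of_nonneg_left _ (by positivity)
  exact pow_le_pow_left₀ (by linarith) (by linarith) m

/-- moments of a prime polynomial, frequencies `2 t` -/
lemma moment2 (hM : S_MP) {m N : ℕ} {a : ℕ → ℂ} {T S lam : ℝ} (hm : 1 ≤ m) (hN : 1 ≤ N) (hT : 1 ≤ T)
    (ha : ∀ p, ‖a p‖ ≤ 1) (hNT : (N : ℝ) ^ (4 * m) ≤ T)
    (hS : ∑ p ∈ (Finset.Icc 1 N).filter Nat.Prime, ‖a p‖ ^ 2 ≤ S) (hl : 0 < lam) :
    volume {t : ℝ | T ≤ t ∧ t ≤ 2 * T ∧
      lam < ‖∑ p ∈ (Finset.Icc 1 N).filter Nat.Prime, a p * ee p (2 * t)‖} ≤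
      ENNReal.ofReal (4 * (m.factorial : ℝ) * m ^ 2 * (1 + S) ^ m * T / lam ^ (2 * m)) := by
  have hc : Continuous fun t : ℝ => ‖∑ p ∈ (Finset.Icc 1 N).filter Nat.Prime, a p * ee p (2 * t)‖ :=
    (continuous_finsetSum _ fun p _ => continuous_const.mul
      ((cont_ee p).comp (continuous_const.mul continuous_id))).norm
  refine markov hc (fun t => norm_nonneg _) (by linarith) hl (2 * m) ?_
  have h1 := hM m N a (2 * T) hm hN (by linarith) ha (by linarith)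
  have h2 : ∫ t in T..(2 * T), ‖∑ p ∈ (Finset.Icc 1 N).filter Nat.Prime, a p * ee p (2 * t)‖ ^ (2 * m) =
      (2 : ℝ)⁻¹ * ∫ t in (2 * T)..(2 * (2 * T)),
        ‖∑ p ∈ (Finset.Icc 1 N).filter Nat.Prime, a p * ee p t‖ ^ (2 * m) := by
    have h3 := intervalIntegral.integral_comp_mul_left (a := T) (b := 2 * T)
      (fun t : ℝ => ‖∑ p ∈ (Finset.Icc 1 N).filter Nat.Prime, a p * ee p t‖ ^ (2 * m))
      (two_ne_zero : (2 : ℝ) ≠ 0)
    rw [h3, smul_eq_mul]
  rw [h2]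
  have h0 : 0 ≤ ∑ p ∈ (Finset.Icc 1 N).filter Nat.Prime, ‖a p‖ ^ 2 :=
    Finset.sum_nonneg fun p _ => sq_nonneg _
  have h4 : (1 + ∑ p ∈ (Finset.Icc 1 N).filter Nat.Prime, ‖a p‖ ^ 2) ^ m ≤ (1 + S) ^ m :=
    pow_le_pow_left₀ (by linarith) (by linarith) m
  have h5 : 4 * (m.factorial : ℝ) * m ^ 2 *
      (1 + ∑ p ∈ (Finset.Icc 1 N).filter Nat.Prime, ‖a p‖ ^ 2) ^ m * (2 * T) ≤
      4 * (m.factorial : ℝ) * m ^ 2 * (1 + S) ^ m * (2 * T) := by
    apply mul_le_mul_of_nonneg_right _ (by linarith)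
    exact mul_le_mul_of_nonneg_left h4 (by positivity)
  linarith

/-- the numerical estimate -/
lemma num_le {m : ℕ} {l S lam T : ℝ} (hl : 1 ≤ l) (hm1 : 8 * l ≤ m) (hm2 : (m : ℝ) ≤ 9 * l)
    (hlam : 0 < lam) (hS : 0 ≤ S) (hT : 0 ≤ T) (h3 : 3 * (m * (1 + S)) ≤ lam ^ 2) :
    4 * (m.factorial : ℝ) * m ^ 2 * (1 + S) ^ m * T / lam ^ (2 * m) ≤
      324 * l ^ 2 * Real.exp (-(8 * l)) * T := by
  have hm0 : (0 : ℝ) < m := by linarith
  have h4 : (m.factorial : ℝ) ≤ (m : ℝ) ^ m := by exact_mod_cast Nat.factorial_le_pow m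
  have h5 : ((m : ℝ) * (1 + S)) / lam ^ 2 ≤ 1 / 3 := by
    rw [div_le_div_iff₀ (by positivity) (by norm_num)]
    linarith
  have h6 : (1 / 3 : ℝ) ≤ Real.exp (-1) := by
    rw [Real.exp_neg, one_div]
    apply inv_anti₀ (Real.exp_pos _)
    linarith [Real.exp_one_lt_d9]
  have h7 : (((m : ℝ) * (1 + S)) / lam ^ 2) ^ m ≤ Real.exp (-(8 * l)) := by
    calc (((m : ℝ) * (1 + S)) / lam ^ 2) ^ m ≤ (Real.exp (-1)) ^ m :=
          pow_le_pow_left₀ (by positivity) (h5.trans h6) m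
      _ = Real.exp (m * (-1)) := by rw [← Real.exp_nat_mul]
      _ ≤ _ := Real.exp_le_exp.2 (by linarith)
  have h8 : (m : ℝ) ^ 2 ≤ 81 * l ^ 2 := by nlinarith
  calc 4 * (m.factorial : ℝ) * m ^ 2 * (1 + S) ^ m * T / lam ^ (2 * m)
      ≤ 4 * (m : ℝ) ^ m * m ^ 2 * (1 + S) ^ m * T / lam ^ (2 * m) := by
        apply div_le_div_of_nonneg_right _ (by positivity)
        gcongr
    _ = 4 * m ^ 2 * (((m : ℝ) * (1 + S)) / lam ^ 2) ^ m * T := by
        rw [div_pow, mul_pow, ← pow_mul]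
        ring
    _ ≤ 4 * (81 * l ^ 2) * Real.exp (-(8 * l)) * T := by
        apply mul_le_mul_of_nonneg_right _ hT
        exact mul_le_mul (by linarith) h7 (by positivity) (by positivity)
    _ = _ := by ring

end RSL

open RSL in
/-- (RS) -/
theorem t_RS (hM : S_MP) (hP : S_PH) (hC : S_CB) : S_RS := by
  intro u hu ε hε
  obtain ⟨C1, hC1, hdec⟩ := decomp hP
  obtain ⟨C, hC0, hsum⟩ := sum_ap hP hC
  have hZ := Pool.Agent.H203.ME.PRML.Z1_nonneg
  set Z := Pool.Agent.H203.ME.PRML.Z1 with hZd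
  refine ⟨min (1 / 8) (ε ^ 2 / 2160), lt_min (by norm_num) (by positivity), ?_⟩
  intro δ hδ hδ0
  have hδ8 : δ < 1 / 8 := lt_of_lt_of_le hδ0 (min_le_left _ _)
  have hδε : δ < ε ^ 2 / 2160 := lt_of_lt_of_le hδ0 (min_le_right _ _)
  have ev : ∀ᶠ L : ℝ in atTop, (64 ≤ L ∧ 1 ≤ Real.log L ∧ (1 + 2 * C) / (5 / 2 * δ) ≤ Real.log L) ∧
      (432 * (1 + Z) / ε ^ 2 ≤ Real.log L ∧ 2 * C1 / ε ≤ Real.log L) ∧
      (Real.log L + C ≤ L ^ (2 * δ) ∧ 72 * Real.log L ≤ L ^ (δ / 2)) := by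
    have hlog := Real.tendsto_log_atTop
    have e1 : ∀ᶠ L : ℝ in atTop, Real.log L + C ≤ L ^ (2 * δ) := by
      have h1 := (isLittleO_log_rpow_atTop (r := 2 * δ) (by linarith)).bound
        (show (0 : ℝ) < 1 / 2 by norm_num)
      have h2 := (tendsto_rpow_atTop (y := 2 * δ) (by linarith)).eventually_ge_atTop (2 * C)
      filter_upwards [h1, h2, eventually_ge_atTop (1 : ℝ)] with L h3 h4 h5
      rw [Real.norm_of_nonneg (Real.log_nonneg h5), Real.norm_of_nonneg (by positivity)] at h3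
      linarith
    have e2 : ∀ᶠ L : ℝ in atTop, 72 * Real.log L ≤ L ^ (δ / 2) := by
      have h1 := (isLittleO_log_rpow_atTop (r := δ / 2) (by linarith)).bound
        (show (0 : ℝ) < 1 / 72 by norm_num)
      filter_upwards [h1, eventually_ge_atTop (1 : ℝ)] with L h3 h5
      rw [Real.norm_of_nonneg (Real.log_nonneg h5), Real.norm_of_nonneg (by positivity)] at h3
      linarith
    filter_upwards [eventually_ge_atTop (64 : ℝ), hlog.eventually_ge_atTop 1,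
      hlog.eventually_ge_atTop ((1 + 2 * C) / (5 / 2 * δ)),
      hlog.eventually_ge_atTop (432 * (1 + Z) / ε ^ 2), hlog.eventually_ge_atTop (2 * C1 / ε),
      e1, e2] with L a1 a2 a3 a4 a5 a6 a7
    exact ⟨⟨a1, a2, a3⟩, ⟨a4, a5⟩, a6, a7⟩
  obtain ⟨L0, hL0⟩ := eventually_atTop.1 ev
  refine ⟨max L0 3, le_max_right _ _, ?_⟩
  intro T h L w R hT hh h12 hL hLL hw hR x x' hx hxh hx' hxh'
  obtain ⟨⟨g1, g2, g3⟩, ⟨g4, g5⟩, g6, g7⟩ := hL0 L ((le_max_left _ _).trans hLL)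
  have hLpos : 0 < L := by linarith
  have hT0 : 0 < T := by linarith
  have hlT : Real.log T = L / h := by
    rw [hL]
    field_simp
  have hlT0 : 0 < Real.log T := Real.log_pos hT
  set l := Real.log L with hl
  have hl0 : 0 < l := by linarith
  rw [hlT] at hw hR
  have hR' : R = h⁻¹ * L ^ (1 - δ / 2) := by
    have e : L ^ (1 - δ / 2) = L ^ (-(δ / 2)) * L := by
      rw [show 1 - δ / 2 = -(δ / 2) + 1 by ring, Real.rpow_add hLpos, Real.rpow_one]
    rw [hR, e, div_eq_mul_inv]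
    ring
  have hi2 : 2 ≤ h⁻¹ := by
    rw [le_inv_comm₀ (by norm_num) hh]
    linarith
  have hR16 : 16 ≤ R := by
    have h1 : (8 : ℝ) ≤ L ^ (1 - δ / 2) := by
      calc (8 : ℝ) = Real.sqrt 64 := by
            rw [show (64 : ℝ) = 8 ^ 2 by norm_num, Real.sqrt_sq (by norm_num)]
        _ ≤ Real.sqrt L := Real.sqrt_le_sqrt g1
        _ = L ^ (1 / 2 : ℝ) := Real.sqrt_eq_rpow L
        _ ≤ L ^ (1 - δ / 2) := Real.rpow_le_rpow_of_exponent_le (by linarith) (by linarith)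
    rw [hR']
    nlinarith
  have hR0 : 0 < R := by linarith
  have hhiR : h⁻¹ * L ^ (1 - 2 * δ) ≤ 2 * R := by
    have : L ^ (1 - 2 * δ) ≤ L ^ (1 - δ / 2) :=
      Real.rpow_le_rpow_of_exponent_le (by linarith) (by linarith)
    have h3 : h⁻¹ * L ^ (1 - 2 * δ) ≤ R := by
      rw [hR']
      exact mul_le_mul_of_nonneg_left this (by positivity)
    linarith
  -- the parameters
  set m : ℕ := ⌈8 * l⌉₊ with hm
  have hm1 : 8 * l ≤ m := Nat.le_ceil _
  have hm2 : (m : ℝ) ≤ 9 * l := by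
    have := (Nat.ceil_lt_add_one (show 0 ≤ 8 * l by positivity)).le
    linarith
  have hmpos : 1 ≤ m := by
    have : (0 : ℝ) < m := by linarith
    exact_mod_cast this
  set N : ℕ := ⌊Real.exp (2 * R)⌋₊ with hN
  have hN1 : 1 ≤ N := by
    rw [hN, Nat.one_le_floor_iff]
    exact Real.one_le_exp (by linarith)
  have hNT : (N : ℝ) ^ (4 * m) ≤ T := by
    have h1 : (N : ℝ) ≤ Real.exp (2 * R) := Nat.floor_le (Real.exp_pos _).le
    calc (N : ℝ) ^ (4 * m) ≤ (Real.exp (2 * R)) ^ (4 * m) := pow_le_pow_left₀ (Nat.cast_nonneg _) h1 _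
      _ = Real.exp ((4 * m : ℕ) * (2 * R)) := by rw [← Real.exp_nat_mul]
      _ ≤ Real.exp (Real.log T) := by
          apply Real.exp_le_exp.2
          push_cast
          have h2 : L ^ (-(δ / 2)) * (72 * l) ≤ 1 := by
            calc L ^ (-(δ / 2)) * (72 * l) ≤ L ^ (-(δ / 2)) * L ^ (δ / 2) :=
                  mul_le_mul_of_nonneg_left g7 (by positivity)
              _ = 1 := by
                  rw [← Real.rpow_add hLpos]
                  simp
          have h3 : 4 * (m : ℝ) * (2 * R) ≤ 72 * l * R := by nlinarith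
          have h4 : 72 * l * R = (L ^ (-(δ / 2)) * (72 * l)) * (L / h) := by
            rw [hR]
            ring
          rw [hlT]
          have h5 : 0 < L / h := by positivity
          have h6 : (L ^ (-(δ / 2)) * (72 * l)) * (L / h) ≤ 1 * (L / h) :=
            mul_le_mul_of_nonneg_right h2 h5.le
          linarith
      _ = T := Real.exp_log hT0
  set lam : ℝ := ε * l / 4 with hlam
  have hlam0 : 0 < lam := by positivity
  have hlam2 : lam ^ 2 = ε ^ 2 * l ^ 2 / 16 := by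
    rw [hlam]
    ring
  set a : ℕ → ℂ := ap u w R (h⁻¹ * L ^ δ) (h⁻¹ * L ^ (1 - 2 * δ)) x x' with ha
  set b : ℕ → ℂ := sp u w R N x x' with hb
  -- the sums
  set S1 : ℝ := 2 * C + 5 / 2 * (δ * l) with hS1
  have hS1' : ∑ p ∈ (Finset.Icc 1 N).filter Nat.Prime, ‖a p‖ ^ 2 ≤ S1 := by
    refine (hsum u hu h L w R δ x x' hh h12 (by linarith) hδ hδ8 hw hR hx hxh hx' hxh').trans ?_
    have h1 : L ^ (-(2 * δ)) * (l + C) ≤ 1 := by
      calc L ^ (-(2 * δ)) * (l + C) ≤ L ^ (-(2 * δ)) * L ^ (2 * δ) :=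
            mul_le_mul_of_nonneg_left g6 (by positivity)
        _ = 1 := by
            rw [← Real.rpow_add hLpos]
            simp
    have h2 : C * (L ^ (-(2 * δ)) * (l + C)) ≤ C * 1 := mul_le_mul_of_nonneg_left h1 hC0.le
    rw [hS1]
    linarith
  have hS2' : ∑ p ∈ (Finset.Icc 1 N).filter Nat.Prime, ‖b p‖ ^ 2 ≤ Z := sum_sp hP hu hR0 N N x x'
  have hS10 : 0 ≤ S1 := by rw [hS1]; positivity
  -- the numerical conditions
  have c1 : 3 * (m * (1 + S1)) ≤ lam ^ 2 := by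
    rw [div_le_iff₀ (by positivity)] at g3
    have h1 : 1 + S1 ≤ 5 * (δ * l) := by
      rw [hS1]
      linarith
    have h2 : (m : ℝ) * (1 + S1) ≤ (9 * l) * (5 * (δ * l)) :=
      mul_le_mul hm2 h1 (by linarith) (by positivity)
    have h3 : 135 * δ * l ^ 2 ≤ ε ^ 2 / 16 * l ^ 2 := by
      apply mul_le_mul_of_nonneg_right _ (sq_nonneg l)
      rw [lt_div_iff₀ (by norm_num)] at hδε
      linarith
    rw [hlam2]
    nlinarith
  have c2 : 3 * (m * (1 + Z)) ≤ lam ^ 2 := by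
    rw [div_le_iff₀ (by positivity)] at g4
    have h2 : (m : ℝ) * (1 + Z) ≤ (9 * l) * (1 + Z) :=
      mul_le_mul_of_nonneg_right hm2 (by linarith)
    have h3 : l * (432 * (1 + Z)) ≤ l * (l * ε ^ 2) := mul_le_mul_of_nonneg_left g4 hl0.le
    rw [hlam2]
    nlinarith
  have n1 := num_le (T := T) g2 hm1 hm2 hlam0 hS10 hT0.le c1
  have n2 := num_le (T := T) g2 hm1 hm2 hlam0 hZ hT0.le c2
  have v1 := moment1 hM hmpos hN1 hT.le (fun p => ap_le_one hP hu (w := w) hR0 _ _ x x' p) hNT hS1' hlam0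
  have v2 := moment2 hM hmpos hN1 hT.le (fun p => sp_le_one hP hu (w := w) hR0 N x x' p) hNT hS2' hlam0
  -- the set
  have hsub : {t : ℝ | T ≤ t ∧ t ≤ 2 * T ∧ ε * l < |(Qs u w R (t + x) - Qs u w R (t + x')) -
      (Yb u (h⁻¹ * L ^ δ) (h⁻¹ * L ^ (1 - 2 * δ)) (t + x) -
        Yb u (h⁻¹ * L ^ δ) (h⁻¹ * L ^ (1 - 2 * δ)) (t + x'))|} ⊆
      {t : ℝ | T ≤ t ∧ t ≤ 2 * T ∧ lam < ‖∑ p ∈ (Finset.Icc 1 N).filter Nat.Prime, a p * ee p t‖} ∪
      {t : ℝ | T ≤ t ∧ t ≤ 2 * T ∧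
        lam < ‖∑ p ∈ (Finset.Icc 1 N).filter Nat.Prime, b p * ee p (2 * t)‖} := by
    rintro t ⟨t1, t2, t3⟩
    have h1 := hdec u hu w R (h⁻¹ * L ^ δ) (h⁻¹ * L ^ (1 - 2 * δ)) hR16 hhiR x x' t
    rw [← hN] at h1
    rw [div_le_iff₀ hε] at g5
    by_contra hcon
    rw [mem_union, not_or, mem_setOf_eq, mem_setOf_eq] at hcon
    have h2 : ‖∑ p ∈ (Finset.Icc 1 N).filter Nat.Prime, a p * ee p t‖ ≤ lam := by
      by_contra h3
      push Not at h3
      exact hcon.1 ⟨t1, t2, h3⟩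
    have h4 : ‖∑ p ∈ (Finset.Icc 1 N).filter Nat.Prime, b p * ee p (2 * t)‖ ≤ lam := by
      by_contra h3
      push Not at h3
      exact hcon.2 ⟨t1, t2, h3⟩
    rw [hlam] at h2 h4
    linarith
  refine (measure_mono hsub).trans ((measure_union_le _ _).trans ?_)
  have hfin : 324 * l ^ 2 * Real.exp (-(8 * l)) * T ≤ T * L ^ (-3 : ℝ) / 2 := by
    have h1 : Real.exp (-(8 * l)) = L ^ (-3 : ℝ) * L ^ (-5 : ℝ) := by
      rw [← Real.rpow_add hLpos, Real.rpow_def_of_pos hLpos]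
      congr 1
      rw [← hl]
      ring
    have h2 : 324 * l ^ 2 * L ^ (-5 : ℝ) ≤ 1 / 2 := by
      have h3 : l ≤ L := (Real.log_le_sub_one_of_pos hLpos).trans (by linarith)
      have h4 : l ^ 2 ≤ L ^ 2 := pow_le_pow_left₀ hl0.le h3 2
      rw [Real.rpow_neg hLpos.le, show (5 : ℝ) = ((5 : ℕ) : ℝ) by norm_num, Real.rpow_natCast,
        ← div_eq_mul_inv, div_le_div_iff₀ (by positivity) (by norm_num)]
      have h5 : (648 : ℝ) ≤ L ^ 3 := by
        calc (648 : ℝ) ≤ 64 ^ 3 := by norm_num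
          _ ≤ L ^ 3 := pow_le_pow_left₀ (by norm_num) g1 3
      have h6 : 648 * L ^ 2 ≤ L ^ 3 * L ^ 2 := mul_le_mul_of_nonneg_right h5 (sq_nonneg L)
      have h7 : L ^ 3 * L ^ 2 = L ^ 5 := by ring
      linarith
    have h3 : 0 ≤ T * L ^ (-3 : ℝ) := by positivity
    rw [h1]
    calc 324 * l ^ 2 * (L ^ (-3 : ℝ) * L ^ (-5 : ℝ)) * T =
          (T * L ^ (-3 : ℝ)) * (324 * l ^ 2 * L ^ (-5 : ℝ)) := by ring
      _ ≤ (T * L ^ (-3 : ℝ)) * (1 / 2) := mul_le_mul_of_nonneg_left h2 h3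
      _ = _ := by ring
  calc _ ≤ ENNReal.ofReal (T * L ^ (-3 : ℝ) / 2) + ENNReal.ofReal (T * L ^ (-3 : ℝ) / 2) :=
        add_le_add (v1.trans (ENNReal.ofReal_le_ofReal (n1.trans hfin)))
          (v2.trans (ENNReal.ofReal_le_ofReal (n2.trans hfin)))
    _ = ENNReal.ofReal (T * L ^ (-3 : ℝ)) := by
        rw [← ENNReal.ofReal_add (by positivity) (by positivity)]
        congr 1
        ring

end Pool.Agent.H203.HX
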