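import Pool.Agent.H203.HX.Defs

set_option autoImplicit false
set_option linter.unusedVariables false

/-! (SM) of project HX (helper353): first and second moment of the total weight. -/

open Complex Filter Topology Set MeasureTheory

namespace Pool.Agent.H203.HX

open Pool.Agent.H203.ME (ee)

namespace SML

/-! ### the Gaussian integrals -/

theorem P2_half {a V : ℝ} (hV : 0 ≤ V) :
    P2 (1 / 2) a V V = Real.exp (-(a ^ 2 / (2 * (1 + V)))) / Real.sqrt (1 + V) := by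
  unfold P2
  have h1 : (1 + 1 / 2 * V) ^ 2 - (1 / 2 * V) ^ 2 = 1 + V := by ring
  have h2 : (1 / 2 : ℝ) * a ^ 2 / (1 + 1 / 2 * (V + V)) = a ^ 2 / (2 * (1 + V)) := by
    have : (1 : ℝ) + V ≠ 0 := by positivity
    have e : (1 : ℝ) + 1 / 2 * (V + V) = 1 + V := by ring
    rw [e]
    field_simp
  rw [h1, h2]

theorem P2_half_pos {a V : ℝ} (hV : 0 ≤ V) : 0 < P2 (1 / 2) a V V := by
  rw [P2_half hV]
  have : 0 < Real.sqrt (1 + V) := Real.sqrt_pos.2 (by linarith)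
  positivity

theorem P2_half_sq {a V : ℝ} (hV : 0 ≤ V) :
    P2 (1 / 2) a V V ^ 2 = Real.exp (-(a ^ 2 / (1 + V))) / (1 + V) := by
  rw [P2_half hV, div_pow, Real.sq_sqrt (by linarith), ← Real.exp_nat_mul]
  congr 2
  have : (1 : ℝ) + V ≠ 0 := by positivity
  push_cast
  field_simp

theorem P2_one_le {a V ρ : ℝ} (hV : 0 ≤ V) (hρ : |ρ| ≤ 1 / 2) (ha : |a| ≤ 7 * (1 + V)) :
    P2 1 a V ρ ≤ Real.exp (100 * |ρ|) * P2 (1 / 2) a V V ^ 2 := by
  rw [P2_half_sq hV]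
  unfold P2
  have hb := abs_le.1 hρ
  have hV1 : (0 : ℝ) < 1 + V := by linarith
  have hV2 : (1 + V) / 2 ≤ 1 + V + ρ := by linarith [hb.1]
  have hV3 : 0 < 1 + V + ρ := by linarith
  have ha2 : a ^ 2 ≤ 49 * (1 + V) ^ 2 := by
    rw [← sq_abs a]
    calc |a| ^ 2 ≤ (7 * (1 + V)) ^ 2 := pow_le_pow_left₀ (abs_nonneg a) ha 2
      _ = 49 * (1 + V) ^ 2 := by ring
  -- the exponent
  have h1 : -(1 * a ^ 2 / (1 + 1 * (V + ρ))) ≤ 98 * |ρ| + -(a ^ 2 / (1 + V)) := by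
    have e1 : a ^ 2 / (1 + V) - 1 * a ^ 2 / (1 + 1 * (V + ρ)) =
        a ^ 2 * ρ / ((1 + V) * (1 + V + ρ)) := by
      have : (1 : ℝ) + V ≠ 0 := hV1.ne'
      have h' : (1 : ℝ) + V + ρ ≠ 0 := hV3.ne'
      have e2 : (1 : ℝ) + 1 * (V + ρ) = 1 + V + ρ := by ring
      rw [e2]
      field_simp
      ring
    have h2 : a ^ 2 * ρ / ((1 + V) * (1 + V + ρ)) ≤ 98 * |ρ| := by
      rw [div_le_iff₀ (mul_pos hV1 hV3)]
      have h3 : a ^ 2 * ρ ≤ 49 * (1 + V) ^ 2 * |ρ| :=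
        (mul_le_mul_of_nonneg_left (le_abs_self ρ) (sq_nonneg a)).trans
          (mul_le_mul_of_nonneg_right ha2 (abs_nonneg ρ))
      have h4 : (1 + V) * ((1 + V) / 2) ≤ (1 + V) * (1 + V + ρ) :=
        mul_le_mul_of_nonneg_left hV2 hV1.le
      have h5 : 98 * |ρ| * ((1 + V) * ((1 + V) / 2)) ≤ 98 * |ρ| * ((1 + V) * (1 + V + ρ)) :=
        mul_le_mul_of_nonneg_left h4 (by positivity)
      nlinarith
    linarith
  -- the square root
  have h2 : (1 + V) * Real.exp (-(2 * |ρ|)) ≤ Real.sqrt ((1 + 1 * V) ^ 2 - (1 * ρ) ^ 2) := by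
    apply Real.le_sqrt_of_sq_le
    rw [mul_pow, ← Real.exp_nat_mul]
    have e1 : ((2 : ℕ) : ℝ) * -(2 * |ρ|) = -(4 * |ρ|) := by push_cast; ring
    rw [e1]
    have h3 : Real.exp (-(4 * |ρ|)) ≤ 1 / (1 + 4 * |ρ|) := by
      rw [Real.exp_neg, ← one_div]
      refine one_div_le_one_div_of_le (by positivity) ?_
      have := Real.add_one_le_exp (4 * |ρ|)
      linarith
    have h4 : (1 + V) ^ 2 * Real.exp (-(4 * |ρ|)) ≤ (1 + V) ^ 2 * (1 / (1 + 4 * |ρ|)) :=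
      mul_le_mul_of_nonneg_left h3 (sq_nonneg _)
    refine h4.trans ?_
    have h5 : (0 : ℝ) < 1 + 4 * |ρ| := by positivity
    rw [mul_one_div, div_le_iff₀ h5]
    have h6 : (1 * ρ) ^ 2 = |ρ| ^ 2 := by rw [one_mul, sq_abs]
    rw [h6, one_mul]
    have h7 : 0 ≤ |ρ| := abs_nonneg ρ
    have h8 : (1 : ℝ) ≤ (1 + V) ^ 2 := by nlinarith
    nlinarith [mul_nonneg h7 h7, mul_nonneg h7 (sub_nonneg.2 hρ),
      mul_nonneg (mul_nonneg h7 h7) (sub_nonneg.2 hρ), mul_nonneg h7 (sub_nonneg.2 h8)]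
  have h3 : 0 < (1 + V) * Real.exp (-(2 * |ρ|)) := by positivity
  calc Real.exp (-(1 * a ^ 2 / (1 + 1 * (V + ρ)))) / Real.sqrt ((1 + 1 * V) ^ 2 - (1 * ρ) ^ 2)
      ≤ Real.exp (98 * |ρ| + -(a ^ 2 / (1 + V))) / ((1 + V) * Real.exp (-(2 * |ρ|))) := by
        refine div_le_div₀ (Real.exp_pos _).le (Real.exp_le_exp.2 h1) h3 h2
    _ = Real.exp (100 * |ρ|) * (Real.exp (-(a ^ 2 / (1 + V))) / (1 + V)) := by
        have e1 : Real.exp (100 * |ρ|) = Real.exp (98 * |ρ|) * Real.exp (2 * |ρ|) := by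
          rw [← Real.exp_add]; congr 1; ring
        rw [e1, Real.exp_add, Real.exp_neg (2 * |ρ|)]
        have := (Real.exp_pos (2 * |ρ|)).ne'
        field_simp

theorem P2_nonneg (c a V ρ : ℝ) : 0 ≤ P2 c a V ρ := by
  unfold P2
  positivity

/-- lower bound for `P2 (1/2)` -/
theorem P2_half_ge {a V k l : ℝ} (hV : 0 ≤ V) (hk : 0 ≤ k) (hkl : k ≤ l) (hl : 2 ≤ l)
    (hVk : k / (2 * Real.pi ^ 2) ≤ 1 + V) (hVk' : V ≤ k / (2 * Real.pi ^ 2) + 1) {s : ℝ}
    (hs : 0 ≤ s) (ha : |a| = s * k / Real.pi) :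
    Real.exp (-(s ^ 2 * k)) / l ≤ P2 (1 / 2) a V V := by
  rw [P2_half hV]
  have hpi := Real.pi_pos
  have hpi3 := Real.pi_gt_three
  have hV1 : (0 : ℝ) < 1 + V := by linarith
  refine div_le_div₀ (Real.exp_pos _).le (Real.exp_le_exp.2 (neg_le_neg ?_))
    (Real.sqrt_pos.2 hV1) ?_
  · rw [div_le_iff₀ (by linarith), ← sq_abs a, ha]
    have h1 : s ^ 2 * k * (2 * (k / (2 * Real.pi ^ 2))) ≤ s ^ 2 * k * (2 * (1 + V)) :=
      mul_le_mul_of_nonneg_left (by linarith) (by positivity)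
    refine le_trans (le_of_eq ?_) h1
    field_simp
  · rw [Real.sqrt_le_left (by linarith)]
    have h1 : k / (2 * Real.pi ^ 2) ≤ k := by
      apply div_le_self hk
      nlinarith
    nlinarith

/-! ### the weights -/

theorem ee_cont (n : ℕ) : Continuous (ee n) := by
  unfold Pool.Agent.H203.ME.ee
  fun_prop

theorem Yb_cont (u : ℕ → ℂ) (lo hi : ℝ) : Continuous (Yb u lo hi) := by
  unfold Yb
  refine continuous_const.mul (Complex.continuous_im.comp ?_)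
  exact continuous_finsetSum _ fun p _ => (continuous_const.mul (ee_cont p)).div_const _

theorem Wt_cont (u : ℕ → ℂ) (h L δ κ : ℝ) (K : ℕ) (a : ℝ) : Continuous (Wt u h L δ κ K a) := by
  unfold Wt
  exact continuous_finsetProd _ fun j _ =>
    Real.continuous_exp.comp (((((Yb_cont u _ _).sub continuous_const).pow 2).div_const 2).neg)

theorem Wt_nonneg (u : ℕ → ℂ) (h L δ κ : ℝ) (K : ℕ) (a t : ℝ) : 0 ≤ Wt u h L δ κ K a t := by
  unfold Wt
  exact Finset.prod_nonneg fun j _ => (Real.exp_pos _).le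

/-- the expectation of a single weight -/
theorem single {u : ℕ → ℂ} {h L δ κ T a e : ℝ} {K : ℕ}
    (hEP : ∀ (x : ℝ) (z c : Fin K → ℝ), (∀ j, c j = 1 / 2 ∨ c j = 1) →
      |(1 / T * ∫ t in T..(2 * T), ∏ j : Fin K, Real.exp (-(c j / 2 *
        ((Yb u (eb h L δ κ j) (eb h L δ κ (j + 1)) (t + x) - a) ^ 2 +
          (Yb u (eb h L δ κ j) (eb h L δ κ (j + 1)) (t + z j) - a) ^ 2)))) -
      ∏ j : Fin K, P2 (c j) a (Vb (eb h L δ κ j) (eb h L δ κ (j + 1)) 0)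
        (Vb (eb h L δ κ j) (eb h L δ κ (j + 1)) (x - z j))| ≤ e) (x : ℝ) :
    |(1 / T * ∫ t in T..(2 * T), Wt u h L δ κ K a (t + x)) - Ew h L δ κ K a| ≤ e := by
  have h1 := hEP x (fun _ => x) (fun _ => 1 / 2) (fun _ => Or.inl rfl)
  have h2 : ∀ t, ∏ j : Fin K, Real.exp (-((1 / 2 : ℝ) / 2 *
        ((Yb u (eb h L δ κ j) (eb h L δ κ (j + 1)) (t + x) - a) ^ 2 +
          (Yb u (eb h L δ κ j) (eb h L δ κ (j + 1)) (t + x) - a) ^ 2))) =
      Wt u h L δ κ K a (t + x) := by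
    intro t
    unfold Wt
    refine Finset.prod_congr rfl fun j _ => ?_
    congr 1
    ring
  simp only [h2, sub_self] at h1
  exact h1

/-- the expectation of a product of two weights -/
theorem pair {u : ℕ → ℂ} {h L δ κ T a e : ℝ} {K : ℕ} (hT : 0 < T)
    (hEP : ∀ (x : ℝ) (z c : Fin K → ℝ), (∀ j, c j = 1 / 2 ∨ c j = 1) →
      |(1 / T * ∫ t in T..(2 * T), ∏ j : Fin K, Real.exp (-(c j / 2 *
        ((Yb u (eb h L δ κ j) (eb h L δ κ (j + 1)) (t + x) - a) ^ 2 +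
          (Yb u (eb h L δ κ j) (eb h L δ κ (j + 1)) (t + z j) - a) ^ 2)))) -
      ∏ j : Fin K, P2 (c j) a (Vb (eb h L δ κ j) (eb h L δ κ (j + 1)) 0)
        (Vb (eb h L δ κ j) (eb h L δ κ (j + 1)) (x - z j))| ≤ e) (m : ℕ) (x x' : ℝ) :
    (1 / T * ∫ t in T..(2 * T), Wt u h L δ κ K a (t + x) * Wt u h L δ κ K a (t + x')) ≤
      (∏ j : Fin K, if (j : ℕ) < m then P2 (1 / 2) a (Vb (eb h L δ κ j) (eb h L δ κ (j + 1)) 0)
        (Vb (eb h L δ κ j) (eb h L δ κ (j + 1)) 0) else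
        P2 1 a (Vb (eb h L δ κ j) (eb h L δ κ (j + 1)) 0)
          (Vb (eb h L δ κ j) (eb h L δ κ (j + 1)) (x - x'))) + e := by
  have h1 := hEP x (fun j => if (j : ℕ) < m then x else x')
    (fun j => if (j : ℕ) < m then 1 / 2 else 1) (fun j => by
      by_cases hj : (j : ℕ) < m
      · exact Or.inl (if_pos hj)
      · exact Or.inr (if_neg hj))
  have h2 := (abs_le.1 h1).2
  have h3 : ∏ j : Fin K, P2 (if (j : ℕ) < m then 1 / 2 else 1) a
        (Vb (eb h L δ κ j) (eb h L δ κ (j + 1)) 0)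
        (Vb (eb h L δ κ j) (eb h L δ κ (j + 1)) (x - if (j : ℕ) < m then x else x')) =
      ∏ j : Fin K, if (j : ℕ) < m then P2 (1 / 2) a (Vb (eb h L δ κ j) (eb h L δ κ (j + 1)) 0)
        (Vb (eb h L δ κ j) (eb h L δ κ (j + 1)) 0) else
        P2 1 a (Vb (eb h L δ κ j) (eb h L δ κ (j + 1)) 0)
          (Vb (eb h L δ κ j) (eb h L δ κ (j + 1)) (x - x')) := by
    refine Finset.prod_congr rfl fun j _ => ?_
    by_cases hj : (j : ℕ) < m
    · simp only [if_pos hj, sub_self]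
    · simp only [if_neg hj]
  rw [h3] at h2
  have h4 : (1 / T * ∫ t in T..(2 * T), Wt u h L δ κ K a (t + x) * Wt u h L δ κ K a (t + x')) ≤
      1 / T * ∫ t in T..(2 * T), ∏ j : Fin K, Real.exp (-((if (j : ℕ) < m then 1 / 2 else 1) / 2 *
        ((Yb u (eb h L δ κ j) (eb h L δ κ (j + 1)) (t + x) - a) ^ 2 +
          (Yb u (eb h L δ κ j) (eb h L δ κ (j + 1)) (t + if (j : ℕ) < m then x else x') - a) ^ 2))) := by
    refine mul_le_mul_of_nonneg_left ?_ (by positivity)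
    refine intervalIntegral.integral_mono_on (by linarith) ?_ ?_ ?_
    · refine Continuous.intervalIntegrable ?_ _ _
      exact ((Wt_cont u h L δ κ K a).comp (continuous_id.add continuous_const)).mul
        ((Wt_cont u h L δ κ K a).comp (continuous_id.add continuous_const))
    · refine Continuous.intervalIntegrable ?_ _ _
      refine continuous_finsetProd _ fun j _ => Real.continuous_exp.comp (Continuous.neg
        (continuous_const.mul (Continuous.add (Continuous.pow (Continuous.sub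
          ((Yb_cont u _ _).comp (continuous_id.add continuous_const)) continuous_const) 2)
          (Continuous.pow (Continuous.sub
          ((Yb_cont u _ _).comp (continuous_id.add continuous_const)) continuous_const) 2))))
    · intro t _
      unfold Wt
      rw [← Finset.prod_mul_distrib]
      refine Finset.prod_le_prod (fun j _ => by positivity) fun j _ => ?_
      rw [← Real.exp_add]
      refine Real.exp_le_exp.2 ?_
      by_cases hj : (j : ℕ) < m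
      · simp only [if_pos hj]
        have := sq_nonneg (Yb u (eb h L δ κ j) (eb h L δ κ (j + 1)) (t + x') - a)
        linarith
      · simp only [if_neg hj]
        linarith
  linarith

/-- the product of the factors of the levels -/
theorem prod_bound {K m : ℕ} {a P θ : ℝ} {V ρ : Fin K → ℝ} (hV : ∀ j, 0 ≤ V j)
    (ha : ∀ j, |a| ≤ 7 * (1 + V j)) (hP : 1 ≤ P) (hp : ∀ j, (P2 (1 / 2) a (V j) (V j))⁻¹ ≤ P)
    (hθ0 : 0 ≤ θ) (hθ : θ ≤ 1 / 2) (hρ : ∀ j : Fin K, m ≤ (j : ℕ) → |ρ j| ≤ θ) :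
    (∏ j : Fin K, if (j : ℕ) < m then P2 (1 / 2) a (V j) (V j) else P2 1 a (V j) (ρ j)) ≤
      Real.exp (100 * K * θ) * P ^ m * (∏ j : Fin K, P2 (1 / 2) a (V j) (V j)) ^ 2 := by
  have h1 : (∏ j : Fin K, if (j : ℕ) < m then P2 (1 / 2) a (V j) (V j) else P2 1 a (V j) (ρ j)) ≤
      ∏ j : Fin K, (Real.exp (100 * θ) * (if (j : ℕ) < m then P else 1) *
        P2 (1 / 2) a (V j) (V j) ^ 2) := by
    refine Finset.prod_le_prod (fun j _ => ?_) fun j _ => ?_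
    · split_ifs
      · exact P2_nonneg _ _ _ _
      · exact P2_nonneg _ _ _ _
    · have hpos := P2_half_pos (a := a) (hV j)
      by_cases hj : (j : ℕ) < m
      · rw [if_pos hj, if_pos hj]
        have h2 : (1 : ℝ) ≤ Real.exp (100 * θ) := Real.one_le_exp (by positivity)
        have h3 : 1 ≤ P * P2 (1 / 2) a (V j) (V j) := by
          have := mul_le_mul_of_nonneg_right (hp j) hpos.le
          rwa [inv_mul_cancel₀ hpos.ne'] at this
        have h4 : P2 (1 / 2) a (V j) (V j) ≤ P * P2 (1 / 2) a (V j) (V j) ^ 2 := by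
          have := mul_le_mul_of_nonneg_right h3 hpos.le
          nlinarith
        calc P2 (1 / 2) a (V j) (V j) ≤ 1 * (P * P2 (1 / 2) a (V j) (V j) ^ 2) := by
              rw [one_mul]; exact h4
          _ ≤ Real.exp (100 * θ) * (P * P2 (1 / 2) a (V j) (V j) ^ 2) :=
              mul_le_mul_of_nonneg_right h2 (by positivity)
          _ = _ := by ring
      · rw [if_neg hj, if_neg hj, mul_one]
        have h5 := hρ j (not_lt.1 hj)
        refine (P2_one_le (hV j) (h5.trans hθ) (ha j)).trans ?_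
        refine mul_le_mul_of_nonneg_right (Real.exp_le_exp.2 ?_) (sq_nonneg _)
        linarith
  refine h1.trans ?_
  rw [Finset.prod_mul_distrib, Finset.prod_mul_distrib, Finset.prod_pow]
  refine mul_le_mul_of_nonneg_right ?_ (sq_nonneg _)
  have h2 : ∏ _j : Fin K, Real.exp (100 * θ) = Real.exp (100 * K * θ) := by
    rw [Finset.prod_const, Finset.card_univ, Fintype.card_fin, ← Real.exp_nat_mul]
    congr 1
    ring
  rw [h2]
  refine mul_le_mul_of_nonneg_left ?_ (Real.exp_pos _).le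
  rw [Finset.prod_ite, Finset.prod_const, Finset.prod_const_one, mul_one]
  refine pow_le_pow_right₀ hP ?_
  have h3 : ((Finset.univ.filter (fun j : Fin K => (j : ℕ) < m)).image (fun j : Fin K => (j : ℕ)))
      ⊆ Finset.range m := by
    intro i hi
    rw [Finset.mem_image] at hi
    obtain ⟨j, hj, rfl⟩ := hi
    rw [Finset.mem_range]
    exact (Finset.mem_filter.1 hj).2
  have h4 := Finset.card_le_card h3
  rw [Finset.card_image_of_injective _ Fin.val_injective, Finset.card_range] at h4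
  exact h4

/-! ### the second moment -/

theorem second_moment {T : ℝ} (hT : 0 < T) (N : ℕ) (W : ℕ → ℝ → ℝ) (hW : ∀ i, Continuous (W i))
    (q : ℝ) :
    1 / T * ∫ t in T..(2 * T), (∑ i ∈ Finset.range N, W i t - N * q) ^ 2 =
      ∑ i ∈ Finset.range N, ∑ i' ∈ Finset.range N, (1 / T * ∫ t in T..(2 * T), W i t * W i' t) -
        2 * (N * q) * ∑ i ∈ Finset.range N, (1 / T * ∫ t in T..(2 * T), W i t) + (N * q) ^ 2 := by
  have e1 : ∀ t, (∑ i ∈ Finset.range N, W i t - N * q) ^ 2 =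
      (∑ i ∈ Finset.range N, ∑ i' ∈ Finset.range N, W i t * W i' t) -
        2 * (N * q) * ∑ i ∈ Finset.range N, W i t + (N * q) ^ 2 := by
    intro t
    rw [← Finset.sum_mul_sum]
    ring
  have c1 : Continuous fun t => ∑ i ∈ Finset.range N, ∑ i' ∈ Finset.range N, W i t * W i' t :=
    continuous_finsetSum _ fun i _ => continuous_finsetSum _ fun i' _ => (hW i).mul (hW i')
  have c2 : Continuous fun t => 2 * (N * q) * ∑ i ∈ Finset.range N, W i t :=
    continuous_const.mul (continuous_finsetSum _ fun i _ => hW i)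
  simp only [e1]
  have i1 : ∫ t in T..(2 * T), ((∑ i ∈ Finset.range N, ∑ i' ∈ Finset.range N, W i t * W i' t) -
        2 * (N * q) * ∑ i ∈ Finset.range N, W i t + (N * q) ^ 2) =
      (∫ t in T..(2 * T), ((∑ i ∈ Finset.range N, ∑ i' ∈ Finset.range N, W i t * W i' t) -
        2 * (N * q) * ∑ i ∈ Finset.range N, W i t)) + ∫ _t in T..(2 * T), (N * q) ^ 2 :=
    intervalIntegral.integral_add ((c1.sub c2).intervalIntegrable _ _)
      (continuous_const.intervalIntegrable _ _)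
  have i2 : ∫ t in T..(2 * T), ((∑ i ∈ Finset.range N, ∑ i' ∈ Finset.range N, W i t * W i' t) -
        2 * (N * q) * ∑ i ∈ Finset.range N, W i t) =
      (∫ t in T..(2 * T), ∑ i ∈ Finset.range N, ∑ i' ∈ Finset.range N, W i t * W i' t) -
        ∫ t in T..(2 * T), 2 * (N * q) * ∑ i ∈ Finset.range N, W i t :=
    intervalIntegral.integral_sub (c1.intervalIntegrable _ _) (c2.intervalIntegrable _ _)
  have e2 : ∀ i, ∫ t in T..(2 * T), ∑ i' ∈ Finset.range N, W i t * W i' t =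
      ∑ i' ∈ Finset.range N, ∫ t in T..(2 * T), W i t * W i' t := fun i =>
    intervalIntegral.integral_finsetSum (f := fun i' t => W i t * W i' t) (fun i' _ =>
      ((hW i).mul (hW i')).intervalIntegrable _ _)
  have i3 : ∫ t in T..(2 * T), ∑ i ∈ Finset.range N, ∑ i' ∈ Finset.range N, W i t * W i' t =
      ∑ i ∈ Finset.range N, ∑ i' ∈ Finset.range N, ∫ t in T..(2 * T), W i t * W i' t := by
    rw [intervalIntegral.integral_finsetSum
      (f := fun i t => ∑ i' ∈ Finset.range N, W i t * W i' t)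
      (fun i _ => Continuous.intervalIntegrable
        (continuous_finsetSum _ fun i' _ => (hW i).mul (hW i')) _ _)]
    exact Finset.sum_congr rfl fun i _ => e2 i
  have i4 : ∫ t in T..(2 * T), ∑ i ∈ Finset.range N, W i t =
      ∑ i ∈ Finset.range N, ∫ t in T..(2 * T), W i t :=
    intervalIntegral.integral_finsetSum (f := fun i t => W i t)
      (fun i _ => (hW i).intervalIntegrable _ _)
  rw [i1, i2, i3,
    intervalIntegral.integral_const_mul, intervalIntegral.integral_const, i4]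
  simp only [← Finset.mul_sum]
  rw [smul_eq_mul]
  have hT' := hT.ne'
  field_simp
  ring

/-- the number of the close points -/
theorem count (N : ℕ) {w B : ℝ} (hw : 0 < w) (i : ℕ) :
    (((Finset.range N).filter (fun i' : ℕ => |(i : ℝ) - i'| * w < B)).card : ℝ) ≤
      2 * |B| / w + 1 := by
  have hsub : (Finset.range N).filter (fun i' : ℕ => |(i : ℝ) - i'| * w < B) ⊆
      Finset.Icc (i - ⌊|B| / w⌋₊) (i + ⌊|B| / w⌋₊) := by
    intro i' hi'
    have h1 := (Finset.mem_filter.1 hi').2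
    have h2 : |(i : ℝ) - i'| ≤ |B| / w := by
      rw [le_div_iff₀ hw]
      exact h1.le.trans (le_abs_self B)
    rw [Finset.mem_Icc]
    rcases le_total i i' with h | h
    · have h3 : ((i' - i : ℕ) : ℝ) ≤ |B| / w := by
        rw [Nat.cast_sub h]
        rw [abs_sub_comm] at h2
        exact (le_abs_self _).trans h2
      have h4 := Nat.le_floor h3
      omega
    · have h3 : ((i - i' : ℕ) : ℝ) ≤ |B| / w := by
        rw [Nat.cast_sub h]
        exact (le_abs_self _).trans h2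
      have h4 := Nat.le_floor h3
      omega
  have h1 := Finset.card_le_card hsub
  rw [Nat.card_Icc] at h1
  have h2 : ((Finset.range N).filter (fun i' : ℕ => |(i : ℝ) - i'| * w < B)).card ≤
      2 * ⌊|B| / w⌋₊ + 1 := by omega
  have h3 : (⌊|B| / w⌋₊ : ℝ) ≤ |B| / w := Nat.floor_le (by positivity)
  have h4 : (((Finset.range N).filter (fun i' : ℕ => |(i : ℝ) - i'| * w < B)).card : ℝ) ≤
      2 * (⌊|B| / w⌋₊ : ℝ) + 1 := by exact_mod_cast h2
  have h5 : 2 * |B| / w = 2 * (|B| / w) := by ring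
  rw [h5]
  linarith

theorem sum_up (N K : ℕ) {m2 : ℕ → ℕ → ℝ} {m1 : ℕ → ℝ} {q e w θ' : ℝ} {B X : ℕ → ℝ}
    (hw : 0 < w) (hq : 0 ≤ q) (hX : ∀ m, 0 ≤ X m)
    (h1 : ∀ i ∈ Finset.range N, q - e ≤ m1 i)
    (h2 : ∀ i ∈ Finset.range N, ∀ i' ∈ Finset.range N, m2 i i' ≤ (1 + θ') * q ^ 2 + e +
      ∑ m ∈ Finset.range K, if |(i : ℝ) - i'| * w < B m then X m else 0) :
    ∑ i ∈ Finset.range N, ∑ i' ∈ Finset.range N, m2 i i' -
        2 * (N * q) * ∑ i ∈ Finset.range N, m1 i + (N * q) ^ 2 ≤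
      (N : ℝ) ^ 2 * (θ' * q ^ 2 + e + 2 * q * e) +
        N * ∑ m ∈ Finset.range K, (2 * |B m| / w + 1) * X m := by
  have e1 : ∑ i ∈ Finset.range N, ∑ i' ∈ Finset.range N, m2 i i' ≤
      ∑ i ∈ Finset.range N, ∑ i' ∈ Finset.range N, ((1 + θ') * q ^ 2 + e) +
      ∑ i ∈ Finset.range N, ∑ i' ∈ Finset.range N, ∑ m ∈ Finset.range K,
        (if |(i : ℝ) - i'| * w < B m then X m else 0) := by
    rw [← Finset.sum_add_distrib]
    refine Finset.sum_le_sum fun i hi => ?_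
    rw [← Finset.sum_add_distrib]
    exact Finset.sum_le_sum fun i' hi' => h2 i hi i' hi'
  have e2 : ∀ i ∈ Finset.range N, ∑ i' ∈ Finset.range N, ∑ m ∈ Finset.range K,
        (if |(i : ℝ) - i'| * w < B m then X m else 0) ≤
      ∑ m ∈ Finset.range K, (2 * |B m| / w + 1) * X m := by
    intro i _
    rw [Finset.sum_comm]
    refine Finset.sum_le_sum fun m _ => ?_
    rw [← Finset.sum_filter, Finset.sum_const, nsmul_eq_mul]
    exact mul_le_mul_of_nonneg_right (count N hw i) (hX m)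
  have e3 := Finset.sum_le_sum e2
  rw [Finset.sum_const, Finset.card_range, nsmul_eq_mul] at e3
  simp only [Finset.sum_const, Finset.card_range, nsmul_eq_mul] at e1
  have e4 : (N : ℝ) * (q - e) ≤ ∑ i ∈ Finset.range N, m1 i := by
    have := Finset.sum_le_sum h1
    rwa [Finset.sum_const, Finset.card_range, nsmul_eq_mul] at this
  have e5 : 2 * (N * q) * (N * (q - e)) ≤ 2 * (N * q) * ∑ i ∈ Finset.range N, m1 i :=
    mul_le_mul_of_nonneg_left e4 (by positivity)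
  have e6 : (N : ℝ) * (N * ((1 + θ') * q ^ 2 + e)) - 2 * (N * q) * (N * (q - e)) + (N * q) ^ 2 =
      (N : ℝ) ^ 2 * (θ' * q ^ 2 + e + 2 * q * e) := by ring
  linarith

/-! ### the blocks -/

theorem eb_ge {h L δ κ : ℝ} (h0 : 0 < h) (h2 : h ≤ 1 / 2) (hL : 1 ≤ L) (hκ : 0 ≤ κ) (j : ℕ) :
    L ^ δ ≤ eb h L δ κ j := by
  unfold eb
  have h1 : (1 : ℝ) ≤ h⁻¹ := (one_le_inv₀ h0).2 (by linarith)
  have h3 : L ^ δ ≤ L ^ (δ + j * κ) :=
    Real.rpow_le_rpow_of_exponent_le hL (by have : (0 : ℝ) ≤ j * κ := by positivity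
                                            linarith)
  have h4 : 0 ≤ L ^ (δ + j * κ) := by positivity
  nlinarith

theorem eb_mono {h L δ κ : ℝ} (h0 : 0 < h) (hL : 1 ≤ L) (hκ : 0 ≤ κ) (j : ℕ) :
    eb h L δ κ j ≤ eb h L δ κ (j + 1) := by
  unfold eb
  refine mul_le_mul_of_nonneg_left ?_ (inv_pos.2 h0).le
  refine Real.rpow_le_rpow_of_exponent_le hL ?_
  push_cast
  linarith

theorem eb_log {h L δ κ : ℝ} (h0 : 0 < h) (hL : 1 ≤ L) (j : ℕ) :
    Real.log (eb h L δ κ (j + 1) / eb h L δ κ j) = κ * Real.log L := by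
  have hL0 : 0 < L := by linarith
  unfold eb
  rw [mul_div_mul_left _ _ (inv_ne_zero h0.ne'), ← Real.rpow_sub hL0, Real.log_rpow hL0]
  push_cast
  ring

theorem Vb_zero (lo hi : ℝ) :
    Vb lo hi 0 = 1 / (2 * Real.pi ^ 2) * ∑ p ∈ PB lo hi, 1 / (p : ℝ) := by
  unfold Vb
  simp only [zero_mul, Real.cos_zero]

theorem Vb_nonneg (lo hi : ℝ) : 0 ≤ Vb lo hi 0 := by
  rw [Vb_zero]
  have : 0 ≤ ∑ p ∈ PB lo hi, 1 / (p : ℝ) := Finset.sum_nonneg fun p _ => by positivity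
  positivity

theorem Vb_abs (lo hi τ : ℝ) : Vb lo hi |τ| = Vb lo hi τ := by
  rcases abs_cases τ with ⟨h, _⟩ | ⟨h, _⟩
  · rw [h]
  · rw [h]
    unfold Vb
    congr 1
    refine Finset.sum_congr rfl fun p _ => ?_
    rw [neg_mul, Real.cos_neg]

theorem pi_le : 1 / (2 * Real.pi ^ 2) ≤ 1 := by
  have := Real.pi_gt_three
  rw [div_le_one (by positivity)]
  nlinarith

theorem V_near {C : ℝ} (hC0 : 0 < C)
    (hC : ∀ lo hi : ℝ, 1 ≤ lo → lo ≤ hi →
      |∑ p ∈ PB lo hi, 1 / (p : ℝ) - Real.log (hi / lo)| ≤ C / lo ∧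
      ∀ τ : ℝ, 0 < τ → τ ≤ 1 → |∑ p ∈ PB lo hi, Real.cos (τ * Real.log p) / p| ≤ C / (τ * lo))
    {h L δ κ : ℝ} (h0 : 0 < h) (h2 : h ≤ 1 / 2) (hL : 1 ≤ L) (hδ : 0 < δ) (hκ : 0 ≤ κ) (j : ℕ) :
    |Vb (eb h L δ κ j) (eb h L δ κ (j + 1)) 0 - κ * Real.log L / (2 * Real.pi ^ 2)| ≤
      C * L ^ (-δ) := by
  have h1 := eb_ge (δ := δ) h0 h2 hL hκ j
  have hLd : 1 ≤ L ^ δ := Real.one_le_rpow hL hδ.le
  have h3 := (hC _ _ (hLd.trans h1) (eb_mono (δ := δ) h0 hL hκ j)).1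
  rw [eb_log h0 hL] at h3
  rw [Vb_zero]
  have e1 : 1 / (2 * Real.pi ^ 2) * (∑ p ∈ PB (eb h L δ κ j) (eb h L δ κ (j + 1)), 1 / (p : ℝ)) -
      κ * Real.log L / (2 * Real.pi ^ 2) = 1 / (2 * Real.pi ^ 2) *
        (∑ p ∈ PB (eb h L δ κ j) (eb h L δ κ (j + 1)), 1 / (p : ℝ) - κ * Real.log L) := by ring
  have hpp : 0 < 1 / (2 * Real.pi ^ 2) := by positivity
  rw [e1, abs_mul, abs_of_pos hpp, Real.rpow_neg (by linarith), ← div_eq_mul_inv]
  calc 1 / (2 * Real.pi ^ 2) *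
        |∑ p ∈ PB (eb h L δ κ j) (eb h L δ κ (j + 1)), 1 / (p : ℝ) - κ * Real.log L|
      ≤ 1 * (C / eb h L δ κ j) := mul_le_mul pi_le h3 (abs_nonneg _) zero_le_one
    _ ≤ C / L ^ δ := by
        rw [one_mul]
        exact div_le_div_of_nonneg_left hC0.le (by positivity) h1

theorem rho_level {C : ℝ} (hC0 : 0 < C)
    (hC : ∀ lo hi : ℝ, 1 ≤ lo → lo ≤ hi →
      |∑ p ∈ PB lo hi, 1 / (p : ℝ) - Real.log (hi / lo)| ≤ C / lo ∧
      ∀ τ : ℝ, 0 < τ → τ ≤ 1 → |∑ p ∈ PB lo hi, Real.cos (τ * Real.log p) / p| ≤ C / (τ * lo))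
    {h L δ κ τ : ℝ} (h0 : 0 < h) (h2 : h ≤ 1 / 2) (hL : 1 ≤ L) (hδ : 0 < δ) (hκ : 0 ≤ κ)
    {m j : ℕ} (hmj : m ≤ j) (hτ : h * L ^ (-δ - m * κ + δ / 4) ≤ |τ|) (hτ1 : |τ| ≤ 1) :
    |Vb (eb h L δ κ j) (eb h L δ κ (j + 1)) τ| ≤ C * L ^ (-(δ / 4)) := by
  have hL0 : 0 < L := by linarith
  have h1 := eb_ge (δ := δ) h0 h2 hL hκ j
  have hLd : 1 ≤ L ^ δ := Real.one_le_rpow hL hδ.le
  have hτ0 : 0 < |τ| := lt_of_lt_of_le (by positivity) hτ
  have h3 := (hC _ _ (hLd.trans h1) (eb_mono (δ := δ) h0 hL hκ j)).2 |τ| hτ0 hτ1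
  rw [← Vb_abs]
  unfold Vb
  have hpp : 0 < 1 / (2 * Real.pi ^ 2) := by positivity
  rw [abs_mul, abs_of_pos hpp, Real.rpow_neg (by linarith), ← div_eq_mul_inv]
  have h4 : L ^ (δ / 4) ≤ |τ| * eb h L δ κ j := by
    have h5 : h * L ^ (-δ - m * κ + δ / 4) * (h⁻¹ * L ^ (δ + j * κ)) ≤
        |τ| * eb h L δ κ j := mul_le_mul_of_nonneg_right hτ (by positivity)
    refine le_trans ?_ h5
    have e1 : h * L ^ (-δ - m * κ + δ / 4) * (h⁻¹ * L ^ (δ + j * κ)) =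
        L ^ ((-δ - m * κ + δ / 4) + (δ + j * κ)) := by
      rw [Real.rpow_add hL0 (-δ - m * κ + δ / 4)]
      field_simp
    rw [e1]
    refine Real.rpow_le_rpow_of_exponent_le hL ?_
    have h6 : (m : ℝ) ≤ j := by exact_mod_cast hmj
    nlinarith
  calc 1 / (2 * Real.pi ^ 2) *
        |∑ p ∈ PB (eb h L δ κ j) (eb h L δ κ (j + 1)), Real.cos (|τ| * Real.log p) / p|
      ≤ 1 * (C / (|τ| * eb h L δ κ j)) := mul_le_mul pi_le h3 (abs_nonneg _) zero_le_one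
    _ ≤ C / L ^ (δ / 4) := by
        rw [one_mul]
        exact div_le_div_of_nonneg_left hC0.le (by positivity) h4

/-- the estimate of the pairs -/
theorem pair_level {u : ℕ → ℂ} {h L δ κ T a e P θ θ' q w C : ℝ} {K n : ℕ} (hT : 0 < T)
    (hEP : ∀ (x : ℝ) (z c : Fin K → ℝ), (∀ j, c j = 1 / 2 ∨ c j = 1) →
      |(1 / T * ∫ t in T..(2 * T), ∏ j : Fin K, Real.exp (-(c j / 2 *
        ((Yb u (eb h L δ κ j) (eb h L δ κ (j + 1)) (t + x) - a) ^ 2 +
          (Yb u (eb h L δ κ j) (eb h L δ κ (j + 1)) (t + z j) - a) ^ 2)))) -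
      ∏ j : Fin K, P2 (c j) a (Vb (eb h L δ κ j) (eb h L δ κ (j + 1)) 0)
        (Vb (eb h L δ κ j) (eb h L δ κ (j + 1)) (x - z j))| ≤ e)
    (hC0 : 0 < C)
    (hC : ∀ lo hi : ℝ, 1 ≤ lo → lo ≤ hi →
      |∑ p ∈ PB lo hi, 1 / (p : ℝ) - Real.log (hi / lo)| ≤ C / lo ∧
      ∀ τ : ℝ, 0 < τ → τ ≤ 1 → |∑ p ∈ PB lo hi, Real.cos (τ * Real.log p) / p| ≤ C / (τ * lo))
    (h0 : 0 < h) (h2 : h ≤ 1 / 2) (hL : 1 ≤ L) (hδ : 0 < δ) (hκ : 0 ≤ κ) (he : 0 ≤ e)
    (hK : 0 < K) (hw : 0 < w)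
    (ha : ∀ j : ℕ, |a| ≤ 7 * (1 + Vb (eb h L δ κ j) (eb h L δ κ (j + 1)) 0)) (hP : 1 ≤ P)
    (hp : ∀ j : ℕ, (P2 (1 / 2) a (Vb (eb h L δ κ j) (eb h L δ κ (j + 1)) 0)
      (Vb (eb h L δ κ j) (eb h L δ κ (j + 1)) 0))⁻¹ ≤ P)
    (hθ : θ = C * L ^ (-(δ / 4))) (hθ2 : θ ≤ 1 / 2) (hθ' : Real.exp (100 * K * θ) ≤ 1 + θ')
    (hθ2' : Real.exp (100 * K * θ) ≤ 2) (hq : q = Ew h L δ κ K a)
    (hn : (n : ℝ) * w ≤ 1) (i i' : ℕ) (hi : i ≤ n) (hi' : i' ≤ n) :
    (1 / T * ∫ t in T..(2 * T), Wt u h L δ κ K a (t + i * w) * Wt u h L δ κ K a (t + i' * w)) ≤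
      (1 + θ') * q ^ 2 + e + ∑ m ∈ Finset.range K,
        if |(i : ℝ) - i'| * w < h * L ^ (-δ - m * κ + δ / 4) then 2 * P ^ (m + 1) * q ^ 2 + e
          else 0 := by
  have hτ : |(i : ℝ) * w - i' * w| = |(i : ℝ) - i'| * w := by
    rw [← sub_mul, abs_mul, abs_of_pos hw]
  have hτ1 : |(i : ℝ) * w - i' * w| ≤ 1 := by
    rw [hτ]
    refine le_trans (mul_le_mul_of_nonneg_right ?_ hw.le) hn
    rw [abs_le]
    have a1 : (i : ℝ) ≤ n := by exact_mod_cast hi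
    have a2 : (i' : ℝ) ≤ n := by exact_mod_cast hi'
    have a3 : (0 : ℝ) ≤ i := Nat.cast_nonneg i
    have a4 : (0 : ℝ) ≤ i' := Nat.cast_nonneg i'
    constructor <;> linarith
  have hθ0 : 0 ≤ θ := by rw [hθ]; positivity
  have hX : ∀ m ∈ Finset.range K, 0 ≤
      (if |(i : ℝ) - i'| * w < h * L ^ (-δ - m * κ + δ / 4) then 2 * P ^ (m + 1) * q ^ 2 + e
        else 0) := by
    intro m _
    split_ifs
    · positivity
    · exact le_rfl
  have hq' : q = ∏ j : Fin K, P2 (1 / 2) a (Vb (eb h L δ κ j) (eb h L δ κ (j + 1)) 0)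
      (Vb (eb h L δ κ j) (eb h L δ κ (j + 1)) 0) := by
    rw [hq]
    rfl
  by_cases hfar : h * L ^ (-δ - (0 : ℕ) * κ + δ / 4) ≤ |(i : ℝ) - i'| * w
  · have h3 := pair hT hEP 0 (i * w) (i' * w)
    have h4 := prod_bound (K := K) (m := 0) (a := a) (P := P) (θ := θ)
      (V := fun j => Vb (eb h L δ κ j) (eb h L δ κ (j + 1)) 0)
      (ρ := fun j => Vb (eb h L δ κ j) (eb h L δ κ (j + 1)) (i * w - i' * w))
      (fun j => Vb_nonneg _ _) (fun j => ha j) hP (fun j => hp j) hθ0 hθ2 (fun j hj => by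
        rw [hθ]
        exact rho_level hC0 hC h0 h2 hL hδ hκ hj (by rw [hτ]; exact hfar) hτ1)
    rw [← hq', pow_zero, mul_one] at h4
    have h5 : Real.exp (100 * K * θ) * q ^ 2 ≤ (1 + θ') * q ^ 2 :=
      mul_le_mul_of_nonneg_right hθ' (sq_nonneg q)
    have h6 := Finset.sum_nonneg hX
    linarith
  · classical
    have hex : ∃ m : ℕ, m = K ∨ h * L ^ (-δ - m * κ + δ / 4) ≤ |(i : ℝ) - i'| * w :=
      ⟨K, Or.inl rfl⟩
    obtain ⟨m, hm⟩ : ∃ m, m = Nat.find hex := ⟨_, rfl⟩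
    have hm1 : m = K ∨ h * L ^ (-δ - m * κ + δ / 4) ≤ |(i : ℝ) - i'| * w := by
      rw [hm]
      exact Nat.find_spec hex
    have hm0 : m ≠ 0 := by
      rintro rfl
      rcases hm1 with hm1 | hm1
      · omega
      · exact hfar hm1
    obtain ⟨m', rfl⟩ := Nat.exists_eq_succ_of_ne_zero hm0
    have hm2 := Nat.find_min hex (m := m') (by omega)
    rw [not_or, not_le] at hm2
    have hmK : m' + 1 ≤ K := by
      have := Nat.find_min' hex (Or.inl rfl : K = K ∨ _)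
      omega
    have h3 := pair hT hEP (m' + 1) (i * w) (i' * w)
    have h4 := prod_bound (K := K) (m := m' + 1) (a := a) (P := P) (θ := θ)
      (V := fun j => Vb (eb h L δ κ j) (eb h L δ κ (j + 1)) 0)
      (ρ := fun j => Vb (eb h L δ κ j) (eb h L δ κ (j + 1)) (i * w - i' * w))
      (fun j => Vb_nonneg _ _) (fun j => ha j) hP (fun j => hp j) hθ0 hθ2 (fun j hj => by
        rw [hθ]
        have hjK := j.2
        have hm3 : h * L ^ (-δ - ((m' + 1 : ℕ) : ℝ) * κ + δ / 4) ≤ |(i : ℝ) - i'| * w := by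
          rcases hm1 with hm1 | hm1
          · omega
          · exact hm1
        exact rho_level hC0 hC h0 h2 hL hδ hκ hj (by rw [hτ]; exact hm3) hτ1)
    rw [← hq'] at h4
    have h5 : Real.exp (100 * K * θ) * P ^ (m' + 1) * q ^ 2 ≤ 2 * P ^ (m' + 1) * q ^ 2 := by
      refine mul_le_mul_of_nonneg_right (mul_le_mul_of_nonneg_right hθ2' ?_) (sq_nonneg q)
      positivity
    have h6 := Finset.single_le_sum hX (Finset.mem_range.2 (by omega : m' < K))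
    rw [if_pos hm2.2] at h6
    have h7 : 0 ≤ (1 + θ') * q ^ 2 := by
      have : 0 ≤ 1 + θ' := (Real.exp_pos _).le.trans hθ'
      positivity
    linarith

/-- the final numerical estimate -/
theorem numeric {N : ℝ} {K : ℕ} {h w L δ κ q e η θ' P l : ℝ} (h0 : 0 < h) (hw : 0 < w)
    (hL : 1 ≤ L) (hδ : 0 < δ) (hκ : 0 ≤ κ) (hκδ : κ ≤ δ / 4) (hκK : K * κ = 1 - 3 * δ)
    (hwh : w / h = L ^ (δ - 1)) (hN : h / (4 * w) ≤ N) (hN0 : 0 ≤ N) (hl : 1 ≤ l)
    (hP : P = L ^ κ * l) (hq : 0 < q) (hqL : L ^ (-1 : ℝ) ≤ q) (he : e = L ^ (-4 : ℝ))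
    (hη1 : θ' ≤ η / 4) (hη2 : 3 * L ^ (-2 : ℝ) ≤ η / 4)
    (hη3 : 36 * K * (l ^ K * L ^ (-(δ / 2))) ≤ η / 4) :
    N ^ 2 * (θ' * q ^ 2 + e + 2 * q * e) + N * ∑ m ∈ Finset.range K,
      (2 * |h * L ^ (-δ - m * κ + δ / 4)| / w + 1) * (2 * P ^ (m + 1) * q ^ 2 + e) ≤
      η * (N * q) ^ 2 := by
  have hL0 : 0 < L := by linarith
  have hq2 : 0 < q ^ 2 := by positivity
  have hLq : L ^ (-2 : ℝ) ≤ q ^ 2 := by
    have e1 : L ^ (-2 : ℝ) = (L ^ (-1 : ℝ)) ^ 2 := by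
      rw [← Real.rpow_natCast, ← Real.rpow_mul hL0.le]; norm_num
    rw [e1]
    exact pow_le_pow_left₀ (by positivity) hqL 2
  have hL2 : L ^ (-2 : ℝ) ≤ 1 := Real.rpow_le_one_of_one_le_of_nonpos hL (by norm_num)
  have he1 : e ≤ L ^ (-2 : ℝ) * q ^ 2 := by
    rw [he]
    have e1 : L ^ (-4 : ℝ) = L ^ (-2 : ℝ) * L ^ (-2 : ℝ) := by
      rw [← Real.rpow_add hL0]; norm_num
    rw [e1]
    exact mul_le_mul_of_nonneg_left hLq (by positivity)
  have he2 : q * e ≤ L ^ (-2 : ℝ) * q ^ 2 := by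
    rw [he]
    have e1 : L ^ (-4 : ℝ) = L ^ (-3 : ℝ) * L ^ (-1 : ℝ) := by
      rw [← Real.rpow_add hL0]; norm_num
    have e2 : L ^ (-3 : ℝ) ≤ L ^ (-2 : ℝ) :=
      Real.rpow_le_rpow_of_exponent_le hL (by norm_num)
    rw [e1]
    calc q * (L ^ (-3 : ℝ) * L ^ (-1 : ℝ)) ≤ q * (L ^ (-2 : ℝ) * q) := by
          refine mul_le_mul_of_nonneg_left ?_ hq.le
          exact mul_le_mul e2 hqL (by positivity) (by positivity)
      _ = L ^ (-2 : ℝ) * q ^ 2 := by ring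
  have he0 : 0 ≤ e := by rw [he]; positivity
  -- the first part
  have p1 : θ' * q ^ 2 + e + 2 * q * e ≤ (η / 4 + η / 4) * q ^ 2 := by
    have a1 : θ' * q ^ 2 ≤ η / 4 * q ^ 2 := mul_le_mul_of_nonneg_right hη1 hq2.le
    have a2 : 3 * L ^ (-2 : ℝ) * q ^ 2 ≤ η / 4 * q ^ 2 := mul_le_mul_of_nonneg_right hη2 hq2.le
    nlinarith
  -- the terms
  have hP1 : 1 ≤ P := by
    rw [hP]
    have : 1 ≤ L ^ κ := Real.one_le_rpow hL hκ
    nlinarith
  have p2 : ∀ m ∈ Finset.range K,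
      (2 * |h * L ^ (-δ - m * κ + δ / 4)| / w + 1) * (2 * P ^ (m + 1) * q ^ 2 + e) ≤
        36 * (l ^ K * L ^ (-(δ / 2))) * (N * q ^ 2) := by
    intro m hm
    rw [Finset.mem_range] at hm
    have hmK : ((m : ℝ) + 1) * κ ≤ 1 - 3 * δ := by
      rw [← hκK]
      refine mul_le_mul_of_nonneg_right ?_ hκ
      exact_mod_cast hm
    have b1 : 2 * |h * L ^ (-δ - m * κ + δ / 4)| / w + 1 ≤
        N * (8 * L ^ (-δ - m * κ + δ / 4) + 4 * L ^ (δ - 1)) := by
      rw [abs_of_pos (by positivity), ← hwh]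
      have c1 : 2 * (h * L ^ (-δ - m * κ + δ / 4)) / w + 1 =
          h / (4 * w) * (8 * L ^ (-δ - m * κ + δ / 4) + 4 * (w / h)) := by
        field_simp
        ring
      rw [c1]
      exact mul_le_mul_of_nonneg_right hN (by positivity)
    have b2 : 2 * P ^ (m + 1) * q ^ 2 + e ≤ 3 * (L ^ ((m + 1) * κ) * l ^ K) * q ^ 2 := by
      have c1 : e ≤ 1 * q ^ 2 := he1.trans (mul_le_mul_of_nonneg_right hL2 hq2.le)
      have c2 : 1 ≤ P ^ (m + 1) := one_le_pow₀ hP1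
      have c3 : P ^ (m + 1) ≤ L ^ ((m + 1) * κ) * l ^ K := by
        rw [hP, mul_pow, ← Real.rpow_natCast (L ^ κ), ← Real.rpow_mul hL0.le]
        have d1 : κ * ((m + 1 : ℕ) : ℝ) = (m + 1) * κ := by push_cast; ring
        rw [d1]
        exact mul_le_mul_of_nonneg_left (pow_le_pow_right₀ hl hm) (by positivity)
      have c4 : P ^ (m + 1) * q ^ 2 ≤ L ^ ((m + 1) * κ) * l ^ K * q ^ 2 :=
        mul_le_mul_of_nonneg_right c3 hq2.le
      have c5 : 1 * q ^ 2 ≤ P ^ (m + 1) * q ^ 2 := mul_le_mul_of_nonneg_right c2 hq2.le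
      linarith
    have b3 : (8 * L ^ (-δ - m * κ + δ / 4) + 4 * L ^ (δ - 1)) * L ^ ((m + 1) * κ) ≤
        12 * L ^ (-(δ / 2)) := by
      rw [add_mul, mul_assoc, mul_assoc, ← Real.rpow_add hL0, ← Real.rpow_add hL0]
      have c1 : L ^ (-δ - m * κ + δ / 4 + (m + 1) * κ) ≤ L ^ (-(δ / 2)) :=
        Real.rpow_le_rpow_of_exponent_le hL (by linarith)
      have c2 : L ^ (δ - 1 + (m + 1) * κ) ≤ L ^ (-(δ / 2)) :=
        Real.rpow_le_rpow_of_exponent_le hL (by linarith)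
      linarith
    have hb2 : 0 ≤ 2 * P ^ (m + 1) * q ^ 2 + e := by positivity
    calc (2 * |h * L ^ (-δ - m * κ + δ / 4)| / w + 1) * (2 * P ^ (m + 1) * q ^ 2 + e)
        ≤ (N * (8 * L ^ (-δ - m * κ + δ / 4) + 4 * L ^ (δ - 1))) *
            (3 * (L ^ ((m + 1) * κ) * l ^ K) * q ^ 2) :=
          mul_le_mul b1 b2 hb2 (by positivity)
      _ = 3 * (N * l ^ K * q ^ 2) *
            ((8 * L ^ (-δ - m * κ + δ / 4) + 4 * L ^ (δ - 1)) * L ^ ((m + 1) * κ)) := by ring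
      _ ≤ 3 * (N * l ^ K * q ^ 2) * (12 * L ^ (-(δ / 2))) :=
          mul_le_mul_of_nonneg_left b3 (by positivity)
      _ = _ := by ring
  have p3 := Finset.sum_le_sum p2
  rw [Finset.sum_const, Finset.card_range, nsmul_eq_mul] at p3
  have p4 : K * (36 * (l ^ K * L ^ (-(δ / 2))) * (N * q ^ 2)) ≤ η / 4 * (N * q ^ 2) := by
    have := mul_le_mul_of_nonneg_right hη3 (by positivity : 0 ≤ N * q ^ 2)
    linarith
  have p5 : N * ∑ m ∈ Finset.range K, (2 * |h * L ^ (-δ - m * κ + δ / 4)| / w + 1) *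
      (2 * P ^ (m + 1) * q ^ 2 + e) ≤ N * (η / 4 * (N * q ^ 2)) :=
    mul_le_mul_of_nonneg_left (p3.trans p4) hN0
  have p6 : N ^ 2 * (θ' * q ^ 2 + e + 2 * q * e) ≤ N ^ 2 * ((η / 4 + η / 4) * q ^ 2) :=
    mul_le_mul_of_nonneg_left p1 (sq_nonneg N)
  have hη0 : 0 ≤ η := by
    have : 0 ≤ 3 * L ^ (-2 : ℝ) := by positivity
    linarith
  have p7 : 0 ≤ η / 4 * (N ^ 2 * q ^ 2) := by positivity
  nlinarith

theorem large {K : ℕ} {C δ ε η : ℝ} (hδ : 0 < δ) (hε : 0 < ε) (hη : 0 < η) : ∃ L1 : ℝ,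
    ∀ L : ℝ, L1 ≤ L → 2 ≤ Real.log L ∧ C * L ^ (-δ) ≤ 1 ∧ C * L ^ (-(δ / 4)) ≤ 1 / 2 ∧
      Real.exp (100 * K * (C * L ^ (-(δ / 4)))) ≤ 1 + η / 4 ∧
      Real.exp (100 * K * (C * L ^ (-(δ / 4)))) ≤ 2 ∧ Real.log L ^ K ≤ L ^ (ε / 2) ∧
      3 * L ^ (-2 : ℝ) ≤ η / 4 ∧ 36 * K * (Real.log L ^ K * L ^ (-(δ / 2))) ≤ η / 4 := by
  have t0 : ∀ c A : ℝ, 0 < c → Tendsto (fun L : ℝ => A * L ^ (-c)) atTop (𝓝 0) := by
    intro c A hc
    have := (tendsto_rpow_neg_atTop hc).const_mul A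
    rwa [mul_zero] at this
  have e1 : ∀ᶠ L : ℝ in atTop, 2 ≤ Real.log L := Real.tendsto_log_atTop.eventually_ge_atTop 2
  have e2 : ∀ᶠ L : ℝ in atTop, C * L ^ (-δ) ≤ 1 := (t0 δ C hδ).eventually_le_const one_pos
  have e3 : ∀ᶠ L : ℝ in atTop, C * L ^ (-(δ / 4)) ≤ 1 / 2 :=
    (t0 (δ / 4) C (by linarith)).eventually_le_const (by norm_num)
  have t1 : Tendsto (fun L : ℝ => Real.exp (100 * K * (C * L ^ (-(δ / 4))))) atTop (𝓝 1) := by
    have h1 := (t0 (δ / 4) C (by linarith)).const_mul (100 * (K : ℝ))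
    rw [mul_zero] at h1
    have h2 := (Real.continuous_exp.tendsto 0).comp h1
    rw [Real.exp_zero] at h2
    exact h2
  have e4 : ∀ᶠ L : ℝ in atTop, Real.exp (100 * K * (C * L ^ (-(δ / 4)))) ≤ 1 + η / 4 :=
    t1.eventually_le_const (by linarith)
  have e5 : ∀ᶠ L : ℝ in atTop, Real.exp (100 * K * (C * L ^ (-(δ / 4)))) ≤ 2 :=
    t1.eventually_le_const (by norm_num)
  have lg : ∀ c : ℝ, 0 < c → ∀ᶠ L : ℝ in atTop, Real.log L ^ K ≤ L ^ c := by
    intro c hc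
    have h1 := (isLittleO_log_rpow_rpow_atTop (K : ℝ) hc).def one_pos
    filter_upwards [h1, eventually_ge_atTop (1 : ℝ)] with L hL hL1
    have h2 : 0 ≤ Real.log L := Real.log_nonneg hL1
    rw [Real.rpow_natCast, one_mul, Real.norm_of_nonneg (by positivity),
      Real.norm_of_nonneg (by positivity)] at hL
    exact hL
  have e6 : ∀ᶠ L : ℝ in atTop, Real.log L ^ K ≤ L ^ (ε / 2) := lg _ (by linarith)
  have e7 : ∀ᶠ L : ℝ in atTop, 3 * L ^ (-2 : ℝ) ≤ η / 4 :=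
    (t0 2 3 (by norm_num)).eventually_le_const (by linarith)
  have e8 : ∀ᶠ L : ℝ in atTop, 36 * K * L ^ (-(δ / 4)) ≤ η / 4 :=
    (t0 (δ / 4) (36 * K) (by linarith)).eventually_le_const (by linarith)
  have e9 : ∀ᶠ L : ℝ in atTop, Real.log L ^ K ≤ L ^ (δ / 4) := lg _ (by linarith)
  have e10 : ∀ᶠ L : ℝ in atTop, 1 ≤ L := eventually_ge_atTop 1
  obtain ⟨L1, hL1⟩ := eventually_atTop.1 (e1.and (e2.and (e3.and (e4.and (e5.and (e6.and
    (e7.and (e8.and (e9.and e10)))))))))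
  refine ⟨L1, fun L hL => ?_⟩
  obtain ⟨a1, a2, a3, a4, a5, a6, a7, a8, a9, a10⟩ := hL1 L hL
  refine ⟨a1, a2, a3, a4, a5, a6, a7, le_trans ?_ a8⟩
  refine mul_le_mul_of_nonneg_left ?_ (by positivity)
  have hL0 : 0 < L := by linarith
  calc Real.log L ^ K * L ^ (-(δ / 2)) ≤ L ^ (δ / 4) * L ^ (-(δ / 2)) :=
        mul_le_mul_of_nonneg_right a9 (by positivity)
    _ = L ^ (-(δ / 4)) := by
        rw [← Real.rpow_add hL0]
        congr 1
        ring

end SML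

open SML in
/-- (SM) first and second moment of the total weight -/
theorem t_SM (hE : S_EP) (hC : S_CB) : S_SM := by
  intro u hu hU K ε δ hε hε1 hδ hδ8 hKδ η hη
  have hKpos : (0 : ℝ) < K := lt_of_lt_of_le (by positivity) hKδ
  have hK : 0 < K := by exact_mod_cast hKpos
  obtain ⟨C, hC0, hC⟩ := hC
  obtain ⟨L0, hL0, hE⟩ := hE u hu hU K 4 δ hK (by norm_num) hδ hδ8
  obtain ⟨L1, hL1⟩ := large (K := K) (C := C) hδ hε hη
  refine ⟨max L0 L1, le_max_of_le_left hL0, ?_⟩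
  intro T h L κ w a n hT h0 h2 hL hLL hκ hw ha hn
  have hLL0 : L0 ≤ L := (le_max_left _ _).trans hLL
  obtain ⟨a1, a2, a3, a4, a5, a6, a7, a8⟩ := hL1 L ((le_max_right _ _).trans hLL)
  have hL3 : 3 ≤ L := hL0.trans hLL0
  have hL1' : 1 ≤ L := by linarith
  have hLpos : 0 < L := by linarith
  set l := Real.log L with hl
  have hT0 : 0 < T := by linarith
  have hlogT : 0 < Real.log T := Real.log_pos hT
  have hw0 : 0 < w := by rw [hw]; positivity
  -- `κ`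
  have hκ0 : 0 < κ := by rw [hκ]; exact div_pos (by linarith) hKpos
  have hκK : K * κ = 1 - 3 * δ := by rw [hκ]; field_simp
  have hκδ : κ ≤ δ / 4 := by
    rw [hκ, div_le_iff₀ hKpos]
    have h3 : 1 ≤ δ / 4 * K := by
      have := mul_le_mul_of_nonneg_left hKδ (by linarith : 0 ≤ δ / 4)
      have e1 : δ / 4 * (4 / δ) = 1 := by field_simp
      linarith
    linarith
  have hκ1 : κ ≤ 1 := by linarith
  have hpi := Real.pi_gt_three
  have hpi4 := Real.pi_lt_d2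
  set k := κ * l with hk
  have hk0 : 0 ≤ k := by positivity
  have hkl : k ≤ l := by nlinarith
  -- `a`
  have ha' : |a| = (1 - ε) * k / Real.pi := by rw [ha, hk]; ring
  have hak : |a| ≤ k / Real.pi := by
    rw [ha']
    exact div_le_div_of_nonneg_right (by nlinarith) (by linarith)
  have hal : |a| ≤ Real.log L := by
    refine hak.trans ?_
    rw [div_le_iff₀ (by linarith)]
    nlinarith
  -- the variances
  have hVn : ∀ j : ℕ, k / (2 * Real.pi ^ 2) ≤ 1 + Vb (eb h L δ κ j) (eb h L δ κ (j + 1)) 0 ∧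
      Vb (eb h L δ κ j) (eb h L δ κ (j + 1)) 0 ≤ k / (2 * Real.pi ^ 2) + 1 := by
    intro j
    have h3 := abs_le.1 ((V_near hC0 hC h0 h2 hL1' hδ hκ0.le j).trans a2)
    constructor
    · linarith [h3.1]
    · linarith [h3.2]
  have haV : ∀ j : ℕ, |a| ≤ 7 * (1 + Vb (eb h L δ κ j) (eb h L δ κ (j + 1)) 0) := by
    intro j
    have h3 := (hVn j).1
    have h4 : k / Real.pi ≤ 7 * (k / (2 * Real.pi ^ 2)) := by
      have e1 : 7 * (k / (2 * Real.pi ^ 2)) = k / Real.pi * (7 / (2 * Real.pi)) := by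
        field_simp
      rw [e1]
      refine le_mul_of_one_le_right (by positivity) ?_
      rw [one_le_div (by linarith)]
      linarith
    linarith
  have hPl : ∀ j : ℕ, Real.exp (-((1 - ε) ^ 2 * k)) / l ≤
      P2 (1 / 2) a (Vb (eb h L δ κ j) (eb h L δ κ (j + 1)) 0)
        (Vb (eb h L δ κ j) (eb h L δ κ (j + 1)) 0) := fun j =>
    P2_half_ge (Vb_nonneg _ _) hk0 hkl a1 (hVn j).1 (hVn j).2 (by linarith) ha'
  have hl0 : 0 < l := by linarith
  have hexp : Real.exp k = L ^ κ := by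
    rw [Real.rpow_def_of_pos hLpos, hk, mul_comm]
  have hp : ∀ j : ℕ, (P2 (1 / 2) a (Vb (eb h L δ κ j) (eb h L δ κ (j + 1)) 0)
      (Vb (eb h L δ κ j) (eb h L δ κ (j + 1)) 0))⁻¹ ≤ L ^ κ * l := by
    intro j
    have h3 : 0 < Real.exp (-((1 - ε) ^ 2 * k)) / l := by positivity
    refine (inv_anti₀ h3 (hPl j)).trans ?_
    rw [inv_div, div_eq_mul_inv, ← Real.exp_neg, neg_neg, mul_comm, ← hexp]
    refine mul_le_mul_of_nonneg_right (Real.exp_le_exp.2 ?_) hl0.le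
    have h4 : (1 - ε) ^ 2 ≤ 1 := by nlinarith
    nlinarith
  -- the expected weight
  have hEw : Ew h L δ κ K a = ∏ j : Fin K, P2 (1 / 2) a (Vb (eb h L δ κ j) (eb h L δ κ (j + 1)) 0)
      (Vb (eb h L δ κ j) (eb h L δ κ (j + 1)) 0) := rfl
  have hEw0 : 0 < Ew h L δ κ K a := by
    rw [hEw]
    exact Finset.prod_pos fun j _ => P2_half_pos (Vb_nonneg _ _)
  have hEwL : L ^ (-(1 - ε / 2)) ≤ Ew h L δ κ K a := by
    have h3 : (Real.exp (-((1 - ε) ^ 2 * k)) / l) ^ K ≤ Ew h L δ κ K a := by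
      rw [hEw]
      have h4 : (Real.exp (-((1 - ε) ^ 2 * k)) / l) ^ K =
          ∏ _j : Fin K, (Real.exp (-((1 - ε) ^ 2 * k)) / l) := by
        rw [Finset.prod_const, Finset.card_univ, Fintype.card_fin]
      rw [h4]
      exact Finset.prod_le_prod (fun j _ => by positivity) fun j _ => hPl j
    refine le_trans ?_ h3
    rw [div_pow, ← Real.exp_nat_mul, le_div_iff₀ (by positivity)]
    have h5 : Real.exp (K * -((1 - ε) ^ 2 * k)) = L ^ (-((1 - ε) ^ 2 * (1 - 3 * δ))) := by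
      rw [Real.rpow_def_of_pos hLpos, ← hκK, hk, ← hl]
      congr 1
      ring
    rw [h5]
    calc L ^ (-(1 - ε / 2)) * l ^ K ≤ L ^ (-(1 - ε / 2)) * L ^ (ε / 2) :=
          mul_le_mul_of_nonneg_left a6 (by positivity)
      _ = L ^ (-(1 - ε / 2) + ε / 2) := by rw [← Real.rpow_add hLpos]
      _ ≤ L ^ (-((1 - ε) ^ 2 * (1 - 3 * δ))) := by
          refine Real.rpow_le_rpow_of_exponent_le hL1' ?_
          have h6 : (1 - ε) ^ 2 * (1 - 3 * δ) ≤ (1 - ε) ^ 2 := by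
            have : 0 ≤ (1 - ε) ^ 2 := sq_nonneg _
            nlinarith
          nlinarith
  refine ⟨hEw0, hEwL, ?_⟩
  -- the second moment
  have hEP := fun (x : ℝ) (z c : Fin K → ℝ) (hc : ∀ j, c j = 1 / 2 ∨ c j = 1) =>
    hE T h L κ a hT h0 h2 hL hLL0 hκ hal x z c hc
  have hnw : (n : ℝ) ≤ h / (4 * w) := by
    rw [hn]
    exact Nat.floor_le (by positivity)
  have hnw1 : (n : ℝ) * w ≤ 1 := by
    have h3 := mul_le_mul_of_nonneg_right hnw hw0.le
    have e1 : h / (4 * w) * w = h / 4 := by field_simp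
    linarith
  have hN : h / (4 * w) ≤ ((n + 1 : ℕ) : ℝ) := by
    rw [hn]
    push_cast
    exact (Nat.lt_floor_add_one _).le
  have hwh : w / h = L ^ (δ - 1) := by
    rw [hw, Real.rpow_sub hLpos, Real.rpow_one, hL]
    field_simp
  have hcast : ((n : ℝ) + 1) = ((n + 1 : ℕ) : ℝ) := by push_cast; ring
  rw [hcast]
  have hsm := second_moment hT0 (n + 1) (fun i t => Wt u h L δ κ K a (t + i * w))
    (fun i => (Wt_cont u h L δ κ K a).comp (continuous_id.add continuous_const))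
    (Ew h L δ κ K a)
  rw [hsm]
  have hP1 : 1 ≤ L ^ κ * l := by
    have : 1 ≤ L ^ κ := Real.one_le_rpow hL1' hκ0.le
    nlinarith
  have hqL : L ^ (-1 : ℝ) ≤ Ew h L δ κ K a := by
    refine le_trans (Real.rpow_le_rpow_of_exponent_le hL1' ?_) hEwL
    linarith
  have hup := sum_up (n + 1) K
    (m2 := fun i i' => 1 / T * ∫ t in T..(2 * T), Wt u h L δ κ K a (t + i * w) *
      Wt u h L δ κ K a (t + i' * w))
    (m1 := fun i => 1 / T * ∫ t in T..(2 * T), Wt u h L δ κ K a (t + i * w))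
    (q := Ew h L δ κ K a) (e := L ^ (-4 : ℝ)) (w := w) (θ' := η / 4)
    (B := fun m => h * L ^ (-δ - m * κ + δ / 4))
    (X := fun m => 2 * (L ^ κ * l) ^ (m + 1) * Ew h L δ κ K a ^ 2 + L ^ (-4 : ℝ)) hw0 hEw0.le
    (fun m => by positivity)
    (fun i _ => by
      have := (abs_le.1 (single hEP (i * w))).1
      linarith)
    (fun i hi i' hi' => by
      rw [Finset.mem_range] at hi hi'
      exact pair_level hT0 hEP hC0 hC h0 h2 hL1' hδ hκ0.le (by positivity) hK hw0 haV hP1 hp rfl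
        a3 a4 a5 rfl hnw1 i i' (by omega) (by omega))
  refine hup.trans ?_
  exact numeric h0 hw0 hL1' hδ hκ0.le hκδ hκK hwh hN (Nat.cast_nonneg _) (by linarith) rfl hEw0
    hqL rfl le_rfl a7 a8

end Pool.Agent.H203.HX
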