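import Pool.Agent.H203.HX.Defs
import Pool.Agent.H203.GE.BBI

set_option autoImplicit false

/-! Leaf ZE: the approximate formula holds at all grid points for most `t`. -/

open Complex Filter Topology Set MeasureTheory

namespace Pool.Agent.H203.HX

open Pool.Agent.H203.ME (ee gR WR cR om FF KF C2c w1)
open Pool.Agent.H203.GE (Lf ZG XG BG NWG)

namespace ZEL

lemma w1_cont : Continuous w1 := by
  unfold w1
  exact continuous_const.div (by fun_prop) (fun x => by positivity)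

lemma w1_nonneg (u : ℝ) : 0 ≤ w1 u := by
  unfold w1
  positivity

lemma PR_cont (G : ℂ → ℂ) (T w R : ℝ) : Continuous (PR G T w R) := by
  unfold PR
  refine continuous_finsetSum _ fun s _ => ?_
  exact continuous_const.mul ((w1_cont.comp (by fun_prop)).mul continuous_const)

lemma PR_nonneg (G : ℂ → ℂ) (T w R t : ℝ) : 0 ≤ PR G T w R t := by
  unfold PR
  exact Finset.sum_nonneg fun s _ => mul_nonneg (Nat.cast_nonneg _)
    (mul_nonneg (w1_nonneg _) (by positivity))

lemma C2_Mw (w : ℝ) : C2c (Mw w) := by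
  refine ⟨?_, ?_⟩
  · unfold Mw w1
    refine ContDiff.mul ?_ (Pool.Agent.H203.ME.LLNL.bu_cd _ _ _)
    exact contDiff_const.div (by fun_prop) (fun x => by positivity)
  · intro x hx
    unfold Mw
    rcases le_total 0 x with h | h
    · rw [abs_of_nonneg h] at hx
      rw [Pool.Agent.H203.ME.LLNL.bu_right (by norm_num) hx, mul_zero]
    · rw [abs_of_nonpos h] at hx
      rw [Pool.Agent.H203.ME.LLNL.bu_left (by norm_num) (by linarith), mul_zero]

/-- Markov inequality -/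
lemma mk {f : ℝ → ℝ} (hf : Continuous f) (h0 : ∀ t, 0 ≤ f t) {a b c I : ℝ} (hab : a ≤ b)
    (hc : 0 < c) (hI : ∫ t in a..b, f t ≤ I) :
    volume {t : ℝ | a ≤ t ∧ t ≤ b ∧ c < f t} ≤ ENNReal.ofReal (I / c) := by
  have hint : IntegrableOn f (Icc a b) := hf.integrableOn_Icc
  have h1 := mul_meas_ge_le_integral_of_nonneg (μ := volume.restrict (Icc a b))
    (Eventually.of_forall h0) hint c
  have h2 : ∫ t in Icc a b, f t = ∫ t in a..b, f t := by
    rw [intervalIntegral.integral_of_le hab, integral_Icc_eq_integral_Ioc]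
  rw [h2] at h1
  have h3 : (volume.restrict (Icc a b)).real {t | c ≤ f t} ≤ I / c := by
    rw [le_div_iff₀ hc, mul_comm]
    exact h1.trans hI
  have h4 : volume {t : ℝ | a ≤ t ∧ t ≤ b ∧ c < f t} ≤
      (volume.restrict (Icc a b)) {t | c ≤ f t} := by
    rw [Measure.restrict_apply (measurableSet_le measurable_const hf.measurable)]
    exact measure_mono fun t ht => ⟨ht.2.2.le, ht.1, ht.2.1⟩
  refine h4.trans ?_
  rw [← ENNReal.ofReal_toReal (a := (volume.restrict (Icc a b)) {t | c ≤ f t})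
    (measure_ne_top _ _)]
  exact ENNReal.ofReal_le_ofReal h3

lemma ev1 {a c : ℝ} (ha : 0 < a) : ∀ᶠ x : ℝ in atTop, c ≤ x ^ a :=
  (tendsto_rpow_atTop ha).eventually_ge_atTop c

lemma ev2 {δ K : ℝ} (hδ1 : δ < 1) : ∀ᶠ x : ℝ in atTop, K * x ^ δ ≤ x := by
  filter_upwards [ev1 (a := 1 - δ) (c := K) (by linarith), eventually_ge_atTop 1] with x hx hx1
  have hx0 : 0 < x := by linarith
  calc K * x ^ δ ≤ x ^ (1 - δ) * x ^ δ := mul_le_mul_of_nonneg_right hx (by positivity)
    _ = x := by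
      rw [← Real.rpow_add hx0]
      ring_nf
      exact Real.rpow_one x

lemma ev3 {a C η : ℝ} (ha : 0 < a) (hη : 0 < η) :
    ∀ᶠ x : ℝ in atTop, 2 * x * C * Real.exp (-(x ^ a / 8)) ≤ η := by
  have h1 := (tendsto_rpow_mul_exp_neg_mul_atTop_nhds_zero (1 / a) (1 / 8) (by norm_num)).comp
    (tendsto_rpow_atTop ha)
  have h2 : Tendsto (fun x : ℝ => 2 * C * (x * Real.exp (-(x ^ a / 8)))) atTop (𝓝 (2 * C * 0)) := by
    refine Tendsto.const_mul _ (h1.congr' ?_)
    filter_upwards [eventually_ge_atTop 1] with x hx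
    have hx0 : 0 ≤ x := by linarith
    simp only [Function.comp_apply]
    rw [← Real.rpow_mul hx0, mul_one_div_cancel ha.ne', Real.rpow_one]
    congr 2
    ring
  rw [mul_zero] at h2
  filter_upwards [h2.eventually (gt_mem_nhds hη)] with x hx
  linarith

lemma ev4 {C η : ℝ} (hη : 0 < η) : ∀ᶠ x : ℝ in atTop, 2 * C / x ≤ η := by
  have h1 : Tendsto (fun x : ℝ => 2 * C / x) atTop (𝓝 0) := tendsto_const_nhds.div_atTop tendsto_id
  filter_upwards [h1.eventually (gt_mem_nhds hη)] with x hx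
  exact hx.le

lemma ev5 {η : ℝ} (hη : 0 < η) : ∀ᶠ x : ℝ in atTop, 5 * x ≤ η * Real.exp x := by
  have h1 := Real.tendsto_pow_mul_exp_neg_atTop_nhds_zero 1
  filter_upwards [h1.eventually (gt_mem_nhds (show (0 : ℝ) < η / 5 by positivity))] with x hx
  rw [pow_one] at hx
  have h2 := Real.exp_pos x
  have h3 : x * Real.exp (-x) * Real.exp x = x := by
    rw [mul_assoc, ← Real.exp_add, neg_add_cancel, Real.exp_zero, mul_one]
  have h4 : x * Real.exp (-x) * Real.exp x ≤ η / 5 * Real.exp x :=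
    mul_le_mul_of_nonneg_right hx.le h2.le
  rw [h3] at h4
  linarith

end ZEL

open ZEL in
theorem t_ZE (hN : S_NB) (hP : S_PB) (hE : S_ER) (hZ : S_ZM) : S_ZE := by
  intro G u hG δ hδ hδ8
  obtain ⟨C1, T1, hC1, hT1, hNB⟩ := hN G u hG
  obtain ⟨C2, T2, hC2, hT2, hPB⟩ := hP G u hG
  obtain ⟨C3, T3, hC3, hT3, hER⟩ := hE G u hG
  refine ⟨8 * C1 * C3 + 4 * C3, fun ε hε => ?_⟩
  obtain ⟨m, hm⟩ := exists_nat_ge (1 / δ)
  have hmδ : 1 ≤ m * δ := by rwa [div_le_iff₀ hδ] at hm
  have hm1 : m ≠ 0 := by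
    rintro rfl
    rw [Nat.cast_zero, zero_mul] at hmδ
    linarith
  obtain ⟨C4, K4, T4, hC4, hK4, hT4, hZM⟩ := hZ m
  have hev : ∀ᶠ x : ℝ in atTop, 1 ≤ x ∧ T1 ≤ Real.exp x ∧ T2 ≤ Real.exp x ∧ T3 ≤ Real.exp x ∧
      T4 ≤ Real.exp x ∧ C1 ≤ x ^ (δ / 2) ∧ 64 * ((m : ℝ) + 1) ≤ x ^ (δ / 2) ∧ K4 * x ^ δ ≤ x ∧
      2 * x * C2 * Real.exp (-(x ^ (δ / 2) / 8)) ≤ ε / 4 ∧ 2 * C4 / x ≤ ε / 4 ∧
      5 * x ≤ ε / 2 * Real.exp x := by
    have hδ2 : 0 < δ / 2 := by positivity
    filter_upwards [eventually_ge_atTop 1, Real.tendsto_exp_atTop.eventually_ge_atTop T1,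
      Real.tendsto_exp_atTop.eventually_ge_atTop T2, Real.tendsto_exp_atTop.eventually_ge_atTop T3,
      Real.tendsto_exp_atTop.eventually_ge_atTop T4, ev1 (c := C1) hδ2,
      ev1 (c := 64 * ((m : ℝ) + 1)) hδ2, ev2 (K := K4) (show δ < 1 by linarith),
      ev3 (C := C2) hδ2 (show 0 < ε / 4 by positivity), ev4 (C := C4) (show 0 < ε / 4 by positivity),
      ev5 (show 0 < ε / 2 by positivity)] with x h1 h2 h3 h4 h5 h6 h7 h8 h9 h10 h11
    exact ⟨h1, h2, h3, h4, h5, h6, h7, h8, h9, h10, h11⟩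
  obtain ⟨L0, hL0⟩ := eventually_atTop.1 hev
  refine ⟨max 1 L0, le_max_left _ _, fun T h w R hT hh hh2 hL hw hR => ?_⟩
  obtain ⟨x, hx⟩ : ∃ x, x = h * Real.log T := ⟨_, rfl⟩
  obtain ⟨y, hy⟩ : ∃ y, y = Real.log T := ⟨_, rfl⟩
  rw [← hx] at hL hw hR
  rw [← hy] at hw hR hx
  have hT0 : 0 < T := by linarith
  have hTy : T = Real.exp y := by rw [hy, Real.exp_log hT0]
  have hxL : L0 ≤ x := le_trans (le_max_right _ _) hL
  have hx1 : 1 ≤ x := le_trans (le_max_left _ _) hL
  have hx0 : 0 < x := by linarith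
  have hy0 : 0 < y := by rw [hy]; exact Real.log_pos hT
  have h2x : 2 * x ≤ y := by rw [hx]; nlinarith
  have hxy : x ≤ y := by linarith
  obtain ⟨-, -, -, -, -, p6, p7, p8, p9, p10, -⟩ := hL0 x hxL
  obtain ⟨q1, q2, q3, q4, q5, -, -, -, -, -, q11⟩ := hL0 y (hxL.trans hxy)
  rw [← hTy] at q2 q3 q4 q5 q11
  obtain ⟨s, hs⟩ : ∃ s, s = x ^ (δ / 2) := ⟨_, rfl⟩
  rw [← hs] at p6 p7 p9
  have hs1 : 1 ≤ s := hC1.trans p6
  have hs0 : 0 < s := by linarith
  have hs2 : x ^ δ = s ^ 2 := by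
    rw [hs, ← Real.rpow_natCast, ← Real.rpow_mul hx0.le]
    congr 1
    push_cast
    ring
  have hs4 : s ^ 4 ≤ x := by
    have h1 : s ^ 4 = x ^ (2 * δ) := by
      rw [hs, ← Real.rpow_natCast, ← Real.rpow_mul hx0.le]
      congr 1
      push_cast
      ring
    rw [h1]
    calc x ^ (2 * δ) ≤ x ^ (1 : ℝ) := Real.rpow_le_rpow_of_exponent_le hx1 (by linarith)
      _ = x := Real.rpow_one x
  have hss : s ≤ s ^ 2 := by nlinarith
  have hs24 : s ^ 2 ≤ s ^ 4 := by nlinarith [sq_nonneg s, mul_self_nonneg (s ^ 2)]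
  rw [hs2] at hw p8
  have hRs : R = y / s := by
    rw [hR, Real.rpow_neg hx0.le, ← hs]
    field_simp
  have hw0 : 0 < w := by rw [hw]; positivity
  have hR0 : 0 < R := by rw [hRs]; positivity
  have hwy : w * y = s ^ 2 := by rw [hw]; field_simp
  have hwR : w * R = s := by
    rw [hw, hRs]
    field_simp
  have hyR : y / R ^ 2 ≤ 1 := by
    have h1 : y / R ^ 2 = s ^ 2 / y := by
      rw [hRs]
      field_simp
    rw [h1, div_le_one hy0]
    linarith
  have hw2 : w ^ 2 * y ≤ 1 := by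
    have h1 : w ^ 2 * y = s ^ 4 / y := by
      rw [hw]
      field_simp
    rw [h1, div_le_one hy0]
    linarith
  have hm0 : (0 : ℝ) ≤ m := Nat.cast_nonneg _
  have hRy64 : R ≤ y / (64 * ((m : ℝ) + 1)) := by
    rw [hRs]
    exact div_le_div_of_nonneg_left hy0.le (by positivity) p7
  have hRy8 : R ≤ y / 8 := by
    refine hRy64.trans (div_le_div_of_nonneg_left hy0.le (by norm_num) ?_)
    linarith
  have hRy : R ≤ y := by linarith
  have hwK : w ≤ 1 / K4 := by
    rw [hw, div_le_div_iff₀ hy0 (by linarith)]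
    linarith
  have hw12 : w ≤ 1 / 2 := by
    rw [hw, div_le_div_iff₀ hy0 (by norm_num)]
    nlinarith
  have hR1 : 1 ≤ R := by
    have h1 : 1 ≤ w * R := by rw [hwR]; exact hs1
    nlinarith
  have hBc : Continuous (BG u (Mw w) R) :=
    (Pool.Agent.H203.GE.t_BBI u hG.le1 _ (C2_Mw w) _ hR1).2.1
  have hxs : x ^ 2 ≤ (s ^ 2) ^ (2 * m) := by
    rw [← hs2, ← Real.rpow_natCast, ← Real.rpow_natCast, ← Real.rpow_mul hx0.le]
    refine Real.rpow_le_rpow_of_exponent_le hx1 ?_
    push_cast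
    nlinarith
  have hTy1 : 5 * y ≤ ε / 2 * T := q11
  obtain ⟨n, hn⟩ : ∃ n : ℕ, n = ⌊h / w⌋₊ := ⟨_, rfl⟩
  have hnx : ((n : ℝ) + 1) ≤ 2 * x := by
    have h1 : (n : ℝ) ≤ h / w := by
      rw [hn]
      exact Nat.floor_le (by positivity)
    have h2 : h / w ≤ x := by
      rw [div_le_iff₀ hw0]
      have h3 : x * w = h * s ^ 2 := by
        rw [hx, ← hwy]
        ring
      rw [h3]
      nlinarith
    linarith
  -- the inclusion
  have hsub : {t : ℝ | T ≤ t ∧ t ≤ 2 * T ∧ ∃ i j : ℕ, i < j ∧ j * w ≤ h ∧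
      8 * C1 * C3 + 4 * C3 <
        |XG G (Gs w ((j - i) * w)) T (t + i * w) + BG u (Gs w ((j - i) * w)) R (t + i * w)|} ⊆
      (Icc T (T + 2 * y) ∪ Icc (2 * T - 2 * y - 1) (2 * T)) ∪ ⋃ i ∈ Finset.range (n + 1),
        ({t : ℝ | T ≤ t ∧ t ≤ 2 * T - 1 ∧ 1 < PR G T w R (t + i * w)} ∪
          {t : ℝ | T ≤ t ∧ t ≤ 2 * T - 1 ∧ x ^ 2 < BG u (Mw w) R (t + i * w) ^ (2 * m)}) := by
    rintro t ⟨ht1, ht2, i, j, hij, hj, hC⟩
    by_contra hcon
    have e1 : T + 2 * y < t := by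
      by_contra h1
      exact hcon (Or.inl (Or.inl ⟨ht1, not_lt.1 h1⟩))
    have e2 : t < 2 * T - 2 * y - 1 := by
      by_contra h1
      exact hcon (Or.inl (Or.inr ⟨not_lt.1 h1, ht2⟩))
    have hpt : ∀ i : ℕ, i * w ≤ h → t + i * w ∈ Icc (T + 2 * y) (2 * T - 2 * y) ∧
        PR G T w R (t + i * w) ≤ 1 ∧ NWG G T w (t + i * w) ≤ 4 * C1 * s ^ 2 := by
      intro i hi
      have hiw : 0 ≤ (i : ℝ) * w := by positivity
      have hin : i ∈ Finset.range (n + 1) := by
        rw [Finset.mem_range, hn]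
        exact Nat.lt_succ_of_le (Nat.le_floor (by rwa [le_div_iff₀ hw0]))
      have hmem : t + i * w ∈ Icc (T + 2 * y) (2 * T - 2 * y) := ⟨by linarith, by linarith⟩
      have hPR : PR G T w R (t + i * w) ≤ 1 := by
        by_contra hc
        exact hcon (Or.inr (mem_biUnion hin (Or.inl ⟨ht1, by linarith, not_le.1 hc⟩)))
      have hBG : |BG u (Mw w) R (t + i * w)| ≤ s ^ 2 := by
        by_contra hc
        refine hcon (Or.inr (mem_biUnion hin (Or.inr ⟨ht1, by linarith, ?_⟩)))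
        refine lt_of_le_of_lt hxs ?_
        rw [← (even_two_mul m).pow_abs (BG u (Mw w) R (t + i * w))]
        exact pow_lt_pow_left₀ (not_le.1 hc) (by positivity) (by omega)
      refine ⟨hmem, hPR, ?_⟩
      have h1 := hNB T q2 w R hw0 (by rw [← hy]; exact hw2) (by rw [hwR]; exact p6)
        (by rw [← hy]; exact hRy) (t + i * w) (by rw [← hy]; exact hmem)
      rw [← hy, hwy] at h1
      refine h1.trans ?_
      have h2 : s ^ 2 + |BG u (Mw w) R (t + i * w)| + PR G T w R (t + i * w) + 1 ≤ 4 * s ^ 2 := by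
        nlinarith
      calc C1 * (s ^ 2 + |BG u (Mw w) R (t + i * w)| + PR G T w R (t + i * w) + 1)
          ≤ C1 * (4 * s ^ 2) := mul_le_mul_of_nonneg_left h2 (by linarith)
        _ = 4 * C1 * s ^ 2 := by ring
    have hij' : (i : ℝ) ≤ j := by exact_mod_cast hij.le
    have hiw : (i : ℝ) * w ≤ h := (mul_le_mul_of_nonneg_right hij' hw0.le).trans hj
    obtain ⟨m1, m2, m3⟩ := hpt i hiw
    obtain ⟨n1, n2, n3⟩ := hpt j hj
    have ha0 : 0 ≤ ((j : ℝ) - i) * w := mul_nonneg (by linarith) hw0.le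
    have ha1 : ((j : ℝ) - i) * w + w ≤ 1 := by
      have h1 : 0 ≤ (i : ℝ) * w := by positivity
      nlinarith
    have h1 := hER T q4 w R (((j : ℝ) - i) * w) hw0 (by rw [hwR]; exact hs1)
      (by rw [← hy]; exact hRy) ha0 ha1 (t + i * w) (by rw [← hy]; exact m1)
    have h2 : t + i * w + ((j : ℝ) - i) * w = t + j * w := by ring
    rw [h2, ← hy, hwR] at h1
    have h3 : C3 / s ^ 2 * (NWG G T w (t + i * w) + NWG G T w (t + j * w)) ≤ 8 * C1 * C3 := by
      calc C3 / s ^ 2 * (NWG G T w (t + i * w) + NWG G T w (t + j * w))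
          ≤ C3 / s ^ 2 * (8 * C1 * s ^ 2) :=
            mul_le_mul_of_nonneg_left (by linarith) (by positivity)
        _ = 8 * C1 * C3 := by
            field_simp
    have h4 : C3 * (PR G T w R (t + i * w) + PR G T w R (t + j * w)) ≤ C3 * 2 :=
      mul_le_mul_of_nonneg_left (by linarith) hC3.le
    have h5 : C3 * (1 + y / R ^ 2) ≤ C3 * 2 := mul_le_mul_of_nonneg_left (by linarith) hC3.le
    linarith
  -- the measures
  have hT1' : T ≤ 2 * T - 1 := by linarith
  have hA : ∀ i ∈ Finset.range (n + 1),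
      volume {t : ℝ | T ≤ t ∧ t ≤ 2 * T - 1 ∧ 1 < PR G T w R (t + i * w)} ≤
        ENNReal.ofReal (C2 * T * Real.exp (-(s / 8))) := by
    intro i _
    have h1 := hPB T q3 w R hw0 hR0 (by rw [← hy]; exact hRy8) (T + i * w) (2 * T - 1 + i * w)
      (by linarith)
    rw [← intervalIntegral.integral_comp_add_right (fun t => PR G T w R t), ← hy, hwy] at h1
    have h2 : y / (8 * R) = s / 8 := by
      rw [hRs]
      field_simp
    rw [h2] at h1
    have h3 : C2 * T / s ^ 2 * Real.exp (-(s / 8)) ≤ C2 * T * Real.exp (-(s / 8)) := by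
      refine mul_le_mul_of_nonneg_right ?_ (Real.exp_pos _).le
      exact div_le_self (by positivity) (by nlinarith)
    have h4 := mk (f := fun t => PR G T w R (t + i * w)) ((PR_cont G T w R).comp (by fun_prop))
      (fun t => PR_nonneg _ _ _ _ _) hT1' one_pos (h1.trans h3)
    rwa [div_one] at h4
  have hD : ∀ i ∈ Finset.range (n + 1),
      volume {t : ℝ | T ≤ t ∧ t ≤ 2 * T - 1 ∧ x ^ 2 < BG u (Mw w) R (t + i * w) ^ (2 * m)} ≤
        ENNReal.ofReal (C4 * T / x ^ 2) := by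
    intro i hi
    have hiw : 0 ≤ (i : ℝ) * w := by positivity
    have hi1 : (i : ℝ) * w ≤ 1 := by
      have h1 : (i : ℝ) ≤ n := by
        have := Finset.mem_range.1 hi
        exact_mod_cast Nat.lt_succ_iff.1 this
      have h2 : (n : ℝ) ≤ h / w := by
        rw [hn]
        exact Nat.floor_le (by positivity)
      have h3 : (i : ℝ) * w ≤ h := by
        rw [← le_div_iff₀ hw0]
        exact h1.trans h2
      linarith
    have h1 := hZM T q5 u hG.le1 w R hw0 hwK (by rw [hwR]; exact hs1) (by rw [← hy]; exact hRy64)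
    have hfc : Continuous fun t => BG u (Mw w) R t ^ (2 * m) := hBc.pow _
    have h2 : ∫ t in T..(2 * T - 1), BG u (Mw w) R (t + i * w) ^ (2 * m) ≤ C4 * T := by
      rw [intervalIntegral.integral_comp_add_right (fun t => BG u (Mw w) R t ^ (2 * m))]
      refine (intervalIntegral.integral_mono_interval (by linarith) (by linarith) (by linarith) ?_
        (hfc.intervalIntegrable _ _)).trans h1
      exact Eventually.of_forall fun t => (even_two_mul m).pow_nonneg _
    exact mk (f := fun t => BG u (Mw w) R (t + i * w) ^ (2 * m)) (hfc.comp (by fun_prop))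
      (fun t => (even_two_mul m).pow_nonneg _) hT1' (by positivity) h2
  have hIA : 0 ≤ C2 * T * Real.exp (-(s / 8)) := by positivity
  have hIB : 0 ≤ C4 * T / x ^ 2 := by positivity
  calc volume {t : ℝ | T ≤ t ∧ t ≤ 2 * T ∧ ∃ i j : ℕ, i < j ∧ j * w ≤ h ∧
      8 * C1 * C3 + 4 * C3 <
        |XG G (Gs w ((j - i) * w)) T (t + i * w) + BG u (Gs w ((j - i) * w)) R (t + i * w)|}
      ≤ (ENNReal.ofReal (2 * y) + ENNReal.ofReal (2 * y + 1)) + ∑ i ∈ Finset.range (n + 1),
          (ENNReal.ofReal (C2 * T * Real.exp (-(s / 8))) + ENNReal.ofReal (C4 * T / x ^ 2)) := by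
        refine (measure_mono hsub).trans ((measure_union_le _ _).trans (add_le_add ?_ ?_))
        · refine (measure_union_le _ _).trans (le_of_eq ?_)
          rw [Real.volume_Icc, Real.volume_Icc]
          congr 2 <;> ring
        · refine (measure_biUnion_finset_le _ _).trans (Finset.sum_le_sum fun i hi => ?_)
          exact (measure_union_le _ _).trans (add_le_add (hA i hi) (hD i hi))
    _ = ENNReal.ofReal (2 * y + (2 * y + 1) +
          ((n + 1 : ℕ) : ℝ) * (C2 * T * Real.exp (-(s / 8)) + C4 * T / x ^ 2)) := by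
        rw [Finset.sum_const, Finset.card_range, nsmul_eq_mul, ← ENNReal.ofReal_add hIA hIB,
          ← ENNReal.ofReal_natCast, ← ENNReal.ofReal_mul (Nat.cast_nonneg _),
          ← ENNReal.ofReal_add (by positivity) (by positivity),
          ← ENNReal.ofReal_add (by positivity) (by positivity)]
    _ ≤ ENNReal.ofReal (ε * T) := by
        refine ENNReal.ofReal_le_ofReal ?_
        have h1 : ((n + 1 : ℕ) : ℝ) * (C2 * T * Real.exp (-(s / 8)) + C4 * T / x ^ 2) ≤
            2 * x * (C2 * T * Real.exp (-(s / 8)) + C4 * T / x ^ 2) := by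
          refine mul_le_mul_of_nonneg_right ?_ (by positivity)
          push_cast
          exact hnx
        have h2 : 2 * x * (C2 * T * Real.exp (-(s / 8)) + C4 * T / x ^ 2) =
            2 * x * C2 * Real.exp (-(s / 8)) * T + 2 * C4 / x * T := by
          field_simp
        have h3 : 2 * x * C2 * Real.exp (-(s / 8)) * T ≤ ε / 4 * T :=
          mul_le_mul_of_nonneg_right p9 hT0.le
        have h4 : 2 * C4 / x * T ≤ ε / 4 * T := mul_le_mul_of_nonneg_right p10 hT0.le
        rw [h2] at h1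
        linarith

end Pool.Agent.H203.HX
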