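import Pool.Agent.H203.HX.Defs
import Pool.Agent.H203.GE.BMG

set_option autoImplicit false

/-! (ZM) the moments of the prime side of the majorant (adapted from GE/BMG.lean). -/

open Complex Filter Topology Set MeasureTheory

namespace Pool.Agent.H203.HX

open Pool.Agent.H203.ME (ee gR WR cR om FF KF C2c w1)
open Pool.Agent.H203.GE (Lf ZG XG BG NWG)

namespace ZML

open Pool.Agent.H203.ME.LLNL (bu bu_nonneg bu_le bu_left bu_right bu_cd bu_cs)

/-- the bump -/
noncomputable def b (x : ℝ) : ℝ := bu (-1) 1 (1 / 2) x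

lemma b_cd : ContDiff ℝ 2 b := bu_cd (-1) 1 (1 / 2)

lemma b_cs : HasCompactSupport b := bu_cs (by norm_num)

lemma b_abs (x : ℝ) : |b x| ≤ 1 := by
  unfold b
  rw [abs_of_nonneg (bu_nonneg _ _ _ _)]
  exact bu_le _ _ _ _

lemma b_cd1 : ContDiff ℝ 1 (deriv b) := by
  have h := b_cd
  rw [show (2 : WithTop ℕ∞) = 1 + 1 by norm_num] at h
  exact (contDiff_succ_iff_deriv.1 h).2.2

/-- bounds for the derivatives of the bump -/
lemma b_bd : ∃ B : ℝ, 0 ≤ B ∧ (∀ x, |deriv b x| ≤ B) ∧ ∀ x, |deriv (deriv b) x| ≤ B := by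
  have hc1 : Continuous (deriv b) := b_cd1.continuous
  have hc2 : Continuous (deriv (deriv b)) := b_cd1.continuous_deriv (by norm_num)
  obtain ⟨B1, h1⟩ := hc1.bounded_above_of_compact_support b_cs.deriv
  obtain ⟨B2, h2⟩ := hc2.bounded_above_of_compact_support b_cs.deriv.deriv
  refine ⟨max (max B1 B2) 0, le_max_right _ _, fun x => ?_, fun x => ?_⟩
  · exact (h1 x).trans ((le_max_left _ _).trans (le_max_left _ _))
  · exact (h2 x).trans ((le_max_right _ _).trans (le_max_left _ _))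

lemma w1_pos (x : ℝ) : 0 < w1 x := by
  unfold w1
  positivity

lemma w1_cd : ContDiff ℝ 2 w1 := by
  unfold w1
  exact contDiff_const.div (by fun_prop) fun x => by positivity

lemma w1_d (x : ℝ) : HasDerivAt w1 (-(2 * x) / (1 + x ^ 2) ^ 2) x := by
  have h0 : (1 : ℝ) + x ^ 2 ≠ 0 := by positivity
  have h1 : HasDerivAt (fun x : ℝ => 1 + x ^ 2) (2 * x) x := by
    simpa using (hasDerivAt_pow 2 x).const_add 1
  have h2 := h1.inv h0
  have e : w1 = fun x : ℝ => (1 + x ^ 2)⁻¹ := by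
    funext x
    unfold w1
    rw [one_div]
  rw [e]
  exact h2

lemma w1_dd (x : ℝ) : HasDerivAt (fun x : ℝ => -(2 * x) / (1 + x ^ 2) ^ 2)
    ((6 * x ^ 2 - 2) / (1 + x ^ 2) ^ 3) x := by
  have h0 : (1 : ℝ) + x ^ 2 ≠ 0 := by positivity
  have h1 : HasDerivAt (fun x : ℝ => 1 + x ^ 2) (2 * x) x := by
    simpa using (hasDerivAt_pow 2 x).const_add 1
  have h2 : HasDerivAt (fun x : ℝ => (1 + x ^ 2) ^ 2) (2 * (1 + x ^ 2) * (2 * x)) x := by
    have := h1.fun_pow 2
    simpa using this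
  have h3 : HasDerivAt (fun x : ℝ => -(2 * x)) (-(2 * 1)) x :=
    ((hasDerivAt_id x).const_mul 2).fun_neg
  have h4 := h3.fun_div h2 (pow_ne_zero 2 h0)
  refine h4.congr_deriv ?_
  field_simp
  ring

/-- the scaled majorant -/
noncomputable def f (w x : ℝ) : ℝ := w1 x * b (w * x)

lemma Mw_eq {w : ℝ} (hw : 0 < w) : Mw w = fun y => f w (y / w) := by
  funext y
  unfold Mw f b
  rw [mul_div_cancel₀ _ hw.ne']

lemma f_cd (w : ℝ) : ContDiff ℝ 2 (f w) := by
  unfold f
  exact w1_cd.mul (b_cd.comp (by fun_prop))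

lemma f_cs {w : ℝ} (hw : 0 < w) : HasCompactSupport (f w) := by
  refine HasCompactSupport.intro (isCompact_Icc (a := -(1 / w)) (b := 1 / w)) fun x hx => ?_
  unfold f
  have h1 : b (w * x) = 0 := by
    rw [mem_Icc, not_and_or, not_le, not_le] at hx
    rcases hx with hx | hx
    · refine bu_left (by norm_num) ?_
      have h2 := mul_lt_mul_of_pos_left hx hw
      have h3 : w * -(1 / w) = -1 := by field_simp
      rw [h3] at h2
      exact h2.le
    · refine bu_right (by norm_num) ?_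
      have h2 := mul_lt_mul_of_pos_left hx hw
      have h3 : w * (1 / w) = 1 := by field_simp
      rw [h3] at h2
      exact h2.le
  rw [h1, mul_zero]

lemma f_d (w x : ℝ) : HasDerivAt (f w) (-(2 * x) / (1 + x ^ 2) ^ 2 * b (w * x) +
    w1 x * (deriv b (w * x) * w)) x := by
  have h1 : HasDerivAt (fun x : ℝ => w * x) w x := by
    simpa using (hasDerivAt_id x).const_mul w
  have h2 : HasDerivAt b (deriv b (w * x)) (w * x) :=
    (b_cd.differentiable (by norm_num) (w * x)).hasDerivAt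
  exact (w1_d x).mul (h2.comp x h1)

lemma f_dd (w x : ℝ) : deriv (deriv (f w)) x = (6 * x ^ 2 - 2) / (1 + x ^ 2) ^ 3 * b (w * x) +
    -(2 * x) / (1 + x ^ 2) ^ 2 * (deriv b (w * x) * w) +
    (-(2 * x) / (1 + x ^ 2) ^ 2 * (deriv b (w * x) * w) +
      w1 x * (deriv (deriv b) (w * x) * w * w)) := by
  have e : deriv (f w) = fun x => -(2 * x) / (1 + x ^ 2) ^ 2 * b (w * x) +
      w1 x * (deriv b (w * x) * w) := by
    funext x
    exact (f_d w x).deriv
  rw [e]
  have h1 : HasDerivAt (fun x : ℝ => w * x) w x := by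
    simpa using (hasDerivAt_id x).const_mul w
  have h2 : HasDerivAt b (deriv b (w * x)) (w * x) :=
    (b_cd.differentiable (by norm_num) (w * x)).hasDerivAt
  have h3 : HasDerivAt (deriv b) (deriv (deriv b) (w * x)) (w * x) :=
    (b_cd1.differentiable (by norm_num) (w * x)).hasDerivAt
  have h4 := ((w1_dd x).mul (h2.comp x h1)).add ((w1_d x).mul ((h3.comp x h1).mul_const w))
  exact h4.deriv

lemma f_dd_le {B : ℝ} (hB : 0 ≤ B) (h1 : ∀ x, |deriv b x| ≤ B) (h2 : ∀ x, |deriv (deriv b) x| ≤ B)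
    {w : ℝ} (hw : 0 < w) (hw1 : w ≤ 1) (x : ℝ) :
    |deriv (deriv (f w)) x| ≤ (6 + 3 * B) * w1 x := by
  rw [f_dd]
  have hp := w1_pos x
  have k0 : (0 : ℝ) < 1 + x ^ 2 := by positivity
  have k1 : |(6 * x ^ 2 - 2) / (1 + x ^ 2) ^ 3| ≤ 6 * w1 x := by
    rw [abs_div, abs_of_pos (pow_pos k0 3), div_le_iff₀ (pow_pos k0 3)]
    have e : 6 * w1 x * (1 + x ^ 2) ^ 3 = 6 * (1 + x ^ 2) ^ 2 := by
      unfold w1
      field_simp
    rw [e, abs_le]
    constructor <;> nlinarith [sq_nonneg x, sq_nonneg (x ^ 2)]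
  have k2 : |-(2 * x) / (1 + x ^ 2) ^ 2| ≤ w1 x := by
    rw [abs_div, abs_of_pos (pow_pos k0 2), div_le_iff₀ (pow_pos k0 2)]
    have e : w1 x * (1 + x ^ 2) ^ 2 = 1 + x ^ 2 := by
      unfold w1
      field_simp
    rw [e, abs_le]
    constructor <;> nlinarith [sq_nonneg (x - 1), sq_nonneg (x + 1)]
  have k3 : |deriv b (w * x) * w| ≤ B := by
    rw [abs_mul, abs_of_pos hw]
    calc _ ≤ B * 1 := mul_le_mul (h1 _) hw1 hw.le hB
      _ = B := mul_one B
  have k4 : |deriv (deriv b) (w * x) * w * w| ≤ B := by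
    rw [abs_mul, abs_mul, abs_of_pos hw]
    calc _ ≤ B * 1 * 1 := mul_le_mul (mul_le_mul (h2 _) hw1 hw.le hB) hw1 hw.le (by linarith)
      _ = B := by ring
  have m1 : |(6 * x ^ 2 - 2) / (1 + x ^ 2) ^ 3 * b (w * x)| ≤ 6 * w1 x := by
    rw [abs_mul]
    calc _ ≤ 6 * w1 x * 1 := mul_le_mul k1 (b_abs _) (abs_nonneg _) (by linarith)
      _ = _ := mul_one _
  have m2 : |-(2 * x) / (1 + x ^ 2) ^ 2 * (deriv b (w * x) * w)| ≤ w1 x * B := by
    rw [abs_mul]
    exact mul_le_mul k2 k3 (abs_nonneg _) hp.le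
  have m3 : |w1 x * (deriv (deriv b) (w * x) * w * w)| ≤ w1 x * B := by
    rw [abs_mul, abs_of_pos hp]
    exact mul_le_mul_of_nonneg_left k4 hp.le
  calc _ ≤ |(6 * x ^ 2 - 2) / (1 + x ^ 2) ^ 3 * b (w * x)| +
        |-(2 * x) / (1 + x ^ 2) ^ 2 * (deriv b (w * x) * w)| +
        (|-(2 * x) / (1 + x ^ 2) ^ 2 * (deriv b (w * x) * w)| +
          |w1 x * (deriv (deriv b) (w * x) * w * w)|) :=
        (abs_add_le _ _).trans (add_le_add (abs_add_le _ _) (abs_add_le _ _))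
    _ ≤ 6 * w1 x + w1 x * B + (w1 x * B + w1 x * B) := add_le_add (add_le_add m1 m2) (add_le_add m2 m3)
    _ = _ := by ring

lemma w1_int : Integrable w1 := by
  have h := integrable_inv_one_add_sq
  refine h.congr (Eventually.of_forall fun x => ?_)
  unfold w1
  exact (one_div _).symm

lemma w1_integral : ∫ x, w1 x = Real.pi := by
  rw [← integral_univ_inv_one_add_sq]
  refine integral_congr_ae (Eventually.of_forall fun x => ?_)
  unfold w1
  exact one_div _

/-- the transform of the majorant -/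
lemma FF_Mw : ∃ c : ℝ, 0 ≤ c ∧ ∀ w : ℝ, 0 < w → w ≤ 1 → ∀ ξ : ℝ,
    ‖FF (Mw w) ξ‖ ≤ Pool.Agent.H203.ME.BMBL.bp c w ξ := by
  obtain ⟨B, hB, h1, h2⟩ := b_bd
  refine ⟨Real.pi + (6 + 3 * B) * Real.pi, by positivity, fun w hw hw1 ξ => ?_⟩
  rw [Mw_eq hw]
  refine Pool.Agent.H203.ME.BMBL.FF_bp (f_cd w) (f_cs hw) (add_le_add ?_ ?_) hw ξ
  · rw [← w1_integral]
    refine integral_mono_of_nonneg (Eventually.of_forall fun x => abs_nonneg _) w1_int
      (Eventually.of_forall fun x => ?_)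
    show |f w x| ≤ w1 x
    unfold f
    rw [abs_mul, abs_of_pos (w1_pos x)]
    exact mul_le_of_le_one_right (w1_pos x).le (b_abs _)
  · rw [← w1_integral, ← integral_const_mul]
    exact integral_mono_of_nonneg (Eventually.of_forall fun x => abs_nonneg _)
      (w1_int.const_mul _) (Eventually.of_forall fun x => f_dd_le hB h1 h2 hw hw1 x)

end ZML

open ZML Pool.Agent.H203.ME.BMBL Pool.Agent.H203.GE.BMGL in
theorem t_ZM (_hB : Pool.Agent.H203.GE.S_BBI) : S_ZM := by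
  intro m
  obtain ⟨C3, hC3, hnp⟩ := Pool.Agent.H203.GE.BMGL.nonprimes
  obtain ⟨c, hc0, hcF⟩ := FF_Mw
  set D : ℝ := 2 * Pool.Agent.H203.ME.PRML.Z1 + (C3 + 23 * c) with hD
  have hD0 : 0 ≤ D := by
    have := Pool.Agent.H203.ME.PRML.Z1_nonneg
    positivity
  set B : ℝ := (m.factorial : ℝ) * (1 + m ^ 2) * (1 + 23 * c ^ 2) ^ m with hB
  have hB0 : 0 ≤ B := by positivity
  refine ⟨2 ^ (2 * m) * (B + 2 + D ^ (2 * m)), 16 + c, 10, by positivity, by linarith, le_rfl, ?_⟩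
  intro T hT u hu h R hh hhK hhR hRT
  have hT0 : 0 < T := by linarith
  have hK0 : 0 < 16 + c := by positivity
  have hKh : h * (16 + c) ≤ 1 := by
    rw [le_div_iff₀ hK0] at hhK
    exact hhK
  have h8 : h ≤ 1 / 8 := by nlinarith
  have hch : c * h ≤ 1 := by nlinarith
  have hR16 : 16 ≤ R := by
    by_contra hcon
    push Not at hcon
    nlinarith
  have hR0 : 0 < R := by linarith
  set F : ℝ → ℝ := Mw h with hF
  have hFb : ∀ ξ, ‖FF F ξ‖ ≤ bp c h ξ := fun ξ => hcF h hh (by linarith) ξ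
  have hF1 : ∀ ξ, ‖FF F ξ‖ ≤ 1 := fun ξ => (hFb ξ).trans ((bp_le hc0 hh ξ).trans hch)
  set M : ℕ := ⌊Real.exp (2 * R)⌋₊ with hM
  have hMle : (M : ℝ) ≤ Real.exp (2 * R) := Nat.floor_le (Real.exp_pos _).le
  have hM1 : 1 ≤ M := by
    rw [hM, Nat.one_le_floor_iff]
    exact Real.one_le_exp (by linarith)
  have hMX : ∀ n : ℕ, M < n → 2 * R ≤ Real.log n := by
    intro n hn
    have h1 : Real.exp (2 * R) < n := (Nat.floor_lt (Real.exp_pos _).le).1 hn
    rw [Real.le_log_iff_exp_le ((Real.exp_pos _).trans h1)]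
    exact h1.le
  have haa : ∀ p : ℕ, ‖ag u F R p‖ ≤ 1 := by
    intro p
    refine (ag_le hu F R p).trans ((aa_le hR0 p).trans ?_)
    have h1 : ArithmeticFunction.vonMangoldt p / Real.sqrt p ≤ 1 :=
      (div_le_div_of_nonneg_right ArithmeticFunction.vonMangoldt_le_log (Real.sqrt_nonneg _)).trans
        (Pool.Agent.H203.ME.log_div_sqrt_le p)
    calc _ ≤ 1 * 1 := mul_le_mul h1 (hF1 _) (norm_nonneg _) zero_le_one
      _ = 1 := one_mul _
  have hS := Pool.Agent.H203.GE.BMGL.primes hu hR0 hc0 hh h8 hFb M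
  have hmom := mom Pool.Agent.H203.ME.t_MOM m M (ag u F R) T hM1 (by linarith) haa (23 * c ^ 2) hS
  rw [← hB] at hmom
  have hM4 : (M : ℝ) ^ (4 * m) ≤ T := by
    calc (M : ℝ) ^ (4 * m) ≤ (Real.exp (2 * R)) ^ (4 * m) := pow_le_pow_left₀ (Nat.cast_nonneg _) hMle _
      _ = Real.exp ((4 * m : ℕ) * (2 * R)) := by rw [← Real.exp_nat_mul]
      _ ≤ Real.exp (Real.log T) := by
          apply Real.exp_le_exp.2
          push_cast
          rw [le_div_iff₀ (by positivity)] at hRT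
          have hm0 : (0 : ℝ) ≤ m := Nat.cast_nonneg m
          nlinarith
      _ = T := Real.exp_log hT0
  set P : ℝ → ℂ := fun t => ∑ p ∈ (Finset.Icc 1 M).filter Nat.Prime, ag u F R p * ee p t with hP
  have hPc : Continuous P := by
    rw [hP]
    unfold ee
    fun_prop
  have hpt : ∀ t : ℝ, (BG u F R t) ^ (2 * m) ≤ 2 ^ (2 * m) * (‖P t‖ ^ (2 * m) + D ^ (2 * m)) := by
    intro t
    obtain ⟨w, hw, he⟩ := Pool.Agent.H203.GE.BMGL.split hu hF1 hR16 M hMX t
    have h1 : ∑ n ∈ Finset.Icc 1 M, ag u F R n * ee n t = P t +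
        ∑ n ∈ (Finset.Icc 1 M).filter (fun n => ¬ n.Prime), ag u F R n * ee n t :=
      (Finset.sum_filter_add_sum_filter_not _ _ _).symm
    have h2 : ‖∑ n ∈ (Finset.Icc 1 M).filter (fun n => ¬ n.Prime), ag u F R n * ee n t‖ ≤ C3 + 23 * c := by
      refine (norm_sum_le _ _).trans
        (le_trans (le_of_eq ?_) (hnp u hu F c h R hR0 hc0 hh h8 hch hFb M))
      refine Finset.sum_congr rfl fun n _ => ?_
      rw [norm_mul, Pool.Agent.H203.ME.PRML.norm_ee, mul_one]
    have h3 : |BG u F R t| ≤ ‖P t‖ + D := by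
      rw [he, h1]
      refine (Complex.abs_re_le_norm _).trans ((norm_add_le _ _).trans ?_)
      have := norm_add_le (P t) (∑ n ∈ (Finset.Icc 1 M).filter (fun n => ¬ n.Prime), ag u F R n * ee n t)
      rw [hD]
      linarith
    calc (BG u F R t) ^ (2 * m) = |BG u F R t| ^ (2 * m) := by rw [pow_mul, pow_mul, sq_abs]
      _ ≤ (‖P t‖ + D) ^ (2 * m) := pow_le_pow_left₀ (abs_nonneg _) h3 _
      _ ≤ _ := add_pow_le' _ _ (norm_nonneg _) hD0 _
  by_cases hii : IntervalIntegrable (fun t => (BG u F R t) ^ (2 * m)) volume T (2 * T)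
  · have hPi : IntervalIntegrable (fun t => ‖P t‖ ^ (2 * m)) volume T (2 * T) :=
      (hPc.norm.pow _).intervalIntegrable _ _
    have h1 : ∫ t in T..(2 * T), (BG u F R t) ^ (2 * m) ≤
        ∫ t in T..(2 * T), 2 ^ (2 * m) * (‖P t‖ ^ (2 * m) + D ^ (2 * m)) := by
      apply intervalIntegral.integral_mono_on (by linarith) hii
      · exact ((hPi.add intervalIntegrable_const).const_mul _)
      · intro t _; exact hpt t
    rw [intervalIntegral.integral_const_mul, intervalIntegral.integral_add hPi intervalIntegrable_const,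
      intervalIntegral.integral_const, smul_eq_mul] at h1
    refine h1.trans ?_
    have h2 : (∫ t in T..(2 * T), ‖P t‖ ^ (2 * m)) + (2 * T - T) * D ^ (2 * m) ≤ (B + 2 + D ^ (2 * m)) * T := by
      have : ∫ t in T..(2 * T), ‖P t‖ ^ (2 * m) ≤ T * B + 2 * T := by linarith
      nlinarith
    calc _ ≤ 2 ^ (2 * m) * ((B + 2 + D ^ (2 * m)) * T) := mul_le_mul_of_nonneg_left h2 (by positivity)
      _ = _ := by ring
  · rw [intervalIntegral.integral_undef hii]
    positivity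

end Pool.Agent.H203.HX
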