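import Pool.Agent.H203.GE.ALLM
import Pool.Agent.H203.GE.LFX
import Pool.Agent.H203.HX.FIN2
import Pool.Agent.H203.HX.KS
import Pool.Agent.H203.HX.KM
import Pool.Agent.H203.HX.NB
import Pool.Agent.H203.HX.PB
import Pool.Agent.H203.HX.ER
import Pool.Agent.H203.HX.ZM
import Pool.Agent.H203.HX.ZE
import Pool.Agent.H203.HX.LC
import Pool.Agent.H203.HX.PH
import Pool.Agent.H203.HX.QI
import Pool.Agent.H203.HX.QC
import Pool.Agent.H203.HX.OS
import Pool.Agent.H203.HX.CB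
import Pool.Agent.H203.HX.G2
import Pool.Agent.H203.HX.FI
import Pool.Agent.H203.HX.EP
import Pool.Agent.H203.HX.SM
import Pool.Agent.H203.HX.HP
import Pool.Agent.H203.HX.MP
import Pool.Agent.H203.HX.RS

set_option autoImplicit false

/-! The leaves of project HX put together. -/

open Complex Filter Topology Set MeasureTheory

namespace Pool.Agent.H203.HX

open Pool.Agent.H203.GE (Lf)

theorem p_NB : S_NB := t_NB t_KM GE.p_PTH GE.t_NCG
theorem p_ER : S_ER := t_ER t_KS GE.p_PTH GE.t_NCG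
theorem p_ZM : S_ZM := t_ZM GE.t_BBI
theorem p_ZE : S_ZE := t_ZE p_NB t_PB p_ER p_ZM
theorem p_QI : S_QI := t_QI t_PH
theorem p_CB : S_CB := t_CB t_OS
theorem p_FI : S_FI := t_FI t_G2
theorem p_EP : S_EP := t_EP p_FI t_QC p_CB
theorem p_SM : S_SM := t_SM p_EP p_CB
theorem p_HP : S_HP := t_HP p_SM
theorem p_RS : S_RS := t_RS t_MP t_PH p_CB

theorem main (G : ℂ → ℂ) (u : ℕ → ℂ) (hG : Lf G u)
    (hu : Um u) (h : ℝ → ℝ) (hh : ∀ᶠ T in atTop, 0 < h T ∧ h T ≤ 1) (hL : Tendsto (fun T => h T * Real.log T) atTop atTop)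
    (ε : ℝ) (hε : 0 < ε) (σ : ℝ) (hσ : σ = 1 ∨ σ = -1) :
    Tendsto (fun T : ℝ => volume (Bd G σ T (h T) ((2 / Real.pi - ε) * Real.log (h T * Real.log T))) / ENNReal.ofReal T)
      atTop (𝓝 0) :=
  fin p_ZE t_LC p_QI p_HP p_RS G u hG hu h hh hL ε hε σ hσ

/-- the Dirichlet characters -/
theorem um_char (q : ℕ) [NeZero q] (χ : DirichletCharacter ℂ q) : Um (fun n : ℕ => χ n) := by
  refine ⟨q + 1, fun p hp hpq => ?_⟩
  have hc : p.Coprime q := by
    rw [Nat.Prime.coprime_iff_not_dvd hp]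
    intro hd
    have := Nat.le_of_dvd (NeZero.pos q) hd
    omega
  have hu : IsUnit ((p : ℕ) : ZMod q) := (ZMod.isUnit_iff_coprime p q).2 hc
  exact DirichletCharacter.unit_norm_eq_one χ hu.unit

end Pool.Agent.H203.HX
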