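import Pool.Agent.H203.HX.Defs2
import Pool.Agent.H203.GE.MRT

set_option autoImplicit false

/-! Project HX2, part CBU: linear combinations of distinct primitive characters. -/

open Complex Filter Topology Set MeasureTheory

namespace Pool.Agent.H203.HX

open Pool.Agent.H203.ME (ee)
open Pool.Agent.H203.GE.MRTL (conj_apply prim_eq psi_apply)

namespace CBUL

theorem mem_PB {lo hi : ℝ} {p : ℕ} (h : p ∈ PB lo hi) : 1 ≤ p ∧ p.Prime ∧ lo < Real.log p := by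
  classical
  unfold PB at h
  rw [Finset.mem_filter, Finset.mem_Icc] at h
  exact ⟨h.1.1, h.2.1, h.2.2⟩

theorem cos_ee (p : ℕ) (τ : ℝ) :
    ((Real.cos (τ * Real.log p) : ℝ) : ℂ) = (ee p τ + ee p (-τ)) / 2 := by
  unfold ee
  rw [Complex.ofReal_cos, Complex.cos, add_comm]
  congr 3
  · ring
  · push_cast
    ring

theorem wt_norm (p : ℕ) (τ : ℝ) (hp : 1 ≤ p) :
    ‖((Real.cos (τ * Real.log p) / p : ℝ) : ℂ)‖ ≤ 1 := by
  have hp' : (1 : ℝ) ≤ p := by exact_mod_cast hp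
  rw [Complex.norm_real, Real.norm_eq_abs, abs_div, abs_of_nonneg (by linarith : (0 : ℝ) ≤ p)]
  rw [div_le_one (by linarith)]
  exact (Real.abs_cos_le_one _).trans hp'

/-- two different primitive characters -/
theorem pair (hO : S_ORT) {q₁ q₂ : ℕ} [NeZero q₁] [NeZero q₂] (χ₁ : DirichletCharacter ℂ q₁)
    (χ₂ : DirichletCharacter ℂ q₂) (h₁ : χ₁.IsPrimitive) (h₂ : χ₂.IsPrimitive)
    (hne : ∃ n : ℕ, χ₁ n ≠ χ₂ n) :
    ∃ C : ℝ, 0 < C ∧ ∀ lo hi : ℝ, 1 ≤ lo → lo ≤ hi → ∀ τ : ℝ, |τ| ≤ 1 →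
      ‖∑ p ∈ PB lo hi, (χ₁ p * (starRingEnd ℂ) (χ₂ p)) *
        ((Real.cos (τ * Real.log p) / p : ℝ) : ℂ)‖ ≤ C / lo := by
  haveI hQ : NeZero (q₁ * q₂) := ⟨mul_ne_zero (NeZero.ne q₁) (NeZero.ne q₂)⟩
  obtain ⟨ψ, hψ⟩ : ∃ ψ : DirichletCharacter ℂ (q₁ * q₂),
    ψ = DirichletCharacter.changeLevel (Nat.dvd_mul_right q₁ q₂) χ₁ *
      (DirichletCharacter.changeLevel (Nat.dvd_mul_left q₂ q₁) χ₂)⁻¹ := ⟨_, rfl⟩
  have hψ1 : ψ ≠ 1 := by
    intro h1
    rw [hψ] at h1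
    have h2 := prim_eq χ₁ χ₂ h₁ h₂ (mul_inv_eq_one.1 h1)
    obtain ⟨n, hn⟩ := hne
    exact hn (congrFun h2 n)
  obtain ⟨C, hC, hb⟩ := hO (q₁ * q₂) ψ hψ1
  refine ⟨C, hC, fun lo hi hlo hhi τ hτ => ?_⟩
  have e1 : ∑ p ∈ PB lo hi, (χ₁ p * (starRingEnd ℂ) (χ₂ p)) *
        ((Real.cos (τ * Real.log p) / p : ℝ) : ℂ) =
      1 / 2 * (∑ p ∈ PB lo hi, ψ p * ee p τ / p + ∑ p ∈ PB lo hi, ψ p * ee p (-τ) / p) := by
    rw [← Finset.sum_add_distrib, Finset.mul_sum]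
    refine Finset.sum_congr rfl fun p _ => ?_
    rw [Complex.ofReal_div, cos_ee, psi_apply χ₁ χ₂ p, ← hψ, Complex.ofReal_natCast]
    ring
  have h1 := hb lo hi hlo hhi τ hτ
  have h2 := hb lo hi hlo hhi (-τ) (by rwa [abs_neg])
  rw [e1, norm_mul]
  have h3 : ‖(1 / 2 : ℂ)‖ = 1 / 2 := by norm_num
  rw [h3]
  have h4 := norm_add_le (∑ p ∈ PB lo hi, ψ p * ee p τ / p) (∑ p ∈ PB lo hi, ψ p * ee p (-τ) / p)
  linarith

/-- the diagonal -/
theorem diag {q : ℕ} [NeZero q] (χ : DirichletCharacter ℂ q) :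
    ∃ C : ℝ, 0 < C ∧ ∀ lo hi : ℝ, 1 ≤ lo → lo ≤ hi → ∀ τ : ℝ, |τ| ≤ 1 →
      ‖∑ p ∈ PB lo hi, (χ p * (starRingEnd ℂ) (χ p) - 1) *
        ((Real.cos (τ * Real.log p) / p : ℝ) : ℂ)‖ ≤ C / lo := by
  have hq : 0 < q := Nat.pos_of_ne_zero (NeZero.ne q)
  have hq' : (0 : ℝ) < q := by exact_mod_cast hq
  refine ⟨(q : ℝ) * q, by positivity, fun lo hi hlo hhi τ _ => ?_⟩
  have hlo0 : 0 < lo := by linarith
  have hterm : ∀ p ∈ PB lo hi, ‖(χ p * (starRingEnd ℂ) (χ p) - 1) *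
      ((Real.cos (τ * Real.log p) / p : ℝ) : ℂ)‖ ≤ if p ∣ q then (q : ℝ) / lo else 0 := by
    intro p hp
    obtain ⟨hp1, hpp, hpl⟩ := mem_PB hp
    split_ifs with hd
    · have hnu : ¬ IsUnit ((p : ℕ) : ZMod q) := by
        rw [ZMod.isUnit_iff_coprime]
        intro hc
        exact hpp.one_lt.ne' (Nat.eq_one_of_dvd_coprimes hc dvd_rfl hd)
      rw [MulChar.map_nonunit _ hnu, zero_mul, zero_sub, neg_one_mul, norm_neg]
      refine (wt_norm p τ hp1).trans ?_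
      rw [one_le_div hlo0]
      have h1 : Real.log p ≤ p := by
        have := Real.log_le_sub_one_of_pos (show (0 : ℝ) < p by exact_mod_cast hp1)
        linarith
      have h2 : (p : ℝ) ≤ q := by exact_mod_cast Nat.le_of_dvd hq hd
      linarith
    · have hu : IsUnit ((p : ℕ) : ZMod q) := by
        rw [ZMod.isUnit_iff_coprime]
        exact (Nat.Prime.coprime_iff_not_dvd hpp).2 hd
      have h1 : χ (p : ZMod q) * (starRingEnd ℂ) (χ (p : ZMod q)) = 1 := by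
        rw [conj_apply, ← MulChar.mul_apply, mul_inv_cancel, MulChar.one_apply hu]
      rw [h1, sub_self, zero_mul, norm_zero]
  calc ‖∑ p ∈ PB lo hi, (χ p * (starRingEnd ℂ) (χ p) - 1) *
        ((Real.cos (τ * Real.log p) / p : ℝ) : ℂ)‖
      ≤ ∑ p ∈ PB lo hi, ‖(χ p * (starRingEnd ℂ) (χ p) - 1) *
        ((Real.cos (τ * Real.log p) / p : ℝ) : ℂ)‖ := norm_sum_le _ _
    _ ≤ ∑ p ∈ PB lo hi, (if p ∣ q then (q : ℝ) / lo else 0) := Finset.sum_le_sum hterm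
    _ = ∑ p ∈ (PB lo hi).filter (fun p => p ∣ q), (q : ℝ) / lo := by rw [Finset.sum_filter]
    _ ≤ (q : ℝ) * ((q : ℝ) / lo) := by
        rw [Finset.sum_const, nsmul_eq_mul]
        refine mul_le_mul_of_nonneg_right ?_ (by positivity)
        have h1 : (PB lo hi).filter (fun p => p ∣ q) ⊆ Finset.Icc 1 q := by
          intro p hp
          rw [Finset.mem_filter] at hp
          rw [Finset.mem_Icc]
          exact ⟨(mem_PB hp.1).1, Nat.le_of_dvd hq hp.2⟩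
        have h2 := Finset.card_le_card h1
        rw [Nat.card_Icc] at h2
        exact_mod_cast (by omega : ((PB lo hi).filter (fun p => p ∣ q)).card ≤ q)
    _ = (q : ℝ) * q / lo := by ring

/-- the two cases together -/
theorem both (hO : S_ORT) {k : ℕ} {q : Fin k → ℕ} (hq : ∀ j, NeZero (q j))
    (χ : (j : Fin k) → DirichletCharacter ℂ (q j)) (hp : ∀ j, (χ j).IsPrimitive)
    (hne : ∀ i j, i ≠ j → ∃ n : ℕ, χ i n ≠ χ j n) (i j : Fin k) :
    ∃ C : ℝ, 0 < C ∧ ∀ lo hi : ℝ, 1 ≤ lo → lo ≤ hi → ∀ τ : ℝ, |τ| ≤ 1 →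
      ‖∑ p ∈ PB lo hi, (χ i p * (starRingEnd ℂ) (χ j p) - if i = j then 1 else 0) *
        ((Real.cos (τ * Real.log p) / p : ℝ) : ℂ)‖ ≤ C / lo := by
  haveI := hq i
  haveI := hq j
  by_cases hij : i = j
  · subst hij
    simp only [if_true]
    exact diag (χ i)
  · simp only [if_neg hij, sub_zero]
    exact pair hO (χ i) (χ j) (hp i) (hp j) (hne i j hij)

theorem sq_expand {k : ℕ} (c : Fin k → ℝ) (hc : ∑ j, (c j) ^ 2 = 1) (z : Fin k → ℂ) :
    (((‖∑ j, (c j : ℂ) * z j‖ ^ 2 : ℝ) : ℂ)) - 1 =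
      ∑ i, ∑ j, ((c i * c j : ℝ) : ℂ) * (z i * (starRingEnd ℂ) (z j) - if i = j then 1 else 0) := by
  have h1 : ((‖∑ j, (c j : ℂ) * z j‖ ^ 2 : ℝ) : ℂ) =
      (∑ i, (c i : ℂ) * z i) * (starRingEnd ℂ) (∑ j, (c j : ℂ) * z j) := by
    rw [Complex.mul_conj']
    push_cast
    rfl
  have h2 : (∑ i, ∑ j, ((c i * c j : ℝ) : ℂ) * (if i = j then 1 else 0)) = 1 := by
    have h3 : ∀ i, (∑ j, ((c i * c j : ℝ) : ℂ) * (if i = j then 1 else 0)) = (((c i) ^ 2 : ℝ) : ℂ) := by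
      intro i
      rw [Finset.sum_eq_single i]
      · rw [if_pos rfl, mul_one]
        push_cast
        ring
      · intro j _ hj
        rw [if_neg (fun h => hj h.symm), mul_zero]
      · intro h
        exact absurd (Finset.mem_univ _) h
    rw [Finset.sum_congr rfl fun i _ => h3 i, ← Complex.ofReal_sum, hc, Complex.ofReal_one]
  have h4 : (∑ i, ∑ j, ((c i * c j : ℝ) : ℂ) *
      (z i * (starRingEnd ℂ) (z j) - if i = j then 1 else 0)) =
      (∑ i, ∑ j, ((c i * c j : ℝ) : ℂ) * (z i * (starRingEnd ℂ) (z j))) -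
        ∑ i, ∑ j, ((c i * c j : ℝ) : ℂ) * (if i = j then 1 else 0) := by
    rw [← Finset.sum_sub_distrib]
    refine Finset.sum_congr rfl fun i _ => ?_
    rw [← Finset.sum_sub_distrib]
    refine Finset.sum_congr rfl fun j _ => ?_
    rw [mul_sub]
  rw [h4, h2, h1, map_sum, Finset.sum_mul_sum]
  congr 1
  refine Finset.sum_congr rfl fun i _ => ?_
  refine Finset.sum_congr rfl fun j _ => ?_
  rw [map_mul, Complex.conj_ofReal]
  push_cast
  ring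

/-- the comparison with the coefficients `1` -/
theorem main (hO : S_ORT) {k : ℕ} {q : Fin k → ℕ} (hq : ∀ j, NeZero (q j))
    (χ : (j : Fin k) → DirichletCharacter ℂ (q j)) (hp : ∀ j, (χ j).IsPrimitive)
    (hne : ∀ i j, i ≠ j → ∃ n : ℕ, χ i n ≠ χ j n) (c : Fin k → ℝ) (hc : ∑ j, (c j) ^ 2 = 1) :
    ∃ C : ℝ, 0 < C ∧ ∀ lo hi : ℝ, 1 ≤ lo → lo ≤ hi → ∀ τ : ℝ, |τ| ≤ 1 →
      |∑ p ∈ PB lo hi, ‖∑ j, (c j : ℂ) * χ j p‖ ^ 2 * Real.cos (τ * Real.log p) / p -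
        ∑ p ∈ PB lo hi, Real.cos (τ * Real.log p) / p| ≤ C / lo := by
  choose D hD hb using both hO hq χ hp hne
  have hS : 0 ≤ ∑ i, ∑ j, |c i * c j| * D i j :=
    Finset.sum_nonneg fun i _ => Finset.sum_nonneg fun j _ =>
      mul_nonneg (abs_nonneg _) (hD i j).le
  refine ⟨1 + ∑ i, ∑ j, |c i * c j| * D i j, by linarith, fun lo hi hlo hhi τ hτ => ?_⟩
  have hlo0 : 0 < lo := by linarith
  have e1 : ((∑ p ∈ PB lo hi, ‖∑ j, (c j : ℂ) * χ j p‖ ^ 2 * Real.cos (τ * Real.log p) / p -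
        ∑ p ∈ PB lo hi, Real.cos (τ * Real.log p) / p : ℝ) : ℂ) =
      ∑ i, ∑ j, ((c i * c j : ℝ) : ℂ) * ∑ p ∈ PB lo hi,
        (χ i p * (starRingEnd ℂ) (χ j p) - if i = j then 1 else 0) *
        ((Real.cos (τ * Real.log p) / p : ℝ) : ℂ) := by
    have e2 : (∑ i, ∑ j, ((c i * c j : ℝ) : ℂ) * ∑ p ∈ PB lo hi,
        (χ i p * (starRingEnd ℂ) (χ j p) - if i = j then 1 else 0) *
        ((Real.cos (τ * Real.log p) / p : ℝ) : ℂ)) =
        ∑ p ∈ PB lo hi, (∑ i, ∑ j, ((c i * c j : ℝ) : ℂ) *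
          (χ i p * (starRingEnd ℂ) (χ j p) - if i = j then 1 else 0)) *
          ((Real.cos (τ * Real.log p) / p : ℝ) : ℂ) := by
      simp only [Finset.mul_sum, Finset.sum_mul]
      rw [Finset.sum_congr rfl fun i _ => Finset.sum_comm]
      rw [Finset.sum_comm]
      refine Finset.sum_congr rfl fun p _ => ?_
      refine Finset.sum_congr rfl fun i _ => ?_
      refine Finset.sum_congr rfl fun j _ => ?_
      ring
    rw [e2, ← Finset.sum_sub_distrib, Complex.ofReal_sum]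
    refine Finset.sum_congr rfl fun p _ => ?_
    rw [← sq_expand c hc]
    push_cast
    ring
  have h1 : |∑ p ∈ PB lo hi, ‖∑ j, (c j : ℂ) * χ j p‖ ^ 2 * Real.cos (τ * Real.log p) / p -
        ∑ p ∈ PB lo hi, Real.cos (τ * Real.log p) / p| =
      ‖((∑ p ∈ PB lo hi, ‖∑ j, (c j : ℂ) * χ j p‖ ^ 2 * Real.cos (τ * Real.log p) / p -
        ∑ p ∈ PB lo hi, Real.cos (τ * Real.log p) / p : ℝ) : ℂ)‖ := by
    rw [Complex.norm_real, Real.norm_eq_abs]
  rw [h1, e1]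
  have hone : 0 ≤ 1 / lo := by positivity
  calc ‖∑ i, ∑ j, ((c i * c j : ℝ) : ℂ) * ∑ p ∈ PB lo hi,
        (χ i p * (starRingEnd ℂ) (χ j p) - if i = j then 1 else 0) *
        ((Real.cos (τ * Real.log p) / p : ℝ) : ℂ)‖
      ≤ ∑ i, ∑ j, |c i * c j| * (D i j / lo) := by
        refine (norm_sum_le _ _).trans (Finset.sum_le_sum fun i _ => ?_)
        refine (norm_sum_le _ _).trans (Finset.sum_le_sum fun j _ => ?_)
        rw [norm_mul, Complex.norm_real, Real.norm_eq_abs]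
        exact mul_le_mul_of_nonneg_left (hb i j lo hi hlo hhi τ hτ) (abs_nonneg _)
    _ = (∑ i, ∑ j, |c i * c j| * D i j) / lo := by
        rw [Finset.sum_div]
        refine Finset.sum_congr rfl fun i _ => ?_
        rw [Finset.sum_div]
        refine Finset.sum_congr rfl fun j _ => ?_
        ring
    _ ≤ (1 + ∑ i, ∑ j, |c i * c j| * D i j) / lo := by
        rw [add_div]
        linarith

end CBUL

open CBUL in
theorem t_CBU (hC : S_CB) (hO : S_ORT) : S_CBU := by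
  intro k q hq χ hp hne c hc
  obtain ⟨C1, hC1, h1⟩ := hC
  obtain ⟨C2, hC2, h2⟩ := main hO hq χ hp hne c hc
  refine ⟨C1 + C2, by linarith, fun lo hi hlo hhi => ⟨?_, fun τ hτ0 hτ1 => ?_⟩⟩
  · have h3 := (h1 lo hi hlo hhi).1
    have h4 := h2 lo hi hlo hhi 0 (by rw [abs_zero]; exact zero_le_one)
    simp only [zero_mul, Real.cos_zero, mul_one] at h4
    rw [add_div]
    have h5 := abs_sub_le (∑ p ∈ PB lo hi, ‖∑ j, (c j : ℂ) * χ j p‖ ^ 2 / (p : ℝ))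
      (∑ p ∈ PB lo hi, 1 / (p : ℝ)) (Real.log (hi / lo))
    linarith
  · have hlo0 : 0 < lo := by linarith
    have h3 := (h1 lo hi hlo hhi).2 τ hτ0 hτ1
    have h4 := h2 lo hi hlo hhi τ (by rw [abs_of_pos hτ0]; exact hτ1)
    have h5 : C2 / lo ≤ C2 / (τ * lo) := by
      apply div_le_div_of_nonneg_left hC2.le (by positivity)
      calc τ * lo ≤ 1 * lo := mul_le_mul_of_nonneg_right hτ1 hlo0.le
        _ = lo := one_mul lo
    have h6 := abs_sub_abs_le_abs_sub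
      (∑ p ∈ PB lo hi, ‖∑ j, (c j : ℂ) * χ j p‖ ^ 2 * Real.cos (τ * Real.log p) / p)
      (∑ p ∈ PB lo hi, Real.cos (τ * Real.log p) / p)
    rw [add_div]
    linarith

end Pool.Agent.H203.HX
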