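import Pool.Agent.H203.HX.Defs2
import Pool.Agent.H203.HX.EP

set_option autoImplicit false

/-! (EPU): the expectations of the products of the weights, general coefficients. -/

open Complex Filter Topology Set MeasureTheory

namespace Pool.Agent.H203.HX

open Pool.Agent.H203.ME (ee)

namespace EPUL

open EPL

theorem norm_sq (u : ℕ → ℂ) (v1 v2 x z : ℝ) (p : ℕ) : ‖bb u v1 v2 x z p‖ ^ 2 =
    1 / Real.pi ^ 2 * ‖u p‖ ^ 2 * ((v1 ^ 2 + v2 ^ 2 + 2 * v1 * v2 * Real.cos ((x - z) * Real.log p)) / p) := by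
  rw [norm_bb, div_pow, mul_pow, mul_pow, norm_comb, Real.sq_sqrt (Nat.cast_nonneg p)]
  ring

theorem norm_le (u : ℕ → ℂ) (B v1 v2 x z U : ℝ) (p : ℕ) (hp : 1 ≤ p) (hB : 0 ≤ B) (hu : ‖u p‖ ≤ B) (h1 : |v1| ≤ U) (h2 : |v2| ≤ U) :
    ‖bb u v1 v2 x z p‖ ≤ B * U * Real.exp (-(Real.log p / 2)) := by
  have hU : 0 ≤ U := le_trans (abs_nonneg _) h1
  have hp0 : (0 : ℝ) < p := by exact_mod_cast hp
  rw [norm_bb]
  have e : Real.sqrt p = Real.exp (Real.log p / 2) := by
    rw [Real.exp_half, Real.exp_log hp0]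
  rw [e, div_eq_mul_inv, ← Real.exp_neg]
  refine mul_le_mul_of_nonneg_right ?_ (Real.exp_pos _).le
  have h3 := norm_comb_le p v1 v2 x z U h1 h2
  have h4 : 1 / Real.pi ≤ 1 / 2 := by
    apply one_div_le_one_div_of_le (by norm_num)
    linarith [Real.pi_gt_three]
  calc 1 / Real.pi * ‖u p‖ * ‖(v1 : ℂ) * ee p x + (v2 : ℂ) * ee p z‖
      ≤ 1 / 2 * B * (2 * U) := by
        refine mul_le_mul (mul_le_mul h4 hu (norm_nonneg _) (by norm_num)) h3 (norm_nonneg _) (by positivity)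
    _ = B * U := by ring

theorem sq_le (u : ℕ → ℂ) (v1 v2 x z U : ℝ) (p : ℕ) (h1 : |v1| ≤ U) (h2 : |v2| ≤ U) :
    ‖bb u v1 v2 x z p‖ ^ 2 ≤ U ^ 2 * (‖u p‖ ^ 2 / (p : ℝ)) := by
  have hU : 0 ≤ U := le_trans (abs_nonneg _) h1
  rw [norm_bb, div_pow, Real.sq_sqrt (Nat.cast_nonneg p), ← mul_div_assoc]
  refine div_le_div_of_nonneg_right ?_ (Nat.cast_nonneg p)
  have h3 := norm_comb_le p v1 v2 x z U h1 h2
  have h4 : 1 / Real.pi ≤ 1 / 2 := by
    apply one_div_le_one_div_of_le (by norm_num)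
    linarith [Real.pi_gt_three]
  rw [← mul_pow]
  refine pow_le_pow_left₀ (by positivity) ?_ 2
  calc 1 / Real.pi * ‖u p‖ * ‖(v1 : ℂ) * ee p x + (v2 : ℂ) * ee p z‖
      ≤ 1 / 2 * ‖u p‖ * (2 * U) := by
        refine mul_le_mul (mul_le_mul h4 le_rfl (norm_nonneg _) (by norm_num)) h3 (norm_nonneg _) (by positivity)
    _ = U * ‖u p‖ := by ring

theorem V_eq (u : ℕ → ℂ) (lo hi v1 v2 x z : ℝ) :
    ∑ p ∈ PB lo hi, ‖bb u v1 v2 x z p‖ ^ 2 =
      2 * (Vu u lo hi 0 * v1 ^ 2 + Vu u lo hi 0 * v2 ^ 2 + 2 * Vu u lo hi (x - z) * v1 * v2) := by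
  rw [Finset.sum_congr rfl fun p _ => norm_sq u v1 v2 x z p]
  unfold Vu
  simp only [zero_mul, Real.cos_zero, mul_one]
  have e : ∀ p : ℕ, 1 / Real.pi ^ 2 * ‖u p‖ ^ 2 * ((v1 ^ 2 + v2 ^ 2 + 2 * v1 * v2 * Real.cos ((x - z) * Real.log p)) / p) =
      1 / Real.pi ^ 2 * (v1 ^ 2 + v2 ^ 2) * (‖u p‖ ^ 2 / (p : ℝ)) +
        1 / Real.pi ^ 2 * (2 * v1 * v2) * (‖u p‖ ^ 2 * Real.cos ((x - z) * Real.log p) / p) := by
    intro p
    ring
  rw [Finset.sum_congr rfl fun p _ => e p, Finset.sum_add_distrib, ← Finset.mul_sum, ← Finset.mul_sum]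
  ring

theorem Vu_le (u : ℕ → ℂ) (lo hi τ : ℝ) : |Vu u lo hi τ| ≤ Vu u lo hi 0 := by
  unfold Vu
  rw [abs_mul, abs_of_nonneg (by positivity : (0 : ℝ) ≤ 1 / (2 * Real.pi ^ 2))]
  refine mul_le_mul_of_nonneg_left ?_ (by positivity)
  refine le_trans (Finset.abs_sum_le_sum_abs _ _) ?_
  refine Finset.sum_le_sum fun p _ => ?_
  rw [abs_div, zero_mul, Real.cos_zero, abs_of_nonneg (Nat.cast_nonneg p : (0 : ℝ) ≤ (p : ℝ)), abs_mul,
    abs_of_nonneg (by positivity : (0 : ℝ) ≤ ‖u p‖ ^ 2)]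
  exact div_le_div_of_nonneg_right (mul_le_mul_of_nonneg_left (Real.abs_cos_le_one _) (by positivity)) (Nat.cast_nonneg p)

/-- the largeness conditions -/
theorem large (A δ C B : ℝ) (K : ℕ) (hA : 0 < A) (hδ : 0 < δ) (L1 : ℝ) : ∃ L0 : ℝ, 3 ≤ L0 ∧ ∀ L : ℝ, L0 ≤ L →
    L1 ≤ L ∧ 1 ≤ Real.log L ∧ B * Real.log L * Real.exp (-(L ^ δ)) ≤ Real.exp (-(L ^ δ / 4)) ∧
    K * C ≤ Real.log L ∧ 2 ≤ Real.log L ∧ L ^ (-(A + 4)) + 8 * K * Real.exp (-((Real.log L) ^ 2 / 4)) ≤ L ^ (-A) := by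
  obtain ⟨L0, hL0, hl⟩ := EPL.large A δ C K 0 hA hδ L1
  have hB1 : 0 < max B 1 := lt_of_lt_of_le one_pos (le_max_right _ _)
  have t4 := (isLittleO_log_rpow_atTop hδ).bound (show (0 : ℝ) < 3 / (4 * max B 1) by positivity)
  obtain ⟨L2, hL2⟩ := Filter.eventually_atTop.mp t4
  refine ⟨max L0 L2, le_trans hL0 (le_max_left _ _), ?_⟩
  intro L hL
  obtain ⟨g1, g2, -, -, g5, g6, g7⟩ := hl L (le_trans (le_max_left _ _) hL)
  have g8 := hL2 L (le_trans (le_max_right _ _) hL)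
  have hL3 : 3 ≤ L := le_trans hL0 (le_trans (le_max_left _ _) hL)
  have hLpos : 0 < L := by linarith
  refine ⟨g1, g2, ?_, g5, g6, g7⟩
  have hp : 0 < L ^ δ := Real.rpow_pos_of_pos hLpos _
  rw [Real.norm_of_nonneg (by linarith), Real.norm_of_nonneg hp.le] at g8
  have e : Real.exp (-(L ^ δ / 4)) = Real.exp (3 / 4 * L ^ δ) * Real.exp (-(L ^ δ)) := by
    rw [← Real.exp_add]
    congr 1
    ring
  rw [e]
  refine mul_le_mul_of_nonneg_right ?_ (Real.exp_pos _).le
  have h1 := Real.add_one_le_exp (3 / 4 * L ^ δ)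
  have h2 : B * Real.log L ≤ max B 1 * Real.log L := mul_le_mul_of_nonneg_right (le_max_left _ _) (by linarith)
  have h3 : max B 1 * Real.log L ≤ max B 1 * (3 / (4 * max B 1) * L ^ δ) := mul_le_mul_of_nonneg_left g8 hB1.le
  have h4 : max B 1 * (3 / (4 * max B 1) * L ^ δ) = 3 / 4 * L ^ δ := by
    field_simp
  linarith

end EPUL

open EPL in
theorem t_EPU (hF : S_FI) (hQ : S_QC) : S_EPU := by
  intro u B hu hC K A δ hK hA hδ hδ8
  obtain ⟨C, hCpos, hCB⟩ := hC
  have hB : 0 ≤ B := le_trans (norm_nonneg _) (hu 0)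
  obtain ⟨L1, hL1, hQC⟩ := hQ (A + 4) δ (by linarith) hδ (by linarith)
  obtain ⟨L0, hL0, hlarge⟩ := EPUL.large A δ C B K hA hδ L1
  refine ⟨L0, hL0, ?_⟩
  intro T h L κ a hT hh hh2 hLdef hL hκ ha x z c hc
  obtain ⟨g1, g2, g4, g5, g6, g7⟩ := hlarge L hL
  have hL3 : 3 ≤ L := le_trans hL0 hL
  have hLpos : 0 < L := by linarith
  have hT0 : 0 < T := by linarith
  have hlT : 0 < Real.log T := Real.log_pos hT
  have hKr : (0 : ℝ) < K := by exact_mod_cast hK
  have hκ0 : 0 < κ := by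
    rw [hκ]
    apply div_pos (by linarith) hKr
  have hinv : 2 ≤ h⁻¹ := by
    rw [le_inv_comm₀ (by norm_num) hh]
    linarith
  have hLδ : 1 ≤ L ^ δ := Real.one_le_rpow (by linarith) hδ.le
  -- the boundaries
  have hmono : ∀ i j : ℕ, i ≤ j → eb h L δ κ i ≤ eb h L δ κ j := by
    intro i j hij
    unfold eb
    refine mul_le_mul_of_nonneg_left ?_ (by positivity)
    refine Real.rpow_le_rpow_of_exponent_le (by linarith) ?_
    have : (i : ℝ) ≤ j := by exact_mod_cast hij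
    nlinarith
  have hlow : ∀ j : ℕ, 2 * L ^ δ ≤ eb h L δ κ j := by
    intro j
    refine le_trans ?_ (hmono 0 j (Nat.zero_le j))
    unfold eb
    rw [Nat.cast_zero, zero_mul, add_zero]
    exact mul_le_mul_of_nonneg_right hinv (by linarith)
  have hsub : ∀ j : Fin K, PB (eb h L δ κ j) (eb h L δ κ (j + 1)) ⊆
      (Finset.Icc 1 ⌊Real.exp (eb h L δ κ K)⌋₊).filter Nat.Prime := by
    intro j
    exact PB_sub _ _ _ (hmono _ _ j.isLt)
  have hdisj : ∀ p, ∀ i j : Fin K, i ≠ j → p ∈ PB (eb h L δ κ i) (eb h L δ κ (i + 1)) →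
      p ∉ PB (eb h L δ κ j) (eb h L δ κ (j + 1)) := by
    intro p i j hij hi hj
    obtain ⟨-, -, a1, a2⟩ := mem_PB hi
    obtain ⟨-, -, b1, b2⟩ := mem_PB hj
    rcases lt_or_gt_of_ne hij with hlt | hlt
    · have h1 : (i : ℕ) + 1 ≤ (j : ℕ) := hlt
      have h2 := hmono _ _ h1
      linarith
    · have h1 : (j : ℕ) + 1 ≤ (i : ℕ) := hlt
      have h2 := hmono _ _ h1
      linarith
  have := PP_prob T hT0
  have hFI := hF ℝ (PP T) K (fun j t => Yb u (eb h L δ κ j) (eb h L δ κ (j + 1)) (t + x))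
    (fun j t => Yb u (eb h L δ κ j) (eb h L δ κ (j + 1)) (t + z j)) c
    (fun j => Vu u (eb h L δ κ j) (eb h L δ κ (j + 1)) 0) (fun j => Vu u (eb h L δ κ j) (eb h L δ κ (j + 1)) (x - z j)) a
    (L ^ (-(A + 4))) (Real.log L)
    (fun j => ((Yb_cont u _ _).comp (continuous_id.add continuous_const)).measurable)
    (fun j => ((Yb_cont u _ _).comp (continuous_id.add continuous_const)).measurable)
    (fun j => by rcases hc j with h1 | h1 <;> rw [h1] <;> norm_num)
    (fun j => by rcases hc j with h1 | h1 <;> rw [h1] <;> norm_num)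
    (fun j => EPUL.Vu_le _ _ _ _)
    (Real.rpow_nonneg hLpos.le _) g2 ?_
  · rw [PP_int T hT0, smul_eq_mul] at hFI
    exact le_trans hFI g7
  · intro v hv
    have hbsum := bt_sq_sum u K (fun j => eb h L δ κ j) (fun j => eb h L δ κ (j + 1)) v x z _ hsub hdisj
    have key := hQC T L hT g1 (by
        rw [hLdef]
        nlinarith) ⌊Real.exp (eb h L δ κ K)⌋₊
      (bt u K (fun j => eb h L δ κ j) (fun j => eb h L δ κ (j + 1)) v x z) ?_ ?_ ?_
    · rw [PP_int T hT0]
      have e1 : ∀ t : ℝ, (∑ j, ((v j).1 * Yb u (eb h L δ κ j) (eb h L δ κ (j + 1)) (t + x) +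
          (v j).2 * Yb u (eb h L δ κ j) (eb h L δ κ (j + 1)) (t + z j))) =
          (∑ p ∈ (Finset.Icc 1 ⌊Real.exp (eb h L δ κ K)⌋₊).filter Nat.Prime,
            bt u K (fun j => eb h L δ κ j) (fun j => eb h L δ κ (j + 1)) v x z p * ee p t).re := by
        intro t
        rw [bt_sum u K (fun j => eb h L δ κ j) (fun j => eb h L δ κ (j + 1)) v x z _ hsub t, Complex.re_sum]
        exact Finset.sum_congr rfl fun j _ => re_eq _ _ _ _ _ _ _ _
      have e2 : ∑ p ∈ (Finset.Icc 1 ⌊Real.exp (eb h L δ κ K)⌋₊).filter Nat.Prime,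
          ‖bt u K (fun j => eb h L δ κ j) (fun j => eb h L δ κ (j + 1)) v x z p‖ ^ 2 =
          2 * ∑ j : Fin K, (Vu u (eb h L δ κ j) (eb h L δ κ (j + 1)) 0 * (v j).1 ^ 2 +
            Vu u (eb h L δ κ j) (eb h L δ κ (j + 1)) 0 * (v j).2 ^ 2 +
            2 * Vu u (eb h L δ κ j) (eb h L δ κ (j + 1)) (x - z j) * (v j).1 * (v j).2) := by
        rw [hbsum, Finset.mul_sum]
        exact Finset.sum_congr rfl fun j _ => EPUL.V_eq _ _ _ _ _ _ _
      rw [e2] at key
      simp only [e1]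
      have e3 : cexp (-((2 * ∑ j : Fin K, (Vu u (eb h L δ κ j) (eb h L δ κ (j + 1)) 0 * (v j).1 ^ 2 +
            Vu u (eb h L δ κ j) (eb h L δ κ (j + 1)) 0 * (v j).2 ^ 2 +
            2 * Vu u (eb h L δ κ j) (eb h L δ κ (j + 1)) (x - z j) * (v j).1 * (v j).2) : ℝ) : ℂ) / 4) =
          cexp (-(((∑ j : Fin K, (Vu u (eb h L δ κ j) (eb h L δ κ (j + 1)) 0 * (v j).1 ^ 2 +
            Vu u (eb h L δ κ j) (eb h L δ κ (j + 1)) 0 * (v j).2 ^ 2 +
            2 * Vu u (eb h L δ κ j) (eb h L δ κ (j + 1)) (x - z j) * (v j).1 * (v j).2)) / 2 : ℝ) : ℂ)) := by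
        rw [Complex.ofReal_mul, Complex.ofReal_div]
        congr 1
        push_cast
        ring
      rw [e3] at key
      rw [Complex.real_smul, Complex.ofReal_div, Complex.ofReal_one]
      exact key
    · -- the length
      refine le_trans (Nat.floor_le (Real.exp_pos _).le) ?_
      rw [Real.exp_le_exp]
      unfold eb
      have e1 : δ + (K : ℝ) * κ = 1 + (-(2 * δ)) := by
        rw [hκ]
        field_simp
        ring
      rw [e1, Real.rpow_add hLpos, Real.rpow_one]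
      have e2 : h⁻¹ * (L * L ^ (-(2 * δ))) = L ^ (-(2 * δ)) * Real.log T := by
        rw [hLdef]
        field_simp
      rw [e2]
      refine mul_le_mul_of_nonneg_right ?_ hlT.le
      exact Real.rpow_le_rpow_of_exponent_le (by linarith) (by linarith)
    · intro p
      by_cases hp : ∃ j : Fin K, p ∈ PB (eb h L δ κ j) (eb h L δ κ (j + 1))
      · obtain ⟨j, hj⟩ := hp
        rw [bt_mem u K _ _ v x z p (hdisj p) j hj]
        obtain ⟨a0, a1, a2, a3⟩ := mem_PB hj
        refine le_trans (EPUL.norm_le u B _ _ _ _ (Real.log L) p a0 hB (hu p) (hv j).1 (hv j).2) (le_trans ?_ g4)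
        refine mul_le_mul_of_nonneg_left ?_ (mul_nonneg hB (by linarith))
        rw [Real.exp_le_exp]
        have := hlow j
        linarith
      · push Not at hp
        rw [bt_not u K _ _ v x z p hp, norm_zero]
        exact (Real.exp_pos _).le
    · rw [hbsum]
      have hb : ∀ j : Fin K, ∑ p ∈ PB (eb h L δ κ j) (eb h L δ κ (j + 1)), ‖bb u (v j).1 (v j).2 x (z j) p‖ ^ 2 ≤
          (Real.log L) ^ 2 * (κ * Real.log L + C) := by
        intro j
        refine le_trans (Finset.sum_le_sum fun p _ => EPUL.sq_le u _ _ _ _ (Real.log L) p (hv j).1 (hv j).2) ?_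
        rw [← Finset.mul_sum]
        refine mul_le_mul_of_nonneg_left ?_ (by positivity)
        have h1 : 1 ≤ eb h L δ κ j := by
          have := hlow j
          linarith
        have h2 := (hCB (eb h L δ κ j) (eb h L δ κ (j + 1)) h1 (hmono _ _ (Nat.le_succ _))).1
        have h3 := (abs_le.mp h2).2
        have h4 : C / eb h L δ κ j ≤ C := div_le_self hCpos.le h1
        have h5 : Real.log (eb h L δ κ (j + 1) / eb h L δ κ j) = κ * Real.log L := by
          have e : eb h L δ κ (j + 1) / eb h L δ κ j = L ^ κ := by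
            unfold eb
            rw [mul_div_mul_left _ _ (by positivity), ← Real.rpow_sub hLpos]
            congr 1
            push_cast
            ring
          rw [e, Real.log_rpow hLpos]
        linarith
      refine le_trans (Finset.sum_le_sum fun j _ => hb j) ?_
      rw [Finset.sum_const, Finset.card_univ, Fintype.card_fin, nsmul_eq_mul]
      have h6 : (K : ℝ) * ((Real.log L) ^ 2 * (κ * Real.log L + C)) =
          (Real.log L) ^ 2 * ((K * κ) * Real.log L + K * C) := by ring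
      rw [h6]
      have h7 : (K : ℝ) * κ ≤ 1 := by
        rw [hκ]
        field_simp
        linarith
      have h8 : (K * κ) * Real.log L + K * C ≤ 2 * Real.log L := by
        have := mul_le_mul_of_nonneg_right h7 (show (0 : ℝ) ≤ Real.log L by linarith)
        linarith
      have h9 : (Real.log L) ^ (4 : ℝ) ≤ (Real.log L) ^ (A + 4) :=
        Real.rpow_le_rpow_of_exponent_le g2 (by linarith)
      have h10 : (Real.log L) ^ (4 : ℝ) = (Real.log L) ^ 4 := by
        exact_mod_cast Real.rpow_natCast (Real.log L) 4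
      rw [h10] at h9
      refine le_trans ?_ h9
      have h11 : (Real.log L) ^ 2 * ((K * κ) * Real.log L + K * C) ≤ (Real.log L) ^ 2 * (2 * Real.log L) :=
        mul_le_mul_of_nonneg_left h8 (by positivity)
      refine le_trans h11 ?_
      have h12 : 0 ≤ (Real.log L) ^ 3 := by positivity
      have h13 : 2 * (Real.log L) ^ 3 ≤ Real.log L * (Real.log L) ^ 3 := mul_le_mul_of_nonneg_right g6 h12
      calc (Real.log L) ^ 2 * (2 * Real.log L) = 2 * (Real.log L) ^ 3 := by ring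
        _ ≤ Real.log L * (Real.log L) ^ 3 := h13
        _ = (Real.log L) ^ 4 := by ring

end Pool.Agent.H203.HX
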