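import Pool.Agent.H203.HX.Defs2

set_option autoImplicit false

/-! High points (HPU) of the project HX, general coefficients (adapted from HX/HP.lean). -/

open Complex Filter Topology Set MeasureTheory

namespace Pool.Agent.H203.HX

open Pool.Agent.H203.ME (ee gR WR cR om FF KF C2c w1)
open Pool.Agent.H203.GE (Lf ZG XG BG NWG)

namespace HPUL

lemma ee_cont (n : ℕ) : Continuous (ee n) := by
  unfold ee
  fun_prop

lemma yb_cont (u : ℕ → ℂ) (lo hi : ℝ) : Continuous (Yb u lo hi) := by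
  unfold Yb
  refine continuous_const.mul (Complex.continuous_im.comp ?_)
  refine continuous_finsetSum _ fun p _ => ?_
  exact (continuous_const.mul (ee_cont p)).div_const _

lemma wt_cont (u : ℕ → ℂ) (h L δ κ : ℝ) (K : ℕ) (a : ℝ) : Continuous (Wt u h L δ κ K a) := by
  unfold Wt
  refine continuous_finsetProd _ fun j _ => ?_
  have h1 := yb_cont u (eb h L δ κ j) (eb h L δ κ (j + 1))
  exact Real.continuous_exp.comp ((((h1.sub continuous_const).pow 2).div_const 2).neg)

lemma mem_PB {lo hi : ℝ} {p : ℕ} : p ∈ PB lo hi ↔ p.Prime ∧ lo < Real.log p ∧ Real.log p ≤ hi := by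
  classical
  unfold PB
  rw [Finset.mem_filter, Finset.mem_Icc]
  constructor
  · rintro ⟨⟨h1, h2⟩, h3, h4⟩
    refine ⟨h3, h4, ?_⟩
    have h5 : (p : ℝ) ≤ Real.exp hi := (Nat.le_floor_iff (Real.exp_pos _).le).1 h2
    have h6 : (0 : ℝ) < p := by exact_mod_cast h3.pos
    exact (Real.log_le_iff_le_exp h6).2 h5
  · rintro ⟨h1, h2, h3⟩
    have h6 : (0 : ℝ) < p := by exact_mod_cast h1.pos
    exact ⟨⟨h1.one_le, Nat.le_floor ((Real.log_le_iff_le_exp h6).1 h3)⟩, h1, h2⟩

lemma yb_add (u : ℕ → ℂ) (lo mid hi t : ℝ) (h1 : lo ≤ mid) (h2 : mid ≤ hi) :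
    Yb u lo hi t = Yb u lo mid t + Yb u mid hi t := by
  classical
  have h3 : PB lo hi = PB lo mid ∪ PB mid hi := by
    ext p
    rw [Finset.mem_union, mem_PB, mem_PB, mem_PB]
    constructor
    · rintro ⟨a, b, c⟩
      rcases le_or_gt (Real.log p) mid with h | h
      · exact Or.inl ⟨a, b, h⟩
      · exact Or.inr ⟨a, h, c⟩
    · rintro (⟨a, b, c⟩ | ⟨a, b, c⟩)
      · exact ⟨a, b, c.trans h2⟩
      · exact ⟨a, h1.trans_lt b, c⟩
  have h4 : Disjoint (PB lo mid) (PB mid hi) := by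
    rw [Finset.disjoint_left]
    intro p hp hq
    exact absurd (mem_PB.1 hp).2.2 (not_le.2 (mem_PB.1 hq).2.1)
  unfold Yb
  rw [h3, Finset.sum_union h4, Complex.add_im, mul_add]

lemma yb_self (u : ℕ → ℂ) (lo t : ℝ) : Yb u lo lo t = 0 := by
  have h1 : PB lo lo = ∅ := by
    rw [Finset.eq_empty_iff_forall_notMem]
    intro p hp
    exact absurd (mem_PB.1 hp).2.2 (not_le.2 (mem_PB.1 hp).2.1)
  unfold Yb
  rw [h1, Finset.sum_empty, Complex.zero_im, mul_zero]

lemma yb_sum (u : ℕ → ℂ) (e : ℕ → ℝ) (he : Monotone e) (t : ℝ) (K : ℕ) :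
    ∑ j : Fin K, Yb u (e j) (e (j + 1)) t = Yb u (e 0) (e K) t := by
  rw [Fin.sum_univ_eq_sum_range (fun j => Yb u (e j) (e (j + 1)) t) K]
  induction K with
  | zero => rw [Finset.sum_range_zero, yb_self]
  | succ K ih =>
    rw [Finset.sum_range_succ, ih, ← yb_add u _ _ _ t (he (Nat.zero_le _)) (he (Nat.le_succ _))]

lemma cheb (f : ℝ → ℝ) (hf : Continuous f) (h0 : ∀ t, 0 ≤ f t) (T c B : ℝ) (hT : 0 < T)
    (hc : 0 < c) (hI : ∫ t in T..(2 * T), f t ≤ B) :
    volume {t : ℝ | T ≤ t ∧ t ≤ 2 * T ∧ c ≤ f t} ≤ ENNReal.ofReal (B / c) := by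
  have h1 := mul_meas_ge_le_integral_of_nonneg (μ := volume.restrict (Icc T (2 * T)))
    (ae_of_all _ h0) (hf.integrableOn_Icc) c
  have h2 : ∫ x in Icc T (2 * T), f x ≤ B := by
    rw [integral_Icc_eq_integral_Ioc, ← intervalIntegral.integral_of_le (by linarith)]
    exact hI
  have h3 : (volume.restrict (Icc T (2 * T))).real {x | c ≤ f x} ≤ B / c := by
    rw [le_div_iff₀ hc, mul_comm]
    exact h1.trans h2
  have hms : MeasurableSet {x | c ≤ f x} := measurableSet_le measurable_const hf.measurable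
  have h4 : {t : ℝ | T ≤ t ∧ t ≤ 2 * T ∧ c ≤ f t} = {x | c ≤ f x} ∩ Icc T (2 * T) := by
    ext t
    simp only [mem_ofPred_eq, mem_inter_iff, mem_Icc]
    tauto
  rw [h4, ← Measure.restrict_apply hms]
  have h5 : (volume.restrict (Icc T (2 * T))) {x | c ≤ f x} ≠ ⊤ := by
    refine ne_of_lt ((measure_mono (subset_univ _)).trans_lt ?_)
    rw [Measure.restrict_apply_univ]
    exact measure_Icc_lt_top
  rw [← ENNReal.ofReal_toReal h5]
  exact ENNReal.ofReal_le_ofReal h3

lemma eb_mono (h L δ κ : ℝ) (hh : 0 < h) (hL : 1 ≤ L) (hκ : 0 ≤ κ) : Monotone (eb h L δ κ) := by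
  intro i j hij
  unfold eb
  refine mul_le_mul_of_nonneg_left ?_ (inv_pos.2 hh).le
  refine Real.rpow_le_rpow_of_exponent_le hL ?_
  have : (i : ℝ) ≤ j := by exact_mod_cast hij
  linarith [mul_le_mul_of_nonneg_right this hκ]

/-- a point with large weight -/
lemma big (u : ℕ → ℂ) (h L δ κ : ℝ) (K : ℕ) (a t : ℝ) (hL : 0 < Real.log L)
    (hW : Real.exp (-(2 * Real.log L)) < Wt u h L δ κ K a t) (j : Fin K) :
    |Yb u (eb h L δ κ j) (eb h L δ κ (j + 1)) t - a| ≤ 2 * Real.sqrt (Real.log L) := by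
  have h1 : Wt u h L δ κ K a t =
      Real.exp (∑ j : Fin K, -((Yb u (eb h L δ κ j) (eb h L δ κ (j + 1)) t - a) ^ 2 / 2)) := by
    unfold Wt
    rw [Real.exp_sum]
  rw [h1, Real.exp_lt_exp, Finset.sum_neg_distrib, neg_lt_neg_iff] at hW
  have h2 : (Yb u (eb h L δ κ j) (eb h L δ κ (j + 1)) t - a) ^ 2 / 2 ≤
      ∑ j : Fin K, (Yb u (eb h L δ κ j) (eb h L δ κ (j + 1)) t - a) ^ 2 / 2 :=
    Finset.single_le_sum (f := fun j : Fin K =>
      (Yb u (eb h L δ κ j) (eb h L δ κ (j + 1)) t - a) ^ 2 / 2)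
      (fun i _ => by positivity) (Finset.mem_univ j)
  apply abs_le_of_sq_le_sq _ (by positivity)
  rw [mul_pow, Real.sq_sqrt hL.le]
  linarith

end HPUL

open HPUL in
theorem t_HPU (h : S_SMU) : S_HPU := by
  intro u B hu hU ε hε
  set e : ℝ := min ε (1 / 2) with he
  have he0 : 0 < e := lt_min hε (by norm_num)
  have he1 : e < 1 := (min_le_right _ _).trans_lt (by norm_num)
  have heε : e ≤ ε := min_le_left _ _
  refine ⟨min (1 / 8) (e / 6), lt_min (by norm_num) (by positivity), fun δ hδ hδ' η hη => ?_⟩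
  have hδ8 : δ < 1 / 8 := hδ'.trans_le (min_le_left _ _)
  have hδe : δ < e / 6 := hδ'.trans_le (min_le_right _ _)
  set K : ℕ := ⌈4 / δ⌉₊ with hK
  have hK0 : 4 / δ ≤ K := Nat.le_ceil _
  have hKpos : (0 : ℝ) < K := lt_of_lt_of_le (by positivity) hK0
  obtain ⟨L1, hL1, H⟩ := h u B hu hU K e δ he0 he1 hδ hδ8 hK0 (η / 4) (by positivity)
  refine ⟨max L1 (Real.exp ((4 * K / e) ^ 2)), hL1.trans (le_max_left _ _), ?_⟩
  intro T x L w σ hT hx hx2 hL hLL hw hσ
  have hL1' : L1 ≤ L := (le_max_left _ _).trans hLL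
  have hL3 : 3 ≤ L := hL1.trans hL1'
  have hLpos : 0 < L := by linarith
  have hlog : (4 * K / e) ^ 2 ≤ Real.log L := by
    rw [Real.le_log_iff_exp_le hLpos]
    exact (le_max_right _ _).trans hLL
  have hlog0 : 0 < Real.log L := Real.log_pos (by linarith)
  have hTlog : 0 < Real.log T := Real.log_pos hT
  have hw0 : 0 < w := by
    rw [hw]
    exact div_pos (Real.rpow_pos_of_pos hLpos _) hTlog
  set κ : ℝ := (1 - 3 * δ) / K with hκ
  have hκ0 : 0 < κ := div_pos (by linarith) hKpos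
  have hκK : κ * K = 1 - 3 * δ := by
    rw [hκ]
    field_simp
  set m : ℝ := (1 - e) * κ * Real.log L / Real.pi with hm
  have hm0 : 0 ≤ m := by
    have : 0 < 1 - e := by linarith
    positivity
  set a : ℝ := σ * m with ha
  have hσσ : σ * σ = 1 := by
    rcases hσ with h1 | h1 <;> rw [h1] <;> norm_num
  have hσa : |σ| = 1 := by
    rcases hσ with h1 | h1 <;> rw [h1] <;> norm_num
  have haa : |a| = m := by
    rw [ha, abs_mul, hσa, one_mul, abs_of_nonneg hm0]
  set n : ℕ := ⌊x / (4 * w)⌋₊ with hn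
  obtain ⟨E0, E1, E2⟩ := H T x L κ w a n hT hx hx2 hL hL1' rfl hw haa rfl
  set E : ℝ := Ewu u x L δ κ K a with hE
  set c : ℝ := (n + 1) * E with hc
  have hc0 : 0 < c := by positivity
  set f : ℝ → ℝ := fun t =>
    (∑ i ∈ Finset.range (n + 1), Wt u x L δ κ K a (t + i * w) - c) ^ 2 with hf
  have hfc : Continuous f := by
    refine ((continuous_finsetSum _ fun i _ => ?_).sub continuous_const).pow 2
    exact (wt_cont u x L δ κ K a).comp (continuous_id.add continuous_const)
  have hT0 : 0 < T := by linarith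
  have hint : ∫ t in T..(2 * T), f t ≤ T * (η / 4 * c ^ 2) := by
    have h1 := mul_le_mul_of_nonneg_left E2 hT0.le
    rw [← mul_assoc, mul_one_div_cancel hT0.ne', one_mul] at h1
    exact h1
  have h1 := cheb f hfc (fun t => sq_nonneg _) T (c ^ 2 / 4) (T * (η / 4 * c ^ 2)) hT0
    (by positivity) hint
  have h2 : T * (η / 4 * c ^ 2) / (c ^ 2 / 4) = η * T := by
    field_simp
  rw [h2] at h1
  refine (measure_mono ?_).trans h1
  rintro t ⟨t1, t2, t3⟩
  refine ⟨t1, t2, ?_⟩
  by_contra hlt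
  rw [not_le] at hlt
  set S : ℝ := ∑ i ∈ Finset.range (n + 1), Wt u x L δ κ K a (t + i * w) with hS
  have h3 : (S - c) ^ 2 < c ^ 2 / 4 := hlt
  have h4 : c / 2 < S := by
    by_contra h5
    rw [not_lt] at h5
    have h6 : c / 2 ≤ c - S := by linarith
    have h7 := mul_le_mul h6 h6 (by positivity) (by linarith)
    have h8 : (S - c) ^ 2 = (c - S) * (c - S) := by ring
    rw [h8] at h3
    linarith [show c / 2 * (c / 2) = c ^ 2 / 4 by ring]
  -- some point has large weight
  have h5 : ∃ i ∈ Finset.range (n + 1),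
      Real.exp (-(2 * Real.log L)) < Wt u x L δ κ K a (t + i * w) := by
    by_contra h6
    push Not at h6
    have h7 : S ≤ ∑ i ∈ Finset.range (n + 1), Real.exp (-(2 * Real.log L)) :=
      Finset.sum_le_sum fun i hi => h6 i hi
    rw [Finset.sum_const, Finset.card_range, nsmul_eq_mul] at h7
    push_cast at h7
    have h8 : (n + 1) * E / 2 < (n + 1) * Real.exp (-(2 * Real.log L)) := h4.trans_le h7
    have h9 : E / 2 < Real.exp (-(2 * Real.log L)) := by
      have h10 : (0 : ℝ) < n + 1 := by positivity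
      rw [mul_div_assoc] at h8
      exact lt_of_mul_lt_mul_left h8 h10.le
    have h10 : Real.exp (-Real.log L) ≤ E := by
      refine le_trans ?_ E1
      rw [Real.rpow_def_of_pos hLpos]
      apply Real.exp_le_exp.2
      have h20 : 0 ≤ Real.log L * (e / 2) := by positivity
      have h21 : Real.log L * -(1 - e / 2) = -Real.log L + Real.log L * (e / 2) := by ring
      rw [h21]
      linarith
    have h11 : Real.exp (-(2 * Real.log L)) = Real.exp (-Real.log L) * L⁻¹ := by
      rw [show -(2 * Real.log L) = -Real.log L + -Real.log L by ring, Real.exp_add]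
      congr 1
      rw [Real.exp_neg, Real.exp_log hLpos]
    have h12 : L⁻¹ ≤ 1 / 3 := by
      rw [inv_eq_one_div]
      exact one_div_le_one_div_of_le (by norm_num) hL3
    have h13 := Real.exp_pos (-Real.log L)
    rw [h11] at h9
    have h14 := mul_le_mul_of_nonneg_left h12 h13.le
    linarith
  obtain ⟨i, hi, hWi⟩ := h5
  have hin : (i : ℝ) * w ≤ x / 4 := by
    have h6 : (i : ℝ) ≤ n := by
      have := Finset.mem_range.1 hi
      exact_mod_cast Nat.lt_succ_iff.1 this
    have h7 : (n : ℝ) ≤ x / (4 * w) := Nat.floor_le (by positivity)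
    have h8 := mul_le_mul_of_nonneg_right (h6.trans h7) hw0.le
    have h9 : x / (4 * w) * w = x / 4 := by
      field_simp
    rwa [h9] at h8
  have h6 := t3 i hin
  have h7 := yb_sum u (eb x L δ κ) (eb_mono x L δ κ hx (by linarith) hκ0.le) (t + i * w) K
  have h8 : eb x L δ κ 0 = x⁻¹ * L ^ δ := by
    unfold eb
    rw [Nat.cast_zero, zero_mul, add_zero]
  have h9 : eb x L δ κ K = x⁻¹ * L ^ (1 - 2 * δ) := by
    unfold eb
    congr 2
    linarith
  rw [h8, h9] at h7
  rw [← h7, Finset.mul_sum] at h6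
  have h10 : ∀ j : Fin K, m - 2 * Real.sqrt (Real.log L) ≤
      σ * Yb u (eb x L δ κ j) (eb x L δ κ (j + 1)) (t + i * w) := by
    intro j
    have h11 := big u x L δ κ K a (t + i * w) hlog0 hWi j
    have h12 : |σ * Yb u (eb x L δ κ j) (eb x L δ κ (j + 1)) (t + i * w) - m| ≤
        2 * Real.sqrt (Real.log L) := by
      have h13 : σ * Yb u (eb x L δ κ j) (eb x L δ κ (j + 1)) (t + i * w) - m =
          σ * (Yb u (eb x L δ κ j) (eb x L δ κ (j + 1)) (t + i * w) - a) := by
        rw [mul_sub, ha, ← mul_assoc, hσσ, one_mul]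
      rw [h13, abs_mul, hσa, one_mul]
      exact h11
    linarith [(abs_le.1 h12).1]
  have h11 := Finset.sum_le_sum fun (j : Fin K) (_ : j ∈ Finset.univ) => h10 j
  rw [Finset.sum_const, Finset.card_univ, Fintype.card_fin, nsmul_eq_mul] at h11
  have h12 : (K : ℝ) * (m - 2 * Real.sqrt (Real.log L)) < (1 / Real.pi - ε) * Real.log L :=
    h11.trans_lt h6
  have h13 : (K : ℝ) * m = (1 - e) * (1 - 3 * δ) * (Real.log L / Real.pi) := by
    rw [← hκK, hm]
    ring
  have h14 : 4 * K / e ≤ Real.sqrt (Real.log L) := by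
    rw [Real.le_sqrt (by positivity) hlog0.le]
    exact hlog
  have h15 : 2 * K * Real.sqrt (Real.log L) ≤ e / 2 * Real.log L := by
    have h16 : Real.sqrt (Real.log L) * Real.sqrt (Real.log L) = Real.log L :=
      Real.mul_self_sqrt hlog0.le
    have h17 : 4 * K ≤ Real.sqrt (Real.log L) * e := by
      rwa [div_le_iff₀ he0] at h14
    have h19 := mul_le_mul_of_nonneg_right h17 (Real.sqrt_nonneg (Real.log L))
    have h20 : Real.sqrt (Real.log L) * e * Real.sqrt (Real.log L) = e * Real.log L := by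
      rw [mul_right_comm, h16, mul_comm]
    rw [h20] at h19
    linarith
  have hpi : 0 < Real.pi := Real.pi_pos
  have hpi3 : 3 < Real.pi := Real.pi_gt_three
  have h19 : (1 - e) * (1 - 3 * δ) ≥ 1 - 3 / 2 * e := by
    have h30 : 0 ≤ e * δ := by positivity
    have h31 : (1 - e) * (1 - 3 * δ) = 1 - e - 3 * δ + 3 * (e * δ) := by ring
    rw [h31]
    linarith
  have h20 : Real.log L / Real.pi ≤ Real.log L / 3 :=
    div_le_div_of_nonneg_left hlog0.le (by norm_num) hpi3.le
  have h21 : 0 < Real.log L / Real.pi := by positivity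
  have h22 : (1 / Real.pi - ε) * Real.log L = Real.log L / Real.pi - ε * Real.log L := by ring
  rw [h22] at h12
  have h23 : (K : ℝ) * (m - 2 * Real.sqrt (Real.log L)) =
      (1 - e) * (1 - 3 * δ) * (Real.log L / Real.pi) - 2 * K * Real.sqrt (Real.log L) := by
    rw [mul_sub, h13]
    ring
  rw [h23] at h12
  have h24 := mul_le_mul_of_nonneg_right h19 h21.le
  have h25 : ε * Real.log L ≥ e * Real.log L := mul_le_mul_of_nonneg_right heε hlog0.le
  have h26 : e * (Real.log L / Real.pi) ≤ e * (Real.log L / 3) :=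
    mul_le_mul_of_nonneg_left h20 he0.le
  have h27 : (1 - 3 / 2 * e) * (Real.log L / Real.pi) =
      Real.log L / Real.pi - 3 / 2 * (e * (Real.log L / Real.pi)) := by ring
  rw [h27] at h24
  have h28 : e * (Real.log L / 3) = e * Real.log L / 3 := by ring
  rw [h28] at h26
  have h29 : e / 2 * Real.log L = e * Real.log L / 2 := by ring
  rw [h29] at h15
  linarith

end Pool.Agent.H203.HX
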