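import Pool.Agent.H203.HX.Defs2
import Pool.Agent.H203.HX.LC

/-! (LCU) from smoothed to sharp counts, for linear combinations.  Adapted from `HX/LC.lean` (helper722). -/

set_option autoImplicit false

open Complex Filter Topology Set MeasureTheory

namespace Pool.Agent.H203.HX

open Pool.Agent.H203.GE (Lf ZG XG)

namespace LCUL

open LCL

/-- the smoothed discrepancy is the average of the sharp discrepancies -/
theorem one {G : ℂ → ℂ} {u : ℕ → ℂ} (hG : Lf G u) {T t w a : ℝ} (ht : 3 ≤ t) (hw : 0 < w) (ha : 0 ≤ a) :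
    ∃ F : ℝ → ℝ, IntervalIntegrable (fun v : ℝ => fi v * F v) volume 0 1 ∧
      XG G (Gs w a) T t = (∫ v in (0:ℝ)..1, fi v * F v) - a * Real.log T / (2 * Real.pi) ∧
      ∀ v : ℝ, 0 ≤ v → v ≤ 1 → F v = (H370.NN G (t + w * v) (t + w * v + a) : ℝ) := by
  classical
  have hfin : (H370.zset G t (t + (a + w))).Finite := H370.zset_finite hG.good _ _ (by linarith)
  obtain ⟨Z, hZ⟩ : ∃ Z : Finset ℂ, Z = hfin.toFinset := ⟨_, rfl⟩
  have hmem : ∀ s : ℂ, s ∈ Z ↔ s ∈ H370.zset G t (t + (a + w)) := fun s => by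
    rw [hZ, Set.Finite.mem_toFinset]
  -- the smoothed count
  have hsum : ∑ᶠ s ∈ ZG G, (H370.mult G s : ℝ) * Gs w a (s.im - t) =
      ∑ s ∈ Z, (H370.mult G s : ℝ) * Gs w a (s.im - t) := by
    apply finsum_mem_eq_sum_of_inter_support_eq
    ext s
    simp only [mem_inter_iff, Function.mem_support, Finset.mem_coe, hmem]
    constructor
    · rintro ⟨h1, h2⟩
      refine ⟨⟨h1.2.1, h1.2.2, ?_, ?_, h1.1⟩, h2⟩
      · by_contra h3
        apply h2
        rw [Gs_zero_left hw ha (by linarith), mul_zero]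
      · by_contra h3
        apply h2
        rw [Gs_zero_right hw ha (by linarith), mul_zero]
    · rintro ⟨h1, h2⟩
      exact ⟨⟨h1.2.2.2.2, h1.1, h1.2.1⟩, h2⟩
  refine ⟨fun v : ℝ => ∑ s ∈ Z,
      (if t + w * v < s.im ∧ s.im ≤ t + w * v + a then (H370.mult G s : ℝ) else 0),
    ii_sum Z (fun s => (H370.mult G s : ℝ)) (fun s => s.im) w a t, ?_, ?_⟩
  · unfold XG
    rw [hsum, main_sum Z (fun s => (H370.mult G s : ℝ)) (fun s => s.im) hw ha t, int_Gs hw ha]
    ring
  · intro v hv0 hv1
    have hwv : w * v ≤ w := by nlinarith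
    have hwv0 : 0 ≤ w * v := by positivity
    have hset : H370.zset G (t + w * v) (t + w * v + a) =
        ((Z.filter fun s => t + w * v < s.im ∧ s.im ≤ t + w * v + a : Finset ℂ) : Set ℂ) := by
      ext s
      simp only [Finset.coe_filter, mem_ofPred_eq, hmem]
      constructor
      · rintro ⟨h1, h2, h3, h4, h5⟩
        exact ⟨⟨h1, h2, by linarith, by linarith, h5⟩, h3, h4⟩
      · rintro ⟨⟨h1, h2, _, _, h5⟩, h3, h4⟩
        exact ⟨h1, h2, h3, h4, h5⟩
    unfold H370.NN
    rw [hset, finsum_mem_coe_finset, Nat.cast_sum, Finset.sum_filter]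

end LCUL

open LCL in
theorem t_LCU : S_LCU := by
  intro k G u e hG T t w a c ht hw ha _ h
  choose F hFi hFX hFN using fun j => LCUL.one (hG j) (T := T) ht hw ha
  set al : ℝ := a * Real.log T / (2 * Real.pi) with hal
  -- the linear combination as an average
  have hcc : IntervalIntegrable (fun v : ℝ => fi v * al) volume 0 1 :=
    (cont_fi.mul continuous_const).intervalIntegrable _ _
  have hii : ∀ j, IntervalIntegrable (fun v : ℝ => e j * (fi v * F j v - fi v * al)) volume 0 1 :=
    fun j => ((hFi j).sub hcc).const_mul (e j)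
  have hpt : ∀ v : ℝ, fi v * ∑ j, e j * (F j v - al) = ∑ j, e j * (fi v * F j v - fi v * al) := by
    intro v
    rw [Finset.mul_sum]
    exact Finset.sum_congr rfl fun j _ => by ring
  have hX : ∑ j, e j * XG (G j) (Gs w a) T t = ∫ v in (0:ℝ)..1, fi v * ∑ j, e j * (F j v - al) := by
    simp_rw [hpt]
    rw [intervalIntegral.integral_finsetSum (fun j _ => hii j)]
    refine Finset.sum_congr rfl fun j _ => ?_
    rw [intervalIntegral.integral_const_mul, intervalIntegral.integral_sub (hFi j) hcc,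
      int_fi_const, hFX j]
  have hint : IntervalIntegrable (fun v : ℝ => fi v * ∑ j, e j * (F j v - al)) volume 0 1 := by
    have h2 := IntervalIntegrable.sum (μ := volume) (a := 0) (b := 1) Finset.univ
      (f := fun j (v : ℝ) => e j * (fi v * F j v - fi v * al)) (fun j _ => hii j)
    refine h2.congr ?_
    intro v _
    simp only [Finset.sum_apply, hpt]
  by_contra hcon
  push Not at hcon
  have hle : ∫ v in (0:ℝ)..1, fi v * ∑ j, e j * (F j v - al) ≤ ∫ v in (0:ℝ)..1, fi v * c := by
    apply intervalIntegral.integral_mono_on (by norm_num) hint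
      ((cont_fi.mul continuous_const).intervalIntegrable _ _)
    intro v hv
    apply mul_le_mul_of_nonneg_left _ (fi_nonneg v)
    have h1 := hcon (w * v) (mul_nonneg hw.le hv.1) (by nlinarith [hv.2])
    have h2 : ∑ j, e j * (F j v - al) =
        ∑ j, e j * ((H370.NN (G j) (t + w * v) (t + w * v + a) : ℝ) - al) :=
      Finset.sum_congr rfl fun j _ => by rw [hFN j v hv.1 hv.2]
    rw [h2]
    exact h1
  rw [int_fi_const] at hle
  rw [hX] at h
  linarith

end Pool.Agent.H203.HX
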