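import Pool.Agent.H203.HX.Defs
import Pool.Graph.R_seed8.H370R2.NT

set_option autoImplicit false

/-! Project HX, part CB: variance and covariances of the blocks. -/

open Complex Filter Topology Set MeasureTheory

namespace Pool.Agent.H203.HX

open Pool.Agent.H203.ME (ee)

namespace CBL

/-! ### Abel's inequality -/

lemma parts {E : Type} [NormedAddCommGroup E] [NormedSpace ℝ E] (c : ℕ → E) (g : ℕ → ℝ) (m : ℕ)
    (n : ℕ) (hmn : m ≤ n) : ∑ k ∈ Finset.Ioc m n, g k • c k =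
      g (n + 1) • (∑ k ∈ Finset.Ioc m n, c k) +
        ∑ j ∈ Finset.Ioc m n, (g j - g (j + 1)) • ∑ k ∈ Finset.Ioc m j, c k := by
  induction n, hmn using Nat.le_induction with
  | base => simp
  | succ n hn ih =>
    have h1 : ∀ f : ℕ → E, ∑ k ∈ Finset.Ioc m (n + 1), f k =
        (∑ k ∈ Finset.Ioc m n, f k) + f (n + 1) := fun f => Finset.sum_Ioc_succ_top hn f
    rw [h1 (fun k => g k • c k), ih, h1 (fun j => (g j - g (j + 1)) • ∑ k ∈ Finset.Ioc m j, c k),
      h1 c]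
    module

lemma tele (g : ℕ → ℝ) (m n : ℕ) (hmn : m ≤ n) :
    ∑ j ∈ Finset.Ioc m n, (g j - g (j + 1)) = g (m + 1) - g (n + 1) := by
  induction n, hmn using Nat.le_induction with
  | base => simp
  | succ n hn ih =>
    rw [Finset.sum_Ioc_succ_top hn, ih]
    ring

lemma abel_le {E : Type} [NormedAddCommGroup E] [NormedSpace ℝ E] (c : ℕ → E) (g : ℕ → ℝ)
    (m n : ℕ) (hmn : m ≤ n) (M : ℝ) (hM : ∀ j, m ≤ j → ‖∑ k ∈ Finset.Ioc m j, c k‖ ≤ M)
    (hg : ∀ k, m < k → g (k + 1) ≤ g k) (hg0 : ∀ k, m < k → 0 ≤ g k) :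
    ‖∑ k ∈ Finset.Ioc m n, g k • c k‖ ≤ M * g (m + 1) := by
  rw [parts c g m n hmn]
  refine (norm_add_le _ _).trans ?_
  have h1 : ‖g (n + 1) • ∑ k ∈ Finset.Ioc m n, c k‖ ≤ g (n + 1) * M := by
    rw [norm_smul, Real.norm_eq_abs, abs_of_nonneg (hg0 _ (by omega))]
    exact mul_le_mul_of_nonneg_left (hM n hmn) (hg0 _ (by omega))
  have h2 : ‖∑ j ∈ Finset.Ioc m n, (g j - g (j + 1)) • ∑ k ∈ Finset.Ioc m j, c k‖ ≤
      ∑ j ∈ Finset.Ioc m n, (g j - g (j + 1)) * M := by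
    refine (norm_sum_le _ _).trans (Finset.sum_le_sum fun j hj => ?_)
    rw [Finset.mem_Ioc] at hj
    rw [norm_smul, Real.norm_eq_abs, abs_of_nonneg (sub_nonneg.2 (hg j hj.1))]
    exact mul_le_mul_of_nonneg_left (hM j hj.1.le) (sub_nonneg.2 (hg j hj.1))
  rw [← Finset.sum_mul, tele g m n hmn] at h2
  calc _ ≤ g (n + 1) * M + (g (m + 1) - g (n + 1)) * M := add_le_add h1 h2
    _ = _ := by ring

/-! ### prime powers are negligible -/

/-- the terms of the prime powers -/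
noncomputable def np (n : ℕ) : ℝ := (if n.Prime then 0 else ArithmeticFunction.vonMangoldt n) / n

lemma np_nonneg (n : ℕ) : 0 ≤ np n := by
  unfold np
  split_ifs
  · simp
  · exact div_nonneg ArithmeticFunction.vonMangoldt_nonneg (Nat.cast_nonneg n)

lemma np_summable : Summable np := by
  have h := ArithmeticFunction.vonMangoldt.summable_residueClass_non_primes_div (0 : ZMod 1)
  refine h.congr fun n => ?_
  unfold np
  have h1 : ArithmeticFunction.vonMangoldt.residueClass (0 : ZMod 1) n =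
      ArithmeticFunction.vonMangoldt n := by
    rw [ArithmeticFunction.vonMangoldt.residueClass, Set.indicator_of_mem]
    exact Subsingleton.elim _ _
  rw [h1]

/-- the terms of the primes -/
noncomputable def pr (n : ℕ) : ℝ := if n.Prime then Real.log n / n else 0

lemma pr_eq (n : ℕ) : pr n = ArithmeticFunction.vonMangoldt n / n - np n := by
  unfold pr np
  split_ifs with h
  · rw [ArithmeticFunction.vonMangoldt_apply_prime h]
    simp
  · simp

lemma norm_ee (n : ℕ) (t : ℝ) : ‖ee n t‖ = 1 := by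
  unfold ee
  have : -(((t * Real.log n : ℝ) : ℂ) * I) = ((-(t * Real.log n) : ℝ) : ℂ) * I := by
    push_cast; ring
  rw [this]
  exact Complex.norm_exp_ofReal_mul_I _

lemma ee_re (n : ℕ) (t : ℝ) : (ee n t).re = Real.cos (t * Real.log n) := by
  unfold ee
  have : -(((t * Real.log n : ℝ) : ℂ) * I) = ((-(t * Real.log n) : ℝ) : ℂ) * I := by
    push_cast; ring
  rw [this, Complex.exp_ofReal_mul_I_re, Real.cos_neg]

lemma Ioc_eq_sub {E : Type} [AddCommGroup E] (f : ℕ → E) {m j : ℕ} (h : m ≤ j) :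
    ∑ k ∈ Finset.Ioc m j, f k = (∑ k ∈ Finset.Icc 1 j, f k) - ∑ k ∈ Finset.Icc 1 m, f k := by
  have h1 : ∀ n : ℕ, Finset.Icc 1 n = Finset.Ioc 0 n := fun n => rfl
  rw [h1, h1, ← Finset.sum_Ioc_consecutive f (Nat.zero_le m) h, add_sub_cancel_left]

/-- Mertens for the primes -/
lemma mert_pr (N : ℕ) (hN : 1 ≤ N) :
    |(∑ n ∈ Finset.Icc 1 N, pr n) - Real.log N| ≤ 6 + ∑' n, np n := by
  have h1 : ∑ n ∈ Finset.Icc 1 N, pr n = (∑ n ∈ Finset.Icc 1 N,
      ArithmeticFunction.vonMangoldt n / n) - ∑ n ∈ Finset.Icc 1 N, np n := by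
    rw [← Finset.sum_sub_distrib]
    exact Finset.sum_congr rfl fun n _ => pr_eq n
  have h2 : ∑ n ∈ Finset.Icc 1 N, np n ≤ ∑' n, np n :=
    np_summable.sum_le_tsum _ fun n _ => np_nonneg n
  have h3 : 0 ≤ ∑ n ∈ Finset.Icc 1 N, np n := Finset.sum_nonneg fun n _ => np_nonneg n
  have h4 := H370.nt_mertens_upper N hN
  have h5 := H370.nt_mertens_lower N hN
  rw [h1, abs_le]
  constructor <;> linarith

/-- the oscillating sums over the primes -/
lemma osc_pr {C : ℝ} (h : ∀ τ : ℝ, 0 < τ → τ ≤ 1 → ∀ N : ℕ,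
    ‖∑ n ∈ Finset.Icc 1 N, ((ArithmeticFunction.vonMangoldt n / n : ℝ) : ℂ) * ee n τ‖ ≤ C / τ)
    (τ : ℝ) (hτ : 0 < τ) (hτ1 : τ ≤ 1) (N : ℕ) :
    ‖∑ n ∈ Finset.Icc 1 N, ((pr n : ℝ) : ℂ) * ee n τ‖ ≤ (C + ∑' n, np n) / τ := by
  have h1 : ∑ n ∈ Finset.Icc 1 N, ((pr n : ℝ) : ℂ) * ee n τ = (∑ n ∈ Finset.Icc 1 N,
      ((ArithmeticFunction.vonMangoldt n / n : ℝ) : ℂ) * ee n τ) -
      ∑ n ∈ Finset.Icc 1 N, ((np n : ℝ) : ℂ) * ee n τ := by
    rw [← Finset.sum_sub_distrib]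
    refine Finset.sum_congr rfl fun n _ => ?_
    rw [pr_eq n, Complex.ofReal_sub, sub_mul]
  have h2 : ‖∑ n ∈ Finset.Icc 1 N, ((np n : ℝ) : ℂ) * ee n τ‖ ≤ ∑' n, np n := by
    refine (norm_sum_le _ _).trans ?_
    have h3 : ∀ n ∈ Finset.Icc 1 N, ‖((np n : ℝ) : ℂ) * ee n τ‖ = np n := by
      intro n _
      rw [norm_mul, norm_ee, mul_one, Complex.norm_real, Real.norm_eq_abs,
        abs_of_nonneg (np_nonneg n)]
    rw [Finset.sum_congr rfl h3]
    exact np_summable.sum_le_tsum _ fun n _ => np_nonneg n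
  have h3 : 0 ≤ ∑' n, np n := tsum_nonneg np_nonneg
  rw [h1]
  refine (norm_sub_le _ _).trans ((add_le_add (h τ hτ hτ1 N) h2).trans ?_)
  rw [add_div]
  have h4 : ∑' n, np n ≤ (∑' n, np n) / τ := by
    rw [le_div_iff₀ hτ]
    exact mul_le_of_le_one_right h3 hτ1
  linarith

/-! ### the block -/

lemma PB_eq (lo hi : ℝ) : PB lo hi =
    (Finset.Ioc ⌊Real.exp lo⌋₊ ⌊Real.exp hi⌋₊).filter Nat.Prime := by
  classical
  ext p
  rw [PB, Finset.mem_filter, Finset.mem_filter, Finset.mem_Icc, Finset.mem_Ioc,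
    Nat.floor_lt (Real.exp_pos _).le]
  constructor
  · rintro ⟨⟨h1, h2⟩, h3, h4⟩
    have hp : (0 : ℝ) < p := by exact_mod_cast h1
    exact ⟨⟨(Real.lt_log_iff_exp_lt hp).1 h4, h2⟩, h3⟩
  · rintro ⟨⟨h1, h2⟩, h3⟩
    have hp : (0 : ℝ) < p := by exact_mod_cast h3.pos
    exact ⟨⟨h3.one_lt.le, h2⟩, h3, (Real.lt_log_iff_exp_lt hp).2 h1⟩

/-- the logarithm of the floor of the exponential -/
lemma log_floor {x : ℝ} (hx : 1 ≤ x) : 2 ≤ ⌊Real.exp x⌋₊ ∧ Real.log ⌊Real.exp x⌋₊ ≤ x ∧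
    x - 1 / 2 ≤ Real.log ⌊Real.exp x⌋₊ := by
  have h1 : (2 : ℝ) ≤ Real.exp x := by
    have := Real.add_one_le_exp x
    linarith
  have h2 : 2 ≤ ⌊Real.exp x⌋₊ := Nat.le_floor (by exact_mod_cast h1)
  have h3 : (2 : ℝ) ≤ ⌊Real.exp x⌋₊ := by exact_mod_cast h2
  have h4 : (0 : ℝ) < ⌊Real.exp x⌋₊ := by linarith
  refine ⟨h2, ?_, ?_⟩
  · have h5 := Real.log_le_log h4 (Nat.floor_le (Real.exp_pos x).le)
    rwa [Real.log_exp] at h5
  · have h5 : Real.exp x ≤ ⌊Real.exp x⌋₊ + 1 := (Nat.lt_floor_add_one _).le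
    have h6 := Real.log_le_log (Real.exp_pos x) h5
    rw [Real.log_exp] at h6
    have h7 : Real.log ((⌊Real.exp x⌋₊ : ℝ) + 1) ≤ Real.log ⌊Real.exp x⌋₊ + 1 / 2 := by
      have h8 : (⌊Real.exp x⌋₊ : ℝ) + 1 = ⌊Real.exp x⌋₊ * (1 + 1 / ⌊Real.exp x⌋₊) := by
        field_simp
      rw [h8, Real.log_mul h4.ne' (by positivity)]
      have h9 : Real.log (1 + 1 / (⌊Real.exp x⌋₊ : ℝ)) ≤ 1 / ⌊Real.exp x⌋₊ := by
        have := Real.log_le_sub_one_of_pos (show 0 < 1 + 1 / (⌊Real.exp x⌋₊ : ℝ) by positivity)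
        linarith
      have h10 : 1 / (⌊Real.exp x⌋₊ : ℝ) ≤ 1 / 2 := one_div_le_one_div_of_le (by norm_num) h3
      linarith
    linarith

/-- comparison of `log log` with the sum -/
lemma loglog (m n : ℕ) (hm : 2 ≤ m) (hmn : m ≤ n) :
    |(∑ k ∈ Finset.Ioc m n, (Real.log k)⁻¹ * (Real.log k - Real.log ((k - 1 : ℕ) : ℝ))) -
      (Real.log (Real.log n) - Real.log (Real.log m))| ≤ 1 / Real.log m - 1 / Real.log n := by
  induction n, hmn using Nat.le_induction with
  | base => simp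
  | succ n hn ih =>
    have hn2 : 2 ≤ n := hm.trans hn
    have hn0 : (2 : ℝ) ≤ n := by exact_mod_cast hn2
    have hl0 : 0 < Real.log n := Real.log_pos (by linarith)
    have hl1 : Real.log n ≤ Real.log ((n + 1 : ℕ) : ℝ) := by
      apply Real.log_le_log (by linarith)
      push_cast
      linarith
    have hl1' : 0 < Real.log ((n + 1 : ℕ) : ℝ) := by linarith
    have hl2 : Real.log ((n + 1 : ℕ) : ℝ) - Real.log n ≤ 1 := by
      rw [← Real.log_div (by positivity) (by positivity)]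
      have h1 := Real.log_le_sub_one_of_pos (show 0 < ((n + 1 : ℕ) : ℝ) / n by positivity)
      have h2 : ((n + 1 : ℕ) : ℝ) / n ≤ 2 := by
        rw [div_le_iff₀ (by linarith)]
        push_cast
        linarith
      linarith
    rw [Finset.sum_Ioc_succ_top hn, Nat.add_sub_cancel]
    set a := Real.log n with ha
    set b := Real.log ((n + 1 : ℕ) : ℝ) with hb
    -- the step
    have h1 : Real.log b - Real.log a ≤ (b - a) / a := by
      rw [← Real.log_div hl1'.ne' hl0.ne']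
      have h2 := Real.log_le_sub_one_of_pos (div_pos hl1' hl0)
      have h3 : b / a - 1 = (b - a) / a := by field_simp
      linarith
    have h2 : (b - a) / b ≤ Real.log b - Real.log a := by
      rw [← Real.log_div hl1'.ne' hl0.ne']
      have h2 := Real.one_sub_inv_le_log_of_pos (div_pos hl1' hl0)
      have h3 : 1 - (b / a)⁻¹ = (b - a) / b := by field_simp
      linarith
    have h3 : (b - a) / a - (b - a) / b ≤ 1 / a - 1 / b := by
      have h4 : (b - a) / a - (b - a) / b = (b - a) * (1 / a - 1 / b) := by ring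
      have h5 : 0 ≤ 1 / a - 1 / b := by
        rw [sub_nonneg]
        exact one_div_le_one_div_of_le hl0 hl1
      rw [h4]
      exact mul_le_of_le_one_left h5 hl2
    have h4 : b⁻¹ * (b - a) = (b - a) / b := by ring
    rw [h4]
    rw [abs_le] at ih ⊢
    constructor <;> linarith [ih.1, ih.2]

lemma loglog_floor {x : ℝ} (hx : 1 ≤ x) :
    |Real.log (Real.log ⌊Real.exp x⌋₊) - Real.log x| ≤ 1 / x := by
  obtain ⟨h1, h2, h3⟩ := log_floor hx
  have h4 : 0 < Real.log ⌊Real.exp x⌋₊ := by linarith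
  have h5 : Real.log (Real.log ⌊Real.exp x⌋₊) ≤ Real.log x := Real.log_le_log h4 h2
  rw [abs_sub_comm, abs_of_nonneg (by linarith), ← Real.log_div (by linarith) h4.ne']
  have h6 := Real.log_le_sub_one_of_pos (show 0 < x / Real.log ⌊Real.exp x⌋₊ by positivity)
  have h7 : x / Real.log ⌊Real.exp x⌋₊ - 1 ≤ 1 / x := by
    rw [sub_le_iff_le_add, div_le_iff₀ h4]
    have h8 : (1 / x + 1) * (x - 1 / 2) ≤ (1 / x + 1) * Real.log ⌊Real.exp x⌋₊ :=
      mul_le_mul_of_nonneg_left h3 (by positivity)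
    have h9 : x ≤ (1 / x + 1) * (x - 1 / 2) := by
      have h10 : (1 / x + 1) * (x - 1 / 2) = x + (1 / 2 - 1 / (2 * x)) := by
        field_simp
        ring
      rw [h10]
      have h11 : 1 / (2 * x) ≤ 1 / 2 := one_div_le_one_div_of_le (by norm_num) (by linarith)
      linarith
    linarith
  linarith

end CBL

open CBL in
theorem t_CB (h : S_OS) : S_CB := by
  obtain ⟨C, hC, hos⟩ := h
  obtain ⟨c1, hc1⟩ : ∃ c1 : ℝ, c1 = ∑' n, np n := ⟨_, rfl⟩
  have hc10 : 0 ≤ c1 := by rw [hc1]; exact tsum_nonneg np_nonneg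
  refine ⟨2 * C + 2 * c1 + 20, by positivity, fun lo hi hlo hlh => ?_⟩
  have hhi : 1 ≤ hi := hlo.trans hlh
  obtain ⟨m, hm⟩ : ∃ m : ℕ, m = ⌊Real.exp lo⌋₊ := ⟨_, rfl⟩
  obtain ⟨n, hn⟩ : ∃ n : ℕ, n = ⌊Real.exp hi⌋₊ := ⟨_, rfl⟩
  have hmn : m ≤ n := by
    rw [hm, hn]
    exact Nat.floor_le_floor (Real.exp_le_exp.2 hlh)
  obtain ⟨hm2, hmlo, hmlo2⟩ := log_floor hlo
  obtain ⟨hn2, hnhi, hnhi2⟩ := log_floor hhi
  rw [← hm] at hm2 hmlo hmlo2
  rw [← hn] at hn2 hnhi hnhi2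
  have hPB : PB lo hi = (Finset.Ioc m n).filter Nat.Prime := by rw [hm, hn]; exact PB_eq lo hi
  -- the weight
  obtain ⟨g, hg⟩ : ∃ g : ℕ → ℝ, g = fun k : ℕ => (Real.log k)⁻¹ := ⟨_, rfl⟩
  have hlogk : ∀ k, m < k → 0 < Real.log (k : ℝ) := by
    intro k hk
    apply Real.log_pos
    exact_mod_cast (by omega : 1 < k)
  have hg0 : ∀ k, m < k → 0 ≤ g k := by
    intro k hk
    rw [hg]
    exact (inv_pos.2 (hlogk k hk)).le
  have hgm : ∀ k, m < k → g (k + 1) ≤ g k := by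
    intro k hk
    rw [hg]
    refine inv_anti₀ (hlogk k hk) ?_
    apply Real.log_le_log
    · exact_mod_cast (by omega : 0 < k)
    · push_cast
      linarith
  have hgm1 : g (m + 1) ≤ 1 / lo := by
    rw [hg, one_div]
    refine inv_anti₀ (by linarith) ?_
    have h1 : Real.exp lo ≤ ((m + 1 : ℕ) : ℝ) := by
      rw [hm]
      push_cast
      exact (Nat.lt_floor_add_one _).le
    have h2 := Real.log_le_log (Real.exp_pos lo) h1
    rwa [Real.log_exp] at h2
  constructor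
  · -- the variance
    have hsum : ∑ p ∈ PB lo hi, 1 / (p : ℝ) = ∑ k ∈ Finset.Ioc m n, g k * pr k := by
      rw [hPB, Finset.sum_filter]
      refine Finset.sum_congr rfl fun k hk => ?_
      rw [Finset.mem_Ioc] at hk
      have h1 := hlogk k hk.1
      unfold pr
      rw [hg]
      split_ifs
      · field_simp
      · simp
    obtain ⟨c, hc⟩ : ∃ c : ℕ → ℝ, c = fun k : ℕ =>
        pr k - (Real.log k - Real.log ((k - 1 : ℕ) : ℝ)) := ⟨_, rfl⟩
    have hlogt : ∀ j, m ≤ j → ∑ k ∈ Finset.Ioc m j, (Real.log k - Real.log ((k - 1 : ℕ) : ℝ)) =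
        Real.log j - Real.log m := by
      intro j hj
      induction j, hj using Nat.le_induction with
      | base => simp
      | succ j hj ih =>
        rw [Finset.sum_Ioc_succ_top hj, ih, Nat.add_sub_cancel]
        ring
    have hM : ∀ j, m ≤ j → ‖∑ k ∈ Finset.Ioc m j, c k‖ ≤ 2 * (6 + c1) := by
      intro j hj
      rw [hc]
      rw [Finset.sum_sub_distrib, hlogt j hj, Ioc_eq_sub pr hj, Real.norm_eq_abs]
      have h1 := mert_pr j (by omega)
      have h2 := mert_pr m (by omega)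
      rw [← hc1] at h1 h2
      rw [abs_le] at h1 h2 ⊢
      constructor <;> linarith [h1.1, h1.2, h2.1, h2.2]
    have hA := abel_le c g m n hmn _ hM hgm hg0
    have hA2 : ∑ k ∈ Finset.Ioc m n, g k • c k = (∑ k ∈ Finset.Ioc m n, g k * pr k) -
        ∑ k ∈ Finset.Ioc m n, (Real.log k)⁻¹ * (Real.log k - Real.log ((k - 1 : ℕ) : ℝ)) := by
      rw [← Finset.sum_sub_distrib]
      refine Finset.sum_congr rfl fun k _ => ?_
      rw [hc, hg, smul_eq_mul]
      ring
    rw [hA2, ← hsum, Real.norm_eq_abs] at hA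
    have hB := loglog m n hm2 hmn
    have hlm : 0 < Real.log m := by linarith
    have hln : 0 < Real.log n := by linarith
    have hB2 : 1 / Real.log m - 1 / Real.log n ≤ 2 / lo := by
      have h1 : 1 / Real.log m ≤ 2 / lo := by
        rw [div_le_div_iff₀ hlm (by linarith)]
        linarith
      have h2 : 0 ≤ 1 / Real.log n := by positivity
      linarith
    have hD1 := loglog_floor hlo
    have hD2 := loglog_floor hhi
    rw [← hm] at hD1
    rw [← hn] at hD2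
    have hhl : 1 / hi ≤ 1 / lo := one_div_le_one_div_of_le (by linarith) hlh
    have hE : Real.log (hi / lo) = Real.log hi - Real.log lo :=
      Real.log_div (by linarith) (by linarith)
    have hA3 : 2 * (6 + c1) * g (m + 1) ≤ 2 * (6 + c1) * (1 / lo) :=
      mul_le_mul_of_nonneg_left hgm1 (by positivity)
    have hlo0 : 0 < 1 / lo := by positivity
    have hfin : (2 * C + 2 * c1 + 20) / lo = 2 * (6 + c1) * (1 / lo) + 2 / lo + 1 / lo + 1 / lo +
        2 * C * (1 / lo) + 4 * (1 / lo) := by ring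
    have hC0 : 0 ≤ 2 * C * (1 / lo) := by positivity
    rw [hE, hfin]
    rw [abs_le] at hA hB hD1 hD2 ⊢
    constructor <;> linarith [hA.1, hA.2, hB.1, hB.2, hD1.1, hD1.2, hD2.1, hD2.2]
  · -- the covariances
    intro τ hτ hτ1
    obtain ⟨c, hc⟩ : ∃ c : ℕ → ℂ, c = fun k : ℕ => ((pr k : ℝ) : ℂ) * ee k τ := ⟨_, rfl⟩
    have hsum : ∑ p ∈ PB lo hi, Real.cos (τ * Real.log p) / (p : ℝ) =
        (∑ k ∈ Finset.Ioc m n, g k • c k).re := by
      rw [hPB, Finset.sum_filter, Complex.re_sum]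
      refine Finset.sum_congr rfl fun k hk => ?_
      rw [Finset.mem_Ioc] at hk
      have h1 := hlogk k hk.1
      rw [hc]
      simp only [Complex.real_smul, Complex.re_ofReal_mul, ee_re]
      unfold pr
      rw [hg]
      split_ifs
      · field_simp
      · simp
    have hM : ∀ j, m ≤ j → ‖∑ k ∈ Finset.Ioc m j, c k‖ ≤ 2 * ((C + c1) / τ) := by
      intro j hj
      rw [Ioc_eq_sub c hj]
      have h1 := osc_pr hos τ hτ hτ1 j
      have h2 := osc_pr hos τ hτ hτ1 m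
      rw [← hc1] at h1 h2
      rw [hc]
      refine (norm_sub_le _ _).trans ?_
      linarith
    have hA := abel_le c g m n hmn _ hM hgm hg0
    rw [hsum]
    refine (Complex.abs_re_le_norm _).trans (hA.trans ?_)
    calc 2 * ((C + c1) / τ) * g (m + 1) ≤ 2 * ((C + c1) / τ) * (1 / lo) :=
          mul_le_mul_of_nonneg_left hgm1 (by positivity)
      _ = (2 * C + 2 * c1) / (τ * lo) := by field_simp
      _ ≤ (2 * C + 2 * c1 + 20) / (τ * lo) :=
          div_le_div_of_nonneg_right (by linarith) (by positivity)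

end Pool.Agent.H203.HX
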