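import Pool.Agent.H203.HX.Defs2
import Pool.Agent.H203.HX.CB
import Pool.Agent.H203.GE.MRT

set_option autoImplicit false

/-! Large discrepancies of the zeros of several L-functions, part ORT: nonprincipal characters. -/

open Complex Filter Topology Set MeasureTheory

namespace Pool.Agent.H203.HX

open Pool.Agent.H203.ME (ee)

namespace ORTL

open Pool.Agent.H203.GE.MRTL in
/-- the main lemma with an explicit constant (compare `MRTL.main` with `ρ = 0`) -/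
theorem mainA (f : ℕ → ℂ) (hf : ∀ a b : ℕ, a ≠ 0 → b ≠ 0 → f (a * b) = f a * f b)
    (hf1 : ∀ n, ‖f n‖ ≤ 1) (L : ℂ) (hL : L ≠ 0) (K : ℝ) (hK : 0 ≤ K)
    (hS : ∀ M : ℕ, 1 ≤ M → ‖∑ m ∈ Finset.Icc 1 M, f m / m - L‖ ≤ K / M) (N : ℕ) :
    ‖∑ n ∈ Finset.Icc 1 N, ((ArithmeticFunction.vonMangoldt n / n : ℝ) : ℂ) * f n‖ ≤
      15 * K / ‖L‖ := by
  obtain ⟨S, hSdef⟩ : ∃ S : ℕ → ℂ, S = fun n => ∑ m ∈ Finset.Icc 1 n, f m / m := ⟨_, rfl⟩
  have hSn : ∀ n, S n = ∑ m ∈ Finset.Icc 1 n, f m / m := fun n => by rw [hSdef]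
  obtain ⟨E, hEdef⟩ : ∃ E : ℕ → ℂ, E = fun n => S n - L := ⟨_, rfl⟩
  have hE : ∀ M : ℕ, 1 ≤ M → ‖E M‖ ≤ K / M := by
    intro M hM
    rw [hEdef]
    simp only [hSn]
    exact hS M hM
  have hSE : ∀ n, S n = L + E n := by
    intro n; rw [hEdef]; ring
  rcases Nat.eq_zero_or_pos N with rfl | hN
  · simp
    positivity
  have hLn : 0 < ‖L‖ := norm_pos_iff.2 hL
  rw [le_div_iff₀ hLn, mul_comm, ← norm_mul]
  have hN0 : (0 : ℝ) < N := by exact_mod_cast hN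
  -- partial summation
  have hU := parts S (fun m => f m / m) (fun n => (Real.log n : ℂ)) hSn N hN
  have hV := conv f hf N
  rw [hU] at hV
  have key : L * ∑ n ∈ Finset.Icc 1 N, ((ArithmeticFunction.vonMangoldt n / n : ℝ) : ℂ) * f n =
      E N * (Real.log N : ℂ) -
      (∑ k ∈ Finset.Ico 1 N, E k * ((Real.log ((k + 1 : ℕ) : ℝ) : ℂ) - (Real.log (k : ℝ) : ℂ))) -
      ∑ d ∈ Finset.Icc 1 N, ((ArithmeticFunction.vonMangoldt d / d : ℝ) : ℂ) * f d * E (N / d) := by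
    have t1 : ∑ k ∈ Finset.Ico 1 N, S k * ((Real.log ((k + 1 : ℕ) : ℝ) : ℂ) -
        (Real.log (k : ℝ) : ℂ)) = L * (Real.log N : ℂ) +
        (∑ k ∈ Finset.Ico 1 N, E k * ((Real.log ((k + 1 : ℕ) : ℝ) : ℂ) - (Real.log (k : ℝ) : ℂ))) := by
      have t2 : L * (Real.log N : ℂ) = ∑ k ∈ Finset.Ico 1 N, L *
          ((Real.log ((k + 1 : ℕ) : ℝ) : ℂ) - (Real.log (k : ℝ) : ℂ)) := by
        rw [← Finset.mul_sum]
        congr 1
        clear hU hV
        induction N, hN using Nat.le_induction with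
        | base => simp
        | succ n hn ih =>
          have hn0 : (0 : ℝ) < n := by exact_mod_cast hn
          rw [Finset.sum_Ico_succ_top hn, ← ih hn0]
          ring
      rw [t2, ← Finset.sum_add_distrib]
      refine Finset.sum_congr rfl fun k _ => ?_
      rw [hSE k]
      ring
    have t3 : ∑ d ∈ Finset.Icc 1 N, ((ArithmeticFunction.vonMangoldt d / d : ℝ) : ℂ) * f d *
        ∑ m ∈ Finset.Icc 1 (N / d), f m / m =
        L * (∑ n ∈ Finset.Icc 1 N, ((ArithmeticFunction.vonMangoldt n / n : ℝ) : ℂ) * f n) +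
        ∑ d ∈ Finset.Icc 1 N, ((ArithmeticFunction.vonMangoldt d / d : ℝ) : ℂ) * f d *
          E (N / d) := by
      rw [Finset.mul_sum, ← Finset.sum_add_distrib]
      refine Finset.sum_congr rfl fun d _ => ?_
      rw [← hSn, hSE (N / d)]
      ring
    rw [t1, t3] at hV
    have t4 := hSE N
    rw [t4] at hV
    linear_combination -hV
  rw [key]
  have r1 : ‖E N * (Real.log N : ℂ)‖ ≤ K := by
    rw [norm_mul, Complex.norm_real, Real.norm_eq_abs,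
      abs_of_nonneg (Real.log_natCast_nonneg N)]
    have h1 : Real.log N ≤ N := (Real.log_le_sub_one_of_pos hN0).trans (by linarith)
    calc ‖E N‖ * Real.log N ≤ K / N * N :=
          mul_le_mul (hE N hN) h1 (Real.log_natCast_nonneg N) (by positivity)
      _ = K := by field_simp
  have r2 : ‖∑ k ∈ Finset.Ico 1 N, E k * ((Real.log ((k + 1 : ℕ) : ℝ) : ℂ) -
      (Real.log (k : ℝ) : ℂ))‖ ≤ 2 * K := by
    refine (norm_sum_le _ _).trans ?_
    have h1 : ∀ k ∈ Finset.Ico 1 N, ‖E k * ((Real.log ((k + 1 : ℕ) : ℝ) : ℂ) -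
        (Real.log (k : ℝ) : ℂ))‖ ≤ K * (1 / (k : ℝ) ^ 2) := by
      intro k hk
      have hk1 := (Finset.mem_Ico.1 hk).1
      have hk0 : (0 : ℝ) < k := by exact_mod_cast hk1
      obtain ⟨l1, l2⟩ := log_step k hk1
      rw [norm_mul, ← Complex.ofReal_sub, Complex.norm_real, Real.norm_eq_abs, abs_of_nonneg l1]
      calc ‖E k‖ * (Real.log ((k + 1 : ℕ) : ℝ) - Real.log k) ≤ K / k * (1 / k) :=
            mul_le_mul (hE k hk1) l2 l1 (by positivity)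
        _ = _ := by ring
    refine (Finset.sum_le_sum h1).trans ?_
    rw [← Finset.mul_sum]
    have := mul_le_mul_of_nonneg_left (sq_sum N) hK
    linarith
  have r3 : ‖∑ d ∈ Finset.Icc 1 N, ((ArithmeticFunction.vonMangoldt d / d : ℝ) : ℂ) * f d *
      E (N / d)‖ ≤ 12 * K := by
    refine cheb_div N hN _ K hK f hf1 ?_
    intro d hd
    obtain ⟨d1, d2⟩ := Finset.mem_Icc.1 hd
    have hM1 : 1 ≤ N / d := (Nat.one_le_div_iff (by omega)).2 d2
    refine (hE _ hM1).trans ?_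
    rw [div_eq_mul_one_div]
    exact mul_le_mul_of_nonneg_left (inv_floor N d d1 d2) hK
  have r4 := (norm_sub_le (E N * (Real.log N : ℂ) -
      (∑ k ∈ Finset.Ico 1 N, E k * ((Real.log ((k + 1 : ℕ) : ℝ) : ℂ) - (Real.log (k : ℝ) : ℂ))))
      (∑ d ∈ Finset.Icc 1 N, ((ArithmeticFunction.vonMangoldt d / d : ℝ) : ℂ) * f d *
        E (N / d))).trans (add_le_add ((norm_sub_le _ _).trans (add_le_add r1 r2)) r3)
  linarith

open Pool.Agent.H307R2 Pool.Agent.H203.GE.MRTL in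
/-- a non-principal character with a shift, explicit constant -/
theorem caseU (Q : ℕ) [NeZero Q] (ψ : DirichletCharacter ℂ Q) (hψ : ψ ≠ 1) (τ : ℝ) (N : ℕ) :
    ‖∑ n ∈ Finset.Icc 1 N, ((ArithmeticFunction.vonMangoldt n / n : ℝ) : ℂ) *
      (ψ n * ee n τ)‖ ≤ 15 * (‖1 + (τ : ℂ) * I‖ * Q) / ‖ψ.LFunction (1 + (τ : ℂ) * I)‖ := by
  obtain ⟨s, hs⟩ : ∃ s : ℂ, s = 1 + (τ : ℂ) * I := ⟨_, rfl⟩
  have hsre : s.re = 1 := by rw [hs]; simp
  rw [← hs]
  refine mainA (fun n => ψ n * ee n τ) ?_ ?_ (ψ.LFunction s) ?_ (‖s‖ * Q) (by positivity) ?_ N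
  · intro a b ha hb
    rw [ee_mul a b ha hb]
    push_cast
    rw [map_mul]
    ring
  · intro n
    rw [norm_mul, ee_norm, mul_one]
    exact ψ.norm_le_one _
  · exact DirichletCharacter.LFunction_ne_zero_of_one_le_re ψ (Or.inl hψ) hsre.ge
  · intro M hM
    have h := LFunction_eq hψ hM (s := s) (by rw [hsre]; norm_num)
    have h1 : ∑ m ∈ Finset.Icc 1 M, ψ m * ee m τ / m =
        ∑ n ∈ Finset.Icc 1 M, ψ (n : ZMod Q) * (n : ℂ) ^ (-s) := by
      refine Finset.sum_congr rfl fun n hn => ?_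
      have hn0 : n ≠ 0 := by have := (Finset.mem_Icc.1 hn).1; omega
      rw [mul_div_assoc, ee_cpow n hn0, hs]
    rw [h1, h]
    have h2 : ∑ n ∈ Finset.Icc 1 M, ψ (n : ZMod Q) * (n : ℂ) ^ (-s) -
        (∑ n ∈ Finset.Icc 1 M, ψ (n : ZMod Q) * (n : ℂ) ^ (-s) + s * TM M (Ech ψ M) s) =
        -(s * TM M (Ech ψ M) s) := by ring
    rw [h2, norm_neg, norm_mul]
    have h3 := TM_norm_le hM (Ech_norm_le hψ M) (s := s) (by rw [hsre]; norm_num)
    rw [hsre, Real.rpow_neg_one, div_one] at h3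
    calc ‖s‖ * ‖TM M (Ech ψ M) s‖ ≤ ‖s‖ * (Q * (M : ℝ)⁻¹) :=
          mul_le_mul_of_nonneg_left h3 (norm_nonneg _)
      _ = _ := by ring

/-- uniformity in the shift -/
theorem caseV (Q : ℕ) [NeZero Q] (ψ : DirichletCharacter ℂ Q) (hψ : ψ ≠ 1) :
    ∃ C : ℝ, 0 < C ∧ ∀ τ : ℝ, |τ| ≤ 1 → ∀ N : ℕ,
    ‖∑ n ∈ Finset.Icc 1 N, ((ArithmeticFunction.vonMangoldt n / n : ℝ) : ℂ) *
      (ψ n * ee n τ)‖ ≤ C := by
  have hcont : ContinuousOn (fun τ : ℝ => ‖ψ.LFunction (1 + (τ : ℂ) * I)‖) (Set.Icc (-1) 1) := by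
    have h1 : Continuous (fun τ : ℝ => ψ.LFunction (1 + (τ : ℂ) * I)) :=
      (DirichletCharacter.differentiable_LFunction hψ).continuous.comp
        (continuous_const.add (Complex.continuous_ofReal.mul continuous_const))
    exact h1.norm.continuousOn
  obtain ⟨τ0, -, hmin⟩ := isCompact_Icc.exists_isMinOn
    (Set.nonempty_Icc.2 (by norm_num : (-1 : ℝ) ≤ 1)) hcont
  obtain ⟨c, hc⟩ : ∃ c : ℝ, c = ‖ψ.LFunction (1 + (τ0 : ℂ) * I)‖ := ⟨_, rfl⟩
  have hc0 : 0 < c := by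
    rw [hc]
    refine norm_pos_iff.2 (DirichletCharacter.LFunction_ne_zero_of_one_le_re ψ (Or.inl hψ) ?_)
    simp
  have hQ : (0 : ℝ) < Q := by exact_mod_cast NeZero.pos Q
  refine ⟨15 * (2 * Q) / c, by positivity, fun τ hτ N => ?_⟩
  refine (caseU Q ψ hψ τ N).trans ?_
  have h1 : c ≤ ‖ψ.LFunction (1 + (τ : ℂ) * I)‖ := by
    rw [hc]
    exact hmin (Set.mem_Icc.2 (abs_le.1 hτ))
  have h2 : ‖1 + (τ : ℂ) * I‖ ≤ 2 := by
    refine (norm_add_le _ _).trans ?_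
    rw [norm_one, norm_mul, Complex.norm_I, mul_one, Complex.norm_real, Real.norm_eq_abs]
    linarith
  apply div_le_div₀ (by positivity) _ hc0 h1
  have h3 : ‖1 + (τ : ℂ) * I‖ * Q ≤ 2 * Q := mul_le_mul_of_nonneg_right h2 hQ.le
  linarith

open CBL in
/-- the sums over the primes -/
theorem prU (Q : ℕ) [NeZero Q] (ψ : DirichletCharacter ℂ Q) {C : ℝ} (τ : ℝ)
    (h : ∀ N : ℕ, ‖∑ n ∈ Finset.Icc 1 N, ((ArithmeticFunction.vonMangoldt n / n : ℝ) : ℂ) *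
      (ψ n * ee n τ)‖ ≤ C) (N : ℕ) :
    ‖∑ n ∈ Finset.Icc 1 N, ((pr n : ℝ) : ℂ) * (ψ n * ee n τ)‖ ≤ C + ∑' n, np n := by
  have h1 : ∑ n ∈ Finset.Icc 1 N, ((pr n : ℝ) : ℂ) * (ψ n * ee n τ) = (∑ n ∈ Finset.Icc 1 N,
      ((ArithmeticFunction.vonMangoldt n / n : ℝ) : ℂ) * (ψ n * ee n τ)) -
      ∑ n ∈ Finset.Icc 1 N, ((np n : ℝ) : ℂ) * (ψ n * ee n τ) := by
    rw [← Finset.sum_sub_distrib]
    refine Finset.sum_congr rfl fun n _ => ?_
    rw [pr_eq n, Complex.ofReal_sub, sub_mul]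
  have h2 : ‖∑ n ∈ Finset.Icc 1 N, ((np n : ℝ) : ℂ) * (ψ n * ee n τ)‖ ≤ ∑' n, np n := by
    refine (norm_sum_le _ _).trans ?_
    have h3 : ∀ n ∈ Finset.Icc 1 N, ‖((np n : ℝ) : ℂ) * (ψ n * ee n τ)‖ ≤ np n := by
      intro n _
      rw [norm_mul, norm_mul, norm_ee, mul_one, Complex.norm_real, Real.norm_eq_abs,
        abs_of_nonneg (np_nonneg n)]
      exact mul_le_of_le_one_right (np_nonneg n) (ψ.norm_le_one _)
    refine (Finset.sum_le_sum h3).trans ?_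
    exact np_summable.sum_le_tsum _ fun n _ => np_nonneg n
  rw [h1]
  exact (norm_sub_le _ _).trans (add_le_add (h N) h2)

end ORTL

open CBL ORTL in
theorem t_ORT : S_ORT := by
  intro q _ ψ hψ
  obtain ⟨C, hC, hos⟩ := caseV q ψ hψ
  obtain ⟨c1, hc1⟩ : ∃ c1 : ℝ, c1 = ∑' n, np n := ⟨_, rfl⟩
  have hc10 : 0 ≤ c1 := by rw [hc1]; exact tsum_nonneg np_nonneg
  refine ⟨2 * (C + c1), by positivity, fun lo hi hlo hlh τ hτ => ?_⟩
  have hhi : 1 ≤ hi := hlo.trans hlh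
  obtain ⟨m, hm⟩ : ∃ m : ℕ, m = ⌊Real.exp lo⌋₊ := ⟨_, rfl⟩
  obtain ⟨n, hn⟩ : ∃ n : ℕ, n = ⌊Real.exp hi⌋₊ := ⟨_, rfl⟩
  have hmn : m ≤ n := by
    rw [hm, hn]
    exact Nat.floor_le_floor (Real.exp_le_exp.2 hlh)
  obtain ⟨hm2, hmlo, hmlo2⟩ := log_floor hlo
  rw [← hm] at hm2 hmlo hmlo2
  have hPB : PB lo hi = (Finset.Ioc m n).filter Nat.Prime := by rw [hm, hn]; exact PB_eq lo hi
  -- the weight
  obtain ⟨g, hg⟩ : ∃ g : ℕ → ℝ, g = fun k : ℕ => (Real.log k)⁻¹ := ⟨_, rfl⟩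
  have hlogk : ∀ k, m < k → 0 < Real.log (k : ℝ) := by
    intro k hk
    apply Real.log_pos
    exact_mod_cast (by omega : 1 < k)
  have hg0 : ∀ k, m < k → 0 ≤ g k := by
    intro k hk
    rw [hg]
    exact (inv_pos.2 (hlogk k hk)).le
  have hgm : ∀ k, m < k → g (k + 1) ≤ g k := by
    intro k hk
    rw [hg]
    refine inv_anti₀ (hlogk k hk) ?_
    apply Real.log_le_log
    · exact_mod_cast (by omega : 0 < k)
    · push_cast
      linarith
  have hgm1 : g (m + 1) ≤ 1 / lo := by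
    rw [hg, one_div]
    refine inv_anti₀ (by linarith) ?_
    have h1 : Real.exp lo ≤ ((m + 1 : ℕ) : ℝ) := by
      rw [hm]
      push_cast
      exact (Nat.lt_floor_add_one _).le
    have h2 := Real.log_le_log (Real.exp_pos lo) h1
    rwa [Real.log_exp] at h2
  obtain ⟨c, hc⟩ : ∃ c : ℕ → ℂ, c = fun k : ℕ => ((pr k : ℝ) : ℂ) * (ψ k * ee k τ) := ⟨_, rfl⟩
  have hsum : ∑ p ∈ PB lo hi, ψ p * ee p τ / p = ∑ k ∈ Finset.Ioc m n, g k • c k := by
    rw [hPB, Finset.sum_filter]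
    refine Finset.sum_congr rfl fun k hk => ?_
    rw [Finset.mem_Ioc] at hk
    have h1 := hlogk k hk.1
    have h1c : ((Real.log k : ℝ) : ℂ) ≠ 0 := by exact_mod_cast h1.ne'
    rw [hc]
    simp only [Complex.real_smul]
    unfold pr
    rw [hg]
    split_ifs
    · have hk0 : (k : ℂ) ≠ 0 := by
        have : k ≠ 0 := by omega
        exact_mod_cast this
      push_cast
      rw [← Complex.natCast_log] at *
      field_simp
    · simp
  have hM : ∀ j, m ≤ j → ‖∑ k ∈ Finset.Ioc m j, c k‖ ≤ 2 * (C + c1) := by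
    intro j hj
    rw [Ioc_eq_sub c hj]
    have h1 := prU q ψ τ (hos τ hτ) j
    have h2 := prU q ψ τ (hos τ hτ) m
    rw [← hc1] at h1 h2
    rw [hc]
    refine (norm_sub_le _ _).trans ?_
    linarith
  have hA := abel_le c g m n hmn _ hM hgm hg0
  rw [hsum]
  refine hA.trans ?_
  calc 2 * (C + c1) * g (m + 1) ≤ 2 * (C + c1) * (1 / lo) :=
        mul_le_mul_of_nonneg_left hgm1 (by positivity)
    _ = 2 * (C + c1) / lo := by ring

end Pool.Agent.H203.HX
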