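import Pool.Agent.H203.HX.Defs2
import Pool.Agent.H203.HX.SM

set_option autoImplicit false
set_option linter.unusedVariables false

/-! (SMU) of project HX (helper980): first and second moment of the total weight, for coefficients with `CBu`. -/

open Complex Filter Topology Set MeasureTheory

namespace Pool.Agent.H203.HX

open Pool.Agent.H203.ME (ee)

namespace SMUL

open SML (P2_half P2_half_pos P2_half_sq P2_one_le P2_nonneg P2_half_ge ee_cont Yb_cont Wt_cont Wt_nonneg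
  prod_bound second_moment count sum_up eb_ge eb_mono eb_log pi_le numeric large)

/-- the expectation of a single weight -/
theorem single {u : ℕ → ℂ} {h L δ κ T a e : ℝ} {K : ℕ}
    (hEP : ∀ (x : ℝ) (z c : Fin K → ℝ), (∀ j, c j = 1 / 2 ∨ c j = 1) →
      |(1 / T * ∫ t in T..(2 * T), ∏ j : Fin K, Real.exp (-(c j / 2 *
        ((Yb u (eb h L δ κ j) (eb h L δ κ (j + 1)) (t + x) - a) ^ 2 +
          (Yb u (eb h L δ κ j) (eb h L δ κ (j + 1)) (t + z j) - a) ^ 2)))) -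
      ∏ j : Fin K, P2 (c j) a (Vu u (eb h L δ κ j) (eb h L δ κ (j + 1)) 0)
        (Vu u (eb h L δ κ j) (eb h L δ κ (j + 1)) (x - z j))| ≤ e) (x : ℝ) :
    |(1 / T * ∫ t in T..(2 * T), Wt u h L δ κ K a (t + x)) - Ewu u h L δ κ K a| ≤ e := by
  have h1 := hEP x (fun _ => x) (fun _ => 1 / 2) (fun _ => Or.inl rfl)
  have h2 : ∀ t, ∏ j : Fin K, Real.exp (-((1 / 2 : ℝ) / 2 *
        ((Yb u (eb h L δ κ j) (eb h L δ κ (j + 1)) (t + x) - a) ^ 2 +
          (Yb u (eb h L δ κ j) (eb h L δ κ (j + 1)) (t + x) - a) ^ 2))) =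
      Wt u h L δ κ K a (t + x) := by
    intro t
    unfold Wt
    refine Finset.prod_congr rfl fun j _ => ?_
    congr 1
    ring
  simp only [h2, sub_self] at h1
  exact h1

/-- the expectation of a product of two weights -/
theorem pair {u : ℕ → ℂ} {h L δ κ T a e : ℝ} {K : ℕ} (hT : 0 < T)
    (hEP : ∀ (x : ℝ) (z c : Fin K → ℝ), (∀ j, c j = 1 / 2 ∨ c j = 1) →
      |(1 / T * ∫ t in T..(2 * T), ∏ j : Fin K, Real.exp (-(c j / 2 *
        ((Yb u (eb h L δ κ j) (eb h L δ κ (j + 1)) (t + x) - a) ^ 2 +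
          (Yb u (eb h L δ κ j) (eb h L δ κ (j + 1)) (t + z j) - a) ^ 2)))) -
      ∏ j : Fin K, P2 (c j) a (Vu u (eb h L δ κ j) (eb h L δ κ (j + 1)) 0)
        (Vu u (eb h L δ κ j) (eb h L δ κ (j + 1)) (x - z j))| ≤ e) (m : ℕ) (x x' : ℝ) :
    (1 / T * ∫ t in T..(2 * T), Wt u h L δ κ K a (t + x) * Wt u h L δ κ K a (t + x')) ≤
      (∏ j : Fin K, if (j : ℕ) < m then P2 (1 / 2) a (Vu u (eb h L δ κ j) (eb h L δ κ (j + 1)) 0)
        (Vu u (eb h L δ κ j) (eb h L δ κ (j + 1)) 0) else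
        P2 1 a (Vu u (eb h L δ κ j) (eb h L δ κ (j + 1)) 0)
          (Vu u (eb h L δ κ j) (eb h L δ κ (j + 1)) (x - x'))) + e := by
  have h1 := hEP x (fun j => if (j : ℕ) < m then x else x')
    (fun j => if (j : ℕ) < m then 1 / 2 else 1) (fun j => by
      by_cases hj : (j : ℕ) < m
      · exact Or.inl (if_pos hj)
      · exact Or.inr (if_neg hj))
  have h2 := (abs_le.1 h1).2
  have h3 : ∏ j : Fin K, P2 (if (j : ℕ) < m then 1 / 2 else 1) a
        (Vu u (eb h L δ κ j) (eb h L δ κ (j + 1)) 0)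
        (Vu u (eb h L δ κ j) (eb h L δ κ (j + 1)) (x - if (j : ℕ) < m then x else x')) =
      ∏ j : Fin K, if (j : ℕ) < m then P2 (1 / 2) a (Vu u (eb h L δ κ j) (eb h L δ κ (j + 1)) 0)
        (Vu u (eb h L δ κ j) (eb h L δ κ (j + 1)) 0) else
        P2 1 a (Vu u (eb h L δ κ j) (eb h L δ κ (j + 1)) 0)
          (Vu u (eb h L δ κ j) (eb h L δ κ (j + 1)) (x - x')) := by
    refine Finset.prod_congr rfl fun j _ => ?_
    by_cases hj : (j : ℕ) < m
    · simp only [if_pos hj, sub_self]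
    · simp only [if_neg hj]
  rw [h3] at h2
  have h4 : (1 / T * ∫ t in T..(2 * T), Wt u h L δ κ K a (t + x) * Wt u h L δ κ K a (t + x')) ≤
      1 / T * ∫ t in T..(2 * T), ∏ j : Fin K, Real.exp (-((if (j : ℕ) < m then 1 / 2 else 1) / 2 *
        ((Yb u (eb h L δ κ j) (eb h L δ κ (j + 1)) (t + x) - a) ^ 2 +
          (Yb u (eb h L δ κ j) (eb h L δ κ (j + 1)) (t + if (j : ℕ) < m then x else x') - a) ^ 2))) := by
    refine mul_le_mul_of_nonneg_left ?_ (by positivity)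
    refine intervalIntegral.integral_mono_on (by linarith) ?_ ?_ ?_
    · refine Continuous.intervalIntegrable ?_ _ _
      exact ((Wt_cont u h L δ κ K a).comp (continuous_id.add continuous_const)).mul
        ((Wt_cont u h L δ κ K a).comp (continuous_id.add continuous_const))
    · refine Continuous.intervalIntegrable ?_ _ _
      refine continuous_finsetProd _ fun j _ => Real.continuous_exp.comp (Continuous.neg
        (continuous_const.mul (Continuous.add (Continuous.pow (Continuous.sub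
          ((Yb_cont u _ _).comp (continuous_id.add continuous_const)) continuous_const) 2)
          (Continuous.pow (Continuous.sub
          ((Yb_cont u _ _).comp (continuous_id.add continuous_const)) continuous_const) 2))))
    · intro t _
      unfold Wt
      rw [← Finset.prod_mul_distrib]
      refine Finset.prod_le_prod (fun j _ => by positivity) fun j _ => ?_
      rw [← Real.exp_add]
      refine Real.exp_le_exp.2 ?_
      by_cases hj : (j : ℕ) < m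
      · simp only [if_pos hj]
        have := sq_nonneg (Yb u (eb h L δ κ j) (eb h L δ κ (j + 1)) (t + x') - a)
        linarith
      · simp only [if_neg hj]
        linarith
  linarith


theorem Vu_zero (u : ℕ → ℂ) (lo hi : ℝ) :
    Vu u lo hi 0 = 1 / (2 * Real.pi ^ 2) * ∑ p ∈ PB lo hi, ‖u p‖ ^ 2 / (p : ℝ) := by
  unfold Vu
  simp only [zero_mul, Real.cos_zero, mul_one]

theorem Vu_nonneg (u : ℕ → ℂ) (lo hi : ℝ) : 0 ≤ Vu u lo hi 0 := by
  rw [Vu_zero]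
  have : 0 ≤ ∑ p ∈ PB lo hi, ‖u p‖ ^ 2 / (p : ℝ) := Finset.sum_nonneg fun p _ => by positivity
  positivity

theorem Vu_abs (u : ℕ → ℂ) (lo hi τ : ℝ) : Vu u lo hi |τ| = Vu u lo hi τ := by
  rcases abs_cases τ with ⟨h, _⟩ | ⟨h, _⟩
  · rw [h]
  · rw [h]
    unfold Vu
    congr 1
    refine Finset.sum_congr rfl fun p _ => ?_
    rw [neg_mul, Real.cos_neg]


theorem V_near {u : ℕ → ℂ} {C : ℝ} (hC0 : 0 < C)
    (hC : ∀ lo hi : ℝ, 1 ≤ lo → lo ≤ hi →
      |∑ p ∈ PB lo hi, ‖u p‖ ^ 2 / (p : ℝ) - Real.log (hi / lo)| ≤ C / lo ∧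
      ∀ τ : ℝ, 0 < τ → τ ≤ 1 → |∑ p ∈ PB lo hi, ‖u p‖ ^ 2 * Real.cos (τ * Real.log p) / p| ≤ C / (τ * lo))
    {h L δ κ : ℝ} (h0 : 0 < h) (h2 : h ≤ 1 / 2) (hL : 1 ≤ L) (hδ : 0 < δ) (hκ : 0 ≤ κ) (j : ℕ) :
    |Vu u (eb h L δ κ j) (eb h L δ κ (j + 1)) 0 - κ * Real.log L / (2 * Real.pi ^ 2)| ≤
      C * L ^ (-δ) := by
  have h1 := eb_ge (δ := δ) h0 h2 hL hκ j
  have hLd : 1 ≤ L ^ δ := Real.one_le_rpow hL hδ.le
  have h3 := (hC _ _ (hLd.trans h1) (eb_mono (δ := δ) h0 hL hκ j)).1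
  rw [eb_log h0 hL] at h3
  rw [Vu_zero]
  have e1 : 1 / (2 * Real.pi ^ 2) * (∑ p ∈ PB (eb h L δ κ j) (eb h L δ κ (j + 1)), ‖u p‖ ^ 2 / (p : ℝ)) -
      κ * Real.log L / (2 * Real.pi ^ 2) = 1 / (2 * Real.pi ^ 2) *
        (∑ p ∈ PB (eb h L δ κ j) (eb h L δ κ (j + 1)), ‖u p‖ ^ 2 / (p : ℝ) - κ * Real.log L) := by ring
  have hpp : 0 < 1 / (2 * Real.pi ^ 2) := by positivity
  rw [e1, abs_mul, abs_of_pos hpp, Real.rpow_neg (by linarith), ← div_eq_mul_inv]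
  calc 1 / (2 * Real.pi ^ 2) *
        |∑ p ∈ PB (eb h L δ κ j) (eb h L δ κ (j + 1)), ‖u p‖ ^ 2 / (p : ℝ) - κ * Real.log L|
      ≤ 1 * (C / eb h L δ κ j) := mul_le_mul pi_le h3 (abs_nonneg _) zero_le_one
    _ ≤ C / L ^ δ := by
        rw [one_mul]
        exact div_le_div_of_nonneg_left hC0.le (by positivity) h1

theorem rho_level {u : ℕ → ℂ} {C : ℝ} (hC0 : 0 < C)
    (hC : ∀ lo hi : ℝ, 1 ≤ lo → lo ≤ hi →
      |∑ p ∈ PB lo hi, ‖u p‖ ^ 2 / (p : ℝ) - Real.log (hi / lo)| ≤ C / lo ∧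
      ∀ τ : ℝ, 0 < τ → τ ≤ 1 → |∑ p ∈ PB lo hi, ‖u p‖ ^ 2 * Real.cos (τ * Real.log p) / p| ≤ C / (τ * lo))
    {h L δ κ τ : ℝ} (h0 : 0 < h) (h2 : h ≤ 1 / 2) (hL : 1 ≤ L) (hδ : 0 < δ) (hκ : 0 ≤ κ)
    {m j : ℕ} (hmj : m ≤ j) (hτ : h * L ^ (-δ - m * κ + δ / 4) ≤ |τ|) (hτ1 : |τ| ≤ 1) :
    |Vu u (eb h L δ κ j) (eb h L δ κ (j + 1)) τ| ≤ C * L ^ (-(δ / 4)) := by
  have hL0 : 0 < L := by linarith
  have h1 := eb_ge (δ := δ) h0 h2 hL hκ j
  have hLd : 1 ≤ L ^ δ := Real.one_le_rpow hL hδ.le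
  have hτ0 : 0 < |τ| := lt_of_lt_of_le (by positivity) hτ
  have h3 := (hC _ _ (hLd.trans h1) (eb_mono (δ := δ) h0 hL hκ j)).2 |τ| hτ0 hτ1
  rw [← Vu_abs]
  unfold Vu
  have hpp : 0 < 1 / (2 * Real.pi ^ 2) := by positivity
  rw [abs_mul, abs_of_pos hpp, Real.rpow_neg (by linarith), ← div_eq_mul_inv]
  have h4 : L ^ (δ / 4) ≤ |τ| * eb h L δ κ j := by
    have h5 : h * L ^ (-δ - m * κ + δ / 4) * (h⁻¹ * L ^ (δ + j * κ)) ≤
        |τ| * eb h L δ κ j := mul_le_mul_of_nonneg_right hτ (by positivity)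
    refine le_trans ?_ h5
    have e1 : h * L ^ (-δ - m * κ + δ / 4) * (h⁻¹ * L ^ (δ + j * κ)) =
        L ^ ((-δ - m * κ + δ / 4) + (δ + j * κ)) := by
      rw [Real.rpow_add hL0 (-δ - m * κ + δ / 4)]
      field_simp
    rw [e1]
    refine Real.rpow_le_rpow_of_exponent_le hL ?_
    have h6 : (m : ℝ) ≤ j := by exact_mod_cast hmj
    nlinarith
  calc 1 / (2 * Real.pi ^ 2) *
        |∑ p ∈ PB (eb h L δ κ j) (eb h L δ κ (j + 1)), ‖u p‖ ^ 2 * Real.cos (|τ| * Real.log p) / p|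
      ≤ 1 * (C / (|τ| * eb h L δ κ j)) := mul_le_mul pi_le h3 (abs_nonneg _) zero_le_one
    _ ≤ C / L ^ (δ / 4) := by
        rw [one_mul]
        exact div_le_div_of_nonneg_left hC0.le (by positivity) h4

/-- the estimate of the pairs -/
theorem pair_level {u : ℕ → ℂ} {h L δ κ T a e P θ θ' q w C : ℝ} {K n : ℕ} (hT : 0 < T)
    (hEP : ∀ (x : ℝ) (z c : Fin K → ℝ), (∀ j, c j = 1 / 2 ∨ c j = 1) →
      |(1 / T * ∫ t in T..(2 * T), ∏ j : Fin K, Real.exp (-(c j / 2 *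
        ((Yb u (eb h L δ κ j) (eb h L δ κ (j + 1)) (t + x) - a) ^ 2 +
          (Yb u (eb h L δ κ j) (eb h L δ κ (j + 1)) (t + z j) - a) ^ 2)))) -
      ∏ j : Fin K, P2 (c j) a (Vu u (eb h L δ κ j) (eb h L δ κ (j + 1)) 0)
        (Vu u (eb h L δ κ j) (eb h L δ κ (j + 1)) (x - z j))| ≤ e)
    (hC0 : 0 < C)
    (hC : ∀ lo hi : ℝ, 1 ≤ lo → lo ≤ hi →
      |∑ p ∈ PB lo hi, ‖u p‖ ^ 2 / (p : ℝ) - Real.log (hi / lo)| ≤ C / lo ∧
      ∀ τ : ℝ, 0 < τ → τ ≤ 1 → |∑ p ∈ PB lo hi, ‖u p‖ ^ 2 * Real.cos (τ * Real.log p) / p| ≤ C / (τ * lo))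
    (h0 : 0 < h) (h2 : h ≤ 1 / 2) (hL : 1 ≤ L) (hδ : 0 < δ) (hκ : 0 ≤ κ) (he : 0 ≤ e)
    (hK : 0 < K) (hw : 0 < w)
    (ha : ∀ j : ℕ, |a| ≤ 7 * (1 + Vu u (eb h L δ κ j) (eb h L δ κ (j + 1)) 0)) (hP : 1 ≤ P)
    (hp : ∀ j : ℕ, (P2 (1 / 2) a (Vu u (eb h L δ κ j) (eb h L δ κ (j + 1)) 0)
      (Vu u (eb h L δ κ j) (eb h L δ κ (j + 1)) 0))⁻¹ ≤ P)
    (hθ : θ = C * L ^ (-(δ / 4))) (hθ2 : θ ≤ 1 / 2) (hθ' : Real.exp (100 * K * θ) ≤ 1 + θ')
    (hθ2' : Real.exp (100 * K * θ) ≤ 2) (hq : q = Ewu u h L δ κ K a)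
    (hn : (n : ℝ) * w ≤ 1) (i i' : ℕ) (hi : i ≤ n) (hi' : i' ≤ n) :
    (1 / T * ∫ t in T..(2 * T), Wt u h L δ κ K a (t + i * w) * Wt u h L δ κ K a (t + i' * w)) ≤
      (1 + θ') * q ^ 2 + e + ∑ m ∈ Finset.range K,
        if |(i : ℝ) - i'| * w < h * L ^ (-δ - m * κ + δ / 4) then 2 * P ^ (m + 1) * q ^ 2 + e
          else 0 := by
  have hτ : |(i : ℝ) * w - i' * w| = |(i : ℝ) - i'| * w := by
    rw [← sub_mul, abs_mul, abs_of_pos hw]
  have hτ1 : |(i : ℝ) * w - i' * w| ≤ 1 := by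
    rw [hτ]
    refine le_trans (mul_le_mul_of_nonneg_right ?_ hw.le) hn
    rw [abs_le]
    have a1 : (i : ℝ) ≤ n := by exact_mod_cast hi
    have a2 : (i' : ℝ) ≤ n := by exact_mod_cast hi'
    have a3 : (0 : ℝ) ≤ i := Nat.cast_nonneg i
    have a4 : (0 : ℝ) ≤ i' := Nat.cast_nonneg i'
    constructor <;> linarith
  have hθ0 : 0 ≤ θ := by rw [hθ]; positivity
  have hX : ∀ m ∈ Finset.range K, 0 ≤
      (if |(i : ℝ) - i'| * w < h * L ^ (-δ - m * κ + δ / 4) then 2 * P ^ (m + 1) * q ^ 2 + e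
        else 0) := by
    intro m _
    split_ifs
    · positivity
    · exact le_rfl
  have hq' : q = ∏ j : Fin K, P2 (1 / 2) a (Vu u (eb h L δ κ j) (eb h L δ κ (j + 1)) 0)
      (Vu u (eb h L δ κ j) (eb h L δ κ (j + 1)) 0) := by
    rw [hq]
    rfl
  by_cases hfar : h * L ^ (-δ - (0 : ℕ) * κ + δ / 4) ≤ |(i : ℝ) - i'| * w
  · have h3 := pair hT hEP 0 (i * w) (i' * w)
    have h4 := prod_bound (K := K) (m := 0) (a := a) (P := P) (θ := θ)
      (V := fun j => Vu u (eb h L δ κ j) (eb h L δ κ (j + 1)) 0)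
      (ρ := fun j => Vu u (eb h L δ κ j) (eb h L δ κ (j + 1)) (i * w - i' * w))
      (fun j => Vu_nonneg _ _ _) (fun j => ha j) hP (fun j => hp j) hθ0 hθ2 (fun j hj => by
        rw [hθ]
        exact rho_level hC0 hC h0 h2 hL hδ hκ hj (by rw [hτ]; exact hfar) hτ1)
    rw [← hq', pow_zero, mul_one] at h4
    have h5 : Real.exp (100 * K * θ) * q ^ 2 ≤ (1 + θ') * q ^ 2 :=
      mul_le_mul_of_nonneg_right hθ' (sq_nonneg q)
    have h6 := Finset.sum_nonneg hX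
    linarith
  · classical
    have hex : ∃ m : ℕ, m = K ∨ h * L ^ (-δ - m * κ + δ / 4) ≤ |(i : ℝ) - i'| * w :=
      ⟨K, Or.inl rfl⟩
    obtain ⟨m, hm⟩ : ∃ m, m = Nat.find hex := ⟨_, rfl⟩
    have hm1 : m = K ∨ h * L ^ (-δ - m * κ + δ / 4) ≤ |(i : ℝ) - i'| * w := by
      rw [hm]
      exact Nat.find_spec hex
    have hm0 : m ≠ 0 := by
      rintro rfl
      rcases hm1 with hm1 | hm1
      · omega
      · exact hfar hm1
    obtain ⟨m', rfl⟩ := Nat.exists_eq_succ_of_ne_zero hm0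
    have hm2 := Nat.find_min hex (m := m') (by omega)
    rw [not_or, not_le] at hm2
    have hmK : m' + 1 ≤ K := by
      have := Nat.find_min' hex (Or.inl rfl : K = K ∨ _)
      omega
    have h3 := pair hT hEP (m' + 1) (i * w) (i' * w)
    have h4 := prod_bound (K := K) (m := m' + 1) (a := a) (P := P) (θ := θ)
      (V := fun j => Vu u (eb h L δ κ j) (eb h L δ κ (j + 1)) 0)
      (ρ := fun j => Vu u (eb h L δ κ j) (eb h L δ κ (j + 1)) (i * w - i' * w))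
      (fun j => Vu_nonneg _ _ _) (fun j => ha j) hP (fun j => hp j) hθ0 hθ2 (fun j hj => by
        rw [hθ]
        have hjK := j.2
        have hm3 : h * L ^ (-δ - ((m' + 1 : ℕ) : ℝ) * κ + δ / 4) ≤ |(i : ℝ) - i'| * w := by
          rcases hm1 with hm1 | hm1
          · omega
          · exact hm1
        exact rho_level hC0 hC h0 h2 hL hδ hκ hj (by rw [hτ]; exact hm3) hτ1)
    rw [← hq'] at h4
    have h5 : Real.exp (100 * K * θ) * P ^ (m' + 1) * q ^ 2 ≤ 2 * P ^ (m' + 1) * q ^ 2 := by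
      refine mul_le_mul_of_nonneg_right (mul_le_mul_of_nonneg_right hθ2' ?_) (sq_nonneg q)
      positivity
    have h6 := Finset.single_le_sum hX (Finset.mem_range.2 (by omega : m' < K))
    rw [if_pos hm2.2] at h6
    have h7 : 0 ≤ (1 + θ') * q ^ 2 := by
      have : 0 ≤ 1 + θ' := (Real.exp_pos _).le.trans hθ'
      positivity
    linarith


end SMUL

open SMUL in
open SML (P2_half P2_half_pos P2_half_sq P2_one_le P2_nonneg P2_half_ge ee_cont Yb_cont Wt_cont Wt_nonneg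
  prod_bound second_moment count sum_up eb_ge eb_mono eb_log pi_le numeric large) in
/-- (SMU) first and second moment of the total weight -/
theorem t_SMU (hE : S_EPU) : S_SMU := by
  intro u B hu hCB K ε δ hε hε1 hδ hδ8 hKδ η hη
  have hKpos : (0 : ℝ) < K := lt_of_lt_of_le (by positivity) hKδ
  have hK : 0 < K := by exact_mod_cast hKpos
  obtain ⟨C, hC0, hC⟩ := id hCB
  obtain ⟨L0, hL0, hE⟩ := hE u B hu hCB K 4 δ hK (by norm_num) hδ hδ8
  obtain ⟨L1, hL1⟩ := large (K := K) (C := C) hδ hε hη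
  refine ⟨max L0 L1, le_max_of_le_left hL0, ?_⟩
  intro T h L κ w a n hT h0 h2 hL hLL hκ hw ha hn
  have hLL0 : L0 ≤ L := (le_max_left _ _).trans hLL
  obtain ⟨a1, a2, a3, a4, a5, a6, a7, a8⟩ := hL1 L ((le_max_right _ _).trans hLL)
  have hL3 : 3 ≤ L := hL0.trans hLL0
  have hL1' : 1 ≤ L := by linarith
  have hLpos : 0 < L := by linarith
  set l := Real.log L with hl
  have hT0 : 0 < T := by linarith
  have hlogT : 0 < Real.log T := Real.log_pos hT
  have hw0 : 0 < w := by rw [hw]; positivity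
  -- `κ`
  have hκ0 : 0 < κ := by rw [hκ]; exact div_pos (by linarith) hKpos
  have hκK : K * κ = 1 - 3 * δ := by rw [hκ]; field_simp
  have hκδ : κ ≤ δ / 4 := by
    rw [hκ, div_le_iff₀ hKpos]
    have h3 : 1 ≤ δ / 4 * K := by
      have := mul_le_mul_of_nonneg_left hKδ (by linarith : 0 ≤ δ / 4)
      have e1 : δ / 4 * (4 / δ) = 1 := by field_simp
      linarith
    linarith
  have hκ1 : κ ≤ 1 := by linarith
  have hpi := Real.pi_gt_three
  have hpi4 := Real.pi_lt_d2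
  set k := κ * l with hk
  have hk0 : 0 ≤ k := by positivity
  have hkl : k ≤ l := by nlinarith
  -- `a`
  have ha' : |a| = (1 - ε) * k / Real.pi := by rw [ha, hk]; ring
  have hak : |a| ≤ k / Real.pi := by
    rw [ha']
    exact div_le_div_of_nonneg_right (by nlinarith) (by linarith)
  have hal : |a| ≤ Real.log L := by
    refine hak.trans ?_
    rw [div_le_iff₀ (by linarith)]
    nlinarith
  -- the variances
  have hVn : ∀ j : ℕ, k / (2 * Real.pi ^ 2) ≤ 1 + Vu u (eb h L δ κ j) (eb h L δ κ (j + 1)) 0 ∧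
      Vu u (eb h L δ κ j) (eb h L δ κ (j + 1)) 0 ≤ k / (2 * Real.pi ^ 2) + 1 := by
    intro j
    have h3 := abs_le.1 ((V_near hC0 hC h0 h2 hL1' hδ hκ0.le j).trans a2)
    constructor
    · linarith [h3.1]
    · linarith [h3.2]
  have haV : ∀ j : ℕ, |a| ≤ 7 * (1 + Vu u (eb h L δ κ j) (eb h L δ κ (j + 1)) 0) := by
    intro j
    have h3 := (hVn j).1
    have h4 : k / Real.pi ≤ 7 * (k / (2 * Real.pi ^ 2)) := by
      have e1 : 7 * (k / (2 * Real.pi ^ 2)) = k / Real.pi * (7 / (2 * Real.pi)) := by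
        field_simp
      rw [e1]
      refine le_mul_of_one_le_right (by positivity) ?_
      rw [one_le_div (by linarith)]
      linarith
    linarith
  have hPl : ∀ j : ℕ, Real.exp (-((1 - ε) ^ 2 * k)) / l ≤
      P2 (1 / 2) a (Vu u (eb h L δ κ j) (eb h L δ κ (j + 1)) 0)
        (Vu u (eb h L δ κ j) (eb h L δ κ (j + 1)) 0) := fun j =>
    P2_half_ge (Vu_nonneg _ _ _) hk0 hkl a1 (hVn j).1 (hVn j).2 (by linarith) ha'
  have hl0 : 0 < l := by linarith
  have hexp : Real.exp k = L ^ κ := by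
    rw [Real.rpow_def_of_pos hLpos, hk, mul_comm]
  have hp : ∀ j : ℕ, (P2 (1 / 2) a (Vu u (eb h L δ κ j) (eb h L δ κ (j + 1)) 0)
      (Vu u (eb h L δ κ j) (eb h L δ κ (j + 1)) 0))⁻¹ ≤ L ^ κ * l := by
    intro j
    have h3 : 0 < Real.exp (-((1 - ε) ^ 2 * k)) / l := by positivity
    refine (inv_anti₀ h3 (hPl j)).trans ?_
    rw [inv_div, div_eq_mul_inv, ← Real.exp_neg, neg_neg, mul_comm, ← hexp]
    refine mul_le_mul_of_nonneg_right (Real.exp_le_exp.2 ?_) hl0.le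
    have h4 : (1 - ε) ^ 2 ≤ 1 := by nlinarith
    nlinarith
  -- the expected weight
  have hEw : Ewu u h L δ κ K a = ∏ j : Fin K, P2 (1 / 2) a (Vu u (eb h L δ κ j) (eb h L δ κ (j + 1)) 0)
      (Vu u (eb h L δ κ j) (eb h L δ κ (j + 1)) 0) := rfl
  have hEw0 : 0 < Ewu u h L δ κ K a := by
    rw [hEw]
    exact Finset.prod_pos fun j _ => P2_half_pos (Vu_nonneg _ _ _)
  have hEwL : L ^ (-(1 - ε / 2)) ≤ Ewu u h L δ κ K a := by
    have h3 : (Real.exp (-((1 - ε) ^ 2 * k)) / l) ^ K ≤ Ewu u h L δ κ K a := by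
      rw [hEw]
      have h4 : (Real.exp (-((1 - ε) ^ 2 * k)) / l) ^ K =
          ∏ _j : Fin K, (Real.exp (-((1 - ε) ^ 2 * k)) / l) := by
        rw [Finset.prod_const, Finset.card_univ, Fintype.card_fin]
      rw [h4]
      exact Finset.prod_le_prod (fun j _ => by positivity) fun j _ => hPl j
    refine le_trans ?_ h3
    rw [div_pow, ← Real.exp_nat_mul, le_div_iff₀ (by positivity)]
    have h5 : Real.exp (K * -((1 - ε) ^ 2 * k)) = L ^ (-((1 - ε) ^ 2 * (1 - 3 * δ))) := by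
      rw [Real.rpow_def_of_pos hLpos, ← hκK, hk, ← hl]
      congr 1
      ring
    rw [h5]
    calc L ^ (-(1 - ε / 2)) * l ^ K ≤ L ^ (-(1 - ε / 2)) * L ^ (ε / 2) :=
          mul_le_mul_of_nonneg_left a6 (by positivity)
      _ = L ^ (-(1 - ε / 2) + ε / 2) := by rw [← Real.rpow_add hLpos]
      _ ≤ L ^ (-((1 - ε) ^ 2 * (1 - 3 * δ))) := by
          refine Real.rpow_le_rpow_of_exponent_le hL1' ?_
          have h6 : (1 - ε) ^ 2 * (1 - 3 * δ) ≤ (1 - ε) ^ 2 := by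
            have : 0 ≤ (1 - ε) ^ 2 := sq_nonneg _
            nlinarith
          nlinarith
  refine ⟨hEw0, hEwL, ?_⟩
  -- the second moment
  have hEP := fun (x : ℝ) (z c : Fin K → ℝ) (hc : ∀ j, c j = 1 / 2 ∨ c j = 1) =>
    hE T h L κ a hT h0 h2 hL hLL0 hκ hal x z c hc
  have hnw : (n : ℝ) ≤ h / (4 * w) := by
    rw [hn]
    exact Nat.floor_le (by positivity)
  have hnw1 : (n : ℝ) * w ≤ 1 := by
    have h3 := mul_le_mul_of_nonneg_right hnw hw0.le
    have e1 : h / (4 * w) * w = h / 4 := by field_simp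
    linarith
  have hN : h / (4 * w) ≤ ((n + 1 : ℕ) : ℝ) := by
    rw [hn]
    push_cast
    exact (Nat.lt_floor_add_one _).le
  have hwh : w / h = L ^ (δ - 1) := by
    rw [hw, Real.rpow_sub hLpos, Real.rpow_one, hL]
    field_simp
  have hcast : ((n : ℝ) + 1) = ((n + 1 : ℕ) : ℝ) := by push_cast; ring
  rw [hcast]
  have hsm := second_moment hT0 (n + 1) (fun i t => Wt u h L δ κ K a (t + i * w))
    (fun i => (Wt_cont u h L δ κ K a).comp (continuous_id.add continuous_const))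
    (Ewu u h L δ κ K a)
  rw [hsm]
  have hP1 : 1 ≤ L ^ κ * l := by
    have : 1 ≤ L ^ κ := Real.one_le_rpow hL1' hκ0.le
    nlinarith
  have hqL : L ^ (-1 : ℝ) ≤ Ewu u h L δ κ K a := by
    refine le_trans (Real.rpow_le_rpow_of_exponent_le hL1' ?_) hEwL
    linarith
  have hup := sum_up (n + 1) K
    (m2 := fun i i' => 1 / T * ∫ t in T..(2 * T), Wt u h L δ κ K a (t + i * w) *
      Wt u h L δ κ K a (t + i' * w))
    (m1 := fun i => 1 / T * ∫ t in T..(2 * T), Wt u h L δ κ K a (t + i * w))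
    (q := Ewu u h L δ κ K a) (e := L ^ (-4 : ℝ)) (w := w) (θ' := η / 4)
    (B := fun m => h * L ^ (-δ - m * κ + δ / 4))
    (X := fun m => 2 * (L ^ κ * l) ^ (m + 1) * Ewu u h L δ κ K a ^ 2 + L ^ (-4 : ℝ)) hw0 hEw0.le
    (fun m => by positivity)
    (fun i _ => by
      have := (abs_le.1 (single hEP (i * w))).1
      linarith)
    (fun i hi i' hi' => by
      rw [Finset.mem_range] at hi hi'
      exact pair_level hT0 hEP hC0 hC h0 h2 hL1' hδ hκ0.le (by positivity) hK hw0 haV hP1 hp rfl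
        a3 a4 a5 rfl hnw1 i i' (by omega) (by omega))
  refine hup.trans ?_
  exact numeric h0 hw0 hL1' hδ hκ0.le hκδ hκK hwh hN (Nat.cast_nonneg _) (by linarith) rfl hEw0
    hqL rfl le_rfl a7 a8


end Pool.Agent.H203.HX
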