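import Pool.Agent.H203.HX.ALLH
import Pool.Agent.H203.HX.FIN4
import Pool.Agent.H203.HX.ORT
import Pool.Agent.H203.HX.CBU
import Pool.Agent.H203.HX.EPU
import Pool.Agent.H203.HX.SMU
import Pool.Agent.H203.HX.HPU
import Pool.Agent.H203.HX.LCU

set_option autoImplicit false

/-! The leaves of project HX2 put together. -/

open Complex Filter Topology Set MeasureTheory

namespace Pool.Agent.H203.HX

open Pool.Agent.H203.GE (Lf)

theorem p_CBU : S_CBU := t_CBU p_CB t_ORT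
theorem p_EPU : S_EPU := t_EPU p_FI t_QC
theorem p_SMU : S_SMU := t_SMU p_EPU
theorem p_HPU : S_HPU := t_HPU p_SMU

theorem main3 (k : ℕ) (q : Fin k → ℕ) (hq : ∀ j, NeZero (q j)) (χ : (j : Fin k) → DirichletCharacter ℂ (q j))
    (hχ : ∀ j, (χ j).IsPrimitive) (hd : ∀ i j, i ≠ j → ∃ n : ℕ, χ i n ≠ χ j n) (c : Fin k → ℝ) (hc : ∑ j, (c j) ^ 2 = 1)
    (h : ℝ → ℝ) (hh : ∀ᶠ T in atTop, 0 < h T ∧ h T ≤ 1) (hL : Tendsto (fun T => h T * Real.log T) atTop atTop)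
    (ε : ℝ) (hε : 0 < ε) :
    Tendsto (fun T : ℝ => volume (Bd3 (fun j => @DirichletCharacter.LFunction (q j) (hq j) (χ j)) c T (h T)
      ((2 / Real.pi - ε) * Real.log (h T * Real.log T))) / ENNReal.ofReal T) atTop (𝓝 0) :=
  fin3 p_ZE t_LCU p_QI p_HPU p_RS (fun j => @DirichletCharacter.LFunction (q j) (hq j) (χ j)) (fun j (n : ℕ) => χ j n)
    (fun j => @GE.t_LFX (q j) (hq j) (χ j) (hχ j)) c (p_CBU k q hq χ hχ hd c hc) h hh hL ε hε

end Pool.Agent.H203.HX
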