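import Pool.Agent.H203.HX.Defs3

set_option autoImplicit false

/-! Assembly of project HX3. -/

open Complex Filter Topology Set MeasureTheory

namespace Pool.Agent.H203.HX

open Pool.Agent.H203.GE (Lf XG)

/-- the `t` for which some subinterval of `(t, t + h]` has discrepancy `> c` in modulus -/
def Ub (G : ℂ → ℂ) (T h c : ℝ) : Set ℝ := {t : ℝ | T ≤ t ∧ t ≤ 2 * T ∧ ∃ x y : ℝ, 0 ≤ x ∧ x < y ∧ y ≤ h ∧
  c < |(H370.NN G (t + x) (t + y) : ℝ) - (y - x) * Real.log T / (2 * Real.pi)|}

theorem up_core (hUZ : S_UZ) (hUG : S_UG) (G : ℂ → ℂ) (u : ℕ → ℂ) (hG : Lf G u) : ∃ C : ℝ, 0 < C ∧ ∀ ε : ℝ, 0 < ε →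
    ∃ L0 : ℝ, 3 ≤ L0 ∧ ∀ T h : ℝ, 1 < T → 0 < h → h ≤ 1 / 4 → L0 ≤ h * Real.log T →
      volume (Ub G T h (C * Real.log (h * Real.log T))) ≤ ENNReal.ofReal (ε * T) := by
  obtain ⟨A, C, hA, hC, H⟩ := hUZ G u hG
  refine ⟨2 * C + 4 * A, by positivity, fun ε hε => ?_⟩
  obtain ⟨L1, hL1, H1⟩ := H (ε / 2) (by positivity)
  have hev : ∀ᶠ L : ℝ in atTop, A * Real.log (2 * L) / L ≤ 1 / 5 := by
    have h1 : Tendsto (fun L : ℝ => Real.log L / L) atTop (𝓝 0) := by
      have := Real.isLittleO_log_id_atTop.tendsto_div_nhds_zero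
      simpa using this
    have h2 : Tendsto (fun L : ℝ => 2 * A * (Real.log (2 * L) / (2 * L))) atTop (𝓝 (2 * A * 0)) :=
      (h1.comp (tendsto_id.const_mul_atTop (show (0 : ℝ) < 2 by norm_num))).const_mul _
    rw [mul_zero] at h2
    filter_upwards [h2.eventually_le_const (show (0 : ℝ) < 1 / 5 by norm_num), eventually_gt_atTop 0] with L hL hL0
    calc A * Real.log (2 * L) / L = 2 * A * (Real.log (2 * L) / (2 * L)) := by field_simp
      _ ≤ 1 / 5 := hL
  obtain ⟨L2, HL2⟩ := eventually_atTop.1 hev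
  refine ⟨max (max L1 L2) (max 3 (2 / ε)), (le_max_left _ _).trans (le_max_right _ _), ?_⟩
  intro T h hT hh hh4 hL
  obtain ⟨L, hLdef⟩ : ∃ L, L = h * Real.log T := ⟨_, rfl⟩
  rw [← hLdef] at hL ⊢
  have hLa : L1 ≤ L := ((le_max_left _ _).trans (le_max_left _ _)).trans hL
  have hLb : L2 ≤ L := ((le_max_right _ _).trans (le_max_left _ _)).trans hL
  have hL3 : 3 ≤ L := ((le_max_left _ _).trans (le_max_right _ _)).trans hL
  have hLe : 2 / ε ≤ L := ((le_max_right _ _).trans (le_max_right _ _)).trans hL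
  have hw5 := HL2 L hLb
  have hlogT : 0 < Real.log T := Real.log_pos hT
  have hlogT2 : 4 * L ≤ Real.log T := by
    rw [hLdef]; nlinarith
  have hTL : 4 * L ≤ T := by
    have h1 := Real.log_le_sub_one_of_pos (show 0 < T by linarith)
    linarith
  obtain ⟨w, hwdef⟩ : ∃ w, w = A * Real.log (2 * L) / Real.log T := ⟨_, rfl⟩
  have hl2 : 0 < Real.log (2 * L) := Real.log_pos (by linarith)
  have hw : 0 < w := by rw [hwdef]; positivity
  have hwh : 5 * w ≤ h := by
    have h1 : w = h * (A * Real.log (2 * L) / L) := by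
      rw [hwdef, hLdef]
      field_simp
    rw [h1]; nlinarith
  have hZ := H1 T (2 * h) (2 * L) w hT (by linarith) (by linarith) (by rw [hLdef]; ring) (by linarith) hwdef
  obtain ⟨Z, hZdef⟩ : ∃ Z : Set ℝ, Z = {t : ℝ | T ≤ t ∧ t ≤ 2 * T ∧ ∃ i j : ℕ, i < j ∧ j * w ≤ 2 * h ∧
      C * Real.log (2 * L) < |XG G (Gs w ((j - i) * w)) T (t + i * w)|} := ⟨_, rfl⟩
  rw [← hZdef] at hZ
  have hsub : Ub G T h ((2 * C + 4 * A) * Real.log L) ⊆ ((fun t => t + -(2 * w)) ⁻¹' Z) ∪ Icc T (T + 2 * w) := by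
    intro t ht
    by_contra hcon
    rw [mem_union, not_or] at hcon
    obtain ⟨n1, n2⟩ := hcon
    obtain ⟨ht1, ht2, x, y, hx, hxy, hy, hlt⟩ := ht
    have ht3 : T + 2 * w < t := by
      by_contra hc
      exact n2 ⟨ht1, not_lt.1 hc⟩
    rw [mem_preimage, hZdef] at n1
    have hgrid : ∀ i j : ℕ, i < j → (j : ℝ) * w ≤ 2 * h →
        |XG G (Gs w ((j - i) * w)) T (t + -(2 * w) + i * w)| ≤ C * Real.log (2 * L) := by
      intro i j hij hj
      by_contra hc
      exact n1 ⟨by linarith, by linarith, i, j, hij, hj, not_le.1 hc⟩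
    have h1 := hUG G u hG T (t + -(2 * w)) (2 * h) w (C * Real.log (2 * L)) hT (by linarith) hw (by linarith)
      (by positivity) hgrid (x + 2 * w) (y + 2 * w) (by linarith) (by linarith) (by linarith)
    rw [show t + -(2 * w) + (x + 2 * w) = t + x by ring, show t + -(2 * w) + (y + 2 * w) = t + y by ring,
      show y + 2 * w - (x + 2 * w) = y - x by ring] at h1
    have h2 : 4 * w * Real.log T / (2 * Real.pi) ≤ A * Real.log (2 * L) := by
      have e1 : w * Real.log T = A * Real.log (2 * L) := by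
        rw [hwdef]; field_simp
      have e2 : 4 * w * Real.log T / (2 * Real.pi) = (2 / Real.pi) * (A * Real.log (2 * L)) := by
        rw [← e1]; field_simp; ring
      rw [e2]
      apply mul_le_of_le_one_left (by positivity)
      rw [div_le_one Real.pi_pos]; linarith [Real.pi_gt_three]
    have h3 : Real.log (2 * L) ≤ 2 * Real.log L := by
      rw [Real.log_mul (by norm_num) (by linarith)]
      have : Real.log 2 ≤ Real.log L := Real.log_le_log (by norm_num) (by linarith)
      linarith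
    nlinarith
  have hT0 : 0 < T := by linarith
  calc volume (Ub G T h ((2 * C + 4 * A) * Real.log L)) ≤ volume (((fun t => t + -(2 * w)) ⁻¹' Z) ∪ Icc T (T + 2 * w)) :=
        measure_mono hsub
    _ ≤ volume Z + ENNReal.ofReal (2 * w) := by
        refine (measure_union_le _ _).trans (add_le_add ?_ ?_)
        · rw [measure_preimage_add_right]
        · rw [Real.volume_Icc]
          apply ENNReal.ofReal_le_ofReal
          linarith
    _ ≤ ENNReal.ofReal (ε / 2 * T) + ENNReal.ofReal (ε / 2 * T) := by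
        refine add_le_add hZ (ENNReal.ofReal_le_ofReal ?_)
        rw [div_le_iff₀ hε] at hLe
        nlinarith
    _ ≤ ENNReal.ofReal (ε * T) := by
        rw [← ENNReal.ofReal_add (by positivity) (by positivity)]
        apply ENNReal.ofReal_le_ofReal
        linarith

/-- discrepancy -/
noncomputable def dd (G : ℂ → ℂ) (T a b : ℝ) : ℝ := (H370.NN G a b : ℝ) - (b - a) * Real.log T / (2 * Real.pi)

theorem dd_add {G : ℂ → ℂ} (hG : H370.GoodL G) (T : ℝ) {a b c : ℝ} (h : 1 ≤ a) (hab : a ≤ b) (hbc : b ≤ c) :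
    dd G T a c = dd G T a b + dd G T b c := by
  unfold dd
  have := H370.NN_add hG h hab hbc
  have h2 : (H370.NN G a c : ℝ) = H370.NN G a b + H370.NN G b c := by
    rw [this]; push_cast; ring
  rw [h2]; ring

theorem piece {G : ℂ → ℂ} (hG : H370.GoodL G) (T t c : ℝ) (ht : 1 ≤ t) (hc : 0 ≤ c) (g : ℝ) (hg : 0 ≤ g)
    (h1 : ∀ x y : ℝ, 0 ≤ x → x < y → y ≤ g → |dd G T (t + x) (t + y)| ≤ c) :
    ∀ x y : ℝ, 0 ≤ x → x ≤ y → y ≤ g → |dd G T (t + x) (t + y)| ≤ c := by
  intro x y hx hxy hy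
  rcases hxy.lt_or_eq with h | h
  · exact h1 x y hx h hy
  · have h2 := dd_add hG T (a := t + x) (b := t + x) (c := t + x) (by linarith) le_rfl le_rfl
    have h3 : dd G T (t + x) (t + x) = 0 := by linarith
    rw [← h, h3, abs_zero]; exact hc

theorem double {G : ℂ → ℂ} (hG : H370.GoodL G) (T t c : ℝ) (ht : 1 ≤ t) (hc : 0 ≤ c) (g : ℝ) (hg : 0 ≤ g)
    (h1 : ∀ x y : ℝ, 0 ≤ x → x ≤ y → y ≤ g → |dd G T (t + x) (t + y)| ≤ c)
    (h2 : ∀ x y : ℝ, 0 ≤ x → x ≤ y → y ≤ g → |dd G T (t + g + x) (t + g + y)| ≤ c) :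
    ∀ x y : ℝ, 0 ≤ x → x ≤ y → y ≤ 2 * g → |dd G T (t + x) (t + y)| ≤ 2 * c := by
  intro x y hx hxy hy
  rcases le_total y g with h | h
  · exact (h1 x y hx hxy h).trans (by linarith)
  rcases le_total g x with h' | h'
  · have := h2 (x - g) (y - g) (by linarith) (by linarith) (by linarith)
    rw [show t + g + (x - g) = t + x by ring, show t + g + (y - g) = t + y by ring] at this
    linarith
  · rw [dd_add hG T (a := t + x) (b := t + g) (c := t + y) (by linarith) (by linarith) (by linarith)]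
    have a1 := h1 x g hx h' le_rfl
    have a2 := h2 0 (y - g) le_rfl (by linarith) (by linarith)
    rw [show t + g + 0 = t + g by ring, show t + g + (y - g) = t + y by ring] at a2
    exact (abs_add_le _ _).trans (by linarith)

theorem up (hUZ : S_UZ) (hUG : S_UG) (G : ℂ → ℂ) (u : ℕ → ℂ) (hG : Lf G u) : ∃ C : ℝ, 0 < C ∧
    ∀ h : ℝ → ℝ, (∀ᶠ T in atTop, 0 < h T ∧ h T ≤ 1) → Tendsto (fun T => h T * Real.log T) atTop atTop →
    Tendsto (fun T : ℝ => volume (Ub G T (h T) (C * Real.log (h T * Real.log T))) / ENNReal.ofReal T) atTop (𝓝 0) := by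
  obtain ⟨C, hC, H⟩ := up_core hUZ hUG G u hG
  refine ⟨4 * C, by positivity, fun h hh hL => ?_⟩
  rw [ENNReal.tendsto_nhds_zero]
  intro e he
  obtain ⟨η, hη, hηe⟩ : ∃ η : ℝ, 0 < η ∧ ENNReal.ofReal η ≤ e := by
    rcases eq_or_ne e ⊤ with rfl | h1
    · exact ⟨1, one_pos, le_top⟩
    · exact ⟨e.toReal, ENNReal.toReal_pos he.ne' h1, by rw [ENNReal.ofReal_toReal h1]⟩
  obtain ⟨L0, hL0, H0⟩ := H (η / 8) (by positivity)
  have hLh : Tendsto (fun T => h T / 4 * Real.log T) atTop atTop := by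
    have : (fun T => h T / 4 * Real.log T) = fun T => 1 / 4 * (h T * Real.log T) := by ext T; ring
    rw [this]; exact hL.const_mul_atTop (by norm_num)
  filter_upwards [hh, hLh.eventually_ge_atTop L0, eventually_ge_atTop (2 : ℝ), eventually_ge_atTop (8 / η)] with
    T hhT hLT hT hT8
  have hT0 : 0 < T := by linarith
  obtain ⟨g, hg⟩ : ∃ g, g = h T / 4 := ⟨_, rfl⟩
  have hg0 : 0 < g := by rw [hg]; linarith [hhT.1]
  have hg4 : g ≤ 1 / 4 := by rw [hg]; linarith [hhT.2]
  rw [← hg] at hLT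
  have h1 := H0 T g (by linarith) hg0 hg4 hLT
  obtain ⟨V, hV⟩ : ∃ V : Set ℝ, V = Ub G T g (C * Real.log (g * Real.log T)) := ⟨_, rfl⟩
  rw [← hV] at h1
  have hlogle : Real.log (g * Real.log T) ≤ Real.log (h T * Real.log T) := by
    apply Real.log_le_log (by linarith)
    have : 0 ≤ Real.log T := Real.log_nonneg (by linarith)
    rw [hg]; nlinarith [hhT.1]
  have hlog0 : 0 ≤ Real.log (g * Real.log T) := Real.log_nonneg (by linarith)
  have hsub : Ub G T (h T) (4 * C * Real.log (h T * Real.log T)) ⊆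
      (V ∪ ((fun t => t + g) ⁻¹' V)) ∪ (((fun t => t + 2 * g) ⁻¹' V) ∪ ((fun t => t + 3 * g) ⁻¹' V)) ∪
        Icc (2 * T - 3 * g) (2 * T) := by
    intro t ht
    by_contra hcon
    simp only [mem_union, mem_preimage, not_or] at hcon
    obtain ⟨⟨⟨n0, n1⟩, n2, n3⟩, n4⟩ := hcon
    obtain ⟨ht1, ht2, x, y, hx, hxy, hy, hlt⟩ := ht
    have ht3 : t < 2 * T - 3 * g := by
      by_contra hc
      exact n4 ⟨not_lt.1 hc, ht2⟩
    have c0 : 0 ≤ C * Real.log (g * Real.log T) := by positivity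
    have key : ∀ s : ℝ, T ≤ s → s ≤ 2 * T → s ∉ V → ∀ x y : ℝ, 0 ≤ x → x ≤ y → y ≤ g →
        |dd G T (s + x) (s + y)| ≤ C * Real.log (g * Real.log T) := by
      intro s hs1 hs2 hs
      apply piece hG.good T s _ (by linarith) c0 g hg0.le
      intro x y hx hxy hy
      by_contra hc
      apply hs
      rw [hV]
      refine ⟨hs1, hs2, x, y, hx, hxy, hy, ?_⟩
      have := not_le.1 hc
      unfold dd at this
      rw [show s + y - (s + x) = y - x by ring] at this
      exact this
    have k0 := key t ht1 ht2 n0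
    have k1 := key (t + g) (by linarith) (by linarith) n1
    have k2 := key (t + 2 * g) (by linarith) (by linarith) n2
    have k3 := key (t + 3 * g) (by linarith) (by linarith) n3
    have d1 := double hG.good T t _ (by linarith) c0 g hg0.le k0 k1
    have d2 := double hG.good T (t + 2 * g) _ (by linarith) c0 g hg0.le k2
      (by rw [show t + 2 * g + g = t + 3 * g by ring]; exact k3)
    have d3 := double hG.good T t _ (by linarith) (by linarith) (2 * g) (by linarith) d1 d2 x y hx hxy.le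
      (by rw [hg]; linarith)
    unfold dd at d3
    rw [show t + y - (t + x) = y - x by ring] at d3
    nlinarith
  rw [ENNReal.div_le_iff (by simpa using hT0) ENNReal.ofReal_ne_top]
  calc volume (Ub G T (h T) (4 * C * Real.log (h T * Real.log T)))
      ≤ volume ((V ∪ ((fun t => t + g) ⁻¹' V)) ∪ (((fun t => t + 2 * g) ⁻¹' V) ∪ ((fun t => t + 3 * g) ⁻¹' V)) ∪
        Icc (2 * T - 3 * g) (2 * T)) := measure_mono hsub
    _ ≤ (volume V + volume V) + (volume V + volume V) + ENNReal.ofReal (η / 2 * T) := by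
        refine (measure_union_le _ _).trans (add_le_add ((measure_union_le _ _).trans (add_le_add
          ((measure_union_le _ _).trans (add_le_add le_rfl ?_)) ((measure_union_le _ _).trans (add_le_add ?_ ?_)))) ?_)
        · rw [measure_preimage_add_right]
        · rw [measure_preimage_add_right]
        · rw [measure_preimage_add_right]
        · rw [Real.volume_Icc]
          apply ENNReal.ofReal_le_ofReal
          rw [div_le_iff₀ hη] at hT8
          linarith
    _ ≤ (ENNReal.ofReal (η / 8 * T) + ENNReal.ofReal (η / 8 * T)) + (ENNReal.ofReal (η / 8 * T) +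
        ENNReal.ofReal (η / 8 * T)) + ENNReal.ofReal (η / 2 * T) := by gcongr
    _ ≤ ENNReal.ofReal (η * T) := by
        rw [← ENNReal.ofReal_add (by positivity) (by positivity), ← ENNReal.ofReal_add (by positivity) (by positivity),
          ← ENNReal.ofReal_add (by positivity) (by positivity)]
        apply ENNReal.ofReal_le_ofReal
        linarith
    _ = ENNReal.ofReal η * ENNReal.ofReal T := ENNReal.ofReal_mul hη.le
    _ ≤ e * ENNReal.ofReal T := by gcongr

end Pool.Agent.H203.HX
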