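import Pool.Agent.H203.HX.Defs3
import Pool.Agent.H203.HX.LC

/-! (UG) from the smoothed discrepancies on the grid to all intervals (helper178). -/

set_option autoImplicit false

open Complex Filter Topology Set MeasureTheory

namespace Pool.Agent.H203.HX

open Pool.Agent.H203.GE (Lf ZG XG)

namespace UGL

open LCL

theorem Ps_mono {x y : ℝ} (h : x ≤ y) : Ps x ≤ Ps y := by
  rw [Ps_eq, Ps_eq]
  have h1 := int_fi (cl x) (cl y)
  have h2 : 0 ≤ ∫ v in (cl x)..(cl y), fi v :=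
    intervalIntegral.integral_nonneg (cl_mono h) (fun v _ => fi_nonneg v)
  linarith

theorem Ps_nonneg (y : ℝ) : 0 ≤ Ps y := by
  have h1 := Ps_mono (min_le_left y 0)
  rwa [Ps_zero (min_le_right y 0)] at h1

theorem Ps_le_one (y : ℝ) : Ps y ≤ 1 := by
  have h1 := Ps_mono (le_max_left y 1)
  rwa [Ps_one (le_max_right y 1)] at h1

theorem Gs_nonneg {w a : ℝ} (hw : 0 < w) (ha : 0 ≤ a) (y : ℝ) : 0 ≤ Gs w a y := by
  unfold Gs
  have h1 : (y - a) / w ≤ y / w := div_le_div_of_nonneg_right (by linarith) hw.le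
  linarith [Ps_mono h1]

theorem Gs_le_one (w a y : ℝ) : Gs w a y ≤ 1 := by
  unfold Gs
  linarith [Ps_le_one (y / w), Ps_nonneg ((y - a) / w)]

theorem Gs_one {w a y : ℝ} (hw : 0 < w) (h1 : w ≤ y) (h2 : y ≤ a) : Gs w a y = 1 := by
  unfold Gs
  rw [Ps_one ((one_le_div hw).2 h1), Ps_zero (div_nonpos_of_nonpos_of_nonneg (by linarith) hw.le),
    sub_zero]

/-- upper bound for the sharp count -/
theorem cnt_le {ι : Type*} (Z : Finset ι) (m γ : ι → ℝ) (hm : ∀ s ∈ Z, 0 ≤ m s) {w a t1 t2 t' : ℝ}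
    (hw : 0 < w) (ha : 0 ≤ a) (h1 : t' + w ≤ t1) (h2 : t2 ≤ t' + a) :
    ∑ s ∈ Z, (if t1 < γ s ∧ γ s ≤ t2 then m s else 0) ≤ ∑ s ∈ Z, m s * Gs w a (γ s - t') := by
  refine Finset.sum_le_sum fun s hs => ?_
  by_cases h : t1 < γ s ∧ γ s ≤ t2
  · rw [if_pos h, Gs_one hw (by linarith [h.1]) (by linarith [h.2]), mul_one]
  · rw [if_neg h]
    exact mul_nonneg (hm s hs) (Gs_nonneg hw ha _)

/-- lower bound for the sharp count -/
theorem le_cnt {ι : Type*} (Z : Finset ι) (m γ : ι → ℝ) (hm : ∀ s ∈ Z, 0 ≤ m s) {w a t1 t2 t' : ℝ}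
    (hw : 0 < w) (ha : 0 ≤ a) (h1 : t1 ≤ t') (h2 : t' + a + w ≤ t2) :
    ∑ s ∈ Z, m s * Gs w a (γ s - t') ≤ ∑ s ∈ Z, (if t1 < γ s ∧ γ s ≤ t2 then m s else 0) := by
  refine Finset.sum_le_sum fun s hs => ?_
  by_cases h : t1 < γ s ∧ γ s ≤ t2
  · rw [if_pos h]
    nlinarith [hm s hs, Gs_le_one w a (γ s - t')]
  · rw [if_neg h]
    have h3 : γ s ≤ t1 ∨ t2 < γ s := by
      by_contra hcon
      push Not at hcon
      exact h hcon
    rcases h3 with h3 | h3
    · rw [Gs_zero_left hw ha (by linarith), mul_zero]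
    · rw [Gs_zero_right hw ha (by linarith), mul_zero]

theorem core {ι : Type*} (Z : Finset ι) (m γ : ι → ℝ) (hm : ∀ s ∈ Z, 0 ≤ m s) {D B t h w : ℝ}
    (hD : 0 ≤ D) (hB : 0 ≤ B) (hw : 0 < w)
    (hyp : ∀ i j : ℕ, i < j → j * w ≤ h →
      |∑ s ∈ Z, m s * Gs w ((j - i) * w) (γ s - (t + i * w)) - (j - i) * w * D| ≤ B)
    {x y : ℝ} (hx : 2 * w ≤ x) (hxy : x < y) (hy : y ≤ h - 3 * w) :
    |∑ s ∈ Z, (if t + x < γ s ∧ γ s ≤ t + y then m s else 0) - (y - x) * D| ≤ B + 4 * w * D := by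
  have hwD : 0 ≤ w * D := mul_nonneg hw.le hD
  have hx0 : 0 ≤ x := by linarith
  have hy0 : 0 ≤ y := by linarith
  have hxw : 2 ≤ x / w := by rw [le_div_iff₀ hw]; linarith
  have hyw : 2 ≤ y / w := by rw [le_div_iff₀ hw]; linarith
  have hxyw : x / w < y / w := div_lt_div_of_pos_right hxy hw
  rw [abs_le]
  constructor
  · -- lower bound
    obtain ⟨i, hi⟩ : ∃ i : ℕ, i = ⌈x / w⌉₊ := ⟨_, rfl⟩
    obtain ⟨j', hj'⟩ : ∃ j' : ℕ, j' = ⌊y / w⌋₊ := ⟨_, rfl⟩
    have hi1 : x / w ≤ i := by rw [hi]; exact Nat.le_ceil _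
    have hi2 : (i : ℝ) < x / w + 1 := by rw [hi]; exact Nat.ceil_lt_add_one (by linarith)
    have hj1 : (j' : ℝ) ≤ y / w := by rw [hj']; exact Nat.floor_le (by linarith)
    have hj2 : y / w < j' + 1 := by rw [hj']; exact Nat.lt_floor_add_one _
    have hj3 : 2 ≤ j' := by rw [hj']; exact Nat.le_floor (by push_cast; linarith)
    obtain ⟨j, rfl⟩ : ∃ j, j' = j + 1 := ⟨j' - 1, by omega⟩
    push_cast at hj1 hj2
    have hi1' : x ≤ i * w := by rwa [div_le_iff₀ hw] at hi1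
    have hi2' : i * w < x + w := by
      have := mul_lt_mul_of_pos_right hi2 hw
      rwa [add_mul, one_mul, div_mul_cancel₀ _ hw.ne'] at this
    have hj1' : (j : ℝ) * w + w ≤ y := by
      rw [le_div_iff₀ hw] at hj1
      linarith
    have hj2' : y < j * w + 2 * w := by
      rw [div_lt_iff₀ hw] at hj2
      linarith
    rcases Nat.lt_or_ge i j with hij | hij
    · have hijr : (i : ℝ) ≤ j := by exact_mod_cast hij.le
      have h1 := hyp i j hij (by linarith)
      have h2 := le_cnt Z m γ hm (w := w) (a := (j - i) * w) (t1 := t + x) (t2 := t + y)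
        (t' := t + i * w) hw (mul_nonneg (by linarith) hw.le) (by linarith)
        (by linarith)
      rw [abs_le] at h1
      have h3 : (y - x - 3 * w) * D ≤ (j - i) * w * D :=
        mul_le_mul_of_nonneg_right (by linarith) hD
      linarith [h1.1]
    · have hijr : (j : ℝ) ≤ i := by exact_mod_cast hij
      have h0 : 0 ≤ ∑ s ∈ Z, (if t + x < γ s ∧ γ s ≤ t + y then m s else 0) := by
        refine Finset.sum_nonneg fun s hs => ?_
        split_ifs
        · exact hm s hs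
        · exact le_refl _
      have h1 : (j : ℝ) * w ≤ i * w := mul_le_mul_of_nonneg_right hijr hw.le
      have h2 : (y - x) * D ≤ 3 * w * D := mul_le_mul_of_nonneg_right (by linarith) hD
      linarith
  · -- upper bound
    obtain ⟨i', hi'⟩ : ∃ i' : ℕ, i' = ⌊x / w⌋₊ := ⟨_, rfl⟩
    obtain ⟨j, hj⟩ : ∃ j : ℕ, j = ⌈y / w⌉₊ := ⟨_, rfl⟩
    have hi1 : (i' : ℝ) ≤ x / w := by rw [hi']; exact Nat.floor_le (by linarith)
    have hi2 : x / w < i' + 1 := by rw [hi']; exact Nat.lt_floor_add_one _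
    have hi3 : 2 ≤ i' := by rw [hi']; exact Nat.le_floor (by push_cast; linarith)
    have hj1 : y / w ≤ j := by rw [hj]; exact Nat.le_ceil _
    have hj2 : (j : ℝ) < y / w + 1 := by rw [hj]; exact Nat.ceil_lt_add_one (by linarith)
    obtain ⟨i, rfl⟩ : ∃ i, i' = i + 1 := ⟨i' - 1, by omega⟩
    push_cast at hi1 hi2
    have hi1' : (i : ℝ) * w + w ≤ x := by
      rw [le_div_iff₀ hw] at hi1
      linarith
    have hi2' : x < i * w + 2 * w := by
      rw [div_lt_iff₀ hw] at hi2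
      linarith
    have hj1' : y ≤ j * w := by rwa [div_le_iff₀ hw] at hj1
    have hj2' : j * w < y + w := by
      have := mul_lt_mul_of_pos_right hj2 hw
      rwa [add_mul, one_mul, div_mul_cancel₀ _ hw.ne'] at this
    have hijr : (i : ℝ) < j := by linarith
    have hij : i < j := by exact_mod_cast hijr
    have h1 := hyp i j hij (by linarith)
    have h2 := cnt_le Z m γ hm (w := w) (a := (j - i) * w) (t1 := t + x) (t2 := t + y)
      (t' := t + i * w) hw (mul_nonneg (by linarith) hw.le) (by linarith) (by linarith)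
    rw [abs_le] at h1
    have h3 : (j - i) * w * D ≤ (y - x + 3 * w) * D :=
      mul_le_mul_of_nonneg_right (by linarith) hD
    linarith [h1.2]

end UGL

open LCL UGL in
theorem t_UG : S_UG := by
  classical
  intro G u hG T t h w B hT ht hw hhw hB hyp x y hx hxy hy
  have hfin : (H370.zset G t (t + 1)).Finite := H370.zset_finite hG.good _ _ (by linarith)
  obtain ⟨Z, hZ⟩ : ∃ Z : Finset ℂ, Z = hfin.toFinset := ⟨_, rfl⟩
  have hmem : ∀ s : ℂ, s ∈ Z ↔ s ∈ H370.zset G t (t + 1) := fun s => by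
    rw [hZ, Set.Finite.mem_toFinset]
  obtain ⟨D, hD⟩ : ∃ D : ℝ, D = Real.log T / (2 * Real.pi) := ⟨_, rfl⟩
  have hD0 : 0 ≤ D := by
    rw [hD]
    exact div_nonneg (Real.log_nonneg hT.le) (by positivity)
  have hX : ∀ i j : ℕ, i < j → j * w ≤ h →
      |∑ s ∈ Z, (H370.mult G s : ℝ) * Gs w ((j - i) * w) (s.im - (t + i * w)) -
        (j - i) * w * D| ≤ B := by
    intro i j hij hjh
    have hijr : (i : ℝ) ≤ j := by exact_mod_cast hij.le
    have ha : 0 ≤ ((j : ℝ) - i) * w := mul_nonneg (by linarith) hw.le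
    have hiw : 0 ≤ (i : ℝ) * w := mul_nonneg (Nat.cast_nonneg _) hw.le
    have hsum : ∑ᶠ s ∈ ZG G, (H370.mult G s : ℝ) * Gs w ((j - i) * w) (s.im - (t + i * w)) =
        ∑ s ∈ Z, (H370.mult G s : ℝ) * Gs w ((j - i) * w) (s.im - (t + i * w)) := by
      apply finsum_mem_eq_sum_of_inter_support_eq
      ext s
      simp only [mem_inter_iff, Function.mem_support, Finset.mem_coe, hmem]
      constructor
      · rintro ⟨h1, h2⟩
        refine ⟨⟨h1.2.1, h1.2.2, ?_, ?_, h1.1⟩, h2⟩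
        · by_contra h3
          apply h2
          rw [Gs_zero_left hw ha (by linarith), mul_zero]
        · by_contra h3
          apply h2
          rw [Gs_zero_right hw ha (by linarith), mul_zero]
      · rintro ⟨h1, h2⟩
        exact ⟨⟨h1.2.2.2.2, h1.1, h1.2.1⟩, h2⟩
    have h1 := hyp i j hij hjh
    unfold XG at h1
    rw [hsum, int_Gs hw ha, ← hD] at h1
    have e : ((j : ℝ) - i) * w * D = D * (((j : ℝ) - i) * w) := by ring
    rw [e]
    exact h1
  have hcore := core Z (fun s => (H370.mult G s : ℝ)) (fun s => s.im)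
    (fun s _ => Nat.cast_nonneg _) hD0 hB hw hX hx hxy hy
  have hN : ∑ s ∈ Z, (if t + x < s.im ∧ s.im ≤ t + y then (H370.mult G s : ℝ) else 0) =
      (H370.NN G (t + x) (t + y) : ℝ) := by
    have hset : H370.zset G (t + x) (t + y) =
        ((Z.filter fun s => t + x < s.im ∧ s.im ≤ t + y : Finset ℂ) : Set ℂ) := by
      ext s
      simp only [Finset.coe_filter, mem_ofPred_eq, hmem]
      constructor
      · rintro ⟨h1, h2, h3, h4, h5⟩
        exact ⟨⟨h1, h2, by linarith, by linarith, h5⟩, h3, h4⟩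
      · rintro ⟨⟨h1, h2, _, _, h5⟩, h3, h4⟩
        exact ⟨h1, h2, h3, h4, h5⟩
    unfold H370.NN
    rw [hset, finsum_mem_coe_finset, Nat.cast_sum, Finset.sum_filter]
  rw [hN] at hcore
  have e1 : (y - x) * Real.log T / (2 * Real.pi) = (y - x) * D := by rw [hD]; ring
  have e2 : 4 * w * Real.log T / (2 * Real.pi) = 4 * w * D := by rw [hD]; ring
  rw [e1, e2]
  exact hcore

end Pool.Agent.H203.HX
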