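import Pool.Agent.H203.HX.Defs3
import Pool.Agent.H203.HX.ZM
import Pool.Agent.H203.GE.BMG

set_option autoImplicit false

/-! (UM) the prime side of the majorant is `O(log L)` with overwhelming probability (helper980; adapted from HX/ZM.lean
and HX/RS.lean). -/

open Complex Filter Topology Set MeasureTheory

namespace Pool.Agent.H203.HX

open Pool.Agent.H203.ME (ee gR WR cR om FF KF C2c w1)
open Pool.Agent.H203.GE (Lf ZG XG BG NWG)

namespace UML

lemma ee_add (n : ℕ) (x y : ℝ) : ee n (x + y) = ee n x * ee n y := by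
  unfold ee
  rw [← Complex.exp_add]
  congr 1
  push_cast
  ring

lemma norm_ee (n : ℕ) (x : ℝ) : ‖ee n x‖ = 1 := by
  unfold ee
  rw [← neg_mul, ← Complex.ofReal_neg, Complex.norm_exp_ofReal_mul_I]

lemma cont_ee (n : ℕ) : Continuous (ee n) := by
  unfold ee
  fun_prop

lemma markov {P : ℝ → ℝ} (hP : Continuous P) (h0 : ∀ t, 0 ≤ P t) {T B lam : ℝ} (hT : 0 < T)
    (hl : 0 < lam) (k : ℕ) (hB : ∫ t in T..(2 * T), P t ^ k ≤ B) :
    volume {t : ℝ | T ≤ t ∧ t ≤ 2 * T ∧ lam < P t} ≤ ENNReal.ofReal (B / lam ^ k) := by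
  have hlk : 0 < lam ^ k := by positivity
  set μ : Measure ℝ := volume.restrict (Icc T (2 * T)) with hμ
  have hPk : Continuous fun t => P t ^ k := hP.pow k
  have hint : Integrable (fun t => P t ^ k) μ := hPk.integrableOn_Icc
  have h1 : lam ^ k * μ.real {t | lam ^ k ≤ P t ^ k} ≤ ∫ t, P t ^ k ∂μ :=
    mul_meas_ge_le_integral_of_nonneg (Filter.Eventually.of_forall fun t => pow_nonneg (h0 t) k) hint _
  have h2 : ∫ t, P t ^ k ∂μ ≤ B := by
    rw [hμ, MeasureTheory.integral_Icc_eq_integral_Ioc, ← intervalIntegral.integral_of_le (by linarith)]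
    exact hB
  have hfin : μ {t | lam ^ k ≤ P t ^ k} ≠ ⊤ := by
    have : μ {t | lam ^ k ≤ P t ^ k} ≤ μ univ := measure_mono (subset_univ _)
    refine ne_top_of_le_ne_top ?_ this
    rw [hμ, Measure.restrict_apply_univ, Real.volume_Icc]
    exact ENNReal.ofReal_ne_top
  have h3 : {t : ℝ | T ≤ t ∧ t ≤ 2 * T ∧ lam < P t} ⊆ {t | lam ^ k ≤ P t ^ k} ∩ Icc T (2 * T) := by
    rintro t ⟨h4, h5, h6⟩
    exact ⟨pow_le_pow_left₀ hl.le h6.le k, h4, h5⟩
  have h4 : volume ({t | lam ^ k ≤ P t ^ k} ∩ Icc T (2 * T)) = μ {t | lam ^ k ≤ P t ^ k} := by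
    rw [hμ, Measure.restrict_apply (measurableSet_le measurable_const hPk.measurable)]
  refine (measure_mono h3).trans ?_
  rw [h4, ← ENNReal.ofReal_toReal hfin]
  apply ENNReal.ofReal_le_ofReal
  rw [le_div_iff₀ hlk]
  have h5 : (μ {t | lam ^ k ≤ P t ^ k}).toReal = μ.real {t | lam ^ k ≤ P t ^ k} := rfl
  rw [h5]
  linarith

/-- moments of a prime polynomial, frequencies `t` -/
lemma moment1 (hM : S_MP) {m N : ℕ} {a : ℕ → ℂ} {T S lam : ℝ} (hm : 1 ≤ m) (hN : 1 ≤ N) (hT : 1 ≤ T)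
    (ha : ∀ p, ‖a p‖ ≤ 1) (hNT : (N : ℝ) ^ (4 * m) ≤ T)
    (hS : ∑ p ∈ (Finset.Icc 1 N).filter Nat.Prime, ‖a p‖ ^ 2 ≤ S) (hl : 0 < lam) :
    volume {t : ℝ | T ≤ t ∧ t ≤ 2 * T ∧ lam < ‖∑ p ∈ (Finset.Icc 1 N).filter Nat.Prime, a p * ee p t‖} ≤
      ENNReal.ofReal (4 * (m.factorial : ℝ) * m ^ 2 * (1 + S) ^ m * T / lam ^ (2 * m)) := by
  have hc : Continuous fun t : ℝ => ‖∑ p ∈ (Finset.Icc 1 N).filter Nat.Prime, a p * ee p t‖ :=
    (continuous_finsetSum _ fun p _ => continuous_const.mul (cont_ee p)).norm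
  refine markov hc (fun t => norm_nonneg _) (by linarith) hl (2 * m) ?_
  refine (hM m N a T hm hN hT ha hNT).trans ?_
  have h0 : 0 ≤ ∑ p ∈ (Finset.Icc 1 N).filter Nat.Prime, ‖a p‖ ^ 2 :=
    Finset.sum_nonneg fun p _ => sq_nonneg _
  apply mul_le_mul_of_nonneg_right _ (by linarith)
  apply mul_le_mul_of_nonneg_left _ (by positivity)
  exact pow_le_pow_left₀ (by linarith) (by linarith) m

/-- the numerical estimate -/
lemma num_le {m : ℕ} {l S lam T : ℝ} (hl : 1 ≤ l) (hm1 : 8 * l ≤ m) (hm2 : (m : ℝ) ≤ 9 * l)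
    (hlam : 0 < lam) (hS : 0 ≤ S) (hT : 0 ≤ T) (h3 : 3 * (m * (1 + S)) ≤ lam ^ 2) :
    4 * (m.factorial : ℝ) * m ^ 2 * (1 + S) ^ m * T / lam ^ (2 * m) ≤
      324 * l ^ 2 * Real.exp (-(8 * l)) * T := by
  have hm0 : (0 : ℝ) < m := by linarith
  have h4 : (m.factorial : ℝ) ≤ (m : ℝ) ^ m := by exact_mod_cast Nat.factorial_le_pow m
  have h5 : ((m : ℝ) * (1 + S)) / lam ^ 2 ≤ 1 / 3 := by
    rw [div_le_div_iff₀ (by positivity) (by norm_num)]
    linarith
  have h6 : (1 / 3 : ℝ) ≤ Real.exp (-1) := by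
    rw [Real.exp_neg, one_div]
    apply inv_anti₀ (Real.exp_pos _)
    linarith [Real.exp_one_lt_d9]
  have h7 : (((m : ℝ) * (1 + S)) / lam ^ 2) ^ m ≤ Real.exp (-(8 * l)) := by
    calc (((m : ℝ) * (1 + S)) / lam ^ 2) ^ m ≤ (Real.exp (-1)) ^ m :=
          pow_le_pow_left₀ (by positivity) (h5.trans h6) m
      _ = Real.exp (m * (-1)) := by rw [← Real.exp_nat_mul]
      _ ≤ _ := Real.exp_le_exp.2 (by linarith)
  have h8 : (m : ℝ) ^ 2 ≤ 81 * l ^ 2 := by nlinarith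
  calc 4 * (m.factorial : ℝ) * m ^ 2 * (1 + S) ^ m * T / lam ^ (2 * m)
      ≤ 4 * (m : ℝ) ^ m * m ^ 2 * (1 + S) ^ m * T / lam ^ (2 * m) := by
        apply div_le_div_of_nonneg_right _ (by positivity)
        gcongr
    _ = 4 * m ^ 2 * (((m : ℝ) * (1 + S)) / lam ^ 2) ^ m * T := by
        rw [div_pow, mul_pow, ← pow_mul]
        ring
    _ ≤ 4 * (81 * l ^ 2) * Real.exp (-(8 * l)) * T := by
        apply mul_le_mul_of_nonneg_right _ hT
        exact mul_le_mul (by linarith) h7 (by positivity) (by positivity)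
    _ = _ := by ring


/-- the conditions on `L` -/
lemma large (A c : ℝ) : ∃ L0 : ℝ, ∀ L : ℝ, L0 ≤ L → 64 ≤ L ∧ 2 ≤ Real.log L ∧
    A * Real.log L * (16 + c) ≤ L ∧ 1024 * Real.log L ≤ L := by
  have h1 : ∀ᶠ L : ℝ in atTop, A * Real.log L * (16 + c) ≤ L := by
    have h2 : ∀ᶠ L : ℝ in atTop, ‖Real.log L‖ ≤ (1 / (|A| * (16 + |c|) + 1)) * ‖L‖ :=
      Real.isLittleO_log_id_atTop.bound (by positivity)
    filter_upwards [h2, eventually_ge_atTop (1 : ℝ)] with L h3 h4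
    have h5 : 0 ≤ Real.log L := Real.log_nonneg h4
    rw [Real.norm_of_nonneg h5, Real.norm_of_nonneg (by linarith), one_div, inv_mul_eq_div,
      le_div_iff₀ (by positivity)] at h3
    have h6 : A * (16 + c) ≤ |A| * (16 + |c|) + 1 := by
      have a1 : A * 16 ≤ |A| * 16 := mul_le_mul_of_nonneg_right (le_abs_self A) (by norm_num)
      have a2 : A * c ≤ |A| * |c| := by
        rw [← abs_mul]
        exact le_abs_self _
      linarith
    have h7 := mul_le_mul_of_nonneg_left h6 h5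
    linarith
  have h2 : ∀ᶠ L : ℝ in atTop, 1024 * Real.log L ≤ L := by
    have h2 : ∀ᶠ L : ℝ in atTop, ‖Real.log L‖ ≤ (1 / 1024) * ‖L‖ :=
      Real.isLittleO_log_id_atTop.bound (by norm_num)
    filter_upwards [h2, eventually_ge_atTop (1 : ℝ)] with L h3 h4
    have h5 : 0 ≤ Real.log L := Real.log_nonneg h4
    rw [Real.norm_of_nonneg h5, Real.norm_of_nonneg (by linarith)] at h3
    linarith
  exact eventually_atTop.1 ((eventually_ge_atTop (64 : ℝ)).and
    ((Real.tendsto_log_atTop.eventually_ge_atTop 2).and (h1.and h2)))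

end UML

open UML ZML Pool.Agent.H203.ME.BMBL Pool.Agent.H203.GE.BMGL in
/-- (UM) -/
theorem t_UM (hM : S_MP) : S_UM := by
  intro u hu A hA
  obtain ⟨C3, hC3, hnp⟩ := Pool.Agent.H203.GE.BMGL.nonprimes
  obtain ⟨c, hc0, hcF⟩ := FF_Mw
  have hZ := Pool.Agent.H203.ME.PRML.Z1_nonneg
  set D : ℝ := 2 * Pool.Agent.H203.ME.PRML.Z1 + (C3 + 23 * c) with hD
  have hD0 : 0 ≤ D := by positivity
  set S : ℝ := 23 * c ^ 2 with hS
  have hS0 : 0 ≤ S := by positivity
  set B : ℝ := 24 * (1 + S) with hB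
  have hB0 : 24 ≤ B := by rw [hB]; linarith
  obtain ⟨L0, hL0⟩ := large A c
  refine ⟨B + D, max L0 3, by positivity, le_max_right _ _, ?_⟩
  intro T h L w R hT hh h12 hL hLL hw hR x hx hxh
  obtain ⟨g1, g2, g3, g4⟩ := hL0 L ((le_max_left _ _).trans hLL)
  have hLpos : 0 < L := by linarith
  have hT0 : 0 < T := by linarith
  have hlT0 : 0 < Real.log T := Real.log_pos hT
  have hlTL : 2 * L ≤ Real.log T := by
    rw [hL]
    nlinarith
  set l := Real.log L with hl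
  have hl0 : 0 < l := by linarith
  have hw0 : 0 < w := by
    rw [hw]
    positivity
  have hR0 : 0 < R := by
    rw [hR]
    positivity
  have hR16 : 16 ≤ R := by
    rw [hR, le_div_iff₀ (by positivity)]
    linarith
  have hwc : w * (16 + c) ≤ 1 := by
    rw [hw, div_mul_eq_mul_div, div_le_one hlT0]
    linarith
  have h8 : w ≤ 1 / 8 := by nlinarith
  have hch : c * w ≤ 1 := by nlinarith
  set F : ℝ → ℝ := Mw w with hF
  have hFb : ∀ ξ, ‖FF F ξ‖ ≤ bp c w ξ := fun ξ => hcF w hw0 (by linarith) ξ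
  have hF1 : ∀ ξ, ‖FF F ξ‖ ≤ 1 := fun ξ => (hFb ξ).trans ((bp_le hc0 hw0 ξ).trans hch)
  set M : ℕ := ⌊Real.exp (2 * R)⌋₊ with hMdef
  have hMle : (M : ℝ) ≤ Real.exp (2 * R) := Nat.floor_le (Real.exp_pos _).le
  have hM1 : 1 ≤ M := by
    rw [hMdef, Nat.one_le_floor_iff]
    exact Real.one_le_exp (by linarith)
  have hMX : ∀ n : ℕ, M < n → 2 * R ≤ Real.log n := by
    intro n hn
    have h1 : Real.exp (2 * R) < n := (Nat.floor_lt (Real.exp_pos _).le).1 hn
    rw [Real.le_log_iff_exp_le ((Real.exp_pos _).trans h1)]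
    exact h1.le
  set a : ℕ → ℂ := fun p => ag u F R p * ee p x with ha
  have han : ∀ p, ‖a p‖ = ‖ag u F R p‖ := by
    intro p
    rw [ha]
    show ‖ag u F R p * ee p x‖ = _
    rw [norm_mul, norm_ee, mul_one]
  have haa : ∀ p : ℕ, ‖a p‖ ≤ 1 := by
    intro p
    rw [han]
    refine (ag_le hu F R p).trans ((aa_le hR0 p).trans ?_)
    have h1 : ArithmeticFunction.vonMangoldt p / Real.sqrt p ≤ 1 :=
      (div_le_div_of_nonneg_right ArithmeticFunction.vonMangoldt_le_log (Real.sqrt_nonneg _)).trans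
        (Pool.Agent.H203.ME.log_div_sqrt_le p)
    calc _ ≤ 1 * 1 := mul_le_mul h1 (hF1 _) (norm_nonneg _) zero_le_one
      _ = 1 := one_mul _
  have hSa : ∑ p ∈ (Finset.Icc 1 M).filter Nat.Prime, ‖a p‖ ^ 2 ≤ S := by
    simp only [han]
    exact Pool.Agent.H203.GE.BMGL.primes hu hR0 hc0 hw0 h8 hFb M
  -- the exponent
  set m : ℕ := ⌊8 * l⌋₊ with hm
  have hm1 : (m : ℝ) ≤ 8 * l := Nat.floor_le (by positivity)
  have hm2 : 8 * l - 1 < m := by
    have := Nat.lt_floor_add_one (8 * l)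
    rw [← hm] at this
    linarith
  have hmpos : 1 ≤ m := by
    rw [hm, Nat.one_le_floor_iff]
    linarith
  have hNT : (M : ℝ) ^ (4 * m) ≤ T := by
    calc (M : ℝ) ^ (4 * m) ≤ (Real.exp (2 * R)) ^ (4 * m) := pow_le_pow_left₀ (Nat.cast_nonneg _) hMle _
      _ = Real.exp ((4 * m : ℕ) * (2 * R)) := by rw [← Real.exp_nat_mul]
      _ ≤ Real.exp (Real.log T) := by
          apply Real.exp_le_exp.2
          push_cast
          have h1 : 64 * l * R = Real.log T := by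
            rw [hR]
            field_simp
          have h2 : 8 * (m : ℝ) * R ≤ 64 * l * R := by
            apply mul_le_mul_of_nonneg_right _ hR0.le
            linarith
          linarith
      _ = T := Real.exp_log hT0
  set lam : ℝ := B * l with hlam
  have hlam0 : 0 < lam := by positivity
  have h3 : 3 * (m * (1 + S)) ≤ lam ^ 2 := by
    have h1 : (m : ℝ) * (1 + S) ≤ 8 * l * (1 + S) := mul_le_mul_of_nonneg_right hm1 (by linarith)
    have h2 : lam ^ 2 = B * l * (B * l) := by rw [hlam]; ring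
    have h4 : 1 ≤ B * l := by nlinarith
    have h5 : B * l * 1 ≤ B * l * (B * l) := mul_le_mul_of_nonneg_left h4 (by positivity)
    have h6 : B * l = 3 * (8 * l * (1 + S)) := by rw [hB]; ring
    rw [h2]
    linarith
  have n1 := num_le (m := m) (l := (m : ℝ) / 8) (S := S) (lam := lam) (T := T) (by linarith)
    (by linarith) (by linarith [(Nat.cast_nonneg m : (0 : ℝ) ≤ m)]) hlam0 hS0 hT0.le h3
  have v1 := moment1 hM hmpos hM1 hT.le haa hNT hSa hlam0
  have hsub : {t : ℝ | T ≤ t ∧ t ≤ 2 * T ∧ (B + D) * l < |BG u F R (t + x)|} ⊆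
      {t : ℝ | T ≤ t ∧ t ≤ 2 * T ∧
        lam < ‖∑ p ∈ (Finset.Icc 1 M).filter Nat.Prime, a p * ee p t‖} := by
    rintro t ⟨t1, t2, t3⟩
    refine ⟨t1, t2, ?_⟩
    obtain ⟨v, hv, he⟩ := Pool.Agent.H203.GE.BMGL.split hu hF1 hR16 M hMX (t + x)
    have h1 : ∑ n ∈ Finset.Icc 1 M, ag u F R n * ee n (t + x) =
        ∑ p ∈ (Finset.Icc 1 M).filter Nat.Prime, a p * ee p t +
        ∑ n ∈ (Finset.Icc 1 M).filter (fun n => ¬ n.Prime), ag u F R n * ee n (t + x) := by
      rw [← Finset.sum_filter_add_sum_filter_not (Finset.Icc 1 M) Nat.Prime]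
      congr 1
      refine Finset.sum_congr rfl fun p _ => ?_
      show _ = ag u F R p * ee p x * ee p t
      rw [ee_add]
      ring
    have h2 : ‖∑ n ∈ (Finset.Icc 1 M).filter (fun n => ¬ n.Prime), ag u F R n * ee n (t + x)‖ ≤
        C3 + 23 * c := by
      refine (norm_sum_le _ _).trans
        (le_trans (le_of_eq ?_) (hnp u hu F c w R hR0 hc0 hw0 h8 hch hFb M))
      refine Finset.sum_congr rfl fun n _ => ?_
      rw [norm_mul, norm_ee, mul_one]
    have h4 : |BG u F R (t + x)| ≤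
        ‖∑ p ∈ (Finset.Icc 1 M).filter Nat.Prime, a p * ee p t‖ + D := by
      rw [he, h1]
      refine (Complex.abs_re_le_norm _).trans ((norm_add_le _ _).trans ?_)
      have := norm_add_le (∑ p ∈ (Finset.Icc 1 M).filter Nat.Prime, a p * ee p t)
        (∑ n ∈ (Finset.Icc 1 M).filter (fun n => ¬ n.Prime), ag u F R n * ee n (t + x))
      rw [hD]
      linarith
    have h5 : D * 1 ≤ D * l := mul_le_mul_of_nonneg_left (by linarith) hD0
    rw [hlam]
    linarith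
  refine (measure_mono hsub).trans (v1.trans (ENNReal.ofReal_le_ofReal (n1.trans ?_)))
  -- the final estimate
  have e1 : Real.exp (-(8 * ((m : ℝ) / 8))) ≤ Real.exp 1 * (L ^ (-3 : ℝ) * L ^ (-5 : ℝ)) := by
    rw [← Real.rpow_add hLpos, Real.rpow_def_of_pos hLpos, ← Real.exp_add]
    apply Real.exp_le_exp.2
    rw [← hl]
    linarith
  have e2 : ((m : ℝ) / 8) ^ 2 ≤ l ^ 2 := by
    apply pow_le_pow_left₀ (by positivity)
    linarith
  have e3 : Real.exp 1 ≤ 3 := by linarith [Real.exp_one_lt_d9]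
  have e4 : 972 * l ^ 2 * L ^ (-5 : ℝ) ≤ 1 := by
    have h3 : l ≤ L := (Real.log_le_sub_one_of_pos hLpos).trans (by linarith)
    have h4 : l ^ 2 ≤ L ^ 2 := pow_le_pow_left₀ hl0.le h3 2
    rw [Real.rpow_neg hLpos.le, show (5 : ℝ) = ((5 : ℕ) : ℝ) by norm_num, Real.rpow_natCast,
      ← div_eq_mul_inv, div_le_one (by positivity)]
    have h5 : (972 : ℝ) ≤ L ^ 3 := by
      calc (972 : ℝ) ≤ 64 ^ 3 := by norm_num
        _ ≤ L ^ 3 := pow_le_pow_left₀ (by norm_num) g1 3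
    have h6 : 972 * L ^ 2 ≤ L ^ 3 * L ^ 2 := mul_le_mul_of_nonneg_right h5 (sq_nonneg L)
    have h7 : L ^ 3 * L ^ 2 = L ^ 5 := by ring
    linarith
  have hL3 : 0 ≤ L ^ (-3 : ℝ) := by positivity
  have hL5 : 0 ≤ L ^ (-5 : ℝ) := by positivity
  calc 324 * ((m : ℝ) / 8) ^ 2 * Real.exp (-(8 * ((m : ℝ) / 8))) * T
      ≤ 324 * l ^ 2 * (3 * (L ^ (-3 : ℝ) * L ^ (-5 : ℝ))) * T := by
        apply mul_le_mul_of_nonneg_right _ hT0.le
        refine mul_le_mul (by linarith) (e1.trans ?_) (Real.exp_pos _).le (by positivity)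
        exact mul_le_mul_of_nonneg_right e3 (by positivity)
    _ = T * L ^ (-3 : ℝ) * (972 * l ^ 2 * L ^ (-5 : ℝ)) := by ring
    _ ≤ T * L ^ (-3 : ℝ) * 1 := mul_le_mul_of_nonneg_left e4 (by positivity)
    _ = T * L ^ (-3 : ℝ) := mul_one _

end Pool.Agent.H203.HX
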