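import Pool.Agent.H203.HX.Defs3
import Pool.Agent.H203.HX.RS

set_option autoImplicit false

/-! (UQ) the prime side is `O(log L)` with overwhelming probability (by helper599). -/

open Complex Filter Topology Set MeasureTheory

namespace Pool.Agent.H203.HX

open Pool.Agent.H203.ME (ee gR WR cR om FF KF C2c w1)

namespace UQL

open ArithmeticFunction RSL
open Pool.Agent.H203.ME (PRML.kap PRML.Z1)

lemma Yb_zero (u : ℕ → ℂ) (t : ℝ) : Yb u 0 0 t = 0 := by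
  have h : PB 0 0 = ∅ := by
    rw [Finset.eq_empty_iff_forall_notMem]
    intro p hp
    obtain ⟨-, h1, h2⟩ := mem_PB.1 hp
    linarith
  unfold Yb
  rw [h]
  simp

/-- the sum of the squares of the coefficients -/
lemma sum_all (hP : S_PH) (hC : S_CB) : ∃ C : ℝ, 0 < C ∧ ∀ (u : ℕ → ℂ), (∀ n, ‖u n‖ ≤ 1) →
    ∀ (h w R x x' : ℝ), 0 < h → h ≤ 1 / 2 → h⁻¹ ≤ 2 * R → 0 ≤ x → x ≤ h → 0 ≤ x' → x' ≤ h →
    ∑ p ∈ (Finset.Icc 1 ⌊Real.exp (2 * R)⌋₊).filter Nat.Prime, ‖ap u w R 0 0 x x' p‖ ^ 2 ≤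
      C + Real.log (2 * R * h) := by
  classical
  obtain ⟨C, hC0, hCB⟩ := hC
  refine ⟨4 + C, by positivity, ?_⟩
  intro u hu h w R x x' hh h12 hhR hx hxh hx' hxh'
  have hi2 : 2 ≤ h⁻¹ := by
    rw [le_inv_comm₀ (by norm_num) hh]
    linarith
  have hR0 : 0 < R := by linarith
  obtain ⟨f, hf⟩ : ∃ f : ℕ → ℝ, f = fun p => ‖ap u w R 0 0 x x' p‖ ^ 2 := ⟨_, rfl⟩
  have hf0 : ∀ p, 0 ≤ f p := fun p => by
    rw [hf]
    exact sq_nonneg _
  have hno : ∀ p : ℕ, ¬ ((0 : ℝ) < Real.log p ∧ Real.log p ≤ 0) := by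
    rintro p ⟨h1, h2⟩
    linarith
  have hsub : (Finset.Icc 1 ⌊Real.exp (2 * R)⌋₊).filter Nat.Prime ⊆
      (Finset.Icc 1 ⌊Real.exp h⁻¹⌋₊).filter Nat.Prime ∪ PB h⁻¹ (2 * R) := by
    intro p hp
    rw [Finset.mem_filter, Finset.mem_Icc, Nat.le_floor_iff (Real.exp_pos _).le] at hp
    obtain ⟨⟨hp1, hp2⟩, hpp⟩ := hp
    have hp0 : (0 : ℝ) < p := by exact_mod_cast hpp.pos
    have hpl : Real.log p ≤ 2 * R := (Real.log_le_iff_le_exp hp0).2 hp2
    rw [Finset.mem_union, mem_PB, Finset.mem_filter, Finset.mem_Icc,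
      Nat.le_floor_iff (Real.exp_pos _).le, ← Real.log_le_iff_le_exp hp0]
    by_cases a1 : Real.log p ≤ h⁻¹
    · exact Or.inl ⟨⟨hp1, a1⟩, hpp⟩
    · push Not at a1
      exact Or.inr ⟨hpp, a1, hpl⟩
  have hsum : ∑ p ∈ (Finset.Icc 1 ⌊Real.exp (2 * R)⌋₊).filter Nat.Prime, f p ≤
      ∑ p ∈ (Finset.Icc 1 ⌊Real.exp h⁻¹⌋₊).filter Nat.Prime, f p + ∑ p ∈ PB h⁻¹ (2 * R), f p :=
    (Finset.sum_le_sum_of_subset_of_nonneg hsub (fun p _ _ => hf0 p)).trans (sum_union_le hf0)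
  have hsq : ∀ p : ℕ, (1 / Real.sqrt p) ^ 2 = 1 / (p : ℝ) := by
    intro p
    rw [div_pow, one_pow, Real.sq_sqrt (Nat.cast_nonneg p)]
  have s1 : ∑ p ∈ (Finset.Icc 1 ⌊Real.exp h⁻¹⌋₊).filter Nat.Prime, f p ≤ 4 := by
    refine le_trans (Finset.sum_le_sum fun p hp => ?_) (sum_small hh h12)
    rw [Finset.mem_filter, Finset.mem_Icc, Nat.le_floor_iff (Real.exp_pos _).le] at hp
    obtain ⟨⟨hp1, hp2⟩, hpp⟩ := hp
    have hp0 : (0 : ℝ) < p := by exact_mod_cast hpp.pos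
    have hpl : Real.log p ≤ h⁻¹ := (Real.log_le_iff_le_exp hp0).2 hp2
    have hl0 : 0 ≤ Real.log p := Real.log_natCast_nonneg p
    have h3 := ap_le' hP hu (w := w) hR0 0 0 x x' p (hno p)
    have h4 : ‖ee p x - ee p x'‖ ≤ h * Real.log p := by
      refine (dd_le p x x').trans (mul_le_mul_of_nonneg_right ?_ hl0)
      rw [abs_le]
      constructor <;> linarith
    have h5 : h * Real.log p ≤ 1 := by
      calc h * Real.log p ≤ h * h⁻¹ := mul_le_mul_of_nonneg_left hpl hh.le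
        _ = 1 := mul_inv_cancel₀ hh.ne'
    have h6 : f p ≤ (1 / Real.sqrt p * (h * Real.log p)) ^ 2 := by
      rw [hf]
      apply pow_le_pow_left₀ (norm_nonneg _)
      calc _ ≤ 1 / Real.sqrt p * ‖ee p x - ee p x'‖ * (1 / 3) := h3
        _ ≤ 1 / Real.sqrt p * ‖ee p x - ee p x'‖ * 1 := by
            apply mul_le_mul_of_nonneg_left (by norm_num) (by positivity)
        _ = 1 / Real.sqrt p * ‖ee p x - ee p x'‖ := mul_one _
        _ ≤ _ := mul_le_mul_of_nonneg_left h4 (by positivity)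
    refine h6.trans ?_
    rw [mul_pow, hsq, vonMangoldt_apply_prime hpp]
    have h7 : (h * Real.log p) ^ 2 ≤ h * Real.log p := by nlinarith [mul_nonneg hh.le hl0]
    calc 1 / (p : ℝ) * (h * Real.log p) ^ 2 ≤ 1 / (p : ℝ) * (h * Real.log p) :=
          mul_le_mul_of_nonneg_left h7 (by positivity)
      _ = _ := by ring
  have hgen : ∀ p : ℕ, f p ≤ 1 / (p : ℝ) := by
    intro p
    have h3 := ap_le' hP hu (w := w) hR0 0 0 x x' p (hno p)
    have h4 := dd_le_two p x x'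
    have h6 : f p ≤ (1 / Real.sqrt p) ^ 2 := by
      rw [hf]
      apply pow_le_pow_left₀ (norm_nonneg _)
      have h5 : (0 : ℝ) ≤ 1 / Real.sqrt p := by positivity
      calc _ ≤ 1 / Real.sqrt p * ‖ee p x - ee p x'‖ * (1 / 3) := h3
        _ = 1 / Real.sqrt p * (‖ee p x - ee p x'‖ * (1 / 3)) := by ring
        _ ≤ 1 / Real.sqrt p * 1 := mul_le_mul_of_nonneg_left (by linarith) h5
        _ = _ := mul_one _
    rwa [hsq] at h6
  have s2 : ∑ p ∈ PB h⁻¹ (2 * R), f p ≤ Real.log (2 * R * h) + C := by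
    have h3 : ∑ p ∈ PB h⁻¹ (2 * R), f p ≤ ∑ p ∈ PB h⁻¹ (2 * R), 1 / (p : ℝ) :=
      Finset.sum_le_sum fun p _ => hgen p
    have h4 := (hCB h⁻¹ (2 * R) (by linarith) hhR).1
    have h5 : 2 * R / h⁻¹ = 2 * R * h := by rw [div_inv_eq_mul]
    have h6 : C / h⁻¹ ≤ C := div_le_self hC0.le (by linarith)
    rw [h5] at h4
    have h7 := (abs_le.1 h4).2
    linarith
  rw [hf] at hsum s1 s2
  linarith

/-- the numerical estimate -/
lemma num2 {m : ℕ} {l S lam T : ℝ} (hl : 1 ≤ l) (hm1 : 4 * l ≤ m) (hm2 : (m : ℝ) ≤ 5 * l)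
    (hlam : 0 < lam) (hS : 0 ≤ S) (hT : 0 ≤ T) (h3 : 3 * (m * (1 + S)) ≤ lam ^ 2) :
    4 * (m.factorial : ℝ) * m ^ 2 * (1 + S) ^ m * T / lam ^ (2 * m) ≤
      100 * l ^ 2 * Real.exp (-(4 * l)) * T := by
  have hm0 : (0 : ℝ) < m := by linarith
  have h4 : (m.factorial : ℝ) ≤ (m : ℝ) ^ m := by exact_mod_cast Nat.factorial_le_pow m
  have h5 : ((m : ℝ) * (1 + S)) / lam ^ 2 ≤ 1 / 3 := by
    rw [div_le_div_iff₀ (by positivity) (by norm_num)]
    linarith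
  have h6 : (1 / 3 : ℝ) ≤ Real.exp (-1) := by
    rw [Real.exp_neg, one_div]
    apply inv_anti₀ (Real.exp_pos _)
    linarith [Real.exp_one_lt_d9]
  have h7 : (((m : ℝ) * (1 + S)) / lam ^ 2) ^ m ≤ Real.exp (-(4 * l)) := by
    calc (((m : ℝ) * (1 + S)) / lam ^ 2) ^ m ≤ (Real.exp (-1)) ^ m :=
          pow_le_pow_left₀ (by positivity) (h5.trans h6) m
      _ = Real.exp (m * (-1)) := by rw [← Real.exp_nat_mul]
      _ ≤ _ := Real.exp_le_exp.2 (by linarith)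
  have h8 : (m : ℝ) ^ 2 ≤ 25 * l ^ 2 := by nlinarith
  calc 4 * (m.factorial : ℝ) * m ^ 2 * (1 + S) ^ m * T / lam ^ (2 * m)
      ≤ 4 * (m : ℝ) ^ m * m ^ 2 * (1 + S) ^ m * T / lam ^ (2 * m) := by
        apply div_le_div_of_nonneg_right _ (by positivity)
        gcongr
    _ = 4 * m ^ 2 * (((m : ℝ) * (1 + S)) / lam ^ 2) ^ m * T := by
        rw [div_pow, mul_pow, ← pow_mul]
        ring
    _ ≤ 4 * (25 * l ^ 2) * Real.exp (-(4 * l)) * T := by
        apply mul_le_mul_of_nonneg_right _ hT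
        exact mul_le_mul (by linarith) h7 (by positivity) (by positivity)
    _ = _ := by ring

end UQL

open RSL UQL in
/-- (UQ) -/
theorem t_UQ (hM : S_MP) (hP : S_PH) (hC : S_CB) : S_UQ := by
  intro u hu A hA
  obtain ⟨Cd, hCd, hdec⟩ := decomp hP
  obtain ⟨C, hC0, hsum⟩ := sum_all hP hC
  have hZ := Pool.Agent.H203.ME.PRML.Z1_nonneg
  obtain ⟨Z, hZd⟩ : ∃ Z, Z = Pool.Agent.H203.ME.PRML.Z1 := ⟨_, rfl⟩
  rw [← hZd] at hZ
  obtain ⟨C1, hC1⟩ : ∃ C1 : ℝ, C1 = 240 * (2 + C) + 240 * (1 + Z) + 2 * Cd := ⟨_, rfl⟩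
  have hC1a : 240 * (2 + C) ≤ C1 := by rw [hC1]; nlinarith
  have hC1b : 240 * (1 + Z) ≤ C1 := by rw [hC1]; nlinarith
  have hC1c : 2 * Cd ≤ C1 := by rw [hC1]; nlinarith
  have hC1one : 1 ≤ C1 := by linarith
  have hC1sq : C1 ≤ C1 ^ 2 := by nlinarith
  have ev : ∀ᶠ L : ℝ in atTop, 64 ≤ L ∧ 1 ≤ Real.log L ∧ 512 * Real.log L ≤ L ∧
      200 * Real.log L ^ 2 ≤ L := by
    have e1 : ∀ᶠ L : ℝ in atTop, 512 * Real.log L ≤ L := by
      have h1 := (isLittleO_log_rpow_atTop (r := 1) (by norm_num)).bound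
        (show (0 : ℝ) < 1 / 512 by norm_num)
      filter_upwards [h1, eventually_ge_atTop (1 : ℝ)] with L h3 h5
      rw [Real.rpow_one, Real.norm_of_nonneg (Real.log_nonneg h5), Real.norm_of_nonneg (by positivity)] at h3
      linarith
    have e2 : ∀ᶠ L : ℝ in atTop, 200 * Real.log L ^ 2 ≤ L := by
      have h1 := (isLittleO_log_rpow_atTop (r := 1 / 2) (by norm_num)).bound
        (show (0 : ℝ) < 1 / 15 by norm_num)
      filter_upwards [h1, eventually_ge_atTop (1 : ℝ)] with L h3 h5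
      rw [Real.norm_of_nonneg (Real.log_nonneg h5), Real.norm_of_nonneg (by positivity)] at h3
      have h6 : Real.log L ^ 2 ≤ (1 / 15 * L ^ (1 / 2 : ℝ)) ^ 2 :=
        pow_le_pow_left₀ (Real.log_nonneg h5) h3 2
      have h7 : (L ^ (1 / 2 : ℝ)) ^ 2 = L := by
        rw [← Real.sqrt_eq_rpow, Real.sq_sqrt (by linarith)]
      rw [mul_pow, h7] at h6
      linarith
    filter_upwards [eventually_ge_atTop (64 : ℝ), Real.tendsto_log_atTop.eventually_ge_atTop 1,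
      e1, e2] with L a1 a2 a3 a4
    exact ⟨a1, a2, a3, a4⟩
  obtain ⟨L0, hL0⟩ := eventually_atTop.1 ev
  refine ⟨C1, max L0 3, by linarith, le_max_right _ _, ?_⟩
  intro T h L w R hT hh h12 hL hLL hw hR x x' hx hxh hx' hxh'
  obtain ⟨g1, g2, g3, g4⟩ := hL0 L ((le_max_left _ _).trans hLL)
  have hLpos : 0 < L := by linarith
  have hT0 : 0 < T := by linarith
  have hlT : Real.log T = L / h := by
    rw [hL]
    field_simp
  have hlT0 : 0 < Real.log T := Real.log_pos hT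
  obtain ⟨l, hl⟩ : ∃ l, l = Real.log L := ⟨_, rfl⟩
  rw [← hl] at g2 g3 g4 hR hw ⊢
  have hl0 : 0 < l := by linarith
  have hlR : R * (64 * l) = Real.log T := by
    rw [hR]
    field_simp
  have hRh : 2 * R * h * (32 * l) = L := by
    have h1 : 2 * R * h * (32 * l) = h * (R * (64 * l)) := by ring
    rw [h1, hlR, hL]
  have hRh16 : 16 ≤ 2 * R * h := by
    have h1 : 16 * (32 * l) ≤ 2 * R * h * (32 * l) := by
      rw [hRh]
      linarith
    exact le_of_mul_le_mul_right h1 (by positivity)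
  have hRhL : 2 * R * h ≤ L := by
    have h1 : 2 * R * h * 1 ≤ 2 * R * h * (32 * l) :=
      mul_le_mul_of_nonneg_left (by linarith) (by linarith)
    rw [hRh] at h1
    linarith
  have hR0 : 0 < R := by
    rw [hR]
    positivity
  have hR16 : 16 ≤ R := by
    have h1 : R * (2 * h) ≤ R * 1 := mul_le_mul_of_nonneg_left (by linarith) hR0.le
    linarith
  have hhR : h⁻¹ ≤ 2 * R := by
    rw [inv_le_iff_one_le_mul₀ hh]
    linarith
  -- the parameters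
  obtain ⟨m, hm⟩ : ∃ m : ℕ, m = ⌈4 * l⌉₊ := ⟨_, rfl⟩
  have hm1 : 4 * l ≤ m := by
    rw [hm]
    exact Nat.le_ceil _
  have hm2 : (m : ℝ) ≤ 5 * l := by
    have := (Nat.ceil_lt_add_one (show 0 ≤ 4 * l by positivity)).le
    rw [← hm] at this
    linarith
  have hmpos : 1 ≤ m := by
    have : (0 : ℝ) < m := by linarith
    exact_mod_cast this
  obtain ⟨N, hN⟩ : ∃ N : ℕ, N = ⌊Real.exp (2 * R)⌋₊ := ⟨_, rfl⟩
  have hN1 : 1 ≤ N := by
    rw [hN, Nat.one_le_floor_iff]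
    exact Real.one_le_exp (by linarith)
  have hNT : (N : ℝ) ^ (4 * m) ≤ T := by
    have h1 : (N : ℝ) ≤ Real.exp (2 * R) := by
      rw [hN]
      exact Nat.floor_le (Real.exp_pos _).le
    calc (N : ℝ) ^ (4 * m) ≤ (Real.exp (2 * R)) ^ (4 * m) := pow_le_pow_left₀ (Nat.cast_nonneg _) h1 _
      _ = Real.exp ((4 * m : ℕ) * (2 * R)) := by rw [← Real.exp_nat_mul]
      _ ≤ Real.exp (Real.log T) := by
          apply Real.exp_le_exp.2
          push_cast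
          have h3 : R * m ≤ R * (5 * l) := mul_le_mul_of_nonneg_left hm2 hR0.le
          have h4 : 0 ≤ R * l := by positivity
          linarith
      _ = T := Real.exp_log hT0
  obtain ⟨lam, hlam⟩ : ∃ lam : ℝ, lam = C1 * l / 4 := ⟨_, rfl⟩
  have hlam0 : 0 < lam := by
    rw [hlam]
    positivity
  have hlam2 : lam ^ 2 = C1 ^ 2 * l ^ 2 / 16 := by
    rw [hlam]
    ring
  obtain ⟨a, ha⟩ : ∃ a : ℕ → ℂ, a = ap u w R 0 0 x x' := ⟨_, rfl⟩
  obtain ⟨b, hb⟩ : ∃ b : ℕ → ℂ, b = sp u w R N x x' := ⟨_, rfl⟩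
  -- the sums
  have hS1' : ∑ p ∈ (Finset.Icc 1 N).filter Nat.Prime, ‖a p‖ ^ 2 ≤ C + l := by
    rw [ha, hN]
    refine (hsum u hu h w R x x' hh h12 hhR hx hxh hx' hxh').trans ?_
    have h1 : Real.log (2 * R * h) ≤ l := by
      rw [hl]
      exact Real.log_le_log (by linarith) hRhL
    linarith
  have hS2' : ∑ p ∈ (Finset.Icc 1 N).filter Nat.Prime, ‖b p‖ ^ 2 ≤ Z := by
    rw [hb, hZd]
    exact sum_sp hP hu hR0 N N x x'
  -- the numerical conditions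
  have c1 : 3 * (m * (1 + (C + l))) ≤ lam ^ 2 := by
    have h1 : 1 + (C + l) ≤ (2 + C) * l := by nlinarith
    have h2 : (m : ℝ) * (1 + (C + l)) ≤ (5 * l) * ((2 + C) * l) :=
      mul_le_mul hm2 h1 (by linarith) (by positivity)
    have h3 : 240 * (2 + C) * l ^ 2 ≤ C1 ^ 2 * l ^ 2 :=
      mul_le_mul_of_nonneg_right (by linarith) (sq_nonneg l)
    rw [hlam2]
    nlinarith
  have c2 : 3 * (m * (1 + Z)) ≤ lam ^ 2 := by
    have h2 : (m : ℝ) * (1 + Z) ≤ (5 * l) * (1 + Z) :=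
      mul_le_mul_of_nonneg_right hm2 (by linarith)
    have h4 : l * (1 + Z) ≤ l ^ 2 * (1 + Z) := mul_le_mul_of_nonneg_right (by nlinarith) (by linarith)
    have h3 : 240 * (1 + Z) * l ^ 2 ≤ C1 ^ 2 * l ^ 2 :=
      mul_le_mul_of_nonneg_right (by linarith) (sq_nonneg l)
    rw [hlam2]
    nlinarith
  have n1 := num2 (T := T) g2 hm1 hm2 hlam0 (by positivity : 0 ≤ C + l) hT0.le c1
  have n2 := num2 (T := T) g2 hm1 hm2 hlam0 hZ hT0.le c2
  have v1 := moment1 hM hmpos hN1 hT.le (a := a) (fun p => by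
    rw [ha]
    exact ap_le_one hP hu (w := w) hR0 _ _ x x' p) hNT hS1' hlam0
  have v2 := moment2 hM hmpos hN1 hT.le (a := b) (fun p => by
    rw [hb]
    exact sp_le_one hP hu (w := w) hR0 N x x' p) hNT hS2' hlam0
  -- the set
  have hsub : {t : ℝ | T ≤ t ∧ t ≤ 2 * T ∧ C1 * l < |Qs u w R (t + x) - Qs u w R (t + x')|} ⊆
      {t : ℝ | T ≤ t ∧ t ≤ 2 * T ∧ lam < ‖∑ p ∈ (Finset.Icc 1 N).filter Nat.Prime, a p * ee p t‖} ∪
      {t : ℝ | T ≤ t ∧ t ≤ 2 * T ∧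
        lam < ‖∑ p ∈ (Finset.Icc 1 N).filter Nat.Prime, b p * ee p (2 * t)‖} := by
    rintro t ⟨t1, t2, t3⟩
    have h1 := hdec u hu w R 0 0 hR16 (by linarith) x x' t
    rw [Yb_zero, Yb_zero, sub_self, sub_zero, ← hN, ← ha, ← hb] at h1
    by_contra hcon
    rw [mem_union, not_or] at hcon
    have h2 : ‖∑ p ∈ (Finset.Icc 1 N).filter Nat.Prime, a p * ee p t‖ ≤ lam := by
      by_contra h3
      push Not at h3
      exact hcon.1 ⟨t1, t2, h3⟩
    have h4 : ‖∑ p ∈ (Finset.Icc 1 N).filter Nat.Prime, b p * ee p (2 * t)‖ ≤ lam := by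
      by_contra h3
      push Not at h3
      exact hcon.2 ⟨t1, t2, h3⟩
    have h5 : C1 ≤ C1 * l := le_mul_of_one_le_right (by linarith) g2
    rw [hlam] at h2 h4
    linarith
  refine (measure_mono hsub).trans ((measure_union_le _ _).trans ?_)
  have hfin : 100 * l ^ 2 * Real.exp (-(4 * l)) * T ≤ T * L ^ (-3 : ℝ) / 2 := by
    have h1 : Real.exp (-(4 * l)) = L ^ (-3 : ℝ) * L ^ (-1 : ℝ) := by
      rw [← Real.rpow_add hLpos, Real.rpow_def_of_pos hLpos]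
      congr 1
      rw [← hl]
      ring
    have h2 : 100 * l ^ 2 * L ^ (-1 : ℝ) ≤ 1 / 2 := by
      rw [Real.rpow_neg_one, ← div_eq_mul_inv, div_le_iff₀ hLpos]
      linarith
    have h3 : 0 ≤ T * L ^ (-3 : ℝ) := by positivity
    rw [h1]
    calc 100 * l ^ 2 * (L ^ (-3 : ℝ) * L ^ (-1 : ℝ)) * T =
          (T * L ^ (-3 : ℝ)) * (100 * l ^ 2 * L ^ (-1 : ℝ)) := by ring
      _ ≤ (T * L ^ (-3 : ℝ)) * (1 / 2) := mul_le_mul_of_nonneg_left h2 h3
      _ = _ := by ring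
  calc _ ≤ ENNReal.ofReal (T * L ^ (-3 : ℝ) / 2) + ENNReal.ofReal (T * L ^ (-3 : ℝ) / 2) :=
        add_le_add (v1.trans (ENNReal.ofReal_le_ofReal (n1.trans hfin)))
          (v2.trans (ENNReal.ofReal_le_ofReal (n2.trans hfin)))
    _ = ENNReal.ofReal (T * L ^ (-3 : ℝ)) := by
        rw [← ENNReal.ofReal_add (by positivity) (by positivity)]
        congr 1
        ring

end Pool.Agent.H203.HX
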