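import Pool.Agent.H203.HX.Defs3
import Pool.Agent.H203.GE.BBI

set_option autoImplicit false

/-! Leaf UZ: for most `t` all the smoothed discrepancies on the grid are `O(log L)`. -/

open Complex Filter Topology Set MeasureTheory

namespace Pool.Agent.H203.HX

open Pool.Agent.H203.ME (ee gR WR cR om FF KF C2c w1)
open Pool.Agent.H203.GE (Lf ZG XG BG NWG)

namespace UZL

lemma w1_cont : Continuous w1 := by
  unfold w1
  exact continuous_const.div (by fun_prop) (fun x => by positivity)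

lemma w1_nonneg (u : ℝ) : 0 ≤ w1 u := by
  unfold w1
  positivity

lemma PR_cont (G : ℂ → ℂ) (T w R : ℝ) : Continuous (PR G T w R) := by
  unfold PR
  refine continuous_finsetSum _ fun s _ => ?_
  exact continuous_const.mul ((w1_cont.comp (by fun_prop)).mul continuous_const)

lemma PR_nonneg (G : ℂ → ℂ) (T w R t : ℝ) : 0 ≤ PR G T w R t := by
  unfold PR
  exact Finset.sum_nonneg fun s _ => mul_nonneg (Nat.cast_nonneg _)
    (mul_nonneg (w1_nonneg _) (by positivity))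

/-- Markov inequality -/
lemma mk {f : ℝ → ℝ} (hf : Continuous f) (h0 : ∀ t, 0 ≤ f t) {a b c I : ℝ} (hab : a ≤ b)
    (hc : 0 < c) (hI : ∫ t in a..b, f t ≤ I) :
    volume {t : ℝ | a ≤ t ∧ t ≤ b ∧ c < f t} ≤ ENNReal.ofReal (I / c) := by
  have hint : IntegrableOn f (Icc a b) := hf.integrableOn_Icc
  have h1 := mul_meas_ge_le_integral_of_nonneg (μ := volume.restrict (Icc a b))
    (Eventually.of_forall h0) hint c
  have h2 : ∫ t in Icc a b, f t = ∫ t in a..b, f t := by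
    rw [intervalIntegral.integral_of_le hab, integral_Icc_eq_integral_Ioc]
  rw [h2] at h1
  have h3 : (volume.restrict (Icc a b)).real {t | c ≤ f t} ≤ I / c := by
    rw [le_div_iff₀ hc, mul_comm]
    exact h1.trans hI
  have h4 : volume {t : ℝ | a ≤ t ∧ t ≤ b ∧ c < f t} ≤
      (volume.restrict (Icc a b)) {t | c ≤ f t} := by
    rw [Measure.restrict_apply (measurableSet_le measurable_const hf.measurable)]
    exact measure_mono fun t ht => ⟨ht.2.2.le, ht.1, ht.2.1⟩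
  refine h4.trans ?_
  rw [← ENNReal.ofReal_toReal (a := (volume.restrict (Icc a b)) {t | c ≤ f t})
    (measure_ne_top _ _)]
  exact ENNReal.ofReal_le_ofReal h3

lemma ev4 {C η : ℝ} (hη : 0 < η) : ∀ᶠ x : ℝ in atTop, C / x ≤ η := by
  have h1 : Tendsto (fun x : ℝ => C / x) atTop (𝓝 0) := tendsto_const_nhds.div_atTop tendsto_id
  filter_upwards [h1.eventually (gt_mem_nhds hη)] with x hx
  exact hx.le

lemma ev5 {η : ℝ} (hη : 0 < η) : ∀ᶠ x : ℝ in atTop, 5 * x ≤ η * Real.exp x := by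
  have h1 := Real.tendsto_pow_mul_exp_neg_atTop_nhds_zero 1
  filter_upwards [h1.eventually (gt_mem_nhds (show (0 : ℝ) < η / 5 by positivity))] with x hx
  rw [pow_one] at hx
  have h2 := Real.exp_pos x
  have h3 : x * Real.exp (-x) * Real.exp x = x := by
    rw [mul_assoc, ← Real.exp_add, neg_add_cancel, Real.exp_zero, mul_one]
  have h4 : x * Real.exp (-x) * Real.exp x ≤ η / 5 * Real.exp x :=
    mul_le_mul_of_nonneg_right hx.le h2.le
  rw [h3] at h4
  linarith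

lemma ev6 {A : ℝ} (hA : 0 < A) : ∀ᶠ x : ℝ in atTop, (A * Real.log x) ^ 2 ≤ x := by
  have h1 := (Real.isLittleO_pow_log_id_atTop (n := 2)).def (show (0 : ℝ) < 1 / A ^ 2 by positivity)
  filter_upwards [h1, eventually_ge_atTop 0] with x hx hx0
  rw [Real.norm_eq_abs, Real.norm_eq_abs, id, abs_of_nonneg (sq_nonneg _), abs_of_nonneg hx0] at hx
  have h2 := mul_le_mul_of_nonneg_left hx (sq_nonneg A)
  have h3 : A ^ 2 * (1 / A ^ 2 * x) = x := by
    field_simp
  rw [h3] at h2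
  rw [mul_pow]
  exact h2

end UZL

open UZL in
theorem t_UZ (hN : S_NB) (hP : S_PB) (hE : S_ER) (hQI : S_QI) (hUQ : S_UQ) (hUM : S_UM) :
    S_UZ := by
  intro G u hG
  obtain ⟨C1, T1, hC1, hT1, hNB⟩ := hN G u hG
  obtain ⟨C2, T2, hC2, hT2, hPB⟩ := hP G u hG
  obtain ⟨C3, T3, hC3, hT3, hER⟩ := hE G u hG
  obtain ⟨A, hA⟩ : ∃ A : ℝ, A = 64 * C1 := ⟨_, rfl⟩
  have hA64 : 64 ≤ A := by rw [hA]; linarith
  have hA0 : 0 < A := by linarith
  obtain ⟨C4, L4, hC4, hL4, hQ⟩ := hUQ u hG.le1 A hA64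
  obtain ⟨C5, L5, hC5, hL5, hM⟩ := hUM u hG.le1 A hA64
  obtain ⟨C, hC⟩ : ∃ C : ℝ, C = 2 * C3 * (C1 * (A + C5 + 2)) + 4 * C3 + C4 := ⟨_, rfl⟩
  have hC0 : 0 < C := by
    rw [hC]
    have : 0 < C1 := by linarith
    positivity
  refine ⟨A, C, hA64, hC0, fun ε hε => ?_⟩
  have hev : ∀ᶠ x : ℝ in atTop, 3 ≤ x ∧ T1 ≤ Real.exp x ∧ T2 ≤ Real.exp x ∧ T3 ≤ Real.exp x ∧
      L4 ≤ x ∧ L5 ≤ x ∧ (A * Real.log x) ^ 2 ≤ x ∧ (2 * C2 + 6) / x ≤ ε / 2 ∧
      5 * x ≤ ε / 2 * Real.exp x := by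
    filter_upwards [eventually_ge_atTop 3, Real.tendsto_exp_atTop.eventually_ge_atTop T1,
      Real.tendsto_exp_atTop.eventually_ge_atTop T2, Real.tendsto_exp_atTop.eventually_ge_atTop T3,
      eventually_ge_atTop L4, eventually_ge_atTop L5, ev6 hA0,
      ev4 (C := 2 * C2 + 6) (show 0 < ε / 2 by positivity),
      ev5 (show 0 < ε / 2 by positivity)] with x h1 h2 h3 h4 h5 h6 h7 h8 h9
    exact ⟨h1, h2, h3, h4, h5, h6, h7, h8, h9⟩
  obtain ⟨L0, hL0⟩ := eventually_atTop.1 hev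
  refine ⟨max 3 L0, le_max_left _ _, fun T h L w hT hh hh2 hLh hL hw => ?_⟩
  obtain ⟨y, hy⟩ : ∃ y, y = Real.log T := ⟨_, rfl⟩
  obtain ⟨ℓ, hℓ⟩ : ∃ ℓ, ℓ = Real.log L := ⟨_, rfl⟩
  obtain ⟨R, hR⟩ : ∃ R, R = Real.log T / (64 * Real.log L) := ⟨_, rfl⟩
  have hQ' := hQ T h L w R hT hh hh2 hLh
  have hM' := hM T h L w R hT hh hh2 hLh
  have hT0 : 0 < T := by linarith
  have hTy : T = Real.exp y := by rw [hy, Real.exp_log hT0]
  have hxL : L0 ≤ L := le_trans (le_max_right _ _) hL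
  have hL3 : 3 ≤ L := le_trans (le_max_left _ _) hL
  have hLpos : 0 < L := by linarith
  obtain ⟨-, -, -, -, p5, p6, p7, p8, -⟩ := hL0 L hxL
  specialize hQ' p5 hw hR
  specialize hM' p6 hw hR
  rw [← hℓ] at hQ' hM'
  rw [← hy] at hLh hw hR
  rw [← hℓ] at hw hR p7
  have hy0 : 0 < y := by rw [hy]; exact Real.log_pos hT
  have h2L : 2 * L ≤ y := by rw [hLh]; nlinarith
  have hLy : L ≤ y := by linarith
  obtain ⟨-, q2, q3, q4, -, -, -, -, q9⟩ := hL0 y (hxL.trans hLy)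
  rw [← hTy] at q2 q3 q4 q9
  have hℓ1 : 1 ≤ ℓ := by
    rw [hℓ, Real.le_log_iff_exp_le hLpos]
    have := Real.exp_one_lt_d9
    linarith
  have hℓ0 : 0 < ℓ := by linarith
  have hAℓ1 : 1 ≤ A * ℓ := by nlinarith
  have hAℓL : A * ℓ ≤ L := by nlinarith
  have hw0 : 0 < w := by rw [hw]; positivity
  have hR0 : 0 < R := by rw [hR]; positivity
  have hwy : w * y = A * ℓ := by rw [hw]; field_simp
  have hwR : w * R = C1 := by
    rw [hw, hR, hA]
    field_simp
  have hyR : y / R ^ 2 ≤ 1 := by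
    have h1 : y / R ^ 2 = (64 * ℓ) ^ 2 / y := by
      rw [hR]
      field_simp
    rw [h1, div_le_one hy0]
    have h2 : 64 * ℓ ≤ A * ℓ := mul_le_mul_of_nonneg_right hA64 hℓ0.le
    have h3 : (64 * ℓ) ^ 2 ≤ (A * ℓ) ^ 2 := pow_le_pow_left₀ (by positivity) h2 2
    linarith
  have hw2 : w ^ 2 * y ≤ 1 := by
    have h1 : w ^ 2 * y = (A * ℓ) ^ 2 / y := by
      rw [hw]
      field_simp
    rw [h1, div_le_one hy0]
    linarith
  have hRy8 : R ≤ y / 8 := by
    rw [hR]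
    exact div_le_div_of_nonneg_left hy0.le (by norm_num) (by linarith)
  have hRy : R ≤ y := by linarith
  have hw12 : w ≤ 1 / 2 := by
    rw [hw, div_le_div_iff₀ hy0 (by norm_num)]
    linarith
  have hR1 : 1 ≤ R := by
    rw [hR, le_div_iff₀ (by positivity)]
    have h2 : 64 * ℓ ≤ A * ℓ := mul_le_mul_of_nonneg_right hA64 hℓ0.le
    linarith
  have hC1R : 1 ≤ w * R := by rw [hwR]; exact hC1
  have hTy1 : 5 * y ≤ ε / 2 * T := q9
  obtain ⟨n, hn⟩ : ∃ n : ℕ, n = ⌊h / w⌋₊ := ⟨_, rfl⟩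
  have hnx : ((n : ℝ) + 1) ≤ 2 * L := by
    have h1 : (n : ℝ) ≤ h / w := by
      rw [hn]
      exact Nat.floor_le (by positivity)
    have h2 : h / w ≤ L := by
      rw [div_le_iff₀ hw0]
      have h3 : L * w = h * (A * ℓ) := by
        rw [hLh, ← hwy]
        ring
      rw [h3]
      nlinarith
    linarith
  have hnw : (n : ℝ) * w ≤ h := by
    rw [← le_div_iff₀ hw0, hn]
    exact Nat.floor_le (by positivity)
  -- the inclusion
  have hsub : {t : ℝ | T ≤ t ∧ t ≤ 2 * T ∧ ∃ i j : ℕ, i < j ∧ j * w ≤ h ∧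
      C * Real.log L < |XG G (Gs w ((j - i) * w)) T (t + i * w)|} ⊆
      (Icc T (T + 2 * y) ∪ Icc (2 * T - 2 * y - 1) (2 * T)) ∪ ⋃ i ∈ Finset.range (n + 1),
        (({t : ℝ | T ≤ t ∧ t ≤ 2 * T - 1 ∧ 1 < PR G T w R (t + i * w)} ∪
          {t : ℝ | T ≤ t ∧ t ≤ 2 * T ∧ C5 * ℓ < |BG u (Mw w) R (t + i * w)|}) ∪
          ⋃ j ∈ Finset.range (n + 1),
            {t : ℝ | T ≤ t ∧ t ≤ 2 * T ∧ C4 * ℓ < |Qs u w R (t + i * w) - Qs u w R (t + j * w)|}) := by
    rintro t ⟨ht1, ht2, i, j, hij, hj, hCt⟩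
    by_contra hcon
    have e1 : T + 2 * y < t := by
      by_contra h1
      exact hcon (Or.inl (Or.inl ⟨ht1, not_lt.1 h1⟩))
    have e2 : t < 2 * T - 2 * y - 1 := by
      by_contra h1
      exact hcon (Or.inl (Or.inr ⟨not_lt.1 h1, ht2⟩))
    have hrange : ∀ i : ℕ, i * w ≤ h → i ∈ Finset.range (n + 1) := by
      intro i hi
      rw [Finset.mem_range, hn]
      exact Nat.lt_succ_of_le (Nat.le_floor (by rwa [le_div_iff₀ hw0]))
    have hpt : ∀ i : ℕ, i * w ≤ h → t + i * w ∈ Icc (T + 2 * y) (2 * T - 2 * y) ∧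
        PR G T w R (t + i * w) ≤ 1 ∧ NWG G T w (t + i * w) ≤ C1 * (A + C5 + 2) * ℓ := by
      intro i hi
      have hiw : 0 ≤ (i : ℝ) * w := by positivity
      have hin := hrange i hi
      have hmem : t + i * w ∈ Icc (T + 2 * y) (2 * T - 2 * y) := ⟨by linarith, by linarith⟩
      have hPR : PR G T w R (t + i * w) ≤ 1 := by
        by_contra hc
        exact hcon (Or.inr (mem_biUnion hin (Or.inl (Or.inl ⟨ht1, by linarith, not_le.1 hc⟩))))
      have hBG : |BG u (Mw w) R (t + i * w)| ≤ C5 * ℓ := by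
        by_contra hc
        exact hcon (Or.inr (mem_biUnion hin (Or.inl (Or.inr ⟨ht1, ht2, not_le.1 hc⟩))))
      refine ⟨hmem, hPR, ?_⟩
      have h1 := hNB T q2 w R hw0 (by rw [← hy]; exact hw2) (by rw [hwR])
        (by rw [← hy]; exact hRy) (t + i * w) (by rw [← hy]; exact hmem)
      rw [← hy, hwy] at h1
      refine h1.trans ?_
      have h2 : A * ℓ + |BG u (Mw w) R (t + i * w)| + PR G T w R (t + i * w) + 1 ≤
          (A + C5 + 2) * ℓ := by
        nlinarith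
      calc C1 * (A * ℓ + |BG u (Mw w) R (t + i * w)| + PR G T w R (t + i * w) + 1)
          ≤ C1 * ((A + C5 + 2) * ℓ) := mul_le_mul_of_nonneg_left h2 (by linarith)
        _ = C1 * (A + C5 + 2) * ℓ := by ring
    have hij' : (i : ℝ) ≤ j := by exact_mod_cast hij.le
    have hiw : (i : ℝ) * w ≤ h := (mul_le_mul_of_nonneg_right hij' hw0.le).trans hj
    obtain ⟨m1, m2, m3⟩ := hpt i hiw
    obtain ⟨n1, n2, n3⟩ := hpt j hj
    have ha0 : 0 ≤ ((j : ℝ) - i) * w := mul_nonneg (by linarith) hw0.le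
    have ha1 : ((j : ℝ) - i) * w + w ≤ 1 := by
      have h1 : 0 ≤ (i : ℝ) * w := by positivity
      nlinarith
    have h1 := hER T q4 w R (((j : ℝ) - i) * w) hw0 hC1R
      (by rw [← hy]; exact hRy) ha0 ha1 (t + i * w) (by rw [← hy]; exact m1)
    have h2 : t + i * w + ((j : ℝ) - i) * w = t + j * w := by ring
    rw [h2, ← hy, hwR] at h1
    have h3 : C3 / C1 ^ 2 * (NWG G T w (t + i * w) + NWG G T w (t + j * w)) ≤
        2 * C3 * (C1 * (A + C5 + 2)) * ℓ := by
      have hC12 : 1 ≤ C1 ^ 2 := one_le_pow₀ hC1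
      have h4 : C3 / C1 ^ 2 ≤ C3 := div_le_self hC3.le hC12
      have h5 : 0 ≤ 2 * (C1 * (A + C5 + 2) * ℓ) := by
        have : 0 < C1 := by linarith
        positivity
      calc C3 / C1 ^ 2 * (NWG G T w (t + i * w) + NWG G T w (t + j * w))
          ≤ C3 / C1 ^ 2 * (2 * (C1 * (A + C5 + 2) * ℓ)) :=
            mul_le_mul_of_nonneg_left (by linarith) (by positivity)
        _ ≤ C3 * (2 * (C1 * (A + C5 + 2) * ℓ)) := mul_le_mul_of_nonneg_right h4 h5
        _ = 2 * C3 * (C1 * (A + C5 + 2)) * ℓ := by ring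
    have h4 : C3 * (PR G T w R (t + i * w) + PR G T w R (t + j * w)) ≤ C3 * 2 :=
      mul_le_mul_of_nonneg_left (by linarith) hC3.le
    have h5 : C3 * (1 + y / R ^ 2) ≤ C3 * 2 := mul_le_mul_of_nonneg_left (by linarith) hC3.le
    have h6 : BG u (Gs w (((j : ℝ) - i) * w)) R (t + i * w) =
        Qs u w R (t + i * w) - Qs u w R (t + j * w) := by
      rw [hQI.2 u hG.le1 w (((j : ℝ) - i) * w) R (t + i * w) hw0 ha0 hR1, h2]
    have h7 : |Qs u w R (t + i * w) - Qs u w R (t + j * w)| ≤ C4 * ℓ := by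
      by_contra hc
      exact hcon (Or.inr (mem_biUnion (hrange i hiw) (Or.inr (mem_biUnion (hrange j hj)
        ⟨ht1, ht2, not_le.1 hc⟩))))
    rw [← h6] at h7
    have h8 : |XG G (Gs w (((j : ℝ) - i) * w)) T (t + i * w)| ≤
        |XG G (Gs w (((j : ℝ) - i) * w)) T (t + i * w) +
          BG u (Gs w (((j : ℝ) - i) * w)) R (t + i * w)| +
        |BG u (Gs w (((j : ℝ) - i) * w)) R (t + i * w)| := by
      have h9 := abs_sub (XG G (Gs w (((j : ℝ) - i) * w)) T (t + i * w) +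
          BG u (Gs w (((j : ℝ) - i) * w)) R (t + i * w))
        (BG u (Gs w (((j : ℝ) - i) * w)) R (t + i * w))
      rw [add_sub_cancel_right] at h9
      exact h9
    rw [← hℓ, hC] at hCt
    have h10 : 4 * C3 ≤ 4 * C3 * ℓ := by nlinarith
    have h11 : (2 * C3 * (C1 * (A + C5 + 2)) + 4 * C3 + C4) * ℓ =
      2 * C3 * (C1 * (A + C5 + 2)) * ℓ + 4 * C3 * ℓ + C4 * ℓ := by ring
    rw [h11] at hCt
    linarith
  -- the measures
  have hT1' : T ≤ 2 * T - 1 := by linarith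
  have hxw : ∀ i ∈ Finset.range (n + 1), 0 ≤ (i : ℝ) * w ∧ (i : ℝ) * w ≤ h := by
    intro i hi
    refine ⟨by positivity, ?_⟩
    have h1 : (i : ℝ) ≤ n := by
      have := Finset.mem_range.1 hi
      exact_mod_cast Nat.lt_succ_iff.1 this
    exact (mul_le_mul_of_nonneg_right h1 hw0.le).trans hnw
  have hAm : ∀ i ∈ Finset.range (n + 1),
      volume {t : ℝ | T ≤ t ∧ t ≤ 2 * T - 1 ∧ 1 < PR G T w R (t + i * w)} ≤
        ENNReal.ofReal (C2 * T * Real.exp (-(8 * ℓ))) := by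
    intro i _
    have h1 := hPB T q3 w R hw0 hR0 (by rw [← hy]; exact hRy8) (T + i * w) (2 * T - 1 + i * w)
      (by linarith)
    rw [← intervalIntegral.integral_comp_add_right (fun t => PR G T w R t), ← hy, hwy] at h1
    have h2 : y / (8 * R) = 8 * ℓ := by
      rw [hR]
      field_simp
      norm_num
    rw [h2] at h1
    have h3 : C2 * T / (A * ℓ) * Real.exp (-(8 * ℓ)) ≤ C2 * T * Real.exp (-(8 * ℓ)) := by
      refine mul_le_mul_of_nonneg_right ?_ (Real.exp_pos _).le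
      exact div_le_self (by positivity) hAℓ1
    have h4 := mk (f := fun t => PR G T w R (t + i * w)) ((PR_cont G T w R).comp (by fun_prop))
      (fun t => PR_nonneg _ _ _ _ _) hT1' one_pos (h1.trans h3)
    rwa [div_one] at h4
  have hBm : ∀ i ∈ Finset.range (n + 1),
      volume {t : ℝ | T ≤ t ∧ t ≤ 2 * T ∧ C5 * ℓ < |BG u (Mw w) R (t + i * w)|} ≤
        ENNReal.ofReal (T * L ^ (-3 : ℝ)) := fun i hi => hM' _ (hxw i hi).1 (hxw i hi).2
  have hQm : ∀ i ∈ Finset.range (n + 1), ∀ j ∈ Finset.range (n + 1),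
      volume {t : ℝ | T ≤ t ∧ t ≤ 2 * T ∧
        C4 * ℓ < |Qs u w R (t + i * w) - Qs u w R (t + j * w)|} ≤
        ENNReal.ofReal (T * L ^ (-3 : ℝ)) := fun i hi j hj =>
    hQ' _ _ (hxw i hi).1 (hxw i hi).2 (hxw j hj).1 (hxw j hj).2
  have hL3' : L ^ (-3 : ℝ) = 1 / L ^ 3 := by
    rw [Real.rpow_neg hLpos.le, one_div]
    congr 1
    exact_mod_cast Real.rpow_natCast L 3
  have hexp : Real.exp (-(8 * ℓ)) ≤ 1 / L ^ 2 := by
    have h1 : Real.exp (-(8 * ℓ)) ≤ Real.exp (-(2 * ℓ)) := Real.exp_le_exp.2 (by linarith)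
    have h2 : Real.exp (-(2 * ℓ)) = 1 / L ^ 2 := by
      rw [Real.exp_neg, one_div]
      congr 1
      rw [hℓ, mul_comm, Real.exp_mul, Real.exp_log hLpos]
      exact_mod_cast Real.rpow_natCast L 2
    linarith
  rw [hL3'] at hBm hQm
  have hIA : 0 ≤ C2 * T * Real.exp (-(8 * ℓ)) := by positivity
  have hIB : 0 ≤ T * (1 / L ^ 3) := by positivity
  calc volume {t : ℝ | T ≤ t ∧ t ≤ 2 * T ∧ ∃ i j : ℕ, i < j ∧ j * w ≤ h ∧
      C * Real.log L < |XG G (Gs w ((j - i) * w)) T (t + i * w)|}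
      ≤ (ENNReal.ofReal (2 * y) + ENNReal.ofReal (2 * y + 1)) + ∑ i ∈ Finset.range (n + 1),
          ((ENNReal.ofReal (C2 * T * Real.exp (-(8 * ℓ))) + ENNReal.ofReal (T * (1 / L ^ 3))) +
            ∑ j ∈ Finset.range (n + 1), ENNReal.ofReal (T * (1 / L ^ 3))) := by
        refine (measure_mono hsub).trans ((measure_union_le _ _).trans (add_le_add ?_ ?_))
        · refine (measure_union_le _ _).trans (le_of_eq ?_)
          rw [Real.volume_Icc, Real.volume_Icc]
          congr 2 <;> ring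
        · refine (measure_biUnion_finset_le _ _).trans (Finset.sum_le_sum fun i hi => ?_)
          refine (measure_union_le _ _).trans (add_le_add ?_ ?_)
          · exact (measure_union_le _ _).trans (add_le_add (hAm i hi) (hBm i hi))
          · exact (measure_biUnion_finset_le _ _).trans (Finset.sum_le_sum fun j hj =>
              hQm i hi j hj)
    _ = ENNReal.ofReal (2 * y + (2 * y + 1) +
          ((n + 1 : ℕ) : ℝ) * ((C2 * T * Real.exp (-(8 * ℓ)) + T * (1 / L ^ 3)) +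
            ((n + 1 : ℕ) : ℝ) * (T * (1 / L ^ 3)))) := by
        rw [Finset.sum_const, Finset.card_range, nsmul_eq_mul, Finset.sum_const, Finset.card_range,
          nsmul_eq_mul, ← ENNReal.ofReal_add hIA hIB,
          ← ENNReal.ofReal_natCast, ← ENNReal.ofReal_mul (Nat.cast_nonneg _),
          ← ENNReal.ofReal_add (by positivity) (by positivity),
          ← ENNReal.ofReal_add (by positivity) (by positivity),
          ← ENNReal.ofReal_mul (Nat.cast_nonneg _),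
          ← ENNReal.ofReal_add (by positivity) (by positivity)]
    _ ≤ ENNReal.ofReal (ε * T) := by
        refine ENNReal.ofReal_le_ofReal ?_
        have hN1 : ((n + 1 : ℕ) : ℝ) ≤ 2 * L := by
          push_cast
          exact hnx
        have hN0 : (0 : ℝ) ≤ ((n + 1 : ℕ) : ℝ) := Nat.cast_nonneg _
        have h1 : ((n + 1 : ℕ) : ℝ) * ((C2 * T * Real.exp (-(8 * ℓ)) + T * (1 / L ^ 3)) +
            ((n + 1 : ℕ) : ℝ) * (T * (1 / L ^ 3))) ≤
            2 * L * ((C2 * T * (1 / L ^ 2) + T * (1 / L ^ 3)) + 2 * L * (T * (1 / L ^ 3))) := by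
          have h2 : C2 * T * Real.exp (-(8 * ℓ)) ≤ C2 * T * (1 / L ^ 2) :=
            mul_le_mul_of_nonneg_left hexp (by positivity)
          have h3 : ((n + 1 : ℕ) : ℝ) * (T * (1 / L ^ 3)) ≤ 2 * L * (T * (1 / L ^ 3)) :=
            mul_le_mul_of_nonneg_right hN1 hIB
          exact mul_le_mul hN1 (by linarith) (by positivity) (by positivity)
        have h2 : 2 * L * ((C2 * T * (1 / L ^ 2) + T * (1 / L ^ 3)) + 2 * L * (T * (1 / L ^ 3))) =
            2 * C2 * T * (1 / L) + 2 * T * (1 / L ^ 2) + 4 * T * (1 / L) := by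
          field_simp
          ring
        have h3 : 1 / L ^ 2 ≤ 1 / L := by
          apply one_div_le_one_div_of_le hLpos
          nlinarith
        have h4 : 2 * T * (1 / L ^ 2) ≤ 2 * T * (1 / L) := mul_le_mul_of_nonneg_left h3 (by positivity)
        have h5 : (2 * C2 + 6) / L * T ≤ ε / 2 * T := mul_le_mul_of_nonneg_right p8 hT0.le
        have h6 : (2 * C2 + 6) / L * T = 2 * C2 * T * (1 / L) + 2 * T * (1 / L) + 4 * T * (1 / L) := by
          ring
        rw [h2] at h1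
        rw [h6] at h5
        linarith

end Pool.Agent.H203.HX
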