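import Pool.Agent.H203.HX.ALLH
import Pool.Agent.H203.HX.FIN5
import Pool.Agent.H203.HX.UQ
import Pool.Agent.H203.HX.UM
import Pool.Agent.H203.HX.UZ
import Pool.Agent.H203.HX.UG

set_option autoImplicit false

/-! The leaves of project HX3 put together. -/

open Complex Filter Topology Set MeasureTheory

namespace Pool.Agent.H203.HX

open Pool.Agent.H203.GE (Lf)

theorem p_UQ : S_UQ := t_UQ t_MP t_PH p_CB
theorem p_UM : S_UM := t_UM t_MP
theorem p_UZ : S_UZ := t_UZ p_NB t_PB p_ER p_QI p_UQ p_UM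

theorem main5 (q : ℕ) [NeZero q] (χ : DirichletCharacter ℂ q) (hχ : χ.IsPrimitive) : ∃ C : ℝ, 0 < C ∧
    ∀ h : ℝ → ℝ, (∀ᶠ T in atTop, 0 < h T ∧ h T ≤ 1) → Tendsto (fun T => h T * Real.log T) atTop atTop →
    Tendsto (fun T : ℝ => volume (Ub (DirichletCharacter.LFunction χ) T (h T) (C * Real.log (h T * Real.log T))) /
      ENNReal.ofReal T) atTop (𝓝 0) :=
  up p_UZ t_UG _ _ (GE.t_LFX q χ hχ)

end Pool.Agent.H203.HX
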