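import Pool.Agent.H203.HX.Defs5

set_option autoImplicit false

/-! Assembly of project HX5: the joint sharp upper bound when all the zeros are on the line. -/

open Complex Filter Topology Set MeasureTheory

namespace Pool.Agent.H203.HX

open Pool.Agent.H203.GE (Lf XG)

/-- the `t` for which in some subinterval of `(t, t + h]` the weighted sum of the discrepancies is `> B` in modulus -/
def Ub3 {k : ℕ} (G : Fin k → ℂ → ℂ) (c : Fin k → ℝ) (T h B : ℝ) : Set ℝ := {t : ℝ | T ≤ t ∧ t ≤ 2 * T ∧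
  ∃ x y : ℝ, 0 ≤ x ∧ x < y ∧ y ≤ h ∧
    B < |∑ j, c j * ((H370.NN (G j) (t + x) (t + y) : ℝ) - (y - x) * Real.log T / (2 * Real.pi))|}

namespace FIN7L

/-- the numerical conditions on `L' = 5 L / 4` -/
theorem sharp_num (α ε e : ℝ) (hα : 0 < α) (hε : 0 < ε) (he : 0 < e) : ∃ L0 : ℝ, 3 ≤ L0 ∧ ∀ L : ℝ, L0 ≤ L →
    20 * (α * Real.log (5 / 4 * L)) ≤ L ∧ 2 ≤ α * Real.log (5 / 4 * L) ∧
      (5 / 4 * L) ^ (-(ε / 4)) ≤ e / 8 ∧ (5 / 4 * L) ^ (-1 : ℝ) ≤ e / 8 ∧ 1 ≤ ε * Real.log L ∧ 100 * (α * Real.log (5 / 4 * L)) ≤ L := by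
  have t0 : Tendsto (fun L : ℝ => 5 / 4 * L) atTop atTop := tendsto_id.const_mul_atTop (by norm_num)
  have h1 : Tendsto (fun L : ℝ => Real.log (5 / 4 * L) / (5 / 4 * L)) atTop (𝓝 0) := by
    have : Tendsto (fun L : ℝ => Real.log L / L) atTop (𝓝 0) := by
      have := Real.isLittleO_log_id_atTop.tendsto_div_nhds_zero
      simpa using this
    exact this.comp t0
  have h2 : Tendsto (fun L : ℝ => Real.log (5 / 4 * L)) atTop atTop := Real.tendsto_log_atTop.comp t0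
  have h3 : Tendsto (fun L : ℝ => (5 / 4 * L) ^ (-(ε / 4))) atTop (𝓝 0) :=
    (tendsto_rpow_neg_atTop (by positivity)).comp t0
  have h4 : Tendsto (fun L : ℝ => (5 / 4 * L) ^ (-1 : ℝ)) atTop (𝓝 0) :=
    (tendsto_rpow_neg_atTop one_pos).comp t0
  have hev : ∀ᶠ L : ℝ in atTop, 20 * (α * Real.log (5 / 4 * L)) ≤ L ∧ 2 ≤ α * Real.log (5 / 4 * L) ∧
      (5 / 4 * L) ^ (-(ε / 4)) ≤ e / 8 ∧ (5 / 4 * L) ^ (-1 : ℝ) ≤ e / 8 ∧ 1 ≤ ε * Real.log L ∧
      100 * (α * Real.log (5 / 4 * L)) ≤ L := by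
    filter_upwards [h1.eventually_le_const (show (0 : ℝ) < 1 / (125 * α) by positivity), h2.eventually_ge_atTop (2 / α),
      h3.eventually_le_const (show (0 : ℝ) < e / 8 by positivity), h4.eventually_le_const (show (0 : ℝ) < e / 8 by positivity),
      Real.tendsto_log_atTop.eventually_ge_atTop (1 / ε), eventually_gt_atTop (1 : ℝ)] with L a1 a2 a3 a4 a5 a6
    have b1 : 100 * (α * Real.log (5 / 4 * L)) ≤ L := by
      rw [div_le_div_iff₀ (by linarith) (by positivity)] at a1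
      nlinarith
    have b0 : 0 ≤ α * Real.log (5 / 4 * L) := mul_nonneg hα.le (Real.log_nonneg (by linarith))
    refine ⟨by linarith, ?_, a3, a4, ?_, b1⟩
    · rw [div_le_iff₀ hα] at a2
      linarith
    · rw [div_le_iff₀ hε] at a5
      linarith
  obtain ⟨L1, HL1⟩ := eventually_atTop.1 hev
  exact ⟨max 3 L1, le_max_left _ _, fun L hL => HL1 L ((le_max_right _ _).trans hL)⟩

/-- a union over the pairs of grid points -/
theorem union_le {T L' e s : ℝ} (hT0 : 0 < T) (hL'0 : 0 < L') (S : Finset (ℕ × ℕ)) (hS : (S.card : ℝ) ≤ L' ^ (2 : ℝ))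
    (W : ℕ × ℕ → Set ℝ) (hW : ∀ p, volume (W p) ≤ ENNReal.ofReal (T * L' ^ (-(2 + s)))) (hs : L' ^ (-s) ≤ e) :
    volume (⋃ p ∈ S, W p) ≤ ENNReal.ofReal (e * T) := by
  calc volume (⋃ p ∈ S, W p) ≤ ∑ p ∈ S, volume (W p) := measure_biUnion_finset_le _ _
    _ ≤ ∑ _p ∈ S, ENNReal.ofReal (T * L' ^ (-(2 + s))) := Finset.sum_le_sum fun p _ => hW p
    _ = ENNReal.ofReal (S.card * (T * L' ^ (-(2 + s)))) := by
        rw [Finset.sum_const, nsmul_eq_mul, ENNReal.ofReal_mul (Nat.cast_nonneg S.card), ENNReal.ofReal_natCast]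
    _ ≤ ENNReal.ofReal (e * T) := by
        apply ENNReal.ofReal_le_ofReal
        calc (S.card : ℝ) * (T * L' ^ (-(2 + s))) ≤ L' ^ (2 : ℝ) * (T * L' ^ (-(2 + s))) := by gcongr
          _ = T * (L' ^ (2 : ℝ) * L' ^ (-(2 + s))) := by ring
          _ = T * L' ^ (-s) := by
              rw [← Real.rpow_add hL'0]
              congr 2
              ring
          _ ≤ e * T := by nlinarith

/-- the bad set of one function -/
def bad (G : ℂ → ℂ) (u : ℕ → ℂ) (η T h' ℓ w R : ℝ) (S : Finset (ℕ × ℕ)) : Set ℝ :=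
  {t : ℝ | T ≤ t ∧ t ≤ 2 * T ∧ ∃ i j : ℕ, i < j ∧ ((j : ℝ) - i) * w ≤ 3 / 4 ∧ j * w ≤ h' ∧
    η * ℓ < |XG G (Gs w ((j - i) * w)) T (t + i * w) + (Qs u w R (t + i * w) - Qs u w R (t + j * w))|} ∪
  ⋃ p ∈ S, {t : ℝ | T ≤ t ∧ t ≤ 2 * T ∧ (p : ℕ × ℕ).1 * w ≤ h' ∧ p.2 * w ≤ h' ∧
    |(p.1 : ℝ) * w - p.2 * w| ≤ 20 * w ∧ η * ℓ < |Qs u w R (t + p.1 * w) - Qs u w R (t + p.2 * w)|}

theorem bad_le (hUS : S_UQS) (hUZ : S_UZT) (G : ℂ → ℂ) (u : ℕ → ℂ) (hG : Lf G u) (hRH : OnLine G) (η : ℝ) (hη : 0 < η)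
    (hη1 : η ≤ 1) : ∃ α0 κ0 : ℝ, 0 < α0 ∧ 1 ≤ κ0 ∧ ∀ α κ : ℝ, 0 < α → α ≤ α0 → κ0 ≤ κ → ∀ e : ℝ, 0 < e →
      ∀ᶠ L' : ℝ in atTop, ∀ T h' w R : ℝ, 1 < T → 0 < h' → h' ≤ 5 / 4 → L' = h' * Real.log T →
        w = α * Real.log L' / Real.log T → R = κ / w → ∀ S : Finset (ℕ × ℕ), (S.card : ℝ) ≤ L' ^ (2 : ℝ) →
        volume (bad G u η T h' (Real.log L') w R S) ≤ ENNReal.ofReal (e * T) := by
  obtain ⟨α0, κ0, hα0, hκ0, H⟩ := hUZ G u hG hRH η hη
  refine ⟨α0, κ0, hα0, hκ0, fun α κ hα hαα hκκ e he => ?_⟩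
  obtain ⟨L1, hL1, H1⟩ := H α κ hα hαα hκκ (e / 2) (by positivity)
  obtain ⟨L2, hL2, H2⟩ := hUS u hG.le1 η α κ hη hη1 hα (hκ0.trans hκκ)
  have h4 : Tendsto (fun L : ℝ => L ^ (-1 : ℝ)) atTop (𝓝 0) := tendsto_rpow_neg_atTop one_pos
  filter_upwards [eventually_ge_atTop L1, eventually_ge_atTop L2,
    h4.eventually_le_const (show (0 : ℝ) < e / 2 by positivity), eventually_gt_atTop (0 : ℝ)] with L' a1 a2 a3 a4 T h' w R hT hh'
      hh'1 hL' hw hR S hS
  have hT0 : 0 < T := by linarith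
  have hlogT : 0 < Real.log T := Real.log_pos hT
  have hw0 : 0 ≤ w := by
    rw [hw]
    have : 0 ≤ Real.log L' := Real.log_nonneg (by linarith)
    positivity
  unfold bad
  refine (measure_union_le _ _).trans ?_
  have b1 := H1 T h' L' w R hT hh' hh'1 hL' a1 hw hR
  have b2 := union_le (e := e / 2) (s := 1) hT0 a4 S hS
    (fun p => {t : ℝ | T ≤ t ∧ t ≤ 2 * T ∧ (p : ℕ × ℕ).1 * w ≤ h' ∧ p.2 * w ≤ h' ∧
    |(p.1 : ℝ) * w - p.2 * w| ≤ 20 * w ∧ η * Real.log L' < |Qs u w R (t + p.1 * w) - Qs u w R (t + p.2 * w)|}) (by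
      intro p
      by_cases hp : p.1 * w ≤ h' ∧ p.2 * w ≤ h' ∧ |(p.1 : ℝ) * w - p.2 * w| ≤ 20 * w
      · rw [show (-(2 + 1) : ℝ) = -3 by norm_num]
        refine (measure_mono ?_).trans ((H2 T h' L' w R hT hh' hh'1 hL' a2 hw hR
          (p.1 * w) (p.2 * w) (by positivity) hp.1 (by positivity) hp.2.1).2 hp.2.2)
        rintro t ⟨c1, c2, c3, c4, c5, c6⟩
        exact ⟨c1, c2, c6⟩
      · have : {t : ℝ | T ≤ t ∧ t ≤ 2 * T ∧ (p : ℕ × ℕ).1 * w ≤ h' ∧ p.2 * w ≤ h' ∧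
            |(p.1 : ℝ) * w - p.2 * w| ≤ 20 * w ∧ η * Real.log L' < |Qs u w R (t + p.1 * w) - Qs u w R (t + p.2 * w)|} = ∅ := by
          ext t
          simp only [Set.mem_ofPred_eq, mem_empty_iff_false, iff_false]
          rintro ⟨c1, c2, c3, c4, c5, c6⟩
          exact hp ⟨c3, c4, c5⟩
        rw [this, measure_empty]
        exact bot_le) a3
  refine (add_le_add b1 b2).trans ?_
  rw [← ENNReal.ofReal_add (by positivity) (by positivity)]
  apply ENNReal.ofReal_le_ofReal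
  linarith

/-- the deterministic part: a point outside of the bad sets -/
theorem good_pt (hQL : S_QLN) (hUG : S_UGT) {k : ℕ} (G : Fin k → ℂ → ℂ) (u : Fin k → ℕ → ℂ) (hG : ∀ j, Lf (G j) (u j))
    (c : Fin k → ℝ) (M : ℝ) (hM : ∑ j, |c j| ≤ M) (hM1 : 1 ≤ M) (η B ℓ T h' w R s : ℝ) (hη : 0 < η) (hl : 0 < ℓ) (hT : 1 < T)
    (hs : T ≤ s) (hs2 : s ≤ 2 * T) (hs3 : 3 ≤ s) (hh' : h' ≤ 5 / 4) (hw : 0 < w) (hw100 : 100 * w ≤ 1) (hR : 16 ≤ R) (hB : 0 ≤ B)
    (S : Finset (ℕ × ℕ)) (hS : ∀ i j : ℕ, i < j → (j : ℝ) * w ≤ h' → (i, j) ∈ S)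
    (h1 : ∀ j, s ∉ bad (G j) (u j) η T h' ℓ w R S)
    (h2 : ∀ i j : ℕ, i < j → ((j : ℝ) - i) * w ≤ 1 → (j : ℝ) * w ≤ h' →
      |Qs (fun n => ∑ j, (c j : ℂ) * u j n) w R (s + i * w) - Qs (fun n => ∑ j, (c j : ℂ) * u j n) w R (s + j * w)| ≤ B)
    (x y : ℝ) (hx : 2 * w ≤ x) (hxy : x < y) (hy1 : y - x ≤ 1) (hy : y ≤ h' - 3 * w) :
    |∑ j, c j * ((H370.NN (G j) (s + x) (s + y) : ℝ) - (y - x) * Real.log T / (2 * Real.pi))| ≤
      B + M * (21 * (η * ℓ) + 30 * w * Real.log T / (2 * Real.pi)) := by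
  have hlogT : 0 < Real.log T := Real.log_pos hT
  have g1 : ∀ m : Fin k, ∀ i j : ℕ, i < j → ((j : ℝ) - i) * w ≤ 3 / 4 → j * w ≤ h' →
      |XG (G m) (Gs w ((j - i) * w)) T (s + i * w) + (Qs (u m) w R (s + i * w) - Qs (u m) w R (s + j * w))| ≤ η * ℓ := by
    intro m i j hij a1 a2
    by_contra hc
    exact h1 m (Or.inl ⟨hs, hs2, i, j, hij, a1, a2, not_le.1 hc⟩)
  have g3 : ∀ m : Fin k, ∀ i j : ℕ, i < j → j ≤ i + 20 → j * w ≤ h' →
      |Qs (u m) w R (s + i * w) - Qs (u m) w R (s + j * w)| ≤ η * ℓ := by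
    intro m i j hij a1 a2
    by_contra hc
    refine h1 m (Or.inr ?_)
    rw [mem_iUnion₂]
    have b1 : (i : ℝ) ≤ j := by exact_mod_cast hij.le
    have b2 : (j : ℝ) ≤ i + 20 := by exact_mod_cast a1
    refine ⟨(i, j), hS i j hij a2, hs, hs2, ?_, a2, ?_, not_le.1 hc⟩
    · show (i : ℝ) * w ≤ h'
      nlinarith
    · show |(i : ℝ) * w - j * w| ≤ 20 * w
      rw [abs_sub_comm, ← sub_mul, abs_of_nonneg (mul_nonneg (by linarith) hw.le)]
      nlinarith
  obtain ⟨a, ha⟩ : ∃ a : ℕ, a = ⌊x / w⌋₊ := ⟨_, rfl⟩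
  obtain ⟨b, hb⟩ : ∃ b : ℕ, b = ⌊y / w⌋₊ := ⟨_, rfl⟩
  have key : ∀ m : Fin k, |(H370.NN (G m) (s + x) (s + y) : ℝ) - (y - x) * Real.log T / (2 * Real.pi) +
      (Qs (u m) w R (s + a * w) - Qs (u m) w R (s + b * w))| ≤ 20 * (η * ℓ) + 30 * w * Real.log T / (2 * Real.pi) := by
    intro m
    have := hUG (G m) (u m) (hG m) (Qs (u m) w R) T s h' w (η * ℓ) hT hs3 hw hw100 hh' (by positivity) (g1 m) (g3 m) x y hx hxy
      hy1 hy
    rw [← ha, ← hb] at this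
    exact this
  obtain ⟨E, hE⟩ : ∃ E, E = 20 * (η * ℓ) + 30 * w * Real.log T / (2 * Real.pi) := ⟨_, rfl⟩
  rw [← hE] at key
  have hE0 : 0 ≤ E := by rw [hE]; positivity
  obtain ⟨Q, hQ⟩ : ∃ Q : ℝ → ℝ, Q = Qs (fun n => ∑ j, (c j : ℂ) * u j n) w R := ⟨_, rfl⟩
  rw [← hQ] at h2
  have hQs : ∀ v : ℝ, Q v = ∑ j, c j * Qs (u j) w R v := by
    intro v
    rw [hQ]
    exact hQL k u c (fun j n => (hG j).le1 n) w R v hR
  have hsum : |∑ j, c j * ((H370.NN (G j) (s + x) (s + y) : ℝ) - (y - x) * Real.log T / (2 * Real.pi)) +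
      (Q (s + a * w) - Q (s + b * w))| ≤ M * E := by
    have e1 : ∑ j, c j * ((H370.NN (G j) (s + x) (s + y) : ℝ) - (y - x) * Real.log T / (2 * Real.pi)) +
        (Q (s + a * w) - Q (s + b * w)) = ∑ j, c j * ((H370.NN (G j) (s + x) (s + y) : ℝ) - (y - x) * Real.log T / (2 * Real.pi) +
        (Qs (u j) w R (s + a * w) - Qs (u j) w R (s + b * w))) := by
      rw [hQs, hQs, ← Finset.sum_sub_distrib, ← Finset.sum_add_distrib]
      refine Finset.sum_congr rfl fun j _ => ?_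
      ring
    rw [e1]
    calc |∑ j, c j * ((H370.NN (G j) (s + x) (s + y) : ℝ) - (y - x) * Real.log T / (2 * Real.pi) +
          (Qs (u j) w R (s + a * w) - Qs (u j) w R (s + b * w)))| ≤ ∑ j, |c j| * E := by
          refine (Finset.abs_sum_le_sum_abs _ _).trans (Finset.sum_le_sum fun j _ => ?_)
          rw [abs_mul]
          exact mul_le_mul_of_nonneg_left (key j) (abs_nonneg _)
      _ = (∑ j, |c j|) * E := by rw [Finset.sum_mul]
      _ ≤ M * E := mul_le_mul_of_nonneg_right hM hE0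
  have hnear : ∀ i : ℕ, ((i + 1 : ℕ) : ℝ) * w ≤ h' → |Q (s + i * w) - Q (s + (i + 1 : ℕ) * w)| ≤ M * (η * ℓ) := by
    intro i hi
    rw [hQs, hQs, ← Finset.sum_sub_distrib]
    calc |∑ j, (c j * Qs (u j) w R (s + i * w) - c j * Qs (u j) w R (s + (i + 1 : ℕ) * w))| ≤ ∑ j, |c j| * (η * ℓ) := by
          refine (Finset.abs_sum_le_sum_abs _ _).trans (Finset.sum_le_sum fun j _ => ?_)
          rw [← mul_sub, abs_mul]
          exact mul_le_mul_of_nonneg_left (g3 j i (i + 1) (by omega) (by omega) hi) (abs_nonneg _)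
      _ = (∑ j, |c j|) * (η * ℓ) := by rw [Finset.sum_mul]
      _ ≤ M * (η * ℓ) := mul_le_mul_of_nonneg_right hM (by positivity)
  have hx0 : 0 ≤ x / w := by
    have : 0 ≤ x := by linarith
    positivity
  have hy0 : 0 ≤ y / w := by
    have : 0 ≤ y := by linarith
    positivity
  have ha1 : x / w < a + 1 := by rw [ha]; exact Nat.lt_floor_add_one _
  have hb1 : (b : ℝ) ≤ y / w := by rw [hb]; exact Nat.floor_le hy0
  have hab : a ≤ b := by rw [ha, hb]; exact Nat.floor_le_floor (div_le_div_of_nonneg_right hxy.le hw.le)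
  have hbw : (b : ℝ) * w ≤ h' := by
    rw [le_div_iff₀ hw] at hb1
    linarith
  have hba : ((b : ℝ) - a) * w < 1 + w := by
    rw [div_lt_iff₀ hw] at ha1
    rw [le_div_iff₀ hw] at hb1
    nlinarith
  have hQab : |Q (s + a * w) - Q (s + b * w)| ≤ B + M * (η * ℓ) := by
    have hMη : 0 ≤ M * (η * ℓ) := by positivity
    rcases hab.lt_or_eq with hlt | heq
    · rcases le_or_gt (((b : ℝ) - a) * w) 1 with h3 | h3
      · exact (h2 a b hlt h3 hbw).trans (by linarith)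
      · obtain ⟨b', hb'⟩ : ∃ b', b = b' + 1 := ⟨b - 1, by omega⟩
        have hb'r : (b : ℝ) = b' + 1 := by rw [hb']; push_cast; ring
        have h4 : a < b' := by
          by_contra hc
          have h5 : (b' : ℝ) ≤ a := by exact_mod_cast not_lt.1 hc
          rw [hb'r] at h3
          nlinarith
        have h5 : (b' : ℝ) * w ≤ h' := by rw [hb'r] at hbw; nlinarith
        have h6 := h2 a b' h4 (by rw [hb'r] at hba; nlinarith) h5
        have h7 := hnear b' (by rw [← hb']; exact hbw)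
        rw [← hb'] at h7
        calc |Q (s + a * w) - Q (s + b * w)| = |(Q (s + a * w) - Q (s + b' * w)) + (Q (s + b' * w) - Q (s + b * w))| := by
              congr 1; ring
          _ ≤ |Q (s + a * w) - Q (s + b' * w)| + |Q (s + b' * w) - Q (s + b * w)| := abs_add_le _ _
          _ ≤ B + M * (η * ℓ) := add_le_add h6 h7
    · rw [heq, sub_self, abs_zero]
      linarith
  have e2 : ∑ j, c j * ((H370.NN (G j) (s + x) (s + y) : ℝ) - (y - x) * Real.log T / (2 * Real.pi)) =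
      (∑ j, c j * ((H370.NN (G j) (s + x) (s + y) : ℝ) - (y - x) * Real.log T / (2 * Real.pi)) +
      (Q (s + a * w) - Q (s + b * w))) - (Q (s + a * w) - Q (s + b * w)) := by ring
  rw [e2]
  refine (abs_sub _ _).trans ?_
  have e3 : M * (21 * (η * ℓ) + 30 * w * Real.log T / (2 * Real.pi)) = M * E + M * (η * ℓ) := by
    rw [hE]; ring
  rw [e3]
  linarith

end FIN7L

open FIN7L in
theorem jcore (hUQ : S_UQT) (hQL : S_QLN) (hUS : S_UQS) (hUZ : S_UZT) (hUG : S_UGT) {k : ℕ} (G : Fin k → ℂ → ℂ)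
    (u : Fin k → ℕ → ℂ) (hG : ∀ j, Lf (G j) (u j)) (hRH : ∀ j, OnLine (G j)) (c : Fin k → ℝ)
    (hu : CBu (fun n => ∑ j, (c j : ℂ) * u j n)) (ε : ℝ) (hε : 0 < ε) (hε1 : ε ≤ 1) (e : ℝ) (he : 0 < e) :
    ∃ L0 : ℝ, 3 ≤ L0 ∧ ∀ T h : ℝ, 1 < T → 0 < h → h ≤ 1 → L0 ≤ h * Real.log T →
      volume (Ub3 G c T h ((2 / Real.pi + ε) * Real.log (h * Real.log T))) ≤ ENNReal.ofReal (e * T) := by
  obtain ⟨M, hMdef⟩ : ∃ M, M = max 1 (∑ j, |c j|) := ⟨_, rfl⟩
  have hM1 : 1 ≤ M := by rw [hMdef]; exact le_max_left _ _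
  have hM : ∑ j, |c j| ≤ M := by rw [hMdef]; exact le_max_right _ _
  obtain ⟨η, hηdef⟩ : ∃ η, η = ε / (100 * M) := ⟨_, rfl⟩
  have hη : 0 < η := by rw [hηdef]; positivity
  have hMη : M * η = ε / 100 := by rw [hηdef]; field_simp
  have hη1 : η ≤ 1 := by
    have : η ≤ M * η := le_mul_of_one_le_left hη.le hM1
    linarith
  have hex := fun j => bad_le hUS hUZ (G j) (u j) (hG j) (hRH j) η hη hη1
  choose α0 κ0 hα0 hκ0 H using hex
  obtain ⟨α, hα, hαj, hαη⟩ : ∃ α : ℝ, 0 < α ∧ (∀ j, α ≤ α0 j) ∧ α ≤ η := by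
    have h1 : ∀ᶠ α : ℝ in 𝓝[>] 0, ∀ j, α ≤ α0 j := by
      rw [eventually_all]
      intro j
      exact mem_nhdsWithin_of_mem_nhds (Iic_mem_nhds (hα0 j))
    have h2 : ∀ᶠ α : ℝ in 𝓝[>] 0, α ≤ η := mem_nhdsWithin_of_mem_nhds (Iic_mem_nhds hη)
    have h3 : ∀ᶠ α : ℝ in 𝓝[>] 0, 0 < α := self_mem_nhdsWithin
    obtain ⟨α, a1, a2, a3⟩ := (h1.and (h2.and h3)).exists
    exact ⟨α, a3, a1, a2⟩
  obtain ⟨κ, hκj, hκ⟩ : ∃ κ : ℝ, (∀ j, κ0 j ≤ κ) ∧ 1 ≤ κ := by
    have h1 : ∀ᶠ κ : ℝ in atTop, ∀ j, κ0 j ≤ κ := by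
      rw [eventually_all]
      exact fun j => eventually_ge_atTop _
    obtain ⟨κ, a1, a2⟩ := (h1.and (eventually_ge_atTop (1 : ℝ))).exists
    exact ⟨κ, a1, a2⟩
  have hBd : ∀ n, ‖(fun n => ∑ j, (c j : ℂ) * u j n) n‖ ≤ M := by
    intro n
    refine (norm_sum_le _ _).trans (le_trans (Finset.sum_le_sum fun j _ => ?_) hM)
    rw [norm_mul, Complex.norm_real, Real.norm_eq_abs]
    exact mul_le_of_le_one_right (abs_nonneg _) ((hG j).le1 n)
  obtain ⟨L2, hL2, H2⟩ := hUQ (fun n => ∑ j, (c j : ℂ) * u j n) M hBd hu (ε / 4) α κ (by positivity) (by linarith) hα hκ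
  have hk : (0 : ℝ) < k + 1 := by positivity
  have H' : ∀ᶠ L' : ℝ in atTop, ∀ j, ∀ T h' w R : ℝ, 1 < T → 0 < h' → h' ≤ 5 / 4 → L' = h' * Real.log T →
        w = α * Real.log L' / Real.log T → R = κ / w → ∀ S : Finset (ℕ × ℕ), (S.card : ℝ) ≤ L' ^ (2 : ℝ) →
        volume (bad (G j) (u j) η T h' (Real.log L') w R S) ≤ ENNReal.ofReal (e / (4 * (k + 1)) * T) := by
    rw [eventually_all]
    exact fun j => H j α κ hα (hαj j) (hκj j) (e / (4 * (k + 1))) (by positivity)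
  obtain ⟨L1, H1⟩ := eventually_atTop.1 H'
  obtain ⟨L4, hL4, H4⟩ := sharp_num α ε e hα hε he
  refine ⟨max (max L1 L2) (max L4 (8 / e)), (hL4.trans (le_max_left _ _)).trans (le_max_right _ _), ?_⟩
  intro T h hT hh hh1 hL
  obtain ⟨L, hLdef⟩ : ∃ L, L = h * Real.log T := ⟨_, rfl⟩
  rw [← hLdef] at hL ⊢
  have hLa : L1 ≤ L := ((le_max_left _ _).trans (le_max_left _ _)).trans hL
  have hLb : L2 ≤ L := ((le_max_right _ _).trans (le_max_left _ _)).trans hL
  have hLd : L4 ≤ L := ((le_max_left _ _).trans (le_max_right _ _)).trans hL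
  have hLe : 8 / e ≤ L := ((le_max_right _ _).trans (le_max_right _ _)).trans hL
  have hL0 : 3 ≤ L := hL4.trans hLd
  obtain ⟨n1, n2, n3, n4, n5, n6⟩ := H4 L hLd
  have hlogT : 0 < Real.log T := Real.log_pos hT
  have hLT : L ≤ Real.log T := by
    rw [hLdef]; nlinarith
  have hTL : L + 1 ≤ T := by
    have h1 := Real.log_le_sub_one_of_pos (show 0 < T by linarith)
    linarith
  obtain ⟨L', hL'⟩ : ∃ L', L' = 5 / 4 * L := ⟨_, rfl⟩
  rw [← hL'] at n1 n2 n3 n4 n6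
  have hL'3 : 3 ≤ L' := by linarith
  have hL'd : L' = (5 / 4 * h) * Real.log T := by rw [hL', hLdef]; ring
  obtain ⟨w, hwdef⟩ : ∃ w, w = α * Real.log L' / Real.log T := ⟨_, rfl⟩
  obtain ⟨R, hRdef⟩ : ∃ R, R = κ / w := ⟨_, rfl⟩
  have hl' : 0 < Real.log L' := Real.log_pos (by linarith)
  have hl : 0 < Real.log L := Real.log_pos (by linarith)
  have hw : 0 < w := by rw [hwdef]; positivity
  have hwT : w * Real.log T = α * Real.log L' := by rw [hwdef]; field_simp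
  have hw20 : 20 * w ≤ h := by
    have h1 : 20 * (w * Real.log T) ≤ h * Real.log T := by rw [hwT, ← hLdef]; exact n1
    have h2 : 20 * w * Real.log T ≤ h * Real.log T := by linarith
    exact le_of_mul_le_mul_right h2 hlogT
  have hw100 : 100 * w ≤ 1 := by
    have h1 : 100 * (w * Real.log T) ≤ h * Real.log T := by rw [hwT, ← hLdef]; exact n6
    have h2 : 100 * w * Real.log T ≤ 1 * Real.log T := by nlinarith
    exact le_of_mul_le_mul_right h2 hlogT
  have hR16 : 16 ≤ R := by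
    rw [hRdef, le_div_iff₀ hw]
    linarith
  -- the grid points
  obtain ⟨n, hn⟩ : ∃ n : ℕ, n = ⌊5 / 4 * h / w⌋₊ := ⟨_, rfl⟩
  have hnL : (n : ℝ) + 1 ≤ L' := by
    have h1 : (n : ℝ) ≤ 5 / 4 * h / w := by rw [hn]; exact Nat.floor_le (by positivity)
    have h2 : 5 / 4 * h / w = L' / (α * Real.log L') := by
      rw [← hwT]
      nth_rewrite 1 [hL'd]
      field_simp
    have h3 : L' / (α * Real.log L') ≤ L' / 2 := div_le_div_of_nonneg_left (by linarith) (by norm_num) n2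
    rw [h2] at h1
    linarith
  have hgrid : ∀ j : ℕ, (j : ℝ) * w ≤ 5 / 4 * h → j < n + 1 := by
    intro j hj
    have h1 : (j : ℝ) ≤ 5 / 4 * h / w := by rw [le_div_iff₀ hw]; exact hj
    have h2 : j ≤ n := by rw [hn]; exact Nat.le_floor h1
    omega
  obtain ⟨S, hS⟩ : ∃ S : Finset (ℕ × ℕ), S = Finset.range (n + 1) ×ˢ Finset.range (n + 1) := ⟨_, rfl⟩
  have hScard : (S.card : ℝ) ≤ L' ^ (2 : ℝ) := by
    rw [hS, Finset.card_product, Finset.card_range]
    push_cast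
    rw [Real.rpow_two]
    nlinarith [Nat.cast_nonneg (α := ℝ) n]
  have hT0 : 0 < T := by linarith
  have hL'0 : 0 < L' := by linarith
  have hmem : ∀ i j : ℕ, i < j → (j : ℝ) * w ≤ 5 / 4 * h → (i, j) ∈ S := by
    intro i j hij hj
    have h1 := hgrid j hj
    rw [hS, Finset.mem_product, Finset.mem_range, Finset.mem_range]
    exact ⟨by omega, h1⟩
  obtain ⟨Q, hQ⟩ : ∃ Q : ℝ → ℝ, Q = Qs (fun n => ∑ j, (c j : ℂ) * u j n) w R := ⟨_, rfl⟩
  obtain ⟨U, hUdef⟩ : ∃ U : ℕ × ℕ → Set ℝ, U = fun p => {t : ℝ | T ≤ t ∧ t ≤ 2 * T ∧ p.1 * w ≤ 5 / 4 * h ∧ p.2 * w ≤ 5 / 4 * h ∧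
      |(p.1 : ℝ) * w - p.2 * w| ≤ 1 ∧ (2 / Real.pi + ε / 4) * Real.log L' < |Q (t + p.1 * w) - Q (t + p.2 * w)|} := ⟨_, rfl⟩
  have hU : ∀ p, volume (U p) ≤ ENNReal.ofReal (T * L' ^ (-(2 + ε / 4))) := by
    intro p
    by_cases hp : p.1 * w ≤ 5 / 4 * h ∧ p.2 * w ≤ 5 / 4 * h ∧ |(p.1 : ℝ) * w - p.2 * w| ≤ 1
    · refine (measure_mono ?_).trans (H2 T (5 / 4 * h) L' w R hT (by linarith) (by linarith) hL'd (by linarith) hwdef hRdef
        (p.1 * w) (p.2 * w) (by positivity) hp.1 (by positivity) hp.2.1 hp.2.2)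
      rw [hUdef, hQ]
      rintro t ⟨a1, a2, a3, a4, a5, a6⟩
      exact ⟨a1, a2, a6⟩
    · have : U p = ∅ := by
        rw [hUdef]
        ext t
        simp only [Set.mem_ofPred_eq, mem_empty_iff_false, iff_false]
        rintro ⟨a1, a2, a3, a4, a5, a6⟩
        exact hp ⟨a3, a4, a5⟩
      rw [this, measure_empty]
      exact bot_le
  have hUU := union_le (e := e / 8) (s := ε / 4) hT0 hL'0 S hScard U hU n3
  obtain ⟨B, hB⟩ : ∃ B : Set ℝ, B = (⋃ j : Fin k, bad (G j) (u j) η T (5 / 4 * h) (Real.log L') w R S) ∪ (⋃ p ∈ S, U p) := ⟨_, rfl⟩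
  have hBv : volume B ≤ ENNReal.ofReal (e / 2 * T) := by
    rw [hB]
    have h1 : volume (⋃ j : Fin k, bad (G j) (u j) η T (5 / 4 * h) (Real.log L') w R S) ≤ ENNReal.ofReal (e / 4 * T) := by
      calc volume (⋃ j : Fin k, bad (G j) (u j) η T (5 / 4 * h) (Real.log L') w R S)
          ≤ ∑ j : Fin k, volume (bad (G j) (u j) η T (5 / 4 * h) (Real.log L') w R S) := measure_iUnion_fintype_le _ _
        _ ≤ ∑ _j : Fin k, ENNReal.ofReal (e / (4 * (k + 1)) * T) := Finset.sum_le_sum fun j _ =>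
            H1 L' (by linarith) j T (5 / 4 * h) w R hT (by linarith) (by linarith) hL'd hwdef hRdef S hScard
        _ = ENNReal.ofReal (k * (e / (4 * (k + 1)) * T)) := by
            rw [Finset.sum_const, Finset.card_univ, Fintype.card_fin, nsmul_eq_mul, ENNReal.ofReal_mul (Nat.cast_nonneg k),
              ENNReal.ofReal_natCast]
        _ ≤ ENNReal.ofReal (e / 4 * T) := by
            apply ENNReal.ofReal_le_ofReal
            have h2 : (k : ℝ) * (e / (4 * (k + 1)) * T) = (k / (k + 1)) * (e / 4 * T) := by field_simp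
            rw [h2]
            apply mul_le_of_le_one_left (by positivity)
            rw [div_le_one hk]
            linarith
    calc volume ((⋃ j : Fin k, bad (G j) (u j) η T (5 / 4 * h) (Real.log L') w R S) ∪ (⋃ p ∈ S, U p))
        ≤ ENNReal.ofReal (e / 4 * T) + ENNReal.ofReal (e / 8 * T) := (measure_union_le _ _).trans (add_le_add h1 hUU)
      _ ≤ ENNReal.ofReal (e / 2 * T) := by
          rw [← ENNReal.ofReal_add (by positivity) (by positivity)]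
          apply ENNReal.ofReal_le_ofReal
          nlinarith
  have hsub : Ub3 G c T h ((2 / Real.pi + ε) * Real.log L) ⊆ ((fun t => t + -(2 * w)) ⁻¹' B) ∪ Icc T (T + (2 * w + 3)) := by
    intro t ht
    by_contra hcon
    rw [mem_union, not_or] at hcon
    obtain ⟨c1, c2⟩ := hcon
    obtain ⟨ht1, ht2, x, y, hx, hxy, hy, hlt⟩ := ht
    have ht3 : T + (2 * w + 3) < t := by
      by_contra hc
      exact c2 ⟨ht1, not_lt.1 hc⟩
    obtain ⟨s, hs⟩ : ∃ s, s = t + -(2 * w) := ⟨_, rfl⟩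
    rw [mem_preimage, ← hs, hB, mem_union, not_or] at c1
    obtain ⟨d1, d2⟩ := c1
    have hsT : T ≤ s := by rw [hs]; linarith
    have hs2 : s ≤ 2 * T := by rw [hs]; linarith
    have g2 : ∀ i j : ℕ, i < j → ((j : ℝ) - i) * w ≤ 1 → j * w ≤ 5 / 4 * h →
        |Q (s + i * w) - Q (s + j * w)| ≤ (2 / Real.pi + ε / 4) * Real.log L' := by
      intro i j hij h1 h2
      by_contra hc
      apply d2
      rw [mem_iUnion₂]
      refine ⟨(i, j), hmem i j hij h2, ?_⟩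
      rw [hUdef]
      have hij' : (i : ℝ) ≤ j := by exact_mod_cast hij.le
      refine ⟨hsT, hs2, ?_, h2, ?_, not_le.1 hc⟩
      · show (i : ℝ) * w ≤ 5 / 4 * h
        nlinarith
      · show |(i : ℝ) * w - j * w| ≤ 1
        rw [abs_sub_comm, ← sub_mul, abs_of_nonneg (mul_nonneg (by linarith) hw.le)]
        exact h1
    have hpi : 0 < 2 / Real.pi := div_pos two_pos Real.pi_pos
    rw [hQ] at g2
    have key := good_pt hQL hUG G u hG c M hM hM1 η ((2 / Real.pi + ε / 4) * Real.log L') (Real.log L') T (5 / 4 * h) w R s hη hl'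
      hT hsT hs2 (by linarith) (by linarith) hw hw100 hR16 (by positivity) S hmem
      (fun j hj => d1 (mem_iUnion.2 ⟨j, hj⟩)) g2 (x + 2 * w) (y + 2 * w) (by linarith) (by linarith) (by linarith) (by linarith)
    rw [show s + (x + 2 * w) = t + x by rw [hs]; ring, show s + (y + 2 * w) = t + y by rw [hs]; ring,
      show y + 2 * w - (x + 2 * w) = y - x by ring] at key
    have e1 : 30 * w * Real.log T / (2 * Real.pi) = 15 / Real.pi * (α * Real.log L') := by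
      rw [← hwT]; field_simp; ring
    have e2 : 15 / Real.pi ≤ 5 := by
      rw [div_le_iff₀ Real.pi_pos]; nlinarith [Real.pi_gt_three]
    have e3 : 15 / Real.pi * (α * Real.log L') ≤ 5 * (η * Real.log L') := by
      apply mul_le_mul e2 _ (by positivity) (by norm_num)
      gcongr
    have e4 : Real.log L' ≤ Real.log L + 1 / 4 := by
      rw [hL', Real.log_mul (by norm_num) (by linarith)]
      have : Real.log (5 / 4) ≤ 5 / 4 - 1 := Real.log_le_sub_one_of_pos (by norm_num)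
      linarith
    have e5 : 2 / Real.pi ≤ 1 := by
      rw [div_le_one Real.pi_pos]; linarith [Real.pi_gt_three]
    rw [e1] at key
    have e6 : M * (21 * (η * Real.log L') + 15 / Real.pi * (α * Real.log L')) ≤ 26 / 100 * ε * Real.log L' := by
      calc M * (21 * (η * Real.log L') + 15 / Real.pi * (α * Real.log L')) ≤
            M * (21 * (η * Real.log L') + 5 * (η * Real.log L')) := by gcongr
        _ = 26 * (M * η) * Real.log L' := by ring
        _ = 26 / 100 * ε * Real.log L' := by rw [hMη]; ring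
    have e7 : (2 / Real.pi + ε / 4) * Real.log L' + 26 / 100 * ε * Real.log L' ≤
        (2 / Real.pi + 23 / 40 * ε) * Real.log L' := by nlinarith
    have e8 : (2 / Real.pi + 23 / 40 * ε) * Real.log L' ≤ (2 / Real.pi + 23 / 40 * ε) * (Real.log L + 1 / 4) := by
      gcongr
    have e9 : (2 / Real.pi + 23 / 40 * ε) * (Real.log L + 1 / 4) ≤ (2 / Real.pi + ε) * Real.log L := by
      have : (2 / Real.pi + 23 / 40 * ε) * (1 / 4) ≤ 17 / 40 * (ε * Real.log L) := by nlinarith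
      nlinarith
    linarith
  calc volume (Ub3 G c T h ((2 / Real.pi + ε) * Real.log L))
      ≤ volume (((fun t => t + -(2 * w)) ⁻¹' B) ∪ Icc T (T + (2 * w + 3))) := measure_mono hsub
    _ ≤ volume B + ENNReal.ofReal (2 * w + 3) := by
        refine (measure_union_le _ _).trans (add_le_add ?_ ?_)
        · rw [measure_preimage_add_right]
        · rw [Real.volume_Icc]
          apply ENNReal.ofReal_le_ofReal
          linarith
    _ ≤ ENNReal.ofReal (e / 2 * T) + ENNReal.ofReal (e / 2 * T) := by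
        refine add_le_add hBv (ENNReal.ofReal_le_ofReal ?_)
        rw [div_le_iff₀ he] at hLe
        nlinarith
    _ = ENNReal.ofReal (e * T) := by
        rw [← ENNReal.ofReal_add (by positivity) (by positivity)]
        congr 1
        ring

theorem jsharp (hUQ : S_UQT) (hQL : S_QLN) (hUS : S_UQS) (hUZ : S_UZT) (hUG : S_UGT) {k : ℕ} (G : Fin k → ℂ → ℂ)
    (u : Fin k → ℕ → ℂ) (hG : ∀ j, Lf (G j) (u j)) (hRH : ∀ j, OnLine (G j)) (c : Fin k → ℝ)
    (hu : CBu (fun n => ∑ j, (c j : ℂ) * u j n))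
    (h : ℝ → ℝ) (hh : ∀ᶠ T in atTop, 0 < h T ∧ h T ≤ 1) (hL : Tendsto (fun T => h T * Real.log T) atTop atTop)
    (ε : ℝ) (hε : 0 < ε) :
    Tendsto (fun T : ℝ => volume (Ub3 G c T (h T) ((2 / Real.pi + ε) * Real.log (h T * Real.log T))) / ENNReal.ofReal T)
      atTop (𝓝 0) := by
  rw [ENNReal.tendsto_nhds_zero]
  intro e he
  obtain ⟨η, hη, hηe⟩ : ∃ η : ℝ, 0 < η ∧ ENNReal.ofReal η ≤ e := by
    rcases eq_or_ne e ⊤ with rfl | h1
    · exact ⟨1, one_pos, le_top⟩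
    · exact ⟨e.toReal, ENNReal.toReal_pos he.ne' h1, by rw [ENNReal.ofReal_toReal h1]⟩
  obtain ⟨L0, hL0, H0⟩ := jcore hUQ hQL hUS hUZ hUG G u hG hRH c hu (min ε 1) (by positivity) (min_le_right _ _) η hη
  filter_upwards [hh, hL.eventually_ge_atTop L0, eventually_gt_atTop (1 : ℝ)] with T hhT hLT hT
  have hT0 : 0 < T := by linarith
  rw [ENNReal.div_le_iff (by simpa using hT0) ENNReal.ofReal_ne_top]
  have hl : 0 ≤ Real.log (h T * Real.log T) := Real.log_nonneg (by linarith)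
  calc volume (Ub3 G c T (h T) ((2 / Real.pi + ε) * Real.log (h T * Real.log T)))
      ≤ volume (Ub3 G c T (h T) ((2 / Real.pi + min ε 1) * Real.log (h T * Real.log T))) := by
        apply measure_mono
        rintro t ⟨a1, a2, x, y, a3, a4, a5, a6⟩
        refine ⟨a1, a2, x, y, a3, a4, a5, lt_of_le_of_lt ?_ a6⟩
        gcongr
        exact min_le_left _ _
    _ ≤ ENNReal.ofReal (η * T) := H0 T (h T) hT hhT.1 hhT.2 hLT
    _ = ENNReal.ofReal η * ENNReal.ofReal T := ENNReal.ofReal_mul hη.le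
    _ ≤ e * ENNReal.ofReal T := by gcongr

end Pool.Agent.H203.HX
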