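import Pool.Agent.H203.HX.Defs5
import Pool.Agent.H203.HX.RS

set_option autoImplicit false

/-! (QLN) linearity of the prime side in the coefficients (by helper30). -/

open Complex Filter Topology Set MeasureTheory

namespace Pool.Agent.H203.HX

open Pool.Agent.H203.ME (ee gR WR cR om FF KF C2c w1)

namespace QLNL

open ArithmeticFunction
open Pool.Agent.H203.ME (PRML.Z1)

/-- the terms of the series -/
noncomputable def tm (u : ℕ → ℂ) (w R t : ℝ) (n : ℕ) : ℂ :=
  ((vonMangoldt n / (Real.sqrt n * Real.log n) * cR R (Real.log n) : ℝ) : ℂ) *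
    (-I * ph (w * Real.log n)) * (u n * ee n t)

lemma summable_tm (hP : S_PH) {u : ℕ → ℂ} (hu : ∀ n, ‖u n‖ ≤ 1) {w R : ℝ} (hR16 : 16 ≤ R)
    (t : ℝ) : Summable (tm u w R t) := by
  obtain ⟨X, hX'⟩ : ∃ X : ℕ, X = ⌈Real.exp (2 * R)⌉₊ := ⟨_, rfl⟩
  have hX : ∀ n : ℕ, X < n → 2 * R ≤ Real.log n := by
    intro n hn
    have h1 : Real.exp (2 * R) ≤ n := by
      refine (Nat.le_ceil _).trans ?_
      rw [← hX']
      exact_mod_cast hn.le
    exact (Real.le_log_iff_exp_le ((Real.exp_pos _).trans_le h1)).2 h1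
  have hb : ∀ n : ℕ, ‖tm u w R t (n + (X + 1))‖ ≤ 2 * (1 / ((n + 1 : ℕ) : ℝ) ^ 2) := by
    intro n
    obtain ⟨k, hk⟩ : ∃ k : ℕ, k = n + (X + 1) := ⟨_, rfl⟩
    rw [← hk]
    have hk1 : 1 ≤ k := by omega
    have hkl := hX k (by omega)
    have h1 := RSL.tail_real hR16 k hk1 hkl
    have hk0 : (0 : ℝ) < k := by exact_mod_cast hk1
    have hl : 1 ≤ Real.log k := by linarith
    have hc0 := ME.PRML.cR_nonneg R (Real.log k) (by linarith)
    have hq : ‖tm u w R t k‖ ≤ vonMangoldt k / (Real.sqrt k * Real.log k) * cR R (Real.log k) := by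
      unfold tm
      rw [norm_mul, norm_mul, norm_mul, norm_mul, RSL.norm_ee, mul_one, norm_neg, Complex.norm_I,
        one_mul, Complex.norm_real, Real.norm_eq_abs,
        abs_of_nonneg (mul_nonneg (div_nonneg vonMangoldt_nonneg (by positivity)) hc0)]
      have h0 : 0 ≤ vonMangoldt k / (Real.sqrt k * Real.log k) * cR R (Real.log k) :=
        mul_nonneg (div_nonneg vonMangoldt_nonneg (by positivity)) hc0
      calc _ ≤ vonMangoldt k / (Real.sqrt k * Real.log k) * cR R (Real.log k) * 1 * 1 :=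
            mul_le_mul (mul_le_mul_of_nonneg_left (hP.2.1 _) h0) (hu k) (norm_nonneg _)
              (by rw [mul_one]; exact h0)
        _ = _ := by ring
    have h2 : vonMangoldt k / (Real.sqrt k * Real.log k) * cR R (Real.log k) ≤
        vonMangoldt k / Real.sqrt k * cR R (Real.log k) := by
      apply mul_le_mul_of_nonneg_right _ hc0
      apply div_le_div_of_nonneg_left vonMangoldt_nonneg (by positivity)
      exact le_mul_of_one_le_right (Real.sqrt_nonneg _) hl
    refine (hq.trans h2).trans (h1.trans ?_)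
    apply mul_le_mul_of_nonneg_left _ (by norm_num)
    apply one_div_le_one_div_of_le (by positivity)
    apply pow_le_pow_left₀ (by positivity)
    rw [hk]
    push_cast
    have : (0 : ℝ) ≤ X := Nat.cast_nonneg X
    linarith
  have hsg : Summable (fun n : ℕ => 2 * (1 / ((n + 1 : ℕ) : ℝ) ^ 2)) :=
    (ME.PRML.Z1_summable.hasSum.mul_left _).summable
  have hsum' : Summable (fun n => tm u w R t (n + (X + 1))) := Summable.of_norm_bounded hsg hb
  exact (summable_nat_add_iff (X + 1)).1 hsum'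

lemma Qs_tm (u : ℕ → ℂ) (w R t : ℝ) :
    Qs u w R t = 2 / Real.sqrt (2 * Real.pi) * (∑' n : ℕ, tm u w R t n).re := rfl

end QLNL

open QLNL in
theorem t_QLN (hP : S_PH) : S_QLN := by
  intro k u c hu w R t hR
  have h1 : ∀ n, tm (fun n => ∑ j, (c j : ℂ) * u j n) w R t n =
      ∑ j, (c j : ℂ) * tm (u j) w R t n := by
    intro n
    unfold tm
    rw [Finset.sum_mul, Finset.mul_sum]
    exact Finset.sum_congr rfl fun j _ => by ring
  have h2 : ∑' n, tm (fun n => ∑ j, (c j : ℂ) * u j n) w R t n =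
      ∑ j, (c j : ℂ) * ∑' n, tm (u j) w R t n := by
    rw [tsum_congr h1, Summable.tsum_finsetSum fun j _ => (summable_tm hP (hu j) hR t).mul_left _]
    exact Finset.sum_congr rfl fun j _ => tsum_mul_left
  rw [Qs_tm, h2, Complex.re_sum, Finset.mul_sum]
  refine Finset.sum_congr rfl fun j _ => ?_
  rw [Qs_tm, Complex.re_ofReal_mul]
  ring

end Pool.Agent.H203.HX
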