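import Pool.Agent.H203.HX.Defs4
import Pool.Agent.H203.HX.UG

/-! (UGS) from the smoothed discrepancies on the grid to all intervals, sharp form (helper356). -/

set_option autoImplicit false

open Complex Filter Topology Set MeasureTheory

namespace Pool.Agent.H203.HX

open Pool.Agent.H203.GE (Lf ZG XG)

namespace UGSL

open LCL UGL

/-- the sharp count -/
noncomputable def Nc {ι : Type*} (Z : Finset ι) (m γ : ι → ℝ) (a b : ℝ) : ℝ :=
  ∑ s ∈ Z, (if a < γ s ∧ γ s ≤ b then m s else 0)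

theorem Nc_nonneg {ι : Type*} (Z : Finset ι) (m γ : ι → ℝ) (hm : ∀ s ∈ Z, 0 ≤ m s) (a b : ℝ) :
    0 ≤ Nc Z m γ a b := by
  unfold Nc
  refine Finset.sum_nonneg fun s hs => ?_
  split_ifs
  · exact hm s hs
  · exact le_refl _

theorem Nc_add {ι : Type*} (Z : Finset ι) (m γ : ι → ℝ) {a b c : ℝ} (h1 : a ≤ b) (h2 : b ≤ c) :
    Nc Z m γ a c = Nc Z m γ a b + Nc Z m γ b c := by
  unfold Nc
  rw [← Finset.sum_add_distrib]
  refine Finset.sum_congr rfl fun s _ => ?_
  rcases le_or_gt (γ s) b with h3 | h3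
  · have e1 : ¬ (b < γ s ∧ γ s ≤ c) := fun h => absurd h.1 (not_lt.2 h3)
    rw [if_neg e1, add_zero]
    by_cases h4 : a < γ s
    · rw [if_pos ⟨h4, h3.trans h2⟩, if_pos ⟨h4, h3⟩]
    · rw [if_neg (fun h => h4 h.1), if_neg (fun h => h4 h.1)]
  · have e1 : ¬ (a < γ s ∧ γ s ≤ b) := fun h => absurd h.2 (not_le.2 h3)
    rw [if_neg e1, zero_add]
    by_cases h4 : γ s ≤ c
    · rw [if_pos ⟨h1.trans_lt h3, h4⟩, if_pos ⟨h3, h4⟩]
    · rw [if_neg (fun h => h4 h.2), if_neg (fun h => h4 h.2)]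

/-- the hypothesis on the grid -/
def Hyp {ι : Type*} (Z : Finset ι) (m γ : ι → ℝ) (q : ℕ → ℝ) (D E t h w : ℝ) : Prop :=
  ∀ i j : ℕ, i < j → ((j : ℝ) - i) * w ≤ 3 / 4 → j * w ≤ h →
    |(∑ s ∈ Z, m s * Gs w ((j - i) * w) (γ s - (t + i * w)) - (j - i) * w * D) + (q i - q j)| ≤ E

theorem up_step {ι : Type*} {Z : Finset ι} {m γ : ι → ℝ} (hm : ∀ s ∈ Z, 0 ≤ m s) {q : ℕ → ℝ}
    {D E t h w : ℝ} (hw : 0 < w) (H1 : Hyp Z m γ q D E t h w) {x y : ℝ} {i j : ℕ} (hij : i < j)
    (ha : ((j : ℝ) - i) * w ≤ 3 / 4) (hj : j * w ≤ h) (hx : i * w + w ≤ x) (hy : y ≤ j * w) :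
    Nc Z m γ (t + x) (t + y) ≤ (j - i) * w * D - (q i - q j) + E := by
  have hijr : (i : ℝ) ≤ j := by exact_mod_cast hij.le
  have h1 := H1 i j hij ha hj
  have h2 := cnt_le Z m γ hm (w := w) (a := (j - i) * w) (t1 := t + x) (t2 := t + y)
    (t' := t + i * w) hw (mul_nonneg (by linarith) hw.le) (by linarith) (by linarith)
  rw [abs_le] at h1
  unfold Nc
  linarith [h1.2]

theorem lo_step {ι : Type*} {Z : Finset ι} {m γ : ι → ℝ} (hm : ∀ s ∈ Z, 0 ≤ m s) {q : ℕ → ℝ}
    {D E t h w : ℝ} (hw : 0 < w) (H1 : Hyp Z m γ q D E t h w) {x y : ℝ} {i j : ℕ} (hij : i < j)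
    (ha : ((j : ℝ) - i) * w ≤ 3 / 4) (hj : j * w ≤ h) (hx : x ≤ i * w) (hy : j * w + w ≤ y) :
    (j - i) * w * D - (q i - q j) - E ≤ Nc Z m γ (t + x) (t + y) := by
  have hijr : (i : ℝ) ≤ j := by exact_mod_cast hij.le
  have h1 := H1 i j hij ha hj
  have h2 := le_cnt Z m γ hm (w := w) (a := (j - i) * w) (t1 := t + x) (t2 := t + y)
    (t' := t + i * w) hw (mul_nonneg (by linarith) hw.le) (by linarith) (by linarith)
  rw [abs_le] at h1
  unfold Nc
  linarith [h1.1]

theorem core2 {ι : Type*} (Z : Finset ι) (m γ : ι → ℝ) (hm : ∀ s ∈ Z, 0 ≤ m s) (q : ℕ → ℝ)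
    {D B E t h w : ℝ} (hD : 0 ≤ D) (hB : 0 ≤ B) (hE : 0 ≤ E) (hw : 0 < w) (hw1 : 100 * w ≤ 1)
    (H1 : Hyp Z m γ q D E t h w)
    (H2 : ∀ i j : ℕ, i < j → ((j : ℝ) - i) * w ≤ 1 → j * w ≤ h → |q i - q j| ≤ B)
    (H3 : ∀ i j : ℕ, i < j → j ≤ i + 20 → j * w ≤ h → |q i - q j| ≤ E)
    {x y : ℝ} (hx : 2 * w ≤ x) (hxy : x < y) (hyx : y - x ≤ 1) (hy : y ≤ h - 3 * w) :
    |Nc Z m γ (t + x) (t + y) - (y - x) * D| ≤ B + 8 * E + 30 * w * D := by
  have hwD : 0 ≤ w * D := mul_nonneg hw.le hD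
  have hx0 : 0 ≤ x := by linarith
  have hy0 : 0 ≤ y := by linarith
  have hxw : 2 ≤ x / w := by rw [le_div_iff₀ hw]; linarith
  have hyw : 2 ≤ y / w := by rw [le_div_iff₀ hw]; linarith
  -- the cutting point
  obtain ⟨k, hk⟩ : ∃ k : ℕ, k = ⌊(x + y) / (2 * w)⌋₊ := ⟨_, rfl⟩
  have hk1 : (k : ℝ) * w ≤ (x + y) / 2 := by
    have e1 : (k : ℝ) ≤ (x + y) / (2 * w) := by
      rw [hk]
      exact Nat.floor_le (by positivity)
    rw [le_div_iff₀ (by positivity)] at e1
    linarith
  have hk2 : (x + y) / 2 < k * w + w := by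
    have e1 : (x + y) / (2 * w) < k + 1 := by
      rw [hk]
      exact Nat.lt_floor_add_one _
    rw [div_lt_iff₀ (by positivity)] at e1
    linarith
  rw [abs_le]
  constructor
  · -- lower bound
    obtain ⟨i, hi⟩ : ∃ i : ℕ, i = ⌈x / w⌉₊ := ⟨_, rfl⟩
    obtain ⟨j', hj'⟩ : ∃ j' : ℕ, j' = ⌊y / w⌋₊ := ⟨_, rfl⟩
    have hi1 : x / w ≤ i := by rw [hi]; exact Nat.le_ceil _
    have hi2 : (i : ℝ) < x / w + 1 := by rw [hi]; exact Nat.ceil_lt_add_one (by linarith)
    have hj1 : (j' : ℝ) ≤ y / w := by rw [hj']; exact Nat.floor_le (by linarith)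
    have hj2 : y / w < j' + 1 := by rw [hj']; exact Nat.lt_floor_add_one _
    have hj3 : 2 ≤ j' := by rw [hj']; exact Nat.le_floor (by push_cast; linarith)
    obtain ⟨j, rfl⟩ : ∃ j, j' = j + 1 := ⟨j' - 1, by omega⟩
    push_cast at hj1 hj2
    have hi1' : x ≤ i * w := by rwa [div_le_iff₀ hw] at hi1
    have hi2' : i * w < x + w := by
      have := mul_lt_mul_of_pos_right hi2 hw
      rwa [add_mul, one_mul, div_mul_cancel₀ _ hw.ne'] at this
    have hj1' : (j : ℝ) * w + w ≤ y := by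
      rw [le_div_iff₀ hw] at hj1
      linarith
    have hj2' : y < j * w + 2 * w := by
      rw [div_lt_iff₀ hw] at hj2
      linarith
    have h0 := Nc_nonneg Z m γ hm (t + x) (t + y)
    rcases le_or_gt (y - x) (1 / 2) with hs | hs
    · rcases Nat.lt_or_ge i j with hij | hij
      · have h1 := lo_step hm hw H1 hij (x := x) (y := y) (by linarith) (by linarith) hi1' hj1'
        have h2 := H2 i j hij (by linarith) (by linarith)
        rw [abs_le] at h2
        have h3 : (y - x - 3 * w) * D ≤ (j - i) * w * D :=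
          mul_le_mul_of_nonneg_right (by linarith) hD
        linarith [h2.1, h2.2]
      · have hijr : (j : ℝ) ≤ i := by exact_mod_cast hij
        have h1 : (j : ℝ) * w ≤ i * w := mul_le_mul_of_nonneg_right hijr hw.le
        have h2 : (y - x) * D ≤ 3 * w * D := mul_le_mul_of_nonneg_right (by linarith) hD
        linarith
    · -- cut
      have hik : i + 1 < k := by
        have e1 : ((i + 1 : ℕ) : ℝ) < k := by
          push_cast
          have e2 : ((i : ℝ) + 1) * w < k * w := by linarith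
          exact lt_of_mul_lt_mul_right e2 hw.le
        exact_mod_cast e1
      have hkj : k < j := by
        have e1 : (k : ℝ) < j := by
          have e2 : (k : ℝ) * w < j * w := by linarith
          exact lt_of_mul_lt_mul_right e2 hw.le
        exact_mod_cast e1
      obtain ⟨k', rfl⟩ : ∃ k', k = k' + 1 := ⟨k - 1, by omega⟩
      push_cast at hk1 hk2
      have h1 := lo_step hm hw H1 (i := i) (j := k') (x := x) (y := ((k' + 1 : ℕ) : ℝ) * w)
        (by omega) (by linarith) (by linarith) hi1' (by push_cast; linarith)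
      have h2 := lo_step hm hw H1 (i := k' + 1) (j := j) (x := ((k' + 1 : ℕ) : ℝ) * w) (y := y)
        (by omega) (by push_cast; linarith) (by linarith) le_rfl hj1'
      have h3 := Nc_add Z m γ (a := t + x) (b := t + ((k' + 1 : ℕ) : ℝ) * w) (c := t + y)
        (by push_cast; linarith) (by push_cast; linarith)
      have h4 := H2 i j (by omega) (by linarith) (by linarith)
      have h5 := H3 k' (k' + 1) (by omega) (by omega) (by push_cast; linarith)
      rw [abs_le] at h4 h5
      rw [h3]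
      push_cast at h1 h2 ⊢
      have h6 : (y - x - 4 * w) * D ≤ (k' - i) * w * D + (j - (k' + 1)) * w * D := by
        rw [← add_mul]
        exact mul_le_mul_of_nonneg_right (by linarith) hD
      linarith [h4.1, h4.2, h5.1, h5.2]
  · -- upper bound
    obtain ⟨i', hi'⟩ : ∃ i' : ℕ, i' = ⌊x / w⌋₊ := ⟨_, rfl⟩
    obtain ⟨j, hj⟩ : ∃ j : ℕ, j = ⌈y / w⌉₊ := ⟨_, rfl⟩
    have hi1 : (i' : ℝ) ≤ x / w := by rw [hi']; exact Nat.floor_le (by linarith)
    have hi2 : x / w < i' + 1 := by rw [hi']; exact Nat.lt_floor_add_one _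
    have hi3 : 2 ≤ i' := by rw [hi']; exact Nat.le_floor (by push_cast; linarith)
    have hj1 : y / w ≤ j := by rw [hj]; exact Nat.le_ceil _
    have hj2 : (j : ℝ) < y / w + 1 := by rw [hj]; exact Nat.ceil_lt_add_one (by linarith)
    obtain ⟨i, rfl⟩ : ∃ i, i' = i + 1 := ⟨i' - 1, by omega⟩
    push_cast at hi1 hi2
    have hi1' : (i : ℝ) * w + w ≤ x := by
      rw [le_div_iff₀ hw] at hi1
      linarith
    have hi2' : x < i * w + 2 * w := by
      rw [div_lt_iff₀ hw] at hi2
      linarith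
    have hj1' : y ≤ j * w := by rwa [div_le_iff₀ hw] at hj1
    have hj2' : j * w < y + w := by
      have := mul_lt_mul_of_pos_right hj2 hw
      rwa [add_mul, one_mul, div_mul_cancel₀ _ hw.ne'] at this
    have hijr : (i : ℝ) < j := by
      have e2 : (i : ℝ) * w < j * w := by linarith
      exact lt_of_mul_lt_mul_right e2 hw.le
    have hij : i < j := by exact_mod_cast hijr
    -- the bound for `q`
    have hq : |q i - q j| ≤ B + E := by
      rcases le_or_gt (((j : ℝ) - i) * w) 1 with h1 | h1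
      · have h2 := H2 i j hij h1 (by linarith)
        linarith
      · have h6 : i + 5 < j := by
          have e1 : ((i + 5 : ℕ) : ℝ) < j := by
            push_cast
            have e2 : ((i : ℝ) + 5) * w < j * w := by linarith
            exact lt_of_mul_lt_mul_right e2 hw.le
          exact_mod_cast e1
        obtain ⟨j₁, rfl⟩ : ∃ j₁, j = j₁ + 5 := ⟨j - 5, by omega⟩
        push_cast at hj1' hj2'
        have h2 := H2 i j₁ (by omega) (by linarith) (by linarith)
        have h3 := H3 j₁ (j₁ + 5) (by omega) (by omega) (by push_cast; linarith)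
        have h4 : q i - q (j₁ + 5) = (q i - q j₁) + (q j₁ - q (j₁ + 5)) := by ring
        rw [h4]
        exact (abs_add_le _ _).trans (by linarith)
    rw [abs_le] at hq
    have h3 : (j - i) * w * D ≤ (y - x + 3 * w) * D :=
      mul_le_mul_of_nonneg_right (by linarith) hD
    rcases le_or_gt (y - x) (1 / 2) with hs | hs
    · have h1 := up_step hm hw H1 hij (x := x) (y := y) (by linarith) (by linarith) hi1' hj1'
      linarith [hq.1, hq.2]
    · -- cut
      have hik : i + 1 < k := by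
        have e1 : ((i + 1 : ℕ) : ℝ) < k := by
          push_cast
          have e2 : ((i : ℝ) + 1) * w < k * w := by linarith
          exact lt_of_mul_lt_mul_right e2 hw.le
        exact_mod_cast e1
      have hkj : k < j := by
        have e1 : (k : ℝ) < j := by
          have e2 : (k : ℝ) * w < j * w := by linarith
          exact lt_of_mul_lt_mul_right e2 hw.le
        exact_mod_cast e1
      obtain ⟨k', rfl⟩ : ∃ k', k = k' + 1 := ⟨k - 1, by omega⟩
      push_cast at hk1 hk2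
      have h1 := up_step hm hw H1 (i := i) (j := k' + 1) (x := x) (y := ((k' + 1 : ℕ) : ℝ) * w)
        (by omega) (by push_cast; linarith) (by push_cast; linarith) hi1' le_rfl
      have h2 := up_step hm hw H1 (i := k') (j := j) (x := ((k' + 1 : ℕ) : ℝ) * w) (y := y)
        (by omega) (by linarith) (by linarith) (by push_cast; linarith) hj1'
      have h3' := Nc_add Z m γ (a := t + x) (b := t + ((k' + 1 : ℕ) : ℝ) * w) (c := t + y)
        (by push_cast; linarith) (by push_cast; linarith)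
      have h5 := H3 k' (k' + 1) (by omega) (by omega) (by push_cast; linarith)
      rw [abs_le] at h5
      rw [h3']
      push_cast at h1 h2 ⊢
      have h6 : ((k' + 1) - i) * w * D + (j - k') * w * D = (j - i) * w * D + w * D := by ring
      linarith [hq.1, hq.2, h5.1, h5.2]

end UGSL

open LCL UGL UGSL in
theorem t_UGS : S_UGS := by
  classical
  intro G u hG Q T t h w B E hT ht hw hw1 hh hB hE hyp hyp2 hyp3 x y hx hxy hyx hy
  have hfin : (H370.zset G t (t + 2)).Finite := H370.zset_finite hG.good _ _ (by linarith)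
  obtain ⟨Z, hZ⟩ : ∃ Z : Finset ℂ, Z = hfin.toFinset := ⟨_, rfl⟩
  have hmem : ∀ s : ℂ, s ∈ Z ↔ s ∈ H370.zset G t (t + 2) := fun s => by
    rw [hZ, Set.Finite.mem_toFinset]
  obtain ⟨D, hD⟩ : ∃ D : ℝ, D = Real.log T / (2 * Real.pi) := ⟨_, rfl⟩
  have hD0 : 0 ≤ D := by
    rw [hD]
    exact div_nonneg (Real.log_nonneg hT.le) (by positivity)
  have hX : Hyp Z (fun s => (H370.mult G s : ℝ)) (fun s => s.im) (fun i => Q (t + i * w)) D E t h w := by
    intro i j hij ha' hjh
    have hijr : (i : ℝ) ≤ j := by exact_mod_cast hij.le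
    have ha : 0 ≤ ((j : ℝ) - i) * w := mul_nonneg (by linarith) hw.le
    have hiw : 0 ≤ (i : ℝ) * w := mul_nonneg (Nat.cast_nonneg _) hw.le
    have hsum : ∑ᶠ s ∈ ZG G, (H370.mult G s : ℝ) * Gs w ((j - i) * w) (s.im - (t + i * w)) =
        ∑ s ∈ Z, (H370.mult G s : ℝ) * Gs w ((j - i) * w) (s.im - (t + i * w)) := by
      apply finsum_mem_eq_sum_of_inter_support_eq
      ext s
      simp only [mem_inter_iff, Function.mem_support, Finset.mem_coe, hmem]
      constructor
      · rintro ⟨h1, h2⟩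
        refine ⟨⟨h1.2.1, h1.2.2, ?_, ?_, h1.1⟩, h2⟩
        · by_contra h3
          apply h2
          rw [Gs_zero_left hw ha (by linarith), mul_zero]
        · by_contra h3
          apply h2
          rw [Gs_zero_right hw ha (by linarith), mul_zero]
      · rintro ⟨h1, h2⟩
        exact ⟨⟨h1.2.2.2.2, h1.1, h1.2.1⟩, h2⟩
    have h1 := hyp i j hij ha' hjh
    unfold XG at h1
    rw [hsum, int_Gs hw ha, ← hD] at h1
    have e : ((j : ℝ) - i) * w * D = D * (((j : ℝ) - i) * w) := by ring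
    rw [e]
    exact h1
  have hcore := core2 Z (fun s => (H370.mult G s : ℝ)) (fun s => s.im)
    (fun s _ => Nat.cast_nonneg _) (fun i => Q (t + i * w)) hD0 hB hE hw hw1 hX hyp2 hyp3 hx hxy hyx hy
  have hN : Nc Z (fun s => (H370.mult G s : ℝ)) (fun s => s.im) (t + x) (t + y) =
      (H370.NN G (t + x) (t + y) : ℝ) := by
    have hset : H370.zset G (t + x) (t + y) =
        ((Z.filter fun s => t + x < s.im ∧ s.im ≤ t + y : Finset ℂ) : Set ℂ) := by
      ext s
      simp only [Finset.coe_filter, mem_ofPred_eq, hmem]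
      constructor
      · rintro ⟨h1, h2, h3, h4, h5⟩
        exact ⟨⟨h1, h2, by linarith, by linarith, h5⟩, h3, h4⟩
      · rintro ⟨⟨h1, h2, _, _, h5⟩, h3, h4⟩
        exact ⟨h1, h2, h3, h4, h5⟩
    unfold H370.NN Nc
    rw [hset, finsum_mem_coe_finset, Nat.cast_sum, Finset.sum_filter]
  rw [hN] at hcore
  have e1 : (y - x) * Real.log T / (2 * Real.pi) = (y - x) * D := by rw [hD]; ring
  have e2 : 30 * w * Real.log T / (2 * Real.pi) = 30 * w * D := by rw [hD]; ring
  rw [e1, e2]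
  exact hcore

end Pool.Agent.H203.HX
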