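import Pool.Agent.H203.HX.Defs5
import Pool.Agent.H203.HX.UGS

/-! (UGT) from the smoothed discrepancies on the grid to all intervals, comparison with the prime
side at common grid points (helper82). -/

set_option autoImplicit false

open Complex Filter Topology Set MeasureTheory

namespace Pool.Agent.H203.HX

open Pool.Agent.H203.GE (Lf ZG XG)

namespace UGTL

open LCL UGL UGSL

theorem core3 {ι : Type*} (Z : Finset ι) (m γ : ι → ℝ) (hm : ∀ s ∈ Z, 0 ≤ m s) (q : ℕ → ℝ)
    {D E t h w : ℝ} (hD : 0 ≤ D) (hE : 0 ≤ E) (hw : 0 < w) (hw1 : 100 * w ≤ 1)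
    (H1 : Hyp Z m γ q D E t h w)
    (H3 : ∀ i j : ℕ, i < j → j ≤ i + 20 → j * w ≤ h → |q i - q j| ≤ E)
    {x y : ℝ} (hx : 2 * w ≤ x) (hxy : x < y) (hyx : y - x ≤ 1) (hy : y ≤ h - 3 * w) :
    |Nc Z m γ (t + x) (t + y) - (y - x) * D + (q ⌊x / w⌋₊ - q ⌊y / w⌋₊)| ≤
      20 * E + 30 * w * D := by
  have hwD : 0 ≤ w * D := mul_nonneg hw.le hD
  have hx0 : 0 ≤ x := by linarith
  have hy0 : 0 ≤ y := by linarith
  have hxw : 2 ≤ x / w := by rw [le_div_iff₀ hw]; linarith
  have hyw : 2 ≤ y / w := by rw [le_div_iff₀ hw]; linarith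
  have Hc : ∀ a b : ℕ, a ≤ b → b ≤ a + 20 → b * w ≤ h → |q a - q b| ≤ E := by
    intro a b hab hba hb
    rcases hab.eq_or_lt with h1 | h1
    · rw [h1, sub_self, abs_zero]
      exact hE
    · exact H3 a b h1 hba hb
  -- the common grid points
  obtain ⟨a, ha⟩ : ∃ a : ℕ, a = ⌊x / w⌋₊ := ⟨_, rfl⟩
  obtain ⟨b, hb⟩ : ∃ b : ℕ, b = ⌊y / w⌋₊ := ⟨_, rfl⟩
  have hab : a ≤ b := by
    rw [ha, hb]
    exact Nat.floor_le_floor (div_le_div_of_nonneg_right hxy.le hw.le)
  have hb1 : (b : ℝ) * w ≤ y := by
    have e1 : (b : ℝ) ≤ y / w := by rw [hb]; exact Nat.floor_le (by linarith)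
    rwa [le_div_iff₀ hw] at e1
  -- the cutting point
  obtain ⟨k, hk⟩ : ∃ k : ℕ, k = ⌊(x + y) / (2 * w)⌋₊ := ⟨_, rfl⟩
  have hk1 : (k : ℝ) * w ≤ (x + y) / 2 := by
    have e1 : (k : ℝ) ≤ (x + y) / (2 * w) := by
      rw [hk]
      exact Nat.floor_le (by positivity)
    rw [le_div_iff₀ (by positivity)] at e1
    linarith
  have hk2 : (x + y) / 2 < k * w + w := by
    have e1 : (x + y) / (2 * w) < k + 1 := by
      rw [hk]
      exact Nat.lt_floor_add_one _
    rw [div_lt_iff₀ (by positivity)] at e1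
    linarith
  rw [← ha, ← hb, abs_le]
  constructor
  · -- lower bound
    obtain ⟨i, hi⟩ : ∃ i : ℕ, i = ⌈x / w⌉₊ := ⟨_, rfl⟩
    have hi1 : x / w ≤ i := by rw [hi]; exact Nat.le_ceil _
    have hi2 : (i : ℝ) < x / w + 1 := by rw [hi]; exact Nat.ceil_lt_add_one (by linarith)
    have hj1 : (b : ℝ) ≤ y / w := by rw [hb]; exact Nat.floor_le (by linarith)
    have hj2 : y / w < b + 1 := by rw [hb]; exact Nat.lt_floor_add_one _
    have hj3 : 2 ≤ b := by rw [hb]; exact Nat.le_floor (by push_cast; linarith)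
    have hai : a ≤ i := by rw [ha, hi]; exact Nat.floor_le_ceil _
    have hia : i ≤ a + 1 := by rw [ha, hi]; exact Nat.ceil_le_floor_add_one _
    obtain ⟨j, rfl⟩ : ∃ j, b = j + 1 := ⟨b - 1, by omega⟩
    push_cast at hj1 hj2
    have hi1' : x ≤ i * w := by rwa [div_le_iff₀ hw] at hi1
    have hi2' : i * w < x + w := by
      have := mul_lt_mul_of_pos_right hi2 hw
      rwa [add_mul, one_mul, div_mul_cancel₀ _ hw.ne'] at this
    have hj1' : (j : ℝ) * w + w ≤ y := by
      rw [le_div_iff₀ hw] at hj1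
      linarith
    have hj2' : y < j * w + 2 * w := by
      rw [div_lt_iff₀ hw] at hj2
      linarith
    have h0 := Nc_nonneg Z m γ hm (t + x) (t + y)
    have hqa := Hc a i hai (by omega) (by linarith)
    have hqb := Hc j (j + 1) (by omega) (by omega) (by push_cast; linarith)
    rw [abs_le] at hqa hqb
    rcases Nat.lt_or_ge i j with hij | hij
    · rcases le_or_gt (y - x) (1 / 2) with hs | hs
      · have h1 := lo_step hm hw H1 hij (x := x) (y := y) (by linarith) (by linarith) hi1' hj1'
        have h3 : (y - x - 3 * w) * D ≤ (j - i) * w * D :=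
          mul_le_mul_of_nonneg_right (by linarith) hD
        linarith [hqa.1, hqa.2, hqb.1, hqb.2]
      · -- cut
        have hik : i + 1 < k := by
          have e1 : ((i + 1 : ℕ) : ℝ) < k := by
            push_cast
            have e2 : ((i : ℝ) + 1) * w < k * w := by linarith
            exact lt_of_mul_lt_mul_right e2 hw.le
          exact_mod_cast e1
        have hkj : k < j := by
          have e1 : (k : ℝ) < j := by
            have e2 : (k : ℝ) * w < j * w := by linarith
            exact lt_of_mul_lt_mul_right e2 hw.le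
          exact_mod_cast e1
        obtain ⟨k', rfl⟩ : ∃ k', k = k' + 1 := ⟨k - 1, by omega⟩
        push_cast at hk1 hk2
        have h1 := lo_step hm hw H1 (i := i) (j := k') (x := x) (y := ((k' + 1 : ℕ) : ℝ) * w)
          (by omega) (by linarith) (by linarith) hi1' (by push_cast; linarith)
        have h2 := lo_step hm hw H1 (i := k' + 1) (j := j) (x := ((k' + 1 : ℕ) : ℝ) * w) (y := y)
          (by omega) (by push_cast; linarith) (by linarith) le_rfl hj1'
        have h3 := Nc_add Z m γ (a := t + x) (b := t + ((k' + 1 : ℕ) : ℝ) * w) (c := t + y)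
          (by push_cast; linarith) (by push_cast; linarith)
        have h5 := H3 k' (k' + 1) (by omega) (by omega) (by push_cast; linarith)
        rw [abs_le] at h5
        rw [h3]
        push_cast at h1 h2 ⊢
        have h6 : (y - x - 4 * w) * D ≤ (k' - i) * w * D + (j - (k' + 1)) * w * D := by
          rw [← add_mul]
          exact mul_le_mul_of_nonneg_right (by linarith) hD
        linarith [hqa.1, hqa.2, hqb.1, hqb.2, h5.1, h5.2]
    · have hijr : (j : ℝ) ≤ i := by exact_mod_cast hij
      have h1 : (j : ℝ) * w ≤ i * w := mul_le_mul_of_nonneg_right hijr hw.le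
      have h2 : (y - x) * D ≤ 3 * w * D := mul_le_mul_of_nonneg_right (by linarith) hD
      have h3 := Hc a (j + 1) hab (by omega) (by push_cast; linarith)
      rw [abs_le] at h3
      linarith [h3.1, h3.2]
  · -- upper bound
    obtain ⟨j, hj⟩ : ∃ j : ℕ, j = ⌈y / w⌉₊ := ⟨_, rfl⟩
    have hi1 : (a : ℝ) ≤ x / w := by rw [ha]; exact Nat.floor_le (by linarith)
    have hi2 : x / w < a + 1 := by rw [ha]; exact Nat.lt_floor_add_one _
    have hi3 : 2 ≤ a := by rw [ha]; exact Nat.le_floor (by push_cast; linarith)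
    have hj1 : y / w ≤ j := by rw [hj]; exact Nat.le_ceil _
    have hj2 : (j : ℝ) < y / w + 1 := by rw [hj]; exact Nat.ceil_lt_add_one (by linarith)
    have hbj : b ≤ j := by rw [hb, hj]; exact Nat.floor_le_ceil _
    have hjb : j ≤ b + 1 := by rw [hb, hj]; exact Nat.ceil_le_floor_add_one _
    obtain ⟨i, rfl⟩ : ∃ i, a = i + 1 := ⟨a - 1, by omega⟩
    push_cast at hi1 hi2
    have hi1' : (i : ℝ) * w + w ≤ x := by
      rw [le_div_iff₀ hw] at hi1
      linarith
    have hi2' : x < i * w + 2 * w := by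
      rw [div_lt_iff₀ hw] at hi2
      linarith
    have hj1' : y ≤ j * w := by rwa [div_le_iff₀ hw] at hj1
    have hj2' : j * w < y + w := by
      have := mul_lt_mul_of_pos_right hj2 hw
      rwa [add_mul, one_mul, div_mul_cancel₀ _ hw.ne'] at this
    have hijr : (i : ℝ) < j := by
      have e2 : (i : ℝ) * w < j * w := by linarith
      exact lt_of_mul_lt_mul_right e2 hw.le
    have hij : i < j := by exact_mod_cast hijr
    have hqa := Hc i (i + 1) (by omega) (by omega) (by push_cast; linarith)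
    have hqb := Hc b j hbj (by omega) (by linarith)
    rw [abs_le] at hqa hqb
    have h3 : (j - i) * w * D ≤ (y - x + 3 * w) * D :=
      mul_le_mul_of_nonneg_right (by linarith) hD
    rcases le_or_gt (y - x) (1 / 2) with hs | hs
    · have h1 := up_step hm hw H1 hij (x := x) (y := y) (by linarith) (by linarith) hi1' hj1'
      linarith [hqa.1, hqa.2, hqb.1, hqb.2]
    · -- cut
      have hik : i + 1 < k := by
        have e1 : ((i + 1 : ℕ) : ℝ) < k := by
          push_cast
          have e2 : ((i : ℝ) + 1) * w < k * w := by linarith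
          exact lt_of_mul_lt_mul_right e2 hw.le
        exact_mod_cast e1
      have hkj : k < j := by
        have e1 : (k : ℝ) < j := by
          have e2 : (k : ℝ) * w < j * w := by linarith
          exact lt_of_mul_lt_mul_right e2 hw.le
        exact_mod_cast e1
      obtain ⟨k', rfl⟩ : ∃ k', k = k' + 1 := ⟨k - 1, by omega⟩
      push_cast at hk1 hk2
      have h1 := up_step hm hw H1 (i := i) (j := k' + 1) (x := x) (y := ((k' + 1 : ℕ) : ℝ) * w)
        (by omega) (by push_cast; linarith) (by push_cast; linarith) hi1' le_rfl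
      have h2 := up_step hm hw H1 (i := k') (j := j) (x := ((k' + 1 : ℕ) : ℝ) * w) (y := y)
        (by omega) (by linarith) (by linarith) (by push_cast; linarith) hj1'
      have h3' := Nc_add Z m γ (a := t + x) (b := t + ((k' + 1 : ℕ) : ℝ) * w) (c := t + y)
        (by push_cast; linarith) (by push_cast; linarith)
      have h5 := H3 k' (k' + 1) (by omega) (by omega) (by push_cast; linarith)
      rw [abs_le] at h5
      rw [h3']
      push_cast at h1 h2 ⊢
      have h6 : ((k' + 1) - i) * w * D + (j - k') * w * D = (j - i) * w * D + w * D := by ring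
      linarith [hqa.1, hqa.2, hqb.1, hqb.2, h5.1, h5.2]

end UGTL

open LCL UGL UGSL UGTL in
theorem t_UGT : S_UGT := by
  classical
  intro G u hG Q T t h w E hT ht hw hw1 hh hE hyp hyp3 x y hx hxy hyx hy
  have hfin : (H370.zset G t (t + 2)).Finite := H370.zset_finite hG.good _ _ (by linarith)
  obtain ⟨Z, hZ⟩ : ∃ Z : Finset ℂ, Z = hfin.toFinset := ⟨_, rfl⟩
  have hmem : ∀ s : ℂ, s ∈ Z ↔ s ∈ H370.zset G t (t + 2) := fun s => by
    rw [hZ, Set.Finite.mem_toFinset]
  obtain ⟨D, hD⟩ : ∃ D : ℝ, D = Real.log T / (2 * Real.pi) := ⟨_, rfl⟩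
  have hD0 : 0 ≤ D := by
    rw [hD]
    exact div_nonneg (Real.log_nonneg hT.le) (by positivity)
  have hX : Hyp Z (fun s => (H370.mult G s : ℝ)) (fun s => s.im) (fun i => Q (t + i * w)) D E t h w := by
    intro i j hij ha' hjh
    have hijr : (i : ℝ) ≤ j := by exact_mod_cast hij.le
    have ha : 0 ≤ ((j : ℝ) - i) * w := mul_nonneg (by linarith) hw.le
    have hiw : 0 ≤ (i : ℝ) * w := mul_nonneg (Nat.cast_nonneg _) hw.le
    have hsum : ∑ᶠ s ∈ ZG G, (H370.mult G s : ℝ) * Gs w ((j - i) * w) (s.im - (t + i * w)) =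
        ∑ s ∈ Z, (H370.mult G s : ℝ) * Gs w ((j - i) * w) (s.im - (t + i * w)) := by
      apply finsum_mem_eq_sum_of_inter_support_eq
      ext s
      simp only [mem_inter_iff, Function.mem_support, Finset.mem_coe, hmem]
      constructor
      · rintro ⟨h1, h2⟩
        refine ⟨⟨h1.2.1, h1.2.2, ?_, ?_, h1.1⟩, h2⟩
        · by_contra h3
          apply h2
          rw [Gs_zero_left hw ha (by linarith), mul_zero]
        · by_contra h3
          apply h2
          rw [Gs_zero_right hw ha (by linarith), mul_zero]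
      · rintro ⟨h1, h2⟩
        exact ⟨⟨h1.2.2.2.2, h1.1, h1.2.1⟩, h2⟩
    have h1 := hyp i j hij ha' hjh
    unfold XG at h1
    rw [hsum, int_Gs hw ha, ← hD] at h1
    have e : ((j : ℝ) - i) * w * D = D * (((j : ℝ) - i) * w) := by ring
    rw [e]
    exact h1
  have hcore := core3 Z (fun s => (H370.mult G s : ℝ)) (fun s => s.im)
    (fun s _ => Nat.cast_nonneg _) (fun i => Q (t + i * w)) hD0 hE hw hw1 hX hyp3 hx hxy hyx hy
  have hN : Nc Z (fun s => (H370.mult G s : ℝ)) (fun s => s.im) (t + x) (t + y) =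
      (H370.NN G (t + x) (t + y) : ℝ) := by
    have hset : H370.zset G (t + x) (t + y) =
        ((Z.filter fun s => t + x < s.im ∧ s.im ≤ t + y : Finset ℂ) : Set ℂ) := by
      ext s
      simp only [Finset.coe_filter, mem_ofPred_eq, hmem]
      constructor
      · rintro ⟨h1, h2, h3, h4, h5⟩
        exact ⟨⟨h1, h2, by linarith, by linarith, h5⟩, h3, h4⟩
      · rintro ⟨⟨h1, h2, _, _, h5⟩, h3, h4⟩
        exact ⟨h1, h2, h3, h4, h5⟩
    unfold H370.NN Nc
    rw [hset, finsum_mem_coe_finset, Nat.cast_sum, Finset.sum_filter]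
  rw [hN] at hcore
  have e1 : (y - x) * Real.log T / (2 * Real.pi) = (y - x) * D := by rw [hD]; ring
  have e2 : 30 * w * Real.log T / (2 * Real.pi) = 30 * w * D := by rw [hD]; ring
  rw [e1, e2]
  exact hcore

end Pool.Agent.H203.HX
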