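import Pool.Agent.H203.HX.Defs4
import Pool.Agent.H203.HX.UM

set_option autoImplicit false

/-! (UMS) the prime side of the majorant is at most `eta log L` with overwhelming probability (helper142; adapted from
HX/UM.lean of helper980). -/

open Complex Filter Topology Set MeasureTheory

namespace Pool.Agent.H203.HX

open Pool.Agent.H203.ME (ee gR WR cR om FF KF C2c w1)
open Pool.Agent.H203.GE (Lf ZG XG BG NWG)

namespace UMSL

/-- the numerical estimate -/
lemma num_le {m : ℕ} {l S η γ T : ℝ} (hγ : 0 < γ) (hη : 0 < η) (hS : 0 ≤ S) (hT : 0 ≤ T) (hl : 0 < l)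
    (h1 : 2 / γ ≤ l) (hm1 : (m : ℝ) ≤ γ * l) (hm2 : γ * l - 1 < m)
    (h2 : 4 * γ * (1 + S) / η ^ 2 / l ≤ Real.exp (-(8 / γ))) (h3 : 4 * (γ * l) ^ 2 ≤ Real.exp l) :
    4 * (m.factorial : ℝ) * m ^ 2 * (1 + S) ^ m * T / (η / 2 * l) ^ (2 * m) ≤ Real.exp (-(3 * l)) * T := by
  have hm0 : (0 : ℝ) ≤ m := Nat.cast_nonneg m
  have hg : 2 ≤ γ * l := by
    rw [div_le_iff₀ hγ] at h1
    linarith
  have hlam : 0 < η / 2 * l := by positivity
  have h4 : (m.factorial : ℝ) ≤ (m : ℝ) ^ m := by exact_mod_cast Nat.factorial_le_pow m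
  have h5 : ((m : ℝ) * (1 + S)) / (η / 2 * l) ^ 2 ≤ Real.exp (-(8 / γ)) := by
    refine le_trans ?_ h2
    have e : 4 * γ * (1 + S) / η ^ 2 / l = (γ * l * (1 + S)) / (η / 2 * l) ^ 2 := by
      field_simp
      norm_num
    rw [e]
    apply div_le_div_of_nonneg_right _ (by positivity)
    exact mul_le_mul_of_nonneg_right hm1 (by linarith)
  have h7 : (((m : ℝ) * (1 + S)) / (η / 2 * l) ^ 2) ^ m ≤ Real.exp (-(4 * l)) := by
    calc (((m : ℝ) * (1 + S)) / (η / 2 * l) ^ 2) ^ m ≤ (Real.exp (-(8 / γ))) ^ m :=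
          pow_le_pow_left₀ (by positivity) h5 m
      _ = Real.exp (m * (-(8 / γ))) := by rw [← Real.exp_nat_mul]
      _ ≤ _ := by
        apply Real.exp_le_exp.2
        have h8 : γ * l / 2 ≤ m := by linarith
        have h9 : 8 / γ * (γ * l / 2) ≤ 8 / γ * m := mul_le_mul_of_nonneg_left h8 (by positivity)
        have h10 : 8 / γ * (γ * l / 2) = 4 * l := by
          field_simp
          ring
        linarith
  have h8 : 4 * (m : ℝ) ^ 2 ≤ Real.exp l := by
    refine le_trans ?_ h3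
    have := pow_le_pow_left₀ hm0 hm1 2
    linarith
  calc 4 * (m.factorial : ℝ) * m ^ 2 * (1 + S) ^ m * T / (η / 2 * l) ^ (2 * m)
      ≤ 4 * (m : ℝ) ^ m * m ^ 2 * (1 + S) ^ m * T / (η / 2 * l) ^ (2 * m) := by
        apply div_le_div_of_nonneg_right _ (by positivity)
        gcongr
    _ = 4 * m ^ 2 * (((m : ℝ) * (1 + S)) / (η / 2 * l) ^ 2) ^ m * T := by
        generalize η / 2 * l = lam
        rw [div_pow, mul_pow, ← pow_mul]
        ring
    _ ≤ Real.exp l * Real.exp (-(4 * l)) * T := by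
        apply mul_le_mul_of_nonneg_right _ hT
        exact mul_le_mul h8 h7 (by positivity) (Real.exp_pos _).le
    _ = _ := by
        rw [← Real.exp_add]
        congr 2
        ring

/-- the conditions on `L` -/
lemma large (α κ η c S D : ℝ) (hη : 0 < η) : ∃ L0 : ℝ, ∀ L : ℝ, L0 ≤ L → 64 ≤ L ∧ 2 ≤ Real.log L ∧
    α * Real.log L * (5 / 4 * (16 + c)) ≤ L ∧ α * Real.log L * 20 ≤ L ∧
    2 / (α / (8 * κ)) ≤ Real.log L ∧ D ≤ η / 2 * Real.log L ∧
    4 * (α / (8 * κ)) * (1 + S) / η ^ 2 / Real.log L ≤ Real.exp (-(8 / (α / (8 * κ)))) ∧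
    4 * (α / (8 * κ) * Real.log L) ^ 2 ≤ Real.exp (Real.log L) := by
  have lin : ∀ K : ℝ, ∀ᶠ L : ℝ in atTop, α * Real.log L * K ≤ L := by
    intro K
    have h2 : ∀ᶠ L : ℝ in atTop, ‖Real.log L‖ ≤ (1 / (|α * K| + 1)) * ‖L‖ :=
      Real.isLittleO_log_id_atTop.bound (by positivity)
    filter_upwards [h2, eventually_ge_atTop (1 : ℝ)] with L h3 h4
    have h5 : 0 ≤ Real.log L := Real.log_nonneg h4
    rw [Real.norm_of_nonneg h5, Real.norm_of_nonneg (by linarith), one_div, inv_mul_eq_div,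
      le_div_iff₀ (by positivity)] at h3
    have h6 : α * K ≤ |α * K| + 1 := by linarith [le_abs_self (α * K)]
    have h7 := mul_le_mul_of_nonneg_left h6 h5
    calc α * Real.log L * K = Real.log L * (α * K) := by ring
      _ ≤ _ := h7.trans h3
  have hlog := Real.tendsto_log_atTop
  have h4 : ∀ᶠ l : ℝ in atTop, D ≤ η / 2 * l := by
    filter_upwards [eventually_ge_atTop (D / (η / 2))] with l hl
    rw [div_le_iff₀ (by positivity)] at hl
    linarith
  have h5 : ∀ᶠ l : ℝ in atTop, 4 * (α / (8 * κ)) * (1 + S) / η ^ 2 / l ≤ Real.exp (-(8 / (α / (8 * κ)))) := by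
    have h6 : Tendsto (fun l : ℝ => 4 * (α / (8 * κ)) * (1 + S) / η ^ 2 / l) atTop (𝓝 0) :=
      tendsto_const_nhds.div_atTop tendsto_id
    exact (h6.eventually (gt_mem_nhds (Real.exp_pos _))).mono fun l hl => hl.le
  have h6 : ∀ᶠ l : ℝ in atTop, 4 * (α / (8 * κ) * l) ^ 2 ≤ Real.exp l := by
    have h7 : (fun l : ℝ => l ^ 2) =o[atTop] fun l => Real.exp l := Real.isLittleO_pow_exp_atTop
    have h8 : ∀ᶠ l : ℝ in atTop, ‖l ^ 2‖ ≤ (1 / (4 * (α / (8 * κ)) ^ 2 + 1)) * ‖Real.exp l‖ :=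
      h7.bound (by positivity)
    filter_upwards [h8] with l h9
    rw [Real.norm_of_nonneg (sq_nonneg l), Real.norm_of_nonneg (Real.exp_pos l).le, one_div, inv_mul_eq_div,
      le_div_iff₀ (by positivity)] at h9
    have h10 := sq_nonneg l
    calc 4 * (α / (8 * κ) * l) ^ 2 = l ^ 2 * (4 * (α / (8 * κ)) ^ 2) := by ring
      _ ≤ l ^ 2 * (4 * (α / (8 * κ)) ^ 2 + 1) := by
        apply mul_le_mul_of_nonneg_left _ h10
        linarith
      _ ≤ _ := h9
  exact eventually_atTop.1 ((eventually_ge_atTop (64 : ℝ)).and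
    ((hlog.eventually_ge_atTop 2).and ((lin _).and ((lin _).and
      ((hlog.eventually_ge_atTop _).and ((hlog.eventually h4).and
        ((hlog.eventually h5).and (hlog.eventually h6))))))))

end UMSL

open UMSL ZML Pool.Agent.H203.ME.BMBL Pool.Agent.H203.GE.BMGL in
/-- (UMS) -/
theorem t_UMS (hM : S_MP) : S_UMS := by
  intro u hu η α κ hη hα hκ
  obtain ⟨C3, hC3, hnp⟩ := Pool.Agent.H203.GE.BMGL.nonprimes
  obtain ⟨c, hc0, hcF⟩ := FF_Mw
  have hZ := Pool.Agent.H203.ME.PRML.Z1_nonneg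
  set D : ℝ := 2 * Pool.Agent.H203.ME.PRML.Z1 + (C3 + 23 * c) with hD
  have hD0 : 0 ≤ D := by positivity
  set S : ℝ := 23 * c ^ 2 with hS
  have hS0 : 0 ≤ S := by positivity
  obtain ⟨L0, hL0⟩ := large α κ η c S D hη
  refine ⟨max L0 3, le_max_right _ _, ?_⟩
  intro T h L w R hT hh h12 hL hLL hw hR x hx hxh
  obtain ⟨g1, g2, g3, g4, g5, g6, g7, g8⟩ := hL0 L ((le_max_left _ _).trans hLL)
  have hLpos : 0 < L := by linarith
  have hT0 : 0 < T := by linarith
  have hlT0 : 0 < Real.log T := Real.log_pos hT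
  have hlTL : L ≤ 5 / 4 * Real.log T := by
    rw [hL]
    exact mul_le_mul_of_nonneg_right h12 hlT0.le
  set l := Real.log L with hl
  set γ : ℝ := α / (8 * κ) with hγ
  have hl0 : 0 < l := by linarith
  have hκ0 : 0 < κ := by linarith
  have hγ0 : 0 < γ := by rw [hγ]; positivity
  have hw0 : 0 < w := by
    rw [hw]
    positivity
  have hR0 : 0 < R := by
    rw [hR]
    positivity
  have hR16 : 16 ≤ R := by
    rw [hR, le_div_iff₀ hw0, hw]
    have h1 : 16 * (α * l / Real.log T) ≤ 1 := by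
      rw [← mul_div_assoc, div_le_one hlT0]
      linarith
    linarith
  have hwc : w * (16 + c) ≤ 1 := by
    rw [hw, div_mul_eq_mul_div, div_le_one hlT0]
    linarith
  have h8 : w ≤ 1 / 8 := by nlinarith
  have hch : c * w ≤ 1 := by nlinarith
  set F : ℝ → ℝ := Mw w with hF
  have hFb : ∀ ξ, ‖FF F ξ‖ ≤ bp c w ξ := fun ξ => hcF w hw0 (by linarith) ξ
  have hF1 : ∀ ξ, ‖FF F ξ‖ ≤ 1 := fun ξ => (hFb ξ).trans ((bp_le hc0 hw0 ξ).trans hch)
  set M : ℕ := ⌊Real.exp (2 * R)⌋₊ with hMdef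
  have hMle : (M : ℝ) ≤ Real.exp (2 * R) := Nat.floor_le (Real.exp_pos _).le
  have hM1 : 1 ≤ M := by
    rw [hMdef, Nat.one_le_floor_iff]
    exact Real.one_le_exp (by linarith)
  have hMX : ∀ n : ℕ, M < n → 2 * R ≤ Real.log n := by
    intro n hn
    have h1 : Real.exp (2 * R) < n := (Nat.floor_lt (Real.exp_pos _).le).1 hn
    rw [Real.le_log_iff_exp_le ((Real.exp_pos _).trans h1)]
    exact h1.le
  set a : ℕ → ℂ := fun p => ag u F R p * ee p x with ha
  have han : ∀ p, ‖a p‖ = ‖ag u F R p‖ := by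
    intro p
    rw [ha]
    show ‖ag u F R p * ee p x‖ = _
    rw [norm_mul, UML.norm_ee, mul_one]
  have haa : ∀ p : ℕ, ‖a p‖ ≤ 1 := by
    intro p
    rw [han]
    refine (ag_le hu F R p).trans ((aa_le hR0 p).trans ?_)
    have h1 : ArithmeticFunction.vonMangoldt p / Real.sqrt p ≤ 1 :=
      (div_le_div_of_nonneg_right ArithmeticFunction.vonMangoldt_le_log (Real.sqrt_nonneg _)).trans
        (Pool.Agent.H203.ME.log_div_sqrt_le p)
    calc _ ≤ 1 * 1 := mul_le_mul h1 (hF1 _) (norm_nonneg _) zero_le_one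
      _ = 1 := one_mul _
  have hSa : ∑ p ∈ (Finset.Icc 1 M).filter Nat.Prime, ‖a p‖ ^ 2 ≤ S := by
    simp only [han]
    exact Pool.Agent.H203.GE.BMGL.primes hu hR0 hc0 hw0 h8 hFb M
  -- the exponent
  set m : ℕ := ⌊γ * l⌋₊ with hm
  have hg2 : 2 ≤ γ * l := by
    rw [div_le_iff₀ hγ0] at g5
    linarith
  have hm1 : (m : ℝ) ≤ γ * l := Nat.floor_le (by positivity)
  have hm2 : γ * l - 1 < m := by
    have := Nat.lt_floor_add_one (γ * l)
    rw [← hm] at this
    linarith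
  have hmpos : 1 ≤ m := by
    rw [hm, Nat.one_le_floor_iff]
    linarith
  have hNT : (M : ℝ) ^ (4 * m) ≤ T := by
    calc (M : ℝ) ^ (4 * m) ≤ (Real.exp (2 * R)) ^ (4 * m) := pow_le_pow_left₀ (Nat.cast_nonneg _) hMle _
      _ = Real.exp ((4 * m : ℕ) * (2 * R)) := by rw [← Real.exp_nat_mul]
      _ ≤ Real.exp (Real.log T) := by
          apply Real.exp_le_exp.2
          push_cast
          have h1 : 8 * (γ * l) * R = Real.log T := by
            rw [hR, hw, hγ]
            field_simp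
          have h2 : 8 * (m : ℝ) * R ≤ 8 * (γ * l) * R := by
            apply mul_le_mul_of_nonneg_right _ hR0.le
            linarith
          linarith
      _ = T := Real.exp_log hT0
  set lam : ℝ := η / 2 * l with hlam
  have hlam0 : 0 < lam := by positivity
  have n1 := num_le (m := m) (l := l) (S := S) (T := T) hγ0 hη hS0 hT0.le hl0 g5 hm1 hm2 g7 g8
  have v1 := UML.moment1 hM hmpos hM1 hT.le haa hNT hSa hlam0
  have hsub : {t : ℝ | T ≤ t ∧ t ≤ 2 * T ∧ η * l < |BG u F R (t + x)|} ⊆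
      {t : ℝ | T ≤ t ∧ t ≤ 2 * T ∧
        lam < ‖∑ p ∈ (Finset.Icc 1 M).filter Nat.Prime, a p * ee p t‖} := by
    rintro t ⟨t1, t2, t3⟩
    refine ⟨t1, t2, ?_⟩
    obtain ⟨v, hv, he⟩ := Pool.Agent.H203.GE.BMGL.split hu hF1 hR16 M hMX (t + x)
    have h1 : ∑ n ∈ Finset.Icc 1 M, ag u F R n * ee n (t + x) =
        ∑ p ∈ (Finset.Icc 1 M).filter Nat.Prime, a p * ee p t +
        ∑ n ∈ (Finset.Icc 1 M).filter (fun n => ¬ n.Prime), ag u F R n * ee n (t + x) := by
      rw [← Finset.sum_filter_add_sum_filter_not (Finset.Icc 1 M) Nat.Prime]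
      congr 1
      refine Finset.sum_congr rfl fun p _ => ?_
      show _ = ag u F R p * ee p x * ee p t
      rw [UML.ee_add]
      ring
    have h2 : ‖∑ n ∈ (Finset.Icc 1 M).filter (fun n => ¬ n.Prime), ag u F R n * ee n (t + x)‖ ≤
        C3 + 23 * c := by
      refine (norm_sum_le _ _).trans
        (le_trans (le_of_eq ?_) (hnp u hu F c w R hR0 hc0 hw0 h8 hch hFb M))
      refine Finset.sum_congr rfl fun n _ => ?_
      rw [norm_mul, UML.norm_ee, mul_one]
    have h4 : |BG u F R (t + x)| ≤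
        ‖∑ p ∈ (Finset.Icc 1 M).filter Nat.Prime, a p * ee p t‖ + D := by
      rw [he, h1]
      refine (Complex.abs_re_le_norm _).trans ((norm_add_le _ _).trans ?_)
      have := norm_add_le (∑ p ∈ (Finset.Icc 1 M).filter Nat.Prime, a p * ee p t)
        (∑ n ∈ (Finset.Icc 1 M).filter (fun n => ¬ n.Prime), ag u F R n * ee n (t + x))
      rw [hD]
      linarith
    have h5 : η * l = η / 2 * l + η / 2 * l := by ring
    rw [hlam]
    linarith
  refine (measure_mono hsub).trans (v1.trans (ENNReal.ofReal_le_ofReal (n1.trans ?_)))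
  -- the final estimate
  have e1 : Real.exp (-(3 * l)) = L ^ (-3 : ℝ) := by
    rw [Real.rpow_def_of_pos hLpos, ← hl]
    congr 1
    ring
  rw [e1, mul_comm]

end Pool.Agent.H203.HX
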