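import Pool.Agent.H203.HX.Defs4
import Pool.Agent.H203.HX.RS
import Pool.Agent.H203.HX.UQ

set_option autoImplicit false

/-! (UQS) the prime side with the sharp constant (by helper585). -/

open Complex Filter Topology Set MeasureTheory

namespace Pool.Agent.H203.HX

open Pool.Agent.H203.ME (ee gR WR cR om FF KF C2c w1)

namespace UQSL

open ArithmeticFunction RSL
open Pool.Agent.H203.ME (PRML.kap PRML.Z1)

/-- Stirling with a weak constant -/
lemma fact_le (m : ℕ) (hm : 1 ≤ m) :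
    (m.factorial : ℝ) ≤ Real.exp 1 * m * ((m : ℝ) ^ m * Real.exp (-(m : ℝ))) := by
  induction m, hm using Nat.le_induction with
  | base =>
      simp only [Nat.factorial_one, Nat.cast_one, mul_one, pow_one, one_mul]
      rw [← Real.exp_add]
      simp
  | succ m hm ih =>
      have hm0 : (0 : ℝ) < m := by exact_mod_cast hm
      have h1 : Real.exp 1 * (m : ℝ) ^ (m + 1) ≤ ((m : ℝ) + 1) ^ (m + 1) := by
        have h2 : Real.exp 1 ≤ (((m : ℝ) + 1) / m) ^ (m + 1) := by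
          have h3 : 1 - (((m : ℝ) + 1) / m)⁻¹ ≤ Real.log (((m : ℝ) + 1) / m) :=
            Real.one_sub_inv_le_log_of_pos (by positivity)
          have h4 : 1 - (((m : ℝ) + 1) / m)⁻¹ = 1 / ((m : ℝ) + 1) := by
            rw [inv_div]
            field_simp
            ring
          have h5 : (((m : ℝ) + 1) / m) ^ (m + 1) =
              Real.exp (((m : ℝ) + 1) * Real.log (((m : ℝ) + 1) / m)) := by
            have h6 : (((m : ℝ) + 1) / m) ^ (m + 1) = (Real.exp (Real.log (((m : ℝ) + 1) / m))) ^ (m + 1) := by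
              rw [Real.exp_log (by positivity)]
            rw [h6, ← Real.exp_nat_mul]
            push_cast
            ring_nf
          rw [h5]
          apply Real.exp_le_exp.2
          rw [h4] at h3
          have h7 : ((m : ℝ) + 1) * (1 / ((m : ℝ) + 1)) ≤ ((m : ℝ) + 1) * Real.log (((m : ℝ) + 1) / m) :=
            mul_le_mul_of_nonneg_left h3 (by positivity)
          have h8 : ((m : ℝ) + 1) * (1 / ((m : ℝ) + 1)) = 1 := by field_simp
          linarith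
        rw [div_pow, le_div_iff₀ (by positivity)] at h2
        exact h2
      have h2 : Real.exp (-((m : ℝ) + 1)) = Real.exp (-(m : ℝ)) * Real.exp (-1) := by
        rw [← Real.exp_add]
        congr 1
        ring
      rw [Nat.factorial_succ]
      push_cast
      rw [h2]
      have h3 : Real.exp 1 * Real.exp (-1) = 1 := by
        rw [← Real.exp_add]
        simp
      have h4 : 0 < Real.exp (-(m : ℝ)) := Real.exp_pos _
      calc ((m : ℝ) + 1) * m.factorial ≤ ((m : ℝ) + 1) *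
            (Real.exp 1 * m * ((m : ℝ) ^ m * Real.exp (-(m : ℝ)))) :=
            mul_le_mul_of_nonneg_left ih (by positivity)
        _ = ((m : ℝ) + 1) * Real.exp (-(m : ℝ)) * (Real.exp 1 * (m : ℝ) ^ (m + 1)) := by
            rw [pow_succ]
            ring
        _ ≤ ((m : ℝ) + 1) * Real.exp (-(m : ℝ)) * (((m : ℝ) + 1) ^ (m + 1)) :=
            mul_le_mul_of_nonneg_left h1 (by positivity)
        _ = ((m : ℝ) + 1) * Real.exp (-(m : ℝ)) * (((m : ℝ) + 1) ^ (m + 1)) *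
            (Real.exp 1 * Real.exp (-1)) := by rw [h3, mul_one]
        _ = _ := by ring

/-- the numerical estimate for a bounded variance -/
lemma numB (c K η : ℝ) (hc : 0 < c) (hK : 0 ≤ K) (hη : 0 < η) : ∀ᶠ l : ℝ in atTop,
    1 ≤ ⌊c * l⌋₊ ∧ 4 * ((⌊c * l⌋₊).factorial : ℝ) * (⌊c * l⌋₊ : ℝ) ^ 2 * (1 + K) ^ ⌊c * l⌋₊ /
      (η * l) ^ (2 * ⌊c * l⌋₊) ≤ Real.exp (-(4 * l)) := by
  have e1 : ∀ᶠ l : ℝ in atTop, 4 * (c * l) ^ 2 ≤ Real.exp l := by
    have h1 := (Real.isLittleO_pow_exp_atTop (n := 2)).bound (show (0 : ℝ) < 1 / (4 * c ^ 2) by positivity)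
    filter_upwards [h1, eventually_ge_atTop (0 : ℝ)] with l h2 h3
    rw [Real.norm_of_nonneg (by positivity), Real.norm_of_nonneg (Real.exp_pos _).le] at h2
    rw [div_mul_eq_mul_div, one_mul, le_div_iff₀ (by positivity)] at h2
    calc 4 * (c * l) ^ 2 = l ^ 2 * (4 * c ^ 2) := by ring
      _ ≤ _ := h2
  filter_upwards [e1, eventually_ge_atTop (1 : ℝ), eventually_ge_atTop (2 / c),
    eventually_ge_atTop (c * (1 + K) / η ^ 2 * Real.exp (10 / c))] with l h1 h2 h3 h4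
  have hl0 : 0 < l := by linarith
  obtain ⟨m, hm⟩ : ∃ m : ℕ, m = ⌊c * l⌋₊ := ⟨_, rfl⟩
  rw [← hm]
  have hm1 : (m : ℝ) ≤ c * l := by
    rw [hm]
    exact Nat.floor_le (by positivity)
  have hcl : 2 ≤ c * l := by
    rw [div_le_iff₀ hc] at h3
    linarith
  have hm2 : c * l / 2 ≤ m := by
    have h5 := Nat.lt_floor_add_one (c * l)
    rw [← hm] at h5
    linarith
  have hm3 : 1 ≤ m := by
    rw [hm, Nat.one_le_floor_iff]
    linarith
  have hm0 : (0 : ℝ) < m := by exact_mod_cast hm3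
  refine ⟨hm3, ?_⟩
  have h5 : (m.factorial : ℝ) ≤ (m : ℝ) ^ m := by exact_mod_cast Nat.factorial_le_pow m
  have h6 : ((m : ℝ) * (1 + K)) / (η * l) ^ 2 ≤ Real.exp (-(10 / c)) := by
    rw [div_le_iff₀ (by positivity), Real.exp_neg, ← div_eq_inv_mul, le_div_iff₀ (Real.exp_pos _)]
    have h7 : c * (1 + K) * Real.exp (10 / c) ≤ l * η ^ 2 := by
      have : c * (1 + K) / η ^ 2 * Real.exp (10 / c) * η ^ 2 ≤ l * η ^ 2 :=
        mul_le_mul_of_nonneg_right h4 (by positivity)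
      calc _ = c * (1 + K) / η ^ 2 * Real.exp (10 / c) * η ^ 2 := by field_simp
        _ ≤ _ := this
    calc (m : ℝ) * (1 + K) * Real.exp (10 / c) ≤ (c * l) * (1 + K) * Real.exp (10 / c) := by
          gcongr
      _ = l * (c * (1 + K) * Real.exp (10 / c)) := by ring
      _ ≤ l * (l * η ^ 2) := mul_le_mul_of_nonneg_left h7 hl0.le
      _ = _ := by ring
  have h7 : (((m : ℝ) * (1 + K)) / (η * l) ^ 2) ^ m ≤ Real.exp (-(5 * l)) := by
    calc (((m : ℝ) * (1 + K)) / (η * l) ^ 2) ^ m ≤ (Real.exp (-(10 / c))) ^ m :=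
          pow_le_pow_left₀ (by positivity) h6 m
      _ = Real.exp (m * (-(10 / c))) := by rw [← Real.exp_nat_mul]
      _ ≤ _ := by
          apply Real.exp_le_exp.2
          have h8 : 5 * l ≤ m * (10 / c) := by
            calc 5 * l = c * l / 2 * (10 / c) := by field_simp; ring
              _ ≤ _ := mul_le_mul_of_nonneg_right hm2 (by positivity)
          linarith
  calc 4 * (m.factorial : ℝ) * m ^ 2 * (1 + K) ^ m / (η * l) ^ (2 * m)
      ≤ 4 * (m : ℝ) ^ m * m ^ 2 * (1 + K) ^ m / (η * l) ^ (2 * m) := by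
        apply div_le_div_of_nonneg_right _ (by positivity)
        gcongr
    _ = 4 * m ^ 2 * (((m : ℝ) * (1 + K)) / (η * l) ^ 2) ^ m := by
        rw [div_pow, ← pow_mul, mul_pow (m : ℝ) (1 + K) m]
        ring
    _ ≤ 4 * (c * l) ^ 2 * Real.exp (-(5 * l)) := by
        apply mul_le_mul _ h7 (by positivity) (by positivity)
        gcongr
    _ ≤ Real.exp l * Real.exp (-(5 * l)) := mul_le_mul_of_nonneg_right h1 (Real.exp_pos _).le
    _ = _ := by
        rw [← Real.exp_add]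
        congr 1
        ring


lemma ap_le_pi (hP : S_PH) {u : ℕ → ℂ} (hu : ∀ n, ‖u n‖ ≤ 1) {w R : ℝ} (hR : 0 < R) (x x' : ℝ)
    (p : ℕ) : ‖ap u w R 0 0 x x' p‖ ≤ 1 / Real.sqrt p * ‖ee p x - ee p x'‖ * (1 / Real.pi) := by
  classical
  have hp : ¬ ((0 : ℝ) < Real.log p ∧ Real.log p ≤ 0) := by
    rintro ⟨h1, h2⟩
    linarith
  unfold ap
  have hk0 := kap_nonneg R (Real.log p) hR
  have hk1 := kap_le_pi R (Real.log p) hR
  have hpi := Real.pi_pos
  rw [if_neg hp, Complex.ofReal_zero, sub_zero]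
  have h2 : ‖((PRML.kap R (Real.log p) : ℝ) : ℂ) * ph (w * Real.log p)‖ ≤ 1 / Real.pi := by
    rw [norm_mul, Complex.norm_real, Real.norm_eq_abs, abs_of_nonneg hk0]
    calc _ ≤ (1 / Real.pi) * 1 := mul_le_mul hk1 (hP.2.1 _) (norm_nonneg _) (by positivity)
      _ = _ := mul_one _
  rw [norm_mul, norm_mul, norm_mul (-I), norm_mul (u p), norm_neg, Complex.norm_I, one_mul,
    Complex.norm_real, Real.norm_eq_abs, abs_of_nonneg (show (0 : ℝ) ≤ 1 / Real.sqrt p by positivity)]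
  refine mul_le_mul ?_ h2 (norm_nonneg _) (by positivity)
  apply mul_le_mul_of_nonneg_left _ (by positivity)
  exact mul_le_of_le_one_left (norm_nonneg _) (hu p)

lemma ee_re (n : ℕ) (x : ℝ) : (ee n x).re = Real.cos (x * Real.log n) ∧
    (ee n x).im = -Real.sin (x * Real.log n) := by
  have h1 : ee n x = cexp (((-(x * Real.log n) : ℝ) : ℂ) * I) := by
    unfold ee
    congr 1
    push_cast
    ring
  rw [h1, Complex.exp_ofReal_mul_I_re, Complex.exp_ofReal_mul_I_im, Real.cos_neg, Real.sin_neg]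
  exact ⟨rfl, rfl⟩

lemma dd_sq (n : ℕ) (x x' : ℝ) :
    ‖ee n x - ee n x'‖ ^ 2 = 2 - 2 * Real.cos (|x - x'| * Real.log n) := by
  obtain ⟨h1, h2⟩ := ee_re n x
  obtain ⟨h3, h4⟩ := ee_re n x'
  rw [← Complex.normSq_eq_norm_sq, Complex.normSq_apply, Complex.sub_re, Complex.sub_im, h1, h2, h3, h4]
  have h5 : Real.cos (|x - x'| * Real.log n) = Real.cos (x * Real.log n - x' * Real.log n) := by
    rw [← sub_mul]
    rcases abs_choice (x - x') with h | h
    · rw [h]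
    · rw [h, neg_mul, Real.cos_neg]
  rw [h5, Real.cos_sub]
  have h6 := Real.sin_sq_add_cos_sq (x * Real.log n)
  have h7 := Real.sin_sq_add_cos_sq (x' * Real.log n)
  nlinarith

/-- the primes with small logarithm -/
lemma small1 {τ : ℝ} (hτ : 0 < τ) (hτ1 : τ ≤ 1) :
    ∑ p ∈ (Finset.Icc 1 ⌊Real.exp τ⁻¹⌋₊).filter Nat.Prime, τ * (vonMangoldt p / p) ≤ 7 := by
  have h1 : ∑ p ∈ (Finset.Icc 1 ⌊Real.exp τ⁻¹⌋₊).filter Nat.Prime, τ * (vonMangoldt p / p) ≤
      ∑ p ∈ Finset.Icc 1 ⌊Real.exp τ⁻¹⌋₊, τ * (vonMangoldt p / p) :=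
    Finset.sum_le_sum_of_subset_of_nonneg (Finset.filter_subset _ _) (fun p _ _ =>
      mul_nonneg hτ.le (div_nonneg vonMangoldt_nonneg (Nat.cast_nonneg p)))
  have h1' := h1.trans (le_of_eq (Finset.mul_sum _ _ _).symm)
  have hi : (0 : ℝ) < τ⁻¹ := by positivity
  have hN : 1 ≤ ⌊Real.exp τ⁻¹⌋₊ := by
    rw [Nat.one_le_floor_iff]
    exact Real.one_le_exp hi.le
  have h3 := H370.nt_mertens_upper ⌊Real.exp τ⁻¹⌋₊ hN
  have h4 : Real.log (⌊Real.exp τ⁻¹⌋₊ : ℝ) ≤ τ⁻¹ := by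
    rw [Real.log_le_iff_le_exp (by exact_mod_cast hN)]
    exact Nat.floor_le (Real.exp_pos _).le
  have h5 : τ * ∑ p ∈ Finset.Icc 1 ⌊Real.exp τ⁻¹⌋₊, vonMangoldt p / (p : ℝ) ≤ τ * (τ⁻¹ + 6) :=
    mul_le_mul_of_nonneg_left (by linarith) hτ.le
  have h6 : τ * (τ⁻¹ + 6) = 1 + 6 * τ := by
    field_simp
  linarith

/-- the part of the sum of the squares up to `1 / τ` -/
lemma small2 {τ : ℝ} (hτ : 0 < τ) (hτ1 : τ ≤ 1) {x x' : ℝ} (hx : |x - x'| ≤ τ) :
    ∑ p ∈ (Finset.Icc 1 ⌊Real.exp τ⁻¹⌋₊).filter Nat.Prime, 1 / (p : ℝ) * ‖ee p x - ee p x'‖ ^ 2 ≤ 7 := by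
  refine le_trans (Finset.sum_le_sum fun p hp => ?_) (small1 hτ hτ1)
  rw [Finset.mem_filter, Finset.mem_Icc, Nat.le_floor_iff (Real.exp_pos _).le] at hp
  obtain ⟨⟨hp1, hp2⟩, hpp⟩ := hp
  have hp0 : (0 : ℝ) < p := by exact_mod_cast hpp.pos
  have hpl : Real.log p ≤ τ⁻¹ := (Real.log_le_iff_le_exp hp0).2 hp2
  have hl0 : 0 ≤ Real.log p := Real.log_natCast_nonneg p
  have h4 : ‖ee p x - ee p x'‖ ≤ τ * Real.log p :=
    (dd_le p x x').trans (mul_le_mul_of_nonneg_right hx hl0)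
  have h5 : τ * Real.log p ≤ 1 := by
    calc τ * Real.log p ≤ τ * τ⁻¹ := mul_le_mul_of_nonneg_left hpl hτ.le
      _ = 1 := mul_inv_cancel₀ hτ.ne'
  have h6 : ‖ee p x - ee p x'‖ ^ 2 ≤ (τ * Real.log p) ^ 2 := pow_le_pow_left₀ (norm_nonneg _) h4 2
  have h7 : (τ * Real.log p) ^ 2 ≤ τ * Real.log p := by nlinarith [mul_nonneg hτ.le hl0]
  rw [vonMangoldt_apply_prime hpp]
  calc 1 / (p : ℝ) * ‖ee p x - ee p x'‖ ^ 2 ≤ 1 / (p : ℝ) * (τ * Real.log p) :=
        mul_le_mul_of_nonneg_left (h6.trans h7) (by positivity)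
    _ = _ := by ring

lemma sub_union (y z : ℝ) : (Finset.Icc 1 ⌊Real.exp y⌋₊).filter Nat.Prime ⊆
    (Finset.Icc 1 ⌊Real.exp z⌋₊).filter Nat.Prime ∪ PB z y := by
  intro p hp
  rw [Finset.mem_filter, Finset.mem_Icc, Nat.le_floor_iff (Real.exp_pos _).le] at hp
  obtain ⟨⟨hp1, hp2⟩, hpp⟩ := hp
  have hp0 : (0 : ℝ) < p := by exact_mod_cast hpp.pos
  have hpl : Real.log p ≤ y := (Real.log_le_iff_le_exp hp0).2 hp2
  rw [Finset.mem_union, mem_PB, Finset.mem_filter, Finset.mem_Icc,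
    Nat.le_floor_iff (Real.exp_pos _).le, ← Real.log_le_iff_le_exp hp0]
  by_cases a1 : Real.log p ≤ z
  · exact Or.inl ⟨⟨hp1, a1⟩, hpp⟩
  · push Not at a1
    exact Or.inr ⟨hpp, a1, hpl⟩

/-- the sharp bound for the sum of the squares -/
lemma sum_sharp (hC : S_CB) : ∃ C : ℝ, 0 < C ∧ ∀ (y L x x' : ℝ), 1 ≤ L → |x - x'| ≤ 1 → |x - x'| * y ≤ L →
    ∑ p ∈ (Finset.Icc 1 ⌊Real.exp y⌋₊).filter Nat.Prime, 1 / (p : ℝ) * ‖ee p x - ee p x'‖ ^ 2 ≤
      2 * Real.log L + C := by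
  obtain ⟨C, hC0, hCB⟩ := hC
  refine ⟨7 + 4 * C, by positivity, ?_⟩
  intro y L x x' hL hτ1 hτy
  have hlL : 0 ≤ Real.log L := Real.log_nonneg hL
  obtain ⟨f, hf⟩ : ∃ f : ℕ → ℝ, f = fun p : ℕ => 1 / (p : ℝ) * ‖ee p x - ee p x'‖ ^ 2 := ⟨_, rfl⟩
  have hf0 : ∀ p, 0 ≤ f p := fun p => by
    rw [hf]
    positivity
  rcases (abs_nonneg (x - x')).eq_or_lt with h0 | h0
  · have hxx : x = x' := by
      have := abs_eq_zero.1 h0.symm
      linarith
    subst hxx
    simp only [sub_self, norm_zero]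
    norm_num
    positivity
  obtain ⟨τ, hτ⟩ : ∃ τ : ℝ, τ = |x - x'| := ⟨_, rfl⟩
  rw [← hτ] at h0 hτ1 hτy
  have hsum : ∑ p ∈ (Finset.Icc 1 ⌊Real.exp y⌋₊).filter Nat.Prime, f p ≤
      ∑ p ∈ (Finset.Icc 1 ⌊Real.exp τ⁻¹⌋₊).filter Nat.Prime, f p + ∑ p ∈ PB τ⁻¹ y, f p :=
    (Finset.sum_le_sum_of_subset_of_nonneg (sub_union y τ⁻¹) (fun p _ _ => hf0 p)).trans
      (sum_union_le hf0)
  have s1 : ∑ p ∈ (Finset.Icc 1 ⌊Real.exp τ⁻¹⌋₊).filter Nat.Prime, f p ≤ 7 := by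
    rw [hf]
    exact small2 h0 hτ1 hτ.symm.le
  have hi1 : 1 ≤ τ⁻¹ := (one_le_inv₀ h0).2 hτ1
  have s2 : ∑ p ∈ PB τ⁻¹ y, f p ≤ 2 * Real.log L + 4 * C := by
    rcases le_or_gt τ⁻¹ y with hy | hy
    · obtain ⟨b1, b2⟩ := hCB τ⁻¹ y hi1 hy
      have b3 := b2 τ h0 hτ1
      have e1 : ∑ p ∈ PB τ⁻¹ y, f p = 2 * ∑ p ∈ PB τ⁻¹ y, 1 / (p : ℝ) -
          2 * ∑ p ∈ PB τ⁻¹ y, Real.cos (τ * Real.log p) / p := by
        rw [Finset.mul_sum, Finset.mul_sum, ← Finset.sum_sub_distrib]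
        refine Finset.sum_congr rfl fun p _ => ?_
        rw [hf]
        simp only
        rw [dd_sq, ← hτ]
        ring
      have e2 : C / (τ * τ⁻¹) = C := by
        rw [mul_inv_cancel₀ h0.ne', div_one]
      rw [e2] at b3
      have e3 : C / τ⁻¹ ≤ C := div_le_self hC0.le hi1
      have e4 : y / τ⁻¹ = τ * y := by
        rw [div_inv_eq_mul, mul_comm]
      rw [e4] at b1
      have e5 : Real.log (τ * y) ≤ Real.log L :=
        Real.log_le_log (mul_pos h0 (lt_of_lt_of_le (by positivity) hy)) hτy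
      have b1' := (abs_le.1 b1).2
      have b3' := (abs_le.1 b3).1
      rw [e1]
      linarith
    · have e1 : PB τ⁻¹ y = ∅ := by
        rw [Finset.eq_empty_iff_forall_notMem]
        intro p hp
        obtain ⟨-, h1, h2⟩ := mem_PB.1 hp
        linarith
      rw [e1, Finset.sum_empty]
      positivity
  rw [hf] at hsum s1 s2
  linarith

/-- the bound for close points -/
lemma sum_close (hC : S_CB) : ∃ C : ℝ, 0 < C ∧ ∀ (y τ x x' : ℝ), 0 < τ → τ ≤ 1 → |x - x'| ≤ τ → τ⁻¹ ≤ y →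
    ∑ p ∈ (Finset.Icc 1 ⌊Real.exp y⌋₊).filter Nat.Prime, 1 / (p : ℝ) * ‖ee p x - ee p x'‖ ^ 2 ≤
      4 * Real.log (y * τ) + C := by
  obtain ⟨C, hC0, hCB⟩ := hC
  refine ⟨7 + 4 * C, by positivity, ?_⟩
  intro y τ x x' h0 hτ1 hτ hy
  obtain ⟨f, hf⟩ : ∃ f : ℕ → ℝ, f = fun p : ℕ => 1 / (p : ℝ) * ‖ee p x - ee p x'‖ ^ 2 := ⟨_, rfl⟩
  have hf0 : ∀ p, 0 ≤ f p := fun p => by
    rw [hf]
    positivity
  have hsum : ∑ p ∈ (Finset.Icc 1 ⌊Real.exp y⌋₊).filter Nat.Prime, f p ≤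
      ∑ p ∈ (Finset.Icc 1 ⌊Real.exp τ⁻¹⌋₊).filter Nat.Prime, f p + ∑ p ∈ PB τ⁻¹ y, f p :=
    (Finset.sum_le_sum_of_subset_of_nonneg (sub_union y τ⁻¹) (fun p _ _ => hf0 p)).trans
      (sum_union_le hf0)
  have s1 : ∑ p ∈ (Finset.Icc 1 ⌊Real.exp τ⁻¹⌋₊).filter Nat.Prime, f p ≤ 7 := by
    rw [hf]
    exact small2 h0 hτ1 hτ
  have hi1 : 1 ≤ τ⁻¹ := (one_le_inv₀ h0).2 hτ1
  have s2 : ∑ p ∈ PB τ⁻¹ y, f p ≤ 4 * Real.log (y * τ) + 4 * C := by
    obtain ⟨b1, -⟩ := hCB τ⁻¹ y hi1 hy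
    have e1 : ∑ p ∈ PB τ⁻¹ y, f p ≤ 4 * ∑ p ∈ PB τ⁻¹ y, 1 / (p : ℝ) := by
      rw [Finset.mul_sum]
      refine Finset.sum_le_sum fun p _ => ?_
      rw [hf]
      simp only
      have h1 : ‖ee p x - ee p x'‖ ^ 2 ≤ 2 ^ 2 := pow_le_pow_left₀ (norm_nonneg _) (dd_le_two p x x') 2
      have h2 : (0 : ℝ) ≤ 1 / (p : ℝ) := by positivity
      nlinarith
    have e3 : C / τ⁻¹ ≤ C := div_le_self hC0.le hi1
    have e4 : y / τ⁻¹ = y * τ := div_inv_eq_mul _ _
    rw [e4] at b1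
    have b1' := (abs_le.1 b1).2
    linarith
  rw [hf] at hsum s1 s2
  linarith

/-- the bound for a block -/
lemma sum_mid (hC : S_CB) : ∃ C : ℝ, 0 < C ∧ ∀ (lo hi q x x' : ℝ), 1 ≤ lo → 1 ≤ q → hi ≤ q * lo →
    ∑ p ∈ PB lo hi, 1 / (p : ℝ) * ‖ee p x - ee p x'‖ ^ 2 ≤ 4 * Real.log q + C := by
  obtain ⟨C, hC0, hCB⟩ := hC
  refine ⟨4 * C, by positivity, ?_⟩
  intro lo hi q x x' hlo hq hhi
  have hlq := Real.log_nonneg hq
  rcases le_or_gt lo hi with hy | hy
  · obtain ⟨b1, -⟩ := hCB lo hi hlo hy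
    have e1 : ∑ p ∈ PB lo hi, 1 / (p : ℝ) * ‖ee p x - ee p x'‖ ^ 2 ≤ 4 * ∑ p ∈ PB lo hi, 1 / (p : ℝ) := by
      rw [Finset.mul_sum]
      refine Finset.sum_le_sum fun p _ => ?_
      have h1 : ‖ee p x - ee p x'‖ ^ 2 ≤ 2 ^ 2 := pow_le_pow_left₀ (norm_nonneg _) (dd_le_two p x x') 2
      have h2 : (0 : ℝ) ≤ 1 / (p : ℝ) := by positivity
      nlinarith
    have e3 : C / lo ≤ C := div_le_self hC0.le hlo
    have hlo0 : 0 < lo := by linarith
    have e4 : Real.log (hi / lo) ≤ Real.log q :=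
      Real.log_le_log (div_pos (by linarith) hlo0) (by rw [div_le_iff₀ hlo0]; exact hhi)
    have b1' := (abs_le.1 b1).2
    linarith
  · have e1 : PB lo hi = ∅ := by
      rw [Finset.eq_empty_iff_forall_notMem]
      intro p hp
      obtain ⟨-, h1, h2⟩ := mem_PB.1 hp
      linarith
    rw [e1, Finset.sum_empty]
    positivity

/-- splitting a sum over the primes -/
lemma split2 (N N1 : ℕ) (f : ℕ → ℂ) : ∑ p ∈ (Finset.Icc 1 N).filter Nat.Prime, f p =
    ∑ p ∈ (Finset.Icc 1 N1).filter Nat.Prime, (if p ≤ N then f p else 0) +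
    ∑ p ∈ (Finset.Icc 1 N).filter Nat.Prime, (if p ≤ N1 then 0 else f p) := by
  have h1 : ∑ p ∈ (Finset.Icc 1 N1).filter Nat.Prime, (if p ≤ N then f p else 0) =
      ∑ p ∈ (Finset.Icc 1 N).filter Nat.Prime, (if p ≤ N1 then f p else 0) := by
    rw [← Finset.sum_filter, ← Finset.sum_filter]
    refine Finset.sum_congr ?_ fun _ _ => rfl
    ext p
    simp only [Finset.mem_filter, Finset.mem_Icc]
    tauto
  rw [h1, ← Finset.sum_add_distrib]
  refine Finset.sum_congr rfl fun p _ => ?_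
  split_ifs <;> simp


/-- the numerical estimate for the main part -/
lemma numA (ε C : ℝ) (hε : 0 < ε) (hε1 : ε ≤ 1) (hC : 0 < C) : ∀ᶠ l : ℝ in atTop,
    1 ≤ ⌊((2 / Real.pi + ε / 2) * l) ^ 2 / (1 + (2 * l + C) / Real.pi ^ 2)⌋₊ ∧
    (⌊((2 / Real.pi + ε / 2) * l) ^ 2 / (1 + (2 * l + C) / Real.pi ^ 2)⌋₊ : ℝ) ≤ 7 * l ∧
    4 * ((⌊((2 / Real.pi + ε / 2) * l) ^ 2 / (1 + (2 * l + C) / Real.pi ^ 2)⌋₊).factorial : ℝ) *
      (⌊((2 / Real.pi + ε / 2) * l) ^ 2 / (1 + (2 * l + C) / Real.pi ^ 2)⌋₊ : ℝ) ^ 2 *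
      (1 + (2 * l + C) / Real.pi ^ 2) ^ ⌊((2 / Real.pi + ε / 2) * l) ^ 2 / (1 + (2 * l + C) / Real.pi ^ 2)⌋₊ /
      ((2 / Real.pi + ε / 2) * l) ^ (2 * ⌊((2 / Real.pi + ε / 2) * l) ^ 2 / (1 + (2 * l + C) / Real.pi ^ 2)⌋₊) ≤
      Real.exp (-((2 + ε) * l)) / 2 := by
  have hpi := Real.pi_pos
  have hpi3 := Real.pi_gt_three
  have hpi4 : Real.pi ≤ 3.15 := Real.pi_lt_d2.le
  have e1 : ∀ᶠ l : ℝ in atTop, 8000 * l ^ 3 ≤ Real.exp (ε * l) := by
    have h1 := (isLittleO_pow_exp_pos_mul_atTop 3 hε).bound (show (0 : ℝ) < 1 / 8000 by norm_num)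
    filter_upwards [h1, eventually_ge_atTop (0 : ℝ)] with l h2 h3
    rw [Real.norm_of_nonneg (by positivity), Real.norm_of_nonneg (Real.exp_pos _).le] at h2
    linarith
  obtain ⟨D, hD⟩ : ∃ D : ℝ, D = C + Real.pi ^ 2 := ⟨_, rfl⟩
  have hD0 : 0 < D := by rw [hD]; positivity
  filter_upwards [e1, eventually_ge_atTop (1 : ℝ), eventually_ge_atTop ((5 * D + 2) / (2 * ε))]
    with l h1 h2 h3
  have hl0 : 0 < l := by linarith
  obtain ⟨V, hV⟩ : ∃ V : ℝ, V = (2 / Real.pi + ε / 2) * l := ⟨_, rfl⟩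
  obtain ⟨S, hS⟩ : ∃ S : ℝ, S = 1 + (2 * l + C) / Real.pi ^ 2 := ⟨_, rfl⟩
  obtain ⟨m, hm⟩ : ∃ m : ℕ, m = ⌊V ^ 2 / S⌋₊ := ⟨_, rfl⟩
  rw [← hV, ← hS, ← hm]
  have hV0 : 0 < V := by rw [hV]; positivity
  have hS0 : 0 < S := by rw [hS]; positivity
  have hSD : S * Real.pi ^ 2 = 2 * l + D := by
    rw [hS, hD]
    field_simp
    ring
  have hVE : V ^ 2 * Real.pi ^ 2 = (2 + Real.pi * ε / 2) ^ 2 * l ^ 2 := by
    rw [hV]
    field_simp
  have hup : V ^ 2 / S ≤ 7 * l := by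
    rw [div_le_iff₀ hS0]
    have h4 : (2 + Real.pi * ε / 2) ^ 2 ≤ 14 := by
      have h5 : Real.pi * ε ≤ 3.15 * 1 := mul_le_mul hpi4 hε1 hε.le (by norm_num)
      have h6 : 0 < Real.pi * ε := by positivity
      nlinarith
    have h5 : V ^ 2 * Real.pi ^ 2 ≤ 7 * l * S * Real.pi ^ 2 := by
      rw [hVE, mul_assoc (7 * l), hSD]
      have h6 : (2 + Real.pi * ε / 2) ^ 2 * l ^ 2 ≤ 14 * l ^ 2 :=
        mul_le_mul_of_nonneg_right h4 (sq_nonneg l)
      nlinarith [mul_pos hl0 hD0]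
    exact le_of_mul_le_mul_right h5 (by positivity)
  have hlow : (2 + 2 * ε) * l + 1 ≤ V ^ 2 / S := by
    rw [le_div_iff₀ hS0]
    have h4 : 4 + 6 * ε ≤ (2 + Real.pi * ε / 2) ^ 2 := by
      have h6 : 3 * ε ≤ Real.pi * ε := mul_le_mul_of_nonneg_right hpi3.le hε.le
      nlinarith [sq_nonneg (Real.pi * ε)]
    have h5 : ((2 + 2 * ε) * l + 1) * S * Real.pi ^ 2 ≤ V ^ 2 * Real.pi ^ 2 := by
      rw [hVE, mul_assoc _ S, hSD]
      have h6 : (4 + 6 * ε) * l ^ 2 ≤ (2 + Real.pi * ε / 2) ^ 2 * l ^ 2 :=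
        mul_le_mul_of_nonneg_right h4 (sq_nonneg l)
      rw [div_le_iff₀ (by positivity)] at h3
      have h7 : (5 * D + 2) * l ≤ l * (2 * ε) * l := mul_le_mul_of_nonneg_right h3 hl0.le
      have h8 : ε * (D * l) ≤ 1 * (D * l) := mul_le_mul_of_nonneg_right hε1 (by positivity)
      have h9 : D * 1 ≤ D * l := mul_le_mul_of_nonneg_left h2 hD0.le
      nlinarith
    exact le_of_mul_le_mul_right h5 (by positivity)
  have hm1 : (m : ℝ) ≤ V ^ 2 / S := by
    rw [hm]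
    exact Nat.floor_le (by positivity)
  have hm2 : (2 + 2 * ε) * l ≤ m := by
    have h4 := Nat.lt_floor_add_one (V ^ 2 / S)
    rw [← hm] at h4
    linarith
  have hm0 : (0 : ℝ) < m := lt_of_lt_of_le (by positivity) hm2
  have hm3 : 1 ≤ m := by exact_mod_cast hm0
  refine ⟨hm3, hm1.trans hup, ?_⟩
  have h4 := fact_le m hm3
  have h5 : S / V ^ 2 ≤ 1 / m := by
    rw [le_div_iff₀ hS0] at hm1
    rw [div_le_div_iff₀ (by positivity) hm0]
    linarith
  have h6 : (S / V ^ 2) ^ m ≤ 1 / (m : ℝ) ^ m := by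
    calc (S / V ^ 2) ^ m ≤ (1 / (m : ℝ)) ^ m := pow_le_pow_left₀ (by positivity) h5 m
      _ = _ := by rw [div_pow, one_pow]
  have h7 : (m.factorial : ℝ) * (S / V ^ 2) ^ m ≤ Real.exp 1 * m * Real.exp (-(m : ℝ)) := by
    calc (m.factorial : ℝ) * (S / V ^ 2) ^ m ≤
          (Real.exp 1 * m * ((m : ℝ) ^ m * Real.exp (-(m : ℝ)))) * (1 / (m : ℝ) ^ m) :=
          mul_le_mul h4 h6 (by positivity) (by positivity)
      _ = _ := by
          field_simp
  have hm7 : (m : ℝ) ≤ 7 * l := hm1.trans hup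
  calc 4 * (m.factorial : ℝ) * m ^ 2 * S ^ m / V ^ (2 * m)
      = 4 * (m : ℝ) ^ 2 * ((m.factorial : ℝ) * (S / V ^ 2) ^ m) := by
        rw [div_pow, ← pow_mul]
        ring
    _ ≤ 4 * (m : ℝ) ^ 2 * (Real.exp 1 * m * Real.exp (-(m : ℝ))) :=
        mul_le_mul_of_nonneg_left h7 (by positivity)
    _ = (4 * Real.exp 1 * (m : ℝ) ^ 3) * Real.exp (-(m : ℝ)) := by ring
    _ ≤ (4000 * l ^ 3) * Real.exp (-((2 + 2 * ε) * l)) := by
        apply mul_le_mul _ (Real.exp_le_exp.2 (by linarith)) (Real.exp_pos _).le (by positivity)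
        have h8 : (m : ℝ) ^ 3 ≤ (7 * l) ^ 3 := pow_le_pow_left₀ hm0.le hm7 3
        have h9 : Real.exp 1 ≤ 2.7182818286 := Real.exp_one_lt_d9.le
        calc 4 * Real.exp 1 * (m : ℝ) ^ 3 ≤ 4 * 2.7182818286 * (7 * l) ^ 3 := by gcongr
          _ ≤ _ := by
              have : 0 < l ^ 3 := by positivity
              nlinarith
    _ = (8000 * l ^ 3) * Real.exp (-((2 + 2 * ε) * l)) / 2 := by ring
    _ ≤ Real.exp (ε * l) * Real.exp (-((2 + 2 * ε) * l)) / 2 := by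
        apply div_le_div_of_nonneg_right _ (by norm_num)
        exact mul_le_mul_of_nonneg_right h1 (Real.exp_pos _).le
    _ = _ := by
        rw [← Real.exp_add]
        congr 2
        ring

/-- the square of the coefficient -/
lemma ap_sq (hP : S_PH) {u : ℕ → ℂ} (hu : ∀ n, ‖u n‖ ≤ 1) {w R : ℝ} (hR : 0 < R) (x x' : ℝ)
    (p : ℕ) : ‖ap u w R 0 0 x x' p‖ ^ 2 ≤ 1 / (p : ℝ) * ‖ee p x - ee p x'‖ ^ 2 / Real.pi ^ 2 := by
  have h1 := pow_le_pow_left₀ (norm_nonneg _) (ap_le_pi hP hu (w := w) hR x x' p) 2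
  refine h1.trans (le_of_eq ?_)
  rw [mul_pow, mul_pow, div_pow, div_pow, one_pow, Real.sq_sqrt (Nat.cast_nonneg p)]
  ring

end UQSL

open RSL UQSL in
/-- (UQS) -/
theorem t_UQS (hM : S_MP) (hP : S_PH) (hC : S_CB) : S_UQS := by
  intro u hu ε α κ hε hε1 hα hκ
  obtain ⟨Cd, hCd, hdec⟩ := decomp hP
  obtain ⟨CA, hCA, hsA⟩ := sum_sharp hC
  obtain ⟨CB, hCB0, hsB⟩ := sum_mid hC
  obtain ⟨CC, hCC0, hsC⟩ := sum_close hC
  have hZ := Pool.Agent.H203.ME.PRML.Z1_nonneg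
  obtain ⟨Z, hZd⟩ : ∃ Z, Z = Pool.Agent.H203.ME.PRML.Z1 := ⟨_, rfl⟩
  rw [← hZd] at hZ
  have hκ0 : 0 < κ := by linarith
  have hpi := Real.pi_pos
  have hpi3 := Real.pi_gt_three
  obtain ⟨c, hc⟩ : ∃ c : ℝ, c = α / (8 * κ) := ⟨_, rfl⟩
  have hc0 : 0 < c := by rw [hc]; positivity
  obtain ⟨q, hq⟩ : ∃ q : ℝ, q = 1 + 56 * κ / α := ⟨_, rfl⟩
  have hq1 : 1 ≤ q := by
    rw [hq]
    have : 0 < 56 * κ / α := by positivity
    linarith
  obtain ⟨KB, hKB⟩ : ∃ KB : ℝ, KB = 4 * Real.log q + CB := ⟨_, rfl⟩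
  have hKB0 : 0 ≤ KB := by
    rw [hKB]
    have := Real.log_nonneg hq1
    positivity
  obtain ⟨KC, hKC⟩ : ∃ KC : ℝ, KC = 4 * Real.log (40 * κ) + CC := ⟨_, rfl⟩
  have hKC0 : 0 ≤ KC := by
    rw [hKC]
    have := Real.log_nonneg (show 1 ≤ 40 * κ by linarith)
    positivity
  have evl : ∀ᶠ l : ℝ in atTop, (1 ≤ l ∧ 4 * Cd / ε ≤ l) := by
    filter_upwards [eventually_ge_atTop (1 : ℝ), eventually_ge_atTop (4 * Cd / ε)] with l a1 a2
    exact ⟨a1, a2⟩
  have ll := Real.tendsto_log_atTop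
  have e1 : ∀ᶠ L : ℝ in atTop, (25 * α + 35) * Real.log L ≤ L := by
    have h1 := (isLittleO_log_rpow_atTop (r := 1) (by norm_num)).bound
      (show (0 : ℝ) < 1 / (25 * α + 35) by positivity)
    filter_upwards [h1, eventually_ge_atTop (1 : ℝ)] with L h3 h5
    rw [Real.rpow_one, Real.norm_of_nonneg (Real.log_nonneg h5), Real.norm_of_nonneg (by positivity),
      div_mul_eq_mul_div, one_mul, le_div_iff₀ (by positivity)] at h3
    linarith
  have ev := ((((ll.eventually evl).and (ll.eventually (numA ε CA hε hε1 hCA))).and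
    (ll.eventually (numB c KB (ε / 8) hc0 hKB0 (by positivity)))).and
    (ll.eventually (numB c KC (ε / 8) hc0 hKC0 (by positivity)))).and
    ((ll.eventually (numB c Z (ε / 8) hc0 hZ (by positivity))).and (e1.and (eventually_ge_atTop (4 : ℝ))))
  obtain ⟨L0, hL0⟩ := eventually_atTop.1 ev
  refine ⟨max L0 3, le_max_right _ _, ?_⟩
  intro T h L w R hT hh h54 hL hLL hw hR x x' hx hxh hx' hxh'
  obtain ⟨⟨⟨⟨⟨g1, g2⟩, gA1, gA2, gA3⟩, gB1, gB2⟩, gC1, gC2⟩, ⟨gZ1, gZ2⟩, g3, g4⟩ :=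
    hL0 L ((le_max_left _ _).trans hLL)
  have hLpos : 0 < L := by linarith
  have hT0 : 0 < T := by linarith
  have hlT0 : 0 < Real.log T := Real.log_pos hT
  have hlTL : 4 / 5 * L ≤ Real.log T := by
    have h1 : h * Real.log T ≤ 5 / 4 * Real.log T := mul_le_mul_of_nonneg_right h54 hlT0.le
    linarith
  obtain ⟨l, hl⟩ : ∃ l, l = Real.log L := ⟨_, rfl⟩
  rw [← hl] at g1 g2 g3 gA1 gA2 gA3 gB1 gB2 gC1 gC2 gZ1 gZ2 hw ⊢
  have hl0 : 0 < l := by linarith
  have hal : 0 < α * l := by positivity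
  have g3a : 25 * (α * l) ≤ L := by
    have : (25 * α + 35) * l = 25 * (α * l) + 35 * l := by ring
    rw [this] at g3
    linarith
  have g3b : 35 * l ≤ L := by
    have : (25 * α + 35) * l = 25 * (α * l) + 35 * l := by ring
    rw [this] at g3
    linarith
  have hw0 : 0 < w := by
    rw [hw]
    positivity
  have hwT : w * Real.log T = α * l := by
    rw [hw]
    field_simp
  have hRw : R * w = κ := by
    rw [hR]
    field_simp
  have hR0 : 0 < R := by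
    rw [hR]
    positivity
  have hRl : R * (α * l) = κ * Real.log T := by
    rw [← hwT, ← mul_assoc, hRw]
  have hR16 : 16 ≤ R := by
    have h1 : 16 * (α * l) ≤ R * (α * l) := by
      rw [hRl]
      have h2 : 1 * Real.log T ≤ κ * Real.log T := mul_le_mul_of_nonneg_right hκ hlT0.le
      linarith
    exact le_of_mul_le_mul_right h1 hal
  have hw20 : 20 * w ≤ 1 := by
    have h1 : 20 * w * Real.log T ≤ 1 * Real.log T := by
      rw [mul_assoc, hwT]
      linarith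
    exact le_of_mul_le_mul_right h1 hlT0
  obtain ⟨y, hy⟩ : ∃ y : ℝ, y = Real.log T / (28 * l) := ⟨_, rfl⟩
  have hyl : y * (28 * l) = Real.log T := by
    rw [hy]
    field_simp
  have hy1 : 1 ≤ y := by
    have h1 : 1 * (28 * l) ≤ y * (28 * l) := by
      rw [hyl]
      linarith
    exact le_of_mul_le_mul_right h1 (by positivity)
  have hy0 : 0 < y := by linarith
  have hRq : 2 * R ≤ q * y := by
    have h1 : 2 * R * (α * (28 * l)) ≤ q * y * (α * (28 * l)) := by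
      have h2 : 2 * R * (α * (28 * l)) = 56 * (R * (α * l)) := by ring
      have h3 : q * y * (α * (28 * l)) = q * α * (y * (28 * l)) := by ring
      have h4 : q * α = α + 56 * κ := by
        rw [hq]
        field_simp
      rw [h2, h3, hRl, hyl, h4]
      have h5 : 0 < α * Real.log T := by positivity
      have h6 : (α + 56 * κ) * Real.log T = α * Real.log T + 56 * (κ * Real.log T) := by ring
      rw [h6]
      linarith
    exact le_of_mul_le_mul_right h1 (by positivity)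
  -- the parameters
  obtain ⟨m, hm⟩ : ∃ m : ℕ, m = ⌊c * l⌋₊ := ⟨_, rfl⟩
  rw [← hm] at gB1 gB2 gC2 gZ2
  have hml : (m : ℝ) ≤ c * l := by
    rw [hm]
    exact Nat.floor_le (by positivity)
  obtain ⟨N, hN⟩ : ∃ N : ℕ, N = ⌊Real.exp (2 * R)⌋₊ := ⟨_, rfl⟩
  have hN1 : 1 ≤ N := by
    rw [hN, Nat.one_le_floor_iff]
    exact Real.one_le_exp (by linarith)
  have hNT : (N : ℝ) ^ (4 * m) ≤ T := by
    have h1 : (N : ℝ) ≤ Real.exp (2 * R) := by
      rw [hN]
      exact Nat.floor_le (Real.exp_pos _).le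
    calc (N : ℝ) ^ (4 * m) ≤ (Real.exp (2 * R)) ^ (4 * m) := pow_le_pow_left₀ (Nat.cast_nonneg _) h1 _
      _ = Real.exp ((4 * m : ℕ) * (2 * R)) := by rw [← Real.exp_nat_mul]
      _ ≤ Real.exp (Real.log T) := by
          apply Real.exp_le_exp.2
          push_cast
          have h3 : R * m ≤ R * (c * l) := mul_le_mul_of_nonneg_left hml hR0.le
          have h4 : 8 * (R * (c * l)) = Real.log T := by
            have h5 : 8 * (R * (c * l)) = R * (α * l) / κ := by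
              rw [hc]
              field_simp
            rw [h5, hRl]
            field_simp
          linarith
      _ = T := Real.exp_log hT0
  obtain ⟨N1, hN1d⟩ : ∃ N1 : ℕ, N1 = ⌊Real.exp y⌋₊ := ⟨_, rfl⟩
  have hN11 : 1 ≤ N1 := by
    rw [hN1d, Nat.one_le_floor_iff]
    exact Real.one_le_exp hy0.le
  obtain ⟨a, ha⟩ : ∃ a : ℕ → ℂ, a = ap u w R 0 0 x x' := ⟨_, rfl⟩
  obtain ⟨b, hb⟩ : ∃ b : ℕ → ℂ, b = sp u w R N x x' := ⟨_, rfl⟩
  obtain ⟨g, hg⟩ : ∃ g : ℕ → ℝ, g = fun p : ℕ => 1 / (p : ℝ) * ‖ee p x - ee p x'‖ ^ 2 := ⟨_, rfl⟩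
  have hg0 : ∀ p, 0 ≤ g p := fun p => by
    rw [hg]
    positivity
  have hag : ∀ p, ‖a p‖ ^ 2 ≤ g p / Real.pi ^ 2 := fun p => by
    rw [ha, hg]
    exact ap_sq hP hu hR0 x x' p
  have hpi1 : 1 ≤ Real.pi ^ 2 := one_le_pow₀ (by linarith)
  have hag1 : ∀ p, ‖a p‖ ^ 2 ≤ g p := fun p => (hag p).trans (div_le_self (hg0 p) hpi1)
  have ha1 : ∀ p, ‖a p‖ ≤ 1 := fun p => by
    rw [ha]
    exact ap_le_one hP hu hR0 0 0 x x' p
  have hdec' : ∀ t : ℝ, |Qs u w R (t + x) - Qs u w R (t + x')| ≤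
      ‖∑ p ∈ (Finset.Icc 1 N).filter Nat.Prime, a p * ee p t‖ +
      ‖∑ p ∈ (Finset.Icc 1 N).filter Nat.Prime, b p * ee p (2 * t)‖ + Cd := by
    intro t
    have h1 := hdec u hu w R 0 0 hR16 (by linarith) x x' t
    rw [UQL.Yb_zero, UQL.Yb_zero, sub_self, sub_zero, ← hN, ← ha, ← hb] at h1
    exact h1
  have hCdl : Cd ≤ ε * l / 4 := by
    rw [div_le_iff₀ hε] at g2
    linarith
  have hel : 0 < ε / 8 * l := by positivity
  -- the squares of the primes
  have hS2' : ∑ p ∈ (Finset.Icc 1 N).filter Nat.Prime, ‖b p‖ ^ 2 ≤ Z := by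
    rw [hb, hZd]
    exact sum_sp hP hu hR0 N N x x'
  have v3 : volume {t : ℝ | T ≤ t ∧ t ≤ 2 * T ∧
      ε / 8 * l < ‖∑ p ∈ (Finset.Icc 1 N).filter Nat.Prime, b p * ee p (2 * t)‖} ≤
      ENNReal.ofReal (Real.exp (-(4 * l)) * T) := by
    refine (moment2 hM gB1 hN1 hT.le (a := b) (fun p => by
      rw [hb]
      exact sp_le_one hP hu (w := w) hR0 N x x' p) hNT hS2' hel).trans ?_
    apply ENNReal.ofReal_le_ofReal
    rw [mul_div_right_comm]
    exact mul_le_mul_of_nonneg_right gZ2 hT0.le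
  have hexp4 : Real.exp (-(4 * l)) = L ^ (-4 : ℝ) := by
    rw [Real.rpow_def_of_pos hLpos, ← hl]
    congr 1
    ring
  constructor
  · intro hx1
    obtain ⟨a1, ha1d⟩ : ∃ a1 : ℕ → ℂ, a1 = fun p => if p ≤ N then a p else 0 := ⟨_, rfl⟩
    obtain ⟨a2, ha2d⟩ : ∃ a2 : ℕ → ℂ, a2 = fun p => if p ≤ N1 then 0 else a p := ⟨_, rfl⟩
    have hsplit : ∀ t : ℝ, ∑ p ∈ (Finset.Icc 1 N).filter Nat.Prime, a p * ee p t =
        ∑ p ∈ (Finset.Icc 1 N1).filter Nat.Prime, a1 p * ee p t +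
        ∑ p ∈ (Finset.Icc 1 N).filter Nat.Prime, a2 p * ee p t := by
      intro t
      rw [split2 N N1 (fun p => a p * ee p t), ha1d, ha2d]
      congr 1
      · refine Finset.sum_congr rfl fun p _ => ?_
        simp only
        split_ifs <;> simp
      · refine Finset.sum_congr rfl fun p _ => ?_
        simp only
        split_ifs <;> simp
    have hsA' : ∑ p ∈ (Finset.Icc 1 N1).filter Nat.Prime, ‖a1 p‖ ^ 2 ≤ (2 * l + CA) / Real.pi ^ 2 := by
      have h1 := hsA y L x x' (by linarith) hx1 (by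
        have h2 : |x - x'| ≤ h := by
          rw [abs_le]
          constructor <;> linarith
        have h3 : h * y ≤ L := by
          have h4 : h * y * (28 * l) = L := by
            rw [mul_assoc, hyl, hL]
          have h5 : h * y * 1 ≤ h * y * (28 * l) :=
            mul_le_mul_of_nonneg_left (by linarith) (by positivity)
          linarith
        exact (mul_le_mul_of_nonneg_right h2 hy0.le).trans h3)
      rw [← hN1d, ← hl] at h1
      calc ∑ p ∈ (Finset.Icc 1 N1).filter Nat.Prime, ‖a1 p‖ ^ 2 ≤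
            ∑ p ∈ (Finset.Icc 1 N1).filter Nat.Prime, g p / Real.pi ^ 2 := by
            refine Finset.sum_le_sum fun p _ => ?_
            rw [ha1d]
            simp only
            split_ifs
            · exact hag p
            · rw [norm_zero, zero_pow two_ne_zero]
              exact div_nonneg (hg0 p) (by positivity)
        _ = (∑ p ∈ (Finset.Icc 1 N1).filter Nat.Prime, g p) / Real.pi ^ 2 := by
            rw [Finset.sum_div]
        _ ≤ _ := by
            rw [hg]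
            exact div_le_div_of_nonneg_right h1 (by positivity)
    have hsB' : ∑ p ∈ (Finset.Icc 1 N).filter Nat.Prime, ‖a2 p‖ ^ 2 ≤ KB := by
      have h1 := hsB y (2 * R) q x x' hy1 hq1 hRq
      rw [← hKB] at h1
      refine le_trans ?_ h1
      calc ∑ p ∈ (Finset.Icc 1 N).filter Nat.Prime, ‖a2 p‖ ^ 2 ≤
            ∑ p ∈ (Finset.Icc 1 N).filter Nat.Prime, (if ¬ p ≤ N1 then g p else 0) := by
            refine Finset.sum_le_sum fun p _ => ?_
            rw [ha2d]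
            simp only
            split_ifs with h2
            · simp
            · exact hag1 p
        _ = ∑ p ∈ ((Finset.Icc 1 N).filter Nat.Prime).filter (fun p => ¬ p ≤ N1), g p :=
            (Finset.sum_filter _ _).symm
        _ ≤ ∑ p ∈ PB y (2 * R), g p := by
            apply Finset.sum_le_sum_of_subset_of_nonneg _ (fun p _ _ => hg0 p)
            intro p hp
            rw [Finset.mem_filter, Finset.mem_filter, Finset.mem_Icc, hN,
              Nat.le_floor_iff (Real.exp_pos _).le] at hp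
            obtain ⟨⟨⟨hp1, hp2⟩, hpp⟩, hp3⟩ := hp
            have hp0 : (0 : ℝ) < p := by exact_mod_cast hpp.pos
            rw [not_le, hN1d, Nat.floor_lt (Real.exp_pos _).le] at hp3
            rw [mem_PB]
            exact ⟨hpp, (Real.lt_log_iff_exp_lt hp0).2 hp3, (Real.log_le_iff_le_exp hp0).2 hp2⟩
        _ = _ := by rw [hg]
    obtain ⟨V, hV⟩ : ∃ V : ℝ, V = (2 / Real.pi + ε / 2) * l := ⟨_, rfl⟩
    obtain ⟨S, hS⟩ : ∃ S : ℝ, S = (2 * l + CA) / Real.pi ^ 2 := ⟨_, rfl⟩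
    obtain ⟨m1, hm1⟩ : ∃ m1 : ℕ, m1 = ⌊V ^ 2 / (1 + S)⌋₊ := ⟨_, rfl⟩
    rw [← hV, ← hS, ← hm1] at gA1 gA2 gA3
    rw [← hS] at hsA'
    have hV0 : 0 < V := by
      rw [hV]
      positivity
    have hNT1 : (N1 : ℝ) ^ (4 * m1) ≤ T := by
      have h1 : (N1 : ℝ) ≤ Real.exp y := by
        rw [hN1d]
        exact Nat.floor_le (Real.exp_pos _).le
      calc (N1 : ℝ) ^ (4 * m1) ≤ (Real.exp y) ^ (4 * m1) := pow_le_pow_left₀ (Nat.cast_nonneg _) h1 _
        _ = Real.exp ((4 * m1 : ℕ) * y) := by rw [← Real.exp_nat_mul]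
        _ ≤ Real.exp (Real.log T) := by
            apply Real.exp_le_exp.2
            push_cast
            rw [← hyl]
            have h3 : y * m1 ≤ y * (7 * l) := mul_le_mul_of_nonneg_left gA2 hy0.le
            linarith
        _ = T := Real.exp_log hT0
    have v1 : volume {t : ℝ | T ≤ t ∧ t ≤ 2 * T ∧
        V < ‖∑ p ∈ (Finset.Icc 1 N1).filter Nat.Prime, a1 p * ee p t‖} ≤
        ENNReal.ofReal (Real.exp (-((2 + ε) * l)) / 2 * T) := by
      refine (moment1 hM gA1 hN11 hT.le (a := a1) (fun p => by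
        rw [ha1d]
        simp only
        split_ifs
        · exact ha1 p
        · simp) hNT1 hsA' hV0).trans ?_
      apply ENNReal.ofReal_le_ofReal
      rw [mul_div_right_comm]
      exact mul_le_mul_of_nonneg_right gA3 hT0.le
    have v2 : volume {t : ℝ | T ≤ t ∧ t ≤ 2 * T ∧
        ε / 8 * l < ‖∑ p ∈ (Finset.Icc 1 N).filter Nat.Prime, a2 p * ee p t‖} ≤
        ENNReal.ofReal (Real.exp (-(4 * l)) * T) := by
      refine (moment1 hM gB1 hN1 hT.le (a := a2) (fun p => by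
        rw [ha2d]
        simp only
        split_ifs
        · simp
        · exact ha1 p) hNT hsB' hel).trans ?_
      apply ENNReal.ofReal_le_ofReal
      rw [mul_div_right_comm]
      exact mul_le_mul_of_nonneg_right gB2 hT0.le
    have hsub : {t : ℝ | T ≤ t ∧ t ≤ 2 * T ∧ (2 / Real.pi + ε) * l <
        |Qs u w R (t + x) - Qs u w R (t + x')|} ⊆
        {t : ℝ | T ≤ t ∧ t ≤ 2 * T ∧ V < ‖∑ p ∈ (Finset.Icc 1 N1).filter Nat.Prime, a1 p * ee p t‖} ∪
        ({t : ℝ | T ≤ t ∧ t ≤ 2 * T ∧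
          ε / 8 * l < ‖∑ p ∈ (Finset.Icc 1 N).filter Nat.Prime, a2 p * ee p t‖} ∪
        {t : ℝ | T ≤ t ∧ t ≤ 2 * T ∧
          ε / 8 * l < ‖∑ p ∈ (Finset.Icc 1 N).filter Nat.Prime, b p * ee p (2 * t)‖}) := by
      rintro t ⟨t1, t2, t3⟩
      have h1 := hdec' t
      rw [hsplit t] at h1
      have h2 := norm_add_le (∑ p ∈ (Finset.Icc 1 N1).filter Nat.Prime, a1 p * ee p t)
        (∑ p ∈ (Finset.Icc 1 N).filter Nat.Prime, a2 p * ee p t)
      by_contra hcon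
      rw [mem_union, mem_union, not_or, not_or] at hcon
      obtain ⟨k1, k2, k3⟩ := hcon
      have j1 : ‖∑ p ∈ (Finset.Icc 1 N1).filter Nat.Prime, a1 p * ee p t‖ ≤ V := by
        by_contra h3
        push Not at h3
        exact k1 ⟨t1, t2, h3⟩
      have j2 : ‖∑ p ∈ (Finset.Icc 1 N).filter Nat.Prime, a2 p * ee p t‖ ≤ ε / 8 * l := by
        by_contra h3
        push Not at h3
        exact k2 ⟨t1, t2, h3⟩
      have j3 : ‖∑ p ∈ (Finset.Icc 1 N).filter Nat.Prime, b p * ee p (2 * t)‖ ≤ ε / 8 * l := by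
        by_contra h3
        push Not at h3
        exact k3 ⟨t1, t2, h3⟩
      rw [hV] at j1
      have j4 : (2 / Real.pi + ε) * l = (2 / Real.pi + ε / 2) * l + ε / 2 * l := by ring
      rw [j4] at t3
      linarith
    refine (measure_mono hsub).trans ((measure_union_le _ _).trans
      ((add_le_add le_rfl (measure_union_le _ _)).trans ((add_le_add v1 (add_le_add v2 v3)).trans ?_)))
    rw [← ENNReal.ofReal_add (by positivity) (by positivity),
      ← ENNReal.ofReal_add (by positivity) (by positivity)]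
    apply ENNReal.ofReal_le_ofReal
    have h1 : Real.exp (-((2 + ε) * l)) = L ^ (-(2 + ε)) := by
      rw [Real.rpow_def_of_pos hLpos, ← hl]
      congr 1
      ring
    have h2 : Real.exp (-(4 * l)) ≤ L ^ (-(2 + ε)) / 4 := by
      have h3 : Real.exp (-(4 * l)) ≤ Real.exp (-((2 + ε) * l)) * Real.exp (-l) := by
        rw [← Real.exp_add]
        apply Real.exp_le_exp.2
        have h6 : ε * l ≤ 1 * l := mul_le_mul_of_nonneg_right hε1 hl0.le
        have h7 : (2 + ε) * l = 2 * l + ε * l := by ring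
        rw [h7]
        linarith
      have h4 : Real.exp (-l) ≤ 1 / 4 := by
        rw [hl, Real.exp_neg, Real.exp_log hLpos, ← one_div]
        exact one_div_le_one_div_of_le (by norm_num) g4
      rw [h1] at h3
      refine h3.trans ?_
      have h5 : (0 : ℝ) < L ^ (-(2 + ε)) := by positivity
      have h6 := mul_le_mul_of_nonneg_left h4 h5.le
      linarith only [h6]
    rw [h1]
    have h6 := mul_le_mul_of_nonneg_right h2 hT0.le
    linarith only [h6]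
  · intro hxw
    have hsC' : ∑ p ∈ (Finset.Icc 1 N).filter Nat.Prime, ‖a p‖ ^ 2 ≤ KC := by
      have h0 : 0 < 20 * w := by positivity
      have h2 : 2 * R * (20 * w) = 40 * κ := by
        rw [← hRw]
        ring
      have h1 := hsC (2 * R) (20 * w) x x' h0 hw20 hxw (by
        rw [inv_le_iff_one_le_mul₀ h0, h2]
        linarith)
      rw [h2, ← hN, ← hKC] at h1
      refine le_trans (Finset.sum_le_sum fun p _ => ?_) h1
      have h3 := hag1 p
      rw [hg] at h3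
      exact h3
    have v1 : volume {t : ℝ | T ≤ t ∧ t ≤ 2 * T ∧
        ε / 8 * l < ‖∑ p ∈ (Finset.Icc 1 N).filter Nat.Prime, a p * ee p t‖} ≤
        ENNReal.ofReal (Real.exp (-(4 * l)) * T) := by
      refine (moment1 hM gB1 hN1 hT.le (a := a) ha1 hNT hsC' hel).trans ?_
      apply ENNReal.ofReal_le_ofReal
      rw [mul_div_right_comm]
      exact mul_le_mul_of_nonneg_right gC2 hT0.le
    have hsub : {t : ℝ | T ≤ t ∧ t ≤ 2 * T ∧ ε * l < |Qs u w R (t + x) - Qs u w R (t + x')|} ⊆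
        {t : ℝ | T ≤ t ∧ t ≤ 2 * T ∧
          ε / 8 * l < ‖∑ p ∈ (Finset.Icc 1 N).filter Nat.Prime, a p * ee p t‖} ∪
        {t : ℝ | T ≤ t ∧ t ≤ 2 * T ∧
          ε / 8 * l < ‖∑ p ∈ (Finset.Icc 1 N).filter Nat.Prime, b p * ee p (2 * t)‖} := by
      rintro t ⟨t1, t2, t3⟩
      have h1 := hdec' t
      by_contra hcon
      rw [mem_union, not_or] at hcon
      obtain ⟨k1, k2⟩ := hcon
      have j1 : ‖∑ p ∈ (Finset.Icc 1 N).filter Nat.Prime, a p * ee p t‖ ≤ ε / 8 * l := by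
        by_contra h3
        push Not at h3
        exact k1 ⟨t1, t2, h3⟩
      have j2 : ‖∑ p ∈ (Finset.Icc 1 N).filter Nat.Prime, b p * ee p (2 * t)‖ ≤ ε / 8 * l := by
        by_contra h3
        push Not at h3
        exact k2 ⟨t1, t2, h3⟩
      have j3 : 0 < ε * l := by positivity
      linarith
    refine (measure_mono hsub).trans ((measure_union_le _ _).trans ((add_le_add v1 v3).trans ?_))
    rw [← ENNReal.ofReal_add (by positivity) (by positivity)]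
    apply ENNReal.ofReal_le_ofReal
    have h2 : Real.exp (-(4 * l)) ≤ L ^ (-3 : ℝ) / 4 := by
      have h3 : Real.exp (-(4 * l)) = L ^ (-3 : ℝ) * Real.exp (-l) := by
        rw [Real.rpow_def_of_pos hLpos, ← hl, ← Real.exp_add]
        congr 1
        ring
      have h4 : Real.exp (-l) ≤ 1 / 4 := by
        rw [hl, Real.exp_neg, Real.exp_log hLpos, ← one_div]
        exact one_div_le_one_div_of_le (by norm_num) g4
      rw [h3]
      have h5 : (0 : ℝ) < L ^ (-3 : ℝ) := by positivity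
      have h6 := mul_le_mul_of_nonneg_left h4 h5.le
      linarith only [h6]
    have h5 : (0 : ℝ) < L ^ (-3 : ℝ) := by positivity
    have h6 := mul_le_mul_of_nonneg_right h2 hT0.le
    have h7 : 0 < T * L ^ (-3 : ℝ) := mul_pos hT0 h5
    linarith only [h6, h7]

end Pool.Agent.H203.HX
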