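import Pool.Agent.H203.HX.Defs5
import Pool.Agent.H203.HX.UQS

set_option autoImplicit false

/-! (UQT) the prime side with the sharp constant, bounded coefficients (by helper75). -/

open Complex Filter Topology Set MeasureTheory

namespace Pool.Agent.H203.HX

open Pool.Agent.H203.ME (ee gR WR cR om FF KF C2c w1)

namespace UQTL

open ArithmeticFunction RSL UQSL
open Pool.Agent.H203.ME (PRML.kap PRML.Z1)

/-- the coefficient without a normalisation of `u` -/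
lemma ap_norm (hP : S_PH) (u : ℕ → ℂ) {w R : ℝ} (hR : 0 < R) (x x' : ℝ)
    (p : ℕ) : ‖ap u w R 0 0 x x' p‖ ≤ 1 / Real.sqrt p * (‖u p‖ * ‖ee p x - ee p x'‖) * (1 / Real.pi) := by
  classical
  have hp : ¬ ((0 : ℝ) < Real.log p ∧ Real.log p ≤ 0) := by
    rintro ⟨h1, h2⟩
    linarith
  unfold ap
  have hk0 := kap_nonneg R (Real.log p) hR
  have hk1 := kap_le_pi R (Real.log p) hR
  have hpi := Real.pi_pos
  rw [if_neg hp, Complex.ofReal_zero, sub_zero]
  have h2 : ‖((PRML.kap R (Real.log p) : ℝ) : ℂ) * ph (w * Real.log p)‖ ≤ 1 / Real.pi := by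
    rw [norm_mul, Complex.norm_real, Real.norm_eq_abs, abs_of_nonneg hk0]
    calc _ ≤ (1 / Real.pi) * 1 := mul_le_mul hk1 (hP.2.1 _) (norm_nonneg _) (by positivity)
      _ = _ := mul_one _
  rw [norm_mul, norm_mul, norm_mul (-I), norm_mul (u p), norm_neg, Complex.norm_I, one_mul,
    Complex.norm_real, Real.norm_eq_abs, abs_of_nonneg (show (0 : ℝ) ≤ 1 / Real.sqrt p by positivity)]
  exact mul_le_mul_of_nonneg_left h2 (by positivity)

/-- the square of the coefficient -/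
lemma ap_sqU (hP : S_PH) (u : ℕ → ℂ) {w R : ℝ} (hR : 0 < R) (x x' : ℝ)
    (p : ℕ) : ‖ap u w R 0 0 x x' p‖ ^ 2 ≤ ‖u p‖ ^ 2 / (p : ℝ) * ‖ee p x - ee p x'‖ ^ 2 / Real.pi ^ 2 := by
  have h1 := pow_le_pow_left₀ (norm_nonneg _) (ap_norm hP u (w := w) hR x x' p) 2
  refine h1.trans (le_of_eq ?_)
  rw [mul_pow, mul_pow, mul_pow, div_pow, div_pow, one_pow, Real.sq_sqrt (Nat.cast_nonneg p)]
  ring

lemma ap_smul (u : ℕ → ℂ) (c w R lo hi x x' : ℝ) (p : ℕ) :
    ap (fun n => (c : ℂ) * u n) w R lo hi x x' p = (c : ℂ) * ap u w R lo hi x x' p := by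
  unfold ap
  ring

lemma Qs_smul (u : ℕ → ℂ) (c w R t : ℝ) :
    Qs (fun n => (c : ℂ) * u n) w R t = c * Qs u w R t := by
  unfold Qs
  have h1 : ∀ n : ℕ, ((ArithmeticFunction.vonMangoldt n / (Real.sqrt n * Real.log n) * cR R (Real.log n) : ℝ) : ℂ) *
      (-I * ph (w * Real.log n)) * ((c : ℂ) * u n * ee n t) =
      (c : ℂ) * (((ArithmeticFunction.vonMangoldt n / (Real.sqrt n * Real.log n) * cR R (Real.log n) : ℝ) : ℂ) *
      (-I * ph (w * Real.log n)) * (u n * ee n t)) := by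
    intro n
    ring
  simp only [h1]
  rw [tsum_mul_left, Complex.re_ofReal_mul]
  ring

/-- the part of the sum of the squares up to `1 / τ` -/
lemma small2U {u : ℕ → ℂ} {B : ℝ} (hB : ∀ n, ‖u n‖ ≤ B) {τ : ℝ} (hτ : 0 < τ) (hτ1 : τ ≤ 1) {x x' : ℝ}
    (hx : |x - x'| ≤ τ) :
    ∑ p ∈ (Finset.Icc 1 ⌊Real.exp τ⁻¹⌋₊).filter Nat.Prime, ‖u p‖ ^ 2 / (p : ℝ) * ‖ee p x - ee p x'‖ ^ 2 ≤
      7 * B ^ 2 := by
  have h1 := mul_le_mul_of_nonneg_right (small2 hτ hτ1 hx) (sq_nonneg B)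
  refine le_trans ?_ h1
  rw [Finset.sum_mul]
  refine Finset.sum_le_sum fun p _ => ?_
  have h2 : ‖u p‖ ^ 2 ≤ B ^ 2 := pow_le_pow_left₀ (norm_nonneg _) (hB p) 2
  have h3 : 0 ≤ 1 / (p : ℝ) * ‖ee p x - ee p x'‖ ^ 2 := by positivity
  calc ‖u p‖ ^ 2 / (p : ℝ) * ‖ee p x - ee p x'‖ ^ 2 = (1 / (p : ℝ) * ‖ee p x - ee p x'‖ ^ 2) * ‖u p‖ ^ 2 := by
        ring
    _ ≤ _ := mul_le_mul_of_nonneg_left h2 h3

/-- the sharp bound for the sum of the squares -/
lemma sum_sharpU {u : ℕ → ℂ} {B : ℝ} (hB : ∀ n, ‖u n‖ ≤ B) (hC : CBu u) : ∃ C : ℝ, 0 < C ∧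
    ∀ (y L x x' : ℝ), 1 ≤ L → |x - x'| ≤ 1 → |x - x'| * y ≤ L →
    ∑ p ∈ (Finset.Icc 1 ⌊Real.exp y⌋₊).filter Nat.Prime, ‖u p‖ ^ 2 / (p : ℝ) * ‖ee p x - ee p x'‖ ^ 2 ≤
      2 * Real.log L + C := by
  obtain ⟨C, hC0, hCB⟩ := hC
  refine ⟨7 * B ^ 2 + 4 * C, by positivity, ?_⟩
  intro y L x x' hL hτ1 hτy
  have hlL : 0 ≤ Real.log L := Real.log_nonneg hL
  obtain ⟨f, hf⟩ : ∃ f : ℕ → ℝ, f = fun p : ℕ => ‖u p‖ ^ 2 / (p : ℝ) * ‖ee p x - ee p x'‖ ^ 2 := ⟨_, rfl⟩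
  have hf0 : ∀ p, 0 ≤ f p := fun p => by
    rw [hf]
    positivity
  rcases (abs_nonneg (x - x')).eq_or_lt with h0 | h0
  · have hxx : x = x' := by
      have := abs_eq_zero.1 h0.symm
      linarith
    subst hxx
    simp only [sub_self, norm_zero]
    norm_num
    positivity
  obtain ⟨τ, hτ⟩ : ∃ τ : ℝ, τ = |x - x'| := ⟨_, rfl⟩
  rw [← hτ] at h0 hτ1 hτy
  have hsum : ∑ p ∈ (Finset.Icc 1 ⌊Real.exp y⌋₊).filter Nat.Prime, f p ≤
      ∑ p ∈ (Finset.Icc 1 ⌊Real.exp τ⁻¹⌋₊).filter Nat.Prime, f p + ∑ p ∈ PB τ⁻¹ y, f p :=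
    (Finset.sum_le_sum_of_subset_of_nonneg (sub_union y τ⁻¹) (fun p _ _ => hf0 p)).trans
      (sum_union_le hf0)
  have s1 : ∑ p ∈ (Finset.Icc 1 ⌊Real.exp τ⁻¹⌋₊).filter Nat.Prime, f p ≤ 7 * B ^ 2 := by
    rw [hf]
    exact small2U hB h0 hτ1 hτ.symm.le
  have hi1 : 1 ≤ τ⁻¹ := (one_le_inv₀ h0).2 hτ1
  have s2 : ∑ p ∈ PB τ⁻¹ y, f p ≤ 2 * Real.log L + 4 * C := by
    rcases le_or_gt τ⁻¹ y with hy | hy
    · obtain ⟨b1, b2⟩ := hCB τ⁻¹ y hi1 hy
      have b3 := b2 τ h0 hτ1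
      have e1 : ∑ p ∈ PB τ⁻¹ y, f p = 2 * ∑ p ∈ PB τ⁻¹ y, ‖u p‖ ^ 2 / (p : ℝ) -
          2 * ∑ p ∈ PB τ⁻¹ y, ‖u p‖ ^ 2 * Real.cos (τ * Real.log p) / p := by
        rw [Finset.mul_sum, Finset.mul_sum, ← Finset.sum_sub_distrib]
        refine Finset.sum_congr rfl fun p _ => ?_
        rw [hf]
        simp only
        rw [dd_sq, ← hτ]
        ring
      have e2 : C / (τ * τ⁻¹) = C := by
        rw [mul_inv_cancel₀ h0.ne', div_one]
      rw [e2] at b3
      have e3 : C / τ⁻¹ ≤ C := div_le_self hC0.le hi1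
      have e4 : y / τ⁻¹ = τ * y := by
        rw [div_inv_eq_mul, mul_comm]
      rw [e4] at b1
      have e5 : Real.log (τ * y) ≤ Real.log L :=
        Real.log_le_log (mul_pos h0 (lt_of_lt_of_le (by positivity) hy)) hτy
      have b1' := (abs_le.1 b1).2
      have b3' := (abs_le.1 b3).1
      rw [e1]
      linarith
    · have e1 : PB τ⁻¹ y = ∅ := by
        rw [Finset.eq_empty_iff_forall_notMem]
        intro p hp
        obtain ⟨-, h1, h2⟩ := mem_PB.1 hp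
        linarith
      rw [e1, Finset.sum_empty]
      positivity
  rw [hf] at hsum s1 s2
  linarith

end UQTL

open RSL UQSL UQTL in
/-- (UQT) -/
theorem t_UQT (hM : S_MP) (hP : S_PH) (hC : S_CB) : S_UQT := by
  intro u M huM hCu ε α κ hε hε1 hα hκ
  obtain ⟨B, hB⟩ : ∃ B : ℝ, B = max 1 M := ⟨_, rfl⟩
  have hB1 : 1 ≤ B := by rw [hB]; exact le_max_left _ _
  have hB0 : 0 < B := by linarith
  have huB : ∀ n, ‖u n‖ ≤ B := fun n => (huM n).trans (by rw [hB]; exact le_max_right _ _)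
  obtain ⟨v, hv⟩ : ∃ v : ℕ → ℂ, v = fun n => ((B⁻¹ : ℝ) : ℂ) * u n := ⟨_, rfl⟩
  have hv1 : ∀ n, ‖v n‖ ≤ 1 := by
    intro n
    rw [hv]
    simp only
    rw [norm_mul, Complex.norm_real, Real.norm_eq_abs, abs_of_nonneg (by positivity), ← div_eq_inv_mul,
      div_le_one hB0]
    exact huB n
  have hQv : ∀ w R t : ℝ, Qs u w R t = B * Qs v w R t := by
    intro w R t
    rw [hv, Qs_smul, ← mul_assoc, mul_inv_cancel₀ hB0.ne', one_mul]
  obtain ⟨Cd, hCd, hdec⟩ := decomp hP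
  obtain ⟨CA, hCA, hsA⟩ := sum_sharpU huB hCu
  obtain ⟨CB, hCB0, hsB⟩ := sum_mid hC
  have hZ := Pool.Agent.H203.ME.PRML.Z1_nonneg
  obtain ⟨Z, hZd⟩ : ∃ Z, Z = Pool.Agent.H203.ME.PRML.Z1 := ⟨_, rfl⟩
  rw [← hZd] at hZ
  have hκ0 : 0 < κ := by linarith
  have hpi := Real.pi_pos
  have hpi3 := Real.pi_gt_three
  obtain ⟨P0, hP0⟩ : ∃ P0 : ℕ, P0 = ⌈B ^ 2⌉₊ := ⟨_, rfl⟩
  have hP0B : B ^ 2 ≤ P0 := by
    rw [hP0]
    exact Nat.le_ceil _
  obtain ⟨E0, hE0⟩ : ∃ E0 : ℝ, E0 = P0 * B + B * Cd := ⟨_, rfl⟩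
  obtain ⟨c, hc⟩ : ∃ c : ℝ, c = α / (8 * κ) := ⟨_, rfl⟩
  have hc0 : 0 < c := by rw [hc]; positivity
  obtain ⟨q, hq⟩ : ∃ q : ℝ, q = 1 + 56 * κ / α := ⟨_, rfl⟩
  have hq1 : 1 ≤ q := by
    rw [hq]
    have : 0 < 56 * κ / α := by positivity
    linarith
  obtain ⟨KB, hKB⟩ : ∃ KB : ℝ, KB = 4 * Real.log q + CB := ⟨_, rfl⟩
  have hKB0 : 0 ≤ KB := by
    rw [hKB]
    have := Real.log_nonneg hq1
    positivity
  obtain ⟨η, hη⟩ : ∃ η : ℝ, η = ε / (8 * B) := ⟨_, rfl⟩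
  have hη0 : 0 < η := by rw [hη]; positivity
  have hBη : B * η = ε / 8 := by
    rw [hη]
    field_simp
  have evl : ∀ᶠ l : ℝ in atTop, (1 ≤ l ∧ 4 * E0 / ε ≤ l) := by
    filter_upwards [eventually_ge_atTop (1 : ℝ), eventually_ge_atTop (4 * E0 / ε)] with l a1 a2
    exact ⟨a1, a2⟩
  have ll := Real.tendsto_log_atTop
  have e1 : ∀ᶠ L : ℝ in atTop, (25 * α + 35) * Real.log L ≤ L := by
    have h1 := (isLittleO_log_rpow_atTop (r := 1) (by norm_num)).bound
      (show (0 : ℝ) < 1 / (25 * α + 35) by positivity)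
    filter_upwards [h1, eventually_ge_atTop (1 : ℝ)] with L h3 h5
    rw [Real.rpow_one, Real.norm_of_nonneg (Real.log_nonneg h5), Real.norm_of_nonneg (by positivity),
      div_mul_eq_mul_div, one_mul, le_div_iff₀ (by positivity)] at h3
    linarith
  have ev := (((ll.eventually evl).and (ll.eventually (numA ε CA hε hε1 hCA))).and
    (ll.eventually (numB c KB η hc0 hKB0 hη0))).and
    ((ll.eventually (numB c Z η hc0 hZ hη0)).and (e1.and (eventually_ge_atTop (4 : ℝ))))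
  obtain ⟨L0, hL0⟩ := eventually_atTop.1 ev
  refine ⟨max L0 3, le_max_right _ _, ?_⟩
  intro T h L w R hT hh h54 hL hLL hw hR x x' hx hxh hx' hxh' hx1
  obtain ⟨⟨⟨⟨g1, g2⟩, gA1, gA2, gA3⟩, gB1, gB2⟩, ⟨gZ1, gZ2⟩, g3, g4⟩ :=
    hL0 L ((le_max_left _ _).trans hLL)
  have hLpos : 0 < L := by linarith
  have hT0 : 0 < T := by linarith
  have hlT0 : 0 < Real.log T := Real.log_pos hT
  have hlTL : 4 / 5 * L ≤ Real.log T := by
    have h1 : h * Real.log T ≤ 5 / 4 * Real.log T := mul_le_mul_of_nonneg_right h54 hlT0.le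
    linarith
  obtain ⟨l, hl⟩ : ∃ l, l = Real.log L := ⟨_, rfl⟩
  rw [← hl] at g1 g2 g3 gA1 gA2 gA3 gB1 gB2 gZ1 gZ2 hw ⊢
  have hl0 : 0 < l := by linarith
  have hal : 0 < α * l := by positivity
  have g3a : 25 * (α * l) ≤ L := by
    have : (25 * α + 35) * l = 25 * (α * l) + 35 * l := by ring
    rw [this] at g3
    linarith
  have g3b : 35 * l ≤ L := by
    have : (25 * α + 35) * l = 25 * (α * l) + 35 * l := by ring
    rw [this] at g3
    linarith
  have hw0 : 0 < w := by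
    rw [hw]
    positivity
  have hwT : w * Real.log T = α * l := by
    rw [hw]
    field_simp
  have hRw : R * w = κ := by
    rw [hR]
    field_simp
  have hR0 : 0 < R := by
    rw [hR]
    positivity
  have hRl : R * (α * l) = κ * Real.log T := by
    rw [← hwT, ← mul_assoc, hRw]
  have hR16 : 16 ≤ R := by
    have h1 : 16 * (α * l) ≤ R * (α * l) := by
      rw [hRl]
      have h2 : 1 * Real.log T ≤ κ * Real.log T := mul_le_mul_of_nonneg_right hκ hlT0.le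
      linarith
    exact le_of_mul_le_mul_right h1 hal
  have hw20 : 20 * w ≤ 1 := by
    have h1 : 20 * w * Real.log T ≤ 1 * Real.log T := by
      rw [mul_assoc, hwT]
      linarith
    exact le_of_mul_le_mul_right h1 hlT0
  obtain ⟨y, hy⟩ : ∃ y : ℝ, y = Real.log T / (28 * l) := ⟨_, rfl⟩
  have hyl : y * (28 * l) = Real.log T := by
    rw [hy]
    field_simp
  have hy1 : 1 ≤ y := by
    have h1 : 1 * (28 * l) ≤ y * (28 * l) := by
      rw [hyl]
      linarith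
    exact le_of_mul_le_mul_right h1 (by positivity)
  have hy0 : 0 < y := by linarith
  have hRq : 2 * R ≤ q * y := by
    have h1 : 2 * R * (α * (28 * l)) ≤ q * y * (α * (28 * l)) := by
      have h2 : 2 * R * (α * (28 * l)) = 56 * (R * (α * l)) := by ring
      have h3 : q * y * (α * (28 * l)) = q * α * (y * (28 * l)) := by ring
      have h4 : q * α = α + 56 * κ := by
        rw [hq]
        field_simp
      rw [h2, h3, hRl, hyl, h4]
      have h5 : 0 < α * Real.log T := by positivity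
      have h6 : (α + 56 * κ) * Real.log T = α * Real.log T + 56 * (κ * Real.log T) := by ring
      rw [h6]
      linarith
    exact le_of_mul_le_mul_right h1 (by positivity)
  -- the parameters
  obtain ⟨m, hm⟩ : ∃ m : ℕ, m = ⌊c * l⌋₊ := ⟨_, rfl⟩
  rw [← hm] at gB1 gB2 gZ2
  have hml : (m : ℝ) ≤ c * l := by
    rw [hm]
    exact Nat.floor_le (by positivity)
  obtain ⟨N, hN⟩ : ∃ N : ℕ, N = ⌊Real.exp (2 * R)⌋₊ := ⟨_, rfl⟩
  have hN1 : 1 ≤ N := by
    rw [hN, Nat.one_le_floor_iff]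
    exact Real.one_le_exp (by linarith)
  have hNT : (N : ℝ) ^ (4 * m) ≤ T := by
    have h1 : (N : ℝ) ≤ Real.exp (2 * R) := by
      rw [hN]
      exact Nat.floor_le (Real.exp_pos _).le
    calc (N : ℝ) ^ (4 * m) ≤ (Real.exp (2 * R)) ^ (4 * m) := pow_le_pow_left₀ (Nat.cast_nonneg _) h1 _
      _ = Real.exp ((4 * m : ℕ) * (2 * R)) := by rw [← Real.exp_nat_mul]
      _ ≤ Real.exp (Real.log T) := by
          apply Real.exp_le_exp.2
          push_cast
          have h3 : R * m ≤ R * (c * l) := mul_le_mul_of_nonneg_left hml hR0.le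
          have h4 : 8 * (R * (c * l)) = Real.log T := by
            have h5 : 8 * (R * (c * l)) = R * (α * l) / κ := by
              rw [hc]
              field_simp
            rw [h5, hRl]
            field_simp
          linarith
      _ = T := Real.exp_log hT0
  obtain ⟨N1, hN1d⟩ : ∃ N1 : ℕ, N1 = ⌊Real.exp y⌋₊ := ⟨_, rfl⟩
  have hN11 : 1 ≤ N1 := by
    rw [hN1d, Nat.one_le_floor_iff]
    exact Real.one_le_exp hy0.le
  obtain ⟨a, ha⟩ : ∃ a : ℕ → ℂ, a = ap v w R 0 0 x x' := ⟨_, rfl⟩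
  obtain ⟨A, hA⟩ : ∃ A : ℕ → ℂ, A = ap u w R 0 0 x x' := ⟨_, rfl⟩
  have haA : ∀ p, A p = (B : ℂ) * a p := by
    intro p
    rw [ha, hA, hv, ap_smul, ← mul_assoc, ← Complex.ofReal_mul, mul_inv_cancel₀ hB0.ne', Complex.ofReal_one,
      one_mul]
  obtain ⟨b, hb⟩ : ∃ b : ℕ → ℂ, b = sp v w R N x x' := ⟨_, rfl⟩
  obtain ⟨g, hg⟩ : ∃ g : ℕ → ℝ, g = fun p : ℕ => 1 / (p : ℝ) * ‖ee p x - ee p x'‖ ^ 2 := ⟨_, rfl⟩
  have hg0 : ∀ p, 0 ≤ g p := fun p => by
    rw [hg]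
    positivity
  obtain ⟨G, hG⟩ : ∃ G : ℕ → ℝ, G = fun p : ℕ => ‖u p‖ ^ 2 / (p : ℝ) * ‖ee p x - ee p x'‖ ^ 2 := ⟨_, rfl⟩
  have hG0 : ∀ p, 0 ≤ G p := fun p => by
    rw [hG]
    positivity
  have hag : ∀ p, ‖a p‖ ^ 2 ≤ g p / Real.pi ^ 2 := fun p => by
    rw [ha, hg]
    exact ap_sq hP hv1 hR0 x x' p
  have hAG : ∀ p, ‖A p‖ ^ 2 ≤ G p / Real.pi ^ 2 := fun p => by
    rw [hA, hG]
    exact ap_sqU hP u hR0 x x' p
  have hpi1 : 1 ≤ Real.pi ^ 2 := one_le_pow₀ (by linarith)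
  have hag1 : ∀ p, ‖a p‖ ^ 2 ≤ g p := fun p => (hag p).trans (div_le_self (hg0 p) hpi1)
  have ha1 : ∀ p, ‖a p‖ ≤ 1 := fun p => by
    rw [ha]
    exact ap_le_one hP hv1 hR0 0 0 x x' p
  have hA1 : ∀ p : ℕ, P0 < p → ‖A p‖ ≤ 1 := by
    intro p hp
    have h1 := ap_norm hP u (w := w) hR0 x x' p
    rw [← hA] at h1
    have hpB : B ≤ Real.sqrt p := by
      apply Real.le_sqrt_of_sq_le
      have h2 : (P0 : ℝ) < p := by exact_mod_cast hp
      linarith
    have h2 : ‖u p‖ * ‖ee p x - ee p x'‖ ≤ B * 2 :=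
      mul_le_mul (huB p) (dd_le_two p x x') (norm_nonneg _) hB0.le
    have h3 : 1 / Real.sqrt p * (‖u p‖ * ‖ee p x - ee p x'‖) ≤ 1 / B * (B * 2) :=
      mul_le_mul (one_div_le_one_div_of_le hB0 hpB) h2 (by positivity) (by positivity)
    have h4 : 1 / B * (B * 2) = 2 := by field_simp
    rw [h4] at h3
    have h5 := inv_pi_le
    calc ‖A p‖ ≤ 1 / Real.sqrt p * (‖u p‖ * ‖ee p x - ee p x'‖) * (1 / Real.pi) := h1
      _ ≤ 2 * (1 / 3) := mul_le_mul h3 h5 (by positivity) (by norm_num)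
      _ ≤ 1 := by norm_num
  have hdec' : ∀ t : ℝ, |Qs u w R (t + x) - Qs u w R (t + x')| ≤
      B * ‖∑ p ∈ (Finset.Icc 1 N).filter Nat.Prime, a p * ee p t‖ +
      B * ‖∑ p ∈ (Finset.Icc 1 N).filter Nat.Prime, b p * ee p (2 * t)‖ + B * Cd := by
    intro t
    have h1 := hdec v hv1 w R 0 0 hR16 (by linarith) x x' t
    rw [UQL.Yb_zero, UQL.Yb_zero, sub_self, sub_zero, ← hN, ← ha, ← hb] at h1
    rw [hQv, hQv, ← mul_sub, abs_mul, abs_of_nonneg hB0.le, ← mul_add, ← mul_add]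
    exact mul_le_mul_of_nonneg_left h1 hB0.le
  have hCdl : E0 ≤ ε * l / 4 := by
    rw [div_le_iff₀ hε] at g2
    linarith
  have hel : 0 < η * l := by positivity
  -- the squares of the primes
  have hS2' : ∑ p ∈ (Finset.Icc 1 N).filter Nat.Prime, ‖b p‖ ^ 2 ≤ Z := by
    rw [hb, hZd]
    exact sum_sp hP hv1 hR0 N N x x'
  have v3 : volume {t : ℝ | T ≤ t ∧ t ≤ 2 * T ∧
      η * l < ‖∑ p ∈ (Finset.Icc 1 N).filter Nat.Prime, b p * ee p (2 * t)‖} ≤
      ENNReal.ofReal (Real.exp (-(4 * l)) * T) := by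
    refine (moment2 hM gB1 hN1 hT.le (a := b) (fun p => by
      rw [hb]
      exact sp_le_one hP hv1 (w := w) hR0 N x x' p) hNT hS2' hel).trans ?_
    apply ENNReal.ofReal_le_ofReal
    rw [mul_div_right_comm]
    exact mul_le_mul_of_nonneg_right gZ2 hT0.le
  obtain ⟨a1, ha1d⟩ : ∃ a1 : ℕ → ℂ, a1 = fun p => if p ≤ N then a p else 0 := ⟨_, rfl⟩
  obtain ⟨a2, ha2d⟩ : ∃ a2 : ℕ → ℂ, a2 = fun p => if p ≤ N1 then 0 else a p := ⟨_, rfl⟩
  obtain ⟨A1, hA1d⟩ : ∃ A1 : ℕ → ℂ, A1 = fun p => if p ≤ N ∧ P0 < p then A p else 0 := ⟨_, rfl⟩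
  have hsplit : ∀ t : ℝ, ∑ p ∈ (Finset.Icc 1 N).filter Nat.Prime, a p * ee p t =
      ∑ p ∈ (Finset.Icc 1 N1).filter Nat.Prime, a1 p * ee p t +
      ∑ p ∈ (Finset.Icc 1 N).filter Nat.Prime, a2 p * ee p t := by
    intro t
    rw [split2 N N1 (fun p => a p * ee p t), ha1d, ha2d]
    congr 1
    · refine Finset.sum_congr rfl fun p _ => ?_
      simp only
      split_ifs <;> simp
    · refine Finset.sum_congr rfl fun p _ => ?_
      simp only
      split_ifs <;> simp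
  -- the small primes
  have hsmall : ∀ t : ℝ, B * ‖∑ p ∈ (Finset.Icc 1 N1).filter Nat.Prime, a1 p * ee p t‖ ≤
      ‖∑ p ∈ (Finset.Icc 1 N1).filter Nat.Prime, A1 p * ee p t‖ + P0 * B := by
    intro t
    have h1 : (B : ℂ) * ∑ p ∈ (Finset.Icc 1 N1).filter Nat.Prime, a1 p * ee p t =
        ∑ p ∈ (Finset.Icc 1 N1).filter Nat.Prime, A1 p * ee p t +
        ∑ p ∈ (Finset.Icc 1 N1).filter Nat.Prime, (if p ≤ P0 then (B : ℂ) * (a1 p * ee p t) else 0) := by
      rw [Finset.mul_sum, ← Finset.sum_add_distrib]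
      refine Finset.sum_congr rfl fun p _ => ?_
      rw [hA1d, ha1d]
      simp only
      by_cases c1 : p ≤ N <;> by_cases c2 : p ≤ P0
      · rw [if_pos c1, if_neg (by rintro ⟨-, h2⟩; omega), if_pos c2]
        ring
      · rw [if_pos c1, if_pos ⟨c1, by omega⟩, if_neg c2, haA]
        ring
      · rw [if_neg c1, if_neg (by rintro ⟨h2, -⟩; exact c1 h2), if_pos c2]
        ring
      · rw [if_neg c1, if_neg (by rintro ⟨h2, -⟩; exact c1 h2), if_neg c2]
        ring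
    have h2 : B * ‖∑ p ∈ (Finset.Icc 1 N1).filter Nat.Prime, a1 p * ee p t‖ =
        ‖(B : ℂ) * ∑ p ∈ (Finset.Icc 1 N1).filter Nat.Prime, a1 p * ee p t‖ := by
      rw [norm_mul, Complex.norm_real, Real.norm_eq_abs, abs_of_nonneg hB0.le]
    rw [h2, h1]
    refine (norm_add_le _ _).trans (add_le_add le_rfl ?_)
    rw [← Finset.sum_filter]
    calc ‖∑ p ∈ ((Finset.Icc 1 N1).filter Nat.Prime).filter (fun p => p ≤ P0), (B : ℂ) * (a1 p * ee p t)‖
        ≤ ∑ p ∈ ((Finset.Icc 1 N1).filter Nat.Prime).filter (fun p => p ≤ P0), B := by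
          refine (norm_sum_le _ _).trans (Finset.sum_le_sum fun p _ => ?_)
          rw [norm_mul, norm_mul, norm_ee, mul_one, Complex.norm_real, Real.norm_eq_abs, abs_of_nonneg hB0.le]
          have h3 : ‖a1 p‖ ≤ 1 := by
            rw [ha1d]
            simp only
            split_ifs
            · exact ha1 p
            · simp
          exact mul_le_of_le_one_right hB0.le h3
      _ = ((((Finset.Icc 1 N1).filter Nat.Prime).filter (fun p => p ≤ P0)).card : ℝ) * B := by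
          rw [Finset.sum_const, nsmul_eq_mul]
      _ ≤ P0 * B := by
          apply mul_le_mul_of_nonneg_right _ hB0.le
          have h3 : ((Finset.Icc 1 N1).filter Nat.Prime).filter (fun p => p ≤ P0) ⊆ Finset.Icc 1 P0 := by
            intro p hp
            rw [Finset.mem_filter, Finset.mem_filter, Finset.mem_Icc] at hp
            rw [Finset.mem_Icc]
            exact ⟨hp.1.1.1, hp.2⟩
          have h4 := Finset.card_le_card h3
          rw [Nat.card_Icc, Nat.add_sub_cancel] at h4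
          exact_mod_cast h4
  have hsA' : ∑ p ∈ (Finset.Icc 1 N1).filter Nat.Prime, ‖A1 p‖ ^ 2 ≤ (2 * l + CA) / Real.pi ^ 2 := by
    have h1 := hsA y L x x' (by linarith) hx1 (by
      have h2 : |x - x'| ≤ h := by
        rw [abs_le]
        constructor <;> linarith
      have h3 : h * y ≤ L := by
        have h4 : h * y * (28 * l) = L := by
          rw [mul_assoc, hyl, hL]
        have h5 : h * y * 1 ≤ h * y * (28 * l) :=
          mul_le_mul_of_nonneg_left (by linarith) (by positivity)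
        linarith
      exact (mul_le_mul_of_nonneg_right h2 hy0.le).trans h3)
    rw [← hN1d, ← hl] at h1
    calc ∑ p ∈ (Finset.Icc 1 N1).filter Nat.Prime, ‖A1 p‖ ^ 2 ≤
          ∑ p ∈ (Finset.Icc 1 N1).filter Nat.Prime, G p / Real.pi ^ 2 := by
          refine Finset.sum_le_sum fun p _ => ?_
          rw [hA1d]
          simp only
          split_ifs
          · exact hAG p
          · rw [norm_zero, zero_pow two_ne_zero]
            exact div_nonneg (hG0 p) (by positivity)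
      _ = (∑ p ∈ (Finset.Icc 1 N1).filter Nat.Prime, G p) / Real.pi ^ 2 := by
          rw [Finset.sum_div]
      _ ≤ _ := by
          rw [hG]
          exact div_le_div_of_nonneg_right h1 (by positivity)
  have hsB' : ∑ p ∈ (Finset.Icc 1 N).filter Nat.Prime, ‖a2 p‖ ^ 2 ≤ KB := by
    have h1 := hsB y (2 * R) q x x' hy1 hq1 hRq
    rw [← hKB] at h1
    refine le_trans ?_ h1
    calc ∑ p ∈ (Finset.Icc 1 N).filter Nat.Prime, ‖a2 p‖ ^ 2 ≤
          ∑ p ∈ (Finset.Icc 1 N).filter Nat.Prime, (if ¬ p ≤ N1 then g p else 0) := by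
          refine Finset.sum_le_sum fun p _ => ?_
          rw [ha2d]
          simp only
          split_ifs with h2
          · simp
          · exact hag1 p
      _ = ∑ p ∈ ((Finset.Icc 1 N).filter Nat.Prime).filter (fun p => ¬ p ≤ N1), g p :=
          (Finset.sum_filter _ _).symm
      _ ≤ ∑ p ∈ PB y (2 * R), g p := by
          apply Finset.sum_le_sum_of_subset_of_nonneg _ (fun p _ _ => hg0 p)
          intro p hp
          rw [Finset.mem_filter, Finset.mem_filter, Finset.mem_Icc, hN,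
            Nat.le_floor_iff (Real.exp_pos _).le] at hp
          obtain ⟨⟨⟨hp1, hp2⟩, hpp⟩, hp3⟩ := hp
          have hp0 : (0 : ℝ) < p := by exact_mod_cast hpp.pos
          rw [not_le, hN1d, Nat.floor_lt (Real.exp_pos _).le] at hp3
          rw [mem_PB]
          exact ⟨hpp, (Real.lt_log_iff_exp_lt hp0).2 hp3, (Real.log_le_iff_le_exp hp0).2 hp2⟩
      _ = _ := by rw [hg]
  obtain ⟨V, hV⟩ : ∃ V : ℝ, V = (2 / Real.pi + ε / 2) * l := ⟨_, rfl⟩
  obtain ⟨S, hS⟩ : ∃ S : ℝ, S = (2 * l + CA) / Real.pi ^ 2 := ⟨_, rfl⟩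
  obtain ⟨m1, hm1⟩ : ∃ m1 : ℕ, m1 = ⌊V ^ 2 / (1 + S)⌋₊ := ⟨_, rfl⟩
  rw [← hV, ← hS, ← hm1] at gA1 gA2 gA3
  rw [← hS] at hsA'
  have hV0 : 0 < V := by
    rw [hV]
    positivity
  have hNT1 : (N1 : ℝ) ^ (4 * m1) ≤ T := by
    have h1 : (N1 : ℝ) ≤ Real.exp y := by
      rw [hN1d]
      exact Nat.floor_le (Real.exp_pos _).le
    calc (N1 : ℝ) ^ (4 * m1) ≤ (Real.exp y) ^ (4 * m1) := pow_le_pow_left₀ (Nat.cast_nonneg _) h1 _
      _ = Real.exp ((4 * m1 : ℕ) * y) := by rw [← Real.exp_nat_mul]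
      _ ≤ Real.exp (Real.log T) := by
          apply Real.exp_le_exp.2
          push_cast
          rw [← hyl]
          have h3 : y * m1 ≤ y * (7 * l) := mul_le_mul_of_nonneg_left gA2 hy0.le
          linarith
      _ = T := Real.exp_log hT0
  have v1 : volume {t : ℝ | T ≤ t ∧ t ≤ 2 * T ∧
      V < ‖∑ p ∈ (Finset.Icc 1 N1).filter Nat.Prime, A1 p * ee p t‖} ≤
      ENNReal.ofReal (Real.exp (-((2 + ε) * l)) / 2 * T) := by
    refine (moment1 hM gA1 hN11 hT.le (a := A1) (fun p => by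
      rw [hA1d]
      simp only
      split_ifs with h2
      · exact hA1 p h2.2
      · simp) hNT1 hsA' hV0).trans ?_
    apply ENNReal.ofReal_le_ofReal
    rw [mul_div_right_comm]
    exact mul_le_mul_of_nonneg_right gA3 hT0.le
  have v2 : volume {t : ℝ | T ≤ t ∧ t ≤ 2 * T ∧
      η * l < ‖∑ p ∈ (Finset.Icc 1 N).filter Nat.Prime, a2 p * ee p t‖} ≤
      ENNReal.ofReal (Real.exp (-(4 * l)) * T) := by
    refine (moment1 hM gB1 hN1 hT.le (a := a2) (fun p => by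
      rw [ha2d]
      simp only
      split_ifs
      · simp
      · exact ha1 p) hNT hsB' hel).trans ?_
    apply ENNReal.ofReal_le_ofReal
    rw [mul_div_right_comm]
    exact mul_le_mul_of_nonneg_right gB2 hT0.le
  have hsub : {t : ℝ | T ≤ t ∧ t ≤ 2 * T ∧ (2 / Real.pi + ε) * l <
      |Qs u w R (t + x) - Qs u w R (t + x')|} ⊆
      {t : ℝ | T ≤ t ∧ t ≤ 2 * T ∧ V < ‖∑ p ∈ (Finset.Icc 1 N1).filter Nat.Prime, A1 p * ee p t‖} ∪
      ({t : ℝ | T ≤ t ∧ t ≤ 2 * T ∧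
        η * l < ‖∑ p ∈ (Finset.Icc 1 N).filter Nat.Prime, a2 p * ee p t‖} ∪
      {t : ℝ | T ≤ t ∧ t ≤ 2 * T ∧
        η * l < ‖∑ p ∈ (Finset.Icc 1 N).filter Nat.Prime, b p * ee p (2 * t)‖}) := by
    rintro t ⟨t1, t2, t3⟩
    have h1 := hdec' t
    rw [hsplit t] at h1
    have h2 := mul_le_mul_of_nonneg_left
      (norm_add_le (∑ p ∈ (Finset.Icc 1 N1).filter Nat.Prime, a1 p * ee p t)
      (∑ p ∈ (Finset.Icc 1 N).filter Nat.Prime, a2 p * ee p t)) hB0.le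
    rw [mul_add] at h2
    have h0 := hsmall t
    by_contra hcon
    rw [mem_union, mem_union, not_or, not_or] at hcon
    obtain ⟨k1, k2, k3⟩ := hcon
    have j1 : ‖∑ p ∈ (Finset.Icc 1 N1).filter Nat.Prime, A1 p * ee p t‖ ≤ V := by
      by_contra h3
      push Not at h3
      exact k1 ⟨t1, t2, h3⟩
    have j2 : B * ‖∑ p ∈ (Finset.Icc 1 N).filter Nat.Prime, a2 p * ee p t‖ ≤ ε / 8 * l := by
      rw [← hBη, mul_assoc]
      apply mul_le_mul_of_nonneg_left _ hB0.le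
      by_contra h3
      push Not at h3
      exact k2 ⟨t1, t2, h3⟩
    have j3 : B * ‖∑ p ∈ (Finset.Icc 1 N).filter Nat.Prime, b p * ee p (2 * t)‖ ≤ ε / 8 * l := by
      rw [← hBη, mul_assoc]
      apply mul_le_mul_of_nonneg_left _ hB0.le
      by_contra h3
      push Not at h3
      exact k3 ⟨t1, t2, h3⟩
    rw [hV] at j1
    have j4 : (2 / Real.pi + ε) * l = (2 / Real.pi + ε / 2) * l + ε / 2 * l := by ring
    rw [j4] at t3
    rw [hE0] at hCdl
    linarith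
  refine (measure_mono hsub).trans ((measure_union_le _ _).trans
    ((add_le_add le_rfl (measure_union_le _ _)).trans ((add_le_add v1 (add_le_add v2 v3)).trans ?_)))
  rw [← ENNReal.ofReal_add (by positivity) (by positivity),
    ← ENNReal.ofReal_add (by positivity) (by positivity)]
  apply ENNReal.ofReal_le_ofReal
  have h1 : Real.exp (-((2 + ε) * l)) = L ^ (-(2 + ε)) := by
    rw [Real.rpow_def_of_pos hLpos, ← hl]
    congr 1
    ring
  have h2 : Real.exp (-(4 * l)) ≤ L ^ (-(2 + ε)) / 4 := by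
    have h3 : Real.exp (-(4 * l)) ≤ Real.exp (-((2 + ε) * l)) * Real.exp (-l) := by
      rw [← Real.exp_add]
      apply Real.exp_le_exp.2
      have h6 : ε * l ≤ 1 * l := mul_le_mul_of_nonneg_right hε1 hl0.le
      have h7 : (2 + ε) * l = 2 * l + ε * l := by ring
      rw [h7]
      linarith
    have h4 : Real.exp (-l) ≤ 1 / 4 := by
      rw [hl, Real.exp_neg, Real.exp_log hLpos, ← one_div]
      exact one_div_le_one_div_of_le (by norm_num) g4
    rw [h1] at h3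
    refine h3.trans ?_
    have h5 : (0 : ℝ) < L ^ (-(2 + ε)) := by positivity
    have h6 := mul_le_mul_of_nonneg_left h4 h5.le
    linarith only [h6]
  rw [h1]
  have h6 := mul_le_mul_of_nonneg_right h2 hT0.le
  linarith only [h6]

end Pool.Agent.H203.HX
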