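import Pool.Agent.H203.HX.Defs5

set_option autoImplicit false

/-! Leaf UZT: as UZS (by helper287), for all small `α` and large `κ`. -/

open Complex Filter Topology Set MeasureTheory

namespace Pool.Agent.H203.HX

open Pool.Agent.H203.ME (ee gR WR cR om FF KF C2c w1)
open Pool.Agent.H203.GE (Lf ZG XG BG NWG)

namespace UZTL

lemma PR_zero {G : ℂ → ℂ} {u : ℕ → ℂ} (hG : Lf G u) (hOn : OnLine G) {T : ℝ} (hT : 1 ≤ T)
    (w R t : ℝ) : PR G T w R t = 0 := by
  unfold PR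
  refine Finset.sum_eq_zero fun s hs => ?_
  exfalso
  rw [Finset.mem_filter] at hs
  obtain ⟨h1, h2⟩ := hs
  rw [H370.mem_Zf hG.good hT] at h1
  obtain ⟨a1, a2, a3, a4, a5⟩ := h1
  have h3 := hOn s a5 a1 a2
  rw [h3, sub_self, abs_zero, mul_zero] at h2
  linarith

lemma ev4 {C η : ℝ} (hη : 0 < η) : ∀ᶠ x : ℝ in atTop, C / x ≤ η := by
  have h1 : Tendsto (fun x : ℝ => C / x) atTop (𝓝 0) := tendsto_const_nhds.div_atTop tendsto_id
  filter_upwards [h1.eventually (gt_mem_nhds hη)] with x hx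
  exact hx.le

lemma ev5 {η : ℝ} (hη : 0 < η) : ∀ᶠ x : ℝ in atTop, 10 * x ≤ η * Real.exp x := by
  have h1 := Real.tendsto_pow_mul_exp_neg_atTop_nhds_zero 1
  filter_upwards [h1.eventually (gt_mem_nhds (show (0 : ℝ) < η / 10 by positivity))] with x hx
  rw [pow_one] at hx
  have h2 := Real.exp_pos x
  have h3 : x * Real.exp (-x) * Real.exp x = x := by
    rw [mul_assoc, ← Real.exp_add, neg_add_cancel, Real.exp_zero, mul_one]
  have h4 : x * Real.exp (-x) * Real.exp x ≤ η / 10 * Real.exp x :=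
    mul_le_mul_of_nonneg_right hx.le h2.le
  rw [h3] at h4
  linarith

lemma ev6 {A : ℝ} (hA : 0 < A) : ∀ᶠ x : ℝ in atTop, 2 * (A * Real.log x) ^ 2 ≤ x := by
  have h1 := (Real.isLittleO_pow_log_id_atTop (n := 2)).def
    (show (0 : ℝ) < 1 / (2 * A ^ 2) by positivity)
  filter_upwards [h1, eventually_ge_atTop 0] with x hx hx0
  rw [Real.norm_eq_abs, Real.norm_eq_abs, id, abs_of_nonneg (sq_nonneg _), abs_of_nonneg hx0] at hx
  have h2 := mul_le_mul_of_nonneg_left hx (show 0 ≤ 2 * A ^ 2 by positivity)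
  have h3 : 2 * A ^ 2 * (1 / (2 * A ^ 2) * x) = x := by
    field_simp
  rw [h3] at h2
  rw [mul_pow]
  linarith

lemma ev7 (C : ℝ) {α : ℝ} (hα : 0 < α) : ∀ᶠ x : ℝ in atTop, C ≤ α * Real.log x := by
  filter_upwards [Real.tendsto_log_atTop.eventually_ge_atTop (C / α)] with x hx
  rw [div_le_iff₀ hα] at hx
  linarith

end UZTL

open UZTL in
theorem t_UZT (hN : S_NB) (hE : S_ER) (hQI : S_QI) (hUM : S_UMS) : S_UZT := by
  intro G u hG hOn η hη
  obtain ⟨C1, T1, hC1, hT1, hNB⟩ := hN G u hG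
  obtain ⟨C3, T3, hC3, hT3, hER⟩ := hE G u hG
  have hC10 : 0 < C1 := by linarith
  refine ⟨η / (8 * C1 * C3), C1, by positivity, hC1, fun α κ hα0 hα hκ e he => ?_⟩
  have hκ1 : 1 ≤ κ := hC1.trans hκ
  have hκ0 : 0 < κ := by linarith
  have hαC : 4 * C1 * C3 * α ≤ η / 2 := by
    rw [le_div_iff₀ (by positivity)] at hα
    linarith
  obtain ⟨L5, hL5, hM⟩ := hUM u hG.le1 α α κ hα0 hα0 hκ1
  have hev : ∀ᶠ x : ℝ in atTop, 3 ≤ x ∧ T1 ≤ Real.exp x ∧ T3 ≤ Real.exp x ∧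
      L5 ≤ x ∧ 2 * (α * Real.log x) ^ 2 ≤ x ∧ 2 / x ≤ e / 2 ∧
      10 * x ≤ min 1 (e / 2) * Real.exp x ∧ κ + 4 ≤ α * Real.log x ∧
      2 * C1 * C3 + 2 * C3 + 1 ≤ η / 2 * Real.log x := by
    filter_upwards [eventually_ge_atTop 3, Real.tendsto_exp_atTop.eventually_ge_atTop T1,
      Real.tendsto_exp_atTop.eventually_ge_atTop T3,
      eventually_ge_atTop L5, ev6 hα0,
      ev4 (C := 2) (show 0 < e / 2 by positivity),
      ev5 (show 0 < min 1 (e / 2) by positivity), ev7 (κ + 4) hα0,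
      ev7 (2 * C1 * C3 + 2 * C3 + 1) (show 0 < η / 2 by positivity)]
      with x h1 h2 h3 h4 h5 h6 h7 h8 h9
    exact ⟨h1, h2, h3, h4, h5, h6, h7, h8, h9⟩
  obtain ⟨L0, hL0⟩ := eventually_atTop.1 hev
  refine ⟨5 / 4 * max 3 L0, by linarith [le_max_left 3 L0], fun T h L w R hT hh hh2 hLh hL hw hR => ?_⟩
  obtain ⟨y, hy⟩ : ∃ y, y = Real.log T := ⟨_, rfl⟩
  obtain ⟨ℓ, hℓ⟩ : ∃ ℓ, ℓ = Real.log L := ⟨_, rfl⟩
  have hm3 := le_max_left 3 L0
  have hmL := le_max_right 3 L0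
  have hM' := hM T h L w R hT hh hh2 hLh
  have hT0 : 0 < T := by linarith
  have hTy : T = Real.exp y := by rw [hy, Real.exp_log hT0]
  have hxL : L0 ≤ L := by linarith
  have hL3 : 3 ≤ L := by linarith
  have hLpos : 0 < L := by linarith
  obtain ⟨-, -, -, p4, p5, p6, -, p8, p9⟩ := hL0 L hxL
  specialize hM' p4 hw hR
  rw [← hℓ] at hM' p5 p8 p9
  rw [← hy] at hLh hw
  rw [← hℓ] at hw
  have hy0 : 0 < y := by rw [hy]; exact Real.log_pos hT
  have h2L : 4 / 5 * L ≤ y := by rw [hLh]; nlinarith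
  have hy2 : L / 2 ≤ y := by linarith
  have hL0y : L0 ≤ y := by linarith
  obtain ⟨q1, q2, q3, -, -, -, q7, -, -⟩ := hL0 y hL0y
  rw [← hTy] at q2 q3 q7
  have hTe : 10 * y ≤ e / 2 * T :=
    q7.trans (mul_le_mul_of_nonneg_right (min_le_right _ _) hT0.le)
  have hT10 : 10 * y ≤ T := by
    have h1 := q7.trans (mul_le_mul_of_nonneg_right (min_le_left _ _) hT0.le)
    linarith
  have hαℓ : κ + 4 ≤ α * ℓ := p8
  have hαℓ1 : 5 ≤ α * ℓ := by linarith
  have hαℓ0 : 0 < α * ℓ := by linarith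
  have hℓ0 : 0 < ℓ := by
    by_contra hc
    have := mul_nonpos_of_nonneg_of_nonpos hα0.le (not_lt.1 hc)
    linarith
  have hw0 : 0 < w := by rw [hw]; positivity
  have hR0 : 0 < R := by rw [hR]; positivity
  have hwy : w * y = α * ℓ := by rw [hw]; field_simp
  have hwR : w * R = κ := by
    rw [hR]
    field_simp
  have hsq : (α * ℓ) ^ 2 ≤ y := by linarith
  have hw2 : w ^ 2 * y ≤ 1 := by
    have h1 : w ^ 2 * y = (α * ℓ) ^ 2 / y := by
      rw [hw]
      field_simp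
    rw [h1, div_le_one hy0]
    exact hsq
  have hyR : y / R ^ 2 ≤ 1 := by
    have h1 : y / R ^ 2 = w ^ 2 * y / κ ^ 2 := by
      rw [hR]
      field_simp
    rw [h1, div_le_one (by positivity)]
    have h2 : 1 ≤ κ ^ 2 := one_le_pow₀ hκ1
    linarith
  have hRy : R ≤ y := by
    rw [hR, div_le_iff₀ hw0, mul_comm y w, hwy]
    linarith
  have hw4 : w ≤ 1 / 4 := by
    rw [hw, div_le_div_iff₀ hy0 (by norm_num)]
    nlinarith
  have hR1 : 1 ≤ R := by
    rw [hR, le_div_iff₀ hw0]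
    linarith
  have hC1R : 1 ≤ w * R := by rw [hwR]; exact hκ1
  obtain ⟨n, hn⟩ : ∃ n : ℕ, n = ⌊h / w⌋₊ := ⟨_, rfl⟩
  have hnx : ((n : ℝ) + 1) ≤ L := by
    have h1 : (n : ℝ) ≤ h / w := by
      rw [hn]
      exact Nat.floor_le (by positivity)
    have h2 : h / w ≤ L / 5 := by
      rw [div_le_iff₀ hw0]
      have h3 : L / 5 * w = h * (α * ℓ / 5) := by
        rw [hLh, ← hwy]
        ring
      rw [h3]
      nlinarith
    linarith
  have hnw : (n : ℝ) * w ≤ h := by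
    rw [← le_div_iff₀ hw0, hn]
    exact Nat.floor_le (by positivity)
  -- the inclusion
  have hsub : {t : ℝ | T ≤ t ∧ t ≤ 2 * T ∧ ∃ i j : ℕ, i < j ∧ ((j : ℝ) - i) * w ≤ 3 / 4 ∧ j * w ≤ h ∧
      η * Real.log L < |XG G (Gs w ((j - i) * w)) T (t + i * w) +
        (Qs u w R (t + i * w) - Qs u w R (t + j * w))|} ⊆
      (Icc T (T + 2 * y) ∪ Icc (2 * T - 2 * y - 2) (2 * T)) ∪ ⋃ i ∈ Finset.range (n + 1),
          {t : ℝ | T ≤ t ∧ t ≤ 2 * T ∧ α * ℓ < |BG u (Mw w) R (t + i * w)|} := by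
    rintro t ⟨ht1, ht2, i, j, hij, hij34, hj, hCt⟩
    by_contra hcon
    have e1 : T + 2 * y < t := by
      by_contra h1
      exact hcon (Or.inl (Or.inl ⟨ht1, not_lt.1 h1⟩))
    have e2 : t < 2 * T - 2 * y - 2 := by
      by_contra h1
      exact hcon (Or.inl (Or.inr ⟨not_lt.1 h1, ht2⟩))
    have hrange : ∀ i : ℕ, i * w ≤ h → i ∈ Finset.range (n + 1) := by
      intro i hi
      rw [Finset.mem_range, hn]
      exact Nat.lt_succ_of_le (Nat.le_floor (by rwa [le_div_iff₀ hw0]))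
    have hpt : ∀ i : ℕ, i * w ≤ h → t + i * w ∈ Icc (T + 2 * y) (2 * T - 2 * y) ∧
        NWG G T w (t + i * w) ≤ C1 * (2 * (α * ℓ) + 1) := by
      intro i hi
      have hiw : 0 ≤ (i : ℝ) * w := by positivity
      have hin := hrange i hi
      have hmem : t + i * w ∈ Icc (T + 2 * y) (2 * T - 2 * y) := ⟨by linarith, by linarith⟩
      have hBG : |BG u (Mw w) R (t + i * w)| ≤ α * ℓ := by
        by_contra hc
        exact hcon (Or.inr (mem_biUnion hin ⟨ht1, ht2, not_le.1 hc⟩))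
      refine ⟨hmem, ?_⟩
      have h1 := hNB T q2 w R hw0 (by rw [← hy]; exact hw2) (by rw [hwR]; exact hκ)
        (by rw [← hy]; exact hRy) (t + i * w) (by rw [← hy]; exact hmem)
      rw [← hy, hwy, PR_zero hG hOn hT.le] at h1
      refine h1.trans (mul_le_mul_of_nonneg_left ?_ hC10.le)
      linarith
    have hij' : (i : ℝ) ≤ j := by exact_mod_cast hij.le
    have hiw : (i : ℝ) * w ≤ h := (mul_le_mul_of_nonneg_right hij' hw0.le).trans hj
    obtain ⟨m1, m3⟩ := hpt i hiw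
    obtain ⟨n1, n3⟩ := hpt j hj
    have ha0 : 0 ≤ ((j : ℝ) - i) * w := mul_nonneg (by linarith) hw0.le
    have ha1 : ((j : ℝ) - i) * w + w ≤ 1 := by linarith
    have h1 := hER T q3 w R (((j : ℝ) - i) * w) hw0 hC1R
      (by rw [← hy]; exact hRy) ha0 ha1 (t + i * w) (by rw [← hy]; exact m1)
    have h2 : t + i * w + ((j : ℝ) - i) * w = t + j * w := by ring
    rw [h2, ← hy, hwR, PR_zero hG hOn hT.le, PR_zero hG hOn hT.le] at h1
    have h3 : C3 / κ ^ 2 * (NWG G T w (t + i * w) + NWG G T w (t + j * w)) ≤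
        C3 * (2 * (C1 * (2 * (α * ℓ) + 1))) := by
      have hC12 : 1 ≤ κ ^ 2 := one_le_pow₀ hκ1
      have h4 : C3 / κ ^ 2 ≤ C3 := div_le_self hC3.le hC12
      have h5 : 0 ≤ 2 * (C1 * (2 * (α * ℓ) + 1)) := by positivity
      calc C3 / κ ^ 2 * (NWG G T w (t + i * w) + NWG G T w (t + j * w))
          ≤ C3 / κ ^ 2 * (2 * (C1 * (2 * (α * ℓ) + 1))) :=
            mul_le_mul_of_nonneg_left (by linarith) (by positivity)
        _ ≤ C3 * (2 * (C1 * (2 * (α * ℓ) + 1))) := mul_le_mul_of_nonneg_right h4 h5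
    have h5 : C3 * (1 + y / R ^ 2) ≤ C3 * 2 := mul_le_mul_of_nonneg_left (by linarith) hC3.le
    have h6 : BG u (Gs w (((j : ℝ) - i) * w)) R (t + i * w) =
        Qs u w R (t + i * w) - Qs u w R (t + j * w) := by
      rw [hQI.2 u hG.le1 w (((j : ℝ) - i) * w) R (t + i * w) hw0 ha0 hR1, h2]
    rw [h6] at h1
    rw [← hℓ] at hCt
    have h7 : C3 * (2 * (C1 * (2 * (α * ℓ) + 1))) = 4 * C1 * C3 * α * ℓ + 2 * C1 * C3 := by ring
    have h8 : 4 * C1 * C3 * α * ℓ ≤ η / 2 * ℓ := mul_le_mul_of_nonneg_right hαC hℓ0.le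
    rw [h7] at h3
    linarith
  -- the measures
  have hxw : ∀ i ∈ Finset.range (n + 1), 0 ≤ (i : ℝ) * w ∧ (i : ℝ) * w ≤ h := by
    intro i hi
    refine ⟨by positivity, ?_⟩
    have h1 : (i : ℝ) ≤ n := by
      have := Finset.mem_range.1 hi
      exact_mod_cast Nat.lt_succ_iff.1 this
    exact (mul_le_mul_of_nonneg_right h1 hw0.le).trans hnw
  have hBm : ∀ i ∈ Finset.range (n + 1),
      volume {t : ℝ | T ≤ t ∧ t ≤ 2 * T ∧ α * ℓ < |BG u (Mw w) R (t + i * w)|} ≤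
        ENNReal.ofReal (T * L ^ (-3 : ℝ)) := fun i hi => hM' _ (hxw i hi).1 (hxw i hi).2
  have hL3' : L ^ (-3 : ℝ) = 1 / L ^ 3 := by
    rw [Real.rpow_neg hLpos.le, one_div]
    congr 1
    exact_mod_cast Real.rpow_natCast L 3
  rw [hL3'] at hBm
  have hIB : 0 ≤ T * (1 / L ^ 3) := by positivity
  calc volume {t : ℝ | T ≤ t ∧ t ≤ 2 * T ∧ ∃ i j : ℕ, i < j ∧ ((j : ℝ) - i) * w ≤ 3 / 4 ∧ j * w ≤ h ∧
      η * Real.log L < |XG G (Gs w ((j - i) * w)) T (t + i * w) +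
        (Qs u w R (t + i * w) - Qs u w R (t + j * w))|}
      ≤ (ENNReal.ofReal (2 * y) + ENNReal.ofReal (2 * y + 2)) + ∑ i ∈ Finset.range (n + 1),
          ENNReal.ofReal (T * (1 / L ^ 3)) := by
        refine (measure_mono hsub).trans ((measure_union_le _ _).trans (add_le_add ?_ ?_))
        · refine (measure_union_le _ _).trans (le_of_eq ?_)
          rw [Real.volume_Icc, Real.volume_Icc]
          congr 2 <;> ring
        · exact (measure_biUnion_finset_le _ _).trans (Finset.sum_le_sum fun i hi => hBm i hi)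
    _ = ENNReal.ofReal (2 * y + (2 * y + 2) + ((n + 1 : ℕ) : ℝ) * (T * (1 / L ^ 3))) := by
        rw [Finset.sum_const, Finset.card_range, nsmul_eq_mul,
          ← ENNReal.ofReal_natCast, ← ENNReal.ofReal_mul (Nat.cast_nonneg _),
          ← ENNReal.ofReal_add (by positivity) (by positivity),
          ← ENNReal.ofReal_add (by positivity) (by positivity)]
    _ ≤ ENNReal.ofReal (e * T) := by
        refine ENNReal.ofReal_le_ofReal ?_
        have hN1 : ((n + 1 : ℕ) : ℝ) ≤ L := by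
          push_cast
          exact hnx
        have h1 : ((n + 1 : ℕ) : ℝ) * (T * (1 / L ^ 3)) ≤ L * (T * (1 / L ^ 3)) :=
          mul_le_mul_of_nonneg_right hN1 hIB
        have h2 : L * (T * (1 / L ^ 3)) = T * (1 / L ^ 2) := by
          field_simp
        have h3 : 1 / L ^ 2 ≤ 2 / L := by
          rw [div_le_div_iff₀ (by positivity) hLpos]
          nlinarith
        have h4 : T * (1 / L ^ 2) ≤ T * (e / 2) := mul_le_mul_of_nonneg_left (h3.trans p6) hT0.le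
        rw [h2] at h1
        linarith

end Pool.Agent.H203.HX
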