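import Pool.Agent.H203.HX.ALLH2
import Pool.Agent.H203.HX.ALLH3
import Pool.Agent.H203.HX.FIN7
import Pool.Agent.H203.HX.UQS
import Pool.Agent.H203.HX.UMS
import Pool.Agent.H203.HX.UQT
import Pool.Agent.H203.HX.QLN
import Pool.Agent.H203.HX.UZT
import Pool.Agent.H203.HX.UGT

set_option autoImplicit false

/-! The leaves of project HX5 put together. -/

open Complex Filter Topology Set MeasureTheory

namespace Pool.Agent.H203.HX

open Pool.Agent.H203.GE (Lf)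

theorem p_UQS : S_UQS := t_UQS t_MP t_PH p_CB
theorem p_UMS : S_UMS := t_UMS t_MP
theorem p_UQT : S_UQT := t_UQT t_MP t_PH p_CB
theorem p_QLN : S_QLN := t_QLN t_PH
theorem p_UZT : S_UZT := t_UZT p_NB p_ER p_QI p_UMS

theorem main7 (k : ℕ) (q : Fin k → ℕ) (hq : ∀ j, NeZero (q j)) (χ : (j : Fin k) → DirichletCharacter ℂ (q j))
    (hχ : ∀ j, (χ j).IsPrimitive) (hd : ∀ i j, i ≠ j → ∃ n : ℕ, χ i n ≠ χ j n) (c : Fin k → ℝ) (hc : ∑ j, (c j) ^ 2 = 1)
    (hRH : ∀ j, OnLine (@DirichletCharacter.LFunction (q j) (hq j) (χ j)))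
    (h : ℝ → ℝ) (hh : ∀ᶠ T in atTop, 0 < h T ∧ h T ≤ 1) (hL : Tendsto (fun T => h T * Real.log T) atTop atTop)
    (ε : ℝ) (hε : 0 < ε) :
    Tendsto (fun T : ℝ => volume (Ub3 (fun j => @DirichletCharacter.LFunction (q j) (hq j) (χ j)) c T (h T)
      ((2 / Real.pi + ε) * Real.log (h T * Real.log T))) / ENNReal.ofReal T) atTop (𝓝 0) :=
  jsharp p_UQT p_QLN p_UQS p_UZT t_UGT (fun j => @DirichletCharacter.LFunction (q j) (hq j) (χ j)) (fun j (n : ℕ) => χ j n)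
    (fun j => @GE.t_LFX (q j) (hq j) (χ j) (hχ j)) hRH c (p_CBU k q hq χ hχ hd c hc) h hh hL ε hε

end Pool.Agent.H203.HX
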