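import Pool.Agent.H203.GE.Defs4

set_option autoImplicit false

/-! Large discrepancies of the zeros in almost all short intervals, without RH (project HX): definitions and statements of the parts.

Notation: `L = h log T` (large, `0 < h ≤ 1/2`), `ℓ = log L`, `w = L^δ / log T` (smoothing), `R = L^{-δ/2} log T` (bandwidth). -/

open Complex Filter Topology Set MeasureTheory

namespace Pool.Agent.H203.HX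

open Pool.Agent.H203.ME (ee gR WR cR om FF KF C2c w1)
open Pool.Agent.H203.GE (Lf ZG XG BG NWG)

/-- the smooth step `10 c³ - 15 c⁴ + 6 c⁵`, `c = max 0 (min y 1)`, the primitive of `30 s² (1 - s)²` on `[0,1]` -/
noncomputable def Ps (y : ℝ) : ℝ := 10 * (max 0 (min y 1)) ^ 3 - 15 * (max 0 (min y 1)) ^ 4 + 6 * (max 0 (min y 1)) ^ 5

/-- the smoothed indicator function of `[0, a]` (edges of width `w`) -/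
noncomputable def Gs (w a y : ℝ) : ℝ := Ps (y / w) - Ps ((y - a) / w)

/-- the transform of the edge -/
noncomputable def ph (ξ : ℝ) : ℂ := ∫ s in (0 : ℝ)..1, ((30 * s ^ 2 * (1 - s) ^ 2 : ℝ) : ℂ) * cexp (-(((ξ * s : ℝ) : ℂ) * I))

/-- majorant of `w1 (y/w)` near `0`, supported in `[-1, 1]` -/
noncomputable def Mw (w y : ℝ) : ℝ := w1 (y / w) * Pool.Agent.H203.ME.LLNL.bu (-1) 1 (1 / 2) y

open Classical in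
/-- the contribution of the zeros at distance more than `1 / R` from the critical line (compare `GE.PFG`) -/
noncomputable def PR (G : ℂ → ℂ) (T w R t : ℝ) : ℝ :=
  ∑ s ∈ (H370.Zf G T (2 * T)).filter (fun s => 1 < R * |s.re - 1 / 2|),
    (H370.mult G s : ℝ) * (w1 ((s.im - t) / w) * (((s.re - 1 / 2) / w) ^ 2 * Real.exp (R * |s.re - 1 / 2|)))

/-- the prime side of the (smoothed) argument: `BG u (Gs w a) R t = Qs u w R t - Qs u w R (t + a)` -/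
noncomputable def Qs (u : ℕ → ℂ) (w R t : ℝ) : ℝ := 2 / Real.sqrt (2 * Real.pi) *
  (∑' n : ℕ, ((ArithmeticFunction.vonMangoldt n / (Real.sqrt n * Real.log n) * cR R (Real.log n) : ℝ) : ℂ) *
    (-I * ph (w * Real.log n)) * (u n * ee n t)).re

/-- the primes with `lo < log p ≤ hi` -/
noncomputable def PB (lo hi : ℝ) : Finset ℕ := by
  classical
  exact (Finset.Icc 1 ⌊Real.exp hi⌋₊).filter fun p => p.Prime ∧ lo < Real.log p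

/-- the part of the argument coming from these primes -/
noncomputable def Yb (u : ℕ → ℂ) (lo hi t : ℝ) : ℝ := 1 / Real.pi * (∑ p ∈ PB lo hi, u p * ee p t / (Real.sqrt p : ℂ)).im

/-- the boundaries of the blocks: `h⁻¹ L^{δ + jκ}` -/
noncomputable def eb (h L δ κ : ℝ) (j : ℕ) : ℝ := h⁻¹ * L ^ (δ + j * κ)

/-- its variance and its covariances -/
noncomputable def Vb (lo hi τ : ℝ) : ℝ := 1 / (2 * Real.pi ^ 2) * ∑ p ∈ PB lo hi, Real.cos (τ * Real.log p) / p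

/-- `E exp(-c/2 ((X-a)² + (X'-a)²))` for centred Gaussian variables with variance `V` and covariance `ρ` -/
noncomputable def P2 (c a V ρ : ℝ) : ℝ :=
  Real.exp (-(c * a ^ 2 / (1 + c * (V + ρ)))) / Real.sqrt ((1 + c * V) ^ 2 - (c * ρ) ^ 2)

/-- unimodular coefficients at the large primes -/
def Um (u : ℕ → ℂ) : Prop := ∃ p0 : ℕ, ∀ p : ℕ, p.Prime → p0 ≤ p → ‖u p‖ = 1

/-! ### the zeros -/

/-- (KS) kernel bounds for `Gs`.  Compare ME/KPT.lean (`ME.t_KPT`), `ME.t_KER`, `ME.t_OM`, ME/L1A.lean, ME/L1B.lean.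
`Ps` is `C²` with bounded `Ps', Ps''` supported in `[0,1]`.  (a) `KF x - F x = ∫ (F(x-v) - F(x) + v F'(x)) WR(v) dv + (om R - 1) F(x)`, the
bracket is `∫_0^v (v-τ) F''(x-τ) dτ`, `F''` lives on the two edges `[0,w]`, `[a,a+w]` and `∫ |F''| ≤ C/w` on each; if `x` has distance
`d ≥ w` from an edge, this edge contributes `≤ (C/w) ∫_{|v| ≥ d} |v| C R/(1+(Rv)⁴) dv ≤ C (wR)⁻³ (w/d)²`; if `d ≤ w` it contributes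
`≤ C w⁻² ∫ v² |WR v| dv ≤ C/(wR)²`.  `|(om R - 1) F x| ≤ C/R² 1_{[0,1]}(x)`.  (b) as in KPT (b), edge by edge:
`∫ |F''(s)| R/(1+(R(x-s))⁴) ds ≤ C w⁻² w1(x/w)` for the edge at `0`. -/
def S_KS : Prop := ∃ C : ℝ, 0 < C ∧ ∀ w R a : ℝ, 0 < w → 1 ≤ w * R → 0 ≤ a → a + w ≤ 1 → C2c (Gs w a) ∧ ∀ x : ℝ,
  ‖KF (Gs w a) R (x : ℂ) - Gs w a x‖ ≤ C / (w * R) ^ 2 * (w1 (x / w) + w1 ((x - a) / w)) + C / R ^ 2 * w1 x ∧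
  ∀ y : ℝ, |y| ≤ 1 / 2 →
    ‖KF (Gs w a) R ((x : ℂ) + (y : ℂ) * I) + KF (Gs w a) R ((x : ℂ) - (y : ℂ) * I) - 2 * KF (Gs w a) R (x : ℂ)‖ ≤
      C * (y / w) ^ 2 * Real.exp (R * |y|) * (w1 (x / w) + w1 ((x - a) / w))

/-- (KM) kernel bounds for the majorant.  `|M| ≤ w1(x/w)`, `|M'| ≤ (C/w) w1(x/w)` (more precisely `C w²/|x|³` for `|x| ≥ w`),
`|M''| ≤ (C/w²) w1(x/w)`.  (a) for `|v| ≤ |x|/2` Taylor with the bound of `M''` near `x`; for `|v| > |x|/2`, `|x| ≥ w`, use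
`|M(x-v)| + |M(x)| + |v M'(x)|` and `∫_{|v| ≥ |x|/2} |M(x-v)| |WR v| dv ≤ C R (R|x|)⁻⁴ w ≤ C (Rx)⁻²`, etc. (`wR ≥ 1`).
(b) `∫ w1(s/w) R/(1+(R(x-s))⁴) ds ≤ C w1(x/w)`. -/
def S_KM : Prop := ∃ C : ℝ, 0 < C ∧ ∀ w R : ℝ, 0 < w → w ≤ 1 → 1 ≤ w * R → C2c (Mw w) ∧ (∫ x : ℝ, |Mw w x|) ≤ C * w ∧ ∀ x : ℝ,
  ‖KF (Mw w) R (x : ℂ) - Mw w x‖ ≤ C / (w * R) ^ 2 * w1 (x / w) ∧
  ∀ y : ℝ, |y| ≤ 1 / 2 →
    ‖KF (Mw w) R ((x : ℂ) + (y : ℂ) * I) + KF (Mw w) R ((x : ℂ) - (y : ℂ) * I) - 2 * KF (Mw w) R (x : ℂ)‖ ≤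
      C * (y / w) ^ 2 * Real.exp (R * |y|) * w1 (x / w)

/-- (NB) pointwise bound for the weighted count.
Proof.  `GE.S_PTH` for `Mw w` with (KM): `∑ m M(γ-t) ≤ (log T/2π) ∫ M + |BG| + (C + C e)/(wR)² NWG + C PR + C (1 + log T/R²) ∫ M` (zeros with
`R|y| ≤ 1`: `(y/w)² e^{R|y|} ≤ e/(wR)²`), `log T/R² · w ≤ w³ log T ≤ 1`; `NWG ≤ ∑ m M(γ-t) + ∑_{|γ-t| ≥ 1/2} m (w/(γ-t))²
≤ ∑ m M + C w² log T` (`H370.zcount`, compare NCG.lean); for `wR ≥ C` the `NWG` on the right is absorbed. -/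
def S_NB : Prop := ∀ (G : ℂ → ℂ) (u : ℕ → ℂ), Lf G u → ∃ C T0 : ℝ, 1 ≤ C ∧ 10 ≤ T0 ∧ ∀ T : ℝ, T0 ≤ T → ∀ w R : ℝ, 0 < w →
  w ^ 2 * Real.log T ≤ 1 → C ≤ w * R → R ≤ Real.log T → ∀ t ∈ Icc (T + 2 * Real.log T) (2 * T - 2 * Real.log T),
    NWG G T w t ≤ C * (w * Real.log T + |BG u (Mw w) R t| + PR G T w R t + 1)

/-- (PB) the mean of `PR`.  `∫ w1((γ-t)/w) dt ≤ π w`; `y² e^{R|y|} ≤ y² e^{log T |y|/4} e^{-(log T/8)|y|}` and `|y| > 1/R`; `Lf.dens` with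
`U1 = T`, `U2 = 2T` (compare FAG.lean). -/
def S_PB : Prop := ∀ (G : ℂ → ℂ) (u : ℕ → ℂ), Lf G u → ∃ C T0 : ℝ, 0 < C ∧ 10 ≤ T0 ∧ ∀ T : ℝ, T0 ≤ T → ∀ w R : ℝ, 0 < w →
  0 < R → R ≤ Real.log T / 8 → ∀ V1 V2 : ℝ, V1 ≤ V2 →
    ∫ t in V1..V2, PR G T w R t ≤ C * T / (w * Real.log T) * Real.exp (-(Real.log T / (8 * R)))

/-- (ER) the error of the approximate formula for the smoothed counts.  `GE.S_PTH` for `Gs w a` with (KS); the zeros with `R|y| ≤ 1` have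
`(y/w)² e^{R|y|} ≤ e/(wR)²`; `∑ m w1(γ-t) = NWG G T 1 t ≤ C log T` (`GE.S_NCG`); `∫ |Gs| ≤ 1`. -/
def S_ER : Prop := ∀ (G : ℂ → ℂ) (u : ℕ → ℂ), Lf G u → ∃ C T0 : ℝ, 0 < C ∧ 10 ≤ T0 ∧ ∀ T : ℝ, T0 ≤ T → ∀ w R a : ℝ, 0 < w →
  1 ≤ w * R → R ≤ Real.log T → 0 ≤ a → a + w ≤ 1 → ∀ t ∈ Icc (T + 2 * Real.log T) (2 * T - 2 * Real.log T),
    |XG G (Gs w a) T t + BG u (Gs w a) R t| ≤ C / (w * R) ^ 2 * (NWG G T w t + NWG G T w (t + a)) +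
      C * (PR G T w R t + PR G T w R (t + a)) + C * (1 + Real.log T / R ^ 2)

/-- (ZE) for most `t` the formula holds with bounded error for all intervals with endpoints on the grid `t + i w`.
Proof.  `L = h log T`, `wR = L^{δ/2}`, `w log T = L^δ`, `w² log T = L^{2δ}/log T ≤ 1`, `log T/R² = L^δ/log T ≤ 1`.  Let `t' = t + i w`, `i w ≤ h`;
by (ER) it is enough that for all these at most `L + 1` points `PR(t') ≤ 1` and `NWG(t') ≤ C (wR)² = C L^δ`, and by (NB) that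
`PR(t') ≤ 1` and `|BG u (Mw w) R t'| ≤ L^δ`.  By (PB) and Markov `PR > 1` has measure `≤ C T L^{-δ} exp(-L^{δ/2}/8)`.  The even moments of
`BG u (Mw w) R` of each order `2m` are bounded by `C_m T` (as `GE.S_BMG`; `Mw w` is not of the form `f(x/h)`, but
`‖FF (Mw w) ξ‖ ≤ C min(w, 1/(w ξ²))` is all that its proof uses; `R ≤ log T/(64(m+1))` for large `L`), so `|BG| > L^δ` has measure
`≤ C_m T L^{-2mδ}`; take `m ≥ 2/δ` and sum over the points.  The edges `[T, T + 2 log T + 1]`, `[2T - 2 log T - 1, 2T]` are of measure `≤ εT/4`. -/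
def S_ZE : Prop := ∀ (G : ℂ → ℂ) (u : ℕ → ℂ), Lf G u → ∀ δ : ℝ, 0 < δ → δ < 1 / 8 → ∃ C : ℝ, ∀ ε : ℝ, 0 < ε → ∃ L0 : ℝ, 1 ≤ L0 ∧
  ∀ T h w R : ℝ, 1 < T → 0 < h → h ≤ 1 / 2 → L0 ≤ h * Real.log T → w = (h * Real.log T) ^ δ / Real.log T →
    R = (h * Real.log T) ^ (-(δ / 2)) * Real.log T →
    volume {t : ℝ | T ≤ t ∧ t ≤ 2 * T ∧ ∃ i j : ℕ, i < j ∧ j * w ≤ h ∧
      C < |XG G (Gs w ((j - i) * w)) T (t + i * w) + BG u (Gs w ((j - i) * w)) R (t + i * w)|} ≤ ENNReal.ofReal (ε * T)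

/-- (ZM) the moments used in (ZE).  Copy GE/BMG.lean (S_BMG) for `Mw w` instead of `f(x/h)` (`w = h`). -/
def S_ZM : Prop := ∀ m : ℕ, ∃ C K T0 : ℝ, 0 < C ∧ 1 ≤ K ∧ 10 ≤ T0 ∧ ∀ T : ℝ, T0 ≤ T → ∀ u : ℕ → ℂ, (∀ n, ‖u n‖ ≤ 1) → ∀ w R : ℝ,
  0 < w → w ≤ 1 / K → 1 ≤ w * R → R ≤ Real.log T / (64 * (m + 1)) → ∫ t in T..(2 * T), (BG u (Mw w) R t) ^ (2 * m) ≤ C * T

/-- (LC) from smoothed to sharp counts.  `Ps y = ∫_0^1 30 s²(1-s)² [s < y] ds`, so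
`∑ m Gs w a (γ - t) = ∫_0^1 30 s²(1-s)² #{γ : t + ws < γ ≤ t + ws + a} ds` (up to finitely many `s`), `∫ Gs w a = a`.  (The zeros concerned are
finitely many: `H370.Zf`, compare `XF_eq`/`XG` in APX.lean.) -/
def S_LC : Prop := ∀ (G : ℂ → ℂ) (u : ℕ → ℂ), Lf G u → ∀ T t w a c : ℝ, 3 ≤ t → 0 < w → 0 ≤ a → a + w ≤ 1 →
  (c < XG G (Gs w a) T t → ∃ s : ℝ, 0 ≤ s ∧ s ≤ w ∧ c < (H370.NN G (t + s) (t + s + a) : ℝ) - a * Real.log T / (2 * Real.pi)) ∧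
  (XG G (Gs w a) T t < c → ∃ s : ℝ, 0 ≤ s ∧ s ≤ w ∧ (H370.NN G (t + s) (t + s + a) : ℝ) - a * Real.log T / (2 * Real.pi) < c)

/-! ### the primes -/

/-- (PH) the transform of the edge: `∫ 30 s²(1-s)² = 1`, two integrations by parts. -/
def S_PH : Prop := Continuous ph ∧ (∀ ξ : ℝ, ‖ph ξ‖ ≤ 1) ∧ (∀ ξ : ℝ, ‖ph ξ - 1‖ ≤ |ξ|) ∧ (∃ C : ℝ, ∀ ξ : ℝ, ‖ph ξ‖ ≤ C / (1 + ξ ^ 2))

/-- (QI) `FF (Gs w a) ξ = (1 - e^{-iξa}) (-i/ξ) ph(wξ)` for `ξ ≠ 0`. -/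
def S_QI : Prop := (∀ w a ξ : ℝ, 0 < w → 0 ≤ a → ξ ≠ 0 →
    FF (Gs w a) ξ = (1 - cexp (-(((ξ * a : ℝ) : ℂ) * I))) * (-I / ξ) * ph (w * ξ)) ∧
  ∀ (u : ℕ → ℂ), (∀ n, ‖u n‖ ≤ 1) → ∀ w a R t : ℝ, 0 < w → 0 ≤ a → 1 ≤ R →
    BG u (Gs w a) R t = Qs u w R t - Qs u w R (t + a)

/-- (QC) quantitative central limit theorem.
Proof.  `Y = Re ∑ b p p^{-it}`, `S = ∑ ‖b p‖²`.  As in ME/CLT.lean from `ME.S_MOM` (`ME.t_MOM`), with `m = ⌈(log L)^{2A+2}⌉` terms: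
`|e^{iY} - ∑_{k<2m} (iY)^k/k!| ≤ Y^{2m}/(2m)!`; by (MOM) the mean of `Y^{2q}` is `(2q)!/(q! 4^q) S^q` and that of `Y^{2q+1}` is `0`, up to errors
`≤ (4m)! (1+S)^{2m} (θ² + N^{8m}/T)`, `θ ≤ exp(-L^δ/4)`, `N^{8m} ≤ T^{1/2}`; `∑_{q ≥ m} (S/4)^q/q!` is tiny since `m ≥ S²`. -/
def S_QC : Prop := ∀ (A δ : ℝ), 0 < A → 0 < δ → δ < 1 → ∃ L0 : ℝ, 3 ≤ L0 ∧ ∀ T L : ℝ, 1 < T → L0 ≤ L → L ≤ Real.log T →
  ∀ (N : ℕ) (b : ℕ → ℂ), (N : ℝ) ≤ Real.exp (L ^ (-δ) * Real.log T) → (∀ p, ‖b p‖ ≤ Real.exp (-(L ^ δ / 4))) →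
    ∑ p ∈ (Finset.Icc 1 N).filter Nat.Prime, ‖b p‖ ^ 2 ≤ (Real.log L) ^ A →
    ‖(1 / T : ℂ) * (∫ t in T..(2 * T), cexp (I * ((∑ p ∈ (Finset.Icc 1 N).filter Nat.Prime, b p * ee p t).re : ℂ))) -
      cexp (-((∑ p ∈ (Finset.Icc 1 N).filter Nat.Prime, ‖b p‖ ^ 2 : ℝ) : ℂ) / 4)‖ ≤ L ^ (-A)

/-- (OS) the oscillating Mertens sums, uniformly for small shifts.
Proof.  `∑_{m ≤ y} m^{-1-iτ} = ζ(1+iτ) - y^{-iτ}/(iτ) + O(1/y)` and `∑_{n ≤ x} n^{-1-iτ} log n = - x^{-iτ} log x/(iτ) + O(1/τ²)` uniformly for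
`0 < τ ≤ 1`; `log n = ∑_{d | n} Λ(d)`: `∑_{d ≤ x} Λ(d) d^{-1-iτ} (ζ(1+iτ) - (x/d)^{-iτ}/(iτ)) = -x^{-iτ} log x/(iτ) + O(1/τ²)`, and
`x^{-iτ}/(iτ) ∑_{d ≤ x} Λ(d)/d = x^{-iτ} log x/(iτ) + O(1/τ)` by Mertens; `|ζ(1+iτ)| ≥ c/τ` for `0 < τ ≤ 1`.  (Compare GE/MRT.lean, which
has it for fixed `τ`.) -/
def S_OS : Prop := ∃ C : ℝ, 0 < C ∧ ∀ τ : ℝ, 0 < τ → τ ≤ 1 → ∀ N : ℕ,
  ‖∑ n ∈ Finset.Icc 1 N, ((ArithmeticFunction.vonMangoldt n / n : ℝ) : ℂ) * ee n τ‖ ≤ C / τ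

/-- (CB) variance and covariances of the blocks.  Mertens (`H370.nt_mertens_upper`, `H370.nt_mertens_lower`, prime powers are negligible)
and summation by parts with `1/log p`; for `τ > 0` from (OS). -/
def S_CB : Prop := ∃ C : ℝ, 0 < C ∧ ∀ lo hi : ℝ, 1 ≤ lo → lo ≤ hi →
  |∑ p ∈ PB lo hi, 1 / (p : ℝ) - Real.log (hi / lo)| ≤ C / lo ∧
  ∀ τ : ℝ, 0 < τ → τ ≤ 1 → |∑ p ∈ PB lo hi, Real.cos (τ * Real.log p) / p| ≤ C / (τ * lo)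

/-- (G2) the two-dimensional Gaussian integral. -/
def S_G2 : Prop := ∀ c a V ρ : ℝ, 0 < c → 0 ≤ V → |ρ| ≤ V →
  ∫ v : ℝ × ℝ, (1 / (2 * Real.pi * c) : ℝ) * (cexp (-((((v.1 ^ 2 + v.2 ^ 2) / (2 * c) : ℝ) : ℂ))) *
    cexp (-(((a * (v.1 + v.2) : ℝ) : ℂ) * I)) *
    cexp (-(((V * v.1 ^ 2 + V * v.2 ^ 2 + 2 * ρ * v.1 * v.2) / 2 : ℝ) : ℂ))) = (P2 c a V ρ : ℂ)

/-- (FI) Fourier inversion for products of Gaussian weights.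
Proof.  `exp(-c(y-a)²/2) = ∫ (2πc)^{-1/2} e^{-v²/(2c)} e^{iv(y-a)} dv`; multiply over the `2K` coordinates, exchange the integrals; on
`max |v| ≤ U` use the hypothesis, outside the two characteristic functions are at most `1` and the Gaussian tail is at most
`4K e^{-U²/4}` (as `c ≤ 1`); the integral of the product is `∏ P2` by (G2) and `integral_fintype_prod_volume_eq_prod`. -/
def S_FI : Prop := ∀ (Ω : Type) [MeasurableSpace Ω] (P : Measure Ω) [IsProbabilityMeasure P] (K : ℕ) (X Y : Fin K → Ω → ℝ)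
  (c V ρ : Fin K → ℝ) (a η U : ℝ), (∀ j, Measurable (X j)) → (∀ j, Measurable (Y j)) → (∀ j, 0 < c j) → (∀ j, c j ≤ 1) →
  (∀ j, |ρ j| ≤ V j) → 0 ≤ η → 1 ≤ U →
  (∀ v : Fin K → ℝ × ℝ, (∀ j, |(v j).1| ≤ U ∧ |(v j).2| ≤ U) →
    ‖(∫ ω, cexp (I * ((∑ j, ((v j).1 * X j ω + (v j).2 * Y j ω) : ℝ) : ℂ)) ∂P) -
      cexp (-(((∑ j, (V j * (v j).1 ^ 2 + V j * (v j).2 ^ 2 + 2 * ρ j * (v j).1 * (v j).2)) / 2 : ℝ) : ℂ))‖ ≤ η) →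
  |(∫ ω, ∏ j, Real.exp (-(c j / 2 * ((X j ω - a) ^ 2 + (Y j ω - a) ^ 2))) ∂P) - ∏ j, P2 (c j) a (V j) (ρ j)| ≤
    η + 8 * K * Real.exp (-(U ^ 2 / 4))

/-- (EP) the expectations of the products of the weights.
Proof.  (FI) with `P` the uniform measure on `[T, 2T]`, `U = log L`, and (QC) for
`b p = (1/π) (-i) u p (v_j.1 p^{-ix} + v_j.2 p^{-i z_j}) / √p`, `p` in the block `j` (`log p > L^δ`, so `‖b p‖ ≤ exp(-L^δ/4)` and `‖u p‖ = 1`):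
`∑ ‖b p‖² = (1/π²) ∑_j ∑_p (v.1² + v.2² + 2 v.1 v.2 cos((x - z_j) log p))/p`; it is at most `(log L)^4` by (CB); `N = ⌊exp(eb K)⌋`,
`eb K = h⁻¹ L^{1-2δ} = L^{-2δ} log T`. -/
def S_EP : Prop := ∀ u : ℕ → ℂ, (∀ n, ‖u n‖ ≤ 1) → Um u → ∀ (K : ℕ) (A δ : ℝ), 0 < K → 0 < A → 0 < δ → δ < 1 / 8 →
  ∃ L0 : ℝ, 3 ≤ L0 ∧ ∀ T h L κ a : ℝ, 1 < T → 0 < h → h ≤ 1 / 2 → L = h * Real.log T → L0 ≤ L → κ = (1 - 3 * δ) / K →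
    |a| ≤ Real.log L → ∀ (x : ℝ) (z c : Fin K → ℝ), (∀ j, c j = 1 / 2 ∨ c j = 1) →
    |(1 / T * ∫ t in T..(2 * T), ∏ j : Fin K, Real.exp (-(c j / 2 *
        ((Yb u (eb h L δ κ j) (eb h L δ κ (j + 1)) (t + x) - a) ^ 2 +
          (Yb u (eb h L δ κ j) (eb h L δ κ (j + 1)) (t + z j) - a) ^ 2)))) -
      ∏ j : Fin K, P2 (c j) a (Vb (eb h L δ κ j) (eb h L δ κ (j + 1)) 0) (Vb (eb h L δ κ j) (eb h L δ κ (j + 1)) (x - z j))| ≤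
      L ^ (-A)

/-- the weight of the point `x`: all the increments are close to `a` -/
noncomputable def Wt (u : ℕ → ℂ) (h L δ κ : ℝ) (K : ℕ) (a t : ℝ) : ℝ :=
  ∏ j : Fin K, Real.exp (-((Yb u (eb h L δ κ j) (eb h L δ κ (j + 1)) t - a) ^ 2 / 2))

/-- the expected weight (`P2 (1/2) a V V = exp(-a²/(2(1+V)))/√(1+V)`) -/
noncomputable def Ew (h L δ κ : ℝ) (K : ℕ) (a : ℝ) : ℝ :=
  ∏ j : Fin K, P2 (1 / 2) a (Vb (eb h L δ κ j) (eb h L δ κ (j + 1)) 0) (Vb (eb h L δ κ j) (eb h L δ κ (j + 1)) 0)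

/-- (SM) first and second moment of the total weight of `n + 1` points with spacing `w = L^δ/log T` (so `n w ≤ h`),
`a = ± (1-ε) κ log L/π`.
Proof.  (EP) with `z_j = x`, `c_j = 1/2` for all `j` gives the first moment, `Ew ≥ L^{-(1-ε)²(1-3δ)} (log L)^{-K}` by (CB)
(`V_j = κ log L/(2π²) + O(1)`), so the error `L^{-A}`, `A = 4`, is negligible.  Pairs `x ≠ x'`, `τ = |x - x'|`, with margin `η = δ/4` and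
`κ ≤ δ/4` (hypothesis on `K`): if `τ ≥ h L^{-δ+η}` then `τ eb_j ≥ L^η` for all `j`, all `|ρ_j| ≤ C L^{-η}` by (CB), and
`P2 1 a V ρ ≤ (1 + C L^{-η}) (P2 (1/2) a V V)²` (as `|a| ≤ C (1+V)`; note `(P2 (1/2) a V V)² = exp(-a²/(1+V))/(1+V)`).  If
`h L^{-δ-iκ+η} ≤ τ < h L^{-δ-(i-1)κ+η}`, `1 ≤ i ≤ K`, take `z_j = x'`, `c_j = 1` for `j ≥ i` and `z_j = x`, `c_j = 1/2` for `j < i` (dropping
factors `≤ 1` of `x'`): the expectation is at most `2 Ew² ∏_{j<i} p_j^{-1} ≤ Ew² L^{(1-ε)² iκ} (log L)^K·C`, and the proportion of such pairs is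
`≤ C L^{-δ-(i-1)κ+η}`; the pairs with `τ < h L^{-δ-Kκ+η}` (and `x = x'`): all `j` dropped, expectation `2 Ew = 2 Ew² Ew^{-1}`, proportion
`≤ C L^{-δ-Kκ+η} + 1/n`; `n ≥ c L^{1-δ}`, `Ew^{-1} ≤ L^{(1-ε)²(1-3δ)} (log L)^K`.  All these sums are `o(Ew²)`. -/
def S_SM : Prop := ∀ u : ℕ → ℂ, (∀ n, ‖u n‖ ≤ 1) → Um u → ∀ (K : ℕ) (ε δ : ℝ), 0 < ε → ε < 1 → 0 < δ → δ < 1 / 8 → 4 / δ ≤ K →
  ∀ η : ℝ, 0 < η → ∃ L0 : ℝ, 3 ≤ L0 ∧ ∀ (T h L κ w a : ℝ) (n : ℕ), 1 < T → 0 < h → h ≤ 1 / 2 → L = h * Real.log T → L0 ≤ L →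
    κ = (1 - 3 * δ) / K → w = L ^ δ / Real.log T → |a| = (1 - ε) * κ * Real.log L / Real.pi → n = ⌊h / (4 * w)⌋₊ →
    0 < Ew h L δ κ K a ∧ L ^ (-(1 - ε / 2)) ≤ Ew h L δ κ K a ∧
    1 / T * ∫ t in T..(2 * T), (∑ i ∈ Finset.range (n + 1), Wt u h L δ κ K a (t + i * w) - (n + 1) * Ew h L δ κ K a) ^ 2 ≤
      η * ((n + 1) * Ew h L δ κ K a) ^ 2

/-- (HP) high points.
Proof.  Choose `K ≥ 4/δ`.  By (SM) and Chebyshev, outside a set of measure `4ηT`, `∑_i Wt ≥ (n+1) Ew/2 ≥ (n+1) L^{-(1-ε/2)}/2 > (n+1) e^{-w₀²/2}` for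
`w₀ = 2 √(log L)`, so some `i` has `Wt > e^{-w₀²/2}`, hence `|Y_j - a| ≤ w₀` for all `j`, and with `a = σ (1-ε) κ log L/π`
`σ ∑_j Y_j ≥ (1-ε)(1-3δ) log L/π - K w₀`; `∑_j Yb(eb j, eb (j+1)) = Yb(eb 0, eb K)` (disjoint blocks), `eb 0 = h⁻¹ L^δ`, `eb K = h⁻¹ L^{1-2δ}`. -/
def S_HP : Prop := ∀ u : ℕ → ℂ, (∀ n, ‖u n‖ ≤ 1) → Um u → ∀ ε : ℝ, 0 < ε → ∃ δ0 : ℝ, 0 < δ0 ∧ ∀ δ : ℝ, 0 < δ → δ < δ0 →
  ∀ η : ℝ, 0 < η → ∃ L0 : ℝ, 3 ≤ L0 ∧ ∀ T h L w σ : ℝ, 1 < T → 0 < h → h ≤ 1 / 2 → L = h * Real.log T → L0 ≤ L →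
    w = L ^ δ / Real.log T → (σ = 1 ∨ σ = -1) →
    volume {t : ℝ | T ≤ t ∧ t ≤ 2 * T ∧ ∀ i : ℕ, i * w ≤ h / 4 →
      σ * Yb u (h⁻¹ * L ^ δ) (h⁻¹ * L ^ (1 - 2 * δ)) (t + i * w) < (1 / Real.pi - ε) * Real.log L} ≤ ENNReal.ofReal (η * T)

/-- (MP) high moments of prime polynomials, from `ME.S_MOM` (`ME.t_MOM`) with `j = l = m`. -/
def S_MP : Prop := ∀ (m N : ℕ) (a : ℕ → ℂ) (T : ℝ), 1 ≤ m → 1 ≤ N → 1 ≤ T → (∀ p : ℕ, ‖a p‖ ≤ 1) → (N : ℝ) ^ (4 * m) ≤ T →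
  ∫ t in T..(2 * T), ‖∑ p ∈ (Finset.Icc 1 N).filter Nat.Prime, a p * ee p t‖ ^ (2 * m) ≤
    4 * (m.factorial : ℝ) * m ^ 2 * (1 + ∑ p ∈ (Finset.Icc 1 N).filter Nat.Prime, ‖a p‖ ^ 2) ^ m * T

/-- (RS) the rest is small at each pair of points with overwhelming probability.
Proof.  Write `D` for the difference.  The coefficient of `n^{-it}` in `Qs(t+x) - Qs(t+x')` is `kap(log n) Λ(n)/(√n log n) (-i) ph(w log n) u(n)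
(n^{-ix} - n^{-ix'})`, `0 ≤ kap = 2/√(2π) cR R ≤ 1` (in fact `≤ 1/π`; see PRM.lean for `kap`, `cR_tail`: `cR R x ≤ R e^{-x²/8}` for `x ≥ 2R`, and
`|kap x - 1/π| ≤ C (e^{-x²/2} + (1+x²)/R²)`).
(i) `n > e^{4R}`: sum of absolute values `≤ 1`; (ii) `n = p^k`, `k ≥ 3`: `≤ C`; (iii) `n = p²`: coefficients `≤ 1/p`, `∑ ≤ C`, phase `p^{-2it}` (the
mean over `[T,2T]` at frequency `2t` is the one over `[2T,4T]` at frequency `t`, two applications of (MP));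
(iv) `n = p ≤ e^{4R}` together with the `Yb`: `a_p = (-i) u_p p^{-1/2} (kap ph(w log p) - (1/π)[p in the block]) (p^{-ix} - p^{-ix'})`.  With
`y = log p`: for `y ≤ h⁻¹ L^δ` `|p^{-ix} - p^{-ix'}| ≤ min(2, h y)`, so `∑ ‖a_p‖² ≤ C + 4 log(L^δ)`; in the block
`|kap ph - 1/π| ≤ C (e^{-y²/2} + (1+y²)/R² + w y) ≤ C L^{-δ} + C e^{-y²/2}`; for `y > h⁻¹ L^{1-2δ} = L^{-2δ} log T`, `‖ph(wy)‖ ≤ C/(1+(wy)²)` and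
`∑_{y > L^{-2δ} log T} p^{-1} min(1, (wy)^{-4}) ≤ C + δ log L`.  In all `S = ∑ ‖a_p‖² ≤ C₁ (1 + δ log L)`.
(MP) with `m = ⌈8 log L⌉`, `N = ⌊e^{4R}⌋`: `N^{4m} ≤ exp(16 R m) ≤ T`; Markov: the measure where the polynomial exceeds `ε log L/4` is at most
`4 m² (16 m (1+S)/(ε log L)²)^m T ≤ T L^{-4}` if `δ ≤ c ε²` and `L` is large; the same for the squares. -/
def S_RS : Prop := ∀ u : ℕ → ℂ, (∀ n, ‖u n‖ ≤ 1) → ∀ ε : ℝ, 0 < ε → ∃ δ0 : ℝ, 0 < δ0 ∧ ∀ δ : ℝ, 0 < δ → δ < δ0 →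
  ∃ L0 : ℝ, 3 ≤ L0 ∧ ∀ T h L w R : ℝ, 1 < T → 0 < h → h ≤ 1 / 2 → L = h * Real.log T → L0 ≤ L → w = L ^ δ / Real.log T →
    R = L ^ (-(δ / 2)) * Real.log T → ∀ x x' : ℝ, 0 ≤ x → x ≤ h → 0 ≤ x' → x' ≤ h →
    volume {t : ℝ | T ≤ t ∧ t ≤ 2 * T ∧ ε * Real.log L < |(Qs u w R (t + x) - Qs u w R (t + x')) -
      (Yb u (h⁻¹ * L ^ δ) (h⁻¹ * L ^ (1 - 2 * δ)) (t + x) - Yb u (h⁻¹ * L ^ δ) (h⁻¹ * L ^ (1 - 2 * δ)) (t + x'))|} ≤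
      ENNReal.ofReal (T * L ^ (-3 : ℝ))

end Pool.Agent.H203.HX
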