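import Pool.Agent.H203.HX.Defs

set_option autoImplicit false

/-! Large discrepancies of the zeros of several L-functions at once (second part of project HX): definitions and statements. -/

open Complex Filter Topology Set MeasureTheory

namespace Pool.Agent.H203.HX

open Pool.Agent.H203.ME (ee gR WR cR om FF KF C2c w1)
open Pool.Agent.H203.GE (Lf ZG XG BG NWG)

/-- coefficients whose squares are `1` in mean at the primes (in place of `Um`; compare `S_CB`) -/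
def CBu (u : ℕ → ℂ) : Prop := ∃ C : ℝ, 0 < C ∧ ∀ lo hi : ℝ, 1 ≤ lo → lo ≤ hi →
  |∑ p ∈ PB lo hi, ‖u p‖ ^ 2 / (p : ℝ) - Real.log (hi / lo)| ≤ C / lo ∧
  ∀ τ : ℝ, 0 < τ → τ ≤ 1 → |∑ p ∈ PB lo hi, ‖u p‖ ^ 2 * Real.cos (τ * Real.log p) / p| ≤ C / (τ * lo)

/-- the variance and the covariances of the blocks of `Yb u` (compare `Vb`) -/
noncomputable def Vu (u : ℕ → ℂ) (lo hi τ : ℝ) : ℝ :=
  1 / (2 * Real.pi ^ 2) * ∑ p ∈ PB lo hi, ‖u p‖ ^ 2 * Real.cos (τ * Real.log p) / p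

/-- (ORT) nonprincipal characters: block sums are `O(1/lo)`, uniformly in the shift.
Proof.  GE/MRT.lean (`GE.MRTL.main` or the like, `caseA`) gives `∑_{n ≤ N} Λ(n) ψ(n) n^{-1-iτ} = O(1)` for fixed `τ`; here it is needed
uniformly for `|τ| ≤ 1`: `∑_{d ≤ x} Λ(d) ψ(d) d^{-1-iτ} (L(1+iτ,ψ) + O(d/x)) = ∑_{n ≤ x} ψ(n) (log n) n^{-1-iτ} = O(1)`,
`|L(1+iτ,ψ)| ≥ c > 0` on the compact set `|τ| ≤ 1` (continuity, `DirichletCharacter.LFunction_ne_zero_of_one_le_re`), Chebyshev.  Then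
prime powers (`∑_{p^k, k ≥ 2, log p^k > lo} ... ≤ C/lo`) and summation by parts with `1/log p`, as in HX/CB.lean (`t_CB`). -/
def S_ORT : Prop := ∀ (q : ℕ) [NeZero q] (ψ : DirichletCharacter ℂ q), ψ ≠ 1 → ∃ C : ℝ, 0 < C ∧ ∀ lo hi : ℝ, 1 ≤ lo → lo ≤ hi →
  ∀ τ : ℝ, |τ| ≤ 1 → ‖∑ p ∈ PB lo hi, ψ p * ee p τ / p‖ ≤ C / lo

/-- (CBU) linear combinations of distinct primitive characters.
Proof.  `‖∑ c_j χ_j(p)‖² = ∑ c_j² |χ_j(p)|² + ∑_{i ≠ j} c_i c_j χ_i(p) conj χ_j(p)`; `|χ_j(p)| = 1` except for finitely many `p`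
(`≤ q_j`; their contribution to a block with `lo` large is `0`, and for small `lo` it is `≤ C ≤ C'/lo`); the first sum by (CB); for `i ≠ j`
`χ_i(n) conj χ_j(n) = ψ(n)` with `ψ` modulo `q_i q_j`, `ψ ≠ 1` (see `psi_apply`, `prim_eq` in GE/MRT.lean), and (ORT) for `± τ`. -/
def S_CBU : Prop := ∀ (k : ℕ) (q : Fin k → ℕ) (hq : ∀ j, NeZero (q j)) (χ : (j : Fin k) → DirichletCharacter ℂ (q j)),
  (∀ j, (χ j).IsPrimitive) → (∀ i j, i ≠ j → ∃ n : ℕ, χ i n ≠ χ j n) → ∀ c : Fin k → ℝ, ∑ j, (c j) ^ 2 = 1 →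
    CBu (fun n : ℕ => ∑ j, (c j : ℂ) * χ j n)

/-- (EPU) as `S_EP` (HX/EP.lean, `t_EP`), with `Um u`, `‖u n‖ ≤ 1` replaced by `CBu u`, `‖u n‖ ≤ B`, and `Vb` by `Vu u`. -/
def S_EPU : Prop := ∀ (u : ℕ → ℂ) (B : ℝ), (∀ n, ‖u n‖ ≤ B) → CBu u → ∀ (K : ℕ) (A δ : ℝ), 0 < K → 0 < A → 0 < δ → δ < 1 / 8 →
  ∃ L0 : ℝ, 3 ≤ L0 ∧ ∀ T h L κ a : ℝ, 1 < T → 0 < h → h ≤ 1 / 2 → L = h * Real.log T → L0 ≤ L → κ = (1 - 3 * δ) / K →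
    |a| ≤ Real.log L → ∀ (x : ℝ) (z c : Fin K → ℝ), (∀ j, c j = 1 / 2 ∨ c j = 1) →
    |(1 / T * ∫ t in T..(2 * T), ∏ j : Fin K, Real.exp (-(c j / 2 *
        ((Yb u (eb h L δ κ j) (eb h L δ κ (j + 1)) (t + x) - a) ^ 2 +
          (Yb u (eb h L δ κ j) (eb h L δ κ (j + 1)) (t + z j) - a) ^ 2)))) -
      ∏ j : Fin K, P2 (c j) a (Vu u (eb h L δ κ j) (eb h L δ κ (j + 1)) 0) (Vu u (eb h L δ κ j) (eb h L δ κ (j + 1)) (x - z j))| ≤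
      L ^ (-A)

/-- the expected weight -/
noncomputable def Ewu (u : ℕ → ℂ) (h L δ κ : ℝ) (K : ℕ) (a : ℝ) : ℝ :=
  ∏ j : Fin K, P2 (1 / 2) a (Vu u (eb h L δ κ j) (eb h L δ κ (j + 1)) 0) (Vu u (eb h L δ κ j) (eb h L δ κ (j + 1)) 0)

/-- (SMU) as `S_SM` (HX/SM.lean, `t_SM`), in the same way. -/
def S_SMU : Prop := ∀ (u : ℕ → ℂ) (B : ℝ), (∀ n, ‖u n‖ ≤ B) → CBu u → ∀ (K : ℕ) (ε δ : ℝ), 0 < ε → ε < 1 → 0 < δ → δ < 1 / 8 →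
  4 / δ ≤ K → ∀ η : ℝ, 0 < η → ∃ L0 : ℝ, 3 ≤ L0 ∧ ∀ (T h L κ w a : ℝ) (n : ℕ), 1 < T → 0 < h → h ≤ 1 / 2 → L = h * Real.log T →
    L0 ≤ L → κ = (1 - 3 * δ) / K → w = L ^ δ / Real.log T → |a| = (1 - ε) * κ * Real.log L / Real.pi → n = ⌊h / (4 * w)⌋₊ →
    0 < Ewu u h L δ κ K a ∧ L ^ (-(1 - ε / 2)) ≤ Ewu u h L δ κ K a ∧
    1 / T * ∫ t in T..(2 * T), (∑ i ∈ Finset.range (n + 1), Wt u h L δ κ K a (t + i * w) - (n + 1) * Ewu u h L δ κ K a) ^ 2 ≤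
      η * ((n + 1) * Ewu u h L δ κ K a) ^ 2

/-- (HPU) as `S_HP` (HX/HP.lean, `t_HP`), in the same way. -/
def S_HPU : Prop := ∀ (u : ℕ → ℂ) (B : ℝ), (∀ n, ‖u n‖ ≤ B) → CBu u → ∀ ε : ℝ, 0 < ε → ∃ δ0 : ℝ, 0 < δ0 ∧ ∀ δ : ℝ, 0 < δ → δ < δ0 →
  ∀ η : ℝ, 0 < η → ∃ L0 : ℝ, 3 ≤ L0 ∧ ∀ T h L w σ : ℝ, 1 < T → 0 < h → h ≤ 1 / 2 → L = h * Real.log T → L0 ≤ L →
    w = L ^ δ / Real.log T → (σ = 1 ∨ σ = -1) →
    volume {t : ℝ | T ≤ t ∧ t ≤ 2 * T ∧ ∀ i : ℕ, i * w ≤ h / 4 →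
      σ * Yb u (h⁻¹ * L ^ δ) (h⁻¹ * L ^ (1 - 2 * δ)) (t + i * w) < (1 / Real.pi - ε) * Real.log L} ≤ ENNReal.ofReal (η * T)

/-- (LCU) from smoothed to sharp counts, for linear combinations.
Proof.  As (LC): `∑ m Gs w a (γ - t) = ∫_0^1 30 s²(1-s)² #{γ : t + ws < γ ≤ t + ws + a} ds` for each `G j` (see HX/LC.lean), so the linear
combination of the `XG` is the average over `s` of the linear combination of the sharp discrepancies. -/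
def S_LCU : Prop := ∀ (k : ℕ) (G : Fin k → ℂ → ℂ) (u : Fin k → ℕ → ℂ) (e : Fin k → ℝ), (∀ j, Lf (G j) (u j)) → ∀ T t w a c : ℝ, 3 ≤ t →
  0 < w → 0 ≤ a → a + w ≤ 1 → c < ∑ j, e j * XG (G j) (Gs w a) T t →
  ∃ s : ℝ, 0 ≤ s ∧ s ≤ w ∧ c < ∑ j, e j * ((H370.NN (G j) (t + s) (t + s + a) : ℝ) - a * Real.log T / (2 * Real.pi))

end Pool.Agent.H203.HX
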