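import Pool.Agent.H203.HX.Defs

set_option autoImplicit false

/-! Upper bounds for the discrepancies in almost all short intervals (third part of project HX): statements.

Notation: `L = h log T`, `ℓ = log L`, `w = A ℓ / log T` (smoothing), `R = log T / (64 ℓ)` (bandwidth), `A ≥ 64` a large constant. -/

open Complex Filter Topology Set MeasureTheory

namespace Pool.Agent.H203.HX

open Pool.Agent.H203.ME (ee gR WR cR om FF KF C2c w1)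
open Pool.Agent.H203.GE (Lf ZG XG BG NWG)

/-- (UQ) the prime side is `O(log L)` with overwhelming probability.
Proof.  As (RS) (HX/RS.lean), simpler.  The coefficient of `n^{-it}` in `Qs(t+x) - Qs(t+x')` is
`kap(log n) Λ(n)/(√n log n) (-i) ph(w log n) u(n) (n^{-ix} - n^{-ix'})`, `0 ≤ kap = 2/√(2π) cR R ≤ 1`; (i) `n > e^{4R}`: sum of absolute values `≤ 1`
(`cR R x ≤ R e^{-x²/8}` for `x ≥ 2R`); (ii) `n = p^k`, `k ≥ 3`: `≤ C`; (iii) `n = p²`: coefficients `≤ 1/p`, the mean over `[T,2T]` at frequency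
`2t` is the one over `[2T,4T]` at frequency `t`; (iv) `n = p ≤ e^{4R}`: with `y = log p`, `‖a_p‖² ≤ min(4, (h y)²)/p`, so
`S = ∑ ‖a_p‖² ≤ C + 4 log(4 R h) ≤ C (1 + ℓ)` by (CB) or Mertens.  (MP) with `m = ⌈2ℓ⌉`, `N = ⌊e^{4R}⌋`, `N^{4m} ≤ exp(16 R m) ≤ T`; Markov: the
measure where the polynomial exceeds `C1 ℓ/4` is at most `4 m² (16 m (1+S)/(C1 ℓ)²)^m T ≤ T L^{-4}` if `C1` is large. -/
def S_UQ : Prop := ∀ u : ℕ → ℂ, (∀ n, ‖u n‖ ≤ 1) → ∀ A : ℝ, 64 ≤ A → ∃ C1 L0 : ℝ, 0 < C1 ∧ 3 ≤ L0 ∧ ∀ T h L w R : ℝ, 1 < T →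
  0 < h → h ≤ 1 / 2 → L = h * Real.log T → L0 ≤ L → w = A * Real.log L / Real.log T → R = Real.log T / (64 * Real.log L) →
    ∀ x x' : ℝ, 0 ≤ x → x ≤ h → 0 ≤ x' → x' ≤ h →
    volume {t : ℝ | T ≤ t ∧ t ≤ 2 * T ∧ C1 * Real.log L < |Qs u w R (t + x) - Qs u w R (t + x')|} ≤
      ENNReal.ofReal (T * L ^ (-3 : ℝ))

/-- (UM) the same for the majorant.
Proof.  As (UQ), with `‖FF (Mw w) ξ‖ ≤ C min(w, 1/(w ξ²))` (`ZML.FF_Mw` in HX/ZM.lean: `‖FF (Mw w) ξ‖ ≤ bp c w ξ`); the coefficients at the primes satisfy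
`∑ ‖a_p‖² ≤ C ∑ (log p)²/p min(w², 1/(w² log⁴ p)) ≤ C`, and `‖a_p‖ ≤ C`, normalise. -/
def S_UM : Prop := ∀ u : ℕ → ℂ, (∀ n, ‖u n‖ ≤ 1) → ∀ A : ℝ, 64 ≤ A → ∃ C1 L0 : ℝ, 0 < C1 ∧ 3 ≤ L0 ∧ ∀ T h L w R : ℝ, 1 < T →
  0 < h → h ≤ 1 / 2 → L = h * Real.log T → L0 ≤ L → w = A * Real.log L / Real.log T → R = Real.log T / (64 * Real.log L) →
    ∀ x : ℝ, 0 ≤ x → x ≤ h →
    volume {t : ℝ | T ≤ t ∧ t ≤ 2 * T ∧ C1 * Real.log L < |BG u (Mw w) R (t + x)|} ≤ ENNReal.ofReal (T * L ^ (-3 : ℝ))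

/-- (UZ) for most `t` all the smoothed discrepancies on the grid are `O(log L)`.
Proof.  As (ZE) (HX/ZE.lean).  Let `A = 64 max(1, C_NB)`, so `wR = A/64 ≥ C_NB`, `w² log T ≤ 1` and `log T/R² = 64² ℓ²/log T ≤ 1` for large `L` (`L ≤ log T`).  At
most `h/w + 1 ≤ L` points `t' = t + i w`.  By (PB) and Markov `PR(t') > 1` has measure `≤ C T L^{-8}`; by (UM) `|BG u (Mw w) R t'| ≤ C1 ℓ` outside
`T L^{-3}`; then (NB) gives `NWG(t') ≤ C ℓ` and (ER) `|XG + BG| ≤ C ℓ`; by (QI) `BG u (Gs w a) R t' = Qs(t') - Qs(t' + a)` and (UQ) for the at most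
`L²` pairs.  The edges `[T, T + 2 log T + 1]`, `[2T - 2 log T - 1, 2T]` are of measure `≤ εT/4`. -/
def S_UZ : Prop := ∀ (G : ℂ → ℂ) (u : ℕ → ℂ), Lf G u → ∃ A C : ℝ, 64 ≤ A ∧ 0 < C ∧ ∀ ε : ℝ, 0 < ε → ∃ L0 : ℝ, 3 ≤ L0 ∧
  ∀ T h L w : ℝ, 1 < T → 0 < h → h ≤ 1 / 2 → L = h * Real.log T → L0 ≤ L → w = A * Real.log L / Real.log T →
    volume {t : ℝ | T ≤ t ∧ t ≤ 2 * T ∧ ∃ i j : ℕ, i < j ∧ j * w ≤ h ∧
      C * Real.log L < |XG G (Gs w ((j - i) * w)) T (t + i * w)|} ≤ ENNReal.ofReal (ε * T)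

/-- (UG) from the smoothed discrepancies on the grid to all intervals (deterministic).
Proof.  `0 ≤ Gs w a ≤ 1`, `Gs w a = 1` on `[w, a]`, `= 0` outside `[0, a + w]`, `∫ Gs w a = a`, so (with `D = (log T)/2π`)
`NN(t' + w, t' + a) ≤ ∑ m Gs w a (γ - t') ≤ NN(t', t' + a + w)`.  Upper bound for `(t+x, t+y]`, `2w ≤ x < y ≤ h - 3w`: `i = ⌊x/w⌋ - 1`, `j = ⌈y/w⌉ + 1`,
`i w + w ≤ x`, `j w ≥ y + w`... so `NN(t+x, t+y) ≤ XG + (j-i) w D ≤ B + (y - x) D + 4 w D`.  Lower bound: if `y - x ≥ 4w`, `i = ⌈x/w⌉`,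
`j = ⌊y/w⌋ - 1`: `NN(t+x, t+y) ≥ XG + (j-i) w D ≥ -B + (y-x) D - 4 w D`; if `y - x < 4w` trivially `≥ 0 ≥ (y-x) D - 4 w D`. -/
def S_UG : Prop := ∀ (G : ℂ → ℂ) (u : ℕ → ℂ), Lf G u → ∀ T t h w B : ℝ, 1 < T → 3 ≤ t → 0 < w → h + w ≤ 1 → 0 ≤ B →
  (∀ i j : ℕ, i < j → j * w ≤ h → |XG G (Gs w ((j - i) * w)) T (t + i * w)| ≤ B) →
  ∀ x y : ℝ, 2 * w ≤ x → x < y → y ≤ h - 3 * w →
    |(H370.NN G (t + x) (t + y) : ℝ) - (y - x) * Real.log T / (2 * Real.pi)| ≤ B + 4 * w * Real.log T / (2 * Real.pi)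

end Pool.Agent.H203.HX
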