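import Pool.Agent.H203.HX.Defs3

set_option autoImplicit false

/-! Sharp upper bounds for the discrepancies when the zeros are on the line (fourth part of project HX): statements.

Notation: `L = h log T`, `ℓ = log L`, `w = α ℓ / log T` (smoothing, `α` small), `R = κ / w` (bandwidth, `κ` large constant), `h ≤ 5/4`. -/

open Complex Filter Topology Set MeasureTheory

namespace Pool.Agent.H203.HX

open Pool.Agent.H203.ME (ee gR WR cR om FF KF C2c w1)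
open Pool.Agent.H203.GE (Lf ZG XG BG NWG)

/-- all the zeros in the critical strip are on the critical line -/
def OnLine (G : ℂ → ℂ) : Prop := ∀ s : ℂ, G s = 0 → 0 < s.re → s.re < 1 → s.re = 1 / 2

/-- (UQS) the prime side with the sharp constant.
Proof.  As (UQ) (HX/UQ.lean; Qs_diff, kap_le_pi, markov, moment1, moment2, sum_small in HX/RS.lean).  The coefficient of `p^{-it}` in
`Qs(t+x) - Qs(t+x')` is `a_p = kap(log p) p^{-1/2} (-i) ph(w log p) u(p) (p^{-ix} - p^{-ix'})`, `0 ≤ kap ≤ 1/π`, `‖ph‖ ≤ 1`, so with `τ = |x-x'|`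
`‖a_p‖² ≤ (1/π²) 2(1 - cos(τ log p))/p` and also `≤ (1/π²) (τ log p)²/p`.
(A) primes with `log p ≤ y1 = log T/(28 ℓ)`: `∑ ‖a_p‖² ≤ (2/π²)(ℓ + C)`: for `log p ≤ 1/τ` use `(τ log p)²/p` (sum `≤ C`), for
`1/τ < log p ≤ y1` (CB): `∑ 2(1 - cos)/p ≤ 2 log(y1 τ) + C` and `y1 τ ≤ L` (this is where `τ ≤ 1` is used).  (MP) with `N = ⌊e^{y1}⌋`,
`V = (2/π + ε/2) ℓ`, `S' = (2/π²)(ℓ + C') ≥ 1 + S`, `m = ⌈V²/S'⌉ ≤ 7ℓ` (so `N^{4m} ≤ T`), `m! ≤ e m (m/e)^m`: the measure where the polynomial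
exceeds `V` is `≤ 4 m² e m (m S'/(e V²))^m T ≤ C m³ e^{-m} T`, `m ≥ V²/S' ≥ (2 + π ε) ℓ - C''`, so it is `≤ T L^{-(2+ε)}/4` for large `L`.
(B) primes with `y1 < log p ≤ 4R`: `∑ ‖a_p‖² ≤ (4/π²)(log(4R/y1) + C) = C(α, κ)`; (MP) with `N = ⌊e^{4R}⌋`, `m = ⌊log T/(16R)⌋ = ⌊α ℓ/(16 κ)⌋`:
the measure where it exceeds `ε ℓ/8` is `≤ 4 m² (64 m (1+C)/(ε ℓ)²)^m T ≤ T (C/ℓ)^{cℓ} ≤ T L^{-4}` for large `L`.
(C) squares of primes: the same, coefficients `≤ 1/p`, frequency `2t` (moment2).  (D) the rest is `≤ C` (Qs_diff / rest_le).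
Second part: `|x - x'| ≤ 20 w`: all primes `log p ≤ 4R` together have `∑ ‖a_p‖² ≤ C ∑ min(4, (20 w log p)²)/p ≤ C(κ)`, then as in (B). -/
def S_UQS : Prop := ∀ u : ℕ → ℂ, (∀ n, ‖u n‖ ≤ 1) → ∀ ε α κ : ℝ, 0 < ε → ε ≤ 1 → 0 < α → 1 ≤ κ → ∃ L0 : ℝ, 3 ≤ L0 ∧
  ∀ T h L w R : ℝ, 1 < T → 0 < h → h ≤ 5 / 4 → L = h * Real.log T → L0 ≤ L → w = α * Real.log L / Real.log T → R = κ / w →
    ∀ x x' : ℝ, 0 ≤ x → x ≤ h → 0 ≤ x' → x' ≤ h →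
      (|x - x'| ≤ 1 →
        volume {t : ℝ | T ≤ t ∧ t ≤ 2 * T ∧ (2 / Real.pi + ε) * Real.log L < |Qs u w R (t + x) - Qs u w R (t + x')|} ≤
          ENNReal.ofReal (T * L ^ (-(2 + ε)))) ∧
      (|x - x'| ≤ 20 * w →
        volume {t : ℝ | T ≤ t ∧ t ≤ 2 * T ∧ ε * Real.log L < |Qs u w R (t + x) - Qs u w R (t + x')|} ≤
          ENNReal.ofReal (T * L ^ (-3 : ℝ)))

/-- (UMS) the majorant at one point.
Proof.  As (UM) (HX/UM.lean), with `m = ⌊log T/(16R)⌋ = ⌊α ℓ/(16 κ)⌋` instead of `m ≍ ℓ`: the sum of the squares of the coefficients at the primes is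
`≤ C`, so the measure is `≤ 4 m² (C m/(η ℓ)²)^m T ≤ T (C/ℓ)^{cℓ} ≤ T L^{-3}` for large `L`. -/
def S_UMS : Prop := ∀ u : ℕ → ℂ, (∀ n, ‖u n‖ ≤ 1) → ∀ η α κ : ℝ, 0 < η → 0 < α → 1 ≤ κ → ∃ L0 : ℝ, 3 ≤ L0 ∧
  ∀ T h L w R : ℝ, 1 < T → 0 < h → h ≤ 5 / 4 → L = h * Real.log T → L0 ≤ L → w = α * Real.log L / Real.log T → R = κ / w →
    ∀ x : ℝ, 0 ≤ x → x ≤ h →
      volume {t : ℝ | T ≤ t ∧ t ≤ 2 * T ∧ η * Real.log L < |BG u (Mw w) R (t + x)|} ≤ ENNReal.ofReal (T * L ^ (-3 : ℝ))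

/-- (UZS) all the zeros on the line: the approximate formula with error `η ℓ` for all the intervals of the grid of length at most `3/4`.
Proof.  As (UZ) (HX/UZ.lean), `PR = 0` (the filter in its definition is empty).  `κ = max 1 C_NB` (so `wR = κ ≥ C_NB`), `α` small
(`α ≤ η`).  For large `L`: `w² log T ≤ 1`, `R = κ log T/(α ℓ) ≤ log T`, `log T/R² = w² log T/κ² ≤ 1`.  Outside the sets of (UMS) (with `η' = α`, at the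
at most `h/w + 1 ≤ L` points `t' = t + i w`) (NB) gives `NWG(t') ≤ C_NB (α ℓ + α ℓ + 1)`, and (ER) with `a = (j - i) w ≤ 3/4`:
`|XG + BG| ≤ C/κ² · 2 C_NB (2 α ℓ + 1) + 2C ≤ η ℓ` if `α` is small depending on `η`, `C`, `C_NB` and `L` is large; (QI) `BG u (Gs w a) R t' =
Qs(t') - Qs(t' + a)`, `t' + a = t + j w`.  The edges `[T, T + 2 log T + 2]`, `[2T - 2 log T - 2, 2T]` are of measure `≤ e T/4`. -/
def S_UZS : Prop := ∀ (G : ℂ → ℂ) (u : ℕ → ℂ), Lf G u → OnLine G → ∀ η : ℝ, 0 < η → ∃ α κ : ℝ, 0 < α ∧ α ≤ η ∧ 1 ≤ κ ∧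
  ∀ e : ℝ, 0 < e → ∃ L0 : ℝ, 3 ≤ L0 ∧ ∀ T h L w R : ℝ, 1 < T → 0 < h → h ≤ 5 / 4 → L = h * Real.log T → L0 ≤ L →
    w = α * Real.log L / Real.log T → R = κ / w →
    volume {t : ℝ | T ≤ t ∧ t ≤ 2 * T ∧ ∃ i j : ℕ, i < j ∧ ((j : ℝ) - i) * w ≤ 3 / 4 ∧ j * w ≤ h ∧
      η * Real.log L < |XG G (Gs w ((j - i) * w)) T (t + i * w) + (Qs u w R (t + i * w) - Qs u w R (t + j * w))|} ≤
        ENNReal.ofReal (e * T)

/-- (UGS) from the grid to all intervals (deterministic), sharp form.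
Proof.  Compare HX/UG.lean (t_UG).  `D = log T/2π`.  For `y - x ≤ 1/2 + w`: upper bound with `i = ⌊x/w⌋ - 1`, `j = ⌈y/w⌉ + 1`:
`NN(t+x, t+y) ≤ XG + (j-i) w D ≤ -(Q_i - Q_j) + E + (y-x) D + 4 w D`; lower bound, if `y - x ≥ 4w`, with `i = ⌈x/w⌉`, `j = ⌊y/w⌋ - 1`:
`NN ≥ XG + (j-i) w D ≥ -(Q_i - Q_j) - E + (y-x) D - 4 w D`; if `y - x < 4w` trivially `NN ≥ 0`.  For longer intervals cut at `z = k w`,
`k = ⌊(x+y)/(2w)⌋` (`H370.NN_add`), both pieces are `≤ 1/2 + w`; upper bound: the sum of the two is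
`-(Q_i - Q_{k+1}) - (Q_{k-1} - Q_j) = -(Q_i - Q_j) + (Q_{k+1} - Q_{k-1})`, the last bracket is `≤ E`; `|Q_i - Q_j| ≤ B` if `(j-i) w ≤ 1`, and otherwise
`(j-i) w ≤ 1 + 4w` and `|Q_i - Q_j| ≤ |Q_i - Q_{j-5}| + |Q_{j-5} - Q_j| ≤ B + E`.  The lower bound in the same way. -/
def S_UGS : Prop := ∀ (G : ℂ → ℂ) (u : ℕ → ℂ), Lf G u → ∀ (Q : ℝ → ℝ) (T t h w B E : ℝ), 1 < T → 3 ≤ t → 0 < w → 100 * w ≤ 1 →
  h ≤ 5 / 4 → 0 ≤ B → 0 ≤ E →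
  (∀ i j : ℕ, i < j → ((j : ℝ) - i) * w ≤ 3 / 4 → j * w ≤ h →
    |XG G (Gs w ((j - i) * w)) T (t + i * w) + (Q (t + i * w) - Q (t + j * w))| ≤ E) →
  (∀ i j : ℕ, i < j → ((j : ℝ) - i) * w ≤ 1 → j * w ≤ h → |Q (t + i * w) - Q (t + j * w)| ≤ B) →
  (∀ i j : ℕ, i < j → j ≤ i + 20 → j * w ≤ h → |Q (t + i * w) - Q (t + j * w)| ≤ E) →
  ∀ x y : ℝ, 2 * w ≤ x → x < y → y - x ≤ 1 → y ≤ h - 3 * w →
    |(H370.NN G (t + x) (t + y) : ℝ) - (y - x) * Real.log T / (2 * Real.pi)| ≤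
      B + 8 * E + 30 * w * Real.log T / (2 * Real.pi)

end Pool.Agent.H203.HX
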