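import Pool.Agent.H203.HX.Defs2
import Pool.Agent.H203.HX.Defs4

set_option autoImplicit false

/-! Sharp upper bounds for weighted sums of the discrepancies of several L-functions (fifth part of project HX): statements. -/

open Complex Filter Topology Set MeasureTheory

namespace Pool.Agent.H203.HX

open Pool.Agent.H203.ME (ee gR WR cR om FF KF C2c w1)
open Pool.Agent.H203.GE (Lf ZG XG BG NWG)

/-- (UQT) the first part of (UQS) for bounded coefficients whose squares are `1` in mean at the primes.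
Proof.  As (UQS) (HX/UQS.lean).  Now `‖a_p‖² ≤ (1/π²) ‖u p‖² 2(1 - cos(τ log p))/p`, and in (A) the sum of these is `≤ (2/π²)(ℓ + C)` by `CBu u`
instead of (CB) (for `log p ≤ 1/τ` use `‖u p‖ ≤ M`).  (MP) needs `‖a_p‖ ≤ 1`, which holds for `p > M²`; the primes `p ≤ M² + 1` contribute at most
a constant `C(M)` (each term is `≤ 2M`) and are split off.  Parts (B), (C), (D): divide by `max 1 M`, i.e. apply the computations of UQS.lean to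
`u / max 1 M` with the threshold `ε/(8 max 1 M)`. -/
def S_UQT : Prop := ∀ (u : ℕ → ℂ) (M : ℝ), (∀ n, ‖u n‖ ≤ M) → CBu u → ∀ ε α κ : ℝ, 0 < ε → ε ≤ 1 → 0 < α → 1 ≤ κ →
  ∃ L0 : ℝ, 3 ≤ L0 ∧
  ∀ T h L w R : ℝ, 1 < T → 0 < h → h ≤ 5 / 4 → L = h * Real.log T → L0 ≤ L → w = α * Real.log L / Real.log T → R = κ / w →
    ∀ x x' : ℝ, 0 ≤ x → x ≤ h → 0 ≤ x' → x' ≤ h → |x - x'| ≤ 1 →
        volume {t : ℝ | T ≤ t ∧ t ≤ 2 * T ∧ (2 / Real.pi + ε) * Real.log L < |Qs u w R (t + x) - Qs u w R (t + x')|} ≤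
          ENNReal.ofReal (T * L ^ (-(2 + ε)))

/-- (QLN) linearity of the prime side (the series converges absolutely: `cR R x ≤ R e^{-x²/8}` for `x ≥ 2R`, `tail_real` in HX/RS.lean,
`‖ph‖ ≤ 1`). -/
def S_QLN : Prop := ∀ (k : ℕ) (u : Fin k → ℕ → ℂ) (c : Fin k → ℝ), (∀ j n, ‖u j n‖ ≤ 1) → ∀ w R t : ℝ, 16 ≤ R →
  Qs (fun n => ∑ j, (c j : ℂ) * u j n) w R t = ∑ j, c j * Qs (u j) w R t

/-- (UZT) as (UZS), for all small `α` and large `κ`.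
Proof.  As (UZS) (HX/UZS.lean): `κ ≥ κ0 = max 1 C_NB`, `α ≤ α0(η)`; `C/κ² ≤ C`; `R = κ/w ≤ log T` for large `L`. -/
def S_UZT : Prop := ∀ (G : ℂ → ℂ) (u : ℕ → ℂ), Lf G u → OnLine G → ∀ η : ℝ, 0 < η → ∃ α0 κ0 : ℝ, 0 < α0 ∧ 1 ≤ κ0 ∧
  ∀ α κ : ℝ, 0 < α → α ≤ α0 → κ0 ≤ κ →
  ∀ e : ℝ, 0 < e → ∃ L0 : ℝ, 3 ≤ L0 ∧ ∀ T h L w R : ℝ, 1 < T → 0 < h → h ≤ 5 / 4 → L = h * Real.log T → L0 ≤ L →
    w = α * Real.log L / Real.log T → R = κ / w →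
    volume {t : ℝ | T ≤ t ∧ t ≤ 2 * T ∧ ∃ i j : ℕ, i < j ∧ ((j : ℝ) - i) * w ≤ 3 / 4 ∧ j * w ≤ h ∧
      η * Real.log L < |XG G (Gs w ((j - i) * w)) T (t + i * w) + (Qs u w R (t + i * w) - Qs u w R (t + j * w))|} ≤
        ENNReal.ofReal (e * T)

/-- (UGT) from the grid to all intervals (deterministic), comparison with the prime side at common grid points.
Proof.  As (UGS) (HX/UGS.lean), without the bound `B`: the upper bound is `disc ≤ -(Q_i - Q_j) + 4E + 8wD` with `i = ⌊x/w⌋ - 1`, `j = ⌈y/w⌉ + 1`, the lower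
bound `disc ≥ -(Q_i - Q_j) - 4E - 8wD` with `i = ⌈x/w⌉`, `j = ⌊y/w⌋ - 1` if `y - x ≥ 4w`; then replace `i` by `⌊x/w⌋` and `j` by `⌊y/w⌋` (cost `2E`, third
hypothesis of (UGS)); if `y - x < 4w`: `disc ≥ -4wD` and `|Q_{⌊x/w⌋} - Q_{⌊y/w⌋}| ≤ E`. -/
def S_UGT : Prop := ∀ (G : ℂ → ℂ) (u : ℕ → ℂ), Lf G u → ∀ (Q : ℝ → ℝ) (T t h w E : ℝ), 1 < T → 3 ≤ t → 0 < w → 100 * w ≤ 1 →
  h ≤ 5 / 4 → 0 ≤ E →
  (∀ i j : ℕ, i < j → ((j : ℝ) - i) * w ≤ 3 / 4 → j * w ≤ h →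
    |XG G (Gs w ((j - i) * w)) T (t + i * w) + (Q (t + i * w) - Q (t + j * w))| ≤ E) →
  (∀ i j : ℕ, i < j → j ≤ i + 20 → j * w ≤ h → |Q (t + i * w) - Q (t + j * w)| ≤ E) →
  ∀ x y : ℝ, 2 * w ≤ x → x < y → y - x ≤ 1 → y ≤ h - 3 * w →
    |(H370.NN G (t + x) (t + y) : ℝ) - (y - x) * Real.log T / (2 * Real.pi) +
      (Q (t + (⌊x / w⌋₊ : ℕ) * w) - Q (t + (⌊y / w⌋₊ : ℕ) * w))| ≤ 20 * E + 30 * w * Real.log T / (2 * Real.pi)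

end Pool.Agent.H203.HX
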