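import Pool.Agent.H203.HX.Defs

set_option autoImplicit false

/-! Assembly of project HX. -/

open Complex Filter Topology Set MeasureTheory

namespace Pool.Agent.H203.HX

open Pool.Agent.H203.ME (ee gR WR cR om FF KF C2c w1)
open Pool.Agent.H203.GE (Lf ZG XG BG NWG)

/-- the `t` for which no subinterval of `(t, t + h]` has discrepancy `> c` in direction `σ` -/
def Bd (G : ℂ → ℂ) (σ T h c : ℝ) : Set ℝ := {t : ℝ | T ≤ t ∧ t ≤ 2 * T ∧ ∀ x y : ℝ, 0 ≤ x → x < y → y ≤ h →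
  σ * ((H370.NN G (t + x) (t + y) : ℝ) - (y - x) * Real.log T / (2 * Real.pi)) ≤ c}

theorem core (hZE : S_ZE) (hLC : S_LC) (hQI : S_QI) (hHP : S_HP) (hRS : S_RS) (G : ℂ → ℂ) (u : ℕ → ℂ) (hG : Lf G u)
    (hu : Um u) (ε η : ℝ) (hε : 0 < ε) (hη : 0 < η) : ∃ L0 : ℝ, 3 ≤ L0 ∧ ∀ T h σ : ℝ, 1 < T → 0 < h → h ≤ 1 / 2 →
      L0 ≤ h * Real.log T → (σ = 1 ∨ σ = -1) →
      volume (Bd G σ T h ((2 / Real.pi - ε) * Real.log (h * Real.log T))) ≤ ENNReal.ofReal (η * T) := by
  have hu1 : ∀ n, ‖u n‖ ≤ 1 := hG.le1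
  obtain ⟨δ1, hδ1, H1⟩ := hHP u hu1 hu (ε / 8) (by positivity)
  obtain ⟨δ2, hδ2, H2⟩ := hRS u hu1 (ε / 8) (by positivity)
  obtain ⟨δ, hδ, hδ1', hδ2', hδ8⟩ : ∃ δ : ℝ, 0 < δ ∧ δ < δ1 ∧ δ < δ2 ∧ δ < 1 / 8 := by
    refine ⟨min (min δ1 δ2) (1 / 8) / 2, ?_, ?_, ?_, ?_⟩
    · have : 0 < min (min δ1 δ2) (1 / 8) := lt_min (lt_min hδ1 hδ2) (by norm_num)
      linarith
    · have h1 : min (min δ1 δ2) (1 / 8) ≤ δ1 := (min_le_left _ _).trans (min_le_left _ _)
      have h0 : 0 < min (min δ1 δ2) (1 / 8) := lt_min (lt_min hδ1 hδ2) (by norm_num)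
      linarith
    · have h1 : min (min δ1 δ2) (1 / 8) ≤ δ2 := (min_le_left _ _).trans (min_le_right _ _)
      have h0 : 0 < min (min δ1 δ2) (1 / 8) := lt_min (lt_min hδ1 hδ2) (by norm_num)
      linarith
    · have h1 : min (min δ1 δ2) (1 / 8) ≤ 1 / 8 := min_le_right _ _
      have h0 : 0 < min (min δ1 δ2) (1 / 8) := lt_min (lt_min hδ1 hδ2) (by norm_num)
      linarith
  obtain ⟨C, HC⟩ := hZE G u hG δ hδ hδ8
  obtain ⟨L0a, hL0a, HZ⟩ := HC (η / 8) (by positivity)
  obtain ⟨L0b, hL0b, HH⟩ := H1 δ hδ hδ1' (η / 16) (by positivity)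
  obtain ⟨L0c, hL0c, HR⟩ := H2 δ hδ hδ2'
  -- largeness of `L`
  have hev : ∀ᶠ L : ℝ in atTop, L ^ δ / L ≤ 1 / 8 ∧ C < ε / 8 * Real.log L := by
    have e1 : ∀ᶠ L : ℝ in atTop, L ^ δ / L ≤ 1 / 8 := by
      have ht : Tendsto (fun L : ℝ => L ^ (-(1 - δ))) atTop (𝓝 0) := tendsto_rpow_neg_atTop (by linarith)
      filter_upwards [ht.eventually_le_const (show (0 : ℝ) < 1 / 8 by norm_num), eventually_gt_atTop 0] with L hL hL0
      have : L ^ δ / L = L ^ (-(1 - δ)) := by
        rw [show -(1 - δ) = δ - 1 by ring, Real.rpow_sub hL0, Real.rpow_one]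
      rw [this]; exact hL
    have e2 : ∀ᶠ L : ℝ in atTop, C < ε / 8 * Real.log L := by
      have ht : Tendsto (fun L : ℝ => ε / 8 * Real.log L) atTop atTop :=
        Real.tendsto_log_atTop.const_mul_atTop (by positivity)
      exact ht.eventually_gt_atTop C
    exact e1.and e2
  obtain ⟨L1, HL1⟩ := eventually_atTop.1 hev
  refine ⟨max (max (max L0a L0b) (max L0c L1)) (max (max 3 (16 / η)) (32 / η)), ?_, ?_⟩
  · exact (le_max_left _ _).trans ((le_max_left _ _).trans (le_max_right _ _))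
  intro T h σ hT hh hh2 hL hσ
  set L : ℝ := h * Real.log T with hLdef
  have hLa : L0a ≤ L := ((le_max_left _ _).trans ((le_max_left _ _).trans (le_max_left _ _))).trans hL
  have hLb : L0b ≤ L := ((le_max_right _ _).trans ((le_max_left _ _).trans (le_max_left _ _))).trans hL
  have hLc : L0c ≤ L := ((le_max_left _ _).trans ((le_max_right _ _).trans (le_max_left _ _))).trans hL
  have hL1 : L1 ≤ L := ((le_max_right _ _).trans ((le_max_right _ _).trans (le_max_left _ _))).trans hL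
  have hL3 : 3 ≤ L := ((le_max_left _ _).trans ((le_max_left _ _).trans (le_max_right _ _))).trans hL
  have hL16 : 16 / η ≤ L := ((le_max_right _ _).trans ((le_max_left _ _).trans (le_max_right _ _))).trans hL
  have hL32 : 32 / η ≤ L := ((le_max_right _ _).trans (le_max_right _ _)).trans hL
  obtain ⟨hw8, hCl⟩ := HL1 L hL1
  have hLpos : 0 < L := by linarith
  have hlogT : 0 < Real.log T := by
    by_contra hcon
    push Not at hcon
    have : L ≤ 0 := mul_nonpos_of_nonneg_of_nonpos hh.le hcon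
    linarith
  have hlogT2 : 2 * L ≤ Real.log T := by
    rw [hLdef]; nlinarith
  have hTL : 2 * L ≤ T := by
    have h1 := Real.log_le_sub_one_of_pos (show 0 < T by linarith)
    linarith
  have hT0 : 0 < T := by linarith
  set w : ℝ := L ^ δ / Real.log T with hwdef
  set R : ℝ := L ^ (-(δ / 2)) * Real.log T with hRdef
  have hw : 0 < w := div_pos (Real.rpow_pos_of_pos hLpos _) hlogT
  have hwh : w ≤ h / 8 := by
    have h1 : w = h * (L ^ δ / L) := by
      rw [hwdef, hLdef]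
      field_simp
    rw [h1]; nlinarith
  have hR1 : 1 ≤ R := by
    rw [hRdef, Real.rpow_neg hLpos.le]
    have h1 : L ^ (δ / 2) ≤ L ^ (1 : ℝ) := Real.rpow_le_rpow_of_exponent_le (by linarith) (by linarith)
    rw [Real.rpow_one] at h1
    have h2 : 0 < L ^ (δ / 2) := Real.rpow_pos_of_pos hLpos _
    rw [inv_mul_eq_div, le_div_iff₀ h2]
    linarith
  set ℓ : ℝ := Real.log L with hℓdef
  -- the base shift
  set i0 : ℕ := ⌈h / (2 * w)⌉₊ with hi0
  set b : ℝ := i0 * w with hbdef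
  have hb1 : h / 2 ≤ b := by
    have h1 := Nat.le_ceil (h / (2 * w))
    have h2 : h / (2 * w) * w ≤ i0 * w := mul_le_mul_of_nonneg_right h1 hw.le
    have h3 : h / (2 * w) * w = h / 2 := by field_simp
    rw [h3] at h2; exact h2
  have hb2 : b ≤ h / 2 + w := by
    have h1 := (Nat.ceil_lt_add_one (show 0 ≤ h / (2 * w) by positivity)).le
    have h2 : (i0 : ℝ) * w ≤ (h / (2 * w) + 1) * w := mul_le_mul_of_nonneg_right h1 hw.le
    have h3 : (h / (2 * w) + 1) * w = h / 2 + w := by field_simp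
    rw [h3] at h2; exact h2
  -- the bad sets
  set B1 : Set ℝ := {t : ℝ | T ≤ t ∧ t ≤ 2 * T ∧ ∃ i j : ℕ, i < j ∧ j * w ≤ h ∧
      C < |XG G (Gs w ((j - i) * w)) T (t + i * w) + BG u (Gs w ((j - i) * w)) R (t + i * w)|} with hB1
  have vB1 : volume B1 ≤ ENNReal.ofReal (η / 8 * T) := HZ T h w R hT hh hh2 hLa hwdef hRdef
  set B2 : ℕ → ℕ → Set ℝ := fun i j => {t : ℝ | T ≤ t ∧ t ≤ 2 * T ∧ ε / 8 * Real.log L <
      |(Qs u w R (t + i * w) - Qs u w R (t + j * w)) -
      (Yb u (h⁻¹ * L ^ δ) (h⁻¹ * L ^ (1 - 2 * δ)) (t + i * w) - Yb u (h⁻¹ * L ^ δ) (h⁻¹ * L ^ (1 - 2 * δ)) (t + j * w))|}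
    with hB2
  set M : ℕ := ⌊h / w⌋₊ with hM
  have hML : (M : ℝ) ≤ L := by
    have h1 : (M : ℝ) ≤ h / w := Nat.floor_le (by positivity)
    have h2 : h / w ≤ L := by
      rw [hwdef, div_div_eq_mul_div, ← hLdef]
      apply div_le_self hLpos.le
      exact Real.one_le_rpow (by linarith) hδ.le
    exact h1.trans h2
  have hle : ∀ i : ℕ, (i : ℝ) * w ≤ h → i ≤ M := by
    intro i hi
    apply Nat.le_floor
    rw [le_div_iff₀ hw]; exact hi
  have hle' : ∀ i : ℕ, i ≤ M → (i : ℝ) * w ≤ h := by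
    intro i hi
    have h1 : (i : ℝ) ≤ h / w := (Nat.le_floor_iff (by positivity)).1 hi
    rwa [le_div_iff₀ hw] at h1
  have vB2 : ∀ i j : ℕ, i ≤ M → j ≤ M → volume (B2 i j) ≤ ENNReal.ofReal (T * L ^ (-3 : ℝ)) := by
    intro i j hi hj
    exact HR T h L w R hT hh hh2 rfl hLc hwdef hRdef (i * w) (j * w) (by positivity) (hle' i hi) (by positivity) (hle' j hj)
  set B2' : Set ℝ := ⋃ p ∈ Finset.range (M + 1) ×ˢ Finset.range (M + 1), B2 p.1 p.2 with hB2'
  have vB2' : volume B2' ≤ ENNReal.ofReal (η / 8 * T) := by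
    calc volume B2' ≤ ∑ p ∈ Finset.range (M + 1) ×ˢ Finset.range (M + 1), volume (B2 p.1 p.2) :=
          measure_biUnion_finset_le _ _
      _ ≤ ∑ p ∈ Finset.range (M + 1) ×ˢ Finset.range (M + 1), ENNReal.ofReal (T * L ^ (-3 : ℝ)) := by
          apply Finset.sum_le_sum
          intro p hp
          rw [Finset.mem_product, Finset.mem_range, Finset.mem_range] at hp
          exact vB2 p.1 p.2 (by omega) (by omega)
      _ = ENNReal.ofReal ((((M + 1) * (M + 1) : ℕ) : ℝ) * (T * L ^ (-3 : ℝ))) := by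
          rw [Finset.sum_const, Finset.card_product, Finset.card_range, nsmul_eq_mul,
            ENNReal.ofReal_mul (Nat.cast_nonneg _), ENNReal.ofReal_natCast]
      _ ≤ ENNReal.ofReal (η / 8 * T) := by
          apply ENNReal.ofReal_le_ofReal
          have h1 : (((M + 1) * (M + 1) : ℕ) : ℝ) ≤ 4 * L ^ 2 := by
            push_cast
            have hM0 : (0 : ℝ) ≤ M := Nat.cast_nonneg _
            nlinarith
          have h2 : L ^ (-3 : ℝ) = (L ^ 3)⁻¹ := by
            rw [show (-3 : ℝ) = -((3 : ℕ) : ℝ) by norm_num, Real.rpow_neg hLpos.le, Real.rpow_natCast]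
          have h3 : 4 * L ^ 2 * (T * (L ^ 3)⁻¹) = 4 / L * T := by field_simp
          have h4 : 4 / L ≤ η / 8 := by
            rw [div_le_iff₀ hLpos]
            rw [div_le_iff₀ hη] at hL32
            linarith
          calc (((M + 1) * (M + 1) : ℕ) : ℝ) * (T * L ^ (-3 : ℝ)) ≤ 4 * L ^ 2 * (T * L ^ (-3 : ℝ)) :=
                mul_le_mul_of_nonneg_right h1 (by rw [h2]; positivity)
            _ = 4 / L * T := by rw [h2, h3]
            _ ≤ η / 8 * T := mul_le_mul_of_nonneg_right h4 hT0.le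
  set B3 : ℝ → Set ℝ := fun s => {t : ℝ | T ≤ t ∧ t ≤ 2 * T ∧ ∀ i : ℕ, i * w ≤ h / 4 →
      s * Yb u (h⁻¹ * L ^ δ) (h⁻¹ * L ^ (1 - 2 * δ)) (t + i * w) < (1 / Real.pi - ε / 8) * Real.log L} with hB3
  have vB3 : ∀ s : ℝ, (s = 1 ∨ s = -1) → volume (B3 s) ≤ ENNReal.ofReal (η / 16 * T) := by
    intro s hs
    exact HH T h L w s hT hh hh2 rfl hLb hwdef hs
  set B4 : ℝ → Set ℝ := fun s => ((fun t => t + b) ⁻¹' (B3 s)) ∪ Icc (2 * T - b) (2 * T) with hB4
  have vB4 : ∀ s : ℝ, (s = 1 ∨ s = -1) → volume (B4 s) ≤ ENNReal.ofReal (η / 16 * T) + ENNReal.ofReal (η / 16 * T) := by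
    intro s hs
    refine (measure_union_le _ _).trans (add_le_add ?_ ?_)
    · rw [measure_preimage_add_right]; exact vB3 s hs
    · rw [Real.volume_Icc]
      apply ENNReal.ofReal_le_ofReal
      rw [div_le_iff₀ hη] at hL16
      have : b ≤ 1 := by linarith
      nlinarith
  -- the inclusion
  have hσ' : (-σ = 1 ∨ -σ = -1) := by
    rcases hσ with h | h
    · right; rw [h]
    · left; rw [h]; norm_num
  have hsub : Bd G σ T h ((2 / Real.pi - ε) * ℓ) ⊆ B1 ∪ B2' ∪ B3 (-σ) ∪ B4 σ := by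
    intro t ht
    by_contra hcon
    simp only [mem_union, not_or] at hcon
    obtain ⟨⟨⟨n1, n2⟩, n3⟩, n4⟩ := hcon
    obtain ⟨ht1, ht2, ht3⟩ := ht
    -- the minimum
    obtain ⟨i1, hi1, hy1⟩ : ∃ i : ℕ, i * w ≤ h / 4 ∧ (1 / Real.pi - ε / 8) * ℓ ≤
        -σ * Yb u (h⁻¹ * L ^ δ) (h⁻¹ * L ^ (1 - 2 * δ)) (t + i * w) := by
      by_contra hc
      apply n3
      refine ⟨ht1, ht2, fun i hi => ?_⟩
      by_contra hc2
      exact hc ⟨i, hi, not_lt.1 hc2⟩
    -- the maximum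
    have hn4a : t + b ∉ B3 σ := fun hc => n4 (Or.inl hc)
    have hn4b : t < 2 * T - b := by
      by_contra hc
      exact n4 (Or.inr ⟨not_lt.1 hc, ht2⟩)
    obtain ⟨i2, hi2, hy2⟩ : ∃ i : ℕ, i * w ≤ h / 4 ∧ (1 / Real.pi - ε / 8) * ℓ ≤
        σ * Yb u (h⁻¹ * L ^ δ) (h⁻¹ * L ^ (1 - 2 * δ)) (t + b + i * w) := by
      by_contra hc
      apply hn4a
      refine ⟨by linarith [hb1, hh], by linarith, fun i hi => ?_⟩
      by_contra hc2
      exact hc ⟨i, hi, not_lt.1 hc2⟩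
    set j : ℕ := i0 + i2 with hj
    have hjw : (j : ℝ) * w = b + i2 * w := by rw [hj, hbdef]; push_cast; ring
    have hjh : (j : ℝ) * w + w ≤ h := by rw [hjw]; linarith
    have hij : i1 < j := by
      have h1 : (i1 : ℝ) * w < j * w := by
        have : 0 ≤ (i2 : ℝ) * w := by positivity
        rw [hjw]; linarith
      have h2 : (i1 : ℝ) < j := lt_of_mul_lt_mul_right h1 hw.le
      exact_mod_cast h2
    have hjj : (j : ℝ) * w ≤ h := by linarith
    have hii : (i1 : ℝ) * w ≤ h := by linarith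
    have hX : |XG G (Gs w ((j - i1) * w)) T (t + i1 * w) + BG u (Gs w ((j - i1) * w)) R (t + i1 * w)| ≤ C := by
      by_contra hc
      exact n1 ⟨ht1, ht2, i1, j, hij, hjj, not_le.1 hc⟩
    have hQ : |(Qs u w R (t + j * w) - Qs u w R (t + i1 * w)) -
      (Yb u (h⁻¹ * L ^ δ) (h⁻¹ * L ^ (1 - 2 * δ)) (t + j * w) - Yb u (h⁻¹ * L ^ δ) (h⁻¹ * L ^ (1 - 2 * δ)) (t + i1 * w))| ≤
        ε / 8 * ℓ := by
      by_contra hc
      apply n2
      rw [hB2', mem_iUnion₂]
      refine ⟨(j, i1), ?_, ht1, ht2, not_le.1 hc⟩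
      rw [Finset.mem_product, Finset.mem_range, Finset.mem_range]
      exact ⟨Nat.lt_succ_of_le (hle j hjj), Nat.lt_succ_of_le (hle i1 hii)⟩
    have hji0 : (0 : ℝ) < (j : ℝ) - i1 := by
      have : (i1 : ℝ) < j := by exact_mod_cast hij
      linarith
    have ha0 : 0 < ((j : ℝ) - i1) * w := mul_pos hji0 hw
    have hBG := hQI.2 u hu1 w ((j - i1) * w) R (t + i1 * w) hw ha0.le hR1
    have e1 : t + i1 * w + (j - i1) * w = t + j * w := by ring
    rw [e1] at hBG
    rw [hBG] at hX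
    have e2 : t + b + i2 * w = t + j * w := by rw [hjw]; ring
    rw [e2] at hy2
    have hx0 : 0 ≤ (i1 : ℝ) * w := by positivity
    have hLC1 := hLC G u hG T (t + i1 * w) w ((j - i1) * w) (σ * ((2 / Real.pi - ε) * ℓ)) (by linarith) hw ha0.le
      (by nlinarith)
    have hπ : 2 / Real.pi = 2 * (1 / Real.pi) := by ring
    have hℓ1 : 0 < ℓ := Real.log_pos (by linarith)
    rw [abs_le] at hX hQ
    have haw : ((j : ℝ) - i1) * w = j * w - i1 * w := by ring
    rcases hσ with hs | hs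
    · subst hs
      have key : (2 / Real.pi - ε) * ℓ < XG G (Gs w ((j - i1) * w)) T (t + i1 * w) := by
        rw [hπ]
        nlinarith [mul_pos hε hℓ1]
      rw [one_mul] at hLC1
      obtain ⟨s, hs0, hsw, hcs⟩ := hLC1.1 key
      have := ht3 (i1 * w + s) (i1 * w + s + (j - i1) * w) (by positivity) (by linarith) (by rw [haw]; linarith)
      rw [one_mul, show t + (i1 * w + s) = t + i1 * w + s by ring,
        show t + (i1 * w + s + (j - i1) * w) = t + i1 * w + s + (j - i1) * w by ring,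
        show i1 * w + s + (j - i1) * w - (i1 * w + s) = (j - i1) * w by ring] at this
      linarith
    · subst hs
      have key : XG G (Gs w ((j - i1) * w)) T (t + i1 * w) < -1 * ((2 / Real.pi - ε) * ℓ) := by
        rw [hπ]
        nlinarith [mul_pos hε hℓ1]
      obtain ⟨s, hs0, hsw, hcs⟩ := hLC1.2 key
      have := ht3 (i1 * w + s) (i1 * w + s + (j - i1) * w) (by positivity) (by linarith) (by rw [haw]; linarith)
      rw [show t + (i1 * w + s) = t + i1 * w + s by ring,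
        show t + (i1 * w + s + (j - i1) * w) = t + i1 * w + s + (j - i1) * w by ring,
        show i1 * w + s + (j - i1) * w - (i1 * w + s) = (j - i1) * w by ring] at this
      linarith
  calc volume (Bd G σ T h ((2 / Real.pi - ε) * ℓ)) ≤ volume (B1 ∪ B2' ∪ B3 (-σ) ∪ B4 σ) := measure_mono hsub
    _ ≤ volume B1 + volume B2' + volume (B3 (-σ)) + volume (B4 σ) :=
        (measure_union_le _ _).trans (add_le_add ((measure_union_le _ _).trans
          (add_le_add (measure_union_le _ _) le_rfl)) le_rfl)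
    _ ≤ ENNReal.ofReal (η / 8 * T) + ENNReal.ofReal (η / 8 * T) + ENNReal.ofReal (η / 16 * T) +
        (ENNReal.ofReal (η / 16 * T) + ENNReal.ofReal (η / 16 * T)) :=
        add_le_add (add_le_add (add_le_add vB1 vB2') (vB3 _ hσ')) (vB4 _ hσ)
    _ ≤ ENNReal.ofReal (η * T) := by
        rw [← ENNReal.ofReal_add (by positivity) (by positivity), ← ENNReal.ofReal_add (by positivity) (by positivity),
          ← ENNReal.ofReal_add (by positivity) (by positivity), ← ENNReal.ofReal_add (by positivity) (by positivity)]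
        apply ENNReal.ofReal_le_ofReal
        have : 0 < η * T := by positivity
        linarith

end Pool.Agent.H203.HX
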