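import Pool.Agent.H203.HX.Defs2

set_option autoImplicit false

/-! Assembly of project HX2. -/

open Complex Filter Topology Set MeasureTheory

namespace Pool.Agent.H203.HX

open Pool.Agent.H203.ME (ee gR WR cR om FF KF C2c w1)
open Pool.Agent.H203.GE (Lf ZG XG BG NWG)

/-- the `t` for which no subinterval of `(t, t + h]` has a joint discrepancy `> c` in the direction `e` -/
def Bd3 {k : ℕ} (G : Fin k → ℂ → ℂ) (e : Fin k → ℝ) (T h c : ℝ) : Set ℝ := {t : ℝ | T ≤ t ∧ t ≤ 2 * T ∧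
  ∀ x y : ℝ, 0 ≤ x → x < y → y ≤ h →
    ∑ j, e j * ((H370.NN (G j) (t + x) (t + y) : ℝ) - (y - x) * Real.log T / (2 * Real.pi)) ≤ c}

namespace FIN3L

/-- the bad set of one function: the approximate formula or the comparison of the prime sums fails at some grid points -/
def bad (G : ℂ → ℂ) (u : ℕ → ℂ) (C ε' δ T h L w R : ℝ) : Set ℝ :=
  {t : ℝ | T ≤ t ∧ t ≤ 2 * T ∧ ∃ i j : ℕ, i < j ∧ j * w ≤ h ∧
      C < |XG G (Gs w ((j - i) * w)) T (t + i * w) + BG u (Gs w ((j - i) * w)) R (t + i * w)|} ∪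
  ⋃ p ∈ Finset.range (⌊h / w⌋₊ + 1) ×ˢ Finset.range (⌊h / w⌋₊ + 1), {t : ℝ | T ≤ t ∧ t ≤ 2 * T ∧ ε' * Real.log L <
      |(Qs u w R (t + (p.1 : ℕ) * w) - Qs u w R (t + (p.2 : ℕ) * w)) -
      (Yb u (h⁻¹ * L ^ δ) (h⁻¹ * L ^ (1 - 2 * δ)) (t + (p.1 : ℕ) * w) -
        Yb u (h⁻¹ * L ^ δ) (h⁻¹ * L ^ (1 - 2 * δ)) (t + (p.2 : ℕ) * w))|}

theorem bad_le (hZE : S_ZE) (hRS : S_RS) (G : ℂ → ℂ) (u : ℕ → ℂ) (hG : Lf G u) (ε' : ℝ) (hε : 0 < ε') :
    ∃ δ0 : ℝ, 0 < δ0 ∧ ∀ δ : ℝ, 0 < δ → δ < δ0 → ∃ C : ℝ, ∀ η : ℝ, 0 < η → ∀ᶠ L : ℝ in atTop, ∀ T h w R : ℝ, 1 < T → 0 < h →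
      h ≤ 1 / 2 → L = h * Real.log T → w = L ^ δ / Real.log T → R = L ^ (-(δ / 2)) * Real.log T →
      volume (bad G u C ε' δ T h L w R) ≤ ENNReal.ofReal (η * T) := by
  obtain ⟨δ2, hδ2, H2⟩ := hRS u hG.le1 ε' hε
  refine ⟨min δ2 (1 / 8), lt_min hδ2 (by norm_num), fun δ hδ hδlt => ?_⟩
  obtain ⟨C, HC⟩ := hZE G u hG δ hδ (hδlt.trans_le (min_le_right _ _))
  obtain ⟨L0c, hL0c, HR⟩ := H2 δ hδ (hδlt.trans_le (min_le_left _ _))
  refine ⟨C, fun η hη => ?_⟩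
  obtain ⟨L0a, hL0a, HZ⟩ := HC (η / 2) (by positivity)
  filter_upwards [eventually_ge_atTop L0a, eventually_ge_atTop L0c, eventually_ge_atTop (3 : ℝ),
    eventually_ge_atTop (8 / η)] with L hLa hLc hL3 hL8 T h w R hT hh hh2 hL hwdef hRdef
  have hLpos : 0 < L := by linarith
  have hT0 : 0 < T := by linarith
  have hlogT : 0 < Real.log T := Real.log_pos hT
  have hw : 0 < w := by rw [hwdef]; exact div_pos (Real.rpow_pos_of_pos hLpos _) hlogT
  have v1 := HZ T h w R hT hh hh2 (by rw [← hL]; exact hLa) (by rw [← hL]; exact hwdef) (by rw [← hL]; exact hRdef)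
  set M : ℕ := ⌊h / w⌋₊ with hM
  have hML : (M : ℝ) ≤ L := by
    have h1 : (M : ℝ) ≤ h / w := Nat.floor_le (by positivity)
    have h2 : h / w ≤ L := by
      rw [hwdef, div_div_eq_mul_div, ← hL]
      apply div_le_self hLpos.le
      exact Real.one_le_rpow (by linarith) hδ.le
    exact h1.trans h2
  have hle' : ∀ i : ℕ, i ≤ M → (i : ℝ) * w ≤ h := by
    intro i hi
    have h1 : (i : ℝ) ≤ h / w := (Nat.le_floor_iff (by positivity)).1 hi
    rwa [le_div_iff₀ hw] at h1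
  unfold bad
  refine (measure_union_le _ _).trans ?_
  have v2 : volume (⋃ p ∈ Finset.range (M + 1) ×ˢ Finset.range (M + 1), {t : ℝ | T ≤ t ∧ t ≤ 2 * T ∧ ε' * Real.log L <
      |(Qs u w R (t + (p.1 : ℕ) * w) - Qs u w R (t + (p.2 : ℕ) * w)) -
      (Yb u (h⁻¹ * L ^ δ) (h⁻¹ * L ^ (1 - 2 * δ)) (t + (p.1 : ℕ) * w) -
        Yb u (h⁻¹ * L ^ δ) (h⁻¹ * L ^ (1 - 2 * δ)) (t + (p.2 : ℕ) * w))|}) ≤ ENNReal.ofReal (η / 2 * T) := by
    refine (measure_biUnion_finset_le _ _).trans ?_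
    calc _ ≤ ∑ p ∈ Finset.range (M + 1) ×ˢ Finset.range (M + 1), ENNReal.ofReal (T * L ^ (-3 : ℝ)) := by
          apply Finset.sum_le_sum
          intro p hp
          rw [Finset.mem_product, Finset.mem_range, Finset.mem_range] at hp
          exact HR T h L w R hT hh hh2 hL hLc hwdef hRdef (p.1 * w) (p.2 * w) (by positivity) (hle' p.1 (by omega))
            (by positivity) (hle' p.2 (by omega))
      _ = ENNReal.ofReal ((((M + 1) * (M + 1) : ℕ) : ℝ) * (T * L ^ (-3 : ℝ))) := by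
          rw [Finset.sum_const, Finset.card_product, Finset.card_range, nsmul_eq_mul,
            ENNReal.ofReal_mul (Nat.cast_nonneg _), ENNReal.ofReal_natCast]
      _ ≤ ENNReal.ofReal (η / 2 * T) := by
          apply ENNReal.ofReal_le_ofReal
          have h1 : (((M + 1) * (M + 1) : ℕ) : ℝ) ≤ 4 * L ^ 2 := by
            push_cast
            have hM0 : (0 : ℝ) ≤ M := Nat.cast_nonneg _
            nlinarith
          have h2 : L ^ (-3 : ℝ) = (L ^ 3)⁻¹ := by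
            rw [show (-3 : ℝ) = -((3 : ℕ) : ℝ) by norm_num, Real.rpow_neg hLpos.le, Real.rpow_natCast]
          have h3 : 4 * L ^ 2 * (T * (L ^ 3)⁻¹) = 4 / L * T := by field_simp
          have h4 : 4 / L ≤ η / 2 := by
            rw [div_le_iff₀ hLpos]
            rw [div_le_iff₀ hη] at hL8
            linarith
          calc (((M + 1) * (M + 1) : ℕ) : ℝ) * (T * L ^ (-3 : ℝ)) ≤ 4 * L ^ 2 * (T * L ^ (-3 : ℝ)) :=
                mul_le_mul_of_nonneg_right h1 (by rw [h2]; positivity)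
            _ = 4 / L * T := by rw [h2, h3]
            _ ≤ η / 2 * T := mul_le_mul_of_nonneg_right h4 hT0.le
  refine (add_le_add v1 v2).trans ?_
  rw [← ENNReal.ofReal_add (by positivity) (by positivity)]
  apply ENNReal.ofReal_le_ofReal
  linarith

/-- what holds at the good points -/
theorem good_bd (hQI : S_QI) (G : ℂ → ℂ) (u : ℕ → ℂ) (hG : Lf G u) (C ε' δ T h L w R : ℝ) (hw : 0 < w) (hR : 1 ≤ R) (t : ℝ)
    (ht1 : T ≤ t) (ht2 : t ≤ 2 * T) (ht : t ∉ bad G u C ε' δ T h L w R) (i j : ℕ) (hij : i < j) (hj : (j : ℝ) * w ≤ h) :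
    |XG G (Gs w ((j - i) * w)) T (t + i * w) -
      (Yb u (h⁻¹ * L ^ δ) (h⁻¹ * L ^ (1 - 2 * δ)) (t + j * w) - Yb u (h⁻¹ * L ^ δ) (h⁻¹ * L ^ (1 - 2 * δ)) (t + i * w))| ≤
      C + ε' * Real.log L := by
  unfold bad at ht
  rw [mem_union, not_or] at ht
  obtain ⟨n1, n2⟩ := ht
  have hi : (i : ℝ) * w ≤ h := by
    have : (i : ℝ) ≤ j := by exact_mod_cast hij.le
    exact (mul_le_mul_of_nonneg_right this hw.le).trans hj
  have hle : ∀ i : ℕ, (i : ℝ) * w ≤ h → i ≤ ⌊h / w⌋₊ := by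
    intro i hi
    apply Nat.le_floor
    rw [le_div_iff₀ hw]; exact hi
  have hX : |XG G (Gs w ((j - i) * w)) T (t + i * w) + BG u (Gs w ((j - i) * w)) R (t + i * w)| ≤ C := by
    by_contra hc
    exact n1 ⟨ht1, ht2, i, j, hij, hj, not_le.1 hc⟩
  have hQ : |(Qs u w R (t + j * w) - Qs u w R (t + i * w)) -
      (Yb u (h⁻¹ * L ^ δ) (h⁻¹ * L ^ (1 - 2 * δ)) (t + j * w) - Yb u (h⁻¹ * L ^ δ) (h⁻¹ * L ^ (1 - 2 * δ)) (t + i * w))| ≤
        ε' * Real.log L := by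
    by_contra hc
    apply n2
    rw [mem_iUnion₂]
    refine ⟨(j, i), ?_, ht1, ht2, not_le.1 hc⟩
    rw [Finset.mem_product, Finset.mem_range, Finset.mem_range]
    exact ⟨Nat.lt_succ_of_le (hle j hj), Nat.lt_succ_of_le (hle i hi)⟩
  have hji0 : (0 : ℝ) < (j : ℝ) - i := by
    have : (i : ℝ) < j := by exact_mod_cast hij
    linarith
  have hBG := hQI.2 u hG.le1 w ((j - i) * w) R (t + i * w) hw (by positivity) hR
  have e1 : t + i * w + (j - i) * w = t + j * w := by ring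
  rw [e1] at hBG
  rw [hBG] at hX
  rw [abs_le] at hX hQ ⊢
  constructor <;> linarith

end FIN3L

theorem Yb_sum {k : ℕ} (u : Fin k → ℕ → ℂ) (c : Fin k → ℝ) (lo hi t : ℝ) :
    Yb (fun n => ∑ j, (c j : ℂ) * u j n) lo hi t = ∑ j, c j * Yb (u j) lo hi t := by
  unfold Yb
  have h1 : ∑ p ∈ PB lo hi, (∑ j, (c j : ℂ) * u j p) * ee p t / (Real.sqrt p : ℂ) =
      ∑ j, (c j : ℂ) * ∑ p ∈ PB lo hi, u j p * ee p t / (Real.sqrt p : ℂ) := by
    simp only [Finset.sum_mul, Finset.sum_div, Finset.mul_sum]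
    rw [Finset.sum_comm]
    refine Finset.sum_congr rfl fun j _ => Finset.sum_congr rfl fun p _ => ?_
    ring
  rw [h1, Complex.im_sum, Finset.mul_sum]
  refine Finset.sum_congr rfl fun j _ => ?_
  rw [Complex.im_ofReal_mul]
  ring

theorem core3 (hZE : S_ZE) (hLC : S_LCU) (hQI : S_QI) (hHP : S_HPU) (hRS : S_RS) {k : ℕ} (G : Fin k → ℂ → ℂ)
    (u : Fin k → ℕ → ℂ) (hG : ∀ j, Lf (G j) (u j)) (c : Fin k → ℝ) (hu : CBu (fun n => ∑ j, (c j : ℂ) * u j n))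
    (ε η : ℝ) (hε : 0 < ε) (hη : 0 < η) : ∃ L0 : ℝ, 3 ≤ L0 ∧ ∀ T h : ℝ, 1 < T → 0 < h → h ≤ 1 / 2 →
      L0 ≤ h * Real.log T →
      volume (Bd3 G c T h ((2 / Real.pi - ε) * Real.log (h * Real.log T))) ≤ ENNReal.ofReal (η * T) := by
  set U : ℕ → ℂ := fun n => ∑ j, (c j : ℂ) * u j n with hU
  set K1 : ℝ := ∑ j, |c j| + 1 with hK1
  have hK0 : 0 ≤ ∑ j, |c j| := Finset.sum_nonneg fun _ _ => abs_nonneg _
  have hK1p : 0 < K1 := by linarith
  have hUB : ∀ n, ‖U n‖ ≤ ∑ j, |c j| := by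
    intro n
    refine (norm_sum_le _ _).trans (Finset.sum_le_sum fun j _ => ?_)
    rw [norm_mul, Complex.norm_real, Real.norm_eq_abs]
    exact mul_le_of_le_one_right (abs_nonneg _) ((hG j).le1 n)
  obtain ⟨δ1, hδ1, H1⟩ := hHP U _ hUB hu (ε / 8) (by positivity)
  choose δ2 hδ2 H2 using fun j => FIN3L.bad_le hZE hRS (G j) (u j) (hG j) (ε / (8 * K1)) (by positivity)
  obtain ⟨δ, ⟨⟨hδlt1, hδlt8⟩, hδlt2⟩, hδ⟩ : ∃ δ : ℝ, ((δ < δ1 ∧ δ < 1 / 8) ∧ ∀ j, δ < δ2 j) ∧ 0 < δ := by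
    have e1 : ∀ᶠ δ : ℝ in 𝓝[>] 0, δ < δ1 := eventually_nhdsWithin_of_eventually_nhds (eventually_lt_nhds hδ1)
    have e2 : ∀ᶠ δ : ℝ in 𝓝[>] 0, δ < 1 / 8 :=
      eventually_nhdsWithin_of_eventually_nhds (eventually_lt_nhds (by norm_num))
    have e3 : ∀ᶠ δ : ℝ in 𝓝[>] 0, ∀ j, δ < δ2 j :=
      eventually_all.2 fun j => eventually_nhdsWithin_of_eventually_nhds (eventually_lt_nhds (hδ2 j))
    have e4 : ∀ᶠ δ : ℝ in 𝓝[>] 0, 0 < δ := eventually_mem_nhdsWithin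
    exact (((e1.and e2).and e3).and e4).exists
  choose C HC using fun j => H2 j δ hδ (hδlt2 j)
  obtain ⟨L0b, hL0b, HH⟩ := H1 δ hδ hδlt1 (η / 16) (by positivity)
  -- largeness of `L`
  have hev : ∀ᶠ L : ℝ in atTop, (L ^ δ / L ≤ 1 / 8 ∧ ∀ j, C j < ε / (8 * K1) * Real.log L) ∧
      ∀ j, ∀ T h w R : ℝ, 1 < T → 0 < h → h ≤ 1 / 2 → L = h * Real.log T → w = L ^ δ / Real.log T →
        R = L ^ (-(δ / 2)) * Real.log T →
        volume (FIN3L.bad (G j) (u j) (C j) (ε / (8 * K1)) δ T h L w R) ≤ ENNReal.ofReal (η / (8 * (k + 1)) * T) := by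
    have e1 : ∀ᶠ L : ℝ in atTop, L ^ δ / L ≤ 1 / 8 := by
      have ht : Tendsto (fun L : ℝ => L ^ (-(1 - δ))) atTop (𝓝 0) := tendsto_rpow_neg_atTop (by linarith)
      filter_upwards [ht.eventually_le_const (show (0 : ℝ) < 1 / 8 by norm_num), eventually_gt_atTop 0] with L hL hL0
      have : L ^ δ / L = L ^ (-(1 - δ)) := by
        rw [show -(1 - δ) = δ - 1 by ring, Real.rpow_sub hL0, Real.rpow_one]
      rw [this]; exact hL
    have e2 : ∀ᶠ L : ℝ in atTop, ∀ j, C j < ε / (8 * K1) * Real.log L := by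
      refine eventually_all.2 fun j => ?_
      have ht : Tendsto (fun L : ℝ => ε / (8 * K1) * Real.log L) atTop atTop :=
        Real.tendsto_log_atTop.const_mul_atTop (by positivity)
      exact ht.eventually_gt_atTop (C j)
    exact (e1.and e2).and (eventually_all.2 fun j => HC j _ (by positivity))
  obtain ⟨L1, HL1⟩ := eventually_atTop.1 hev
  refine ⟨max (max L0b L1) (max 3 (16 / η)), ?_, ?_⟩
  · exact (le_max_left _ _).trans (le_max_right _ _)
  intro T h hT hh hh2 hL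
  obtain ⟨L, hLdef⟩ : ∃ L, L = h * Real.log T := ⟨_, rfl⟩
  rw [← hLdef] at hL ⊢
  have hLb : L0b ≤ L := ((le_max_left _ _).trans (le_max_left _ _)).trans hL
  have hL1 : L1 ≤ L := ((le_max_right _ _).trans (le_max_left _ _)).trans hL
  have hL3 : 3 ≤ L := ((le_max_left _ _).trans (le_max_right _ _)).trans hL
  have hL16 : 16 / η ≤ L := ((le_max_right _ _).trans (le_max_right _ _)).trans hL
  obtain ⟨⟨hw8, hCl⟩, hbad⟩ := HL1 L hL1
  have hLpos : 0 < L := by linarith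
  have hlogT : 0 < Real.log T := Real.log_pos hT
  have hlogT2 : 2 * L ≤ Real.log T := by
    rw [hLdef]; nlinarith
  have hTL : 2 * L ≤ T := by
    have h1 := Real.log_le_sub_one_of_pos (show 0 < T by linarith)
    linarith
  have hT0 : 0 < T := by linarith
  obtain ⟨w, hwdef⟩ : ∃ w, w = L ^ δ / Real.log T := ⟨_, rfl⟩
  obtain ⟨R, hRdef⟩ : ∃ R, R = L ^ (-(δ / 2)) * Real.log T := ⟨_, rfl⟩
  have hw : 0 < w := by rw [hwdef]; exact div_pos (Real.rpow_pos_of_pos hLpos _) hlogT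
  have hwh : w ≤ h / 8 := by
    have h1 : w = h * (L ^ δ / L) := by
      rw [hwdef, hLdef]
      field_simp
    rw [h1]; nlinarith
  have hR1 : 1 ≤ R := by
    rw [hRdef, Real.rpow_neg hLpos.le]
    have h1 : L ^ (δ / 2) ≤ L ^ (1 : ℝ) := Real.rpow_le_rpow_of_exponent_le (by linarith) (by linarith)
    rw [Real.rpow_one] at h1
    have h2 : 0 < L ^ (δ / 2) := Real.rpow_pos_of_pos hLpos _
    rw [inv_mul_eq_div, le_div_iff₀ h2]
    linarith
  obtain ⟨ℓ, hℓdef⟩ : ∃ ℓ, ℓ = Real.log L := ⟨_, rfl⟩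
  rw [← hℓdef]
  -- the base shift
  obtain ⟨i0, hi0⟩ : ∃ i0 : ℕ, i0 = ⌈h / (2 * w)⌉₊ := ⟨_, rfl⟩
  obtain ⟨b, hbdef⟩ : ∃ b : ℝ, b = i0 * w := ⟨_, rfl⟩
  have hb1 : h / 2 ≤ b := by
    have h1 := Nat.le_ceil (h / (2 * w))
    rw [← hi0] at h1
    have h2 : h / (2 * w) * w ≤ i0 * w := mul_le_mul_of_nonneg_right h1 hw.le
    have h3 : h / (2 * w) * w = h / 2 := by field_simp
    rw [h3] at h2; rw [hbdef]; exact h2
  have hb2 : b ≤ h / 2 + w := by
    have h1 := (Nat.ceil_lt_add_one (show 0 ≤ h / (2 * w) by positivity)).le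
    rw [← hi0] at h1
    have h2 : (i0 : ℝ) * w ≤ (h / (2 * w) + 1) * w := mul_le_mul_of_nonneg_right h1 hw.le
    have h3 : (h / (2 * w) + 1) * w = h / 2 + w := by field_simp
    rw [h3] at h2; rw [hbdef]; exact h2
  -- the bad sets
  obtain ⟨B1, hB1⟩ : ∃ B1 : Set ℝ, B1 = ⋃ j : Fin k, FIN3L.bad (G j) (u j) (C j) (ε / (8 * K1)) δ T h L w R := ⟨_, rfl⟩
  have vB1 : volume B1 ≤ ENNReal.ofReal (η / 8 * T) := by
    rw [hB1]
    calc volume (⋃ j : Fin k, FIN3L.bad (G j) (u j) (C j) (ε / (8 * K1)) δ T h L w R)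
        ≤ ∑ j : Fin k, volume (FIN3L.bad (G j) (u j) (C j) (ε / (8 * K1)) δ T h L w R) := measure_iUnion_fintype_le _ _
      _ ≤ ∑ j : Fin k, ENNReal.ofReal (η / (8 * (k + 1)) * T) :=
          Finset.sum_le_sum fun j _ => hbad j T h w R hT hh hh2 hLdef hwdef hRdef
      _ = ENNReal.ofReal ((k : ℝ) * (η / (8 * (k + 1)) * T)) := by
          rw [Finset.sum_const, Finset.card_univ, Fintype.card_fin, nsmul_eq_mul,
            ENNReal.ofReal_mul (Nat.cast_nonneg _), ENNReal.ofReal_natCast]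
      _ ≤ ENNReal.ofReal (η / 8 * T) := by
          apply ENNReal.ofReal_le_ofReal
          have hk : (0 : ℝ) ≤ k := Nat.cast_nonneg _
          have h1 : (k : ℝ) * (η / (8 * (k + 1)) * T) = (k / (k + 1)) * (η / 8 * T) := by field_simp
          rw [h1]
          apply mul_le_of_le_one_left (by positivity)
          rw [div_le_one (by positivity)]
          linarith
  obtain ⟨B3, hB3⟩ : ∃ B3 : ℝ → Set ℝ, B3 = fun s => {t : ℝ | T ≤ t ∧ t ≤ 2 * T ∧ ∀ i : ℕ, i * w ≤ h / 4 →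
      s * Yb U (h⁻¹ * L ^ δ) (h⁻¹ * L ^ (1 - 2 * δ)) (t + i * w) < (1 / Real.pi - ε / 8) * Real.log L} := ⟨_, rfl⟩
  have vB3 : ∀ s : ℝ, (s = 1 ∨ s = -1) → volume (B3 s) ≤ ENNReal.ofReal (η / 16 * T) := by
    intro s hs
    rw [hB3]
    exact HH T h L w s hT hh hh2 hLdef hLb hwdef hs
  obtain ⟨B4, hB4⟩ : ∃ B4 : Set ℝ, B4 = ((fun t => t + b) ⁻¹' (B3 1)) ∪ Icc (2 * T - b) (2 * T) := ⟨_, rfl⟩
  have vB4 : volume B4 ≤ ENNReal.ofReal (η / 16 * T) + ENNReal.ofReal (η / 16 * T) := by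
    rw [hB4]
    refine (measure_union_le _ _).trans (add_le_add ?_ ?_)
    · rw [measure_preimage_add_right]; exact vB3 1 (Or.inl rfl)
    · rw [Real.volume_Icc]
      apply ENNReal.ofReal_le_ofReal
      rw [div_le_iff₀ hη] at hL16
      have : b ≤ 1 := by linarith
      nlinarith
  -- the inclusion
  have hsub : Bd3 G c T h ((2 / Real.pi - ε) * ℓ) ⊆ B1 ∪ B3 (-1) ∪ B4 := by
    intro t ht
    by_contra hcon
    simp only [mem_union, not_or] at hcon
    obtain ⟨⟨n1, n3⟩, n4⟩ := hcon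
    obtain ⟨ht1, ht2, ht3⟩ := ht
    -- the minimum
    obtain ⟨i1, hi1, hy1⟩ : ∃ i : ℕ, i * w ≤ h / 4 ∧ (1 / Real.pi - ε / 8) * ℓ ≤
        -1 * Yb U (h⁻¹ * L ^ δ) (h⁻¹ * L ^ (1 - 2 * δ)) (t + i * w) := by
      by_contra hc
      apply n3
      rw [hB3]
      refine ⟨ht1, ht2, fun i hi => ?_⟩
      by_contra hc2
      exact hc ⟨i, hi, by rw [hℓdef]; exact not_lt.1 hc2⟩
    -- the maximum
    have hn4a : t + b ∉ B3 1 := fun hc => n4 (by rw [hB4]; exact Or.inl hc)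
    have hn4b : t < 2 * T - b := by
      by_contra hc
      exact n4 (by rw [hB4]; exact Or.inr ⟨not_lt.1 hc, ht2⟩)
    obtain ⟨i2, hi2, hy2⟩ : ∃ i : ℕ, i * w ≤ h / 4 ∧ (1 / Real.pi - ε / 8) * ℓ ≤
        1 * Yb U (h⁻¹ * L ^ δ) (h⁻¹ * L ^ (1 - 2 * δ)) (t + b + i * w) := by
      by_contra hc
      apply hn4a
      rw [hB3]
      refine ⟨by linarith [hb1, hh], by linarith, fun i hi => ?_⟩
      by_contra hc2
      exact hc ⟨i, hi, by rw [hℓdef]; exact not_lt.1 hc2⟩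
    obtain ⟨j, hj⟩ : ∃ j : ℕ, j = i0 + i2 := ⟨_, rfl⟩
    have hjw : (j : ℝ) * w = b + i2 * w := by rw [hj, hbdef]; push_cast; ring
    have hjh : (j : ℝ) * w + w ≤ h := by rw [hjw]; linarith
    have hij : i1 < j := by
      have h1 : (i1 : ℝ) * w < j * w := by
        have : 0 ≤ (i2 : ℝ) * w := by positivity
        rw [hjw]; linarith
      have h2 : (i1 : ℝ) < j := lt_of_mul_lt_mul_right h1 hw.le
      exact_mod_cast h2
    have hjj : (j : ℝ) * w ≤ h := by linarith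
    have hji0 : (0 : ℝ) < (j : ℝ) - i1 := by
      have : (i1 : ℝ) < j := by exact_mod_cast hij
      linarith
    have ha0 : 0 < ((j : ℝ) - i1) * w := mul_pos hji0 hw
    have e2 : t + b + i2 * w = t + j * w := by rw [hjw]; ring
    rw [e2] at hy2
    have hx0 : 0 ≤ (i1 : ℝ) * w := by positivity
    have haw : ((j : ℝ) - i1) * w = j * w - i1 * w := by ring
    have hℓ1 : 0 < ℓ := by rw [hℓdef]; exact Real.log_pos (by linarith)
    have hone : ∀ i : Fin k, |XG (G i) (Gs w ((j - i1) * w)) T (t + i1 * w) -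
        (Yb (u i) (h⁻¹ * L ^ δ) (h⁻¹ * L ^ (1 - 2 * δ)) (t + j * w) -
          Yb (u i) (h⁻¹ * L ^ δ) (h⁻¹ * L ^ (1 - 2 * δ)) (t + i1 * w))| ≤ 2 * (ε / (8 * K1) * ℓ) := by
      intro i
      have hni : t ∉ FIN3L.bad (G i) (u i) (C i) (ε / (8 * K1)) δ T h L w R := fun hc => n1 (by
        rw [hB1]; exact mem_iUnion.2 ⟨i, hc⟩)
      have h1 := FIN3L.good_bd hQI (G i) (u i) (hG i) (C i) (ε / (8 * K1)) δ T h L w R hw hR1 t ht1 ht2 hni i1 j hij hjj
      have h2 := hCl i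
      rw [← hℓdef] at h1 h2
      linarith
    have hsum : |∑ i, c i * XG (G i) (Gs w ((j - i1) * w)) T (t + i1 * w) -
        (Yb U (h⁻¹ * L ^ δ) (h⁻¹ * L ^ (1 - 2 * δ)) (t + j * w) -
          Yb U (h⁻¹ * L ^ δ) (h⁻¹ * L ^ (1 - 2 * δ)) (t + i1 * w))| ≤ ε / 4 * ℓ := by
      rw [hU, Yb_sum, Yb_sum, ← Finset.sum_sub_distrib, ← Finset.sum_sub_distrib]
      refine (Finset.abs_sum_le_sum_abs _ _).trans ?_
      calc _ ≤ ∑ i : Fin k, |c i| * (2 * (ε / (8 * K1) * ℓ)) := by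
            refine Finset.sum_le_sum fun i _ => ?_
            rw [← mul_sub, ← mul_sub, abs_mul]
            exact mul_le_mul_of_nonneg_left (hone i) (abs_nonneg _)
        _ = (∑ i, |c i|) / K1 * (ε / 4 * ℓ) := by
            rw [← Finset.sum_mul]
            field_simp
            ring
        _ ≤ ε / 4 * ℓ := by
            apply mul_le_of_le_one_left (by positivity)
            rw [div_le_one hK1p, hK1]
            linarith
    rw [abs_le] at hsum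
    have hπ : 2 / Real.pi = 2 * (1 / Real.pi) := by ring
    have key : (2 / Real.pi - ε) * ℓ < ∑ i, c i * XG (G i) (Gs w ((j - i1) * w)) T (t + i1 * w) := by
      rw [hπ]
      nlinarith [mul_pos hε hℓ1]
    obtain ⟨s, hs0, hsw, hcs⟩ := hLC k G u c hG T (t + i1 * w) w ((j - i1) * w) ((2 / Real.pi - ε) * ℓ)
      (by linarith) hw ha0.le (by nlinarith) key
    have := ht3 (i1 * w + s) (i1 * w + s + (j - i1) * w) (by positivity) (by linarith) (by rw [haw]; linarith)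
    rw [show t + (i1 * w + s) = t + i1 * w + s by ring,
      show t + (i1 * w + s + (j - i1) * w) = t + i1 * w + s + (j - i1) * w by ring,
      show i1 * w + s + (j - i1) * w - (i1 * w + s) = (j - i1) * w by ring] at this
    linarith
  calc volume (Bd3 G c T h ((2 / Real.pi - ε) * ℓ)) ≤ volume (B1 ∪ B3 (-1) ∪ B4) := measure_mono hsub
    _ ≤ volume B1 + volume (B3 (-1)) + volume B4 :=
        (measure_union_le _ _).trans (add_le_add (measure_union_le _ _) le_rfl)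
    _ ≤ ENNReal.ofReal (η / 8 * T) + ENNReal.ofReal (η / 16 * T) +
        (ENNReal.ofReal (η / 16 * T) + ENNReal.ofReal (η / 16 * T)) :=
        add_le_add (add_le_add vB1 (vB3 _ (Or.inr rfl))) vB4
    _ ≤ ENNReal.ofReal (η * T) := by
        rw [← ENNReal.ofReal_add (by positivity) (by positivity), ← ENNReal.ofReal_add (by positivity) (by positivity),
          ← ENNReal.ofReal_add (by positivity) (by positivity)]
        apply ENNReal.ofReal_le_ofReal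
        have : 0 < η * T := by positivity
        linarith

end Pool.Agent.H203.HX
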